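import Pool.Agent.Helper73.DM.Defs

/-!
# DM-19: D0L systems and matrices

`R` = the reachable letters: `(letters p).filter (fun a => ∃ n, a ∈ h^n(ω))` (classical). Every letter of a word `h^n(ω)` is in `R` (it occurs in the axiom or in some `h(a)`, `a < p.1.length`). For `a, b ∈ R`:
`M a b = (p.1.getD a []).count b`, `π b = p.2.count b`. If `a ∈ R`, all letters of `h(a)` are in `R`. With `c_n(b) = (h^n ω).count b`: `c_(n+1)(b) = ∑_{a ∈ R} c_n(a) M a b` (`List.count_flatMap`, then sum over the distinct letters),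
so `c_n = π M^n` and `grow p n = length = ∑_{b ∈ R} c_n(b)` (`List.length_eq_sum_count`-like lemma: `Multiset.toFinset_sum_count_eq`). Reachability: `a ∈ h^n(ω)` means `c_n(a) > 0`.
Last clause: if every row of `M` is nonzero, then `h(a) ≠ []` for all reachable `a`, so every letter of the word `h^n(ω)` has an image of length `≥ 1`: `length (flatMap) ≥ length`.
-/

set_option autoImplicit false

namespace Pool.Agent.Helper73.DM

/-- the `n`-th word -/
private def wd (p : List (List ℕ) × List ℕ) (n : ℕ) : List ℕ :=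
  (fun w : List ℕ => w.flatMap (fun a => p.1.getD a []))^[n] p.2

private theorem wd_succ (p : List (List ℕ) × List ℕ) (n : ℕ) :
    wd p (n + 1) = (wd p n).flatMap (fun a => p.1.getD a []) := by
  unfold wd
  rw [Function.iterate_succ_apply']

private theorem getD_mem (p : List (List ℕ) × List ℕ) (c : ℕ) :
    p.1.getD c [] = [] ∨ p.1.getD c [] ∈ p.1 := by
  rcases lt_or_ge c p.1.length with h | h
  · right
    rw [List.getD_eq_getElem _ _ h]
    exact List.getElem_mem h
  · left
    exact List.getD_eq_default _ _ h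

private theorem mem_letters (p : List (List ℕ) × List ℕ) {n a : ℕ} (h : a ∈ wd p n) :
    a ∈ letters p := by
  unfold letters
  rw [List.mem_toFinset, List.mem_append]
  cases n with
  | zero => exact Or.inr h
  | succ n =>
    left
    rw [wd_succ, List.mem_flatMap] at h
    obtain ⟨c, -, hc⟩ := h
    rcases getD_mem p c with h1 | h1
    · rw [h1] at hc
      simp at hc
    · rw [List.mem_flatten]
      exact ⟨_, h1, hc⟩

private theorem sum_count (l : List ℕ) (R : Finset ℕ) (h : ∀ a ∈ l, a ∈ R) (f : ℕ → ℕ) :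
    (l.map f).sum = ∑ a : R, l.count (a : ℕ) * f a := by
  rw [Finset.sum_coe_sort R (fun a => l.count a * f a), Finset.sum_list_map_count]
  refine Finset.sum_subset ?_ ?_
  · intro a ha
    exact h a (List.mem_toFinset.1 ha)
  · intro a _ ha
    rw [List.count_eq_zero_of_not_mem (fun h' => ha (List.mem_toFinset.2 h'))]
    simp

private theorem sum_count_le (l : List ℕ) (R : Finset ℕ) :
    ∑ a : R, l.count (a : ℕ) ≤ l.length := by
  rw [Finset.sum_coe_sort R (fun a => l.count a), ← List.sum_toFinset_count_eq_length]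
  have h1 : ∑ a ∈ R, l.count a = ∑ a ∈ R ∩ l.toFinset, l.count a := by
    symm
    refine Finset.sum_subset Finset.inter_subset_left ?_
    intro a ha hn
    refine List.count_eq_zero_of_not_mem fun h' => hn ?_
    exact Finset.mem_inter.2 ⟨ha, List.mem_toFinset.2 h'⟩
  rw [h1]
  exact Finset.sum_le_sum_of_subset Finset.inter_subset_right

theorem exists_matrix (p : List (List ℕ) × List ℕ) :
    ∃ (R : Finset ℕ) (M : Matrix R R ℕ) (w : R → ℕ), R ⊆ letters p ∧
      (∀ n, grow p n = ∑ b, Matrix.vecMul w (M ^ n) b) ∧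
      (∀ a, ∃ n : ℕ, 0 < Matrix.vecMul w (M ^ n) a) ∧
      (∀ a, ∑ b, M a b ≤ p.1.flatten.length) ∧
      ((∀ a, ∃ b, M a b ≠ 0) → Mono p) := by
  classical
  obtain ⟨R, hR⟩ : ∃ R : Finset ℕ, R = (letters p).filter (fun a => ∃ n, a ∈ wd p n) := ⟨_, rfl⟩
  have hmem : ∀ n a, a ∈ wd p n → a ∈ R := by
    intro n a h
    rw [hR, Finset.mem_filter]
    exact ⟨mem_letters p h, n, h⟩
  have hex : ∀ a ∈ R, ∃ n, a ∈ wd p n := by
    intro a h
    rw [hR, Finset.mem_filter] at h
    exact h.2
  obtain ⟨M, hM⟩ : ∃ M : Matrix R R ℕ, ∀ a b : R, M a b = (p.1.getD (a : ℕ) []).count (b : ℕ) :=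
    ⟨Matrix.of fun a b : R => (p.1.getD (a : ℕ) []).count (b : ℕ), fun a b => rfl⟩
  obtain ⟨w, hw⟩ : ∃ w : R → ℕ, ∀ b : R, w b = p.2.count (b : ℕ) := ⟨_, fun b => rfl⟩
  have hc : ∀ n, ∀ b : R, Matrix.vecMul w (M ^ n) b = (wd p n).count (b : ℕ) := by
    intro n
    induction n with
    | zero =>
      intro b
      rw [pow_zero, Matrix.vecMul_one, hw]
      rfl
    | succ n ih =>
      intro b
      rw [pow_succ, ← Matrix.vecMul_vecMul, wd_succ, List.count_flatMap]
      have h1 := sum_count (wd p n) R (hmem n) ((List.count (b : ℕ)) ∘ fun a => p.1.getD a [])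
      rw [h1]
      have h3 : Matrix.vecMul (Matrix.vecMul w (M ^ n)) M b =
          ∑ a : R, Matrix.vecMul w (M ^ n) a * M a b := rfl
      rw [h3]
      refine Finset.sum_congr rfl fun a _ => ?_
      rw [ih a, hM]
      rfl
  have hg : ∀ n, grow p n = (wd p n).length := fun n => rfl
  refine ⟨R, M, w, ?_, ?_, ?_, ?_, ?_⟩
  · rw [hR]
    exact Finset.filter_subset _ _
  · intro n
    rw [hg]
    have h1 := sum_count (wd p n) R (hmem n) (fun _ => 1)
    have h2 : ((wd p n).map (fun _ => 1)).sum = (wd p n).length := by simp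
    rw [← h2, h1]
    refine Finset.sum_congr rfl fun b _ => ?_
    rw [hc, mul_one]
  · intro a
    obtain ⟨n, hn⟩ := hex a a.2
    refine ⟨n, ?_⟩
    rw [hc]
    exact List.count_pos_iff.2 hn
  · intro a
    have h1 : ∑ b, M a b = ∑ b : R, (p.1.getD (a : ℕ) []).count (b : ℕ) :=
      Finset.sum_congr rfl fun b _ => hM a b
    rw [h1]
    refine (sum_count_le _ R).trans ?_
    rcases getD_mem p a with h2 | h2
    · rw [h2]
      exact Nat.zero_le _
    · rw [List.length_flatten]
      exact List.single_le_sum (by simp) _ (List.mem_map_of_mem h2)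
  · intro hrow n
    rw [hg, hg, wd_succ, List.length_flatMap]
    have h1 : ∀ a ∈ wd p n, 1 ≤ (p.1.getD a []).length := by
      intro a ha
      obtain ⟨b, hb⟩ := hrow ⟨a, hmem n a ha⟩
      rw [hM] at hb
      have h2 : (b : ℕ) ∈ p.1.getD a [] := List.count_pos_iff.1 (Nat.pos_of_ne_zero hb)
      exact List.length_pos_of_mem h2
    have h3 : ∀ l : List ℕ, (∀ a ∈ l, 1 ≤ (p.1.getD a []).length) →
        l.length ≤ (l.map (fun a => (p.1.getD a []).length)).sum := by
      intro l
      induction l with
      | nil => intro _; simp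
      | cons c l ih =>
        intro h
        rw [List.length_cons, List.map_cons, List.sum_cons]
        have h4 := ih fun a ha => h a (List.mem_cons_of_mem _ ha)
        have h5 := h c List.mem_cons_self
        omega
    exact h3 _ h1

end Pool.Agent.Helper73.DM
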