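import Pool.Agent.Helper73.DM.Structure
import Pool.Agent.Helper73.DM.Mat

/-!
# DM-20: the difference sequences of a D0L system: structure, annihilator and size

* `grow_le`: `grow p (n+1) ≤ p.1.flatten.length * grow p n` (every `h(a)` has length `≤ p.1.flatten.length`), `grow p 0 ≤ sz p`, `p.1.flatten.length ≤ sz p`.
* `d0l_structure`: `exists_matrix`; if every row is nonzero: `Mono p`. Otherwise `structure_thm` (`card R ≤ (letters p).card ≤ k + 4`); `difZ` cast to `ℂ` is `dif` of the cast growth function.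
* `ann_dif`: `exists_matrix`, `N = ` the matrix `M` over `ℤ`, `χ0 = (N ^ P).charpoly`, `natDegree χ0 = card R ≤ k + 4`, `χ = χ0 * X ^ (k + 4 - card R)`. `difZ p P r n = ℓ ((N^P)^n v)` with `ℓ = w (N - 1) N^(P + r)`, `v = 1`: `act_matrix` and
  Cayley-Hamilton. Roots: `0`, or an eigenvalue `z` of `cm (M^P)`: `(N^P) v = z v`; the row sums of `M` are `≤ p.1.flatten.length ≤ sz p =: S`, so the row sums of `M^P` are `≤ S^P` and with `‖v a‖` maximal `‖z‖ ≤ S^P`.
* `difZ_le`: from `grow_le`: `|difZ p P r n| ≤ max of the two growth values ≤ S^(P (n+1) + r + 2)`.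
-/

set_option autoImplicit false

open Polynomial

namespace Pool.Agent.Helper73.DM

private theorem ad_row {ι : Type} [Fintype ι] [DecidableEq ι] (M : Matrix ι ι ℕ) (L : ℕ)
    (hL : ∀ a, ∑ b, M a b ≤ L) (n : ℕ) (a : ι) : ∑ b, (M ^ n) a b ≤ L ^ n := by
  induction n with
  | zero =>
    rw [pow_zero, pow_zero]
    have h1 : ∑ b, (1 : Matrix ι ι ℕ) a b = 1 := by
      simp [Matrix.one_apply]
    exact h1.le
  | succ n ih =>
    have h1 : ∑ b, (M ^ (n + 1)) a b = ∑ c, (M ^ n) a c * ∑ b, M c b := by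
      simp only [pow_succ, Matrix.mul_apply, Finset.mul_sum]
      rw [Finset.sum_comm]
    rw [h1, pow_succ]
    calc ∑ c, (M ^ n) a c * ∑ b, M c b ≤ ∑ c, (M ^ n) a c * L :=
          Finset.sum_le_sum fun c _ => Nat.mul_le_mul_left _ (hL c)
      _ = (∑ c, (M ^ n) a c) * L := by rw [Finset.sum_mul]
      _ ≤ L ^ n * L := Nat.mul_le_mul_right _ ih

private theorem ad_L_le (p : List (List ℕ) × List ℕ) : p.1.flatten.length ≤ sz p := by
  unfold sz
  omega

private theorem ad_one_le (p : List (List ℕ) × List ℕ) : 1 ≤ sz p := by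
  unfold sz
  omega

theorem grow_le (p : List (List ℕ) × List ℕ) (n : ℕ) : grow p n ≤ sz p ^ (n + 1) := by
  obtain ⟨R, M, w, -, hg, -, hL, -⟩ := exists_matrix p
  induction n with
  | zero =>
    have h1 : grow p 0 = p.2.length := rfl
    rw [h1, zero_add, pow_one]
    unfold sz
    omega
  | succ n ih =>
    have h1 : grow p (n + 1) ≤ p.1.flatten.length * grow p n := by
      rw [hg, hg]
      have h2 : ∑ b, Matrix.vecMul w (M ^ (n + 1)) b =
          ∑ a, Matrix.vecMul w (M ^ n) a * ∑ b, M a b := by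
        rw [pow_succ, ← Matrix.vecMul_vecMul]
        have h3 : ∀ b, Matrix.vecMul (Matrix.vecMul w (M ^ n)) M b =
            ∑ a, Matrix.vecMul w (M ^ n) a * M a b := fun b => rfl
        simp only [h3, Finset.mul_sum]
        rw [Finset.sum_comm]
      rw [h2, Finset.mul_sum]
      refine Finset.sum_le_sum fun a _ => ?_
      rw [mul_comm]
      exact Nat.mul_le_mul_right _ (hL a)
    calc grow p (n + 1) ≤ p.1.flatten.length * grow p n := h1
      _ ≤ sz p * sz p ^ (n + 1) := Nat.mul_le_mul (ad_L_le p) ih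
      _ = sz p ^ (n + 1 + 1) := by rw [pow_succ (sz p) (n + 1), mul_comm]

theorem d0l_structure (k : ℕ) (p : List (List ℕ) × List ℕ) (hc : (letters p).card ≤ k + 4) :
    Mono p ∨ ∀ r : ℕ, (∃ A : ℂ[X], A ≠ 0 ∧ A.natDegree ≤ k ∧
      act A (fun n => ((difZ p (k + 4).factorial r n : ℤ) : ℂ)) = 0) ∨
      Dom (fun n => ((difZ p (k + 4).factorial r n : ℤ) : ℂ)) := by
  classical
  obtain ⟨R, M, w, hR, hg, hre, hL, hM⟩ := exists_matrix p
  by_cases hrow : ∀ a, ∃ b, M a b ≠ 0
  · exact Or.inl (hM hrow)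
  · right
    push Not at hrow
    intro r
    have hcard : Fintype.card R ≤ k + 4 := by
      rw [Fintype.card_coe]
      exact (Finset.card_le_card hR).trans hc
    have h1 := structure_thm k M w hcard hrow hre r
    have h2 : dif (fun n => ((∑ b, Matrix.vecMul w (M ^ n) b : ℕ) : ℂ)) (k + 4).factorial r =
        fun n => ((difZ p (k + 4).factorial r n : ℤ) : ℂ) := by
      funext n
      unfold dif difZ
      simp only [← hg]
      push_cast
      rfl
    rw [h2] at h1
    exact h1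

theorem ann_dif (d : ℕ) (p : List (List ℕ) × List ℕ) (hc : (letters p).card ≤ d) (P : ℕ) :
    ∃ χ : ℤ[X], χ.Monic ∧ χ.natDegree = d ∧
      (∀ z ∈ (χ.map (Int.castRingHom ℂ)).roots, ‖z‖ ≤ (sz p : ℝ) ^ P) ∧
      ∀ r : ℕ, act χ (difZ p P r) = 0 := by
  classical
  obtain ⟨R, M, w, hR, hg, -, hL, -⟩ := exists_matrix p
  have hcard : R.card ≤ d := (Finset.card_le_card hR).trans hc
  set N : Matrix R R ℤ := M.map (Nat.castRingHom ℤ) with hN
  set χ0 : ℤ[X] := (N ^ P).charpoly with hχ0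
  have hmon0 : χ0.Monic := Matrix.charpoly_monic _
  have hdeg0 : χ0.natDegree = R.card := by
    rw [hχ0, Matrix.charpoly_natDegree_eq_dim, Fintype.card_coe]
  refine ⟨χ0 * X ^ (d - R.card), hmon0.mul (monic_X_pow _), ?_, ?_, ?_⟩
  · rw [hmon0.natDegree_mul (monic_X_pow _), hdeg0, natDegree_X_pow]
    omega
  · intro z hz
    have hS : (0 : ℝ) ≤ (sz p : ℝ) ^ P := by positivity
    have h1 := (mem_roots'.1 hz).2
    rw [IsRoot.def, Polynomial.map_mul, eval_mul, Polynomial.map_pow, map_X, eval_pow, eval_X] at h1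
    rcases mul_eq_zero.1 h1 with h2 | h2
    · have h3 : z ∈ ((cm ((M.map (Nat.cast : ℕ → ℝ)) ^ P)).charpoly).roots := by
        have h4 : (cm ((M.map (Nat.cast : ℕ → ℝ)) ^ P)) = (N ^ P).map (Int.castRingHom ℂ) := by
          rw [cm_pow, Matrix.map_pow, hN]
          congr 1
        rw [h4, Matrix.charpoly_map, mem_roots ((hmon0.map _).ne_zero)]
        exact h2
      rw [eig_iff] at h3
      obtain ⟨v, hv0, hv⟩ := h3
      obtain ⟨a0, ha0⟩ : ∃ a0, v a0 ≠ 0 := by
        by_contra hcon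
        push Not at hcon
        exact hv0 (funext hcon)
      obtain ⟨a, -, ha⟩ := Finset.exists_max_image Finset.univ (fun a => ‖v a‖)
        ⟨a0, Finset.mem_univ a0⟩
      have hva : 0 < ‖v a‖ := (norm_pos_iff.2 ha0).trans_le (ha a0 (Finset.mem_univ a0))
      have h5 := congrFun hv a
      rw [Pi.smul_apply, smul_eq_mul] at h5
      have hMP : ∀ b, ((M.map (Nat.cast : ℕ → ℝ)) ^ P) a b = (((M ^ P) a b : ℕ) : ℝ) := by
        intro b
        have h6 : (M.map (Nat.castRingHom ℝ)) ^ P = (M ^ P).map (Nat.castRingHom ℝ) :=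
          (Matrix.map_pow M (Nat.castRingHom ℝ) P).symm
        have h7 := congrFun (congrFun h6 a) b
        exact h7
      have h6 : ‖z‖ * ‖v a‖ ≤ (sz p : ℝ) ^ P * ‖v a‖ := by
        rw [← norm_mul, ← h5]
        calc ‖∑ b, cm ((M.map (Nat.cast : ℕ → ℝ)) ^ P) a b * v b‖ ≤
            ∑ b, ‖cm ((M.map (Nat.cast : ℕ → ℝ)) ^ P) a b * v b‖ := norm_sum_le _ _
          _ ≤ ∑ b, (((M ^ P) a b : ℕ) : ℝ) * ‖v a‖ := by
              refine Finset.sum_le_sum fun b _ => ?_
              rw [norm_mul, cm_apply, hMP b, Complex.norm_real, Real.norm_eq_abs,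
                abs_of_nonneg (Nat.cast_nonneg _)]
              exact mul_le_mul_of_nonneg_left (ha b (Finset.mem_univ b)) (Nat.cast_nonneg _)
          _ = ((∑ b, (M ^ P) a b : ℕ) : ℝ) * ‖v a‖ := by
              rw [← Finset.sum_mul, Nat.cast_sum]
          _ ≤ (sz p : ℝ) ^ P * ‖v a‖ := by
              refine mul_le_mul_of_nonneg_right ?_ (norm_nonneg _)
              have h7 := ad_row M p.1.flatten.length hL P a
              have h8 : p.1.flatten.length ^ P ≤ sz p ^ P := Nat.pow_le_pow_left (ad_L_le p) P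
              exact_mod_cast h7.trans h8
      exact le_of_mul_le_mul_right h6 hva
    · have h3 : z = 0 := eq_zero_of_pow_eq_zero h2
      rw [h3, norm_zero]
      exact hS
  · intro r
    refine act_of_dvd (dvd_mul_right χ0 _) ?_
    have hgz : ∀ m, (grow p m : ℤ) =
        (fun b => (w b : ℤ)) ⬝ᵥ (N ^ m).mulVec (fun _ => 1) := by
      intro m
      have h1 : (N ^ m) = (M ^ m).map (Nat.castRingHom ℤ) := (Matrix.map_pow M (Nat.castRingHom ℤ) m).symm
      rw [hg, h1, Matrix.dotProduct_mulVec]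
      simp only [dotProduct, mul_one, Nat.cast_sum]
      refine Finset.sum_congr rfl fun b _ => ?_
      simp only [Matrix.vecMul, dotProduct, Nat.cast_sum, Nat.cast_mul]
      rfl
    have h2 : difZ p P r = fun n => (fun b => (w b : ℤ)) ⬝ᵥ ((N ^ P) ^ n).mulVec
        ((N ^ (P + r) * (N - 1)).mulVec (fun _ => 1)) := by
      funext n
      unfold difZ
      rw [hgz, hgz, ← dotProduct_sub, ← Matrix.sub_mulVec, Matrix.mulVec_mulVec]
      congr 2
      rw [← pow_mul, mul_sub, mul_sub, mul_one, ← pow_succ, ← pow_add, ← pow_add]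
      have e1 : P * (n + 1) + r + 1 = P * n + (P + r + 1) := by ring
      have e2 : P * (n + 1) + r = P * n + (P + r) := by ring
      rw [e1, e2]
    funext n
    rw [h2, act_matrix, hχ0, Matrix.aeval_self_charpoly, mul_zero, Matrix.zero_mulVec,
      dotProduct_zero]
    rfl

theorem difZ_le (p : List (List ℕ) × List ℕ) (P r n : ℕ) :
    |difZ p P r n| ≤ (sz p : ℤ) ^ (P * (n + 1) + r + 2) := by
  unfold difZ
  have h1 := grow_le p (P * (n + 1) + r + 1)
  have h2 := grow_le p (P * (n + 1) + r)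
  have h3 : sz p ^ (P * (n + 1) + r + 1) ≤ sz p ^ (P * (n + 1) + r + 2) :=
    Nat.pow_le_pow_right (ad_one_le p) (by omega)
  have h4 : (grow p (P * (n + 1) + r + 1) : ℤ) ≤ (sz p : ℤ) ^ (P * (n + 1) + r + 2) := by
    exact_mod_cast h1
  have h5 : (grow p (P * (n + 1) + r) : ℤ) ≤ (sz p : ℤ) ^ (P * (n + 1) + r + 2) := by
    exact_mod_cast h2.trans h3
  have h6 : (0 : ℤ) ≤ grow p (P * (n + 1) + r + 1) := Nat.cast_nonneg _
  have h7 : (0 : ℤ) ≤ grow p (P * (n + 1) + r) := Nat.cast_nonneg _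
  rw [abs_le]
  constructor <;> linarith

end Pool.Agent.Helper73.DM
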