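import Pool.Agent.Helper73.DM.Act

/-!
# DM-24: a dominant positive root among the roots of a given annihilator

Proof. Let `Φ = ∏_i (X - C (lam i))`, `Ψ = (X - C ρ)^M * ψ` from `Dom x`, `q = gcd(Φ, Ψ)` made monic: `q = a Φ + b Ψ` kills `x` (`act_add`, `act_mul`). `q ∣ Φ`, so `q = ∏_{i ∈ J} (X - C (lam i))` for a subset `J` (multiset of the roots of
`q` `≤` multiset of the `lam i`; choose indices; a lemma: if `s ≤ Multiset.map lam univ.val` then `s = Multiset.map lam J.val` for some `J`, `Multiset.le_map_iff`-like, induction). `q ∣ Ψ`: every root of `q` is `ρ` or a root of `ψ` (norm `< ρ`).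
Let `J0 = J.filter (lam i = ρ)`, `I = J \ J0`. `∏_{i∈I} (X - C (lam i))` divides `Φ`, `Ψ` and, having no root `ρ`, divides `ψ` (coprime to `(X - C ρ)^M`); if it killed `x`, then `ψ` would kill `x`: contradiction. So `J0` is nonempty; let
`m` be minimal such that `(X - C ρ)^(m+1) * ∏_{i∈I} (X - C (lam i))` kills `x` (`m + 1 ≤ card J0`; `Nat.find`); `i0 ∈ J0`: `lam i0 = ρ`. Minimality: `(X - C ρ)^m * ∏` does not kill `x` (for `m = 0` by the above).
-/

set_option autoImplicit false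

open Polynomial

namespace Pool.Agent.Helper73.DM

private theorem kill_coprime {A B : ℂ[X]} (hAB : IsCoprime A B) {y : ℕ → ℂ} (hA : act A y = 0)
    (hB : act B y = 0) : y = 0 := by
  obtain ⟨a, b, hab⟩ := hAB
  have h1 : act (a * A + b * B) y = y := by rw [hab, act_one]
  rw [← h1, act_add, act_mul, act_mul, hA, hB, act_zero_seq, act_zero_seq, add_zero]

private theorem coprime_lin {a b : ℂ} (h : a ≠ b) : IsCoprime (X - C a) (X - C b) :=
  isCoprime_X_sub_C_of_isUnit_sub (sub_ne_zero.2 h).isUnit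

theorem dom_subset (d : ℕ) (lam : Fin d → ℂ) (x : ℕ → ℂ)
    (h : act (∏ i, (X - C (lam i))) x = 0) (hD : Dom x) :
    ∃ (i0 : Fin d) (m : ℕ) (I : Finset (Fin d)), m + 1 + I.card ≤ d ∧
      lam i0 = ((‖lam i0‖ : ℝ) : ℂ) ∧ 0 < ‖lam i0‖ ∧ (∀ i ∈ I, ‖lam i‖ < ‖lam i0‖) ∧
      act ((X - C (lam i0)) ^ (m + 1) * ∏ i ∈ I, (X - C (lam i))) x = 0 ∧
      act ((X - C (lam i0)) ^ m * ∏ i ∈ I, (X - C (lam i))) x ≠ 0 := by
  classical
  obtain ⟨ρ, M, ψ, hρ, hψ, hroots, hkill, hne⟩ := hD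
  -- a minimal set of indices
  obtain ⟨J, hJ, hmin⟩ := Finset.exists_min_image
    ((Finset.univ : Finset (Finset (Fin d))).filter
      (fun J => act (∏ i ∈ J, (X - C (lam i))) x = 0)) Finset.card
    ⟨Finset.univ, Finset.mem_filter.2 ⟨Finset.mem_univ _, h⟩⟩
  have hJ0 : act (∏ i ∈ J, (X - C (lam i))) x = 0 := (Finset.mem_filter.1 hJ).2
  have hmin' : ∀ i ∈ J, act (∏ i ∈ J.erase i, (X - C (lam i))) x ≠ 0 := by
    intro i hi h0
    have h1 := hmin _ (Finset.mem_filter.2 ⟨Finset.mem_univ _, h0⟩)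
    have h2 := Finset.card_erase_lt_of_mem hi
    omega
  -- every index of `J` gives a root of the annihilator of `Dom`
  have hroot : ∀ i ∈ J, lam i = (ρ : ℂ) ∨ ‖lam i‖ < ρ := by
    intro i hi
    by_contra hcon
    push Not at hcon
    obtain ⟨h1, h2⟩ := hcon
    apply hmin' i hi
    refine kill_coprime (A := X - C (lam i)) (B := (X - C (ρ : ℂ)) ^ M * ψ) ?_ ?_ ?_
    · refine IsCoprime.mul_right ((coprime_lin h1).pow_right) ?_
      rw [(irreducible_X_sub_C (lam i)).coprime_iff_not_dvd, dvd_iff_isRoot]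
      intro h3
      have h4 := hroots (lam i) ((mem_roots hψ.ne_zero).2 h3)
      linarith
    · rw [← act_mul, Finset.mul_prod_erase J (fun i => X - C (lam i)) hi]
      exact hJ0
    · rw [act_mul_comm, hkill, act_zero_seq]
  have hprod : ∏ i ∈ J, (X - C (lam i)) =
      (X - C (ρ : ℂ)) ^ (J.filter (fun i => lam i = (ρ : ℂ))).card *
        ∏ i ∈ J.filter (fun i => ¬ lam i = (ρ : ℂ)), (X - C (lam i)) := by
    rw [← Finset.prod_filter_mul_prod_filter_not J (fun i => lam i = (ρ : ℂ)), ← Finset.prod_const]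
    congr 1
    exact Finset.prod_congr rfl fun i hi => by rw [(Finset.mem_filter.1 hi).2]
  have hnon : (J.filter (fun i => lam i = (ρ : ℂ))).Nonempty := by
    by_contra hcon
    rw [Finset.not_nonempty_iff_eq_empty] at hcon
    apply hne
    refine kill_coprime (A := (X - C (ρ : ℂ)) ^ M) (B := ∏ i ∈ J, (X - C (lam i))) ?_ ?_ ?_
    · refine IsCoprime.pow_left (IsCoprime.prod_right fun i hi => coprime_lin fun h1 => ?_)
      have h2 : i ∈ J.filter (fun i => lam i = (ρ : ℂ)) := Finset.mem_filter.2 ⟨hi, h1.symm⟩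
      rw [hcon] at h2
      exact absurd h2 (Finset.notMem_empty i)
    · rw [← act_mul]
      exact hkill
    · rw [act_mul_comm, hJ0, act_zero_seq]
  obtain ⟨i0, hi0⟩ := hnon
  obtain ⟨hi0J, hi0ρ⟩ := Finset.mem_filter.1 hi0
  have hnorm : ‖lam i0‖ = ρ := by
    rw [hi0ρ, Complex.norm_real, Real.norm_eq_abs, abs_of_pos hρ]
  have hcard : (J.filter (fun i => lam i = (ρ : ℂ))).card - 1 + 1 =
      (J.filter (fun i => lam i = (ρ : ℂ))).card :=
    Nat.succ_pred_eq_of_pos (Finset.card_pos.2 ⟨i0, hi0⟩)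
  refine ⟨i0, (J.filter (fun i => lam i = (ρ : ℂ))).card - 1,
    J.filter (fun i => ¬ lam i = (ρ : ℂ)), ?_, ?_, ?_, ?_, ?_, ?_⟩
  · rw [hcard, Finset.card_filter_add_card_filter_not]
    exact (Finset.card_le_univ J).trans (by rw [Fintype.card_fin])
  · rw [hnorm, hi0ρ]
  · rw [hnorm]; exact hρ
  · intro i hi
    rw [hnorm]
    exact (hroot i (Finset.mem_filter.1 hi).1).resolve_left (Finset.mem_filter.1 hi).2
  · rw [hcard, hi0ρ, ← hprod]
    exact hJ0
  · intro h0
    apply hmin' i0 hi0J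
    have h1 : (X - C (lam i0)) * ∏ i ∈ J.erase i0, (X - C (lam i)) =
        (X - C (lam i0)) * ((X - C (lam i0)) ^
          ((J.filter (fun i => lam i = (ρ : ℂ))).card - 1) *
            ∏ i ∈ J.filter (fun i => ¬ lam i = (ρ : ℂ)), (X - C (lam i))) := by
      rw [Finset.mul_prod_erase J (fun i => X - C (lam i)) hi0J, hprod, ← mul_assoc, ← pow_succ',
        hcard, hi0ρ]
    rw [mul_left_cancel₀ (X_sub_C_ne_zero (lam i0)) h1]
    exact h0

end Pool.Agent.Helper73.DM
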