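import Pool.Agent.Helper73.DM.Act

/-!
# DM-25: explicit asymptotics: the base case and the inversion of one factor

* `est_base`. `v` is killed by `(X - ρ)^(m+1)`. `v n = ∑_{j ≤ m} b_j choose(n,j) ρ^(n-j)` with `b_j = (act ((X - C ρ)^j) v) 0` (terms with `j > n` are zero because of the binomial coefficient; induction on `m`: the difference of both sides is killed by
  `(X - ρ)^(m+1)` and vanishes for `n ≤ m`, or `X = ρ + (X - ρ)` and the binomial theorem: `v n = (act (X^n) v) 0`, `X^n = ∑_j choose(n,j) ρ^(n-j) (X-ρ)^j`). `v n/ρ^n = ∑_j b_j ρ^(-j) choose(n,j)`; `choose(n,m) = n^m/m! + O(n^(m-1))`: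
  `|choose(n,m) - n^m/m!| (n+1) ≤ C (n+1)^m`, `choose(n,j) (n+1) ≤ (n+1)^m` for `j < m`. `‖b_j‖ ≤ T`, `ρ^(-j) ≤ T^j`: `B = C' T^(m+1) ≤ T^c`.
* `est_step`. `u (n+1) = λ u n + v n`, `U n = u n/ρ^n - c' n^m`, `c' = c/(ρ - λ)`; `U (n+1) = (λ/ρ) U n + (1/ρ)(v n/ρ^n - c n^m) + c'(n^m - (n+1)^m)` (since `(λ/ρ) c' + c/ρ = c'`). `‖λ/ρ‖ ≤ 1 - 1/T²` (`‖λ‖ ≤ ρ - 1/T`, `ρ ≤ T`). The inhomogeneous term `E n` has
  `‖E n‖ (n+1) ≤ B1 (n+1)^m`, `B1 ≤ T·T + ‖c'‖ 2^m m ≤ T^c1` (`‖c'‖ ≤ T·T`, `|(n+1)^m - n^m| (n+1) ≤ m (n+1)^m`). Claim `‖U n‖ (n+1) ≤ B2 (n+1)^m` with `B2 = T^c`: induction on `n`; for `m ≥ 1`: `‖U n‖ ≤ B2 (n+1)^(m-1)` with `B2 = T² B1 + ‖u 0‖` suffices, since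
  `(1 - T⁻²) B2 (n+1)^(m-1) + B1 (n+1)^(m-1) ≤ B2 (n+2)^(m-1)`. For `m = 0`: `‖U n‖ ≤ B2/(n+1)`, `B2 = 4 T^4 (B1 + T + 1)`: for `n + 2 ≤ 2T²` use the crude bound `‖U n‖ ≤ ‖U 0‖ + T² B1`, afterwards `(1 - T⁻²)/(n+1) + (B1/B2)/(n+1) ≤ 1/(n+2)`.
-/

set_option autoImplicit false

open Polynomial

namespace Pool.Agent.Helper73.DM

private theorem desc_bound (m n : ℕ) :
    ((n : ℝ) ^ m - (n.descFactorial m : ℝ)) * (n + 1) ≤ (m : ℝ) ^ 2 * (n + 1) ^ m := by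
  induction m with
  | zero => simp
  | succ m ih =>
    have h1 : ((n.descFactorial (m + 1) : ℕ) : ℝ) = ((n : ℝ) - m) * (n.descFactorial m : ℝ) := by
      rw [Nat.descFactorial_succ]
      rcases Nat.lt_or_ge n m with h | h
      · rw [Nat.descFactorial_of_lt h]; simp
      · push_cast [Nat.cast_sub h]; ring
    have h2 : (n.descFactorial m : ℝ) ≤ (n : ℝ) ^ m := by
      exact_mod_cast Nat.descFactorial_le_pow n m
    have h3 : (n : ℝ) ^ m ≤ ((n : ℝ) + 1) ^ m := pow_le_pow_left₀ (by positivity) (by linarith) m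
    have hn : (0 : ℝ) ≤ n := Nat.cast_nonneg n
    have hm : (0 : ℝ) ≤ m := Nat.cast_nonneg m
    have hp : (0 : ℝ) ≤ ((n : ℝ) + 1) ^ m := by positivity
    rw [h1]
    push_cast
    have h4 : ((n : ℝ) ^ (m + 1) - ((n : ℝ) - m) * (n.descFactorial m : ℝ)) * (n + 1) =
        n * (((n : ℝ) ^ m - (n.descFactorial m : ℝ)) * (n + 1)) +
          m * ((n.descFactorial m : ℝ) * (n + 1)) := by ring
    rw [h4]
    have h5 : (n : ℝ) * (((n : ℝ) ^ m - (n.descFactorial m : ℝ)) * (n + 1)) ≤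
        n * ((m : ℝ) ^ 2 * (n + 1) ^ m) := mul_le_mul_of_nonneg_left ih hn
    have h6 : (m : ℝ) * ((n.descFactorial m : ℝ) * (n + 1)) ≤ m * ((n + 1) ^ m * (n + 1)) := by
      refine mul_le_mul_of_nonneg_left ?_ hm
      exact mul_le_mul_of_nonneg_right (h2.trans h3) (by linarith)
    have h7 : ((m : ℝ) + 1) ^ 2 * ((n : ℝ) + 1) ^ (m + 1) -
        (n * ((m : ℝ) ^ 2 * (n + 1) ^ m) + m * ((n + 1) ^ m * (n + 1))) =
        ((n : ℝ) + 1) ^ m * ((m : ℝ) ^ 2 + (m + 1) * (n + 1)) := by ring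
    have h8 : (0 : ℝ) ≤ ((n : ℝ) + 1) ^ m * ((m : ℝ) ^ 2 + (m + 1) * (n + 1)) := by positivity
    linarith

private theorem choose_bound (m n : ℕ) :
    |((n.choose m : ℕ) : ℝ) - (n : ℝ) ^ m / m.factorial| * (n + 1) ≤ (m : ℝ) ^ 2 * (n + 1) ^ m := by
  have hf : (1 : ℝ) ≤ m.factorial := by exact_mod_cast Nat.factorial_pos m
  have h1 : ((n.choose m : ℕ) : ℝ) = (n.descFactorial m : ℝ) / m.factorial := by
    rw [eq_div_iff (by linarith), mul_comm]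
    exact_mod_cast (Nat.descFactorial_eq_factorial_mul_choose n m).symm
  have h2 : (n.descFactorial m : ℝ) ≤ (n : ℝ) ^ m := by
    exact_mod_cast Nat.descFactorial_le_pow n m
  rw [h1, ← sub_div, abs_div, abs_of_pos (by linarith : (0 : ℝ) < m.factorial),
    abs_of_nonpos (by linarith), neg_sub, div_mul_eq_mul_div, div_le_iff₀ (by linarith)]
  refine (desc_bound m n).trans ?_
  have h3 : (0 : ℝ) ≤ (m : ℝ) ^ 2 * (n + 1) ^ m := by positivity
  nlinarith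

private theorem choose_small {j m : ℕ} (hj : j < m) (n : ℕ) :
    ((n.choose j : ℕ) : ℝ) * (n + 1) ≤ ((n : ℝ) + 1) ^ m := by
  have h1 : ((n.choose j : ℕ) : ℝ) ≤ (n : ℝ) ^ j := by
    have h2 : n.choose j ≤ n ^ j := by
      refine le_trans ?_ (Nat.descFactorial_le_pow n j)
      rw [Nat.descFactorial_eq_factorial_mul_choose]
      exact Nat.le_mul_of_pos_left _ (Nat.factorial_pos j)
    exact_mod_cast h2
  have hn : (0 : ℝ) ≤ n := Nat.cast_nonneg n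
  have h3 : (n : ℝ) ^ j ≤ ((n : ℝ) + 1) ^ j := pow_le_pow_left₀ hn (by linarith) j
  calc ((n.choose j : ℕ) : ℝ) * (n + 1) ≤ ((n : ℝ) + 1) ^ j * (n + 1) :=
        mul_le_mul_of_nonneg_right (h1.trans h3) (by linarith)
    _ = ((n : ℝ) + 1) ^ (j + 1) := by ring
    _ ≤ _ := pow_le_pow_right₀ (by linarith) (by omega)

private theorem expand_v {ρ : ℂ} {m : ℕ} {v : ℕ → ℂ} (hv : act ((X - C ρ) ^ (m + 1)) v = 0)
    (n : ℕ) : v n = ∑ j ∈ Finset.range (m + 1),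
      act ((X - C ρ) ^ j) v 0 * ρ ^ (n - j) * (n.choose j : ℂ) := by
  have h0 : v n = act ((X : ℂ[X]) ^ n) v 0 := by rw [act_X_pow, zero_add]
  have h1 : (X : ℂ[X]) ^ n = ∑ j ∈ Finset.range (n + 1),
      (X - C ρ) ^ j * C (ρ ^ (n - j) * (n.choose j : ℂ)) := by
    have h2 : (X : ℂ[X]) = (X - C ρ) + C ρ := by ring
    conv_lhs => rw [h2, add_pow]
    refine Finset.sum_congr rfl fun j _ => ?_
    rw [C_mul, C_pow, mul_assoc]
    simp
  have h3 : v n = ∑ j ∈ Finset.range (n + 1),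
      act ((X - C ρ) ^ j) v 0 * ρ ^ (n - j) * (n.choose j : ℂ) := by
    have h4 : act (∑ j ∈ Finset.range (n + 1),
        (X - C ρ) ^ j * C (ρ ^ (n - j) * (n.choose j : ℂ))) v = ∑ j ∈ Finset.range (n + 1),
        (ρ ^ (n - j) * (n.choose j : ℂ)) • act ((X - C ρ) ^ j) v := by
      have h5 : ∀ s : Finset ℕ, act (∑ j ∈ s,
          (X - C ρ) ^ j * C (ρ ^ (n - j) * (n.choose j : ℂ))) v = ∑ j ∈ s,
          (ρ ^ (n - j) * (n.choose j : ℂ)) • act ((X - C ρ) ^ j) v := by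
        intro s
        classical
        induction s using Finset.induction_on with
        | empty => rw [Finset.sum_empty, Finset.sum_empty, act_zero]
        | insert a s ha ih =>
          rw [Finset.sum_insert ha, Finset.sum_insert ha, act_add, ih, act_mul, act_C, act_smul_seq]
      exact h5 _
    rw [h0, h1, h4, Finset.sum_apply]
    refine Finset.sum_congr rfl fun j _ => ?_
    rw [Pi.smul_apply, smul_eq_mul]
    ring
  have hz : ∀ j, m + 1 ≤ j → act ((X - C ρ) ^ j) v 0 = 0 := by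
    intro j hj
    rw [act_of_dvd (pow_dvd_pow _ hj) hv]
    rfl
  rw [h3]
  rcases Nat.le_total n m with h | h
  · refine Finset.sum_subset (Finset.range_mono (by omega)) fun j _ hj => ?_
    rw [Finset.mem_range, not_lt] at hj
    rw [Nat.choose_eq_zero_of_lt (by omega)]
    simp
  · refine (Finset.sum_subset (Finset.range_mono (by omega)) fun j _ hj => ?_).symm
    rw [Finset.mem_range, not_lt] at hj
    rw [hz j hj]
    simp

private theorem nat_le_pow {T : ℝ} (hT : 2 ≤ T) (k : ℕ) : (k : ℝ) ≤ T ^ k := by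
  have h1 : (k : ℝ) ≤ 2 ^ k := by exact_mod_cast Nat.lt_two_pow_self.le
  exact h1.trans (pow_le_pow_left₀ (by norm_num) hT k)

theorem est_base (m : ℕ) :
    ∃ c : ℕ, ∀ (T : ℝ), 2 ≤ T → ∀ (ρ : ℝ), 0 < ρ → 1 ≤ T * ρ → ρ ≤ T → ∀ v : ℕ → ℂ,
      act ((X - C (ρ : ℂ)) ^ (m + 1)) v = 0 →
      (∀ j ≤ m, ‖act ((X - C (ρ : ℂ)) ^ j) v 0‖ ≤ T) →
      Est v ρ m (act ((X - C (ρ : ℂ)) ^ m) v 0 / (m.factorial * (ρ : ℂ) ^ m)) (T ^ c) := by
  refine ⟨(m ^ 2 + m) + (m + 1), fun T hT ρ hρ hTρ _ v hv hb n => ?_⟩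
  set b : ℕ → ℂ := fun j => act ((X - C (ρ : ℂ)) ^ j) v 0 with hbdef
  have hρC : (ρ : ℂ) ≠ 0 := by exact_mod_cast hρ.ne'
  have hT0 : (0 : ℝ) < T := by linarith
  have hT1 : (1 : ℝ) ≤ T := by linarith
  have hρi : ρ⁻¹ ≤ T := by
    rw [inv_le_iff_one_le_mul₀ hρ]
    exact hTρ
  have hfac : ((m.factorial : ℕ) : ℂ) ≠ 0 := by exact_mod_cast (Nat.factorial_pos m).ne'
  have hvn : v n / (ρ : ℂ) ^ n = ∑ j ∈ Finset.range (m + 1),
      b j * ((ρ : ℂ)⁻¹ ^ j * (n.choose j : ℂ)) := by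
    rw [expand_v hv n, Finset.sum_div]
    refine Finset.sum_congr rfl fun j _ => ?_
    rcases Nat.lt_or_ge n j with h | h
    · rw [Nat.choose_eq_zero_of_lt h]; simp
    · have h1 : (ρ : ℂ) ^ n = (ρ : ℂ) ^ (n - j) * (ρ : ℂ) ^ j := by
        rw [← pow_add]; congr 1; omega
      rw [h1, inv_pow]
      field_simp
      exact mul_comm _ _
  have hdec : v n / (ρ : ℂ) ^ n - b m / (m.factorial * (ρ : ℂ) ^ m) * (n : ℂ) ^ m =
      (∑ j ∈ Finset.range m, b j * ((ρ : ℂ)⁻¹ ^ j * (n.choose j : ℂ))) +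
      b m * ((ρ : ℂ)⁻¹ ^ m * ((n.choose m : ℂ) - (n : ℂ) ^ m / m.factorial)) := by
    rw [hvn, Finset.sum_range_succ, inv_pow]
    field_simp
    ring
  rw [hdec]
  have hn1 : (0 : ℝ) < (n : ℝ) + 1 := by positivity
  have hP : (0 : ℝ) < ((n : ℝ) + 1) ^ m := by positivity
  have hinv : ∀ j, j ≤ m → ‖(ρ : ℂ)⁻¹ ^ j‖ ≤ T ^ m := by
    intro j hj
    rw [norm_pow, norm_inv, Complex.norm_real, Real.norm_of_nonneg hρ.le]
    exact (pow_le_pow_left₀ (by positivity) hρi j).trans (pow_le_pow_right₀ hT1 hj)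
  have hterm : ∀ j ∈ Finset.range m, ‖b j * ((ρ : ℂ)⁻¹ ^ j * (n.choose j : ℂ))‖ * (n + 1) ≤
      T ^ (m + 1) * ((n : ℝ) + 1) ^ m := by
    intro j hj
    rw [Finset.mem_range] at hj
    rw [norm_mul, norm_mul, Complex.norm_natCast]
    have h1 := choose_small hj n
    have h2 := hb j hj.le
    have h3 := hinv j hj.le
    calc ‖b j‖ * (‖(ρ : ℂ)⁻¹ ^ j‖ * ((n.choose j : ℕ) : ℝ)) * (n + 1)
        = (‖b j‖ * ‖(ρ : ℂ)⁻¹ ^ j‖) * (((n.choose j : ℕ) : ℝ) * (n + 1)) := by ring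
      _ ≤ (T * T ^ m) * ((n : ℝ) + 1) ^ m := by
        refine mul_le_mul (mul_le_mul h2 h3 (norm_nonneg _) hT0.le) h1 (by positivity)
          (by positivity)
      _ = _ := by ring
  have hlast : ‖b m * ((ρ : ℂ)⁻¹ ^ m * ((n.choose m : ℂ) - (n : ℂ) ^ m / m.factorial))‖ * (n + 1) ≤
      (m : ℝ) ^ 2 * (T ^ (m + 1) * ((n : ℝ) + 1) ^ m) := by
    rw [norm_mul, norm_mul]
    have h0 : ‖(n.choose m : ℂ) - (n : ℂ) ^ m / m.factorial‖ =
        |((n.choose m : ℕ) : ℝ) - (n : ℝ) ^ m / m.factorial| := by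
      rw [← Real.norm_eq_abs, ← Complex.norm_real]
      push_cast
      rfl
    rw [h0]
    have h1 := choose_bound m n
    have h2 := hb m le_rfl
    have h3 := hinv m le_rfl
    calc ‖b m‖ * (‖(ρ : ℂ)⁻¹ ^ m‖ * |((n.choose m : ℕ) : ℝ) - (n : ℝ) ^ m / m.factorial|) * (n + 1)
        = (‖b m‖ * ‖(ρ : ℂ)⁻¹ ^ m‖) *
          (|((n.choose m : ℕ) : ℝ) - (n : ℝ) ^ m / m.factorial| * (n + 1)) := by ring
      _ ≤ (T * T ^ m) * ((m : ℝ) ^ 2 * ((n : ℝ) + 1) ^ m) := by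
        refine mul_le_mul (mul_le_mul h2 h3 (norm_nonneg _) hT0.le) h1 (by positivity)
          (by positivity)
      _ = _ := by ring
  have hsum : ‖∑ j ∈ Finset.range m, b j * ((ρ : ℂ)⁻¹ ^ j * (n.choose j : ℂ))‖ * (n + 1) ≤
      m * (T ^ (m + 1) * ((n : ℝ) + 1) ^ m) := by
    calc ‖∑ j ∈ Finset.range m, b j * ((ρ : ℂ)⁻¹ ^ j * (n.choose j : ℂ))‖ * (n + 1)
        ≤ (∑ j ∈ Finset.range m, ‖b j * ((ρ : ℂ)⁻¹ ^ j * (n.choose j : ℂ))‖) * (n + 1) :=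
          mul_le_mul_of_nonneg_right (norm_sum_le _ _) hn1.le
      _ = ∑ j ∈ Finset.range m, ‖b j * ((ρ : ℂ)⁻¹ ^ j * (n.choose j : ℂ))‖ * (n + 1) := by
        rw [Finset.sum_mul]
      _ ≤ ∑ j ∈ Finset.range m, T ^ (m + 1) * ((n : ℝ) + 1) ^ m := Finset.sum_le_sum hterm
      _ = _ := by rw [Finset.sum_const, Finset.card_range, nsmul_eq_mul]
  calc ‖(∑ j ∈ Finset.range m, b j * ((ρ : ℂ)⁻¹ ^ j * (n.choose j : ℂ))) +
      b m * ((ρ : ℂ)⁻¹ ^ m * ((n.choose m : ℂ) - (n : ℂ) ^ m / m.factorial))‖ * (n + 1)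
      ≤ (‖∑ j ∈ Finset.range m, b j * ((ρ : ℂ)⁻¹ ^ j * (n.choose j : ℂ))‖ +
      ‖b m * ((ρ : ℂ)⁻¹ ^ m * ((n.choose m : ℂ) - (n : ℂ) ^ m / m.factorial))‖) * (n + 1) :=
        mul_le_mul_of_nonneg_right (norm_add_le _ _) hn1.le
    _ ≤ m * (T ^ (m + 1) * ((n : ℝ) + 1) ^ m) +
        (m : ℝ) ^ 2 * (T ^ (m + 1) * ((n : ℝ) + 1) ^ m) := by rw [add_mul]; linarith
    _ = ((m ^ 2 + m : ℕ) : ℝ) * (T ^ (m + 1) * ((n : ℝ) + 1) ^ m) := by push_cast; ring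
    _ ≤ T ^ (m ^ 2 + m) * (T ^ (m + 1) * ((n : ℝ) + 1) ^ m) :=
        mul_le_mul_of_nonneg_right (nat_le_pow hT _) (by positivity)
    _ = _ := by rw [pow_add T (m ^ 2 + m) (m + 1)]; ring

private theorem rec_bound (m : ℕ) (a : ℕ → ℝ) (T B1 A : ℝ) (hT : 2 ≤ T) (ha : ∀ n, 0 ≤ a n)
    (hB1 : 0 ≤ B1) (h0 : a 0 + T ^ 2 * B1 ≤ A)
    (hrec : ∀ n : ℕ, a (n + 1) * (n + 1) ≤ (1 - 1 / T ^ 2) * a n * (n + 1) +
      B1 * ((n : ℝ) + 1) ^ m) (n : ℕ) :
    a n * (n + 1) ≤ 2 * T ^ 2 * A * ((n : ℝ) + 1) ^ m := by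
  have hT2 : (4 : ℝ) ≤ T ^ 2 := by nlinarith
  have hT20 : (0 : ℝ) < T ^ 2 := by linarith
  have hA : 0 ≤ A := by
    have := ha 0
    have : 0 ≤ T ^ 2 * B1 := by positivity
    linarith [ha 0]
  have hBA : T ^ 2 * B1 ≤ A := by linarith [ha 0]
  have haA : a 0 ≤ A := by
    have : 0 ≤ T ^ 2 * B1 := by positivity
    linarith
  have hq : (1 - 1 / T ^ 2) * A + B1 ≤ A := by
    have h1 : B1 ≤ A / T ^ 2 := by rw [le_div_iff₀ hT20]; linarith
    have h2 : (1 - 1 / T ^ 2) * A = A - A / T ^ 2 := by ring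
    linarith
  have hq0 : 0 ≤ 1 - 1 / T ^ 2 := by
    have : 1 / T ^ 2 ≤ 1 := by rw [div_le_one hT20]; linarith
    linarith
  rcases Nat.eq_zero_or_pos m with hm | hm
  · subst hm
    simp only [pow_zero, mul_one] at hrec ⊢
    have hcr : ∀ n, a n ≤ A := by
      intro n
      induction n with
      | zero => exact haA
      | succ n ih =>
        have hn1 : (0 : ℝ) < (n : ℝ) + 1 := by positivity
        have h1 : a (n + 1) * (n + 1) ≤ A * (n + 1) := by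
          refine (hrec n).trans ?_
          have h2 : (1 - 1 / T ^ 2) * a n ≤ (1 - 1 / T ^ 2) * A := mul_le_mul_of_nonneg_left ih hq0
          have h3 : B1 ≤ B1 * (n + 1) := by
            have : (0 : ℝ) ≤ n := Nat.cast_nonneg n
            nlinarith
          nlinarith
        exact le_of_mul_le_mul_right h1 hn1
    induction n with
    | zero =>
      simp only [Nat.cast_zero, zero_add, mul_one]
      nlinarith
    | succ n ih =>
      have hn0 : (0 : ℝ) ≤ n := Nat.cast_nonneg n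
      have hn1 : (0 : ℝ) < (n : ℝ) + 1 := by positivity
      push_cast
      rcases le_or_gt ((n : ℝ) + 1 + 1) (2 * T ^ 2) with h | h
      · calc a (n + 1) * ((n : ℝ) + 1 + 1) ≤ A * (2 * T ^ 2) :=
              mul_le_mul (hcr _) h (by positivity) hA
          _ = _ := by ring
      · have h1 : a (n + 1) * (n + 1) ≤ (1 - 1 / T ^ 2) * (2 * T ^ 2 * A) + B1 := by
          refine (hrec n).trans ?_
          have h2 := mul_le_mul_of_nonneg_left ih hq0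
          linarith
        have h3 : (1 - 1 / T ^ 2) * (2 * T ^ 2 * A) = 2 * T ^ 2 * A - 2 * A := by
          field_simp
        have h4 : B1 ≤ A := by nlinarith
        have h5 : a (n + 1) * (n + 1) ≤ 2 * T ^ 2 * A - A := by linarith
        have h6 : a (n + 1) * ((n : ℝ) + 1 + 1) * (n + 1) ≤ (2 * T ^ 2 * A) * (n + 1) := by
          calc a (n + 1) * ((n : ℝ) + 1 + 1) * (n + 1) = (a (n + 1) * (n + 1)) * ((n : ℝ) + 1 + 1) := by
                ring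
            _ ≤ (2 * T ^ 2 * A - A) * ((n : ℝ) + 1 + 1) :=
                mul_le_mul_of_nonneg_right h5 (by positivity)
            _ ≤ _ := by nlinarith
        exact le_of_mul_le_mul_right h6 hn1
  · obtain ⟨k, rfl⟩ : ∃ k, m = k + 1 := ⟨m - 1, by omega⟩
    have key : ∀ n : ℕ, a n ≤ A * ((n : ℝ) + 1) ^ k := by
      intro n
      induction n with
      | zero => simpa using haA
      | succ n ih =>
        have hn1 : (0 : ℝ) < (n : ℝ) + 1 := by positivity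
        have hP : (0 : ℝ) < ((n : ℝ) + 1) ^ k := by positivity
        have h1 : a (n + 1) * (n + 1) ≤ (A * ((n : ℝ) + 1) ^ k) * (n + 1) := by
          refine (hrec n).trans ?_
          have h2 := mul_le_mul_of_nonneg_left ih hq0
          have h3 : (1 - 1 / T ^ 2) * a n * (n + 1) ≤
              (1 - 1 / T ^ 2) * (A * ((n : ℝ) + 1) ^ k) * (n + 1) :=
            mul_le_mul_of_nonneg_right h2 hn1.le
          have h4 : ((1 - 1 / T ^ 2) * A + B1) * (((n : ℝ) + 1) ^ k * (n + 1)) ≤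
              A * (((n : ℝ) + 1) ^ k * (n + 1)) := mul_le_mul_of_nonneg_right hq (by positivity)
          have h6 : ((n : ℝ) + 1) ^ (k + 1) = ((n : ℝ) + 1) ^ k * (n + 1) := pow_succ _ _
          rw [h6]
          nlinarith
        have h5 := le_of_mul_le_mul_right h1 hn1
        refine h5.trans (mul_le_mul_of_nonneg_left ?_ hA)
        push_cast
        exact pow_le_pow_left₀ hn1.le (by linarith) k
    have hn1 : (0 : ℝ) < (n : ℝ) + 1 := by positivity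
    calc a n * (n + 1) ≤ A * ((n : ℝ) + 1) ^ k * (n + 1) :=
          mul_le_mul_of_nonneg_right (key n) hn1.le
      _ = A * ((n : ℝ) + 1) ^ (k + 1) := by ring
      _ ≤ 2 * T ^ 2 * A * ((n : ℝ) + 1) ^ (k + 1) := by
        refine mul_le_mul_of_nonneg_right ?_ (by positivity)
        nlinarith

private theorem pow_diff (m n : ℕ) :
    |((n : ℝ)) ^ m - ((n : ℝ) + 1) ^ m| * (n + 1) ≤ m * ((n : ℝ) + 1) ^ m := by
  induction m with
  | zero => simp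
  | succ m ih =>
    have hn : (0 : ℝ) ≤ n := Nat.cast_nonneg n
    have h1 : (n : ℝ) ^ m ≤ ((n : ℝ) + 1) ^ m := pow_le_pow_left₀ hn (by linarith) m
    have h2 : (n : ℝ) ^ (m + 1) ≤ ((n : ℝ) + 1) ^ (m + 1) := pow_le_pow_left₀ hn (by linarith) _
    rw [abs_of_nonpos (by linarith), neg_sub] at ih ⊢
    push_cast
    have h3 : (((n : ℝ) + 1) ^ (m + 1) - (n : ℝ) ^ (m + 1)) * (n + 1) =
        n * ((((n : ℝ) + 1) ^ m - (n : ℝ) ^ m) * (n + 1)) + ((n : ℝ) + 1) ^ (m + 1) := by ring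
    rw [h3]
    have h4 := mul_le_mul_of_nonneg_left ih hn
    have h5 : (0 : ℝ) ≤ m * ((n : ℝ) + 1) ^ m := by positivity
    have h6 : ((n : ℝ) + 1) ^ (m + 1) = ((n : ℝ) + 1) ^ m * (n + 1) := pow_succ _ _
    nlinarith

theorem est_step (m : ℕ) :
    ∃ c : ℕ, ∀ (T : ℝ), 2 ≤ T → ∀ (ρ : ℝ), 0 < ρ → 1 ≤ T * ρ → ρ ≤ T →
      ∀ (z : ℂ), 1 ≤ T * (ρ - ‖z‖) → ∀ (u v : ℕ → ℂ) (cc : ℂ), ‖cc‖ ≤ T → ‖u 0‖ ≤ T →
      (∀ n, u (n + 1) = z * u n + v n) → Est v ρ m cc T →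
      Est u ρ m (cc / ((ρ : ℂ) - z)) (T ^ c) := by
  refine ⟨(6 + 2 * m) + 6, fun T hT ρ hρ hTρ hρT z hz u v cc hcc hu0 hrec hv => ?_⟩
  have hT0 : (0 : ℝ) < T := by linarith
  have hT1 : (1 : ℝ) ≤ T := by linarith
  have hρC : (ρ : ℂ) ≠ 0 := by exact_mod_cast hρ.ne'
  have hgap : 1 / T ≤ ρ - ‖z‖ := by rw [div_le_iff₀ hT0]; linarith
  have hgap0 : 0 < ρ - ‖z‖ := lt_of_lt_of_le (by positivity) hgap
  have hnz : ρ - ‖z‖ ≤ ‖(ρ : ℂ) - z‖ := by
    have h1 := norm_sub_norm_le (ρ : ℂ) z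
    rw [Complex.norm_real, Real.norm_of_nonneg hρ.le] at h1
    exact h1
  have hne : (ρ : ℂ) - z ≠ 0 := by
    rw [← norm_pos_iff]
    linarith
  set c' : ℂ := cc / ((ρ : ℂ) - z) with hc'
  have hc'n : ‖c'‖ ≤ T ^ 2 := by
    rw [hc', norm_div, div_le_iff₀ (by linarith)]
    have h1 : 1 / T ≤ ‖(ρ : ℂ) - z‖ := hgap.trans hnz
    have h2 : T ^ 2 * (1 / T) ≤ T ^ 2 * ‖(ρ : ℂ) - z‖ := mul_le_mul_of_nonneg_left h1 (by positivity)
    have h3 : T ^ 2 * (1 / T) = T := by field_simp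
    linarith
  have hc'eq : z * c' + cc = (ρ : ℂ) * c' := by
    rw [hc']; field_simp; ring
  have hρi : ρ⁻¹ ≤ T := by
    rw [inv_le_iff_one_le_mul₀ hρ]
    exact hTρ
  have hq : ‖z / (ρ : ℂ)‖ ≤ 1 - 1 / T ^ 2 := by
    rw [norm_div, Complex.norm_real, Real.norm_of_nonneg hρ.le, div_le_iff₀ hρ]
    have h1 : 1 / T ^ 2 * ρ ≤ 1 / T := by
      rw [div_mul_eq_mul_div, div_le_div_iff₀ (by positivity) hT0]
      nlinarith
    nlinarith
  set U : ℕ → ℂ := fun n => u n / (ρ : ℂ) ^ n - c' * (n : ℂ) ^ m with hU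
  set V : ℕ → ℂ := fun n => v n / (ρ : ℂ) ^ n - cc * (n : ℂ) ^ m with hV
  have hUrec : ∀ n, U (n + 1) = z / ρ * U n + (V n / ρ + c' * ((n : ℂ) ^ m - ((n : ℂ) + 1) ^ m)) := by
    intro n
    have h1 : U (n + 1) = (z * u n + v n) / (ρ : ℂ) ^ (n + 1) - c' * ((n : ℂ) + 1) ^ m := by
      rw [hU]
      simp only [hrec]
      push_cast
      rfl
    have h2 : z / ρ * U n + (V n / ρ + c' * ((n : ℂ) ^ m - ((n : ℂ) + 1) ^ m)) =
        (z * u n + v n) / (ρ : ℂ) ^ (n + 1) - ((z * c' + cc) / ρ - c') * (n : ℂ) ^ m -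
          c' * ((n : ℂ) + 1) ^ m := by
      rw [hU, hV]
      simp only
      rw [pow_succ]
      field_simp
      ring
    rw [h1, h2, hc'eq]
    field_simp
    ring
  have hB1 : (0 : ℝ) ≤ T ^ 2 * (1 + m) := by positivity
  have hkey := rec_bound m (fun n => ‖U n‖) T (T ^ 2 * (1 + m)) (T + T ^ 2 + T ^ 2 * (T ^ 2 * (1 + m)))
    hT (fun n => norm_nonneg _) hB1 (by
      have h1 : ‖U 0‖ ≤ T + T ^ 2 := by
        rw [hU]
        simp only [pow_zero, div_one]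
        refine (norm_sub_le _ _).trans (add_le_add hu0 ?_)
        rw [norm_mul]
        have h2 : ‖((0 : ℕ) : ℂ) ^ m‖ ≤ 1 := by
          rcases Nat.eq_zero_or_pos m with h | h
          · subst h; simp
          · rw [Nat.cast_zero, zero_pow (by omega)]; simp
        calc ‖c'‖ * ‖((0 : ℕ) : ℂ) ^ m‖ ≤ T ^ 2 * 1 := mul_le_mul hc'n h2 (norm_nonneg _) (by positivity)
          _ = _ := mul_one _
      linarith) (by
      intro n
      have hn1 : (0 : ℝ) < (n : ℝ) + 1 := by positivity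
      have h1 : ‖U (n + 1)‖ ≤ (1 - 1 / T ^ 2) * ‖U n‖ + (‖V n‖ * T +
          T ^ 2 * |(n : ℝ) ^ m - ((n : ℝ) + 1) ^ m|) := by
        rw [hUrec n]
        refine (norm_add_le _ _).trans (add_le_add ?_ ((norm_add_le _ _).trans (add_le_add ?_ ?_)))
        · rw [norm_mul]
          exact mul_le_mul_of_nonneg_right hq (norm_nonneg _)
        · rw [norm_div, Complex.norm_real, Real.norm_of_nonneg hρ.le, div_eq_mul_inv]
          exact mul_le_mul_of_nonneg_left hρi (norm_nonneg _)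
        · rw [norm_mul]
          have h0 : ‖(n : ℂ) ^ m - ((n : ℂ) + 1) ^ m‖ = |(n : ℝ) ^ m - ((n : ℝ) + 1) ^ m| := by
            rw [← Real.norm_eq_abs, ← Complex.norm_real]
            push_cast
            rfl
          rw [h0]
          exact mul_le_mul_of_nonneg_right hc'n (abs_nonneg _)
      have h2 : ‖V n‖ * (n + 1) ≤ T * ((n : ℝ) + 1) ^ m := hv n
      have h3 := pow_diff m n
      calc ‖U (n + 1)‖ * (n + 1) ≤ ((1 - 1 / T ^ 2) * ‖U n‖ + (‖V n‖ * T +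
          T ^ 2 * |(n : ℝ) ^ m - ((n : ℝ) + 1) ^ m|)) * (n + 1) :=
            mul_le_mul_of_nonneg_right h1 hn1.le
        _ = (1 - 1 / T ^ 2) * ‖U n‖ * (n + 1) + (T * (‖V n‖ * (n + 1)) +
          T ^ 2 * (|(n : ℝ) ^ m - ((n : ℝ) + 1) ^ m| * (n + 1))) := by ring
        _ ≤ (1 - 1 / T ^ 2) * ‖U n‖ * (n + 1) + (T * (T * ((n : ℝ) + 1) ^ m) +
          T ^ 2 * (m * ((n : ℝ) + 1) ^ m)) := by
            have h4 := mul_le_mul_of_nonneg_left h2 hT0.le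
            have h5 := mul_le_mul_of_nonneg_left h3 (by positivity : (0 : ℝ) ≤ T ^ 2)
            linarith
        _ = _ := by ring)
  intro n
  refine (hkey n).trans ?_
  refine mul_le_mul_of_nonneg_right ?_ (by positivity)
  have h1 : ((6 + 2 * m : ℕ) : ℝ) ≤ T ^ (6 + 2 * m) := nat_le_pow hT _
  have h2 : 2 * T ^ 2 * (T + T ^ 2 + T ^ 2 * (T ^ 2 * (1 + m))) ≤ ((6 + 2 * m : ℕ) : ℝ) * T ^ 6 := by
    have h3 : T ^ 3 ≤ T ^ 6 := pow_le_pow_right₀ hT1 (by norm_num)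
    have h4 : T ^ 4 ≤ T ^ 6 := pow_le_pow_right₀ hT1 (by norm_num)
    push_cast
    have h5 : 2 * T ^ 2 * (T + T ^ 2 + T ^ 2 * (T ^ 2 * (1 + m))) =
        2 * T ^ 3 + 2 * T ^ 4 + (2 + 2 * m) * T ^ 6 := by ring
    rw [h5]
    linarith
  calc 2 * T ^ 2 * (T + T ^ 2 + T ^ 2 * (T ^ 2 * (1 + m))) ≤ ((6 + 2 * m : ℕ) : ℝ) * T ^ 6 := h2
    _ ≤ T ^ (6 + 2 * m) * T ^ 6 := mul_le_mul_of_nonneg_right h1 (by positivity)
    _ = _ := by rw [← pow_add]

end Pool.Agent.Helper73.DM
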