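import Pool.Agent.Helper73.DM.Gap
import Pool.Agent.Helper73.DM.DomSub
import Pool.Agent.Helper73.DM.Filt

/-!
# DM-26: effective dominance

Proof. Only constants of the form `T^c`, `c` depending on `d`, occur (`2 ≤ T`; sums and products of boundedly many such terms are again `≤ T^c`; integers depending on `d` are `≤ 2^e ≤ T^e`). `χ.map = ∏_{i : Fin d} (X - C (lam i))` (split over `ℂ`, `natDegree = d`, list the roots).
`dom_subset` for `lam` and `x` (cast): `i0, m, I`; `ρ = ‖lam i0‖ = lam i0`. `root_bound`: `1 ≤ T^c ρ`; `gap_bound`: `1 ≤ T^c (ρ - ‖lam i‖)` for `i ∈ I`. Order `I = {i_1, ..., i_s}`; `x_0 = x`, `x_j = act (∏_{t ≤ j} (X - C (lam i_t))) x`; `v = x_s` is killed by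
`(X - C ρ)^(m+1)`, and `y = act ((X - C ρ)^m) v ≠ 0` is killed by `X - C ρ`, so `y n = ρ^n y 0`, `y 0 ≠ 0`; `lead_bound`: `1 ≤ T^c ‖y 0‖`. All the values `(act (...) x) 0` for products of at most `d` factors are `≤ T^c` in norm (`|x n| ≤ T` for `n ≤ d`; coefficients `≤ (1+T)^d`).
`est_base` for `v`: `Est v ρ m c_0 (T^c)`, `c_0 = y 0/(m! ρ^m)`. `est_step` `s` times (`x_(j-1) (n+1) = lam i_j * x_(j-1) n + x_j n`, each time with `T` replaced by a power of `T` that bounds everything): `Est x ρ m c_* (T^c)` with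
`c_* = c_0/∏_j (ρ - lam i_j)`, `1 ≤ T^c ‖c_*‖` (`‖ρ - lam i_j‖ ≤ 2T`, `ρ ≤ T`). (Do the induction over the finset `I` or a list, for a statement of the form: for all sequences with these bounds.)
`c_*` is real: `x n/ρ^n - c_* n^m → 0` after division by `n^m` (`n ≥ 1`; `‖x n/(ρ^n n^m) - c_*‖ ≤ T^c (n+1)^m/((n+1) n^m) → 0`) and the `x n` are real. Let `c' = T^(2c+m+3)`-like such that for `n ≥ T^c'`: `T^c (n+1)^m/(n+1) ≤ (1/2) ‖c_*‖ n^m`. Then for `n ≥ T^c'`, `x n` is nonzero and has the sign of `c_*`.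
By hypothesis `x n ≥ 0` for `n = T^c'`, so `c_* > 0` and `x n > 0` for all `n ≥ T^c'`; for the smaller `n` use the hypothesis.
-/

set_option autoImplicit false

open Polynomial

namespace Pool.Agent.Helper73.DM

private theorem est_mono {v : ℕ → ℂ} {ρ : ℝ} {m : ℕ} {c : ℂ} {B B' : ℝ} (h : Est v ρ m c B)
    (hB : B ≤ B') : Est v ρ m c B' := fun n =>
  (h n).trans (mul_le_mul_of_nonneg_right hB (by positivity))

private theorem chain (m : ℕ) : ∀ s : ℕ, ∃ c : ℕ, 1 ≤ c ∧ ∀ (T : ℝ), 2 ≤ T → ∀ (ρ : ℝ), 0 < ρ →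
    1 ≤ T * ρ → ρ ≤ T → ∀ l : List ℂ, l.length = s → (∀ z ∈ l, 1 ≤ T * (ρ - ‖z‖)) →
    ∀ (x : ℕ → ℂ) (cc : ℂ),
      (∀ l1, l1 <+: l → ‖act ((l1.map (fun z => (X - C z : ℂ[X]))).prod) x 0‖ ≤ T) →
      Est (act ((l.map (fun z => (X - C z : ℂ[X]))).prod) x) ρ m cc T → ‖cc‖ ≤ T → 1 ≤ T * ‖cc‖ →
      ∃ c' : ℂ, Est x ρ m c' (T ^ c) ∧ ‖c'‖ ≤ T ^ c ∧ 1 ≤ T ^ c * ‖c'‖ := by
  intro s
  induction s with
  | zero =>
    refine ⟨1, le_rfl, ?_⟩
    intro T hT ρ hρ h1 h2 l hl hz x cc hx hE hc1 hc2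
    have hl0 : l = [] := List.length_eq_zero_iff.mp hl
    subst hl0
    rw [List.map_nil, List.prod_nil, act_one] at hE
    refine ⟨cc, ?_, ?_, ?_⟩ <;> rw [pow_one] <;> assumption
  | succ s ih =>
    obtain ⟨c0, hc0, hch⟩ := ih
    obtain ⟨cs, hst⟩ := est_step m
    refine ⟨c0 * cs + c0 + 2, by omega, ?_⟩
    intro T hT ρ hρ h1 h2 l hl hz x cc hx hE hc1 hc2
    obtain ⟨z, l', rfl⟩ : ∃ z l', l = z :: l' := by
      cases l with
      | nil => simp at hl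
      | cons z l' => exact ⟨z, l', rfl⟩
    have hT1 : (1 : ℝ) ≤ T := by linarith
    have hl' : l'.length = s := by simpa using hl
    have hzz := hz z List.mem_cons_self
    have hE' : Est (act ((l'.map (fun z => (X - C z : ℂ[X]))).prod) (act (X - C z) x)) ρ m cc T := by
      rw [List.map_cons, List.prod_cons, act_mul, act_mul_comm] at hE
      exact hE
    have hx' : ∀ l1, l1 <+: l' →
        ‖act ((l1.map (fun z => (X - C z : ℂ[X]))).prod) (act (X - C z) x) 0‖ ≤ T := by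
      intro l1 hl1
      have := hx (z :: l1) (List.cons_prefix_cons.mpr ⟨rfl, hl1⟩)
      rw [List.map_cons, List.prod_cons, act_mul, act_mul_comm] at this
      exact this
    obtain ⟨c₁, hE1, hc11, hc12⟩ := hch T hT ρ hρ h1 h2 l' hl'
      (fun w hw => hz w (List.mem_cons_of_mem _ hw)) (act (X - C z) x) cc hx' hE' hc1 hc2
    have hTT : T ≤ T ^ c0 := by
      calc T = T ^ 1 := (pow_one T).symm
        _ ≤ T ^ c0 := pow_le_pow_right₀ hT1 hc0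
    have hgap : 0 < ρ - ‖z‖ := by
      by_contra hcon
      push Not at hcon
      have : T * (ρ - ‖z‖) ≤ 0 := mul_nonpos_of_nonneg_of_nonpos (by linarith) hcon
      linarith
    have hstep := hst (T ^ c0) (hT.trans hTT) ρ hρ
      (h1.trans (mul_le_mul_of_nonneg_right hTT hρ.le)) (h2.trans hTT) z
      (hzz.trans (mul_le_mul_of_nonneg_right hTT hgap.le)) x (act (X - C z) x) c₁ hc11
      (by
        have := hx [] (List.nil_prefix)
        rw [List.map_nil, List.prod_nil, act_one] at this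
        exact this.trans hTT)
      (fun n => by rw [act_X_sub_C]; ring) hE1
    have hnorm1 : ρ - ‖z‖ ≤ ‖(ρ : ℂ) - z‖ := by
      have := norm_sub_norm_le (ρ : ℂ) z
      rwa [Complex.norm_real, Real.norm_of_nonneg hρ.le] at this
    have hnorm2 : ‖(ρ : ℂ) - z‖ ≤ T ^ 2 := by
      have h3 := norm_sub_le (ρ : ℂ) z
      rw [Complex.norm_real, Real.norm_of_nonneg hρ.le] at h3
      nlinarith
    have hpos : 0 < ‖(ρ : ℂ) - z‖ := hgap.trans_le hnorm1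
    refine ⟨c₁ / ((ρ : ℂ) - z), est_mono hstep ?_, ?_, ?_⟩
    · rw [← pow_mul]
      exact pow_le_pow_right₀ hT1 (by omega)
    · rw [norm_div]
      have h3 : 1 / ‖(ρ : ℂ) - z‖ ≤ T := by
        rw [div_le_iff₀ hpos]
        exact hzz.trans (mul_le_mul_of_nonneg_left hnorm1 (by linarith))
      calc ‖c₁‖ / ‖(ρ : ℂ) - z‖ = ‖c₁‖ * (1 / ‖(ρ : ℂ) - z‖) := by ring
        _ ≤ T ^ c0 * T := mul_le_mul hc11 h3 (by positivity) (by positivity)
        _ = T ^ (c0 + 1) := by rw [pow_succ]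
        _ ≤ T ^ (c0 * cs + c0 + 2) := pow_le_pow_right₀ hT1 (by omega)
    · rw [norm_div]
      have h3 : T ^ (c0 + 2) * (‖c₁‖ / ‖(ρ : ℂ) - z‖) ≤
          T ^ (c0 * cs + c0 + 2) * (‖c₁‖ / ‖(ρ : ℂ) - z‖) :=
        mul_le_mul_of_nonneg_right (pow_le_pow_right₀ hT1 (by omega)) (by positivity)
      refine le_trans ?_ h3
      have h4 : ‖c₁‖ ≤ T ^ 2 * (‖c₁‖ / ‖(ρ : ℂ) - z‖) := by
        rw [mul_div_assoc', le_div_iff₀ hpos, mul_comm]
        exact mul_le_mul_of_nonneg_right hnorm2 (norm_nonneg _)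
      calc 1 ≤ T ^ c0 * ‖c₁‖ := hc12
        _ ≤ T ^ c0 * (T ^ 2 * (‖c₁‖ / ‖(ρ : ℂ) - z‖)) :=
            mul_le_mul_of_nonneg_left h4 (by positivity)
        _ = T ^ (c0 + 2) * (‖c₁‖ / ‖(ρ : ℂ) - z‖) := by rw [pow_add]; ring

private theorem val_bound {T : ℝ} (hT : 0 ≤ T) : ∀ (l : List ℂ) (w : ℕ → ℂ) (B : ℝ) (M : ℕ),
    0 ≤ B → (∀ z ∈ l, ‖z‖ ≤ T) → (∀ n ≤ M, ‖w n‖ ≤ B) → ∀ n, n + l.length ≤ M →
    ‖act ((l.map (fun z => (X - C z : ℂ[X]))).prod) w n‖ ≤ B * (1 + T) ^ l.length := by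
  intro l
  induction l with
  | nil =>
    intro w B M hB hz hw n hn
    rw [List.map_nil, List.prod_nil, act_one, List.length_nil, pow_zero, mul_one]
    exact hw n (by simpa using hn)
  | cons z l ih =>
    intro w B M hB hz hw n hn
    rw [List.map_cons, List.prod_cons, act_mul, act_mul_comm]
    rw [List.length_cons] at hn ⊢
    have h1 : ∀ n ≤ M - 1, ‖act (X - C z) w n‖ ≤ B * (1 + T) := by
      intro n hn1
      rw [act_X_sub_C]
      have h2 : ‖w (n + 1)‖ ≤ B := hw (n + 1) (by omega)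
      have h3 : ‖w n‖ ≤ B := hw n (by omega)
      calc ‖w (n + 1) - z * w n‖ ≤ ‖w (n + 1)‖ + ‖z * w n‖ := norm_sub_le _ _
        _ ≤ B + T * B := by
            rw [norm_mul]
            exact add_le_add h2 (mul_le_mul (hz z List.mem_cons_self) h3 (norm_nonneg _) hT)
        _ = B * (1 + T) := by ring
    have := ih (act (X - C z) w) (B * (1 + T)) (M - 1) (by positivity)
      (fun y hy => hz y (List.mem_cons_of_mem _ hy)) h1 n (by omega)
    refine this.trans (le_of_eq ?_)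
    rw [pow_succ]
    ring

private theorem sign_lemma {x : ℕ → ℤ} {ρ : ℝ} (hρ : 0 < ρ) {m : ℕ} {c : ℂ} {B : ℝ}
    (hE : Est (fun n => ((x n : ℤ) : ℂ)) ρ m c B) (hc : 1 ≤ B * ‖c‖) (hB : 1 ≤ B)
    {N : ℕ} (hN : B ^ 2 * 2 ^ (m + 2) ≤ (N : ℝ)) (hx : 0 ≤ x N) : ∀ n, N ≤ n → 0 ≤ x n := by
  have hcpos : 0 < ‖c‖ := by
    by_contra hcon
    push Not at hcon
    have : B * ‖c‖ ≤ 0 := mul_nonpos_of_nonneg_of_nonpos (by linarith) hcon
    linarith
  have hN1 : (1 : ℝ) ≤ (N : ℝ) := by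
    have h1 : (1 : ℝ) ≤ B ^ 2 := one_le_pow₀ hB
    have h2 : (1 : ℝ) ≤ 2 ^ (m + 2) := one_le_pow₀ (by norm_num)
    have h3 : (1 : ℝ) ≤ B ^ 2 * 2 ^ (m + 2) := one_le_mul_of_one_le_of_one_le h1 h2
    linarith
  have key : ∀ n, N ≤ n → ∃ w : ℝ, ((x n : ℤ) : ℝ) = w * (ρ ^ n * (n : ℝ) ^ m) ∧
      0 < ρ ^ n * (n : ℝ) ^ m ∧ ‖(w : ℂ) - c‖ ≤ ‖c‖ / 4 := by
    intro n hn
    have hn1 : (N : ℝ) ≤ (n : ℝ) := by exact_mod_cast hn
    have hn0 : (0 : ℝ) < (n : ℝ) := by linarith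
    have hpos : 0 < ρ ^ n * (n : ℝ) ^ m := by positivity
    refine ⟨(x n : ℝ) / (ρ ^ n * (n : ℝ) ^ m), by rw [div_mul_cancel₀ _ hpos.ne'], hpos, ?_⟩
    have h1 := hE n
    have h2 : (((x n : ℝ) / (ρ ^ n * (n : ℝ) ^ m) : ℝ) : ℂ) - c =
        (((x n : ℤ) : ℂ) / (ρ : ℂ) ^ n - c * (n : ℂ) ^ m) / (n : ℂ) ^ m := by
      have hρc : (ρ : ℂ) ≠ 0 := by exact_mod_cast hρ.ne'
      have hnc : (n : ℂ) ≠ 0 := by
        have : (n : ℝ) ≠ 0 := hn0.ne'
        exact_mod_cast this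
      push_cast
      field_simp
    rw [h2, norm_div, norm_pow, Complex.norm_natCast, div_le_iff₀ (by positivity)]
    have h3 : ((n : ℝ) + 1) ^ m ≤ 2 ^ m * (n : ℝ) ^ m := by
      rw [← mul_pow]
      exact pow_le_pow_left₀ (by positivity) (by linarith) m
    have h4 : ‖((x n : ℤ) : ℂ) / (ρ : ℂ) ^ n - c * (n : ℂ) ^ m‖ * (n + 1) ≤
        B * (2 ^ m * (n : ℝ) ^ m) :=
      h1.trans (mul_le_mul_of_nonneg_left h3 (by linarith))
    have h5 : B * 2 ^ m ≤ ‖c‖ / 4 * ((n : ℝ) + 1) := by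
      have h6 : B ^ 2 * 2 ^ (m + 2) ≤ (n : ℝ) + 1 := by linarith
      have h7 : 4 * (B * 2 ^ m) * 1 ≤ 4 * (B * 2 ^ m) * (B * ‖c‖) :=
        mul_le_mul_of_nonneg_left hc (by positivity)
      have h8 : ‖c‖ * (B ^ 2 * 2 ^ (m + 2)) ≤ ‖c‖ * ((n : ℝ) + 1) :=
        mul_le_mul_of_nonneg_left h6 hcpos.le
      have h9 : ‖c‖ * (B ^ 2 * 2 ^ (m + 2)) = 4 * (B * 2 ^ m) * (B * ‖c‖) := by
        rw [pow_add]; ring
      linarith
    have h6 : ‖((x n : ℤ) : ℂ) / (ρ : ℂ) ^ n - c * (n : ℂ) ^ m‖ * (n + 1) ≤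
        (‖c‖ / 4 * (n : ℝ) ^ m) * ((n : ℝ) + 1) := by
      refine h4.trans ?_
      have h7 : B * 2 ^ m * (n : ℝ) ^ m ≤ ‖c‖ / 4 * ((n : ℝ) + 1) * (n : ℝ) ^ m :=
        mul_le_mul_of_nonneg_right h5 (by positivity)
      calc B * (2 ^ m * (n : ℝ) ^ m) = B * 2 ^ m * (n : ℝ) ^ m := by ring
        _ ≤ ‖c‖ / 4 * ((n : ℝ) + 1) * (n : ℝ) ^ m := h7
        _ = _ := by ring
    exact le_of_mul_le_mul_right h6 (by positivity)
  obtain ⟨w0, hw0, hp0, hb0⟩ := key N le_rfl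
  have hw00 : 0 ≤ w0 := by
    by_contra hcon
    push Not at hcon
    have h1 : w0 * (ρ ^ N * (N : ℝ) ^ m) < 0 := mul_neg_of_neg_of_pos hcon hp0
    have h2 : (0 : ℝ) ≤ ((x N : ℤ) : ℝ) := by exact_mod_cast hx
    linarith
  intro n hn
  obtain ⟨w, hw, hp, hb⟩ := key n hn
  have hwn : 0 ≤ w := by
    by_contra hcon
    push Not at hcon
    have h1 : ‖c‖ - |w0| ≤ ‖c‖ / 4 := by
      have := norm_sub_norm_le c (w0 : ℂ)
      rw [norm_sub_rev, Complex.norm_real, Real.norm_eq_abs] at this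
      linarith
    have h2 : ‖c‖ - |w| ≤ ‖c‖ / 4 := by
      have := norm_sub_norm_le c (w : ℂ)
      rw [norm_sub_rev, Complex.norm_real, Real.norm_eq_abs] at this
      linarith
    rw [abs_of_nonneg hw00] at h1
    rw [abs_of_neg hcon] at h2
    have h3 : ‖(w0 : ℂ) - (w : ℂ)‖ ≤ ‖c‖ / 4 + ‖c‖ / 4 := by
      have : (w0 : ℂ) - (w : ℂ) = ((w0 : ℂ) - c) - ((w : ℂ) - c) := by ring
      rw [this]
      exact (norm_sub_le _ _).trans (add_le_add hb0 hb)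
    have h4 : ‖(w0 : ℂ) - (w : ℂ)‖ = |w0 - w| := by
      rw [← Complex.ofReal_sub, Complex.norm_real, Real.norm_eq_abs]
    rw [h4] at h3
    have h5 := le_abs_self (w0 - w)
    linarith
  have : (0 : ℝ) ≤ ((x n : ℤ) : ℝ) := by rw [hw]; positivity
  exact_mod_cast this

private theorem core (d m s : ℕ) :
    ∃ c : ℕ, ∀ T : ℕ, 2 ≤ T → ∀ (χ : ℤ[X]) (lam : Fin d → ℂ),
      χ.map (Int.castRingHom ℂ) = ∏ i, (X - C (lam i)) → (∀ i, ‖lam i‖ ≤ (T : ℝ)) →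
      ∀ x : ℕ → ℤ, (∀ n ≤ d, |x n| ≤ T) → ∀ (i0 : Fin d) (I : Finset (Fin d)), I.card = s →
      m + 1 + I.card ≤ d → lam i0 = ((‖lam i0‖ : ℝ) : ℂ) → 0 < ‖lam i0‖ →
      (∀ i ∈ I, ‖lam i‖ < ‖lam i0‖) →
      act ((X - C (lam i0)) ^ (m + 1) * ∏ i ∈ I, (X - C (lam i))) (fun n => ((x n : ℤ) : ℂ)) = 0 →
      act ((X - C (lam i0)) ^ m * ∏ i ∈ I, (X - C (lam i))) (fun n => ((x n : ℤ) : ℂ)) ≠ 0 →
      (∀ n ≤ T ^ c, 0 ≤ x n) → ∀ n, 0 ≤ x n := by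
  obtain ⟨cg, hcg⟩ := gap_bound d
  obtain ⟨cr, hcr⟩ := root_bound d
  obtain ⟨cl, hcl⟩ := lead_bound d
  obtain ⟨cb, hcb⟩ := est_base m
  obtain ⟨cch, hcch0, hcch⟩ := chain m s
  obtain ⟨c1, hc1⟩ : ∃ c1, c1 = cr + cg + 2 * d + 1 := ⟨_, rfl⟩
  obtain ⟨c2, hc2⟩ : ∃ c2, c2 = c1 * cb + c1 * (m + 1) + cl + m.factorial + m := ⟨_, rfl⟩
  refine ⟨2 * (c2 * cch) + m + 2, ?_⟩
  intro T hT χ lam hχ hlam x hx i0 I hI hmI hreal hpos hlt hkill hnot hsmall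
  have hTR : (2 : ℝ) ≤ (T : ℝ) := by exact_mod_cast hT
  have hT1 : (1 : ℝ) ≤ (T : ℝ) := by linarith
  have hT0 : (0 : ℝ) ≤ (T : ℝ) := by linarith
  obtain ⟨ρ, hρ⟩ : ∃ ρ : ℝ, ρ = ‖lam i0‖ := ⟨_, rfl⟩
  rw [← hρ] at hreal hpos hlt
  have hρT : ρ ≤ T := hρ ▸ hlam i0
  have hne0 : lam i0 ≠ 0 := by
    rw [hreal]
    exact_mod_cast hpos.ne'
  have hroot : 1 ≤ (T : ℝ) ^ cr * ρ := hρ ▸ hcr T hTR χ lam hχ hlam i0 hne0
  have hgap : ∀ i ∈ I, 1 ≤ (T : ℝ) ^ cg * (ρ - ‖lam i‖) := by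
    intro i hi
    have := hcg T hTR χ lam hχ hlam i i0 (by rw [← hρ]; exact hlt i hi)
    rwa [← hρ] at this
  obtain ⟨xc, hxc⟩ : ∃ xc : ℕ → ℂ, xc = fun n => ((x n : ℤ) : ℂ) := ⟨_, rfl⟩
  have hxR : ∀ n ≤ d, ((|x n| : ℤ) : ℝ) ≤ (T : ℝ) := by
    intro n hn
    exact_mod_cast hx n hn
  have hxcb : ∀ n ≤ d, ‖xc n‖ ≤ (T : ℝ) := by
    intro n hn
    rw [hxc]
    have := hxR n hn
    simp only [Complex.norm_intCast]
    push_cast at this
    exact this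
  -- the list of the roots in I
  obtain ⟨l, hl⟩ : ∃ l : List ℂ, l = I.toList.map lam := ⟨_, rfl⟩
  have hlen : l.length = s := by rw [hl, List.length_map, Finset.length_toList, hI]
  have hprod : ∏ i ∈ I, (X - C (lam i)) = (l.map (fun z => (X - C z : ℂ[X]))).prod := by
    rw [hl, List.map_map, ← Finset.prod_map_toList]
    rfl
  have hlmem : ∀ z ∈ l, ∃ i ∈ I, z = lam i := by
    intro z hz
    rw [hl, List.mem_map] at hz
    obtain ⟨i, hi, rfl⟩ := hz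
    exact ⟨i, Finset.mem_toList.mp hi, rfl⟩
  -- value bound
  have hpw : ((1 : ℝ) + T) ≤ (T : ℝ) ^ 2 := by nlinarith
  have hval : ∀ l1 : List ℂ, (∀ z ∈ l1, ‖z‖ ≤ (T : ℝ)) → l1.length ≤ d →
      ‖act ((l1.map (fun z => (X - C z : ℂ[X]))).prod) xc 0‖ ≤ (T : ℝ) ^ (2 * d + 1) := by
    intro l1 h1 h2
    have h3 := val_bound hT0 l1 xc T d hT0 h1 hxcb 0 (by omega)
    refine h3.trans ?_
    calc (T : ℝ) * (1 + T) ^ l1.length ≤ (T : ℝ) * ((T : ℝ) ^ 2) ^ l1.length :=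
          mul_le_mul_of_nonneg_left (pow_le_pow_left₀ (by positivity) hpw _) hT0
      _ = (T : ℝ) ^ (2 * l1.length + 1) := by rw [← pow_mul, pow_succ]; ring
      _ ≤ (T : ℝ) ^ (2 * d + 1) := pow_le_pow_right₀ hT1 (by omega)
  -- the sequence v
  obtain ⟨v, hv⟩ : ∃ v : ℕ → ℂ, v = act ((l.map (fun z => (X - C z : ℂ[X]))).prod) xc := ⟨_, rfl⟩
  have hvkill : act ((X - C (ρ : ℂ)) ^ (m + 1)) v = 0 := by
    rw [hv, ← act_mul, ← hprod, ← hreal, hxc]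
    exact hkill
  have hrep : ∀ j, act ((X - C (ρ : ℂ)) ^ j) v 0 =
      act (((List.replicate j (ρ : ℂ) ++ l).map (fun z => (X - C z : ℂ[X]))).prod) xc 0 := by
    intro j
    rw [hv, ← act_mul, List.map_append, List.prod_append, List.map_replicate, List.prod_replicate]
  have hlT : ∀ z ∈ l, ‖z‖ ≤ (T : ℝ) := by
    intro z hz
    obtain ⟨i, _, rfl⟩ := hlmem z hz
    exact hlam i
  have hvj : ∀ j ≤ m, ‖act ((X - C (ρ : ℂ)) ^ j) v 0‖ ≤ (T : ℝ) ^ (2 * d + 1) := by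
    intro j hj
    rw [hrep]
    apply hval
    · intro z hz
      rw [List.mem_append] at hz
      rcases hz with hz | hz
      · rw [List.eq_of_mem_replicate hz, Complex.norm_real, Real.norm_of_nonneg hpos.le]
        exact hρT
      · exact hlT z hz
    · rw [List.length_append, List.length_replicate, hlen]
      omega
  -- the last value is not zero
  have hy0 : act ((X - C (ρ : ℂ)) ^ m) v 0 ≠ 0 := by
    intro h0
    apply hnot
    have hy : act ((X - C (ρ : ℂ)) ^ m) v = 0 := by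
      apply eq_zero_of_act (A := X - C (ρ : ℂ)) (monic_X_sub_C _)
      · rw [← act_mul, ← pow_succ']
        exact hvkill
      · intro i hi
        rw [natDegree_X_sub_C] at hi
        have : i = 0 := by omega
        rw [this]
        exact h0
    rw [act_mul, hprod, ← hxc, ← hv, hreal]
    exact hy
  have hlead : 1 ≤ (T : ℝ) ^ cl * ‖act ((X - C (ρ : ℂ)) ^ m) v 0‖ := by
    have h1 := hcl T hTR χ lam hχ hlam x hxR i0 m I (by omega)
    rw [act_mul, hprod, ← hxc, ← hv, hreal] at h1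
    exact h1 hy0
  -- T1
  have hc1pos : 1 ≤ c1 := by omega
  have hTT1 : (T : ℝ) ≤ (T : ℝ) ^ c1 := by
    calc (T : ℝ) = (T : ℝ) ^ 1 := (pow_one _).symm
      _ ≤ (T : ℝ) ^ c1 := pow_le_pow_right₀ hT1 hc1pos
  have hbase := hcb ((T : ℝ) ^ c1) (hTR.trans hTT1) ρ hpos
    (hroot.trans (mul_le_mul_of_nonneg_right (pow_le_pow_right₀ hT1 (by omega)) hpos.le))
    (hρT.trans hTT1) v hvkill
    (fun j hj => (hvj j hj).trans (pow_le_pow_right₀ hT1 (by omega)))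
  obtain ⟨y0, hy0'⟩ : ∃ y0 : ℂ, y0 = act ((X - C (ρ : ℂ)) ^ m) v 0 := ⟨_, rfl⟩
  rw [← hy0'] at hbase hlead hy0
  obtain ⟨cc, hcc⟩ : ∃ cc : ℂ, cc = y0 / (m.factorial * (ρ : ℂ) ^ m) := ⟨_, rfl⟩
  rw [← hcc] at hbase
  have hfacpos : (0 : ℝ) < (m.factorial : ℝ) := by exact_mod_cast Nat.factorial_pos m
  have hfac1 : (1 : ℝ) ≤ (m.factorial : ℝ) := by exact_mod_cast Nat.factorial_pos m
  have hnormcc : ‖cc‖ = ‖y0‖ / (m.factorial * ρ ^ m) := by
    rw [hcc, norm_div, norm_mul, norm_pow, Complex.norm_real, Real.norm_of_nonneg hpos.le,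
      Complex.norm_natCast]
  have hdenpos : 0 < (m.factorial : ℝ) * ρ ^ m := by positivity
  have hy0T : ‖y0‖ ≤ (T : ℝ) ^ c1 := by
    rw [hy0']
    exact (hvj m le_rfl).trans (pow_le_pow_right₀ hT1 (by omega))
  have hrho1 : 1 ≤ (T : ℝ) ^ c1 * ρ :=
    hroot.trans (mul_le_mul_of_nonneg_right (pow_le_pow_right₀ hT1 (by omega)) hpos.le)
  have hccT : ‖cc‖ ≤ (T : ℝ) ^ c2 := by
    rw [hnormcc, div_le_iff₀ hdenpos]
    have h1 : (1 : ℝ) ≤ ((T : ℝ) ^ c1 * ρ) ^ m := one_le_pow₀ hrho1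
    have h2 : ((T : ℝ) ^ c1) ^ m * ρ ^ m ≤ ((T : ℝ) ^ c1) ^ m * ((m.factorial : ℝ) * ρ ^ m) :=
      mul_le_mul_of_nonneg_left (by nlinarith [pow_pos hpos m]) (by positivity)
    have h3 : (1 : ℝ) ≤ ((T : ℝ) ^ c1) ^ m * ((m.factorial : ℝ) * ρ ^ m) := by
      rw [mul_pow] at h1
      exact h1.trans h2
    calc ‖y0‖ ≤ (T : ℝ) ^ c1 * 1 := by rw [mul_one]; exact hy0T
      _ ≤ (T : ℝ) ^ c1 * (((T : ℝ) ^ c1) ^ m * ((m.factorial : ℝ) * ρ ^ m)) :=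
          mul_le_mul_of_nonneg_left h3 (by positivity)
      _ = (T : ℝ) ^ (c1 * (m + 1)) * ((m.factorial : ℝ) * ρ ^ m) := by
          rw [← pow_mul, ← mul_assoc, ← pow_add]
          congr 2
          ring
      _ ≤ (T : ℝ) ^ c2 * ((m.factorial : ℝ) * ρ ^ m) :=
          mul_le_mul_of_nonneg_right (pow_le_pow_right₀ hT1 (by rw [hc2]; omega)) hdenpos.le
  have hccL : 1 ≤ (T : ℝ) ^ c2 * ‖cc‖ := by
    rw [hnormcc, mul_div_assoc', le_div_iff₀ hdenpos, one_mul]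
    have h1 : (m.factorial : ℝ) ≤ (T : ℝ) ^ m.factorial := by
      have h2 : m.factorial ≤ T ^ m.factorial := (Nat.lt_pow_self (by omega)).le
      exact_mod_cast h2
    have h2 : ρ ^ m ≤ (T : ℝ) ^ m := pow_le_pow_left₀ hpos.le hρT m
    calc (m.factorial : ℝ) * ρ ^ m ≤ (T : ℝ) ^ m.factorial * (T : ℝ) ^ m :=
          mul_le_mul h1 h2 (by positivity) (by positivity)
      _ = (T : ℝ) ^ m.factorial * (T : ℝ) ^ m * 1 := by ring
      _ ≤ (T : ℝ) ^ m.factorial * (T : ℝ) ^ m * ((T : ℝ) ^ cl * ‖y0‖) :=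
          mul_le_mul_of_nonneg_left hlead (by positivity)
      _ = (T : ℝ) ^ (m.factorial + m + cl) * ‖y0‖ := by rw [pow_add, pow_add]; ring
      _ ≤ (T : ℝ) ^ c2 * ‖y0‖ :=
          mul_le_mul_of_nonneg_right (pow_le_pow_right₀ hT1 (by rw [hc2]; omega)) (norm_nonneg _)
  have hc12 : c1 ≤ c2 := by
    rw [hc2]
    have : c1 ≤ c1 * (m + 1) := Nat.le_mul_of_pos_right _ (by omega)
    omega
  have hT12 : (T : ℝ) ^ c1 ≤ (T : ℝ) ^ c2 := pow_le_pow_right₀ hT1 hc12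
  have hEst2 : Est v ρ m cc ((T : ℝ) ^ c2) := by
    refine est_mono hbase ?_
    rw [← pow_mul]
    exact pow_le_pow_right₀ hT1 (by rw [hc2]; omega)
  have hchain := hcch ((T : ℝ) ^ c2) ((hTR.trans hTT1).trans hT12) ρ hpos
    (hrho1.trans (mul_le_mul_of_nonneg_right hT12 hpos.le)) ((hρT.trans hTT1).trans hT12) l hlen
    (by
      intro z hz
      obtain ⟨i, hi, rfl⟩ := hlmem z hz
      have h1 := hgap i hi
      have h2 : 0 < ρ - ‖lam i‖ := by linarith [hlt i hi]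
      exact h1.trans (mul_le_mul_of_nonneg_right (pow_le_pow_right₀ hT1 (by omega)) h2.le))
    xc cc
    (by
      intro l1 hl1
      refine (hval l1 (fun z hz => hlT z (hl1.subset hz)) ?_).trans
        (pow_le_pow_right₀ hT1 (by omega))
      have := hl1.length_le
      omega)
    (by rw [← hv]; exact hEst2) hccT hccL
  obtain ⟨cs, hE, hcs1, hcs2⟩ := hchain
  rw [← pow_mul] at hE hcs1 hcs2
  have hbig : ((T : ℝ) ^ (c2 * cch)) ^ 2 * 2 ^ (m + 2) ≤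
      ((T ^ (2 * (c2 * cch) + m + 2) : ℕ) : ℝ) := by
    push_cast
    have h1 : (2 : ℝ) ^ (m + 2) ≤ (T : ℝ) ^ (m + 2) := pow_le_pow_left₀ (by norm_num) hTR _
    calc ((T : ℝ) ^ (c2 * cch)) ^ 2 * 2 ^ (m + 2)
        ≤ ((T : ℝ) ^ (c2 * cch)) ^ 2 * (T : ℝ) ^ (m + 2) :=
          mul_le_mul_of_nonneg_left h1 (by positivity)
      _ = (T : ℝ) ^ (2 * (c2 * cch) + m + 2) := by
          rw [← pow_mul, ← pow_add]
          congr 1
          ring
  have hfin := sign_lemma hpos (hxc ▸ hE) hcs2 (one_le_pow₀ hT1) hbig (hsmall _ le_rfl)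
  intro n
  rcases le_total n (T ^ (2 * (c2 * cch) + m + 2)) with h | h
  · exact hsmall n h
  · exact hfin n h

private theorem exists_lam {d : ℕ} {χ : ℤ[X]} (hm : χ.Monic) (hd : χ.natDegree = d) :
    ∃ lam : Fin d → ℂ, χ.map (Int.castRingHom ℂ) = ∏ i, (X - C (lam i)) ∧
      ∀ i, lam i ∈ (χ.map (Int.castRingHom ℂ)).roots := by
  have hm' : (χ.map (Int.castRingHom ℂ)).Monic := hm.map _
  have hsp := IsAlgClosed.splits (χ.map (Int.castRingHom ℂ))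
  have hcard : (χ.map (Int.castRingHom ℂ)).roots.card = d := by
    rw [← hsp.natDegree_eq_card_roots, hm.natDegree_map, hd]
  obtain ⟨L, hL⟩ : ∃ L : List ℂ, L = (χ.map (Int.castRingHom ℂ)).roots.toList := ⟨_, rfl⟩
  have hLlen : L.length = d := by rw [hL, Multiset.length_toList, hcard]
  subst hLlen
  refine ⟨fun i => L.get i, ?_, ?_⟩
  · have h1 := hsp.eq_prod_roots_of_monic hm'
    rw [h1]
    have h2 : (χ.map (Int.castRingHom ℂ)).roots = (L : Multiset ℂ) := by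
      rw [hL, Multiset.coe_toList]
    rw [h2, Multiset.map_coe, Multiset.prod_coe, ← List.prod_ofFn]
    congr 1
    conv_lhs => rw [← List.ofFn_get L]
    rw [List.map_ofFn]
    rfl
  · intro i
    rw [← Multiset.mem_toList, ← hL]
    exact List.get_mem L i

theorem eff_dom (d : ℕ) :
    ∃ c : ℕ, ∀ T : ℕ, 2 ≤ T → ∀ χ : ℤ[X], χ.Monic → χ.natDegree = d →
      (∀ z ∈ (χ.map (Int.castRingHom ℂ)).roots, ‖z‖ ≤ T) →
      ∀ x : ℕ → ℤ, act χ x = 0 → (∀ n ≤ d, |x n| ≤ T) → Dom (fun n => ((x n : ℤ) : ℂ)) →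
      (∀ n ≤ T ^ c, 0 ≤ x n) → ∀ n, 0 ≤ x n := by
  choose c hc using fun p : ℕ × ℕ => core d p.1 p.2
  refine ⟨∑ p ∈ Finset.range (d + 1) ×ˢ Finset.range (d + 1), c p, ?_⟩
  intro T hT χ hm hd hroots x hx hxT hD hsmall
  obtain ⟨lam, hlam, hmem⟩ := exists_lam hm hd
  have hkill : act (∏ i, (X - C (lam i))) (fun n => ((x n : ℤ) : ℂ)) = 0 := by
    rw [← hlam]
    have h1 := act_map (Int.castRingHom ℂ) χ x
    have h2 : (fun n => ((x n : ℤ) : ℂ)) = fun n => (Int.castRingHom ℂ) (x n) := rfl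
    rw [h2, h1, hx]
    funext n
    simp
  obtain ⟨i0, m, I, h1, h2, h3, h4, h5, h6⟩ := dom_subset d lam _ hkill hD
  refine hc (m, I.card) T hT χ lam hlam (fun i => hroots _ (hmem i)) x hxT i0 I rfl h1 h2 h3 h4
    h5 h6 (fun n hn => hsmall n (hn.trans (Nat.pow_le_pow_right (by omega) ?_)))
  exact Finset.single_le_sum (f := c) (fun _ _ => Nat.zero_le _)
    (Finset.mem_product.mpr ⟨Finset.mem_range.mpr (by omega), Finset.mem_range.mpr (by omega)⟩)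

end Pool.Agent.Helper73.DM
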