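import Pool.Agent.Helper73.DM.Fred
import Pool.Agent.Helper73.DM.AnnDif
import Pool.Agent.Helper73.DM.EffDom

/-!
# DM-28: a criterion for monotonicity with an r.e. form

`P = (k+4)!`, `c` from `eff_dom (k + 4)`, `T = tt k p = (sz p)^(P (k+7))`: `T ≥ 2`, `T ≥ (sz p)^P`, and `|difZ p P r n| ≤ (sz p)^(P (n+1) + r + 2) ≤ T` for `n ≤ k + 4`, `r < P` (`difZ_le`; `P ≥ 2`). For `r < P` let `x = difZ p P r`, `χ` from `ann_dif (k+4)`.
(→) `Mono p`, so `x ≥ 0` for all `r, n`. `fredholm k (k+4)`: if `q` exists, take `a j = - q.coeff j`: the recurrence holds for all `i`, `x = lrs a (x|k)` (`lrs_of_act`), `PosK`. Otherwise the second alternative, with the check `0 ≤ x n` trivially true.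
(←) For each `r < P` show `x ≥ 0`. First alternative: `rec_forever`. Second: `d0l_structure`: if `Mono p`, done at once. Otherwise for this `r` either there is a complex `A ≠ 0` of degree `≤ k` that kills `x`: `int_monic` gives a monic integer `q` of degree `k` that kills
`x`, so `∑_i y_i x(i+k) = - ∑_j q_j ∑_i y_i x(i+j) = 0`, a contradiction; or `Dom`: `eff_dom`. Finally `j ≥ P` is `P (n+1) + r` with `r < P`: `grow p j ≤ grow p (j+1)` from `0 ≤ difZ p P r n`.
-/

set_option autoImplicit false

open Polynomial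

namespace Pool.Agent.Helper73.DM

/-- the bound for roots and initial values -/
def tt (k : ℕ) (p : List (List ℕ) × List ℕ) : ℕ := sz p ^ ((k + 4).factorial * (k + 7))

private theorem crit_rec {k : ℕ} {x : ℕ → ℤ} {q : ℤ[X]} (hq : q.Monic) (hd : q.natDegree = k)
    (h : act q x = 0) (i : ℕ) :
    x (i + k) = ∑ j : Fin k, (- q.coeff j) * x (i + j) := by
  have h2 := congrFun h i
  rw [act_apply, hd, Finset.sum_range_succ, Pi.zero_apply] at h2
  have h3 : q.coeff k = 1 := by rw [← hd]; exact hq.coeff_natDegree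
  rw [h3, one_mul, Finset.sum_range] at h2
  simp only [neg_mul, Finset.sum_neg_distrib]
  linarith

theorem crit (k : ℕ) :
    ∃ c : ℕ, ∀ p : List (List ℕ) × List ℕ, (letters p).card ≤ k + 4 →
      (Mono p ↔ (∀ j < (k + 4).factorial, grow p j ≤ grow p (j + 1)) ∧
        ∀ r < (k + 4).factorial,
          (∃ a : Fin k → ℤ, (∀ i < k + 4, difZ p (k + 4).factorial r (i + k) =
              ∑ j : Fin k, a j * difZ p (k + 4).factorial r (i + j)) ∧
            PosK k (a, fun j => difZ p (k + 4).factorial r j)) ∨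
          ((∃ y : Fin (k + 4) → ℤ,
              (∀ j < k, ∑ i : Fin (k + 4), y i * difZ p (k + 4).factorial r (i + j) = 0) ∧
              ∑ i : Fin (k + 4), y i * difZ p (k + 4).factorial r (i + k) ≠ 0) ∧
            ∀ n ≤ tt k p ^ c, 0 ≤ difZ p (k + 4).factorial r n)) := by
  classical
  obtain ⟨c, hc⟩ := eff_dom (k + 4)
  refine ⟨c, fun p hp => ?_⟩
  obtain ⟨P, hP⟩ : ∃ P : ℕ, P = (k + 4).factorial := ⟨_, rfl⟩
  have hT : tt k p = sz p ^ (P * (k + 7)) := by rw [tt, hP]
  have hDs := d0l_structure k p hp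
  rw [← hP] at hDs ⊢
  have hPpos : 1 ≤ P := by rw [hP]; exact Nat.factorial_pos _
  obtain ⟨χ, hχ, hχd, hχr, hχa⟩ := ann_dif (k + 4) p hp P
  have hS : 2 ≤ sz p := by unfold sz; omega
  have hT2 : 2 ≤ tt k p := by
    rw [hT]
    refine hS.trans ?_
    conv_lhs => rw [← pow_one (sz p)]
    exact Nat.pow_le_pow_right (by omega) (by nlinarith)
  have hTS : ((sz p : ℝ)) ^ P ≤ ((tt k p : ℕ) : ℝ) := by
    rw [hT]
    have h1 : sz p ^ P ≤ sz p ^ (P * (k + 7)) :=
      Nat.pow_le_pow_right (by omega) (by nlinarith)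
    exact_mod_cast h1
  have hTn : ∀ r < P, ∀ n ≤ k + 4, |difZ p P r n| ≤ ((tt k p : ℕ) : ℤ) := by
    intro r hr n hn
    refine (difZ_le p P r n).trans ?_
    rw [hT]
    have h0 : P * (n + 1) ≤ P * (k + 5) := Nat.mul_le_mul_left _ (by omega)
    have h2 : P * (n + 1) + r + 2 ≤ P * (k + 7) := by
      have h3 : P * (k + 7) = P * (k + 5) + 2 * P := by ring
      omega
    have h1 : sz p ^ (P * (n + 1) + r + 2) ≤ sz p ^ (P * (k + 7)) :=
      Nat.pow_le_pow_right (by omega) h2
    exact_mod_cast h1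
  constructor
  · intro hM
    refine ⟨fun j _ => hM j, fun r hr => ?_⟩
    have hx : ∀ n, 0 ≤ difZ p P r n := by
      intro n
      unfold difZ
      have h1 : (grow p (P * (n + 1) + r) : ℤ) ≤ grow p (P * (n + 1) + r + 1) := by
        exact_mod_cast hM (P * (n + 1) + r)
      linarith
    rcases fredholm k (k + 4) (difZ p P r) χ hχ hχd.le (hχa r) with ⟨q, hq, hqd, hqa⟩ | hy
    · left
      refine ⟨fun j => - q.coeff j, fun i _ => crit_rec hq hqd hqa i, fun n => ?_⟩
      have h1 := lrs_of_act k (difZ p P r) q hq hqd hqa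
      have h2 := hx n
      rw [h1] at h2
      exact h2
    · right
      exact ⟨hy, fun n _ => hx n⟩
  · rintro ⟨h1, h2⟩
    rcases hDs with hM | hD
    · exact hM
    have hx : ∀ r < P, ∀ n, 0 ≤ difZ p P r n := by
      intro r hr
      rcases h2 r hr with ⟨a, ha, hpos⟩ | ⟨⟨y, hy1, hy2⟩, hpos⟩
      · intro n
        have h3 := rec_forever k (k + 4) (difZ p P r) χ hχ hχd.le (hχa r) a ha
        rw [h3]
        exact hpos n
      · rcases hD r with ⟨A, hA, hAd, hAa⟩ | hdom
        · exfalso
          obtain ⟨q, hq, hqd, hqa⟩ := int_monic k (difZ p P r) χ hχ (hχa r) A hA hAd hAa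
          apply hy2
          have h3 : ∀ i : Fin (k + 4), y i * difZ p P r (i + k) =
              ∑ j : Fin k, (- q.coeff j) * (y i * difZ p P r (i + j)) := by
            intro i
            rw [crit_rec hq hqd hqa, Finset.mul_sum]
            refine Finset.sum_congr rfl fun j _ => ?_
            ring
          simp only [h3]
          rw [Finset.sum_comm]
          refine Finset.sum_eq_zero fun j _ => ?_
          rw [← Finset.mul_sum, hy1 j j.2, mul_zero]
        · exact hc (tt k p) hT2 χ hχ hχd (fun z hz => (hχr z hz).trans hTS) _ (hχa r)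
            (hTn r hr) hdom hpos
    intro j
    by_cases hj : j < P
    · exact h1 j hj
    · have hdiv : 1 ≤ j / P := (Nat.one_le_div_iff (by omega)).2 (by omega)
      have h3 : P * (j / P - 1 + 1) + j % P = j := by
        rw [Nat.sub_add_cancel hdiv]
        exact Nat.div_add_mod j P
      have h4 := hx (j % P) (Nat.mod_lt _ (by omega)) (j / P - 1)
      unfold difZ at h4
      rw [h3] at h4
      have h5 : (grow p j : ℤ) ≤ grow p (j + 1) := by linarith
      exact_mod_cast h5

end Pool.Agent.Helper73.DM
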