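import Pool.Agent.Helper73.DM.Comp
import Pool.Agent.Helper73.DM.Crit

/-!
# DM-30: decidability of `PosK k` implies decidability of `MonK (k+4)`

Proof. `ComputablePred.computable_iff_re_compl_re`. The complement of `MonK (k+4)`: `card > k+4` (`comp_letters`) or `∃ n, grow p (n+1) < grow p n` (`re_exists`, `comp_grow`): r.e. `MonK (k+4)` itself: by `crit` it is `card ≤ k+4` and a conjunction over the
finitely many `j < P` and `r < P` (`P = (k+4)!` is a constant: `re_forall_fintype` over `Fin P`) of r.e. predicates: `∃ a`, a decidable equality check (finitely many `i < k+4`, sums over `Fin k` of products of computable integers, `comp_difZ`) and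
`PosK k (a, ...)` (computable by hypothesis, composed with a computable function; `re_comp`); or `∃ y`, checks, and the bounded check `∀ n ≤ tt k p ^ c` (computable: bounded quantifier over a computable bound; `tt k p ^ c` is computable by `comp_sz`).
-/

set_option autoImplicit false

namespace Pool.Agent.Helper73.DM

open Pool.Agent.CQ

section tools

variable {α : Type*} [Primcodable α]

theorem fw_zadd {f g : α → ℤ} (hf : Computable f) (hg : Computable g) :
    Computable (fun a => f a + g a) := by
  have h : Primrec₂ (fun x y : ℤ => x + y) := pr_add Primrec.fst Primrec.snd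
  exact h.to_comp.comp hf hg

theorem fw_zmul {f g : α → ℤ} (hf : Computable f) (hg : Computable g) :
    Computable (fun a => f a * g a) := by
  have h : Primrec₂ (fun x y : ℤ => x * y) := pr_mul Primrec.fst Primrec.snd
  exact h.to_comp.comp hf hg

theorem fw_zsum {ι : Type*} [Fintype ι] {f : ι → α → ℤ} (hf : ∀ i, Computable (f i)) :
    Computable (fun a => ∑ i, f i a) := by
  classical
  have h : ∀ s : Finset ι, Computable (fun a => ∑ i ∈ s, f i a) := by
    intro s
    induction s using Finset.induction_on with
    | empty => exact (Computable.const 0).of_eq (fun a => by simp)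
    | insert i s hi ih =>
      exact (fw_zadd (hf i) ih).of_eq (fun a => by rw [Finset.sum_insert hi])
  exact h Finset.univ

theorem fw_pow (m : ℕ) {f : α → ℕ} (hf : Computable f) : Computable (fun a => f a ^ m) := by
  have h : Primrec (fun x : ℕ => x ^ m) := pr_npow Primrec.id (Primrec.const m)
  exact h.to_comp.comp hf

theorem fw_le {f g : α → ℕ} (hf : Computable f) (hg : Computable g) :
    ComputablePred (fun a => f a ≤ g a) := by
  have h : PrimrecRel (fun a b : ℕ => a ≤ b) := Primrec.nat_le
  have h1 : Computable (fun p : ℕ × ℕ => decide (p.1 ≤ p.2)) := h.decide.to_comp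
  refine ⟨inferInstance, ?_⟩
  exact (h1.comp (hf.pair hg)).of_eq (fun a => by simp)

theorem fw_nonneg {f : α → ℤ} (hf : Computable f) : REPred (fun a => 0 ≤ f a) := by
  have h1 : Computable (fun a => ((f a).toNat : ℤ)) := by
    have h : Primrec (fun x : ℤ => (x.toNat : ℤ)) := pr_natCast (pr_toNat Primrec.id)
    exact h.to_comp.comp hf
  exact (re_eq h1 hf).of_eq (fun a => by
    constructor
    · intro h
      rw [← h]
      exact Int.natCast_nonneg _
    · intro h
      exact Int.toNat_of_nonneg h)

end tools

theorem fw_dif (P r : ℕ) {α : Type*} [Primcodable α] {f : α → List (List ℕ) × List ℕ}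
    {g : α → ℕ} (hf : Computable f) (hg : Computable g) :
    Computable (fun a => difZ (f a) P r (g a)) := by
  have h2 : Computable (fun a =>
      ((f a, (r, g a)) : (List (List ℕ) × List ℕ) × (ℕ × ℕ))) :=
    hf.pair ((Computable.const r).pair hg)
  exact Computable.comp (f := fun q : (List (List ℕ) × List ℕ) × (ℕ × ℕ) =>
    difZ q.1 P q.2.1 q.2.2) (g := fun a => (f a, (r, g a))) (comp_difZ P) h2

theorem fw_neg (k : ℕ) : REPred (fun p : List (List ℕ) × List ℕ => ¬ MonK (k + 4) p) := by
  have h1 : REPred (fun p : List (List ℕ) × List ℕ => ¬ ((letters p).card ≤ k + 4)) :=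
    (comp_letters (k + 4)).not.to_re
  have h2 : REPred (fun p : List (List ℕ) × List ℕ => ∃ n, ¬ (grow p n ≤ grow p (n + 1))) := by
    refine re_exists (R := fun (p : List (List ℕ) × List ℕ) (n : ℕ) =>
      ¬ (grow p n ≤ grow p (n + 1))) ?_
    refine ComputablePred.to_re (ComputablePred.not (fw_le ?_ ?_))
    · exact comp_grow.comp Computable.fst Computable.snd
    · exact comp_grow.comp Computable.fst (Computable.succ.comp Computable.snd)
  exact (re_or h1 h2).of_eq (fun p => by
    unfold MonK Mono
    rw [not_and_or, not_forall])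

theorem fw_pos (k : ℕ) (h : ComputablePred (PosK k)) :
    REPred (fun p : List (List ℕ) × List ℕ => MonK (k + 4) p) := by
  obtain ⟨c, hc⟩ := crit k
  generalize hP : (k + 4).factorial = P at hc
  have h1 : REPred (fun p : List (List ℕ) × List ℕ => (letters p).card ≤ k + 4) :=
    (comp_letters (k + 4)).to_re
  have h2 : REPred (fun p : List (List ℕ) × List ℕ =>
      ∀ j : Fin P, grow p j ≤ grow p (j + 1)) := by
    refine re_forall_fintype (fun j => ComputablePred.to_re (fw_le ?_ ?_))
    · exact comp_grow.comp Computable.id (Computable.const _)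
    · exact comp_grow.comp Computable.id (Computable.const _)
  have h3 : ∀ r : Fin P, REPred (fun p : List (List ℕ) × List ℕ =>
      ∃ a : Fin k → ℤ, (∀ i : Fin (k + 4), difZ p P r (i + k) =
              ∑ j : Fin k, a j * difZ p P r (i + j)) ∧
            PosK k (a, fun j => difZ p P r j)) := by
    intro r
    refine re_exists (R := fun (p : List (List ℕ) × List ℕ) (a : Fin k → ℤ) =>
      (∀ i : Fin (k + 4), difZ p P r (i + k) = ∑ j : Fin k, a j * difZ p P r (i + j)) ∧
            PosK k (a, fun j => difZ p P r j)) ?_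
    refine re_and ?_ ?_
    · refine re_forall_fintype (fun i => re_eq ?_ ?_)
      · exact fw_dif P r Computable.fst (Computable.const _)
      · refine fw_zsum (fun j => fw_zmul ?_ ?_)
        · exact c_app Computable.snd j
        · exact fw_dif P r Computable.fst (Computable.const _)
    · refine re_comp (p := PosK k) h.to_re
        (f := fun q : (List (List ℕ) × List ℕ) × (Fin k → ℤ) =>
          (q.2, fun j : Fin k => difZ q.1 P r j)) ?_
      refine Computable.snd.pair (c_pi (fun j => ?_))
      exact fw_dif P r Computable.fst (Computable.const _)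
  have h4 : ∀ r : Fin P, REPred (fun p : List (List ℕ) × List ℕ =>
      ∃ y : Fin (k + 4) → ℤ,
              (∀ j : Fin k, ∑ i : Fin (k + 4), y i * difZ p P r (i + j) = 0) ∧
              ∑ i : Fin (k + 4), y i * difZ p P r (i + k) ≠ 0) := by
    intro r
    refine re_exists (R := fun (p : List (List ℕ) × List ℕ) (y : Fin (k + 4) → ℤ) =>
      (∀ j : Fin k, ∑ i : Fin (k + 4), y i * difZ p P r (i + j) = 0) ∧
              ∑ i : Fin (k + 4), y i * difZ p P r (i + k) ≠ 0) ?_
    refine re_and ?_ ?_
    · refine re_forall_fintype (fun j => re_eq ?_ (Computable.const 0))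
      refine fw_zsum (fun i => fw_zmul ?_ ?_)
      · exact c_app Computable.snd i
      · exact fw_dif P r Computable.fst (Computable.const _)
    · refine re_ne ?_ (Computable.const 0)
      refine fw_zsum (fun i => fw_zmul ?_ ?_)
      · exact c_app Computable.snd i
      · exact fw_dif P r Computable.fst (Computable.const _)
  have h5 : ∀ r : Fin P, REPred (fun p : List (List ℕ) × List ℕ =>
      ∀ n ∈ List.range (tt k p ^ c + 1), 0 ≤ difZ p P r n) := by
    intro r
    refine re_forall_list (R := fun (p : List (List ℕ) × List ℕ) (n : ℕ) =>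
      0 ≤ difZ p P r n) ?_ ?_
    · exact fw_nonneg (fw_dif P r Computable.fst Computable.snd)
    · refine Primrec.list_range.to_comp.comp (Computable.succ.comp (fw_pow c ?_))
      exact fw_pow _ comp_sz
  refine (re_and h1 (re_and h2 (re_forall_fintype
    (fun r => re_or (h3 r) (re_and (h4 r) (h5 r)))))).of_eq (fun p => ?_)
  unfold MonK
  constructor
  · rintro ⟨g1, g2, g3⟩
    refine ⟨g1, (hc p g1).2 ⟨fun j hj => g2 ⟨j, hj⟩, fun r hr => ?_⟩⟩
    rcases g3 ⟨r, hr⟩ with ⟨a, ha1, ha2⟩ | ⟨⟨y, hy1, hy2⟩, hn⟩
    · exact Or.inl ⟨a, fun i hi => ha1 ⟨i, hi⟩, ha2⟩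
    · exact Or.inr ⟨⟨y, fun j hj => hy1 ⟨j, hj⟩, hy2⟩, fun n hn' =>
        hn n (List.mem_range.2 (Nat.lt_succ_of_le hn'))⟩
  · rintro ⟨g1, g2⟩
    obtain ⟨g3, g4⟩ := (hc p g1).1 g2
    refine ⟨g1, fun j => g3 j j.2, fun r => ?_⟩
    rcases g4 r r.2 with ⟨a, ha1, ha2⟩ | ⟨⟨y, hy1, hy2⟩, hn⟩
    · exact Or.inl ⟨a, fun i => ha1 i i.2, ha2⟩
    · exact Or.inr ⟨⟨y, fun j => hy1 j j.2, hy2⟩, fun n hn' =>
        hn n (Nat.lt_succ_iff.1 (List.mem_range.1 hn'))⟩

theorem fwd (k : ℕ) (h : ComputablePred (PosK k)) : ComputablePred (MonK (k + 4)) := by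
  exact computable_of_re (fw_pos k h) (fw_neg k)

end Pool.Agent.Helper73.DM
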