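import Pool.Agent.Helper73.DM.Defs
import Pool.Agent.Helper39.CJ.RE

/-!
# DM-29: computability of the basic functions

* `comp_grow`: `Primrec.nat_iterate`, `Primrec.list_flatMap` (or a fold), `Primrec.list_getD`, `Primrec.list_length`.
* `comp_sz`, `comp_letters`: `List.flatten`, `List.dedup`/`List.toFinset`: `(letters p).card = (p.1.flatten ++ p.2).dedup.length`; show it primitive recursive by counting, for the elements `a < ` (bound: sum of the list + 1), those that occur in the list, or
  computable by any other method (`Nat.count`-like; `Primrec.list_...`).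
* `comp_difZ`, `comp_lrs`: integer arithmetic: see `Pool/Agent/Helper39/CJ/CQ.lean`, `Pool/Agent/Helper98/CP` for `Primrec`/`Computable` lemmas on `ℤ`. `lrs`: iterate the computable map on windows `Fin k → ℤ` (`x_n, ..., x_(n+k-1)`), or course-of-values recursion.
-/

set_option autoImplicit false

namespace Pool.Agent.Helper73.DM

private theorem pr_grow :
    Primrec₂ (fun (p : List (List ℕ) × List ℕ) (n : ℕ) => grow p n) := by
  unfold grow
  have hstep : Primrec₂ (fun (q : (List (List ℕ) × List ℕ) × ℕ) (w : List ℕ) =>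
      w.flatMap (fun a => q.1.1.getD a [])) := by
    refine Primrec.list_flatMap Primrec.snd ?_
    exact (Primrec.list_getD ([] : List ℕ)).comp
      (Primrec.fst.comp (Primrec.fst.comp (Primrec.fst.comp Primrec.fst))) Primrec.snd
  have h1 : Primrec (fun q : (List (List ℕ) × List ℕ) × ℕ =>
      (fun w : List ℕ => w.flatMap (fun a => q.1.1.getD a []))^[q.2] q.1.2) :=
    Primrec.nat_iterate Primrec.snd (Primrec.snd.comp Primrec.fst) hstep
  exact Primrec.list_length.comp h1

theorem comp_grow : Computable₂ (fun (p : List (List ℕ) × List ℕ) (n : ℕ) => grow p n) := by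
  exact Primrec₂.to_comp pr_grow

theorem comp_sz : Computable (fun p : List (List ℕ) × List ℕ => sz p) := by
  refine Primrec.to_comp ?_
  unfold sz
  exact Primrec.nat_add.comp (Primrec.nat_add.comp (Primrec.list_length.comp
    (Primrec.list_flatten.comp Primrec.fst)) (Primrec.list_length.comp Primrec.snd)) (Primrec.const 2)

private def dd (l : List ℕ) : List ℕ :=
  l.foldr (fun a acc => if a ∈ acc then acc else a :: acc) []

private theorem dd_eq (l : List ℕ) : dd l = l.dedup := by
  induction l with
  | nil => rfl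
  | cons a l ih =>
    have h1 : dd (a :: l) = if a ∈ dd l then dd l else a :: dd l := rfl
    rw [h1, ih]
    by_cases h : a ∈ l
    · rw [if_pos (List.mem_dedup.2 h), List.dedup_cons_of_mem h]
    · rw [if_neg (fun h2 => h (List.mem_dedup.1 h2)), List.dedup_cons_of_notMem h]

private theorem pr_dd : Primrec dd := by
  unfold dd
  refine Primrec.list_foldr (α := List ℕ) (β := ℕ) (σ := List ℕ) (f := fun l => l) (g := fun _ => [])
    (h := fun _ q => if q.1 ∈ q.2 then q.2 else q.1 :: q.2) Primrec.id (Primrec.const []) ?_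
  refine Primrec.ite ?_ (Primrec.snd.comp Primrec.snd) ?_
  · have h1 : PrimrecRel (fun (L : List ℕ) (b : ℕ) => ∃ a ∈ L, a = b) :=
      PrimrecRel.exists_mem_list Primrec.eq
    have h2 : PrimrecRel (fun (L : List ℕ) (b : ℕ) => b ∈ L) := by
      refine PrimrecRel.of_eq h1 fun L b => ?_
      constructor
      · rintro ⟨a, ha, rfl⟩
        exact ha
      · intro hb
        exact ⟨b, hb, rfl⟩
    exact h2.comp (Primrec.snd.comp Primrec.snd) (Primrec.fst.comp Primrec.snd)
  · exact Primrec.list_cons.comp (Primrec.fst.comp Primrec.snd) (Primrec.snd.comp Primrec.snd)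

theorem comp_letters (s : ℕ) :
    ComputablePred (fun p : List (List ℕ) × List ℕ => (letters p).card ≤ s) := by
  have h1 : Primrec (fun p : List (List ℕ) × List ℕ => (dd (p.1.flatten ++ p.2)).length) :=
    Primrec.list_length.comp (pr_dd.comp (Primrec.list_append.comp
      (Primrec.list_flatten.comp Primrec.fst) Primrec.snd))
  have h2 : ∀ p : List (List ℕ) × List ℕ, (dd (p.1.flatten ++ p.2)).length = (letters p).card := by
    intro p
    rw [dd_eq, letters, List.card_toFinset]
  have h3 : PrimrecPred (fun p : List (List ℕ) × List ℕ => (letters p).card ≤ s) := by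
    refine PrimrecPred.of_eq (Primrec.nat_le.comp h1 (Primrec.const s)) fun p => ?_
    rw [h2]
  exact ⟨inferInstance, h3.decide.to_comp⟩

theorem comp_difZ (P : ℕ) :
    Computable (fun q : (List (List ℕ) × List ℕ) × (ℕ × ℕ) => difZ q.1 P q.2.1 q.2.2) := by
  refine Primrec.to_comp ?_
  unfold difZ
  have hn : Primrec (fun q : (List (List ℕ) × List ℕ) × (ℕ × ℕ) => P * (q.2.2 + 1) + q.2.1) :=
    Primrec.nat_add.comp (Primrec.nat_mul.comp (Primrec.const P)
      (Primrec.succ.comp (Primrec.snd.comp Primrec.snd))) (Primrec.fst.comp Primrec.snd)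
  refine Pool.Agent.CQ.pr_subNat ?_ ?_
  · exact pr_grow.comp Primrec.fst (Primrec.succ.comp hn)
  · exact pr_grow.comp Primrec.fst hn

private theorem pr_zsum {α ι : Type*} [Primcodable α] {f : ι → α → ℤ} (hf : ∀ i, Primrec (f i))
    (s : Finset ι) : Primrec (fun a => ∑ i ∈ s, f i a) := by
  classical
  induction s using Finset.induction_on with
  | empty => exact (Primrec.const 0).of_eq fun _ => rfl
  | insert i s hi ih =>
    refine (Pool.Agent.CQ.pr_add (hf i) ih).of_eq fun a => ?_
    rw [Finset.sum_insert hi]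

private def step {k : ℕ} (a w : Fin (k + 1) → ℤ) (i : Fin (k + 1)) : ℤ :=
  if h : (i : ℕ) + 1 < k + 1 then w ⟨i + 1, h⟩ else ∑ j, a j * w j

private theorem step_iter {k : ℕ} (a u : Fin (k + 1) → ℤ) (n : ℕ) :
    (step a)^[n] u = fun i : Fin (k + 1) => lrs a u (n + i) := by
  induction n with
  | zero =>
    funext i
    rw [Function.iterate_zero, id, zero_add]
    unfold lrs
    rw [dif_pos i.2]
  | succ n ih =>
    rw [Function.iterate_succ_apply', ih]
    funext i
    by_cases h : (i : ℕ) + 1 < k + 1
    · unfold step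
      rw [dif_pos h]
      change lrs a u (n + ((i : ℕ) + 1)) = lrs a u (n + 1 + (i : ℕ))
      rw [show n + ((i : ℕ) + 1) = n + 1 + (i : ℕ) by omega]
    · unfold step
      rw [dif_neg h]
      have h1 : n + 1 + (i : ℕ) = n + (k + 1) := by
        have := i.2
        omega
      rw [h1]
      conv_rhs => unfold lrs
      rw [dif_neg (by omega), Nat.add_sub_cancel]

private theorem pr_pi {α σ : Type*} [Primcodable α] [Primcodable σ] {n : ℕ} {f : α → Fin n → σ}
    (hf : ∀ i, Primrec (fun a => f a i)) : Primrec f :=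
  Primrec.fin_curry.2 (Primrec₂.swap (Primrec.fin_curry₁.2 hf))

private theorem pr_app {α σ : Type*} [Primcodable α] [Primcodable σ] {n : ℕ} {f : α → Fin n → σ}
    (hf : Primrec f) (i : Fin n) : Primrec (fun a => f a i) :=
  Primrec.fin_app.comp hf (Primrec.const i)

private theorem pr_step {k : ℕ} :
    Primrec (fun q : (Fin (k + 1) → ℤ) × (Fin (k + 1) → ℤ) => step q.1 q.2) := by
  refine pr_pi fun i => ?_
  by_cases h : (i : ℕ) + 1 < k + 1
  · refine (pr_app Primrec.snd (⟨i + 1, h⟩ : Fin (k + 1))).of_eq fun q => ?_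
    unfold step
    rw [dif_pos h]
  · have h1 : Primrec (fun q : (Fin (k + 1) → ℤ) × (Fin (k + 1) → ℤ) => ∑ j, q.1 j * q.2 j) :=
      pr_zsum (fun j => Pool.Agent.CQ.pr_mul (pr_app Primrec.fst j) (pr_app Primrec.snd j)) _
    refine h1.of_eq fun q => ?_
    unfold step
    rw [dif_neg h]

theorem comp_lrs (k : ℕ) :
    Computable (fun q : ((Fin k → ℤ) × (Fin k → ℤ)) × ℕ => lrs q.1.1 q.1.2 q.2) := by
  refine Primrec.to_comp ?_
  rcases k with _ | k
  · refine (Primrec.const (0 : ℤ)).of_eq fun q => ?_
    unfold lrs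
    rw [dif_neg (Nat.not_lt_zero _), Finset.univ_eq_empty, Finset.sum_empty]
  · have h1 : Primrec (fun q : ((Fin (k + 1) → ℤ) × (Fin (k + 1) → ℤ)) × ℕ =>
        (step q.1.1)^[q.2] q.1.2) :=
      Primrec.nat_iterate Primrec.snd (Primrec.snd.comp Primrec.fst)
        (pr_step.comp ((Primrec.fst.comp (Primrec.fst.comp Primrec.fst)).pair Primrec.snd))
    refine (pr_app h1 0).of_eq fun q => ?_
    rw [step_iter]
    rfl

end Pool.Agent.Helper73.DM
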