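import Pool.Agent.Helper73.DM.Act

/-!
# DM-34: annihilators of subsequences

Proof. `d = 0`: `χ = 1`, `x = 0`, `χ' = 1`. Companion matrix `A` (`d × d`) of `χ`: `A v_n = v_(n+1)`, `v_n = (x n, ..., x (n+d-1))` for every `x` killed by `χ`. `g^n x(P n + r) = e_0 · (g A^P)^n v_r`; `χ' = (g • A^P).charpoly` (monic of degree `d`; `act_matrix`, Cayley-Hamilton).
-/

set_option autoImplicit false

open Polynomial

namespace Pool.Agent.Helper73.DM

theorem act_sub_apply_dm34 {R : Type*} [CommRing R] (P : ℕ) (g : R) (A : R[X]) (x : ℕ → R)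
    (r n : ℕ) :
    act A (fun n => g ^ n * x (P * n + r)) n =
      g ^ n * act (aeval (C g * X ^ P : R[X]) A) x (P * n + r) := by
  have h1 : act (aeval (C g * X ^ P : R[X]) A) x (P * n + r) =
      ∑ i ∈ Finset.range (A.natDegree + 1), A.coeff i * (g ^ i * x (P * n + r + P * i)) := by
    rw [aeval_eq_sum_range]
    have h2 : ∀ s : Finset ℕ, act (∑ i ∈ s, A.coeff i • (C g * X ^ P : R[X]) ^ i) x (P * n + r) =
        ∑ i ∈ s, A.coeff i * (g ^ i * x (P * n + r + P * i)) := by
      intro s
      induction s using Finset.induction_on with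
      | empty =>
        rw [Finset.sum_empty, Finset.sum_empty, act_zero]
        rfl
      | insert a s ha ih =>
        rw [Finset.sum_insert ha, Finset.sum_insert ha, act_add, Pi.add_apply, ih]
        congr 1
        rw [mul_pow, ← C_pow, ← pow_mul, smul_eq_C_mul, act_mul, act_mul, act_C, Pi.smul_apply,
          act_C, Pi.smul_apply, act_X_pow, smul_eq_mul, smul_eq_mul]
    exact h2 _
  rw [act_apply, h1, Finset.mul_sum]
  refine Finset.sum_congr rfl fun i _ => ?_
  have h3 : P * (n + i) + r = P * n + r + P * i := by ring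
  rw [h3, pow_add]
  ring

theorem sub_ann {R : Type*} [CommRing R] [Nontrivial R] (P : ℕ) (g : R) (χ : R[X])
    (hχ : χ.Monic) :
    ∃ χ' : R[X], χ'.Monic ∧ χ'.natDegree = χ.natDegree ∧
      ∀ x : ℕ → R, act χ x = 0 → ∀ r : ℕ, act χ' (fun n => g ^ n * x (P * n + r)) = 0 := by
  have hfree : Module.Free R (AdjoinRoot χ) := hχ.free_adjoinRoot
  have hfin : Module.Finite R (AdjoinRoot χ) := hχ.finite_adjoinRoot
  let b : AdjoinRoot χ := AdjoinRoot.mk χ (C g * X ^ P)
  let L : Module.End R (AdjoinRoot χ) := Algebra.lmul R (AdjoinRoot χ) b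
  refine ⟨L.charpoly, L.charpoly_monic, ?_, ?_⟩
  · rw [LinearMap.charpoly_natDegree]
    exact (AdjoinRoot.powerBasis' hχ).finrank
  · intro x hx r
    have h1 : aeval L L.charpoly = 0 := L.aeval_self_charpoly
    have h2 : aeval L L.charpoly = Algebra.lmul R (AdjoinRoot χ) (aeval b L.charpoly) :=
      aeval_algHom_apply (Algebra.lmul R (AdjoinRoot χ)) b L.charpoly
    have h3 : aeval b L.charpoly = 0 := by
      rw [h1] at h2
      have h4 := congrArg (fun f : Module.End R (AdjoinRoot χ) => f 1) h2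
      simpa using h4.symm
    have h5 : aeval b L.charpoly =
        AdjoinRoot.mk χ (aeval (C g * X ^ P : R[X]) L.charpoly) :=
      aeval_algHom_apply (AdjoinRoot.mkₐ χ) (C g * X ^ P : R[X]) L.charpoly
    rw [h5, AdjoinRoot.mk_eq_zero] at h3
    funext n
    rw [act_sub_apply_dm34, act_of_dvd h3 hx]
    simp

end Pool.Agent.Helper73.DM
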