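import Pool.Agent.Helper73.DM.System
import Pool.Agent.Helper73.DM.SubAnn
import Pool.Agent.Helper73.DM.AnnDif
import Pool.Agent.Helper73.DM.Comp

/-!
# DM-35: decidability of `MonK (k+4)` implies decidability of `PosK k`

`posK_iff`: (→) `exists_system k a u` and `exists_system k a u'` with `lrs_shift`: monotone because all differences are `≥ 0`. (←) For `p` (the other is the same): let `α m = grow p (2m+2) - grow p (2m+1)`, `β m = c 4^m lrs a u (2m)`. `m ↦ α (m+1) = difZ p 2 1 m` is killed by a monic integer polynomial of degree `k+4`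
(`ann_dif (k+4) p _ 2`), `m ↦ β (m+1)` by one of degree `k` (`sub_ann` with `χ = chi a`, `P = 2`, `g = 4`, `r = 2`, times the constant `4 c`). Their difference is killed by the product (degree `2k+4`) and vanishes for `m < 2k+5`, so it is zero (`eq_zero_of_act_le`); `m = 0` is in the check.
So `c 4^m lrs a u (2m) = α m ≥ 0` for all `m` (`Mono p`), `c > 0`: `lrs a u (2m) ≥ 0`.
`rev`: the complement of `PosK k` is r.e. (`∃ n, lrs .. n < 0`, `comp_lrs`); `PosK k` is r.e. by `posK_iff` (`re_exists` over `p, p', c, c'`; `MonK` computable by hypothesis; finitely many equality checks).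
-/

set_option autoImplicit false

open Polynomial

namespace Pool.Agent.Helper73.DM

private theorem rv_ext (k : ℕ) (a u : Fin k → ℤ) (r : ℕ) (p : List (List ℕ) × List ℕ)
    (hp : (letters p).card ≤ k + 4) (c : ℤ)
    (h : ∀ m < 2 * k + 6, (grow p (2 * m + 2) : ℤ) - grow p (2 * m + 1) =
      c * 4 ^ m * lrs a u (2 * m + r)) (m : ℕ) :
    (grow p (2 * m + 2) : ℤ) - grow p (2 * m + 1) = c * 4 ^ m * lrs a u (2 * m + r) := by
  obtain ⟨χ1, hm1, hd1, -, hk1⟩ := ann_dif (k + 4) p hp 2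
  obtain ⟨χ2, hm2, hd2, hk2⟩ := sub_ann 2 (4 : ℤ) (chi a) (chi_monic a)
  have e1 : act χ1 (difZ p 2 1) = 0 := hk1 1
  have e2 : act χ2 (fun n => (4 : ℤ) ^ n * lrs a u (2 * n + (r + 2))) = 0 :=
    hk2 (lrs a u) (act_lrs a u) (r + 2)
  have e3 : act χ2 ((4 * c) • fun n => (4 : ℤ) ^ n * lrs a u (2 * n + (r + 2))) = 0 := by
    rw [act_smul_seq, e2, smul_zero]
  have e4 : act (χ1 * χ2)
      (difZ p 2 1 - (4 * c) • fun n => (4 : ℤ) ^ n * lrs a u (2 * n + (r + 2))) = 0 := by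
    rw [act_sub_seq, act_of_dvd (dvd_mul_right χ1 χ2) e1, act_of_dvd (dvd_mul_left χ2 χ1) e3,
      sub_zero]
  have hval : ∀ n, (difZ p 2 1 - (4 * c) • fun n => (4 : ℤ) ^ n * lrs a u (2 * n + (r + 2))) n =
      ((grow p (2 * (n + 1) + 2) : ℤ) - grow p (2 * (n + 1) + 1)) -
        c * 4 ^ (n + 1) * lrs a u (2 * (n + 1) + r) := by
    intro n
    have e5 : 2 * (n + 1) + r = 2 * n + (r + 2) := by ring
    rw [Pi.sub_apply, Pi.smul_apply, smul_eq_mul, e5, pow_succ]
    unfold difZ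
    ring_nf
  have e5 := eq_zero_of_act (hm1.mul hm2) e4 (by
    intro i hi
    rw [hm1.natDegree_mul hm2, hd1, hd2, chi_natDegree] at hi
    rw [hval, h (i + 1) (by omega), sub_self])
  cases m with
  | zero => exact h 0 (by omega)
  | succ m =>
    have e6 := congrFun e5 m
    rw [hval, Pi.zero_apply] at e6
    exact sub_eq_zero.1 e6

private theorem rv_mono {k : ℕ} {a u : Fin k → ℤ} (h : PosK k (a, u)) :
    ∃ (p : List (List ℕ) × List ℕ) (c : ℤ), MonK (k + 4) p ∧ 0 < c ∧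
      ∀ m, (grow p (2 * m + 2) : ℤ) - grow p (2 * m + 1) = c * 4 ^ m * lrs a u (2 * m) := by
  obtain ⟨p, hp, c, hc, h1, h2⟩ := exists_system k a u
  refine ⟨p, c, ⟨hp, ?_⟩, hc, h1⟩
  intro n
  rcases Nat.even_or_odd' n with ⟨m, rfl | rfl⟩
  · exact h2 m
  · have h3 := h1 m
    have h4 : 0 ≤ lrs a u (2 * m) := h (2 * m)
    have h5 : 0 ≤ c * 4 ^ m * lrs a u (2 * m) := by positivity
    have h6 : (grow p (2 * m + 1) : ℤ) ≤ grow p (2 * m + 2) := by linarith
    exact_mod_cast h6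

theorem posK_iff (k : ℕ) (a u : Fin k → ℤ) :
    PosK k (a, u) ↔ ∃ (p p' : List (List ℕ) × List ℕ) (c c' : ℤ), MonK (k + 4) p ∧
      MonK (k + 4) p' ∧ 0 < c ∧ 0 < c' ∧
      (∀ m < 2 * k + 6,
        (grow p (2 * m + 2) : ℤ) - grow p (2 * m + 1) = c * 4 ^ m * lrs a u (2 * m)) ∧
      (∀ m < 2 * k + 6,
        (grow p' (2 * m + 2) : ℤ) - grow p' (2 * m + 1) = c' * 4 ^ m * lrs a u (2 * m + 1)) := by
  constructor
  · intro h
    obtain ⟨p, c, hp, hc, h1⟩ := rv_mono h
    obtain ⟨u', hu'⟩ := lrs_shift k a u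
    have h' : PosK k (a, u') := by
      intro n
      have h2 : 0 ≤ lrs a u (n + 1) := h (n + 1)
      rw [← hu'] at h2
      exact h2
    obtain ⟨p', c', hp', hc', h1'⟩ := rv_mono h'
    refine ⟨p, p', c, c', hp, hp', hc, hc', fun m _ => h1 m, fun m _ => ?_⟩
    rw [h1' m, hu']
  · rintro ⟨p, p', c, c', hp, hp', hc, hc', h1, h2⟩
    have g1 := rv_ext k a u 0 p hp.1 c h1
    have g2 := rv_ext k a u 1 p' hp'.1 c' h2
    intro n
    change 0 ≤ lrs a u n
    rcases Nat.even_or_odd' n with ⟨m, rfl | rfl⟩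
    · have h3 : (grow p (2 * m + 1) : ℤ) ≤ grow p (2 * m + 2) := by
        exact_mod_cast hp.2 (2 * m + 1)
      have h4 := g1 m
      rw [add_zero] at h4
      by_contra hcon
      push Not at hcon
      have h5 : c * 4 ^ m * lrs a u (2 * m) < 0 :=
        mul_neg_of_pos_of_neg (by positivity) hcon
      linarith
    · have h3 : (grow p' (2 * m + 1) : ℤ) ≤ grow p' (2 * m + 2) := by
        exact_mod_cast hp'.2 (2 * m + 1)
      have h4 := g2 m
      by_contra hcon
      push Not at hcon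
      have h5 : c' * 4 ^ m * lrs a u (2 * m + 1) < 0 :=
        mul_neg_of_pos_of_neg (by positivity) hcon
      linarith

private theorem rv_lrs {α : Type} [Primcodable α] {k : ℕ}
    {q : α → (Fin k → ℤ) × (Fin k → ℤ)} (hq : Computable q) {g : α → ℕ} (hg : Computable g) :
    Computable (fun z => lrs (q z).1 (q z).2 (g z)) := by
  have h1 := (comp_lrs k).comp (hq.pair hg)
  exact h1

private theorem rv_re {α : Type} [Primcodable α] {k : ℕ} {p : α → List (List ℕ) × List ℕ}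
    (hp : Computable p) {c : α → ℤ} (hc : Computable c)
    {q : α → (Fin k → ℤ) × (Fin k → ℤ)} (hq : Computable q) (a b e f : ℕ) :
    REPred (fun z => (grow (p z) a : ℤ) - grow (p z) b =
      c z * ((e : ℕ) : ℤ) * lrs (q z).1 (q z).2 f) := by
  have hsub : Computable₂ (fun x y : ℕ => (x : ℤ) - (y : ℤ)) :=
    Primrec₂.to_comp (Pool.Agent.CQ.pr_subNat Primrec.fst Primrec.snd)
  have hmul : Computable₂ (fun x y : ℤ => x * y) :=
    Primrec₂.to_comp (Pool.Agent.CQ.pr_mul Primrec.fst Primrec.snd)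
  have g1 : Computable (fun z => grow (p z) a) := comp_grow.comp hp (Computable.const a)
  have g2 : Computable (fun z => grow (p z) b) := comp_grow.comp hp (Computable.const b)
  have g3 : Computable (fun z => (grow (p z) a : ℤ) - (grow (p z) b : ℤ)) := hsub.comp g1 g2
  have g4 : Computable (fun z => c z * ((e : ℕ) : ℤ)) := hmul.comp hc (Computable.const _)
  have g5 : Computable (fun z => lrs (q z).1 (q z).2 f) := rv_lrs hq (Computable.const f)
  have g6 : Computable (fun z => c z * ((e : ℕ) : ℤ) * lrs (q z).1 (q z).2 f) := hmul.comp g4 g5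
  exact Pool.Agent.CQ.re_eq g3 g6

private theorem rv_pos {α : Type} [Primcodable α] {c : α → ℤ} (hc : Computable c) :
    REPred (fun z => 0 < c z) := by
  have htn : Computable (fun z : ℤ => z.toNat) :=
    Primrec.to_comp (Pool.Agent.CQ.pr_toNat Primrec.id)
  have g1 : Computable (fun z => (c z).toNat) := htn.comp hc
  refine (Pool.Agent.CQ.re_ne g1 (Computable.const 0)).of_eq fun z => ?_
  omega

private theorem rv_re4 {α : Type} [Primcodable α] {k : ℕ} {p : α → List (List ℕ) × List ℕ}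
    (hp : Computable p) {c : α → ℤ} (hc : Computable c)
    {q : α → (Fin k → ℤ) × (Fin k → ℤ)} (hq : Computable q) (r : ℕ) :
    REPred (fun z => ∀ m : Fin (2 * k + 6),
      (grow (p z) (2 * m + 2) : ℤ) - grow (p z) (2 * m + 1) =
        c z * 4 ^ (m : ℕ) * lrs (q z).1 (q z).2 (2 * m + r)) := by
  refine Pool.Agent.CQ.re_forall_fintype fun m => ?_
  refine (rv_re hp hc hq (2 * (m : ℕ) + 2) (2 * (m : ℕ) + 1) (4 ^ (m : ℕ))
    (2 * (m : ℕ) + r)).of_eq fun z => ?_
  rw [Nat.cast_pow, Nat.cast_ofNat]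

/-- the witnesses -/
private def WW : Type := ((List (List ℕ) × List ℕ) × (List (List ℕ) × List ℕ)) × (ℤ × ℤ)

private noncomputable instance : Primcodable WW :=
  inferInstanceAs (Primcodable (((List (List ℕ) × List ℕ) × (List (List ℕ) × List ℕ)) × (ℤ × ℤ)))

private theorem rv_p1 : Computable (fun w : WW => w.1.1) :=
  Computable.fst.comp (Computable.fst (α := (List (List ℕ) × List ℕ) × (List (List ℕ) × List ℕ))
    (β := ℤ × ℤ))

private theorem rv_p2 : Computable (fun w : WW => w.1.2) :=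
  Computable.snd.comp (Computable.fst (α := (List (List ℕ) × List ℕ) × (List (List ℕ) × List ℕ))
    (β := ℤ × ℤ))

private theorem rv_c1 : Computable (fun w : WW => w.2.1) :=
  Computable.fst.comp (Computable.snd (α := (List (List ℕ) × List ℕ) × (List (List ℕ) × List ℕ))
    (β := ℤ × ℤ))

private theorem rv_c2 : Computable (fun w : WW => w.2.2) :=
  Computable.snd.comp (Computable.snd (α := (List (List ℕ) × List ℕ) × (List (List ℕ) × List ℕ))
    (β := ℤ × ℤ))

/-- the relation between an instance and its witnesses -/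
private def PP (k : ℕ) (q : (Fin k → ℤ) × (Fin k → ℤ)) (w : WW) : Prop :=
  ((MonK (k + 4) w.1.1 ∧ MonK (k + 4) w.1.2) ∧ (0 < w.2.1 ∧ 0 < w.2.2)) ∧
  ((∀ m : Fin (2 * k + 6),
    (grow w.1.1 (2 * m + 2) : ℤ) - grow w.1.1 (2 * m + 1) =
      w.2.1 * 4 ^ (m : ℕ) * lrs q.1 q.2 (2 * m + 0)) ∧
  ∀ m : Fin (2 * k + 6),
    (grow w.1.2 (2 * m + 2) : ℤ) - grow w.1.2 (2 * m + 1) =
      w.2.2 * 4 ^ (m : ℕ) * lrs q.1 q.2 (2 * m + 1))

private theorem rv_main (k : ℕ) (h : ComputablePred (MonK (k + 4))) :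
    REPred (fun z : ((Fin k → ℤ) × (Fin k → ℤ)) × WW => PP k z.1 z.2) := by
  have hp1 : Computable (fun z : ((Fin k → ℤ) × (Fin k → ℤ)) × WW => z.2.1.1) :=
    rv_p1.comp Computable.snd
  have hp2 : Computable (fun z : ((Fin k → ℤ) × (Fin k → ℤ)) × WW => z.2.1.2) :=
    rv_p2.comp Computable.snd
  have hc1 : Computable (fun z : ((Fin k → ℤ) × (Fin k → ℤ)) × WW => z.2.2.1) :=
    rv_c1.comp Computable.snd
  have hc2 : Computable (fun z : ((Fin k → ℤ) × (Fin k → ℤ)) × WW => z.2.2.2) :=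
    rv_c2.comp Computable.snd
  have hq : Computable (fun z : ((Fin k → ℤ) × (Fin k → ℤ)) × WW => z.1) := Computable.fst
  have r1 : REPred (fun z : ((Fin k → ℤ) × (Fin k → ℤ)) × WW => MonK (k + 4) z.2.1.1) :=
    Pool.Agent.CQ.re_comp h.to_re hp1
  have r2 : REPred (fun z : ((Fin k → ℤ) × (Fin k → ℤ)) × WW => MonK (k + 4) z.2.1.2) :=
    Pool.Agent.CQ.re_comp h.to_re hp2
  exact Pool.Agent.CQ.re_and (Pool.Agent.CQ.re_and (Pool.Agent.CQ.re_and r1 r2)
    (Pool.Agent.CQ.re_and (rv_pos hc1) (rv_pos hc2)))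
    (Pool.Agent.CQ.re_and (rv_re4 hp1 hc1 hq 0) (rv_re4 hp2 hc2 hq 1))

theorem rev (k : ℕ) (h : ComputablePred (MonK (k + 4))) : ComputablePred (PosK k) := by
  have hntn : Computable (fun z : ℤ => (-z).toNat) :=
    Primrec.to_comp (Pool.Agent.CQ.pr_toNat (Pool.Agent.CQ.pr_neg Primrec.id))
  refine Pool.Agent.CQ.computable_of_re ?_ ?_
  · refine (Pool.Agent.CQ.re_exists (R := PP k) (rv_main k h)).of_eq fun q => ?_
    obtain ⟨a, u⟩ := q
    rw [posK_iff]
    constructor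
    · rintro ⟨⟨⟨p, p'⟩, ⟨c, c'⟩⟩, ⟨⟨h1, h2⟩, h3, h4⟩, h5, h6⟩
      exact ⟨p, p', c, c', h1, h2, h3, h4, fun m hm => h5 ⟨m, hm⟩, fun m hm => h6 ⟨m, hm⟩⟩
    · rintro ⟨p, p', c, c', h1, h2, h3, h4, h5, h6⟩
      exact ⟨((p, p'), (c, c')), ⟨⟨h1, h2⟩, h3, h4⟩, fun m => h5 m m.2, fun m => h6 m m.2⟩
  · have g1 : Computable (fun z : ((Fin k → ℤ) × (Fin k → ℤ)) × ℕ => lrs z.1.1 z.1.2 z.2) :=
      comp_lrs k
    have g2 : Computable (fun z : ((Fin k → ℤ) × (Fin k → ℤ)) × ℕ =>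
        (-(lrs z.1.1 z.1.2 z.2)).toNat) := hntn.comp g1
    have g3 : REPred (fun z : ((Fin k → ℤ) × (Fin k → ℤ)) × ℕ =>
        (-(lrs z.1.1 z.1.2 z.2)).toNat ≠ 0) := Pool.Agent.CQ.re_ne g2 (Computable.const 0)
    refine (Pool.Agent.CQ.re_exists (R := fun (q : (Fin k → ℤ) × (Fin k → ℤ)) (n : ℕ) =>
      (-(lrs q.1 q.2 n)).toNat ≠ 0) g3).of_eq fun q => ?_
    unfold PosK
    constructor
    · rintro ⟨n, hn⟩ hcon
      have := hcon n
      omega
    · intro hcon
      push Not at hcon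
      obtain ⟨n, hn⟩ := hcon
      exact ⟨n, by omega⟩

end Pool.Agent.Helper73.DM
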