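import Pool.Agent.Helper73.DM.Defs

/-!
# DM-32: a D0L system from a matrix

Proof. Enumerate `ι` by `Fin s`, `s = card ι` (`Fintype.equivFin`), so let `ι = Fin s`. `p.1 = List.ofFn (fun a => (List.finRange s).flatMap (fun b => List.replicate (M a b) (b : ℕ)))`, `p.2 = (List.finRange s).flatMap (fun b => List.replicate (w b) (b : ℕ))`. All letters are `< s`, so
`letters p ⊆ Finset.range s`. With `c_n(b) = count b (h^n ω)`: `c_0 = w`, `c_(n+1)(b) = ∑_a c_n(a) M a b` (`List.count_flatMap`), `grow p n = ∑_b c_n(b)`.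
-/

set_option autoImplicit false

namespace Pool.Agent.Helper73.DM

private theorem h99_sum_flatMap {α β : Type*} (L : List α) (h : α → List β) (g : β → ℕ) :
    ((L.flatMap h).map g).sum = (L.map fun a => ((h a).map g).sum).sum := by
  induction L with
  | nil => rfl
  | cons a L ih =>
    rw [List.flatMap_cons, List.map_append, List.sum_append, ih, List.map_cons, List.sum_cons]

private theorem h99_len_iter (h : ℕ → List ℕ) (G : ℕ → ℕ → ℕ) (h0 : ∀ a, G 0 a = 1)
    (h1 : ∀ n a, G (n + 1) a = ((h a).map (G n)).sum) (n : ℕ) :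
    ∀ L : List ℕ, ((fun w : List ℕ => w.flatMap h)^[n] L).length = (L.map (G n)).sum := by
  induction n with
  | zero =>
    intro L
    rw [Function.iterate_zero, id]
    induction L with
    | nil => rfl
    | cons a L ih => rw [List.length_cons, ih, List.map_cons, List.sum_cons, h0, add_comm]
  | succ n ih =>
    intro L
    rw [Function.iterate_succ_apply, ih, h99_sum_flatMap]
    congr 1
    refine List.map_congr_left fun a _ => ?_
    rw [h1]

private theorem h99_getD {α : Type*} {s : ℕ} (F : Fin s → α) (b : Fin s) (d : α) :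
    (List.ofFn F).getD (b : ℕ) d = F b := by
  rw [List.getD_eq_getElem?_getD, List.getElem?_ofFn, dif_pos b.isLt]
  rfl

theorem exists_d0l {ι : Type*} [Fintype ι] [DecidableEq ι] (M : Matrix ι ι ℕ) (w : ι → ℕ) :
    ∃ p : List (List ℕ) × List ℕ, (letters p).card ≤ Fintype.card ι ∧
      ∀ n : ℕ, grow p n = ∑ b, Matrix.vecMul w (M ^ n) b := by
  obtain ⟨s, hs⟩ : ∃ s, s = Fintype.card ι := ⟨_, rfl⟩
  have e : ι ≃ Fin s := (Fintype.equivFin ι).trans (finCongr hs.symm)
  obtain ⟨wd, hwd⟩ : ∃ wd : (ι → ℕ) → List ℕ, wd = fun v =>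
    (List.finRange s).flatMap fun b : Fin s => List.replicate (v (e.symm b)) (b : ℕ) := ⟨_, rfl⟩
  have hsum : ∀ (v : ι → ℕ) (g : ℕ → ℕ), ((wd v).map g).sum = ∑ i, v i * g (e i) := by
    intro v g
    rw [hwd, h99_sum_flatMap, ← Fin.sum_univ_def, ← Equiv.sum_comp e]
    refine Finset.sum_congr rfl fun i _ => ?_
    rw [List.map_replicate, List.sum_replicate, smul_eq_mul, Equiv.symm_apply_apply]
  have hlt : ∀ (v : ι → ℕ), ∀ a ∈ wd v, a < s := by
    intro v a ha
    rw [hwd, List.mem_flatMap] at ha
    obtain ⟨b, -, hb⟩ := ha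
    rw [List.eq_of_mem_replicate hb]
    exact b.isLt
  refine ⟨(List.ofFn fun a : Fin s => wd (M (e.symm a)), wd w), ?_, ?_⟩
  · have h1 : letters (List.ofFn fun a : Fin s => wd (M (e.symm a)), wd w) ⊆ Finset.range s := by
      intro a ha
      unfold letters at ha
      rw [List.mem_toFinset, List.mem_append] at ha
      rw [Finset.mem_range]
      rcases ha with ha | ha
      · rw [List.mem_flatten] at ha
        obtain ⟨l, hl, hal⟩ := ha
        rw [List.mem_ofFn'] at hl
        obtain ⟨b, rfl⟩ := hl
        exact hlt _ a hal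
      · exact hlt _ a ha
    have h2 := Finset.card_le_card h1
    rw [Finset.card_range] at h2
    exact h2.trans hs.le
  · intro n
    obtain ⟨h, hh⟩ : ∃ h : ℕ → List ℕ,
      h = fun a => (List.ofFn fun a : Fin s => wd (M (e.symm a))).getD a [] := ⟨_, rfl⟩
    obtain ⟨G, hG⟩ : ∃ G : ℕ → ℕ → ℕ,
      G = fun n => Nat.rec (fun _ => 1) (fun _ g a => ((h a).map g).sum) n := ⟨_, rfl⟩
    have h0 : ∀ a, G 0 a = 1 := fun a => by
      rw [hG]
      rfl
    have h1 : ∀ n a, G (n + 1) a = ((h a).map (G n)).sum := fun n a => by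
      rw [hG]
    have hhe : ∀ i : ι, h (e i) = wd (M i) := by
      intro i
      have h3 := h99_getD (fun a : Fin s => wd (M (e.symm a))) (e i) []
      rw [Equiv.symm_apply_apply] at h3
      rw [hh]
      exact h3
    have hGe : ∀ (n : ℕ) (i : ι), G n (e i) = ∑ j, (M ^ n) i j := by
      intro n
      induction n with
      | zero =>
        intro i
        rw [h0, pow_zero]
        simp [Matrix.one_apply]
      | succ n ih =>
        intro i
        rw [h1, hhe, hsum, pow_succ']
        simp only [Matrix.mul_apply]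
        rw [Finset.sum_comm]
        refine Finset.sum_congr rfl fun j _ => ?_
        rw [ih, Finset.mul_sum]
    have h2 : grow (List.ofFn fun a : Fin s => wd (M (e.symm a)), wd w) n =
        ((fun w : List ℕ => w.flatMap h)^[n] (wd w)).length := by
      unfold grow
      rw [hh]
    rw [h2, h99_len_iter h G h0 h1 n (wd w), hsum]
    simp only [Matrix.vecMul, dotProduct]
    rw [Finset.sum_comm]
    refine Finset.sum_congr rfl fun i _ => ?_
    rw [hGe, Finset.mul_sum]

end Pool.Agent.Helper73.DM
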