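import Pool.Agent.Helper73.DM.Act

/-!
# DM-21: integer sequences: from complex to integer annihilators; `lrs`

* `int_monic`. (1) Rational annihilator: choose a `ℚ`-linear map `φ : ℂ → ℚ` with `φ (leadingCoeff A) ≠ 0` (a nonzero vector of a vector space has a linear functional that is not zero on it: `exists_dual_map_eq_one...` / `Module.exists_dual_forall_apply_eq_zero_iff`, or a basis);
  `A' = ∑ C (φ A_i) X^i ∈ ℚ[X]`, `A' ≠ 0`, `natDegree A' ≤ k`, and `∑ φ(A_i) x_(n+i) = φ(∑ A_i x_(n+i)) = 0` because the `x` are integers. (2) `m = gcd(A', χ)` in `ℚ[X]`, monic; `m = a A' + b χ` kills `x` (`act_add`, `act_mul`), `natDegree m ≤ k`, `m ∣ χ.map`;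
  a monic rational divisor of a monic integer polynomial has integer coefficients (Gauss: `IsIntegrallyClosed.eq_map_mul_C_of_dvd`, `Polynomial.Monic...`, `m = q0.map`), `q0` monic. (3) `q = q0 * X^(k - natDegree q0)`.
* `lrs_of_act`: both sequences satisfy the same recurrence with the same initial values (strong induction; unfold `lrs` once: `rw [lrs]`).
* `act_lrs`: the recurrence of `lrs`.
-/

set_option autoImplicit false

open Polynomial

namespace Pool.Agent.Helper73.DM

theorem int_monic (k : ℕ) (x : ℕ → ℤ) (χ : ℤ[X]) (hχ : χ.Monic) (h1 : act χ x = 0) (A : ℂ[X])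
    (hA : A ≠ 0) (hd : A.natDegree ≤ k) (h2 : act A (fun n => ((x n : ℤ) : ℂ)) = 0) :
    ∃ q : ℤ[X], q.Monic ∧ q.natDegree = k ∧ act q x = 0 := by
  classical
  -- a rational annihilator
  obtain ⟨φ, hφ⟩ : ∃ φ : ℂ →ₗ[ℚ] ℚ, φ A.leadingCoeff ≠ 0 := by
    by_contra hc
    push Not at hc
    exact leadingCoeff_ne_zero.2 hA ((Module.forall_dual_apply_eq_zero_iff ℚ _).1 hc)
  set A' : ℚ[X] := ∑ i ∈ Finset.range (k + 1), monomial i (φ (A.coeff i)) with hA'
  have hcoeff : ∀ j, A'.coeff j = φ (A.coeff j) := by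
    intro j
    rw [hA', finsetSum_coeff]
    simp only [coeff_monomial]
    rw [Finset.sum_ite_eq']
    split_ifs with h
    · rfl
    · rw [Finset.mem_range, not_lt] at h
      rw [coeff_eq_zero_of_natDegree_lt (by omega), map_zero]
  have hA'0 : A' ≠ 0 := by
    intro h0
    apply hφ
    have := hcoeff A.natDegree
    rw [h0, coeff_zero] at this
    exact this.symm
  have hA'd : A'.natDegree ≤ k := by
    rw [natDegree_le_iff_coeff_eq_zero]
    intro N hN
    rw [hcoeff, coeff_eq_zero_of_natDegree_lt (by omega), map_zero]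
  have hactA' : act A' (fun n => ((x n : ℤ) : ℚ)) = 0 := by
    funext n
    rw [act_apply_of_le A' _ n k hA'd, Pi.zero_apply]
    have h3 := congrFun h2 n
    rw [act_apply_of_le A _ n k hd, Pi.zero_apply] at h3
    have h4 := congrArg φ h3
    rw [map_sum, map_zero] at h4
    rw [← h4]
    refine Finset.sum_congr rfl fun i _ => ?_
    have h5 : A.coeff i * ((x (n + i) : ℤ) : ℂ) = (x (n + i)) • A.coeff i := by
      rw [zsmul_eq_mul, mul_comm]
    rw [hcoeff, h5, map_zsmul, zsmul_eq_mul, mul_comm]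
  have hactχ : act (χ.map (Int.castRingHom ℚ)) (fun n => ((x n : ℤ) : ℚ)) = 0 := by
    have h3 := act_map (Int.castRingHom ℚ) χ x
    have h4 : act (χ.map (Int.castRingHom ℚ)) (fun n => ((x n : ℤ) : ℚ)) =
      fun n => (Int.castRingHom ℚ) (act χ x n) := h3
    rw [h4, h1]
    funext n
    simp
  -- the gcd
  set m₀ : ℚ[X] := EuclideanDomain.gcd A' (χ.map (Int.castRingHom ℚ)) with hm₀
  have hm₀A : m₀ ∣ A' := EuclideanDomain.gcd_dvd_left _ _
  have hm₀χ : m₀ ∣ χ.map (Int.castRingHom ℚ) := EuclideanDomain.gcd_dvd_right _ _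
  have hm₀0 : m₀ ≠ 0 := ne_zero_of_dvd_ne_zero hA'0 hm₀A
  have hactm₀ : act m₀ (fun n => ((x n : ℤ) : ℚ)) = 0 := by
    have h3 := EuclideanDomain.gcd_eq_gcd_ab A' (χ.map (Int.castRingHom ℚ))
    rw [hm₀, h3, act_add, act_of_dvd (Dvd.intro _ rfl) hactA', act_of_dvd (Dvd.intro _ rfl) hactχ,
      add_zero]
  have hlc : m₀.leadingCoeff ≠ 0 := leadingCoeff_ne_zero.2 hm₀0
  set m : ℚ[X] := m₀ * C (m₀.leadingCoeff)⁻¹ with hm
  have hmm : m.Monic := monic_mul_leadingCoeff_inv hm₀0
  have hm' : m₀ = m * C m₀.leadingCoeff := by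
    rw [hm, mul_assoc, ← C_mul, inv_mul_cancel₀ hlc, C_1, mul_one]
  have hmχ : m ∣ χ.map (Int.castRingHom ℚ) := (Dvd.intro _ hm'.symm).trans hm₀χ
  have hmA : m ∣ A' := (Dvd.intro _ hm'.symm).trans hm₀A
  have hmd : m.natDegree ≤ k := (natDegree_le_of_dvd hmA hA'0).trans hA'd
  have hactm : act m (fun n => ((x n : ℤ) : ℚ)) = 0 := act_of_dvd (Dvd.intro _ rfl) hactm₀
  obtain ⟨q0, hq0⟩ := IsIntegrallyClosed.eq_map_mul_C_of_dvd ℚ hχ (g := m) hmχ
  rw [hmm.leadingCoeff, C_1, mul_one] at hq0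
  have hinj : Function.Injective (algebraMap ℤ ℚ) := Int.cast_injective
  have hq0m : q0.Monic := monic_of_injective hinj (by rw [hq0]; exact hmm)
  have hq0d : q0.natDegree ≤ k := by
    rw [← natDegree_map_eq_of_injective hinj q0, hq0]
    exact hmd
  have hactq0 : act q0 x = 0 := by
    funext n
    have h3 := congrFun (act_map (algebraMap ℤ ℚ) q0 x) n
    rw [hq0] at h3
    have h4 := congrFun hactm n
    have h5 : (algebraMap ℤ ℚ) (act q0 x n) = 0 := h3.symm.trans h4
    exact hinj (h5.trans (map_zero _).symm)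
  refine ⟨q0 * X ^ (k - q0.natDegree), hq0m.mul (monic_X_pow _), ?_,
    act_of_dvd (Dvd.intro _ rfl) hactq0⟩
  rw [hq0m.natDegree_mul (monic_X_pow _), natDegree_X_pow]
  omega

theorem lrs_of_act (k : ℕ) (x : ℕ → ℤ) (q : ℤ[X]) (hq : q.Monic) (hd : q.natDegree = k)
    (h : act q x = 0) :
    x = lrs (fun i : Fin k => - q.coeff i) (fun i : Fin k => x i) := by
  funext n
  induction n using Nat.strong_induction_on with
  | _ n ih =>
    rw [lrs]
    split_ifs with hn
    · rfl
    · have h1 : ∀ i : Fin k, lrs (fun i : Fin k => - q.coeff i) (fun i : Fin k => x i)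
          (n - k + i) = x (n - k + i) := fun i => (ih _ (by have := i.2; omega)).symm
      simp only [h1]
      have h2 := congrFun h (n - k)
      rw [act_apply, hd, Finset.sum_range_succ, Pi.zero_apply] at h2
      have h3 : q.coeff k = 1 := by rw [← hd]; exact hq.coeff_natDegree
      have h4 : n - k + k = n := by omega
      rw [h3, h4, one_mul, Finset.sum_range] at h2
      simp only [neg_mul, Finset.sum_neg_distrib]
      linarith

/-- the characteristic polynomial of a recurrence -/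
noncomputable def chi {k : ℕ} (a : Fin k → ℤ) : ℤ[X] := X ^ k - ∑ i : Fin k, C (a i) * X ^ (i : ℕ)

theorem chi_monic {k : ℕ} (a : Fin k → ℤ) : (chi a).Monic := by
  have h1 : (∑ i : Fin k, C (a i) * X ^ (i : ℕ)).degree < (X ^ k : ℤ[X]).degree := by
    rw [degree_X_pow]
    exact degree_sum_fin_lt a
  unfold chi Monic
  rw [leadingCoeff_sub_of_degree_lt h1]
  exact monic_X_pow k

theorem chi_natDegree {k : ℕ} (a : Fin k → ℤ) : (chi a).natDegree = k := by
  have h1 : (∑ i : Fin k, C (a i) * X ^ (i : ℕ)).degree < (X ^ k : ℤ[X]).degree := by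
    rw [degree_X_pow]
    exact degree_sum_fin_lt a
  unfold chi
  refine natDegree_eq_of_degree_eq_some ?_
  rw [degree_sub_eq_left_of_degree_lt h1, degree_X_pow]

theorem act_lrs {k : ℕ} (a u : Fin k → ℤ) : act (chi a) (lrs a u) = 0 := by
  funext n
  have hsum : ∀ (s : Finset (Fin k)) (B : Fin k → ℤ[X]) (x : ℕ → ℤ),
      act (∑ i ∈ s, B i) x = ∑ i ∈ s, act (B i) x := by
    intro s B x
    unfold act
    rw [map_sum, LinearMap.sum_apply]
  unfold chi
  rw [act_sub, Pi.sub_apply, act_X_pow, hsum, Finset.sum_apply, Pi.zero_apply, sub_eq_zero,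
    lrs, dif_neg (by omega), Nat.add_sub_cancel]
  refine Finset.sum_congr rfl fun i _ => ?_
  rw [act_mul, act_C, Pi.smul_apply, act_X_pow, smul_eq_mul]

theorem lrs_lt {k : ℕ} (a u : Fin k → ℤ) (i : Fin k) : lrs a u i = u i := by
  rw [lrs, dif_pos i.2]

end Pool.Agent.Helper73.DM
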