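import Pool.Agent.Helper73.DM.Act

/-!
# DM-B18: the polynomial of the `P`-th powers of the roots

* `∏ (X - C (lam i ^ P))` has integer coefficients: they are symmetric polynomials in the `lam i` with integer coefficients (evaluate `MvPolynomial.IsSymmetric` polynomials: fundamental theorem `MvPolynomial.esymmAlgEquiv`; the elementary symmetric functions of the `lam i` are, up to sign, the coefficients of `χ`); or: it is the characteristic polynomial of `A^P`, `A` the integer companion matrix of `χ`
  (over `ℂ` the matrix is triangularizable, or compare via `Matrix.charpoly` and `∏_{ζ^P = 1}`), or Galois theory and integrality.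
* It kills `n ↦ x (P n + r)`: `∏ (X - C (lam i))` divides `∏ (X^P - C (lam i^P)) = (∏ (X - C (lam i^P))).comp (X^P)`, which kills `x`; `(act (A.comp (X^P)) x) m = (act A (fun n => x (m + P n))) 0`. Injectivity of `ℤ → ℂ` (`act_map`).
-/

set_option autoImplicit false

open Polynomial

namespace Pool.Agent.Helper73.DM

/-- the elementary symmetric functions of the roots of an integer polynomial are integers -/
theorem esymm_int (d : ℕ) (χ : ℤ[X]) (lam : Fin d → ℂ)
    (h : χ.map (Int.castRingHom ℂ) = ∏ i, (X - C (lam i))) (j : ℕ) :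
    ∃ z : ℤ, MvPolynomial.aeval lam (MvPolynomial.esymm (Fin d) ℤ j) = (z : ℂ) := by
  classical
  rw [MvPolynomial.aeval_esymm_eq_multiset_esymm]
  set s : Multiset ℂ := Finset.univ.val.map lam with hs
  have hcard : Multiset.card s = d := by simp [hs]
  have hprod : (s.map fun t => X - C t).prod = χ.map (Int.castRingHom ℂ) := by
    rw [h, hs, Multiset.map_map]
    rfl
  by_cases hj : j ≤ d
  · have h1 := Multiset.prod_X_sub_C_coeff s (k := d - j) (by rw [hcard]; omega)
    rw [hprod, hcard, coeff_map, show d - (d - j) = j by omega] at h1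
    refine ⟨(-1) ^ j * χ.coeff (d - j), ?_⟩
    have h2 : ((-1 : ℂ)) ^ j * (-1) ^ j = 1 := by
      rw [← mul_pow]; norm_num
    push_cast
    have h3 : (χ.coeff (d - j) : ℂ) = (-1) ^ j * s.esymm j := by
      rw [← h1]; rfl
    rw [h3, ← mul_assoc, h2, one_mul]
  · refine ⟨0, ?_⟩
    rw [Multiset.esymm, Multiset.powersetCard_eq_empty]
    · simp
    · rw [hcard]; omega

/-- the value of a symmetric integer polynomial at the roots of an integer polynomial -/
theorem symm_int (d : ℕ) (χ : ℤ[X]) (lam : Fin d → ℂ)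
    (h : χ.map (Int.castRingHom ℂ) = ∏ i, (X - C (lam i))) (p : MvPolynomial (Fin d) ℤ)
    (hp : p.IsSymmetric) : ∃ z : ℤ, MvPolynomial.aeval lam p = (z : ℂ) := by
  classical
  obtain ⟨g, hg⟩ := MvPolynomial.esymmAlgHom_surjective (σ := Fin d) (n := d) ℤ (by simp) ⟨p, hp⟩
  have hg' : MvPolynomial.aeval (fun i : Fin d => MvPolynomial.esymm (Fin d) ℤ (i + 1)) g = p := by
    rw [← MvPolynomial.esymmAlgHom_apply, hg]
  choose z hz using fun j => esymm_int d χ lam h j
  refine ⟨MvPolynomial.aeval (fun i : Fin d => z (i + 1)) g, ?_⟩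
  rw [← hg', ← AlgHom.comp_apply, MvPolynomial.comp_aeval]
  have h1 : (fun i : Fin d => MvPolynomial.aeval lam (MvPolynomial.esymm (Fin d) ℤ (i + 1))) =
      fun i : Fin d => Algebra.ofId ℤ ℂ (z (i + 1)) := by
    funext i
    rw [hz]
    simp
  rw [h1, ← MvPolynomial.comp_aeval]
  simp

theorem pow_roots (d P : ℕ) (hP : 1 ≤ P) (χ : ℤ[X]) (lam : Fin d → ℂ)
    (h : χ.map (Int.castRingHom ℂ) = ∏ i, (X - C (lam i))) :
    ∃ χ' : ℤ[X], χ'.map (Int.castRingHom ℂ) = ∏ i, (X - C (lam i ^ P)) ∧
      ∀ x : ℕ → ℤ, act χ x = 0 → ∀ r : ℕ, act χ' (fun n => x (P * n + r)) = 0 := by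
  classical
  -- the polynomial with symmetric coefficients
  let F : (MvPolynomial (Fin d) ℤ)[X] := ∏ i, (X - C (MvPolynomial.X i ^ P))
  have hFmap : F.map (MvPolynomial.aeval lam : MvPolynomial (Fin d) ℤ →ₐ[ℤ] ℂ).toRingHom =
      ∏ i, (X - C (lam i ^ P)) := by
    simp only [F]
    rw [Polynomial.map_prod]
    refine Finset.prod_congr rfl fun i _ => ?_
    rw [Polynomial.map_sub, map_X, map_C]
    simp
  have hsymm : ∀ k, (F.coeff k).IsSymmetric := by
    intro k e
    have h1 : F.map (MvPolynomial.rename e : MvPolynomial (Fin d) ℤ →ₐ[ℤ] _).toRingHom = F := by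
      simp only [F]
      rw [Polynomial.map_prod]
      conv_rhs => rw [← Equiv.prod_comp e]
      refine Finset.prod_congr rfl fun i _ => ?_
      rw [Polynomial.map_sub, map_X, map_C]
      simp
    have h2 := congrArg (fun G => G.coeff k) h1
    simp only [coeff_map] at h2
    exact h2
  choose z hz using fun k => symm_int d χ lam h (F.coeff k) (hsymm k)
  let χ' : ℤ[X] := ∑ k ∈ Finset.range (F.natDegree + 1), C (z k) * X ^ k
  have hχ' : χ'.map (Int.castRingHom ℂ) = ∏ i, (X - C (lam i ^ P)) := by
    rw [← hFmap]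
    conv_rhs => rw [F.as_sum_range_C_mul_X_pow]
    simp only [χ']
    rw [Polynomial.map_sum, Polynomial.map_sum]
    refine Finset.sum_congr rfl fun k _ => ?_
    rw [Polynomial.map_mul, Polynomial.map_mul, map_C, map_C, Polynomial.map_pow,
      Polynomial.map_pow, map_X, map_X]
    congr 2
    exact (hz k).symm
  refine ⟨χ', hχ', fun x hx r => ?_⟩
  have hcomp : ∀ (A : ℤ[X]) (y : ℕ → ℤ) (m : ℕ),
      act (A.comp (X ^ P)) y m = act A (fun n => y (P * n + m)) 0 := by
    intro A y m
    induction A using Polynomial.induction_on' with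
    | add p q hp hq => rw [add_comp, act_add, act_add, Pi.add_apply, Pi.add_apply, hp, hq]
    | monomial k a =>
      rw [← C_mul_X_pow_eq_monomial, mul_comp, C_comp, pow_comp, X_comp, act_mul, act_mul, act_C,
        act_C, Pi.smul_apply, Pi.smul_apply, ← pow_mul, act_X_pow, act_X_pow]
      congr 2
      ring
  have hdvd : χ.map (Int.castRingHom ℂ) ∣ (χ'.comp (X ^ P)).map (Int.castRingHom ℂ) := by
    rw [map_comp, hχ', h, Polynomial.map_pow, map_X, prod_comp]
    refine Finset.prod_dvd_prod_of_dvd _ _ fun i _ => ?_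
    rw [sub_comp, X_comp, C_comp, C_pow]
    exact sub_dvd_pow_sub_pow _ _ P
  have hkill : act (χ'.comp (X ^ P)) x = 0 := by
    have h1 : act (χ.map (Int.castRingHom ℂ)) (fun n => ((x n : ℤ) : ℂ)) = 0 := by
      have := act_map (Int.castRingHom ℂ) χ x
      rw [hx] at this
      refine this.trans ?_
      funext n
      simp
    have h2 := act_of_dvd hdvd h1
    have h3 := act_map (Int.castRingHom ℂ) (χ'.comp (X ^ P)) x
    funext n
    have h4 := congrFun (h3.symm.trans h2) n
    have h7 : ((act (χ'.comp (X ^ P)) x n : ℤ) : ℂ) = 0 := h4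
    show act (χ'.comp (X ^ P)) x n = 0
    exact_mod_cast h7
  funext n
  have h5 := act_shift χ' (fun n => x (P * n + r)) 0 n
  rw [zero_add] at h5
  rw [← h5]
  have h6 : (fun m => x (P * (m + n) + r)) = fun m => x (P * m + (P * n + r)) := by
    funext m
    congr 1
    ring
  show act χ' (fun m => x (P * (m + n) + r)) 0 = 0
  rw [h6, ← hcomp, hkill]
  rfl

end Pool.Agent.Helper73.DM
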