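import Pool.Agent.Helper73.DM.DefsB

/-!
# DM-B17: killing the torsion

`K` = the number field generated by the `lam i` (roots of a monic `χ ∈ ℤ[X]` of degree `d`), `[K:ℚ] ≤ N` with `N` depending only on `d` (`d!` or `d^d`). If `ζ ∈ K` is a primitive `m`-th root of unity, `φ(m) ≤ N` (`Polynomial.cyclotomic.irreducible_rat`, the degree of the minimal polynomial divides `[K:ℚ]`). If `p^a` divides `m` exactly (`a ≥ 1`), then
`p^a ≤ 2 p^(a-1)(p-1) = 2 φ(p^a) ≤ 2 φ(m) ≤ 2N`, so `p^a` divides `(2N)!`, so `m` divides `(2N)!`. `P = (2N)!`. For `P ∣ P'`: `∏ (lam i^P')^(e i) = (∏ lam i^(e i))^P'` (`e i ≠ 0` only where `lam i ≠ 0`); if its `m`-th power is `1`, then `t = ∏ lam i^(e i) ∈ K` is a root of unity, so `t^P = 1`, so `t^P' = 1`.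
-/

set_option autoImplicit false

open Polynomial

namespace Pool.Agent.Helper73.DM

theorem dvd_fact_of_totient_le (n N : ℕ) (hn : n ≠ 0) (h : n.totient ≤ N) :
    n ∣ (2 * N).factorial := by
  rw [← Nat.factorization_le_iff_dvd hn (Nat.factorial_ne_zero _)]
  intro p
  by_cases hp : p.Prime
  swap
  · rw [Nat.factorization_eq_zero_of_not_prime _ hp]
    exact Nat.zero_le _
  set a := n.factorization p with ha
  rcases Nat.eq_zero_or_pos a with h0 | h0
  · rw [h0]
    exact Nat.zero_le _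
  rw [← hp.pow_dvd_iff_le_factorization (Nat.factorial_ne_zero _)]
  refine Nat.dvd_factorial (pow_pos hp.pos _) ?_
  have h1 : p ^ a ∣ n := Nat.ordProj_dvd n p
  have h2 : (p ^ a).totient ≤ N :=
    (Nat.le_of_dvd (Nat.totient_pos.2 (Nat.pos_of_ne_zero hn)) (Nat.totient_dvd_of_dvd h1)).trans h
  rw [Nat.totient_prime_pow hp h0] at h2
  obtain ⟨b, hb⟩ : ∃ b, a = b + 1 := ⟨a - 1, by omega⟩
  rw [hb, Nat.add_sub_cancel] at h2
  rw [hb, pow_succ]
  have h3 : p ≤ 2 * (p - 1) := by have := hp.two_le; omega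
  calc p ^ b * p ≤ p ^ b * (2 * (p - 1)) := Nat.mul_le_mul_left _ h3
    _ = 2 * (p ^ b * (p - 1)) := by ring
    _ ≤ 2 * N := Nat.mul_le_mul_left _ h2

theorem finrank_adjoin_le (d : ℕ) (χ : ℤ[X]) (lam : Fin d → ℂ)
    (h : χ.map (Int.castRingHom ℂ) = ∏ i, (X - C (lam i))) (s : Finset (Fin d)) :
    FiniteDimensional ℚ (IntermediateField.adjoin ℚ (lam '' (s : Set (Fin d)))) ∧
      Module.finrank ℚ (IntermediateField.adjoin ℚ (lam '' (s : Set (Fin d)))) ≤ d ^ s.card := by
  classical
  have hroot : ∀ i, Polynomial.aeval (lam i) (χ.map (Int.castRingHom ℚ)) = 0 := by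
    intro i
    have h1 : eval (lam i) (χ.map (Int.castRingHom ℂ)) = 0 := by
      rw [h, eval_prod]
      exact Finset.prod_eq_zero (Finset.mem_univ i) (by simp)
    rw [aeval_def, eval₂_map, ← h1, eval_map]
    congr 1
  have hmonic : χ.Monic := by
    have h1 : (χ.map (Int.castRingHom ℂ)).Monic := by
      rw [h]
      exact monic_prod_of_monic _ _ fun i _ => monic_X_sub_C _
    exact (Function.Injective.monic_map_iff (Int.cast_injective : Function.Injective
      (Int.castRingHom ℂ))).2 h1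
  have hdeg : χ.natDegree = d := by
    have h1 : (χ.map (Int.castRingHom ℂ)).natDegree = d := by
      rw [h, natDegree_prod_of_monic _ _ fun i _ => monic_X_sub_C _]
      simp
    rw [hmonic.natDegree_map] at h1
    exact h1
  have hint : ∀ i, IsIntegral ℚ (lam i) := fun i =>
    ⟨χ.map (Int.castRingHom ℚ), hmonic.map _, by
      have := hroot i
      rwa [aeval_def] at this⟩
  have hone : ∀ i, Module.finrank ℚ (IntermediateField.adjoin ℚ {lam i}) ≤ d := by
    intro i
    rw [IntermediateField.adjoin.finrank (hint i)]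
    have h1 : minpoly ℚ (lam i) ∣ χ.map (Int.castRingHom ℚ) := minpoly.dvd _ _ (hroot i)
    refine (natDegree_le_of_dvd h1 (hmonic.map _).ne_zero).trans ?_
    rw [hmonic.natDegree_map, hdeg]
  induction s using Finset.induction_on with
  | empty =>
    rw [Finset.coe_empty, Set.image_empty, IntermediateField.adjoin_empty, Finset.card_empty,
      pow_zero]
    exact ⟨inferInstance, by rw [IntermediateField.finrank_bot]⟩
  | insert a s ha ih =>
    obtain ⟨hfd, hrk⟩ := ih
    have hfa : FiniteDimensional ℚ (IntermediateField.adjoin ℚ {lam a}) :=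
      IntermediateField.adjoin.finiteDimensional (hint a)
    rw [Finset.coe_insert, Set.image_insert_eq, ← Set.singleton_union,
      IntermediateField.adjoin_union, Finset.card_insert_of_notMem ha]
    refine ⟨inferInstance, (IntermediateField.finrank_sup_le _ _).trans ?_⟩
    rw [pow_succ, mul_comm]
    exact Nat.mul_le_mul hrk (hone a)

theorem tors (d : ℕ) :
    ∃ P : ℕ, 1 ≤ P ∧ ∀ (χ : ℤ[X]) (lam : Fin d → ℂ),
      χ.map (Int.castRingHom ℂ) = ∏ i, (X - C (lam i)) → ∀ P' : ℕ, P ∣ P' → 1 ≤ P' →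
      TorFree (fun i => lam i ^ P') := by
  classical
  refine ⟨(2 * d ^ d).factorial, Nat.factorial_pos _, ?_⟩
  intro χ lam h P' hP hP' e he m hm hem
  obtain ⟨hfd, hrk⟩ := finrank_adjoin_le d χ lam h Finset.univ
  rw [Finset.card_univ, Fintype.card_fin] at hrk
  set K := IntermediateField.adjoin ℚ (lam '' ((Finset.univ : Finset (Fin d)) : Set (Fin d))) with hK
  set t : ℂ := ∏ i, lam i ^ e i with ht
  have htP : ∏ i, (lam i ^ P') ^ e i = t ^ P' := by
    rw [ht, ← Finset.prod_pow]
    refine Finset.prod_congr rfl fun i _ => ?_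
    rw [← zpow_natCast, ← zpow_natCast, ← zpow_mul, ← zpow_mul, mul_comm]
  have hlam : ∀ i, lam i ∈ K := fun i => IntermediateField.subset_adjoin ℚ _ ⟨i, by simp, rfl⟩
  have htK : t ∈ K := by
    rw [ht]
    exact prod_mem fun i _ => zpow_mem (hlam i) _
  show ∏ i, (lam i ^ P') ^ e i = 1
  have hem' : (∏ i, (lam i ^ P') ^ e i) ^ m = 1 := hem
  rw [htP] at hem' ⊢
  rw [← pow_mul] at hem'
  -- the order of `t`
  have hfin : IsOfFinOrder t := isOfFinOrder_iff_pow_eq_one.2 ⟨P' * m, Nat.mul_pos hP' hm, hem'⟩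
  have hprim : IsPrimitiveRoot t (orderOf t) := IsPrimitiveRoot.orderOf t
  have hpos : 0 < orderOf t := hfin.orderOf_pos
  have htot : (orderOf t).totient ≤ d ^ d := by
    have h1 := cyclotomic_eq_minpoly_rat hprim hpos
    have h2 := congrArg natDegree h1
    rw [natDegree_cyclotomic] at h2
    rw [h2]
    have h3 : minpoly ℚ (⟨t, htK⟩ : K) = minpoly ℚ t :=
      (minpoly.algebraMap_eq (algebraMap K ℂ).injective (⟨t, htK⟩ : K)).symm
    rw [← h3]
    exact (minpoly.natDegree_le _).trans hrk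
  have hdvd : orderOf t ∣ P' := (dvd_fact_of_totient_le _ _ hpos.ne' htot).trans hP
  exact orderOf_dvd_iff_pow_eq_one.1 hdvd

end Pool.Agent.Helper73.DM
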