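import Pool.Agent.Helper73.DM.Five
import Pool.Agent.Helper73.DM.Tors
import Pool.Agent.Helper73.DM.PowRoots
import Pool.Agent.Helper73.DM.Comp
import Pool.Agent.Helper73.DM.Fwd
import Pool.Agent.Helper73.DM.IntAnn

/-!
# DM-B20: positivity of recurrences of order five is decidable; nine letters

* `pos_five`: `χ = chi a` (monic of degree 5, `chi_monic`, `chi_natDegree`), `lam : Fin 5 → ℂ` its roots, `‖lam i‖ ≤ S`, `|x n| ≤ S^(n+1)` (`x = lrs a u`; `|x (n+5)| ≤ ∑ |a i| |x (n+i)|`). `P` from `tors 5`. For `r < P`: `x_r n = x (P n + r)`, killed by `χ'` with roots `lam i^P` (`pow_roots`), `TorFree` (`tors` with `P' = P`), `T = S^(6 P)` bounds the roots and the first values.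
  `five_torfree` for the `Dat 5 T`. So if `x n ≥ 0` for all `n ≤ P (2^(2^(T^c)) + 1)`, then `x ≥ 0`; this bound is `≤ 2^(2^(S^c'))·P`-like, so `≤ 2^(2^(S^c2))` for suitable `c2`.
* `posK_five`: `PosK 5` is `∀ n ≤ 2^(2^(S^c)), 0 ≤ lrs a u n`, a bounded quantifier over a computable bound with a computable predicate (`comp_lrs`).
* `nine_letters`: `fwd 5`.
-/

set_option autoImplicit false

open Polynomial

namespace Pool.Agent.Helper73.DM

open Pool.Agent.CQ

private theorem p5_exists_lam {d : ℕ} {χ : ℤ[X]} (hm : χ.Monic) (hd : χ.natDegree = d) :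
    ∃ lam : Fin d → ℂ, χ.map (Int.castRingHom ℂ) = ∏ i, (X - C (lam i)) ∧
      ∀ i, lam i ∈ (χ.map (Int.castRingHom ℂ)).roots := by
  have hm' : (χ.map (Int.castRingHom ℂ)).Monic := hm.map _
  have hsp := IsAlgClosed.splits (χ.map (Int.castRingHom ℂ))
  have hcard : (χ.map (Int.castRingHom ℂ)).roots.card = d := by
    rw [← hsp.natDegree_eq_card_roots, hm.natDegree_map, hd]
  obtain ⟨L, hL⟩ : ∃ L : List ℂ, L = (χ.map (Int.castRingHom ℂ)).roots.toList := ⟨_, rfl⟩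
  have hLlen : L.length = d := by rw [hL, Multiset.length_toList, hcard]
  subst hLlen
  refine ⟨fun i => L.get i, ?_, ?_⟩
  · have h1 := hsp.eq_prod_roots_of_monic hm'
    rw [h1]
    have h2 : (χ.map (Int.castRingHom ℂ)).roots = (L : Multiset ℂ) := by
      rw [hL, Multiset.coe_toList]
    rw [h2, Multiset.map_coe, Multiset.prod_coe, ← List.prod_ofFn]
    congr 1
    conv_lhs => rw [← List.ofFn_get L]
    rw [List.map_ofFn]
    rfl
  · intro i
    rw [← Multiset.mem_toList, ← hL]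
    exact List.get_mem L i

/-- the roots of `chi a` are at most `max 1 (∑ |a i|)` -/
private theorem p5_root {a : Fin 5 → ℤ} {z : ℂ}
    (hz : z ∈ ((chi a).map (Int.castRingHom ℂ)).roots) :
    ‖z‖ ≤ 2 + ∑ i, ((a i).natAbs : ℝ) := by
  by_contra hc
  push Not at hc
  have hs : (0 : ℝ) ≤ ∑ i, ((a i).natAbs : ℝ) := Finset.sum_nonneg fun i _ => Nat.cast_nonneg _
  have h1 : 1 ≤ ‖z‖ := by linarith
  have h2 : z ^ 5 = ∑ i : Fin 5, (a i : ℂ) * z ^ (i : ℕ) := by
    have := isRoot_of_mem_roots hz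
    rw [IsRoot.def, eval_map, chi, eval₂_sub, eval₂_pow, eval₂_X, eval₂_finsetSum, sub_eq_zero] at this
    rw [this]
    refine Finset.sum_congr rfl fun i _ => ?_
    rw [eval₂_mul, eval₂_C, eval₂_pow, eval₂_X]
    rfl
  have h3 : ‖z‖ ^ 5 ≤ (∑ i, ((a i).natAbs : ℝ)) * ‖z‖ ^ 4 := by
    rw [← norm_pow, h2, Finset.sum_mul]
    refine (norm_sum_le _ _).trans (Finset.sum_le_sum fun i _ => ?_)
    rw [norm_mul, norm_pow]
    have e1 : ‖(a i : ℂ)‖ = ((a i).natAbs : ℝ) := by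
      rw [Complex.norm_intCast, Nat.cast_natAbs, Int.cast_abs]
    rw [e1]
    exact mul_le_mul_of_nonneg_left (pow_le_pow_right₀ h1 (by omega)) (Nat.cast_nonneg _)
  have h4 : 0 < ‖z‖ ^ 4 := by positivity
  have h5 : ‖z‖ ≤ ∑ i, ((a i).natAbs : ℝ) := by
    refine le_of_mul_le_mul_right ?_ h4
    calc ‖z‖ * ‖z‖ ^ 4 = ‖z‖ ^ 5 := by ring
      _ ≤ _ := h3
  linarith

private theorem p5_val (a u : Fin 5 → ℤ) (S : ℕ)
    (hS : S = 2 + ∑ i, (a i).natAbs + ∑ i, (u i).natAbs) (n : ℕ) :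
    |lrs a u n| ≤ (S : ℤ) ^ (n + 1) := by
  have hS1 : (1 : ℤ) ≤ S := by
    have : 1 ≤ S := by rw [hS]; omega
    exact_mod_cast this
  induction n using Nat.strong_induction_on with
  | _ n ih =>
    rw [lrs]
    split_ifs with h
    · have h1 : |u ⟨n, h⟩| ≤ (S : ℤ) := by
        have h2 : (u ⟨n, h⟩).natAbs ≤ ∑ i, (u i).natAbs :=
          Finset.single_le_sum (f := fun i => (u i).natAbs) (fun _ _ => Nat.zero_le _)
            (Finset.mem_univ _)
        have h3 : (u ⟨n, h⟩).natAbs ≤ S := by rw [hS]; omega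
        rw [Int.abs_eq_natAbs]
        exact_mod_cast h3
      exact h1.trans (le_self_pow₀ hS1 (by omega))
    · have h1 : ∀ i : Fin 5, |a i * lrs a u (n - 5 + i)| ≤ ((a i).natAbs : ℤ) * (S : ℤ) ^ n := by
        intro i
        rw [abs_mul, Int.abs_eq_natAbs (a i)]
        refine mul_le_mul_of_nonneg_left ?_ (by positivity)
        refine (ih (n - 5 + i) (by omega)).trans ?_
        exact pow_le_pow_right₀ hS1 (by omega)
      calc |∑ i : Fin 5, a i * lrs a u (n - 5 + i)|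
          ≤ ∑ i : Fin 5, |a i * lrs a u (n - 5 + i)| := Finset.abs_sum_le_sum_abs _ _
        _ ≤ ∑ i : Fin 5, ((a i).natAbs : ℤ) * (S : ℤ) ^ n := Finset.sum_le_sum fun i _ => h1 i
        _ = (∑ i : Fin 5, ((a i).natAbs : ℤ)) * (S : ℤ) ^ n := by rw [Finset.sum_mul]
        _ ≤ (S : ℤ) * (S : ℤ) ^ n := by
            refine mul_le_mul_of_nonneg_right ?_ (by positivity)
            have h3 : ∑ i, (a i).natAbs ≤ S := by rw [hS]; omega
            exact_mod_cast h3
        _ = (S : ℤ) ^ (n + 1) := by ring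

private theorem p5_num (S P c : ℕ) (hS : 2 ≤ S) (hP : 1 ≤ P) :
    P * (2 ^ (2 ^ ((S ^ (6 * P)) ^ c)) + 1) ≤ 2 ^ (2 ^ (S ^ (6 * P * c + P + 2))) := by
  set A := (S ^ (6 * P)) ^ c with hA
  have hA' : A = S ^ (6 * P * c) := by rw [hA, ← pow_mul]
  have h1 : P ≤ 2 ^ P := (Nat.lt_two_pow_self).le
  have h2 : 2 ^ (2 ^ A) + 1 ≤ 2 ^ (2 ^ A + 1) := by
    rw [pow_succ]
    have : 1 ≤ 2 ^ (2 ^ A) := Nat.one_le_two_pow
    omega
  calc P * (2 ^ (2 ^ A) + 1) ≤ 2 ^ P * 2 ^ (2 ^ A + 1) := Nat.mul_le_mul h1 h2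
    _ = 2 ^ (P + (2 ^ A + 1)) := by rw [← pow_add]
    _ ≤ 2 ^ (2 ^ (S ^ (6 * P * c + P + 2))) := by
        refine Nat.pow_le_pow_right (by omega) ?_
        have h3 : P + 1 ≤ 2 ^ P := Nat.lt_two_pow_self
        have h4 : 1 ≤ 2 ^ A := Nat.one_le_two_pow
        have h5 : P + (2 ^ A + 1) ≤ 2 ^ (P + A + 1) := by
          have h6 : 1 ≤ 2 ^ P := Nat.one_le_two_pow
          have h7 : 2 ^ (P + A + 1) = 2 * (2 ^ P * 2 ^ A) := by rw [pow_succ, pow_add]; ring
          rw [h7]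
          have h8 : 2 ^ P ≤ 2 ^ P * 2 ^ A := Nat.le_mul_of_pos_right _ h4
          have h9 : 2 ^ A ≤ 2 ^ P * 2 ^ A := Nat.le_mul_of_pos_left _ h6
          omega
        refine h5.trans (Nat.pow_le_pow_right (by omega) ?_)
        have g1 : P + 1 ≤ S ^ P := Nat.lt_pow_self (by omega)
        have g2 : 1 ≤ A := by rw [hA']; exact Nat.one_le_pow _ _ (by omega)
        have g3 : P + 1 ≤ S ^ (6 * P * c + P) :=
          g1.trans (Nat.pow_le_pow_right (by omega) (by omega))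
        have g4 : A ≤ S ^ (6 * P * c + P) := by
          rw [hA']; exact Nat.pow_le_pow_right (by omega) (by omega)
        calc P + A + 1 ≤ 2 * S ^ (6 * P * c + P) := by omega
          _ ≤ S ^ 2 * S ^ (6 * P * c + P) := by
              refine Nat.mul_le_mul_right _ ?_
              nlinarith
          _ = S ^ (6 * P * c + P + 2) := by rw [← pow_add]; congr 1; omega

theorem pos_five :
    ∃ c : ℕ, ∀ a u : Fin 5 → ℤ,
      (∀ n ≤ 2 ^ (2 ^ ((2 + ∑ i, (a i).natAbs + ∑ i, (u i).natAbs) ^ c)), 0 ≤ lrs a u n) →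
      ∀ n, 0 ≤ lrs a u n := by
  obtain ⟨P, hP, htors⟩ := tors 5
  obtain ⟨c, hc⟩ := five_torfree
  refine ⟨6 * P * c + P + 2, fun a u => ?_⟩
  obtain ⟨S, hS⟩ : ∃ S, S = 2 + ∑ i, (a i).natAbs + ∑ i, (u i).natAbs := ⟨_, rfl⟩
  rw [← hS]
  intro hsmall
  have hS2 : 2 ≤ S := by rw [hS]; omega
  obtain ⟨lam, hlam, hmem⟩ := p5_exists_lam (chi_monic a) (chi_natDegree a)
  obtain ⟨χ', hχ', hact⟩ := pow_roots 5 P hP (chi a) lam hlam
  have htf := htors (chi a) lam hlam P dvd_rfl hP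
  have hx0 : act (chi a) (lrs a u) = 0 := act_lrs a u
  have hlamS : ∀ i, ‖lam i‖ ≤ (S : ℝ) := by
    intro i
    refine (p5_root (hmem i)).trans ?_
    rw [hS]
    push_cast
    have : (0 : ℝ) ≤ ∑ i, ((u i).natAbs : ℝ) := Finset.sum_nonneg fun i _ => Nat.cast_nonneg _
    simp only [Nat.cast_natAbs, Int.cast_abs] at this ⊢
    linarith
  have hS1 : (1 : ℝ) ≤ S := by exact_mod_cast (by omega : 1 ≤ S)
  have key : ∀ r < P, ∀ n, 0 ≤ lrs a u (P * n + r) := by
    intro r hr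
    let D : Dat 5 (S ^ (6 * P)) :=
      { χ := χ'
        lam := fun i => lam i ^ P
        x := fun n => lrs a u (P * n + r)
        two_le := hS2.trans (Nat.le_self_pow (by omega) S)
        map_eq := hχ'
        lam_le := by
          intro i
          rw [norm_pow]
          push_cast
          calc ‖lam i‖ ^ P ≤ (S : ℝ) ^ P := pow_le_pow_left₀ (norm_nonneg _) (hlamS i) P
            _ ≤ (S : ℝ) ^ (6 * P) := pow_le_pow_right₀ hS1 (by omega)
        kill := hact _ hx0 r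
        x_le := by
          intro n hn
          have h1 := p5_val a u S hS (P * n + r)
          refine h1.trans ?_
          push_cast
          refine pow_le_pow_right₀ (by exact_mod_cast (by omega : 1 ≤ S)) ?_
          have : P * n ≤ P * 5 := Nat.mul_le_mul_left P hn
          omega }
    refine hc (S ^ (6 * P)) D htf (fun n hn => ?_)
    refine hsmall _ (le_trans ?_ (p5_num S P c hS2 hP))
    have h1 : P * n ≤ P * 2 ^ 2 ^ ((S ^ (6 * P)) ^ c) := Nat.mul_le_mul_left P hn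
    rw [mul_add, mul_one]
    omega
  intro n
  have h1 := key (n % P) (Nat.mod_lt _ (by omega)) (n / P)
  rwa [Nat.div_add_mod] at h1

private theorem p5_prim (c : ℕ) : ∃ g : ℕ → ℕ → ℕ, Primrec₂ g ∧
    ∀ s t, g s t = 2 ^ (2 ^ ((2 + s + t) ^ c)) := by
  have h1 : Primrec₂ (fun s t : ℕ => 2 + s + t) :=
    Primrec.nat_add.comp (Primrec.nat_add.comp (Primrec.const 2) Primrec.fst) Primrec.snd
  have h2 : Primrec₂ (fun s t : ℕ => (2 + s + t) ^ c) := pr_npow h1 (Primrec.const c)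
  have h3 : Primrec₂ (fun s t : ℕ => 2 ^ ((2 + s + t) ^ c)) := pr_npow (Primrec.const 2) h2
  have h4 : Primrec₂ (fun s t : ℕ => 2 ^ (2 ^ ((2 + s + t) ^ c))) := pr_npow (Primrec.const 2) h3
  exact ⟨_, h4, fun _ _ => rfl⟩

private theorem p5_sum {f : (Fin 5 → ℤ) × (Fin 5 → ℤ) → Fin 5 → ℤ}
    (hf : ∀ i, Computable fun q => f q i) : Computable (fun q => ∑ i, (f q i).natAbs) := by
  have h1 : Computable (fun q => ∑ i, ((f q i).natAbs : ℤ)) := by
    refine fw_zsum fun i => ?_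
    have h : Primrec (fun x : ℤ => (x.natAbs : ℤ)) := pr_natCast (pr_natAbs Primrec.id)
    exact h.to_comp.comp (hf i)
  have h2 : Primrec (fun x : ℤ => x.toNat) := pr_toNat Primrec.id
  refine (h2.to_comp.comp h1).of_eq fun q => ?_
  rw [← Nat.cast_sum, Int.toNat_natCast]

private theorem p5_bound (c : ℕ) : ∃ b : (Fin 5 → ℤ) × (Fin 5 → ℤ) → ℕ, Computable b ∧
    ∀ q, b q = 2 ^ (2 ^ ((2 + ∑ i, (q.1 i).natAbs + ∑ i, (q.2 i).natAbs) ^ c)) := by
  have h1 : Computable (fun q : (Fin 5 → ℤ) × (Fin 5 → ℤ) => ∑ i, (q.1 i).natAbs) :=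
    p5_sum fun i => c_app Computable.fst i
  have h2 : Computable (fun q : (Fin 5 → ℤ) × (Fin 5 → ℤ) => ∑ i, (q.2 i).natAbs) :=
    p5_sum fun i => c_app Computable.snd i
  obtain ⟨g, hg, hg2⟩ := p5_prim c
  have h3 : Computable₂ g := hg.to_comp
  exact ⟨fun q => g (∑ i, (q.1 i).natAbs) (∑ i, (q.2 i).natAbs), h3.comp h1 h2,
    fun q => hg2 _ _⟩

theorem posK_five : ComputablePred (PosK 5) := by
  obtain ⟨c, hc⟩ := pos_five
  obtain ⟨b, hb, hb2⟩ := p5_bound c
  refine computable_of_re ?_ ?_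
  · have h1 : REPred (fun q : (Fin 5 → ℤ) × (Fin 5 → ℤ) =>
        ∀ n ∈ List.range (b q + 1), 0 ≤ lrs q.1 q.2 n) := by
      refine re_forall_list (R := fun (q : (Fin 5 → ℤ) × (Fin 5 → ℤ)) (n : ℕ) =>
        0 ≤ lrs q.1 q.2 n) ?_ ?_
      · exact fw_nonneg (comp_lrs 5)
      · exact Primrec.list_range.to_comp.comp (Computable.succ.comp hb)
    refine h1.of_eq fun q => ?_
    constructor
    · intro h
      exact hc q.1 q.2 fun n hn => h n (List.mem_range.2 (Nat.lt_succ_of_le ((hb2 q).symm ▸ hn)))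
    · intro h n _
      exact h n
  · have h1 : REPred (fun q : (Fin 5 → ℤ) × (Fin 5 → ℤ) => ∃ n, ¬ (0 ≤ lrs q.1 q.2 n)) := by
      refine re_exists (R := fun (q : (Fin 5 → ℤ) × (Fin 5 → ℤ)) (n : ℕ) =>
        ¬ (0 ≤ lrs q.1 q.2 n)) ?_
      have h2 : Computable (fun p : ((Fin 5 → ℤ) × (Fin 5 → ℤ)) × ℕ =>
          (0 : ℤ) + (-1) * lrs p.1.1 p.1.2 p.2 + (-1)) :=
        fw_zadd (fw_zadd (Computable.const 0) (fw_zmul (Computable.const (-1)) (comp_lrs 5)))
          (Computable.const (-1))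
      exact (fw_nonneg h2).of_eq fun p => by constructor <;> intro h <;> omega
    exact h1.of_eq fun q => by unfold PosK; push Not; rfl

theorem nine_letters : ComputablePred (MonK 9) := by
  exact fwd 5 posK_five

end Pool.Agent.Helper73.DM
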