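import Pool.Agent.Helper73.DM.Defs

/-! # DM-01: the action of polynomials on sequences: basic rules -/

set_option autoImplicit false

open Polynomial

namespace Pool.Agent.Helper73.DM

section
variable {R : Type*} [CommRing R]

theorem shift_apply (x : ℕ → R) (n : ℕ) : shift R x n = x (n + 1) := rfl

theorem shift_pow_apply (j : ℕ) (x : ℕ → R) (n : ℕ) : ((shift R) ^ j) x n = x (n + j) := by
  induction j generalizing n with
  | zero => simp
  | succ j ih =>
    rw [pow_succ', Module.End.mul_apply, shift_apply, ih]
    congr 1; omega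

theorem act_apply (A : R[X]) (x : ℕ → R) (n : ℕ) :
    act A x n = ∑ i ∈ Finset.range (A.natDegree + 1), A.coeff i * x (n + i) := by
  unfold act
  rw [aeval_eq_sum_range, LinearMap.sum_apply, Finset.sum_apply]
  refine Finset.sum_congr rfl fun i _ => ?_
  rw [LinearMap.smul_apply, Pi.smul_apply, shift_pow_apply, smul_eq_mul]

theorem act_apply_of_le (A : R[X]) (x : ℕ → R) (n d : ℕ) (hd : A.natDegree ≤ d) :
    act A x n = ∑ i ∈ Finset.range (d + 1), A.coeff i * x (n + i) := by
  rw [act_apply]
  refine Finset.sum_subset (Finset.range_mono (by omega)) fun i _ hi => ?_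
  rw [coeff_eq_zero_of_natDegree_lt (by simpa using hi), zero_mul]

theorem act_mul (A B : R[X]) (x : ℕ → R) : act (A * B) x = act A (act B x) := by
  unfold act; rw [map_mul, Module.End.mul_apply]

theorem act_mul_comm (A B : R[X]) (x : ℕ → R) : act A (act B x) = act B (act A x) := by
  rw [← act_mul, ← act_mul, mul_comm]

theorem act_add (A B : R[X]) (x : ℕ → R) : act (A + B) x = act A x + act B x := by
  unfold act; rw [map_add, LinearMap.add_apply]

theorem act_sub (A B : R[X]) (x : ℕ → R) : act (A - B) x = act A x - act B x := by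
  unfold act; rw [map_sub, LinearMap.sub_apply]

theorem act_zero (x : ℕ → R) : act (0 : R[X]) x = 0 := by
  unfold act; rw [map_zero, LinearMap.zero_apply]

theorem act_one (x : ℕ → R) : act (1 : R[X]) x = x := by
  unfold act; rw [map_one, Module.End.one_apply]

theorem act_C (c : R) (x : ℕ → R) : act (C c) x = c • x := by
  unfold act; rw [aeval_C, Module.algebraMap_end_apply]

theorem act_X (x : ℕ → R) (n : ℕ) : act (X : R[X]) x n = x (n + 1) := by
  unfold act; rw [aeval_X, shift_apply]

theorem act_X_pow (j : ℕ) (x : ℕ → R) (n : ℕ) : act ((X : R[X]) ^ j) x n = x (n + j) := by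
  unfold act; rw [map_pow, aeval_X, shift_pow_apply]

theorem act_X_sub_C (z : R) (x : ℕ → R) (n : ℕ) :
    act (X - C z) x n = x (n + 1) - z * x n := by
  rw [act_sub, act_C, Pi.sub_apply, act_X, Pi.smul_apply, smul_eq_mul]

theorem act_zero_seq (A : R[X]) : act A (0 : ℕ → R) = 0 := by
  unfold act; rw [map_zero]

theorem act_add_seq (A : R[X]) (x y : ℕ → R) : act A (x + y) = act A x + act A y := by
  unfold act; rw [map_add]

theorem act_sub_seq (A : R[X]) (x y : ℕ → R) : act A (x - y) = act A x - act A y := by
  unfold act; rw [map_sub]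

theorem act_smul_seq (A : R[X]) (c : R) (x : ℕ → R) : act A (c • x) = c • act A x := by
  unfold act; rw [map_smul]

theorem act_shift (A : R[X]) (x : ℕ → R) (n j : ℕ) :
    act A (fun m => x (m + j)) n = act A x (n + j) := by
  rw [act_apply, act_apply]
  refine Finset.sum_congr rfl fun i _ => ?_
  congr 2; omega

theorem act_of_dvd {A B : R[X]} (h : A ∣ B) {x : ℕ → R} (hx : act A x = 0) : act B x = 0 := by
  obtain ⟨D, rfl⟩ := h
  rw [mul_comm, act_mul, hx, act_zero_seq]

/-- a sequence killed by a monic polynomial is determined by its first values -/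
theorem eq_zero_of_act {A : R[X]} (hA : A.Monic) {x : ℕ → R} (h : act A x = 0)
    (h0 : ∀ i < A.natDegree, x i = 0) : x = 0 := by
  funext n
  induction n using Nat.strong_induction_on with
  | _ n ih =>
    by_cases hn : n < A.natDegree
    · exact h0 n hn
    · have h1 := congrFun h (n - A.natDegree)
      rw [act_apply, Finset.sum_range_succ] at h1
      have h2 : ∑ i ∈ Finset.range A.natDegree, A.coeff i * x (n - A.natDegree + i) = 0 := by
        refine Finset.sum_eq_zero fun i hi => ?_
        rw [ih _ (by have := Finset.mem_range.1 hi; omega)]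
        simp
      rw [h2, zero_add, hA.coeff_natDegree, one_mul] at h1
      have h3 : n - A.natDegree + A.natDegree = n := by omega
      rw [h3] at h1
      simpa using h1

/-- the same with a bound for the degree -/
theorem eq_zero_of_act_le {A : R[X]} (hA : A.Monic) {x : ℕ → R} (h : act A x = 0) (d : ℕ)
    (hd : A.natDegree ≤ d) (h0 : ∀ i < d, x i = 0) : x = 0 :=
  eq_zero_of_act hA h fun i hi => h0 i (by omega)

theorem act_coprime {A B : R[X]} (hAB : IsCoprime A B) {x : ℕ → R} (hx : act (A * B) x = 0) :
    ∃ v w : ℕ → R, x = v + w ∧ act A v = 0 ∧ act B w = 0 := by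
  obtain ⟨a, b, hab⟩ := hAB
  refine ⟨act (b * B) x, act (a * A) x, ?_, ?_, ?_⟩
  · rw [← act_add, add_comm, hab, act_one]
  · rw [← act_mul, show A * (b * B) = b * (A * B) by ring, act_mul, hx, act_zero_seq]
  · rw [← act_mul, show B * (a * A) = a * (A * B) by ring, act_mul, hx, act_zero_seq]

end

/-- base change -/
theorem act_map {R S : Type*} [CommRing R] [CommRing S] (f : R →+* S) (A : R[X]) (x : ℕ → R) :
    act (A.map f) (fun n => f (x n)) = fun n => f (act A x n) := by
  funext n
  rw [act_apply_of_le (A.map f) _ n A.natDegree natDegree_map_le, act_apply, map_sum]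
  refine Finset.sum_congr rfl fun i _ => ?_
  rw [map_mul, coeff_map]

/-- linear representations: if `x n = ℓ (M ^ n v)` then `act A x n = ℓ (M ^ n A(M) v)` -/
theorem act_matrix {R : Type*} [CommRing R] {ι : Type*} [Fintype ι] [DecidableEq ι]
    (M : Matrix ι ι R) (l v : ι → R) (A : R[X]) (n : ℕ) :
    act A (fun m => l ⬝ᵥ (M ^ m).mulVec v) n = l ⬝ᵥ (M ^ n * aeval M A).mulVec v := by
  rw [act_apply, aeval_eq_sum_range, Finset.mul_sum, Matrix.sum_mulVec, dotProduct_sum]
  refine Finset.sum_congr rfl fun i _ => ?_
  rw [mul_smul_comm, Matrix.smul_mulVec, dotProduct_smul, smul_eq_mul, ← pow_add]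

end Pool.Agent.Helper73.DM
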