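import Mathlib

/-!
# DM-16: integer polynomials with all roots in the unit disc

Proof. `χ = X^j * q` with `q` monic in `ℤ[X]`, `q.coeff 0 ≠ 0` (`j` = the order of vanishing at 0, e.g. `Polynomial.exists_eq_pow_rootMultiplicity_mul_and_not_dvd` or strong induction on the degree). The product of the
complex roots of `q` is `± q.coeff 0` (`Polynomial.prod_roots_eq_coeff_zero_of_monic_of_splits`), of norm `≥ 1`; every factor has norm `≤ 1`, so every factor has norm `1`. The nonzero roots of `χ` are the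
roots of `q`.
-/

set_option autoImplicit false

open Polynomial

namespace Pool.Agent.Helper73.DM

private lemma prod_le_one (s : Multiset ℂ) (h : ∀ z ∈ s, ‖z‖ ≤ 1) : ‖s.prod‖ ≤ 1 := by
  induction s using Multiset.induction_on with
  | empty => simp
  | cons a s ih =>
    rw [Multiset.prod_cons, norm_mul]
    have h1 := h a (Multiset.mem_cons_self a s)
    have h2 := ih fun z hz => h z (Multiset.mem_cons_of_mem hz)
    calc ‖a‖ * ‖s.prod‖ ≤ 1 * 1 := mul_le_mul h1 h2 (norm_nonneg _) zero_le_one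
      _ = 1 := one_mul _

theorem all_one (χ : ℤ[X]) (hχ : χ.Monic)
    (h : ∀ z ∈ (χ.map (Int.castRingHom ℂ)).roots, ‖z‖ ≤ 1) :
    ∀ z ∈ (χ.map (Int.castRingHom ℂ)).roots, z ≠ 0 → ‖z‖ = 1 := by
  obtain ⟨q, hq, hqd⟩ := Polynomial.exists_eq_pow_rootMultiplicity_mul_and_not_dvd χ hχ.ne_zero 0
  rw [map_zero, sub_zero] at hq hqd
  obtain ⟨j, hj⟩ : ∃ j, j = χ.rootMultiplicity 0 := ⟨_, rfl⟩
  rw [← hj] at hq
  have hqm : q.Monic := by
    refine Polynomial.Monic.of_mul_monic_left (Polynomial.monic_X_pow j) ?_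
    rw [← hq]
    exact hχ
  have hq0 : q.coeff 0 ≠ 0 := fun h0 => hqd (Polynomial.X_dvd_iff.mpr h0)
  obtain ⟨Q, hQ⟩ : ∃ Q : ℂ[X], Q = q.map (Int.castRingHom ℂ) := ⟨_, rfl⟩
  have hQm : Q.Monic := by
    rw [hQ]
    exact hqm.map _
  have hχQ : χ.map (Int.castRingHom ℂ) = Polynomial.X ^ j * Q := by
    rw [hQ]
    conv_lhs => rw [hq]
    rw [Polynomial.map_mul, Polynomial.map_pow, Polynomial.map_X]
  have hne : Polynomial.X ^ j * Q ≠ 0 := mul_ne_zero (pow_ne_zero _ Polynomial.X_ne_zero) hQm.ne_zero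
  have hsub : ∀ z ∈ Q.roots, ‖z‖ ≤ 1 := by
    intro z hz
    refine h z ?_
    rw [hχQ, Polynomial.roots_mul hne]
    exact Multiset.mem_add.mpr (Or.inr hz)
  have hprod : 1 ≤ ‖Q.roots.prod‖ := by
    have h1 := (IsAlgClosed.splits Q).coeff_zero_eq_prod_roots_of_monic hQm
    have h2 : ‖Q.coeff 0‖ = ‖Q.roots.prod‖ := by
      rw [h1, norm_mul, norm_pow, norm_neg, norm_one, one_pow, one_mul]
    rw [← h2, hQ, Polynomial.coeff_map, eq_intCast, Complex.norm_intCast]
    have h3 : (1 : ℤ) ≤ |q.coeff 0| := Int.one_le_abs hq0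
    exact_mod_cast h3
  intro z hz hz0
  have hzQ : z ∈ Q.roots := by
    rw [hχQ, Polynomial.roots_mul hne, Multiset.mem_add] at hz
    rcases hz with hz | hz
    · rw [Polynomial.roots_pow, Polynomial.roots_X] at hz
      have := Multiset.mem_of_mem_nsmul hz
      exact absurd (Multiset.mem_singleton.mp this) hz0
    · exact hz
  refine le_antisymm (hsub z hzQ) ?_
  obtain ⟨s, hs⟩ := Multiset.exists_cons_of_mem hzQ
  rw [hs, Multiset.prod_cons, norm_mul] at hprod
  have h1 : ‖s.prod‖ ≤ 1 := by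
    refine prod_le_one s fun y hy => hsub y ?_
    rw [hs]
    exact Multiset.mem_cons_of_mem hy
  calc 1 ≤ ‖z‖ * ‖s.prod‖ := hprod
    _ ≤ ‖z‖ * 1 := mul_le_mul_of_nonneg_left h1 (norm_nonneg _)
    _ = ‖z‖ := mul_one _

/-- a monic integer polynomial with a nonzero complex root has a root of norm at least one -/
theorem exists_one_le (χ : ℤ[X]) (hχ : χ.Monic) (w : ℂ)
    (hw : w ∈ (χ.map (Int.castRingHom ℂ)).roots) (hw0 : w ≠ 0) :
    ∃ z ∈ (χ.map (Int.castRingHom ℂ)).roots, 1 ≤ ‖z‖ := by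
  by_contra hcon
  push Not at hcon
  have h1 := all_one χ hχ (fun z hz => (hcon z hz).le) w hw hw0
  have h2 := hcon w hw
  linarith

end Pool.Agent.Helper73.DM
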