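import Mathlib

/-!
# DM-22: the Liouville inequality for polynomial expressions in the roots of an integer polynomial

Proof. `D = d!`. Let `K` be the intermediate field of `ℂ/ℚ` generated by the `lam i` (or `χ.SplittingField` over `ℚ` with an embedding into `ℂ`), a number field (all `lam i` are algebraic, `χ` monic), of degree `≤ d!`
(`Polynomial.SplittingField`/`IsSplittingField` degree bound; if it is not available use any bound: the theorem only asks for some `D` depending on `d`, e.g. `d^d` from the tower of simple extensions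
`finrank (adjoin) ≤ ∏ natDegree minpoly ≤ d^d`). `α = F(lam) ∈ 𝓞 K` is a nonzero algebraic integer, so its norm is a nonzero integer: `1 ≤ ∏_{τ : K → ℂ} ‖τ α‖`. Every `τ` permutes the roots:
`τ (lam i) = lam (σ i)` for a permutation `σ` (both families have the product `∏ (X - C ·) = χ`, equality of multisets; `Multiset.map_univ_eq_iff`-like: two families with the same multiset of values differ by a permutation),
`τ α = F(lam ∘ σ)`, `‖τ α‖ ≤ B`. The inclusion `K → ℂ` is one of the `τ`: `1 ≤ ‖α‖ B^([K:ℚ] - 1) ≤ ‖α‖ B^D`. (`Algebra.norm_eq_prod_embeddings`, `NumberField.Embeddings`; compare `Pool.Agent.Helper5.TU.Liouville`.)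
ALTERNATIVE without number fields: `∏_{σ} (Y - F(lam ∘ σ))` has integer coefficients (symmetric polynomials), monic, and its lowest nonzero coefficient is (up to sign) the product of the nonzero `F(lam ∘ σ)`, an integer.
-/

set_option autoImplicit false

open Polynomial

namespace Pool.Agent.Helper73.DM

/-- a symmetric integer polynomial takes an integer value at the roots of an integer polynomial -/
private theorem li_sym {d : ℕ} (χ : ℤ[X]) (lam : Fin d → ℂ)
    (h : χ.map (Int.castRingHom ℂ) = ∏ i, (X - C (lam i)))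
    (P : MvPolynomial (Fin d) ℤ) (hP : P.IsSymmetric) :
    ∃ z : ℤ, MvPolynomial.aeval lam P = (z : ℂ) := by
  obtain ⟨q, hq⟩ := MvPolynomial.esymmAlgHom_surjective (σ := Fin d) (R := ℤ) (n := d)
    (by simp) ⟨P, (MvPolynomial.mem_symmetricSubalgebra P).2 hP⟩
  have hq' := congrArg Subtype.val hq
  rw [MvPolynomial.esymmAlgHom_apply] at hq'
  simp only at hq'
  have he : ∀ k : ℕ, k ≤ d → MvPolynomial.aeval lam (MvPolynomial.esymm (Fin d) ℤ k) =
      (((-1) ^ k * χ.coeff (d - k) : ℤ) : ℂ) := by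
    intro k hk
    rw [MvPolynomial.aeval_esymm_eq_multiset_esymm]
    have h1 := Multiset.prod_X_sub_C_coeff ((Finset.univ : Finset (Fin d)).val.map lam) (k := d - k)
      (by simp)
    have h2 : (((Finset.univ : Finset (Fin d)).val.map lam).map fun t => X - C t).prod =
        χ.map (Int.castRingHom ℂ) := by
      rw [h, Multiset.map_map]
      rfl
    rw [h2, coeff_map] at h1
    have h3 : Multiset.card ((Finset.univ : Finset (Fin d)).val.map lam) - (d - k) = k := by
      simp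
      omega
    rw [h3] at h1
    push_cast
    have h4 : ((χ.coeff (d - k) : ℤ) : ℂ) = (-1) ^ k *
      ((Finset.univ : Finset (Fin d)).val.map lam).esymm k := by simpa using h1
    rw [h4, ← mul_assoc, ← mul_pow]
    simp
  refine ⟨MvPolynomial.aeval (fun i : Fin d => ((-1) ^ ((i : ℕ) + 1) * χ.coeff (d - ((i : ℕ) + 1)) : ℤ)) q, ?_⟩
  rw [← hq']
  have h5 : MvPolynomial.aeval lam
      (MvPolynomial.aeval (fun i : Fin d => MvPolynomial.esymm (Fin d) ℤ ((i : ℕ) + 1)) q) =
      MvPolynomial.aeval (fun i : Fin d => MvPolynomial.aeval lam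
        (MvPolynomial.esymm (Fin d) ℤ ((i : ℕ) + 1))) q := by
    rw [← AlgHom.comp_apply]
    congr 1
    rw [MvPolynomial.comp_aeval]
  rw [h5]
  have h6 : (fun i : Fin d => MvPolynomial.aeval lam (MvPolynomial.esymm (Fin d) ℤ ((i : ℕ) + 1))) =
      fun i : Fin d => algebraMap ℤ ℂ ((-1) ^ ((i : ℕ) + 1) * χ.coeff (d - ((i : ℕ) + 1)) : ℤ) := by
    funext i
    rw [he _ (by omega)]
    rfl
  rw [h6]
  have h7 := MvPolynomial.aeval_algebraMap_apply (A := ℤ) ℂ
    (fun i : Fin d => ((-1) ^ ((i : ℕ) + 1) * χ.coeff (d - ((i : ℕ) + 1)) : ℤ)) q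
  exact h7

/-- the polynomial `∏_σ (Y - F(X ∘ σ))` -/
private noncomputable def liQ {d : ℕ} (F : MvPolynomial (Fin d) ℤ) : Polynomial (MvPolynomial (Fin d) ℤ) :=
  ∏ σ : Equiv.Perm (Fin d), (X - C (MvPolynomial.rename σ F))

private theorem liQ_sym {d : ℕ} (F : MvPolynomial (Fin d) ℤ) (m : ℕ) :
    ((liQ F).coeff m).IsSymmetric := by
  intro e
  have h1 : (liQ F).map (MvPolynomial.rename e : MvPolynomial (Fin d) ℤ →ₐ[ℤ] MvPolynomial (Fin d) ℤ).toRingHom =
      liQ F := by
    unfold liQ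
    rw [Polynomial.map_prod]
    refine Fintype.prod_equiv (Equiv.mulLeft e) _ _ fun σ => ?_
    rw [Polynomial.map_sub, Polynomial.map_X, Polynomial.map_C]
    congr 2
    change MvPolynomial.rename e (MvPolynomial.rename σ F) = _
    rw [MvPolynomial.rename_rename]
    rfl
  have h2 := congrArg (fun p => Polynomial.coeff p m) h1
  simp only [coeff_map] at h2
  exact h2

theorem liouville (d : ℕ) :
    ∃ D : ℕ, ∀ χ : ℤ[X], ∀ lam : Fin d → ℂ,
      χ.map (Int.castRingHom ℂ) = ∏ i, (X - C (lam i)) →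
      ∀ (F : MvPolynomial (Fin d) ℤ) (B : ℝ), 1 ≤ B →
      (∀ σ : Equiv.Perm (Fin d), ‖MvPolynomial.aeval (fun i => lam (σ i)) F‖ ≤ B) →
      MvPolynomial.aeval lam F ≠ 0 → 1 ≤ B ^ D * ‖MvPolynomial.aeval lam F‖ := by
  classical
  refine ⟨Fintype.card (Equiv.Perm (Fin d)), ?_⟩
  intro χ lam hχ F B hB hF hne
  set a : Equiv.Perm (Fin d) → ℂ := fun σ => MvPolynomial.aeval (fun i => lam (σ i)) F with ha
  set Z : Finset (Equiv.Perm (Fin d)) := Finset.univ.filter fun σ => a σ = 0 with hZ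
  set N : Finset (Equiv.Perm (Fin d)) := Finset.univ.filter fun σ => ¬ a σ = 0 with hN
  obtain ⟨z, hz⟩ := li_sym χ lam hχ _ (liQ_sym F Z.card)
  have h1 : (liQ F).map (MvPolynomial.aeval lam : MvPolynomial (Fin d) ℤ →ₐ[ℤ] ℂ).toRingHom =
      ∏ σ : Equiv.Perm (Fin d), (X - C (a σ)) := by
    unfold liQ
    rw [Polynomial.map_prod]
    refine Finset.prod_congr rfl fun σ _ => ?_
    rw [Polynomial.map_sub, Polynomial.map_X, Polynomial.map_C]
    congr 2
    change MvPolynomial.aeval lam (MvPolynomial.rename σ F) = _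
    rw [MvPolynomial.aeval_rename]
    rfl
  have h2 : ∏ σ : Equiv.Perm (Fin d), (X - C (a σ)) = X ^ Z.card * ∏ σ ∈ N, (X - C (a σ)) := by
    rw [← Finset.prod_filter_mul_prod_filter_not Finset.univ (fun σ => a σ = 0)]
    congr 1
    rw [← Finset.prod_const]
    refine Finset.prod_congr rfl fun σ hσ => ?_
    rw [Finset.mem_filter] at hσ
    rw [hσ.2]
    simp
  have h3 : ((z : ℤ) : ℂ) = ∏ σ ∈ N, (- a σ) := by
    rw [← hz]
    have h4 := congrArg (fun p => Polynomial.coeff p Z.card) h1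
    simp only [coeff_map] at h4
    have h5 : (MvPolynomial.aeval lam) ((liQ F).coeff Z.card) =
      (∏ σ : Equiv.Perm (Fin d), (X - C (a σ))).coeff Z.card := h4
    rw [h5, h2, coeff_X_pow_mul', if_pos le_rfl, Nat.sub_self, coeff_zero_eq_eval_zero, eval_prod]
    refine Finset.prod_congr rfl fun σ _ => ?_
    simp
  have hz0 : z ≠ 0 := by
    intro h0
    rw [h0] at h3
    have h4 : ∏ σ ∈ N, (- a σ) = 0 := by
      rw [← h3]
      simp
    rw [Finset.prod_eq_zero_iff] at h4
    obtain ⟨σ, hσ, h5⟩ := h4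
    rw [hN, Finset.mem_filter] at hσ
    exact hσ.2 (neg_eq_zero.1 h5)
  have h4 : (1 : ℝ) ≤ ∏ σ ∈ N, ‖a σ‖ := by
    have h5 : ∏ σ ∈ N, ‖a σ‖ = ‖((z : ℤ) : ℂ)‖ := by
      rw [h3, norm_prod]
      refine Finset.prod_congr rfl fun σ _ => ?_
      rw [norm_neg]
    rw [h5]
    have h6 : ‖((z : ℤ) : ℂ)‖ = |(z : ℝ)| := by
      simp
    rw [h6, ← Int.cast_abs]
    exact_mod_cast Int.one_le_abs hz0
  have h1N : (1 : Equiv.Perm (Fin d)) ∈ N := by
    rw [hN, Finset.mem_filter]
    exact ⟨Finset.mem_univ _, hne⟩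
  rw [← Finset.mul_prod_erase N _ h1N] at h4
  have h5 : ∏ σ ∈ N.erase 1, ‖a σ‖ ≤ B ^ (Fintype.card (Equiv.Perm (Fin d))) := by
    calc ∏ σ ∈ N.erase 1, ‖a σ‖ ≤ ∏ _σ ∈ N.erase 1, B :=
          Finset.prod_le_prod (fun _ _ => norm_nonneg _) fun σ _ => hF σ
      _ = B ^ (N.erase 1).card := by rw [Finset.prod_const]
      _ ≤ B ^ (Fintype.card (Equiv.Perm (Fin d))) := pow_le_pow_right₀ hB (by
          rw [← Finset.card_univ]
          exact Finset.card_le_card (Finset.subset_univ _))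
  have h6 : a 1 = MvPolynomial.aeval lam F := rfl
  rw [h6] at h4
  calc (1 : ℝ) ≤ ‖MvPolynomial.aeval lam F‖ * ∏ σ ∈ N.erase 1, ‖a σ‖ := h4
    _ ≤ ‖MvPolynomial.aeval lam F‖ * B ^ (Fintype.card (Equiv.Perm (Fin d))) :=
        mul_le_mul_of_nonneg_left h5 (norm_nonneg _)
    _ = B ^ (Fintype.card (Equiv.Perm (Fin d))) * ‖MvPolynomial.aeval lam F‖ := mul_comm _ _

end Pool.Agent.Helper73.DM
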