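import Pool.Agent.Helper73.DM.Act
import Pool.Agent.Helper73.DM.Liou

/-!
# DM-23: explicit lower bounds: gaps between the moduli of the roots, nonzero roots, and leading coefficients

All from `liouville d` (constant `D`).
* `conj_root`: `χ` is real, so for every `i` there is `i'` with `lam i' = conj (lam i)` (roots of `∏ (X - C (lam i))`).
* `gap_bound`: `F = X_j X_j' - X_i X_i'`, value `‖lam j‖² - ‖lam i‖² ≠ 0`, `B = 2 T²`: `1 ≤ (2T²)^D (‖lam j‖ - ‖lam i‖)(‖lam j‖ + ‖lam i‖) ≤ (2T²)^D 2T (..)`; `2 ≤ T` turns all constants into powers of `T`: `(2T²)^D * 2T ≤ T^(3D+2)`.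
* `root_bound`: `F = X_j`, `B = T`.
* `lead_bound`: the value `(act ((X - C (lam i0))^m * ∏_{i∈I} (X - C (lam i))) x) 0 = ∑_n a_n x n`, `a_n` = the coefficients of the polynomial: it is the value at `lam` of
  `F = ∑_{n ≤ m + card I} C (x n) * coeff_n(∏ ...)` where `(X - C (X_i0))^m * ∏_{i ∈ I} (X - C (X_i)) ∈ (MvPolynomial (Fin d) ℤ)[X]` (`Polynomial.map` by `aeval lam`; for every permutation by `aeval (lam ∘ σ)`). The coefficients of a product of `N ≤ d`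
  factors `X - z`, `‖z‖ ≤ T`, have norm `≤ (1 + T)^N`; so `B = (d + 1) T (1 + T)^d ≤ T^C'` with `C'` depending only on `d` (`d + 1 ≤ 2^d ≤ T^d`, `1 + T ≤ T^2`).
-/

set_option autoImplicit false

open Polynomial

namespace Pool.Agent.Helper73.DM

theorem conj_root (d : ℕ) (χ : ℤ[X]) (lam : Fin d → ℂ)
    (h : χ.map (Int.castRingHom ℂ) = ∏ i, (X - C (lam i))) (i : Fin d) :
    ∃ j, lam j = starRingEnd ℂ (lam i) := by
  have h1 : eval (lam i) (χ.map (Int.castRingHom ℂ)) = 0 := by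
    rw [h, eval_prod]
    exact Finset.prod_eq_zero (Finset.mem_univ i) (by simp)
  have h2 : eval (starRingEnd ℂ (lam i)) (χ.map (Int.castRingHom ℂ)) = 0 := by
    rw [eval_map] at h1 ⊢
    have h3 := hom_eval₂ χ (Int.castRingHom ℂ) (starRingEnd ℂ) (lam i)
    rw [h1, map_zero] at h3
    have h4 : (starRingEnd ℂ).comp (Int.castRingHom ℂ) = Int.castRingHom ℂ :=
      RingHom.ext_int _ _
    rw [h4] at h3
    exact h3.symm
  rw [h, eval_prod, Finset.prod_eq_zero_iff] at h2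
  obtain ⟨j, -, hj⟩ := h2
  refine ⟨j, ?_⟩
  simp only [eval_sub, eval_X, eval_C] at hj
  exact (sub_eq_zero.1 hj).symm

private theorem sq_conj (z : ℂ) : z * starRingEnd ℂ z = ((‖z‖ ^ 2 : ℝ) : ℂ) := by
  rw [Complex.mul_conj, Complex.normSq_eq_norm_sq]

theorem gap_bound (d : ℕ) :
    ∃ c : ℕ, ∀ (T : ℝ), 2 ≤ T → ∀ (χ : ℤ[X]) (lam : Fin d → ℂ),
      χ.map (Int.castRingHom ℂ) = ∏ i, (X - C (lam i)) → (∀ i, ‖lam i‖ ≤ T) →
      ∀ i j, ‖lam i‖ < ‖lam j‖ → 1 ≤ T ^ c * (‖lam j‖ - ‖lam i‖) := by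
  obtain ⟨D, hD⟩ := liouville d
  refine ⟨3 * D + 2, fun T hT χ lam hχ hlam i j hij => ?_⟩
  obtain ⟨i', hi'⟩ := conj_root d χ lam hχ i
  obtain ⟨j', hj'⟩ := conj_root d χ lam hχ j
  have hT0 : (0 : ℝ) < T := by linarith
  set F : MvPolynomial (Fin d) ℤ := MvPolynomial.X j * MvPolynomial.X j' -
    MvPolynomial.X i * MvPolynomial.X i' with hF
  have hev : ∀ μ : Fin d → ℂ, MvPolynomial.aeval μ F = μ j * μ j' - μ i * μ i' := by
    intro μ
    rw [hF, map_sub, map_mul, map_mul, MvPolynomial.aeval_X, MvPolynomial.aeval_X,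
      MvPolynomial.aeval_X, MvPolynomial.aeval_X]
  have hval : MvPolynomial.aeval lam F = ((‖lam j‖ ^ 2 - ‖lam i‖ ^ 2 : ℝ) : ℂ) := by
    rw [hev, hi', hj', sq_conj, sq_conj]
    push_cast
    ring
  have hpos : 0 < ‖lam j‖ ^ 2 - ‖lam i‖ ^ 2 := by
    have := norm_nonneg (lam i)
    nlinarith
  have hnorm : ‖MvPolynomial.aeval lam F‖ = ‖lam j‖ ^ 2 - ‖lam i‖ ^ 2 := by
    rw [hval, Complex.norm_real, Real.norm_eq_abs, abs_of_pos hpos]
  have hB1 : (1 : ℝ) ≤ 2 * T ^ 2 := by nlinarith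
  have h1 := hD χ lam hχ F (2 * T ^ 2) hB1 (by
    intro σ
    rw [hev]
    have hm : ∀ a b : Fin d, ‖lam a * lam b‖ ≤ T ^ 2 := by
      intro a b
      rw [norm_mul, sq]
      exact mul_le_mul (hlam a) (hlam b) (norm_nonneg _) hT0.le
    calc ‖lam (σ j) * lam (σ j') - lam (σ i) * lam (σ i')‖
        ≤ ‖lam (σ j) * lam (σ j')‖ + ‖lam (σ i) * lam (σ i')‖ := norm_sub_le _ _
      _ ≤ T ^ 2 + T ^ 2 := add_le_add (hm _ _) (hm _ _)
      _ = 2 * T ^ 2 := by ring) (by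
    intro h0
    rw [h0, norm_zero] at hnorm
    linarith)
  rw [hnorm] at h1
  have hgap : 0 < ‖lam j‖ - ‖lam i‖ := by linarith
  have h2 : (2 * T ^ 2) ^ D ≤ T ^ (3 * D) := by
    rw [pow_mul]
    refine pow_le_pow_left₀ (by positivity) ?_ D
    have : T ^ 3 = T * T ^ 2 := by ring
    rw [this]
    exact mul_le_mul_of_nonneg_right hT (by positivity)
  have h3 : ‖lam j‖ ^ 2 - ‖lam i‖ ^ 2 ≤ T ^ 2 * (‖lam j‖ - ‖lam i‖) := by
    have h4 : ‖lam j‖ + ‖lam i‖ ≤ T ^ 2 := by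
      have := hlam i
      have := hlam j
      nlinarith
    have h5 : ‖lam j‖ ^ 2 - ‖lam i‖ ^ 2 = (‖lam j‖ + ‖lam i‖) * (‖lam j‖ - ‖lam i‖) := by ring
    rw [h5]
    exact mul_le_mul_of_nonneg_right h4 hgap.le
  calc (1 : ℝ) ≤ (2 * T ^ 2) ^ D * (‖lam j‖ ^ 2 - ‖lam i‖ ^ 2) := h1
    _ ≤ T ^ (3 * D) * (T ^ 2 * (‖lam j‖ - ‖lam i‖)) :=
        mul_le_mul h2 h3 hpos.le (by positivity)
    _ = T ^ (3 * D + 2) * (‖lam j‖ - ‖lam i‖) := by rw [pow_add]; ring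

theorem root_bound (d : ℕ) :
    ∃ c : ℕ, ∀ (T : ℝ), 2 ≤ T → ∀ (χ : ℤ[X]) (lam : Fin d → ℂ),
      χ.map (Int.castRingHom ℂ) = ∏ i, (X - C (lam i)) → (∀ i, ‖lam i‖ ≤ T) →
      ∀ i, lam i ≠ 0 → 1 ≤ T ^ c * ‖lam i‖ := by
  obtain ⟨D, hD⟩ := liouville d
  refine ⟨D, fun T hT χ lam hχ hlam i hi => ?_⟩
  have h1 := hD χ lam hχ (MvPolynomial.X i) T (by linarith) (by
    intro σ
    rw [MvPolynomial.aeval_X]
    exact hlam _) (by
    rw [MvPolynomial.aeval_X]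
    exact hi)
  rw [MvPolynomial.aeval_X] at h1
  exact h1

private theorem coeff_fac {T K : ℝ} {z : ℂ} (hz : ‖z‖ ≤ T) {P : ℂ[X]}
    (hP : ∀ n, ‖P.coeff n‖ ≤ K) (n : ℕ) : ‖((X - C z) * P).coeff n‖ ≤ (1 + T) * K := by
  have hK : 0 ≤ K := le_trans (norm_nonneg _) (hP 0)
  have h1 : ‖(C z * P).coeff n‖ ≤ T * K := by
    rw [coeff_C_mul, norm_mul]
    exact mul_le_mul hz (hP n) (norm_nonneg _) (le_trans (norm_nonneg _) hz)
  have h2 : ‖(X * P).coeff n‖ ≤ K := by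
    cases n with
    | zero => simpa using hK
    | succ n => rw [coeff_X_mul]; exact hP n
  rw [sub_mul, coeff_sub]
  calc ‖(X * P).coeff n - (C z * P).coeff n‖ ≤ ‖(X * P).coeff n‖ + ‖(C z * P).coeff n‖ :=
        norm_sub_le _ _
    _ ≤ K + T * K := add_le_add h2 h1
    _ = (1 + T) * K := by ring

private theorem coeff_prod {d : ℕ} {T : ℝ} {μ : Fin d → ℂ} (hμ : ∀ i, ‖μ i‖ ≤ T)
    (I : Finset (Fin d)) (n : ℕ) :
    ‖(∏ i ∈ I, (X - C (μ i))).coeff n‖ ≤ (1 + T) ^ I.card := by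
  classical
  induction I using Finset.induction_on generalizing n with
  | empty =>
    rw [Finset.prod_empty, Finset.card_empty, pow_zero, coeff_one]
    split <;> simp
  | insert a I ha ih =>
    rw [Finset.prod_insert ha, Finset.card_insert_of_notMem ha, pow_succ']
    exact coeff_fac (hμ a) ih n

private theorem coeff_all {d : ℕ} {T : ℝ} {μ : Fin d → ℂ} (hμ : ∀ i, ‖μ i‖ ≤ T)
    (i0 : Fin d) (m : ℕ) (I : Finset (Fin d)) (n : ℕ) :
    ‖((X - C (μ i0)) ^ m * ∏ i ∈ I, (X - C (μ i))).coeff n‖ ≤ (1 + T) ^ (m + I.card) := by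
  induction m generalizing n with
  | zero =>
    rw [pow_zero, one_mul, zero_add]
    exact coeff_prod hμ I n
  | succ m ih =>
    rw [pow_succ', mul_assoc, show m + 1 + I.card = (m + I.card) + 1 by ring, pow_succ']
    exact coeff_fac (hμ i0) ih n

private noncomputable def QQ {d : ℕ} (i0 : Fin d) (m : ℕ) (I : Finset (Fin d)) :
    (MvPolynomial (Fin d) ℤ)[X] :=
  (X - C (MvPolynomial.X i0)) ^ m * ∏ i ∈ I, (X - C (MvPolynomial.X i))

private theorem QQ_map {d : ℕ} (i0 : Fin d) (m : ℕ) (I : Finset (Fin d)) (μ : Fin d → ℂ) :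
    (QQ i0 m I).map ((MvPolynomial.aeval μ : MvPolynomial (Fin d) ℤ →ₐ[ℤ] ℂ) :
      MvPolynomial (Fin d) ℤ →+* ℂ) =
      (X - C (μ i0)) ^ m * ∏ i ∈ I, (X - C (μ i)) := by
  unfold QQ
  rw [Polynomial.map_mul, Polynomial.map_pow, Polynomial.map_prod]
  simp only [Polynomial.map_sub, Polynomial.map_X, Polynomial.map_C, RingHom.coe_coe,
    MvPolynomial.aeval_X]

private noncomputable def FF {d : ℕ} (x : ℕ → ℤ) (i0 : Fin d) (m : ℕ) (I : Finset (Fin d)) :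
    MvPolynomial (Fin d) ℤ :=
  ∑ n ∈ Finset.range (d + 1), MvPolynomial.C (x n) * (QQ i0 m I).coeff n

private theorem FF_eval {d : ℕ} (x : ℕ → ℤ) (i0 : Fin d) (m : ℕ) (I : Finset (Fin d))
    (μ : Fin d → ℂ) : MvPolynomial.aeval μ (FF x i0 m I) =
      ∑ n ∈ Finset.range (d + 1), ((x n : ℤ) : ℂ) *
        ((X - C (μ i0)) ^ m * ∏ i ∈ I, (X - C (μ i))).coeff n := by
  unfold FF
  rw [map_sum]
  refine Finset.sum_congr rfl fun n _ => ?_
  rw [map_mul, MvPolynomial.aeval_C, ← QQ_map, coeff_map]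
  rfl

theorem lead_bound (d : ℕ) :
    ∃ c : ℕ, ∀ (T : ℝ), 2 ≤ T → ∀ (χ : ℤ[X]) (lam : Fin d → ℂ),
      χ.map (Int.castRingHom ℂ) = ∏ i, (X - C (lam i)) → (∀ i, ‖lam i‖ ≤ T) →
      ∀ x : ℕ → ℤ, (∀ n ≤ d, ((|x n| : ℤ) : ℝ) ≤ T) →
      ∀ (i0 : Fin d) (m : ℕ) (I : Finset (Fin d)), m + I.card ≤ d →
      act ((X - C (lam i0)) ^ m * ∏ i ∈ I, (X - C (lam i))) (fun n => ((x n : ℤ) : ℂ)) 0 ≠ 0 →
      1 ≤ T ^ c * ‖act ((X - C (lam i0)) ^ m * ∏ i ∈ I, (X - C (lam i)))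
        (fun n => ((x n : ℤ) : ℂ)) 0‖ := by
  obtain ⟨D, hD⟩ := liouville d
  refine ⟨(3 * d + 1) * D, fun T hT χ lam hχ hlam x hx i0 m I hmI hne => ?_⟩
  have hT0 : (0 : ℝ) < T := by linarith
  have hdeg : ((X - C (lam i0)) ^ m * ∏ i ∈ I, (X - C (lam i))).natDegree ≤ d := by
    refine le_trans natDegree_mul_le ?_
    rw [natDegree_pow, natDegree_X_sub_C, mul_one,
      natDegree_prod_of_monic _ _ (fun i _ => monic_X_sub_C _)]
    simp only [natDegree_X_sub_C, Finset.sum_const, smul_eq_mul, mul_one]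
    exact hmI
  have hval : act ((X - C (lam i0)) ^ m * ∏ i ∈ I, (X - C (lam i)))
      (fun n => ((x n : ℤ) : ℂ)) 0 = MvPolynomial.aeval lam (FF x i0 m I) := by
    rw [act_apply_of_le _ _ 0 d hdeg, FF_eval]
    refine Finset.sum_congr rfl fun n _ => ?_
    rw [zero_add, mul_comm]
  rw [hval] at hne ⊢
  have hd1 : (1 : ℝ) ≤ (d : ℝ) + 1 := by
    have : (0 : ℝ) ≤ (d : ℝ) := Nat.cast_nonneg d
    linarith
  have hp1 : (1 : ℝ) ≤ (1 + T) ^ d := one_le_pow₀ (by linarith)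
  have hB1 : (1 : ℝ) ≤ ((d : ℝ) + 1) * (T * (1 + T) ^ d) := by
    have h1 : (1 : ℝ) ≤ T * (1 + T) ^ d := by nlinarith
    nlinarith
  have h1 := hD χ lam hχ (FF x i0 m I) (((d : ℝ) + 1) * (T * (1 + T) ^ d)) hB1 (by
    intro σ
    rw [FF_eval]
    have hμ : ∀ i, ‖lam (σ i)‖ ≤ T := fun i => hlam _
    refine le_trans (norm_sum_le _ _) ?_
    refine le_trans (Finset.sum_le_sum (g := fun _ => T * (1 + T) ^ d) fun n hn => ?_)
      (le_of_eq ?_)
    · rw [norm_mul]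
      have h2 : ‖((x n : ℤ) : ℂ)‖ ≤ T := by
        rw [Complex.norm_intCast]
        have := hx n (by have := Finset.mem_range.1 hn; omega)
        push_cast at this
        exact this
      refine mul_le_mul h2 ?_ (norm_nonneg _) hT0.le
      have h7 := coeff_all (μ := fun i => lam (σ i)) hμ i0 m I n
      beta_reduce at h7
      refine le_trans h7 ?_
      exact pow_le_pow_right₀ (by linarith) hmI
    · rw [Finset.sum_const, Finset.card_range, nsmul_eq_mul]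
      push_cast
      ring) hne
  refine le_trans h1 ?_
  refine mul_le_mul_of_nonneg_right ?_ (norm_nonneg _)
  rw [pow_mul]
  refine pow_le_pow_left₀ (by linarith) ?_ D
  have h3 : (d : ℝ) + 1 ≤ T ^ d := by
    have h4 : d + 1 ≤ 2 ^ d := Nat.lt_two_pow_self
    have h5 : ((d : ℝ) + 1) ≤ (2 : ℝ) ^ d := by exact_mod_cast h4
    exact le_trans h5 (pow_le_pow_left₀ (by norm_num) hT d)
  have h6 : (1 + T) ^ d ≤ T ^ (2 * d) := by
    rw [pow_mul]
    refine pow_le_pow_left₀ (by linarith) ?_ d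
    nlinarith
  calc ((d : ℝ) + 1) * (T * (1 + T) ^ d) ≤ T ^ d * (T * T ^ (2 * d)) := by
        refine mul_le_mul h3 ?_ (by positivity) (by positivity)
        exact mul_le_mul_of_nonneg_left h6 hT0.le
    _ = T ^ (3 * d + 1) := by
        rw [← pow_succ', ← pow_add]
        congr 1
        ring

end Pool.Agent.Helper73.DM
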