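import Pool.Agent.Helper73.DM.DefsB
import Pool.Agent.Helper73.DM.Gap

/-!
# DM-B1: the polynomial expressions `YP`, `QP` and Liouville bounds for `Dat`

* `aeval_YP`: `Polynomial.map (MvPolynomial.aeval μ)` of the product is `∏ (X - C (μ j))`; both sides are `∑_n coeff_n * x n` (`act_apply` at `0`, `Polynomial.sum_def`, `coeff_map`).
* `YP_bd`, `QP_bd`: coefficients of a product of `N ≤ d` factors `X - z`, `‖z‖ ≤ T`, have norm `≤ (1 + T)^N`; `(d+1) T (1+T)^d ≤ T^c`; `‖μ i - μ j‖ ≤ 2T ≤ T²`.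
* `liou_bd`: from `liouville d`: `D.lam ∘ σ` is in the polydisc of radius `T`.
* `sep_bd` (`F = X i - X j`, `B = 2T`), `gap_bd`, `root_bd`: `liou_bd` resp. `gap_bound`, `root_bound`.
-/

set_option autoImplicit false

open Polynomial

namespace Pool.Agent.Helper73.DM

private theorem yq_coeff_fac {T K : ℝ} {z : ℂ} (hz : ‖z‖ ≤ T) {P : ℂ[X]}
    (hP : ∀ n, ‖P.coeff n‖ ≤ K) (n : ℕ) : ‖((X - C z) * P).coeff n‖ ≤ (1 + T) * K := by
  have hK : 0 ≤ K := le_trans (norm_nonneg _) (hP 0)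
  have h1 : ‖(C z * P).coeff n‖ ≤ T * K := by
    rw [coeff_C_mul, norm_mul]
    exact mul_le_mul hz (hP n) (norm_nonneg _) (le_trans (norm_nonneg _) hz)
  have h2 : ‖(X * P).coeff n‖ ≤ K := by
    cases n with
    | zero => simpa using hK
    | succ n => rw [coeff_X_mul]; exact hP n
  rw [sub_mul, coeff_sub]
  calc ‖(X * P).coeff n - (C z * P).coeff n‖ ≤ ‖(X * P).coeff n‖ + ‖(C z * P).coeff n‖ :=
        norm_sub_le _ _
    _ ≤ K + T * K := add_le_add h2 h1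
    _ = (1 + T) * K := by ring

theorem yq_coeff_prod {d : ℕ} {T : ℝ} {μ : Fin d → ℂ} (hμ : ∀ i, ‖μ i‖ ≤ T)
    (I : Finset (Fin d)) (n : ℕ) :
    ‖(∏ i ∈ I, (X - C (μ i))).coeff n‖ ≤ (1 + T) ^ I.card := by
  classical
  induction I using Finset.induction_on generalizing n with
  | empty =>
    rw [Finset.prod_empty, Finset.card_empty, pow_zero, coeff_one]
    split <;> simp
  | insert a I ha ih =>
    rw [Finset.prod_insert ha, Finset.card_insert_of_notMem ha, pow_succ']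
    exact yq_coeff_fac (hμ a) ih n

theorem yq_natDegree {R : Type*} [CommRing R] [Nontrivial R] {d : ℕ} (μ : Fin d → R)
    (I : Finset (Fin d)) : (∏ i ∈ I, (X - C (μ i))).natDegree ≤ d := by
  rw [natDegree_prod_of_monic _ _ (fun i _ => monic_X_sub_C _)]
  simp only [natDegree_X_sub_C, Finset.sum_const, smul_eq_mul, mul_one]
  simpa using Finset.card_le_univ I

theorem aeval_YP {d : ℕ} (x : ℕ → ℤ) (J : Finset (Fin d)) (i : Fin d) (μ : Fin d → ℂ) :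
    MvPolynomial.aeval μ (YP x J i) =
      act (∏ j ∈ J.erase i, (X - C (μ j))) (fun n => ((x n : ℤ) : ℂ)) 0 := by
  classical
  unfold YP
  have hmap : (∏ j ∈ J.erase i, (X - C (MvPolynomial.X j)) :
      (MvPolynomial (Fin d) ℤ)[X]).map ((MvPolynomial.aeval μ : MvPolynomial (Fin d) ℤ →ₐ[ℤ] ℂ) :
      MvPolynomial (Fin d) ℤ →+* ℂ) = ∏ j ∈ J.erase i, (X - C (μ j)) := by
    rw [Polynomial.map_prod]
    simp only [Polynomial.map_sub, Polynomial.map_X, Polynomial.map_C, RingHom.coe_coe,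
      MvPolynomial.aeval_X]
  rw [act_apply_of_le _ _ 0 d (yq_natDegree μ _), sum_over_range' _ _ (d + 1)
    (Nat.lt_succ_of_le (yq_natDegree _ _)), map_sum]
  · refine Finset.sum_congr rfl fun n _ => ?_
    rw [map_mul, MvPolynomial.aeval_C, ← hmap, coeff_map, zero_add]
    rfl
  · intro n
    rw [zero_mul]

theorem aeval_QP {d : ℕ} (J : Finset (Fin d)) (i : Fin d) (μ : Fin d → ℂ) :
    MvPolynomial.aeval μ (QP J i) = ∏ j ∈ J.erase i, (μ i - μ j) := by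
  unfold QP
  rw [map_prod]
  simp only [map_sub, MvPolynomial.aeval_X]

theorem YP_bd (d : ℕ) :
    ∃ c : ℕ, ∀ T : ℕ, 2 ≤ T → ∀ x : ℕ → ℤ, (∀ n ≤ d, |x n| ≤ T) →
      ∀ (J : Finset (Fin d)) (i : Fin d), Bd (YP x J i) T ((T : ℝ) ^ c) := by
  refine ⟨3 * d + 1, fun T hT x hx J i μ hμ => ?_⟩
  have hT' : (2 : ℝ) ≤ T := by exact_mod_cast hT
  have hT0 : (0 : ℝ) < T := by linarith
  rw [aeval_YP, act_apply_of_le _ _ 0 d (yq_natDegree μ _)]
  have h0 : ∀ n ∈ Finset.range (d + 1), ‖(∏ j ∈ J.erase i, (X - C (μ j))).coeff n *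
      ((x (0 + n) : ℤ) : ℂ)‖ ≤ (1 + (T : ℝ)) ^ d * T := by
    intro n hn
    rw [norm_mul, zero_add]
    refine mul_le_mul (le_trans (yq_coeff_prod hμ _ n) ?_) ?_ (norm_nonneg _) (by positivity)
    · exact pow_le_pow_right₀ (by linarith) (by simpa using Finset.card_le_univ (J.erase i))
    · rw [Complex.norm_intCast]
      have := hx n (by have := Finset.mem_range.1 hn; omega)
      exact_mod_cast this
  refine le_trans (norm_sum_le _ _) (le_trans (Finset.sum_le_sum h0) ?_)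
  rw [Finset.sum_const, Finset.card_range, nsmul_eq_mul]
  have h3 : ((d + 1 : ℕ) : ℝ) ≤ (T : ℝ) ^ d := by
    have h4 : d + 1 ≤ 2 ^ d := Nat.lt_two_pow_self
    have h5 : ((d + 1 : ℕ) : ℝ) ≤ (2 : ℝ) ^ d := by exact_mod_cast h4
    exact le_trans h5 (pow_le_pow_left₀ (by norm_num) hT' d)
  have h6 : (1 + (T : ℝ)) ^ d ≤ (T : ℝ) ^ (2 * d) := by
    rw [pow_mul]
    refine pow_le_pow_left₀ (by linarith) ?_ d
    nlinarith
  calc ((d + 1 : ℕ) : ℝ) * ((1 + (T : ℝ)) ^ d * T) ≤ (T : ℝ) ^ d * ((T : ℝ) ^ (2 * d) * T) := by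
        refine mul_le_mul h3 ?_ (by positivity) (by positivity)
        exact mul_le_mul_of_nonneg_right h6 hT0.le
    _ = (T : ℝ) ^ (3 * d + 1) := by ring

theorem QP_bd (d : ℕ) :
    ∃ c : ℕ, ∀ T : ℕ, 2 ≤ T → ∀ (J : Finset (Fin d)) (i : Fin d),
      Bd (QP J i) T ((T : ℝ) ^ c) := by
  refine ⟨2 * d, fun T hT J i μ hμ => ?_⟩
  have hT' : (2 : ℝ) ≤ T := by exact_mod_cast hT
  rw [aeval_QP, norm_prod]
  have h1 : ∀ j ∈ J.erase i, ‖μ i - μ j‖ ≤ (T : ℝ) ^ 2 := by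
    intro j _
    refine le_trans (norm_sub_le _ _) ?_
    have := hμ i
    have := hμ j
    nlinarith
  calc ∏ j ∈ J.erase i, ‖μ i - μ j‖ ≤ ∏ _j ∈ J.erase i, (T : ℝ) ^ 2 :=
        Finset.prod_le_prod (fun _ _ => norm_nonneg _) h1
    _ = (T : ℝ) ^ (2 * (J.erase i).card) := by rw [Finset.prod_const, ← pow_mul]
    _ ≤ (T : ℝ) ^ (2 * d) := pow_le_pow_right₀ (by linarith)
        (Nat.mul_le_mul_left 2 (by simpa using Finset.card_le_univ (J.erase i)))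

theorem Bd_mul {d T : ℕ} {F G : MvPolynomial (Fin d) ℤ} {A B : ℝ} (hA : 0 ≤ A) (hF : Bd F T A)
    (hG : Bd G T B) : Bd (F * G) T (A * B) := by
  intro μ hμ
  rw [map_mul, norm_mul]
  exact mul_le_mul (hF μ hμ) (hG μ hμ) (norm_nonneg _) hA

theorem Bd_add {d T : ℕ} {F G : MvPolynomial (Fin d) ℤ} {A B : ℝ} (hF : Bd F T A)
    (hG : Bd G T B) : Bd (F + G) T (A + B) := by
  intro μ hμ
  rw [map_add]
  exact le_trans (norm_add_le _ _) (add_le_add (hF μ hμ) (hG μ hμ))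

theorem liou_bd (d : ℕ) :
    ∃ c : ℕ, ∀ (T : ℕ) (D : Dat d T) (F : MvPolynomial (Fin d) ℤ) (B : ℝ), 1 ≤ B → Bd F T B →
      MvPolynomial.aeval D.lam F ≠ 0 → 1 ≤ B ^ c * ‖MvPolynomial.aeval D.lam F‖ := by
  obtain ⟨c, hc⟩ := liouville d
  refine ⟨c, fun T D F B hB hF hne => ?_⟩
  exact hc D.χ D.lam D.map_eq F B hB (fun σ => hF _ fun i => D.lam_le _) hne

theorem sep_bd (d : ℕ) :
    ∃ c : ℕ, ∀ (T : ℕ) (D : Dat d T) (i j : Fin d), D.lam i ≠ D.lam j →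
      1 ≤ (T : ℝ) ^ c * ‖D.lam i - D.lam j‖ := by
  obtain ⟨c, hc⟩ := liou_bd d
  refine ⟨2 * c, fun T D i j hij => ?_⟩
  have hT' : (2 : ℝ) ≤ T := by exact_mod_cast D.two_le
  have h1 := hc T D (MvPolynomial.X i - MvPolynomial.X j) ((T : ℝ) ^ 2) (by nlinarith) (by
    intro μ hμ
    rw [map_sub, MvPolynomial.aeval_X, MvPolynomial.aeval_X]
    refine le_trans (norm_sub_le _ _) ?_
    have := hμ i
    have := hμ j
    nlinarith) (by
    rw [map_sub, MvPolynomial.aeval_X, MvPolynomial.aeval_X]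
    exact sub_ne_zero.2 hij)
  rw [map_sub, MvPolynomial.aeval_X, MvPolynomial.aeval_X, ← pow_mul] at h1
  exact h1

theorem gap_bd (d : ℕ) :
    ∃ c : ℕ, ∀ (T : ℕ) (D : Dat d T) (i j : Fin d), ‖D.lam i‖ < ‖D.lam j‖ →
      1 ≤ (T : ℝ) ^ c * (‖D.lam j‖ - ‖D.lam i‖) := by
  obtain ⟨c, hc⟩ := gap_bound d
  refine ⟨c, fun T D i j hij => ?_⟩
  exact hc T (by exact_mod_cast D.two_le) D.χ D.lam D.map_eq D.lam_le i j hij

theorem root_bd (d : ℕ) :
    ∃ c : ℕ, ∀ (T : ℕ) (D : Dat d T) (i : Fin d), D.lam i ≠ 0 →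
      1 ≤ (T : ℝ) ^ c * ‖D.lam i‖ := by
  obtain ⟨c, hc⟩ := root_bound d
  refine ⟨c, fun T D i hi => ?_⟩
  exact hc T (by exact_mod_cast D.two_le) D.χ D.lam D.map_eq D.lam_le i hi

end Pool.Agent.Helper73.DM
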