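import Pool.Agent.Helper73.DM.TwoLogFF
import Pool.Agent.Helper73.DM.YQ

/-!
# DM-B11: the lower bound for `F1 λ_i^n - F2 λ_j^n`

`S = MvPolynomial (Fin d) ℤ`, `ι = Equiv.Perm (Fin d)`, `φ σ = aeval (λ ∘ σ)`, `s₀ = 1`; the hypothesis `hLiou` of `two_log_ff` is `liouville d` (constant `D₀`; it can be applied at every `s₀` because `λ ∘ s₀` is again a list of the roots, `∏ (X - C (λ (s₀ i))) = ∏ (X - C (λ i))`; `D = max D₀ 1`). Let `z = λ_i`, `z' = λ_j`, `ω = z/z'`, `‖ω‖ = 1`, `ω^m ≠ 1` for `m ≥ 1`.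
`c` will be large. Let `p ≥ c`, so that `256 (8D+9)(8(D+1)p) ≤ 2^p`. PIGEONHOLE: there is `1 ≤ k ≤ 8·2^p` with `0 < ‖ω^k - 1‖ ≤ 1/2^p` (the points `ω^0, ..., ω^M`, `M = 8·2^p`, on the circle of length `2π < 7`: `Complex.arg`, or Dirichlet `Real.exists_int_int_abs_mul_sub_le` for `arg ω/(2π)`). `l = log (ω^k)`: `l ≠ 0`, `‖l‖ ≤ 2 ‖ω^k - 1‖ ≤ 4/2^p`
(`Complex.norm_log_one_add_le` or similar), `exp l = ω^k`. `n = k r + s`, `0 ≤ s < k`. `F1z = aeval λ F1` etc. If `F1z = 0` the claim is `exp(..) ‖F2z z'^n‖ ≤ ‖F2z z'^n‖`: trivial. Put `γ = F1z z^n/(F2z z'^n)`. If `‖γ - 1‖ ≥ 1/2`, the claim holds (the exponential is `≤ 1/2` because `c T... n` is large: `(c B p²/2^p) n ≥ 1`).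
Otherwise `Λ = log γ`, `exp Λ = γ`, `‖Λ‖ ≤ 2 ‖γ - 1‖`. `A₁ = X_i^k`, `A₂ = X_j^k`, `β₁ = F2 X_j^s`, `β₂ = F1 X_i^s`: `exp(r l - Λ) = ω^(kr)/γ = F2z z'^s/(F1z z^s)`. Sizes: `‖φ A‖ ≤ T^k ≤ exp E`, `E = k T` (`T ≤ exp T`); `‖φ β‖ ≤ B T^s ≤ exp(B + k T)`. `W = ⌈4r/2^p⌉`: `4 r ≤ 2^p W`; `2^p W ≤ 4r + 2^p ≤ 8r` if `4 r ≥ 2^p`;
`W ≥ 4r/2^p ≥ B + kT` if `r ≥ 2^p (B + kT)`; all this holds for `n ≥ (B 2^p)^c` since `k ≤ 8·2^p`, `r ≥ n/k - 1`, `T ≤ B`. `two_log_ff`: `‖Λ‖ ≥ exp(-3 cD p² E W)` and `E W ≤ k T · 8 r/2^p ≤ 8 T n/2^p`. So `‖γ - 1‖ ≥ (1/2) exp(-24 cD T p² n/2^p) ≥ exp(-(c B p²/2^p) n)` (the factor `1/2` is absorbed, `p² B n/2^p ≥ 1`).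
-/

set_option autoImplicit false

open Polynomial

namespace Pool.Agent.Helper73.DM

private theorem liou_hyp (d : ℕ) : ∃ D₀ : ℕ, 1 ≤ D₀ ∧ ∀ (T : ℕ) (D : Dat d T)
    (F : MvPolynomial (Fin d) ℤ) (s₀ : Equiv.Perm (Fin d)) (H : ℝ), 1 ≤ H →
    (∀ s : Equiv.Perm (Fin d), ‖MvPolynomial.aeval (fun i => D.lam (s i)) F‖ ≤ H) →
    MvPolynomial.aeval (fun i => D.lam (s₀ i)) F ≠ 0 →
    1 ≤ H ^ D₀ * ‖MvPolynomial.aeval (fun i => D.lam (s₀ i)) F‖ := by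
  obtain ⟨D₀, hD₀⟩ := liouville d
  refine ⟨max D₀ 1, le_max_right _ _, fun T D F s₀ H hH hF hne => ?_⟩
  have h1 := hD₀ D.χ (fun i => D.lam (s₀ i)) (by
    rw [D.map_eq]
    exact (Equiv.prod_comp s₀ (fun i => (X - C (D.lam i)))).symm) F H hH
    (fun σ => hF (s₀ * σ)) hne
  refine h1.trans (mul_le_mul_of_nonneg_right ?_ (norm_nonneg _))
  exact pow_le_pow_right₀ hH (le_max_left _ _)

private theorem circle {ω : ℂ} (hω : ‖ω‖ = 1) (hne : ∀ m : ℕ, 1 ≤ m → ω ^ m ≠ 1) (p : ℕ) :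
    ∃ (k : ℕ) (l : ℂ), 1 ≤ k ∧ k ≤ 8 * 2 ^ p ∧ Complex.exp l = ω ^ k ∧ l ≠ 0 ∧
      ‖l‖ ≤ 4 / 2 ^ p := by
  have hpos : 0 < 8 * 2 ^ p := by positivity
  obtain ⟨j, k', hk0, hkn, habs⟩ := Real.exists_int_int_abs_mul_sub_le (ω.arg / (2 * Real.pi)) hpos
  obtain ⟨k, rfl⟩ : ∃ k : ℕ, k' = k := ⟨k'.toNat, by omega⟩
  have hk1 : 1 ≤ k := by exact_mod_cast hk0
  have hk2 : k ≤ 8 * 2 ^ p := by exact_mod_cast hkn
  have hω' : Complex.exp (ω.arg * Complex.I) = ω := by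
    have h1 := Complex.norm_mul_exp_arg_mul_I ω
    rwa [hω, Complex.ofReal_one, one_mul] at h1
  obtain ⟨θ, hθ⟩ : ∃ θ : ℝ, θ = k * ω.arg - j * (2 * Real.pi) := ⟨_, rfl⟩
  have hexp : Complex.exp (θ * Complex.I) = ω ^ k := by
    have h1 : (θ : ℂ) * Complex.I = (k : ℂ) * (ω.arg * Complex.I) -
        (j : ℂ) * (2 * Real.pi * Complex.I) := by
      rw [hθ]
      push_cast
      ring
    rw [h1, Complex.exp_sub, Complex.exp_nat_mul, hω', Complex.exp_int_mul_two_pi_mul_I, div_one]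
  refine ⟨k, θ * Complex.I, hk1, hk2, hexp, ?_, ?_⟩
  · intro h0
    rw [h0, Complex.exp_zero] at hexp
    exact hne k hk1 hexp.symm
  · rw [norm_mul, Complex.norm_I, mul_one, Complex.norm_real, Real.norm_eq_abs]
    have hpi := Real.pi_pos
    have hpi4 := Real.pi_lt_four
    have h1 : θ = 2 * Real.pi * ((k : ℝ) * (ω.arg / (2 * Real.pi)) - j) := by
      rw [hθ]
      field_simp
    have h2 : |(k : ℝ) * (ω.arg / (2 * Real.pi)) - j| ≤ 1 / (8 * 2 ^ p : ℝ) := by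
      have h3 : (((k : ℤ) : ℝ)) = (k : ℝ) := Int.cast_natCast k
      rw [h3] at habs
      refine habs.trans ?_
      push_cast
      refine one_div_le_one_div_of_le (by positivity) (by linarith)
    rw [h1, abs_mul, abs_of_pos (by positivity)]
    calc 2 * Real.pi * |(k : ℝ) * (ω.arg / (2 * Real.pi)) - j| ≤ 2 * 4 * (1 / (8 * 2 ^ p : ℝ)) :=
          mul_le_mul (by linarith) h2 (abs_nonneg _) (by norm_num)
      _ = 1 / 2 ^ p := by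
          field_simp
          norm_num
      _ ≤ 4 / 2 ^ p := by
          refine div_le_div_of_nonneg_right (by norm_num) (by positivity)

private theorem sq_le_two_pow (p : ℕ) (hp : 4 ≤ p) : p ^ 2 ≤ 2 ^ p := by
  induction p, hp using Nat.le_induction with
  | base => norm_num
  | succ p hp ih =>
    rw [pow_succ 2 p]
    nlinarith

private theorem exp_neg_one_le : Real.exp (-1) ≤ 1 / 2 := by
  have h1 : (2 : ℝ) ≤ Real.exp 1 := by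
    have := Real.add_one_le_exp (1 : ℝ)
    linarith
  rw [Real.exp_neg, inv_eq_one_div]
  exact one_div_le_one_div_of_le (by norm_num) h1

private theorem cast_le_exp (T : ℕ) : (T : ℝ) ≤ Real.exp T := by
  have := Real.add_one_le_exp (T : ℝ)
  linarith

/-- the choice of `W` -/
private theorem exists_W {B T k p n r : ℕ} (hk1 : 1 ≤ k) (hk2 : k ≤ 8 * 2 ^ p) (hTB : T ≤ B) (hB : 1 ≤ B)
    (hp : 1 ≤ p) (hn : (B * 2 ^ p) ^ 10 ≤ n) (hr : r = n / k) :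
    ∃ W : ℕ, 1 ≤ W ∧ 4 * r ≤ 2 ^ p * W ∧ 2 ^ p * W ≤ 8 * r ∧ B + k * T ≤ W := by
  have h2 : 1 ≤ 2 ^ p := Nat.one_le_two_pow
  have hr1 : 2 ^ p * (B + k * T) ≤ r := by
    rw [hr, Nat.le_div_iff_mul_le hk1]
    refine le_trans ?_ hn
    have h3 : k * T ≤ 8 * 2 ^ p * B := Nat.mul_le_mul hk2 hTB
    have h4 : B + k * T ≤ 9 * (2 ^ p * B) := by
      have : B ≤ 2 ^ p * B := Nat.le_mul_of_pos_left B h2
      linarith
    calc 2 ^ p * (B + k * T) * k ≤ 2 ^ p * (9 * (2 ^ p * B)) * (8 * 2 ^ p) :=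
          Nat.mul_le_mul (Nat.mul_le_mul_left _ h4) hk2
      _ = 72 * (B * (2 ^ p) ^ 3) := by ring
      _ ≤ (2 ^ p) ^ 7 * (B * (2 ^ p) ^ 3) := by
          refine Nat.mul_le_mul_right _ ?_
          have h5 : 2 ≤ 2 ^ p := by
            calc 2 = 2 ^ 1 := by norm_num
              _ ≤ 2 ^ p := Nat.pow_le_pow_right (by norm_num) hp
          calc 72 ≤ 2 ^ 7 := by norm_num
            _ ≤ (2 ^ p) ^ 7 := Nat.pow_le_pow_left h5 7
      _ = B * (2 ^ p) ^ 10 := by ring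
      _ ≤ B ^ 10 * (2 ^ p) ^ 10 := Nat.mul_le_mul_right _ (Nat.le_self_pow (by norm_num) B)
      _ = (B * 2 ^ p) ^ 10 := by ring
  have hBk : 1 ≤ B + k * T := by omega
  have hr2 : 2 ^ p ≤ r := le_trans (Nat.le_mul_of_pos_right _ hBk) hr1
  obtain ⟨W, hW⟩ : ∃ W, W = (4 * r + (2 ^ p - 1)) / 2 ^ p := ⟨_, rfl⟩
  have hW1 : 2 ^ p * W ≤ 4 * r + (2 ^ p - 1) := by
    rw [hW]
    exact Nat.mul_div_le _ _
  have hW2 : 4 * r ≤ 2 ^ p * W := by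
    have h3 := Nat.lt_mul_div_succ (4 * r + (2 ^ p - 1)) (show 0 < 2 ^ p by omega)
    rw [← hW, Nat.mul_add, Nat.mul_one] at h3
    omega
  have hW3 : B + k * T ≤ W := by
    have h3 : 2 ^ p * (B + k * T) ≤ 2 ^ p * W := by omega
    exact Nat.le_of_mul_le_mul_left h3 (by omega)
  exact ⟨W, by omega, hW2, by omega, hW3⟩

open Pool.Agent.Helper13.TU in
theorem baker (d : ℕ) :
    ∃ c : ℕ, ∀ (T : ℕ) (D : Dat d T) (B p : ℕ), T ≤ B → c ≤ p → ∀ i j : Fin d,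
      ‖D.lam i‖ = ‖D.lam j‖ → D.lam j ≠ 0 → (∀ m : ℕ, 1 ≤ m → D.lam i ^ m ≠ D.lam j ^ m) →
      ∀ F1 F2 : MvPolynomial (Fin d) ℤ, Bd F1 T B → Bd F2 T B →
      MvPolynomial.aeval D.lam F2 ≠ 0 → ∀ n : ℕ, (B * 2 ^ p) ^ c ≤ n →
      Real.exp (-((c * B * p ^ 2 / 2 ^ p : ℝ) * n)) *
          ‖MvPolynomial.aeval D.lam F2 * D.lam j ^ n‖ ≤
        ‖MvPolynomial.aeval D.lam F1 * D.lam i ^ n -
          MvPolynomial.aeval D.lam F2 * D.lam j ^ n‖ := by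
  obtain ⟨D₀, hD₀1, hL⟩ := liou_hyp d
  obtain ⟨c, hc⟩ : ∃ c, c = 24 * cD D₀ + 1 + 256 * (8 * D₀ + 9) * (8 * (D₀ + 1)) + 10 := ⟨_, rfl⟩
  refine ⟨c, ?_⟩
  intro T D B p hTB hcp i j hij hj0 hne F1 F2 hF1 hF2 hF20 n hn
  have hT2 := D.two_le
  have hB1 : 1 ≤ B := by omega
  have hp10 : 10 ≤ p := by omega
  have hpA : 256 * (8 * D₀ + 9) * (8 * (D₀ + 1) * p) ≤ 2 ^ p := by
    calc 256 * (8 * D₀ + 9) * (8 * (D₀ + 1) * p) = 256 * (8 * D₀ + 9) * (8 * (D₀ + 1)) * p := by ring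
      _ ≤ p * p := Nat.mul_le_mul_right _ (by omega)
      _ = p ^ 2 := (sq p).symm
      _ ≤ 2 ^ p := sq_le_two_pow p (by omega)
  have h2p : 1 ≤ B * 2 ^ p := Nat.mul_pos hB1 (by positivity)
  have hn10 : (B * 2 ^ p) ^ 10 ≤ n := le_trans (Nat.pow_le_pow_right h2p (by omega)) hn
  have hn2 : 2 ^ p ≤ n := by
    refine le_trans ?_ hn10
    calc 2 ^ p ≤ B * 2 ^ p := Nat.le_mul_of_pos_left _ hB1
      _ ≤ (B * 2 ^ p) ^ 10 := Nat.le_self_pow (by norm_num) _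
  obtain ⟨z, hz⟩ : ∃ z, z = D.lam i := ⟨_, rfl⟩
  obtain ⟨z', hz'⟩ : ∃ z', z' = D.lam j := ⟨_, rfl⟩
  obtain ⟨G1, hG1⟩ : ∃ G1, G1 = MvPolynomial.aeval D.lam F1 := ⟨_, rfl⟩
  obtain ⟨G2, hG2⟩ : ∃ G2, G2 = MvPolynomial.aeval D.lam F2 := ⟨_, rfl⟩
  rw [← hz, ← hz'] at hij hne
  rw [← hz'] at hj0
  rw [← hG2] at hF20
  rw [← hz, ← hz', ← hG1, ← hG2]
  have hz'n : 0 < ‖z'‖ := norm_pos_iff.2 hj0
  have hz0 : z ≠ 0 := by
    rw [← norm_pos_iff, hij]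
    exact hz'n
  -- the exponent
  obtain ⟨Y, hY⟩ : ∃ Y : ℝ, Y = p ^ 2 * B * n / 2 ^ p := ⟨_, rfl⟩
  have hQ : ((c * B * p ^ 2 / 2 ^ p : ℝ) * n) = c * Y := by
    rw [hY]
    ring
  have hY1 : 1 ≤ Y := by
    rw [hY, le_div_iff₀ (by positivity), one_mul]
    have h1 : (2 : ℝ) ^ p ≤ n := by exact_mod_cast hn2
    have h2 : (1 : ℝ) ≤ p ^ 2 * B := by
      have h3 : 1 ≤ p ^ 2 * B := Nat.mul_pos (by positivity) hB1
      exact_mod_cast h3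
    calc (2 : ℝ) ^ p ≤ n := h1
      _ ≤ p ^ 2 * B * n := le_mul_of_one_le_left (by positivity) h2
  have hc1 : (24 * cD D₀ + 1 : ℝ) ≤ c := by
    have h1 : 24 * cD D₀ + 1 ≤ c := by omega
    exact_mod_cast h1
  obtain ⟨κ, hκ⟩ : ∃ κ : ℝ, κ = (cD D₀ : ℝ) := ⟨_, rfl⟩
  have hκ0 : 0 ≤ κ := by
    rw [hκ]
    exact Nat.cast_nonneg _
  rw [← hκ] at hc1
  rw [hQ]
  by_cases hG10 : G1 = 0
  · rw [hG10, zero_mul, zero_sub, norm_neg]
    refine mul_le_of_le_one_left (norm_nonneg _) ?_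
    rw [Real.exp_le_one_iff]
    have : 0 ≤ (c : ℝ) * Y := by positivity
    linarith
  obtain ⟨γ, hγ⟩ : ∃ γ, γ = G1 * z ^ n / (G2 * z' ^ n) := ⟨_, rfl⟩
  have hden : G2 * z' ^ n ≠ 0 := mul_ne_zero hF20 (pow_ne_zero _ hj0)
  have hnum : G1 * z ^ n ≠ 0 := mul_ne_zero hG10 (pow_ne_zero _ hz0)
  have hγ0 : γ ≠ 0 := by
    rw [hγ]
    exact div_ne_zero hnum hden
  have hdiff : G1 * z ^ n - G2 * z' ^ n = (γ - 1) * (G2 * z' ^ n) := by
    rw [hγ]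
    field_simp
  rw [hdiff, norm_mul (γ - 1)]
  refine mul_le_mul_of_nonneg_right ?_ (norm_nonneg (G2 * z' ^ n))
  by_cases hhalf : 1 / 2 ≤ ‖γ - 1‖
  · refine le_trans ?_ hhalf
    refine le_trans (Real.exp_le_exp.2 ?_) exp_neg_one_le
    have h1 : (1 : ℝ) * 1 ≤ c * Y := mul_le_mul (by linarith) hY1 (by norm_num) (by positivity)
    linarith
  push Not at hhalf
  obtain ⟨Λ, hΛ⟩ : ∃ Λ, Λ = Complex.log γ := ⟨_, rfl⟩
  have hexpΛ : Complex.exp Λ = γ := by rw [hΛ, Complex.exp_log hγ0]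
  have hΛle : ‖Λ‖ ≤ 2 * ‖γ - 1‖ := by
    have h1 := Complex.norm_log_one_add_half_le_self (z := γ - 1) hhalf.le
    rw [add_sub_cancel, ← hΛ] at h1
    have := norm_nonneg (γ - 1)
    linarith
  -- Dirichlet
  obtain ⟨ω, hω⟩ : ∃ ω, ω = z / z' := ⟨_, rfl⟩
  have hω1 : ‖ω‖ = 1 := by
    rw [hω, norm_div, hij, div_self hz'n.ne']
  have hωne : ∀ m : ℕ, 1 ≤ m → ω ^ m ≠ 1 := by
    intro m hm h1
    rw [hω, div_pow, div_eq_one_iff_eq (pow_ne_zero _ hj0)] at h1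
    exact hne m hm h1
  obtain ⟨k, l, hk1, hk2, hl, hl0, hln⟩ := circle hω1 hωne p
  obtain ⟨r, hr⟩ : ∃ r, r = n / k := ⟨_, rfl⟩
  obtain ⟨s, hs⟩ : ∃ s, s = n % k := ⟨_, rfl⟩
  have hrs : k * r + s = n := by
    rw [hr, hs]
    exact Nat.div_add_mod n k
  have hsk : s < k := by
    rw [hs]
    exact Nat.mod_lt _ hk1
  obtain ⟨W, hW1, hW2, hW3, hW4⟩ := exists_W hk1 hk2 hTB hB1 (by omega) hn10 hr
  obtain ⟨E, hE⟩ : ∃ E, E = k * T := ⟨_, rfl⟩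
  have hE1 : 1 ≤ E := by
    rw [hE]
    exact Nat.mul_pos hk1 (by omega)
  have hlamT : ∀ (σ : Equiv.Perm (Fin d)) (a : Fin d) (m : ℕ), m ≤ k →
      ‖D.lam (σ a)‖ ^ m ≤ Real.exp E := by
    intro σ a m hm
    calc ‖D.lam (σ a)‖ ^ m ≤ (Real.exp T) ^ m :=
          pow_le_pow_left₀ (norm_nonneg _) ((D.lam_le _).trans (cast_le_exp T)) m
      _ ≤ (Real.exp T) ^ k := pow_le_pow_right₀ (Real.one_le_exp (Nat.cast_nonneg _)) hm
      _ = Real.exp E := by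
          rw [← Real.exp_nat_mul, hE]
          push_cast
          rfl
  have hβ : ∀ (F : MvPolynomial (Fin d) ℤ) (a : Fin d), Bd F T B → ∀ σ : Equiv.Perm (Fin d),
      ‖MvPolynomial.aeval (fun i => D.lam (σ i)) (F * MvPolynomial.X a ^ s)‖ ≤ Real.exp W := by
    intro F a hF σ
    rw [map_mul, map_pow, MvPolynomial.aeval_X, norm_mul, norm_pow]
    calc ‖MvPolynomial.aeval (fun i => D.lam (σ i)) F‖ * ‖D.lam (σ a)‖ ^ s ≤
          Real.exp B * Real.exp E :=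
          mul_le_mul ((hF _ fun i => D.lam_le _).trans (cast_le_exp B)) (hlamT σ a s hsk.le)
            (by positivity) (Real.exp_pos _).le
      _ = Real.exp (B + E) := (Real.exp_add _ _).symm
      _ ≤ Real.exp W := by
          refine Real.exp_le_exp.2 ?_
          rw [hE]
          exact_mod_cast hW4
  have hA : ∀ (a : Fin d) (σ : Equiv.Perm (Fin d)),
      ‖MvPolynomial.aeval (fun i => D.lam (σ i)) ((MvPolynomial.X a : MvPolynomial (Fin d) ℤ) ^ k)‖ ≤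
        Real.exp E := by
    intro a σ
    rw [map_pow, MvPolynomial.aeval_X, norm_pow]
    exact hlamT σ a k le_rfl
  have hmain := two_log_ff (S := MvPolynomial (Fin d) ℤ) (ι := Equiv.Perm (Fin d))
    (fun σ => ((MvPolynomial.aeval (fun i => D.lam (σ i)) : MvPolynomial (Fin d) ℤ →ₐ[ℤ] ℂ) :
      MvPolynomial (Fin d) ℤ →+* ℂ)) D₀ hD₀1 (fun F s₀ H hH hF hne => hL T D F s₀ H hH hF hne)
    (MvPolynomial.X i ^ k) (MvPolynomial.X j ^ k) (F2 * MvPolynomial.X j ^ s)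
    (F1 * MvPolynomial.X i ^ s) 1 p E W r (by omega) hpA hE1 hW1 hW2 hW3
    (hA i) (hA j) (hβ F2 j hF2) (hβ F1 i hF1) l Λ
    (by
      change MvPolynomial.aeval D.lam ((MvPolynomial.X j : MvPolynomial (Fin d) ℤ) ^ k) ≠ 0
      rw [map_pow, MvPolynomial.aeval_X, ← hz']
      exact pow_ne_zero _ hj0)
    (by
      change MvPolynomial.aeval D.lam ((MvPolynomial.X i : MvPolynomial (Fin d) ℤ) ^ k) =
        MvPolynomial.aeval D.lam ((MvPolynomial.X j : MvPolynomial (Fin d) ℤ) ^ k) * Complex.exp l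
      rw [map_pow, map_pow, MvPolynomial.aeval_X, MvPolynomial.aeval_X, ← hz, ← hz', hl, hω, div_pow,
        mul_div_cancel₀ _ (pow_ne_zero _ hj0)])
    (by
      change MvPolynomial.aeval D.lam (F1 * MvPolynomial.X i ^ s) ≠ 0
      rw [map_mul, map_pow, MvPolynomial.aeval_X, ← hz, ← hG1]
      exact mul_ne_zero hG10 (pow_ne_zero _ hz0))
    (by
      change MvPolynomial.aeval D.lam (F2 * MvPolynomial.X j ^ s) =
        MvPolynomial.aeval D.lam (F1 * MvPolynomial.X i ^ s) * Complex.exp (r * l - Λ)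
      rw [map_mul, map_pow, MvPolynomial.aeval_X, map_mul, map_pow, MvPolynomial.aeval_X, ← hz, ← hz',
        ← hG1, ← hG2, Complex.exp_sub, Complex.exp_nat_mul, hl, hexpΛ, hγ, hω, ← pow_mul, ← hrs,
        pow_add, pow_add, div_pow]
      have e1 := pow_ne_zero (k * r) hz0
      have e2 := pow_ne_zero (k * r) hj0
      have e3 := pow_ne_zero s hz0
      have e4 := pow_ne_zero s hj0
      field_simp)
    hl0 hln
  rw [← hκ] at hmain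
  -- the sizes
  have hEW : (E : ℝ) * W ≤ 8 * (B * n / 2 ^ p) := by
    have h1 : (2 : ℝ) ^ p * W ≤ 8 * r := by exact_mod_cast hW3
    have h2 : (k : ℝ) * r ≤ n := by
      have h3 : k * r ≤ n := by omega
      exact_mod_cast h3
    have hTB' : (T : ℝ) ≤ B := by exact_mod_cast hTB
    have h4 : (E : ℝ) * W * 2 ^ p ≤ 8 * (B * n) := by
      rw [hE]
      push_cast
      calc (k : ℝ) * T * W * 2 ^ p = (k * T) * (2 ^ p * W) := by ring
        _ ≤ (k * T) * (8 * r) := mul_le_mul_of_nonneg_left h1 (by positivity)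
        _ = 8 * (T * (k * r)) := by ring
        _ ≤ 8 * (B * n) := by
            refine mul_le_mul_of_nonneg_left ?_ (by norm_num)
            exact mul_le_mul hTB' h2 (by positivity) (by positivity)
    rw [← mul_div_assoc, le_div_iff₀ (by positivity)]
    exact h4
  have h3 : 3 * (κ * p ^ 2 * E * W) ≤ 24 * κ * Y := by
    rw [hY]
    calc 3 * (κ * p ^ 2 * E * W) = (3 * (κ * p ^ 2)) * (E * W) := by ring
      _ ≤ (3 * (κ * p ^ 2)) * (8 * (B * n / 2 ^ p)) :=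
          mul_le_mul_of_nonneg_left hEW (by positivity)
      _ = 24 * κ * (p ^ 2 * B * n / 2 ^ p) := by ring
  have h4 : Real.exp (-(24 * κ * Y)) ≤ 2 * ‖γ - 1‖ :=
    (Real.exp_le_exp.2 (by linarith)).trans (hmain.trans hΛle)
  have h5 : -(c * Y) ≤ -(24 * κ * Y) + (-1) := by
    have h6 : (24 * κ + 1) * Y ≤ c * Y := mul_le_mul_of_nonneg_right hc1 (by linarith)
    linarith
  calc Real.exp (-(c * Y)) ≤ Real.exp (-(24 * κ * Y) + (-1)) := Real.exp_le_exp.2 h5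
    _ = Real.exp (-(24 * κ * Y)) * Real.exp (-1) := Real.exp_add _ _
    _ ≤ (2 * ‖γ - 1‖) * (1 / 2) :=
        mul_le_mul h4 exp_neg_one_le (Real.exp_pos _).le (by positivity)
    _ = ‖γ - 1‖ := by ring

end Pool.Agent.Helper73.DM
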