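import Mathlib

/-!
# DM-B6: sums of binomial coefficients times powers of a unit complex number

`S_j(N) = ∑_{n<N} choose(n,j) ζ^n`. `(ζ - 1) S_(j+1)(N) = choose(N,j+1) ζ^N - ζ S_j(N)` (Pascal), `(ζ - 1) S_0(N) = ζ^N - 1`. So `‖S_(j+1)‖ ≤ (‖S_j(N)‖ + N^(j+1))/‖ζ - 1‖`, and by induction the bound (`2/‖ζ-1‖ ≥ 1`).
-/

set_option autoImplicit false

namespace Pool.Agent.Helper73.DM

theorem sum_choose_pow_rec (j : ℕ) (ζ : ℂ) (N : ℕ) :
    (ζ - 1) * ∑ n ∈ Finset.range N, (n.choose (j + 1) : ℂ) * ζ ^ n =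
      (N.choose (j + 1) : ℂ) * ζ ^ N - ζ * ∑ n ∈ Finset.range N, (n.choose j : ℂ) * ζ ^ n := by
  induction N with
  | zero => simp
  | succ N ih =>
    rw [Finset.sum_range_succ, mul_add, ih, Finset.sum_range_succ, Nat.choose_succ_succ]
    push_cast
    ring

theorem sum_choose_pow (j : ℕ) (ζ : ℂ) (h1 : ‖ζ‖ = 1) (h2 : ζ ≠ 1) (N : ℕ) :
    ‖∑ n ∈ Finset.range N, (n.choose j : ℂ) * ζ ^ n‖ ≤
      (j + 1) * (N : ℝ) ^ j * (2 / ‖ζ - 1‖) ^ (j + 1) := by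
  have hz : ζ - 1 ≠ 0 := sub_ne_zero.2 h2
  have hD : 0 < ‖ζ - 1‖ := norm_pos_iff.2 hz
  have hD2 : ‖ζ - 1‖ ≤ 2 := by
    refine (norm_sub_le _ _).trans ?_
    rw [h1, norm_one]; norm_num
  have ha : 1 ≤ 2 / ‖ζ - 1‖ := by rw [le_div_iff₀ hD]; linarith
  rcases Nat.eq_zero_or_pos N with rfl | hN
  · simp only [Finset.range_zero, Finset.sum_empty, norm_zero]
    positivity
  have hN1 : (1 : ℝ) ≤ N := by exact_mod_cast hN
  induction j with
  | zero =>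
    have e : (ζ - 1) * ∑ n ∈ Finset.range N, ((n.choose 0 : ℕ) : ℂ) * ζ ^ n = ζ ^ N - 1 := by
      have : ∑ n ∈ Finset.range N, ((n.choose 0 : ℕ) : ℂ) * ζ ^ n = ∑ n ∈ Finset.range N, ζ ^ n := by
        refine Finset.sum_congr rfl fun n _ => ?_
        simp
      rw [this]
      exact mul_geom_sum ζ N
    have e2 : ‖ζ - 1‖ * ‖∑ n ∈ Finset.range N, ((n.choose 0 : ℕ) : ℂ) * ζ ^ n‖ ≤ 2 := by
      rw [← norm_mul, e]
      refine (norm_sub_le _ _).trans ?_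
      rw [norm_pow, h1, one_pow, norm_one]; norm_num
    simp only [CharP.cast_eq_zero, zero_add, pow_zero, mul_one, one_mul, pow_one]
    rw [le_div_iff₀ hD]
    linarith
  | succ j ih =>
    set a := 2 / ‖ζ - 1‖ with ha'
    set S := ∑ n ∈ Finset.range N, (n.choose j : ℂ) * ζ ^ n with hS
    have e := sum_choose_pow_rec j ζ N
    rw [← hS] at e
    set S' := ∑ n ∈ Finset.range N, (n.choose (j + 1) : ℂ) * ζ ^ n with hS'
    have e2 : ‖ζ - 1‖ * ‖S'‖ ≤ (N : ℝ) ^ (j + 1) + ‖S‖ := by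
      rw [← norm_mul, e]
      refine (norm_sub_le _ _).trans ?_
      rw [norm_mul, norm_mul, norm_pow, h1, one_pow, mul_one, one_mul, Complex.norm_natCast]
      have : (N.choose (j + 1) : ℝ) ≤ (N : ℝ) ^ (j + 1) := by
        exact_mod_cast Nat.choose_le_pow N (j + 1)
      linarith
    have e3 : ‖S'‖ = (a / 2) * (‖ζ - 1‖ * ‖S'‖) := by
      rw [ha']; field_simp
    have hapos : 0 < a := lt_of_lt_of_le one_pos ha
    rw [e3]
    have hpow : 1 ≤ a ^ (j + 1) := one_le_pow₀ ha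
    have hNp : (N : ℝ) ^ j ≤ (N : ℝ) ^ (j + 1) := pow_le_pow_right₀ hN1 (Nat.le_succ j)
    have hNpos : 0 < (N : ℝ) ^ (j + 1) := by positivity
    calc a / 2 * (‖ζ - 1‖ * ‖S'‖) ≤ a / 2 * ((N : ℝ) ^ (j + 1) + ‖S‖) :=
          mul_le_mul_of_nonneg_left e2 (by positivity)
      _ ≤ a / 2 * ((N : ℝ) ^ (j + 1) * a ^ (j + 1) + (j + 1) * (N : ℝ) ^ (j + 1) * a ^ (j + 1)) := by
          refine mul_le_mul_of_nonneg_left ?_ (by positivity)
          refine add_le_add ?_ (ih.trans ?_)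
          · nlinarith
          · gcongr
      _ ≤ a * ((N : ℝ) ^ (j + 1) * a ^ (j + 1) + (j + 1) * (N : ℝ) ^ (j + 1) * a ^ (j + 1)) := by
          refine mul_le_mul_of_nonneg_right (by linarith) (by positivity)
      _ = ((j + 1 : ℕ) + 1) * (N : ℝ) ^ (j + 1) * a ^ (j + 1 + 1) := by
          push_cast; ring

theorem choose_lower (m N : ℕ) (hm : 1 ≤ m) (h : 2 * m ≤ N) :
    (N : ℝ) ^ m ≤ (2 * m) ^ m * (N.choose m : ℝ) := by
  have h1 : (((N + 1 - m : ℕ) ^ m : ℕ) : ℝ) ≤ (m.factorial : ℝ) * (N.choose m : ℝ) := by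
    have : (N + 1 - m) ^ m ≤ m.factorial * N.choose m := by
      have h3 := Nat.pow_sub_le_descFactorial N m
      rw [Nat.descFactorial_eq_factorial_mul_choose] at h3
      exact h3
    exact_mod_cast this
  have h2 : (m.factorial : ℝ) ≤ (m : ℝ) ^ m := by exact_mod_cast Nat.factorial_le_pow m
  have h3 : (N : ℝ) ≤ 2 * ((N + 1 - m : ℕ) : ℝ) := by
    have : N ≤ 2 * (N + 1 - m) := by omega
    exact_mod_cast this
  have h4 : (0 : ℝ) ≤ (N.choose m : ℝ) := Nat.cast_nonneg _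
  calc (N : ℝ) ^ m ≤ (2 * ((N + 1 - m : ℕ) : ℝ)) ^ m := pow_le_pow_left₀ (Nat.cast_nonneg _) h3 m
    _ = 2 ^ m * (((N + 1 - m : ℕ) ^ m : ℕ) : ℝ) := by push_cast; rw [mul_pow]
    _ ≤ 2 ^ m * ((m.factorial : ℝ) * (N.choose m : ℝ)) := by gcongr
    _ ≤ 2 ^ m * ((m : ℝ) ^ m * (N.choose m : ℝ)) := by gcongr
    _ = (2 * m) ^ m * (N.choose m : ℝ) := by rw [mul_pow]; ring

end Pool.Agent.Helper73.DM
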