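import Pool.Agent.Helper73.DM.RepMult
import Pool.Agent.Helper73.DM.SumExp

/-!
# DM-B8: the positive root is the only one of maximal multiplicity on the circle

`rep_mult`, `m = mult ρ ≥ 1`, `β = β ρ (m-1)`. `x n/ρ^n - β choose(n,m-1)` is a sum of at most `d²` terms `β z j choose(n,j) (z/ρ)^n` with `j ≤ m - 2` (for `ρ`: `j < m - 1`; for the others `j < mult z ≤ m - 1`), of norm `≤ T^c (n+1)^(m-2)`, and `w n/ρ^n`, of norm `≤ T^c (1 + 1/T^c)^(-n) ≤ T^(2c)/(n+1)·2` (Bernoulli). If `m = 1` there are no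
terms of the first kind. So `‖x n/ρ^n - β choose(n,m-1)‖ (n+1) ≤ T^c' (n+1)^(m-1)`. `x n/ρ^n` is real; `‖β‖ ≥ 1/T^c` and `choose(n,m-1) ≥ n^(m-1)/T^c''` for `n ≥ 2d`. So `β` is real (limit of real numbers `x n/(ρ^n choose(n,m-1))`), and for `n ≥ T^c3` the sign of `x n` is the sign of `β` and `x n ≠ 0`. With `n = T^c3`: `β > 0`.
-/

set_option autoImplicit false

open Polynomial

namespace Pool.Agent.Helper73.DM

private theorem mult_le {d T : ℕ} (D : Dat d T) (J : Finset (Fin d)) (z : ℂ) :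
    D.mult J z ≤ d := by
  unfold Dat.mult
  refine le_trans (Finset.card_le_univ _) ?_
  simp

private theorem bcase_term {c T n j k : ℕ} {ρ : ℝ} (hρ : 0 < ρ) (b z : ℂ)
    (hb : ‖b‖ ≤ (T : ℝ) ^ c) (hz : ‖z‖ = ρ) (hjk : j + 1 ≤ k) :
    ‖b * (n.choose j : ℂ) * z ^ n‖ * (n + 1) ≤ (T : ℝ) ^ c * ((n : ℝ) + 1) ^ k * ρ ^ n := by
  rw [norm_mul, norm_mul, norm_pow, hz, Complex.norm_natCast]
  have h1 : ((n.choose j : ℕ) : ℝ) ≤ ((n : ℝ) + 1) ^ j := by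
    have h2 : n.choose j ≤ (n + 1) ^ j :=
      le_trans (Nat.choose_le_pow n j) (Nat.pow_le_pow_left (Nat.le_succ n) j)
    exact_mod_cast h2
  have h3 : ((n.choose j : ℕ) : ℝ) * (n + 1) ≤ ((n : ℝ) + 1) ^ k := by
    calc ((n.choose j : ℕ) : ℝ) * (n + 1) ≤ ((n : ℝ) + 1) ^ j * (n + 1) := by
          apply mul_le_mul_of_nonneg_right h1; positivity
      _ = ((n : ℝ) + 1) ^ (j + 1) := by ring
      _ ≤ ((n : ℝ) + 1) ^ k := by
          apply pow_le_pow_right₀ _ hjk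
          have : (0 : ℝ) ≤ n := Nat.cast_nonneg n
          linarith
  calc ‖b‖ * ((n.choose j : ℕ) : ℝ) * ρ ^ n * (n + 1)
      = ‖b‖ * (((n.choose j : ℕ) : ℝ) * (n + 1)) * ρ ^ n := by ring
    _ ≤ (T : ℝ) ^ c * ((n : ℝ) + 1) ^ k * ρ ^ n := by
        apply mul_le_mul_of_nonneg_right _ (pow_nonneg hρ.le n)
        apply mul_le_mul hb h3 (by positivity) (by positivity)

private theorem bcase_main {d T : ℕ} (D : Dat d T) (J : Finset (Fin d)) (ρ : ℝ) (hρ : 0 < ρ)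
    (c0 k : ℕ) (hk : D.mult J (ρ : ℂ) = k + 1)
    (hρS : ∃ i ∈ D.circ J ρ, D.lam i = (ρ : ℂ))
    (hmul : ∀ i ∈ D.circ J ρ, D.lam i ≠ (ρ : ℂ) → D.mult J (D.lam i) < D.mult J (ρ : ℂ))
    (β : ℂ → ℕ → ℂ) (w : ℕ → ℂ) (hβ : ∀ z j, ‖β z j‖ ≤ (T : ℝ) ^ c0)
    (hw : ∀ n : ℕ, ‖w n‖ * (1 + 1 / (T : ℝ) ^ c0) ^ n ≤ (T : ℝ) ^ c0 * ρ ^ n)
    (hx : ∀ n : ℕ, D.xc n = (∑ z ∈ (D.circ J ρ).image D.lam, ∑ j ∈ Finset.range (D.mult J z),
          β z j * (n.choose j : ℂ) * z ^ n) + w n) (n : ℕ) :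
    ‖D.xc n - β ρ k * (n.choose k : ℂ) * (ρ : ℂ) ^ n‖ * (n + 1) ≤
      (d * d + d + 1) * (T : ℝ) ^ (2 * c0) * ((n : ℝ) + 1) ^ k * ρ ^ n := by
  classical
  have hT1 : (1 : ℝ) ≤ T := by
    have := D.two_le
    have h2 : (2 : ℝ) ≤ T := by exact_mod_cast this
    linarith
  have hTc : (1 : ℝ) ≤ (T : ℝ) ^ c0 := one_le_pow₀ hT1
  have hn0 : (0 : ℝ) ≤ n := Nat.cast_nonneg n
  have hnk : (1 : ℝ) ≤ ((n : ℝ) + 1) ^ k := one_le_pow₀ (by linarith)
  have hρn : 0 < ρ ^ n := pow_pos hρ n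
  have hmem : (ρ : ℂ) ∈ (D.circ J ρ).image D.lam := by
    obtain ⟨i, hi, hi2⟩ := hρS
    exact Finset.mem_image.2 ⟨i, hi, hi2⟩
  have hnorm : ∀ z ∈ (D.circ J ρ).image D.lam, ‖z‖ = ρ := by
    intro z hz
    obtain ⟨i, hi, hi2⟩ := Finset.mem_image.1 hz
    unfold Dat.circ at hi
    rw [Finset.mem_filter] at hi
    rw [← hi2]; exact hi.2
  have hcard : ((D.circ J ρ).image D.lam).card ≤ d := by
    refine le_trans Finset.card_image_le ?_
    refine le_trans (Finset.card_le_univ _) ?_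
    simp
  have hkd : k ≤ d := by
    have := mult_le D J (ρ : ℂ)
    omega
  set S := (D.circ J ρ).image D.lam with hS
  have hsplit : D.xc n - β ρ k * (n.choose k : ℂ) * (ρ : ℂ) ^ n =
      (∑ z ∈ S.erase (ρ : ℂ), ∑ j ∈ Finset.range (D.mult J z),
          β z j * (n.choose j : ℂ) * z ^ n) +
      (∑ j ∈ Finset.range k, β ρ j * (n.choose j : ℂ) * (ρ : ℂ) ^ n) + w n := by
    rw [hx n, ← Finset.add_sum_erase S _ hmem, hk, Finset.sum_range_succ]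
    ring
  have e1 : ‖∑ z ∈ S.erase (ρ : ℂ), ∑ j ∈ Finset.range (D.mult J z),
      β z j * (n.choose j : ℂ) * z ^ n‖ * (n + 1) ≤
      (d * d) * ((T : ℝ) ^ c0 * ((n : ℝ) + 1) ^ k * ρ ^ n) := by
    calc ‖∑ z ∈ S.erase (ρ : ℂ), ∑ j ∈ Finset.range (D.mult J z),
          β z j * (n.choose j : ℂ) * z ^ n‖ * (n + 1)
      _ ≤ (∑ z ∈ S.erase (ρ : ℂ), ∑ j ∈ Finset.range (D.mult J z),
          ‖β z j * (n.choose j : ℂ) * z ^ n‖) * (n + 1) := by
          apply mul_le_mul_of_nonneg_right _ (by linarith)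
          refine le_trans (norm_sum_le _ _) (Finset.sum_le_sum fun z _ => norm_sum_le _ _)
      _ = ∑ z ∈ S.erase (ρ : ℂ), ∑ j ∈ Finset.range (D.mult J z),
          ‖β z j * (n.choose j : ℂ) * z ^ n‖ * (n + 1) := by
          rw [Finset.sum_mul]
          exact Finset.sum_congr rfl fun z _ => Finset.sum_mul _ _ _
      _ ≤ ∑ z ∈ S.erase (ρ : ℂ), (d : ℝ) * ((T : ℝ) ^ c0 * ((n : ℝ) + 1) ^ k * ρ ^ n) := by
          refine Finset.sum_le_sum fun z hz => ?_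
          obtain ⟨hz1, hz2⟩ := Finset.mem_erase.1 hz
          have hmz : D.mult J z < k + 1 := by
            obtain ⟨i, hi, hi2⟩ := Finset.mem_image.1 hz2
            rw [← hk, ← hi2]
            exact hmul i hi (by rw [hi2]; exact hz1)
          calc ∑ j ∈ Finset.range (D.mult J z), ‖β z j * (n.choose j : ℂ) * z ^ n‖ * (n + 1)
              ≤ ∑ j ∈ Finset.range (D.mult J z), (T : ℝ) ^ c0 * ((n : ℝ) + 1) ^ k * ρ ^ n := by
                refine Finset.sum_le_sum fun j hj => ?_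
                rw [Finset.mem_range] at hj
                exact bcase_term hρ _ _ (hβ z j) (hnorm z hz2) (by omega)
            _ = (D.mult J z : ℝ) * ((T : ℝ) ^ c0 * ((n : ℝ) + 1) ^ k * ρ ^ n) := by
                rw [Finset.sum_const, Finset.card_range, nsmul_eq_mul]
            _ ≤ (d : ℝ) * ((T : ℝ) ^ c0 * ((n : ℝ) + 1) ^ k * ρ ^ n) := by
                apply mul_le_mul_of_nonneg_right _ (by positivity)
                exact_mod_cast mult_le D J z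
      _ = ((S.erase (ρ : ℂ)).card : ℝ) *
            ((d : ℝ) * ((T : ℝ) ^ c0 * ((n : ℝ) + 1) ^ k * ρ ^ n)) := by
          rw [Finset.sum_const, nsmul_eq_mul]
      _ ≤ (d : ℝ) * ((d : ℝ) * ((T : ℝ) ^ c0 * ((n : ℝ) + 1) ^ k * ρ ^ n)) := by
          apply mul_le_mul_of_nonneg_right _ (by positivity)
          exact_mod_cast le_trans (Finset.card_le_card (Finset.erase_subset _ _)) hcard
      _ = (d * d) * ((T : ℝ) ^ c0 * ((n : ℝ) + 1) ^ k * ρ ^ n) := by ring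
  have e2 : ‖∑ j ∈ Finset.range k, β ρ j * (n.choose j : ℂ) * (ρ : ℂ) ^ n‖ * (n + 1) ≤
      (d : ℝ) * ((T : ℝ) ^ c0 * ((n : ℝ) + 1) ^ k * ρ ^ n) := by
    calc ‖∑ j ∈ Finset.range k, β ρ j * (n.choose j : ℂ) * (ρ : ℂ) ^ n‖ * (n + 1) ≤
        (∑ j ∈ Finset.range k, ‖β ρ j * (n.choose j : ℂ) * (ρ : ℂ) ^ n‖) * (n + 1) := by
          apply mul_le_mul_of_nonneg_right (norm_sum_le _ _) (by linarith)
      _ = ∑ j ∈ Finset.range k, ‖β ρ j * (n.choose j : ℂ) * (ρ : ℂ) ^ n‖ * (n + 1) := by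
          rw [Finset.sum_mul]
      _ ≤ ∑ j ∈ Finset.range k, (T : ℝ) ^ c0 * ((n : ℝ) + 1) ^ k * ρ ^ n := by
          refine Finset.sum_le_sum fun j hj => ?_
          rw [Finset.mem_range] at hj
          exact bcase_term hρ _ _ (hβ _ j) (hnorm _ hmem) (by omega)
      _ = (k : ℝ) * ((T : ℝ) ^ c0 * ((n : ℝ) + 1) ^ k * ρ ^ n) := by
          rw [Finset.sum_const, Finset.card_range, nsmul_eq_mul]
      _ ≤ (d : ℝ) * ((T : ℝ) ^ c0 * ((n : ℝ) + 1) ^ k * ρ ^ n) := by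
          apply mul_le_mul_of_nonneg_right _ (by positivity)
          exact_mod_cast hkd
  have e3 : ‖w n‖ * (n + 1) ≤ (T : ℝ) ^ (2 * c0) * ((n : ℝ) + 1) ^ k * ρ ^ n := by
    have hb : 1 + (n : ℝ) * (1 / (T : ℝ) ^ c0) ≤ (1 + 1 / (T : ℝ) ^ c0) ^ n := by
      apply one_add_mul_le_pow
      have : (0 : ℝ) < 1 / (T : ℝ) ^ c0 := by positivity
      linarith
    have hb2 : (n : ℝ) + 1 ≤ (T : ℝ) ^ c0 * (1 + 1 / (T : ℝ) ^ c0) ^ n := by
      have h5 : (T : ℝ) ^ c0 * (1 + (n : ℝ) * (1 / (T : ℝ) ^ c0)) = (T : ℝ) ^ c0 + n := by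
        have : (T : ℝ) ^ c0 ≠ 0 := by positivity
        field_simp
      have h6 := mul_le_mul_of_nonneg_left hb (le_trans zero_le_one hTc)
      rw [h5] at h6
      linarith
    calc ‖w n‖ * (n + 1) ≤ ‖w n‖ * ((T : ℝ) ^ c0 * (1 + 1 / (T : ℝ) ^ c0) ^ n) :=
          mul_le_mul_of_nonneg_left hb2 (norm_nonneg _)
      _ = (T : ℝ) ^ c0 * (‖w n‖ * (1 + 1 / (T : ℝ) ^ c0) ^ n) := by ring
      _ ≤ (T : ℝ) ^ c0 * ((T : ℝ) ^ c0 * ρ ^ n) :=
          mul_le_mul_of_nonneg_left (hw n) (le_trans zero_le_one hTc)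
      _ = (T : ℝ) ^ (2 * c0) * 1 * ρ ^ n := by rw [two_mul, pow_add]; ring
      _ ≤ (T : ℝ) ^ (2 * c0) * ((n : ℝ) + 1) ^ k * ρ ^ n := by
          apply mul_le_mul_of_nonneg_right _ hρn.le
          apply mul_le_mul_of_nonneg_left hnk (by positivity)
  have e4 : (T : ℝ) ^ c0 * ((n : ℝ) + 1) ^ k * ρ ^ n ≤
      (T : ℝ) ^ (2 * c0) * ((n : ℝ) + 1) ^ k * ρ ^ n := by
    apply mul_le_mul_of_nonneg_right _ hρn.le
    apply mul_le_mul_of_nonneg_right _ (by positivity)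
    exact pow_le_pow_right₀ hT1 (by omega)
  rw [hsplit]
  have e5 : ‖(∑ z ∈ S.erase (ρ : ℂ), ∑ j ∈ Finset.range (D.mult J z),
          β z j * (n.choose j : ℂ) * z ^ n) +
      (∑ j ∈ Finset.range k, β ρ j * (n.choose j : ℂ) * (ρ : ℂ) ^ n) + w n‖ * (n + 1) ≤
      ‖∑ z ∈ S.erase (ρ : ℂ), ∑ j ∈ Finset.range (D.mult J z),
          β z j * (n.choose j : ℂ) * z ^ n‖ * (n + 1) +
      ‖∑ j ∈ Finset.range k, β ρ j * (n.choose j : ℂ) * (ρ : ℂ) ^ n‖ * (n + 1) +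
      ‖w n‖ * (n + 1) := by
    rw [← add_mul, ← add_mul]
    apply mul_le_mul_of_nonneg_right _ (by linarith)
    exact le_trans (norm_add_le _ _) (add_le_add (norm_add_le _ _) le_rfl)
  refine le_trans e5 ?_
  have hd0 : (0 : ℝ) ≤ d := Nat.cast_nonneg d
  have e6 : (d * d : ℝ) * ((T : ℝ) ^ c0 * ((n : ℝ) + 1) ^ k * ρ ^ n) ≤
      (d * d : ℝ) * ((T : ℝ) ^ (2 * c0) * ((n : ℝ) + 1) ^ k * ρ ^ n) :=
    mul_le_mul_of_nonneg_left e4 (by positivity)
  have e7 : (d : ℝ) * ((T : ℝ) ^ c0 * ((n : ℝ) + 1) ^ k * ρ ^ n) ≤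
      (d : ℝ) * ((T : ℝ) ^ (2 * c0) * ((n : ℝ) + 1) ^ k * ρ ^ n) :=
    mul_le_mul_of_nonneg_left e4 hd0
  calc _ ≤ (d * d : ℝ) * ((T : ℝ) ^ (2 * c0) * ((n : ℝ) + 1) ^ k * ρ ^ n) +
        (d : ℝ) * ((T : ℝ) ^ (2 * c0) * ((n : ℝ) + 1) ^ k * ρ ^ n) +
        (T : ℝ) ^ (2 * c0) * ((n : ℝ) + 1) ^ k * ρ ^ n :=
        add_le_add (add_le_add (le_trans e1 e6) (le_trans e2 e7)) e3
    _ = _ := by ring

private theorem bcase_choose (k n : ℕ) (h1 : 1 ≤ n) (h2 : 2 * k ≤ n) :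
    ((n : ℝ) + 1) ^ k ≤ (4 * k) ^ k * (n.choose k : ℝ) := by
  rcases Nat.eq_zero_or_pos k with hk | hk
  · subst hk; simp
  · have h3 := choose_lower k n hk h2
    have h4 : (1 : ℝ) ≤ n := by exact_mod_cast h1
    calc ((n : ℝ) + 1) ^ k ≤ (2 * n) ^ k := pow_le_pow_left₀ (by linarith) (by linarith) k
      _ = 2 ^ k * (n : ℝ) ^ k := by rw [mul_pow]
      _ ≤ 2 ^ k * ((2 * k) ^ k * (n.choose k : ℝ)) :=
          mul_le_mul_of_nonneg_left h3 (by positivity)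
      _ = (4 * k) ^ k * (n.choose k : ℝ) := by
          rw [← mul_assoc, ← mul_pow]; ring

theorem beta_case (d : ℕ) :
    ∃ c : ℕ, ∀ (T : ℕ) (D : Dat d T) (J : Finset (Fin d)) (ρ : ℝ), D.IsMin J → D.Top J ρ →
      (∃ i ∈ J, D.lam i = (ρ : ℂ)) →
      (∀ i ∈ D.circ J ρ, D.lam i ≠ (ρ : ℂ) → D.mult J (D.lam i) < D.mult J (ρ : ℂ)) →
      (∀ n ≤ T ^ c, 0 ≤ D.x n) → ∀ n, 0 ≤ D.x n := by
  classical
  obtain ⟨c0, h0⟩ := rep_mult d
  refine ⟨((d * d + d + 1) * (4 * d + 1) ^ d + 2 * d + 1) + 3 * c0, ?_⟩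
  intro T D J ρ hmin htop hex hmul hpos
  obtain ⟨β, w, hβ, hβ1, hw, hx⟩ := h0 T D J ρ hmin htop
  obtain ⟨i0, hi0, hi0ρ⟩ := hex
  have hρ : 0 < ρ := htop.1
  have hcirc : i0 ∈ D.circ J ρ := by
    unfold Dat.circ
    rw [Finset.mem_filter]
    refine ⟨hi0, ?_⟩
    rw [hi0ρ, Complex.norm_real, Real.norm_eq_abs, abs_of_pos hρ]
  have hm : 1 ≤ D.mult J (ρ : ℂ) := by
    unfold Dat.mult
    apply Finset.card_pos.2
    exact ⟨i0, Finset.mem_filter.2 ⟨hi0, hi0ρ⟩⟩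
  obtain ⟨k, hk⟩ : ∃ k, D.mult J (ρ : ℂ) = k + 1 := ⟨D.mult J (ρ : ℂ) - 1, by omega⟩
  have hkd : k + 1 ≤ d := by
    rw [← hk]; exact mult_le D J _
  have hmain := bcase_main D J ρ hρ c0 k hk ⟨i0, hcirc, hi0ρ⟩ hmul β w hβ hw hx
  have hβk : 1 ≤ (T : ℝ) ^ c0 * ‖β ρ k‖ := by
    have := hβ1 i0 hcirc
    rw [hi0ρ, hk] at this
    simpa using this
  set b : ℂ := β ρ k with hb
  set K : ℝ := (d * d + d + 1) * (T : ℝ) ^ (2 * c0) * (4 * k) ^ k with hK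
  have hK0 : 0 ≤ K := by positivity
  have key : ∀ n : ℕ, 1 ≤ n → 2 * k ≤ n →
      ‖D.xc n - b * (n.choose k : ℂ) * (ρ : ℂ) ^ n‖ * (n + 1) ≤
        K * (n.choose k : ℝ) * ρ ^ n := by
    intro n h1 h2
    refine le_trans (hmain n) ?_
    apply mul_le_mul_of_nonneg_right _ (pow_nonneg hρ.le n)
    have := mul_le_mul_of_nonneg_left (bcase_choose k n h1 h2)
      (show (0 : ℝ) ≤ (d * d + d + 1) * (T : ℝ) ^ (2 * c0) by positivity)
    refine le_trans this (le_of_eq ?_)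
    rw [hK]; ring
  have hchpos : ∀ n : ℕ, 2 * k ≤ n → 0 < (n.choose k : ℝ) * ρ ^ n := by
    intro n hn
    apply mul_pos _ (pow_pos hρ n)
    exact_mod_cast Nat.choose_pos (by omega)
  have hpart : ∀ n : ℕ, D.xc n - b * (n.choose k : ℂ) * (ρ : ℂ) ^ n =
      (((D.x n : ℝ) - b.re * ((n.choose k : ℝ) * ρ ^ n) : ℝ) : ℂ) +
      ((-(b.im * ((n.choose k : ℝ) * ρ ^ n)) : ℝ) : ℂ) * Complex.I := by
    intro n
    unfold Dat.xc
    apply Complex.ext
    · rw [show (b * (n.choose k : ℂ) * (ρ : ℂ) ^ n) =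
        b * (((n.choose k : ℝ) * ρ ^ n : ℝ) : ℂ) by push_cast; ring]
      rw [Complex.sub_re, Complex.mul_re, Complex.add_re, Complex.mul_re, Complex.ofReal_re,
        Complex.ofReal_im, Complex.ofReal_re, Complex.I_re, Complex.I_im, Complex.ofReal_im]
      simp
    · rw [show (b * (n.choose k : ℂ) * (ρ : ℂ) ^ n) =
        b * (((n.choose k : ℝ) * ρ ^ n : ℝ) : ℂ) by push_cast; ring]
      rw [Complex.sub_im, Complex.mul_im, Complex.add_im, Complex.mul_im, Complex.ofReal_re,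
        Complex.ofReal_im, Complex.ofReal_re, Complex.I_re, Complex.I_im, Complex.ofReal_im]
      simp
  have hpim : ∀ n : ℕ, (D.xc n - b * (n.choose k : ℂ) * (ρ : ℂ) ^ n).im =
      -(b.im * ((n.choose k : ℝ) * ρ ^ n)) := by
    intro n
    rw [hpart, Complex.add_im, Complex.mul_im, Complex.ofReal_im, Complex.ofReal_re,
      Complex.ofReal_im, Complex.I_re, Complex.I_im]
    ring
  have hpre : ∀ n : ℕ, (D.xc n - b * (n.choose k : ℂ) * (ρ : ℂ) ^ n).re =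
      (D.x n : ℝ) - b.re * ((n.choose k : ℝ) * ρ ^ n) := by
    intro n
    rw [hpart, Complex.add_re, Complex.mul_re, Complex.ofReal_re, Complex.ofReal_re,
      Complex.ofReal_im, Complex.I_re, Complex.I_im]
    ring
  have him : b.im = 0 := by
    by_contra hne
    have hpos2 : 0 < |b.im| := abs_pos.2 hne
    obtain ⟨n, hn⟩ := exists_nat_gt (K / |b.im|)
    have h1 := key (n + 2 * k + 1) (by omega) (by omega)
    have h2 : |b.im * (((n + 2 * k + 1).choose k : ℝ) * ρ ^ (n + 2 * k + 1))| ≤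
        ‖D.xc (n + 2 * k + 1) - b * ((n + 2 * k + 1).choose k : ℂ) * (ρ : ℂ) ^ (n + 2 * k + 1)‖ := by
      refine le_trans (le_of_eq ?_) (Complex.abs_im_le_norm _)
      rw [hpim, abs_neg]
    have h3 := hchpos (n + 2 * k + 1) (by omega)
    rw [abs_mul, abs_of_pos h3] at h2
    have h4 : |b.im| * ((n + 2 * k + 1 : ℕ) + 1 : ℝ) ≤ K := by
      have h5 : |b.im| * (((n + 2 * k + 1).choose k : ℝ) * ρ ^ (n + 2 * k + 1)) *
          ((n + 2 * k + 1 : ℕ) + 1 : ℝ) ≤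
          K * (((n + 2 * k + 1).choose k : ℝ) * ρ ^ (n + 2 * k + 1)) := by
        refine le_trans (mul_le_mul_of_nonneg_right h2 (by positivity)) ?_
        refine le_trans h1 (le_of_eq (by ring))
      by_contra h6
      push Not at h6
      have h7 := mul_lt_mul_of_pos_right h6 h3
      nlinarith
    rw [div_lt_iff₀ hpos2] at hn
    have h8 : (n : ℝ) ≤ ((n + 2 * k + 1 : ℕ) + 1 : ℝ) := by
      push_cast
      have : (0 : ℝ) ≤ k := Nat.cast_nonneg k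
      linarith
    nlinarith
  have hnb : ‖b‖ = |b.re| := by
    have : b = ((b.re : ℝ) : ℂ) := by
      apply Complex.ext
      · simp
      · simp [him]
    rw [this, Complex.norm_real, Real.norm_eq_abs]
    simp
  rw [hnb] at hβk
  have hre : ∀ n : ℕ, 1 ≤ n → 2 * k ≤ n →
      |(D.x n : ℝ) - b.re * ((n.choose k : ℝ) * ρ ^ n)| * (n + 1) ≤
        K * ((n.choose k : ℝ) * ρ ^ n) := by
    intro n h1 h2
    have h3 := key n h1 h2
    have h4 : |(D.x n : ℝ) - b.re * ((n.choose k : ℝ) * ρ ^ n)| ≤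
        ‖D.xc n - b * (n.choose k : ℂ) * (ρ : ℂ) ^ n‖ := by
      refine le_trans (le_of_eq ?_) (Complex.abs_re_le_norm _)
      rw [hpre]
    refine le_trans (mul_le_mul_of_nonneg_right h4 (by positivity)) ?_
    refine le_trans h3 (le_of_eq (by ring))
  -- the bound on `T ^ c`
  have hT2 : 2 ≤ T := D.two_le
  have hT1 : (1 : ℝ) ≤ T := by
    have : (2 : ℝ) ≤ T := by exact_mod_cast hT2
    linarith
  set s : ℕ := (d * d + d + 1) * (4 * d + 1) ^ d + 2 * d + 1 with hs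
  have hsT : s ≤ T ^ s := by
    calc s ≤ 2 ^ s := (Nat.lt_two_pow_self).le
      _ ≤ T ^ s := Nat.pow_le_pow_left hT2 s
  have hN2 : s ≤ T ^ (s + 3 * c0) :=
    le_trans hsT (Nat.pow_le_pow_right (by omega) (by omega))
  have hKN : K * (T : ℝ) ^ c0 ≤ ((T ^ (s + 3 * c0) : ℕ) : ℝ) := by
    have h1 : (4 * (k : ℝ)) ^ k ≤ (4 * (d : ℝ) + 1) ^ d := by
      have h2 : (4 * k) ^ k ≤ (4 * d + 1) ^ d := by
        calc (4 * k) ^ k ≤ (4 * d + 1) ^ k := Nat.pow_le_pow_left (by omega) k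
          _ ≤ (4 * d + 1) ^ d := Nat.pow_le_pow_right (by omega) (by omega)
      exact_mod_cast h2
    have h3 : ((d : ℝ) * d + d + 1) * (4 * (d : ℝ) + 1) ^ d ≤ (T : ℝ) ^ s := by
      have h4 : (d * d + d + 1) * (4 * d + 1) ^ d ≤ T ^ s := by omega
      exact_mod_cast h4
    push_cast
    calc K * (T : ℝ) ^ c0 = (((d : ℝ) * d + d + 1) * (4 * (k : ℝ)) ^ k) * (T : ℝ) ^ (3 * c0) := by
          rw [hK, show 3 * c0 = 2 * c0 + c0 by ring, pow_add]; ring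
      _ ≤ (((d : ℝ) * d + d + 1) * (4 * (d : ℝ) + 1) ^ d) * (T : ℝ) ^ (3 * c0) := by
          apply mul_le_mul_of_nonneg_right _ (by positivity)
          exact mul_le_mul_of_nonneg_left h1 (by positivity)
      _ ≤ (T : ℝ) ^ s * (T : ℝ) ^ (3 * c0) :=
          mul_le_mul_of_nonneg_right h3 (by positivity)
      _ = (T : ℝ) ^ (s + 3 * c0) := (pow_add _ _ _).symm
  have hN1 : 1 ≤ T ^ (s + 3 * c0) := Nat.one_le_pow _ _ (by omega)
  have hNk : 2 * k ≤ T ^ (s + 3 * c0) := by omega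
  -- for large `n`, the error is smaller than the main term
  have hlt : ∀ n : ℕ, T ^ (s + 3 * c0) ≤ n →
      |(D.x n : ℝ) - b.re * ((n.choose k : ℝ) * ρ ^ n)| <
        |b.re| * ((n.choose k : ℝ) * ρ ^ n) := by
    intro n hn
    have h1 := hre n (by omega) (by omega)
    have h2 := hchpos n (by omega)
    have h3 : K * (T : ℝ) ^ c0 < (n : ℝ) + 1 := by
      have : ((T ^ (s + 3 * c0) : ℕ) : ℝ) ≤ (n : ℝ) := by exact_mod_cast hn
      linarith
    have hTc : (0 : ℝ) < (T : ℝ) ^ c0 := by positivity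
    have h4 : K < |b.re| * ((n : ℝ) + 1) := by
      have h5 : K * (T : ℝ) ^ c0 < (T : ℝ) ^ c0 * |b.re| * ((n : ℝ) + 1) := by
        refine lt_of_lt_of_le h3 ?_
        have : (0 : ℝ) ≤ (n : ℝ) + 1 := by positivity
        nlinarith
      by_contra h6
      push Not at h6
      have h7 := mul_le_mul_of_nonneg_right h6 hTc.le
      nlinarith
    have h8 : |(D.x n : ℝ) - b.re * ((n.choose k : ℝ) * ρ ^ n)| * ((n : ℝ) + 1) <
        (|b.re| * ((n.choose k : ℝ) * ρ ^ n)) * ((n : ℝ) + 1) := by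
      refine lt_of_le_of_lt h1 ?_
      have := mul_lt_mul_of_pos_right h4 h2
      refine lt_of_lt_of_eq this (by ring)
    exact lt_of_mul_lt_mul_right h8 (by positivity)
  have hbpos : 0 < b.re := by
    by_contra hneg
    push Not at hneg
    have h1 := hlt _ (le_refl _)
    have h2 := hpos _ (le_refl _)
    have h3 : (0 : ℝ) ≤ (D.x (T ^ (s + 3 * c0)) : ℝ) := by exact_mod_cast h2
    rw [abs_of_nonpos hneg] at h1
    have h4 := (abs_lt.1 h1).2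
    linarith
  intro n
  rcases Nat.lt_or_ge n (T ^ (s + 3 * c0)) with hn | hn
  · exact hpos n hn.le
  · have h1 := hlt n hn
    rw [abs_of_pos hbpos] at h1
    have h4 := (abs_lt.1 h1).1
    have h5 : (0 : ℝ) < (D.x n : ℝ) := by linarith
    exact_mod_cast h5.le

end Pool.Agent.Helper73.DM
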