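import Pool.Agent.Helper73.DM.Eig

/-!
# DM-10: block decomposition of the characteristic polynomial

* `cp_univ`: reindexing along `Finset.univ ≃ ι` (`Matrix.charpoly_reindex`).
* `cp_mul`: with the predicate `fun i : T => (i : ι) ∈ U` the matrix `cm (sub M T)` has the blocks: rows in `U`, columns not in `U`: zero. `Matrix.twoBlockTriangular_det'` for the characteristic matrix
  (or `Matrix.fromBlocks` after reindexing `T ≃ U ⊕ (T \ U)`, `Matrix.charpoly_fromBlocks_zero₁₂` / `₂₁`, `Matrix.charpoly_reindex`).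
* `exists_block`: strong induction on `T0.card`. `T0` is nonempty (`cp M ∅ = 1` has no roots). If `sub M T0` is irreducible take `T = T0` (`T0 \ T0 = ∅`, `cp M ∅ = 1`). Otherwise there is `U ⊆ T0`, nonempty, `≠ T0`,
  with `M i j = 0` for `i ∈ U`, `j ∈ T0 \ U` (translate `Irr (sub M T0)`: finsets of the subtype map to subsets of `T0`). `cp M T0 = cp M U * cp M (T0 \ U)` and `z` is a root of one factor.
  (a) `z` root of `cp M U`: induction gives `T ⊆ U`, `cp M U = cp M T * cp M (U \ T)`; and `cp M (T0 \ T) = cp M (U \ T) * cp M (T0 \ U)` by `cp_mul` for `U \ T ⊆ T0 \ T` (rows in `U \ T`, columns in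
  `(T0 \ T) \ (U \ T) = T0 \ U`: zero). (b) `z` root of `cp M (T0 \ U)`: induction gives `T ⊆ T0 \ U`, `cp M (T0 \ U) = cp M T * cp M ((T0 \ U) \ T)`; and
  `cp M (T0 \ T) = cp M U * cp M ((T0 \ U) \ T)` by `cp_mul` for `U ⊆ T0 \ T`.
-/

set_option autoImplicit false

open Polynomial

namespace Pool.Agent.Helper73.DM

theorem cp_univ {ι : Type*} [Fintype ι] [DecidableEq ι] (M : Matrix ι ι ℝ) :
    cp M Finset.univ = (cm M).charpoly := by
  let e : {x // x ∈ (Finset.univ : Finset ι)} ≃ ι :=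
    Equiv.subtypeUnivEquiv (fun i => Finset.mem_univ i)
  have h : cm (sub M Finset.univ) = Matrix.reindex e.symm e.symm (cm M) := rfl
  unfold cp
  rw [h, Matrix.charpoly_reindex]

private def blkEquiv {ι : Type*} [DecidableEq ι] (T U : Finset ι) (hU : U ⊆ T) :
    {x // x ∈ U} ⊕ {x // x ∈ T \ U} ≃ {x // x ∈ T} where
  toFun := Sum.elim (fun i => ⟨i, hU i.2⟩) (fun i => ⟨i, (Finset.mem_sdiff.1 i.2).1⟩)
  invFun := fun i => if h : (i : ι) ∈ U then Sum.inl ⟨i, h⟩
    else Sum.inr ⟨i, Finset.mem_sdiff.2 ⟨i.2, h⟩⟩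
  left_inv := by
    rintro (i | i)
    · simp
    · have := (Finset.mem_sdiff.1 i.2).2
      simp [this]
  right_inv := by
    intro i
    by_cases h : (i : ι) ∈ U
    · simp [h]
    · simp [h]

theorem cp_mul {ι : Type*} [DecidableEq ι] (M : Matrix ι ι ℝ) (T U : Finset ι) (hU : U ⊆ T)
    (h : ∀ i ∈ U, ∀ j ∈ T, j ∉ U → M i j = 0) : cp M T = cp M U * cp M (T \ U) := by
  let e := blkEquiv T U hU
  have h1 : Matrix.reindex e.symm e.symm (cm (sub M T)) =
      Matrix.fromBlocks (cm (sub M U)) 0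
        (Matrix.of fun (i : {x // x ∈ T \ U}) (j : {x // x ∈ U}) => ((M i j : ℝ) : ℂ))
        (cm (sub M (T \ U))) := by
    ext (i | i) (j | j)
    · rfl
    · have hj := Finset.mem_sdiff.1 j.2
      change ((M i j : ℝ) : ℂ) = 0
      rw [h i i.2 j hj.1 hj.2, Complex.ofReal_zero]
    · rfl
    · rfl
  unfold cp
  rw [← Matrix.charpoly_reindex e.symm (cm (sub M T)), h1, Matrix.charpoly_fromBlocks_zero₁₂]

private theorem cp_empty {ι : Type*} [DecidableEq ι] (M : Matrix ι ι ℝ) : cp M ∅ = 1 := by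
  unfold cp Matrix.charpoly
  have : IsEmpty {x // x ∈ (∅ : Finset ι)} := ⟨fun x => absurd x.2 (Finset.notMem_empty _)⟩
  exact Matrix.det_isEmpty

private theorem cp_ne {ι : Type*} [DecidableEq ι] (M : Matrix ι ι ℝ) (T : Finset ι) :
    cp M T ≠ 0 := (Matrix.charpoly_monic _).ne_zero

theorem exists_block {ι : Type*} [DecidableEq ι] (M : Matrix ι ι ℝ) (T0 : Finset ι) (z : ℂ)
    (hz : z ∈ (cp M T0).roots) :
    ∃ T ⊆ T0, Irr (sub M T) ∧ z ∈ (cp M T).roots ∧ cp M T0 = cp M T * cp M (T0 \ T) := by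
  induction hn : T0.card using Nat.strong_induction_on generalizing T0 with
  | _ n ih =>
    by_cases hI : Irr (sub M T0)
    · exact ⟨T0, subset_rfl, hI, hz, by rw [Finset.sdiff_self, cp_empty, mul_one]⟩
    have hne : Nonempty {x // x ∈ T0} := by
      by_contra hcon
      have h0 : T0 = ∅ := by
        by_contra h1
        obtain ⟨x, hx⟩ := Finset.nonempty_iff_ne_empty.2 h1
        exact hcon ⟨⟨x, hx⟩⟩
      rw [h0, cp_empty, Polynomial.roots_one] at hz
      exact Multiset.notMem_zero _ hz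
    have hex : ∃ U : Finset {x // x ∈ T0}, U.Nonempty ∧
        (∀ i ∈ U, ∀ j, j ∉ U → sub M T0 i j = 0) ∧ U ≠ Finset.univ := by
      by_contra hcon
      refine hI ⟨hne, fun U hU hU0 => ?_⟩
      by_contra h1
      exact hcon ⟨U, hU, hU0, h1⟩
    obtain ⟨V, hV, hV0, hV1⟩ := hex
    set U : Finset ι := V.map (Function.Embedding.subtype _) with hUdef
    have memU : ∀ x : ι, x ∈ U ↔ ∃ hx : x ∈ T0, (⟨x, hx⟩ : {x // x ∈ T0}) ∈ V := by
      intro x
      rw [hUdef, Finset.mem_map]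
      constructor
      · rintro ⟨a, ha, rfl⟩
        exact ⟨a.2, ha⟩
      · rintro ⟨hx, h1⟩
        exact ⟨⟨x, hx⟩, h1, rfl⟩
    have hUT : U ⊆ T0 := fun x hx => ((memU x).1 hx).1
    have hUne : U.Nonempty := hV.map
    have hUT' : U ≠ T0 := by
      intro h1
      apply hV1
      rw [Finset.eq_univ_iff_forall]
      intro x
      have h2 : (x : ι) ∈ U := by rw [h1]; exact x.2
      exact ((memU x).1 h2).2
    have hzero : ∀ i ∈ U, ∀ j ∈ T0, j ∉ U → M i j = 0 := by
      intro i hi j hj hjU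
      obtain ⟨hi0, hi1⟩ := (memU i).1 hi
      exact hV0 ⟨i, hi0⟩ hi1 ⟨j, hj⟩ (fun h1 => hjU ((memU j).2 ⟨hj, h1⟩))
    have hfac := cp_mul M T0 U hUT hzero
    have hcard1 : U.card < n := by
      rw [← hn]
      exact Finset.card_lt_card (Finset.ssubset_iff_subset_ne.2 ⟨hUT, hUT'⟩)
    have hcard2 : (T0 \ U).card < n := by
      have h1 := Finset.card_sdiff_add_card_eq_card hUT
      have h2 := hUne.card_pos
      omega
    have hmem : z ∈ (cp M U).roots ∨ z ∈ (cp M (T0 \ U)).roots := by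
      rw [hfac, Polynomial.roots_mul (mul_ne_zero (cp_ne M U) (cp_ne M (T0 \ U))),
        Multiset.mem_add] at hz
      exact hz
    rcases hmem with hz1 | hz1
    · obtain ⟨T, hT, hirr, hzT, hprod⟩ := ih _ hcard1 U hz1 rfl
      refine ⟨T, hT.trans hUT, hirr, hzT, ?_⟩
      have hsub : U \ T ⊆ T0 \ T := Finset.sdiff_subset_sdiff hUT subset_rfl
      have h1 := cp_mul M (T0 \ T) (U \ T) hsub (by
        intro i hi j hj hjU
        have hi1 := (Finset.mem_sdiff.1 hi).1
        have hj1 := Finset.mem_sdiff.1 hj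
        exact hzero i hi1 j hj1.1 (fun h2 => hjU (Finset.mem_sdiff.2 ⟨h2, hj1.2⟩)))
      have h2 : (T0 \ T) \ (U \ T) = T0 \ U := by
        ext x
        simp only [Finset.mem_sdiff]
        constructor
        · rintro ⟨⟨h3, h4⟩, h5⟩
          exact ⟨h3, fun h6 => h5 ⟨h6, h4⟩⟩
        · rintro ⟨h3, h4⟩
          exact ⟨⟨h3, fun h5 => h4 (hT h5)⟩, fun h5 => h4 h5.1⟩
      rw [h2] at h1
      rw [hfac, hprod, h1, mul_assoc]
    · obtain ⟨T, hT, hirr, hzT, hprod⟩ := ih _ hcard2 (T0 \ U) hz1 rfl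
      refine ⟨T, hT.trans Finset.sdiff_subset, hirr, hzT, ?_⟩
      have hsub : U ⊆ T0 \ T := by
        intro x hx
        exact Finset.mem_sdiff.2 ⟨hUT hx, fun h3 => (Finset.mem_sdiff.1 (hT h3)).2 hx⟩
      have h1 := cp_mul M (T0 \ T) U hsub (by
        intro i hi j hj hjU
        exact hzero i hi j (Finset.mem_sdiff.1 hj).1 hjU)
      have h2 : (T0 \ T) \ U = (T0 \ U) \ T := by
        ext x
        simp only [Finset.mem_sdiff]
        tauto
      rw [h2] at h1
      rw [hfac, hprod, h1]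
      ring

end Pool.Agent.Helper73.DM
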