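import Pool.Agent.Helper73.DM.IntAnn

/-!
# DM-31: the matrix core of the converse

`k = 0`: `lrs = 0`, take `N = 0`, `η = 1`, `s = 0`, `c = 1`. Let `k ≥ 1`, `y n = 2^n lrs a u n`, `A` the `k × k` companion matrix with `A v_n = v_(n+1)`, `v_n = (y n, ..., y (n+k-1))`: rows `e_(i+1)` for `i + 1 < k`, last row `(2^(k-i) a_i)_i`. `D = det (A - 1) ≠ 0`: modulo 2 the last row of `A`
is zero (all `2^(k-i)`, `i < k`, are even), so `A - 1` is upper triangular with diagonal `-1` modulo 2, `D` is odd (`Matrix.det_of_upperTriangular` over `ZMod 2`, `RingHom.map_det`). `q : ℤ^(k+1) → ℤ^k`, `q(z)_i = z_(i+1) - z_0`. `B : ℤ^(k+1) → ℤ^(k+1)`, `(B z)_0 = 0`,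
`(B z)_(i+1) = (A q(z))_i`; `N = B + W J`, `J` all ones, `W ∈ ℕ` so large that all entries are `≥ 0` (take the natural number matrix with these entries). `q (N z) = A q(z)`. `ℓ = sgn(D) * (row 0 of adjugate (A - 1))`: `ℓ (A - 1) = |D| e_0`.
`s z := ℓ · q(z)`, i.e. `s = (- ∑ ℓ_i, ℓ_0, ..., ℓ_(k-1))`. `η = (τ, τ + y 0, ..., τ + y (k-1))`, `τ` so large that `η ≥ 1` and `η i ≥ ∑_j N i j` (natural numbers): `q(η) = v_0`. Then
`s · N^(n+1) η - s · N^n η = ℓ (A^(n+1) - A^n) v_0 = ℓ (A - 1) v_n = |D| y n`. `c = |D|`.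
-/

set_option autoImplicit false

namespace Pool.Agent.Helper73.DM

private theorem core_lrs_rec {k : ℕ} (a u : Fin k → ℤ) (n : ℕ) :
    lrs a u (n + k) = ∑ i : Fin k, a i * lrs a u (n + i) := by
  conv_lhs => rw [lrs]
  rw [dif_neg (by omega)]
  apply Finset.sum_congr rfl
  intro i _
  rw [Nat.add_sub_cancel]

/-- the scaled sequence -/
private def cy {k : ℕ} (a u : Fin k → ℤ) (n : ℕ) : ℤ := 2 ^ n * lrs a u n

/-- the companion matrix -/
private def cA (m : ℕ) (a : Fin (m + 1) → ℤ) : Matrix (Fin (m + 1)) (Fin (m + 1)) ℤ :=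
  fun i j => if (i : ℕ) < m then (if (j : ℕ) = i + 1 then 1 else 0) else 2 ^ (m + 1 - (j : ℕ)) * a j

private theorem core_step (m : ℕ) (a u : Fin (m + 1) → ℤ) (n : ℕ) :
    (cA m a).mulVec (fun i : Fin (m + 1) => cy a u (n + i)) =
      fun i : Fin (m + 1) => cy a u (n + 1 + i) := by
  funext i
  unfold Matrix.mulVec dotProduct cA
  by_cases hi : (i : ℕ) < m
  · simp only [hi, if_true]
    rw [Finset.sum_eq_single (⟨(i : ℕ) + 1, by omega⟩ : Fin (m + 1))]
    · simp only [if_true, one_mul]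
      congr 1
      omega
    · intro j _ hj
      rw [if_neg, zero_mul]
      intro h
      exact hj (Fin.ext h)
    · intro h
      exact absurd (Finset.mem_univ _) h
  · simp only [hi, if_false]
    have him : (i : ℕ) = m := by omega
    rw [him]
    unfold cy
    have e1 : n + 1 + m = n + (m + 1) := by omega
    rw [e1, core_lrs_rec, Finset.mul_sum]
    apply Finset.sum_congr rfl
    intro j _
    have e2 : n + (m + 1) = (m + 1 - (j : ℕ)) + (n + j) := by omega
    rw [e2, pow_add]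
    ring

private theorem core_det (m : ℕ) (a : Fin (m + 1) → ℤ) : (cA m a - 1).det ≠ 0 := by
  intro h0
  have h1 : ((Int.castRingHom (ZMod 2)).mapMatrix (cA m a - 1)).det = 0 := by
    rw [← RingHom.map_det, h0, map_zero]
  have h2 : ∀ i j : Fin (m + 1), (Int.castRingHom (ZMod 2)).mapMatrix (cA m a - 1) i j =
      (if (i : ℕ) < m ∧ (j : ℕ) = i + 1 then 1 else 0) - (if i = j then 1 else 0) := by
    intro i j
    rw [RingHom.mapMatrix_apply, Matrix.map_apply, Matrix.sub_apply, map_sub]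
    refine congrArg₂ (· - ·) ?_ ?_
    · unfold cA
      by_cases hi : (i : ℕ) < m
      · by_cases hj : (j : ℕ) = i + 1
        · simp [hi, hj]
        · simp [hi, hj]
      · simp only [hi, if_false, false_and]
        have hj : m + 1 - (j : ℕ) = (m - j) + 1 := by
          have := j.2
          omega
        rw [hj, pow_succ]
        simp only [eq_intCast, Int.cast_mul, Int.cast_pow, Int.cast_ofNat]
        have : (2 : ZMod 2) = 0 := by decide
        rw [this]
        ring
    · rw [Matrix.one_apply]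
      split_ifs <;> simp
  rw [Matrix.det_of_isUpperTriangular] at h1
  · have h3 : ∀ i, (Int.castRingHom (ZMod 2)).mapMatrix (cA m a - 1) i i = 1 := by
      intro i
      rw [h2]
      have : ¬ ((i : ℕ) < m ∧ (i : ℕ) = i + 1) := by omega
      rw [if_neg this, if_pos rfl]
      decide
    rw [Finset.prod_congr rfl (fun i _ => h3 i), Finset.prod_const_one] at h1
    exact one_ne_zero h1
  · intro i j hij
    rw [h2]
    have hij' : (j : ℕ) < (i : ℕ) := hij
    have h4 : ¬ ((i : ℕ) < m ∧ (j : ℕ) = i + 1) := by omega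
    have h5 : ¬ (i = j) := by
      intro h
      rw [h] at hij'
      omega
    rw [if_neg h4, if_neg h5, sub_zero]

private theorem core_row (m : ℕ) (a : Fin (m + 1) → ℤ) :
    ∃ (l : Fin (m + 1) → ℤ) (c : ℤ), 0 < c ∧ ∀ v : Fin (m + 1) → ℤ,
      l ⬝ᵥ ((cA m a).mulVec v - v) = c * v 0 := by
  refine ⟨fun j => (cA m a - 1).det.sign * (cA m a - 1).adjugate 0 j, |(cA m a - 1).det|,
    abs_pos.2 (core_det m a), fun v => ?_⟩
  have h1 : (cA m a).mulVec v - v = (cA m a - 1).mulVec v := by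
    rw [Matrix.sub_mulVec, Matrix.one_mulVec]
  rw [h1]
  have h2 : (cA m a - 1).adjugate.mulVec ((cA m a - 1).mulVec v) = (cA m a - 1).det • v := by
    rw [Matrix.mulVec_mulVec, Matrix.adjugate_mul, Matrix.smul_mulVec, Matrix.one_mulVec]
  have h3 := congrFun h2 0
  rw [Pi.smul_apply, smul_eq_mul] at h3
  unfold Matrix.mulVec at h3
  have h4 : (fun j => (cA m a - 1).det.sign * (cA m a - 1).adjugate 0 j) ⬝ᵥ
      ((cA m a - 1).mulVec v) = (cA m a - 1).det.sign *
        ((fun j => (cA m a - 1).adjugate 0 j) ⬝ᵥ ((cA m a - 1).mulVec v)) := by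
    unfold dotProduct
    rw [Finset.mul_sum]
    apply Finset.sum_congr rfl
    intro j _
    ring
  rw [h4]
  have h5 : ((fun j => (cA m a - 1).adjugate 0 j) ⬝ᵥ ((cA m a - 1).mulVec v)) =
      (cA m a - 1).det * v 0 := h3
  rw [h5, ← mul_assoc, Int.sign_mul_self_eq_abs]

/-- the matrix with `(B z)_0 = 0`, `(B z)_(i+1) = (A q(z))_i` -/
private def cB {k : ℕ} (A : Matrix (Fin k) (Fin k) ℤ) : Matrix (Fin (k + 1)) (Fin (k + 1)) ℤ :=
  fun i j => Fin.cases 0 (fun i' => Fin.cases (- ∑ j', A i' j') (fun j' => A i' j') j) i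

private theorem core_nat {k : ℕ} (A : Matrix (Fin k) (Fin k) ℤ) :
    ∃ N : Matrix (Fin (k + 1)) (Fin (k + 1)) ℕ, ∀ (z : Fin (k + 1) → ℤ) (i : Fin k),
      (N.map (Nat.cast : ℕ → ℤ)).mulVec z i.succ - (N.map (Nat.cast : ℕ → ℤ)).mulVec z 0 =
        A.mulVec (fun i => z i.succ - z 0) i := by
  set W : ℤ := ∑ i, ∑ j, |cB A i j| with hW
  have hWle : ∀ i j, 0 ≤ cB A i j + W := by
    intro i j
    have h1 : |cB A i j| ≤ W := by
      rw [hW]
      refine le_trans ?_ (Finset.single_le_sum (f := fun i => ∑ j, |cB A i j|)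
        (fun i _ => Finset.sum_nonneg fun j _ => abs_nonneg _) (Finset.mem_univ i))
      exact Finset.single_le_sum (f := fun j => |cB A i j|) (fun j _ => abs_nonneg _)
        (Finset.mem_univ j)
    have h2 := neg_abs_le (cB A i j)
    linarith
  refine ⟨fun i j => (cB A i j + W).toNat, fun z i => ?_⟩
  have h3 : ∀ i, ((Matrix.map (fun i j => (cB A i j + W).toNat : Matrix (Fin (k + 1)) (Fin (k + 1)) ℕ)
      (Nat.cast : ℕ → ℤ))).mulVec z i = ∑ j, cB A i j * z j + W * ∑ j, z j := by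
    intro i
    unfold Matrix.mulVec dotProduct
    rw [Finset.mul_sum, ← Finset.sum_add_distrib]
    apply Finset.sum_congr rfl
    intro j _
    have h : (((cB A i j + W).toNat : ℕ) : ℤ) = cB A i j + W := Int.toNat_of_nonneg (hWle i j)
    show (((cB A i j + W).toNat : ℕ) : ℤ) * z j = cB A i j * z j + W * z j
    rw [h]
    ring
  rw [h3, h3]
  have h4 : ∑ j, cB A 0 j * z j = 0 := by
    apply Finset.sum_eq_zero
    intro j _
    show (0 : ℤ) * z j = 0
    ring
  have h5 : ∑ j, cB A i.succ j * z j = A.mulVec (fun i => z i.succ - z 0) i := by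
    rw [Fin.sum_univ_succ]
    unfold Matrix.mulVec dotProduct
    have h6 : cB A i.succ 0 = - ∑ j', A i j' := rfl
    have h7 : ∑ j : Fin k, cB A i.succ (Fin.succ j) * z (Fin.succ j) =
        ∑ j : Fin k, A i j * z (Fin.succ j) := Finset.sum_congr rfl (fun j _ => rfl)
    rw [h6, h7]
    simp only [mul_sub, Finset.sum_sub_distrib, ← Finset.sum_mul]
    ring
  rw [h4, h5]
  ring

theorem core (k : ℕ) (a u : Fin k → ℤ) :
    ∃ (N : Matrix (Fin (k + 1)) (Fin (k + 1)) ℕ) (η : Fin (k + 1) → ℕ) (s : Fin (k + 1) → ℤ)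
      (c : ℤ), 0 < c ∧ (∀ i, ∑ j, N i j ≤ η i) ∧ (∀ i, 1 ≤ η i) ∧
      ∀ n : ℕ, s ⬝ᵥ ((N.map (Nat.cast : ℕ → ℤ)) ^ (n + 1)).mulVec (fun i => (η i : ℤ)) -
        s ⬝ᵥ ((N.map (Nat.cast : ℕ → ℤ)) ^ n).mulVec (fun i => (η i : ℤ)) =
          c * 2 ^ n * lrs a u n := by
  rcases k with _ | m
  · refine ⟨0, fun _ => 1, 0, 1, one_pos, ?_, ?_, ?_⟩
    · intro i
      simp
    · intro i
      exact le_rfl
    · intro n
      have h1 : lrs a u n = 0 := by
        rw [lrs, dif_neg (by omega)]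
        simp
      rw [h1]
      simp
  obtain ⟨l, c, hc, hl⟩ := core_row m a
  obtain ⟨N, hN⟩ := core_nat (cA m a)
  set τ : ℕ := 1 + ∑ i, ∑ j, N i j + ∑ i : Fin (m + 1), (cy a u i).natAbs with hτ
  have hτy : ∀ i : Fin (m + 1), 1 + ∑ i, ∑ j, N i j ≤ (τ + cy a u i).toNat := by
    intro i
    have h1 : (cy a u i).natAbs ≤ ∑ i : Fin (m + 1), (cy a u i).natAbs :=
      Finset.single_le_sum (f := fun i : Fin (m + 1) => (cy a u i).natAbs)
        (fun _ _ => Nat.zero_le _) (Finset.mem_univ i)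
    omega
  have hNs : ∀ i, ∑ j, N i j ≤ ∑ i, ∑ j, N i j := fun i =>
    Finset.single_le_sum (f := fun i => ∑ j, N i j) (fun _ _ => Nat.zero_le _) (Finset.mem_univ i)
  set η : Fin (m + 1 + 1) → ℕ := fun i => Fin.cases τ (fun i' => (τ + cy a u i').toNat) i with hη
  have hη0 : η 0 = τ := rfl
  have hηs : ∀ i : Fin (m + 1), η i.succ = (τ + cy a u i).toNat := fun i => rfl
  have hηge : ∀ i, 1 + ∑ i, ∑ j, N i j ≤ η i := by
    intro i
    refine Fin.cases ?_ (fun i' => ?_) i
    · rw [hη0]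
      omega
    · rw [hηs]
      exact hτy i'
  refine ⟨N, η, fun i => Fin.cases (- ∑ j, l j) (fun i' => l i') i, c, hc, ?_, ?_, ?_⟩
  · intro i
    have h1 := hηge i
    have h2 := hNs i
    omega
  · intro i
    have h1 := hηge i
    omega
  · intro n
    have hs : ∀ z : Fin (m + 1 + 1) → ℤ,
        (fun i => Fin.cases (motive := fun _ => ℤ) (- ∑ j, l j) (fun i' => l i') i) ⬝ᵥ z =
          l ⬝ᵥ (fun i => z i.succ - z 0) := by
      intro z
      unfold dotProduct
      rw [Fin.sum_univ_succ]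
      simp only [Fin.cases_zero, Fin.cases_succ, mul_sub, Finset.sum_sub_distrib, ← Finset.sum_mul]
      ring
    have hq : ∀ n : ℕ, (fun i : Fin (m + 1) =>
        ((N.map (Nat.cast : ℕ → ℤ)) ^ n).mulVec (fun i => (η i : ℤ)) i.succ -
          ((N.map (Nat.cast : ℕ → ℤ)) ^ n).mulVec (fun i => (η i : ℤ)) 0) =
            fun i : Fin (m + 1) => cy a u (n + i) := by
      intro n
      induction n with
      | zero =>
        funext i
        rw [pow_zero, Matrix.one_mulVec, zero_add]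
        have h1 := hτy i
        have h2 : ((η i.succ : ℕ) : ℤ) = τ + cy a u i := by
          rw [hηs]
          apply Int.toNat_of_nonneg
          omega
        rw [h2, hη0]
        ring
      | succ n ih =>
        have h1 : ((N.map (Nat.cast : ℕ → ℤ)) ^ (n + 1)).mulVec (fun i => (η i : ℤ)) =
            (N.map (Nat.cast : ℕ → ℤ)).mulVec
              (((N.map (Nat.cast : ℕ → ℤ)) ^ n).mulVec (fun i => (η i : ℤ))) := by
          rw [Matrix.mulVec_mulVec, ← pow_succ']
        rw [h1]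
        have h2 : (fun i : Fin (m + 1) => (N.map (Nat.cast : ℕ → ℤ)).mulVec
              (((N.map (Nat.cast : ℕ → ℤ)) ^ n).mulVec (fun i => (η i : ℤ))) i.succ -
            (N.map (Nat.cast : ℕ → ℤ)).mulVec
              (((N.map (Nat.cast : ℕ → ℤ)) ^ n).mulVec (fun i => (η i : ℤ))) 0) =
            (cA m a).mulVec (fun i : Fin (m + 1) => cy a u (n + i)) := by
          rw [← ih]
          funext i
          exact hN _ i
        rw [h2, core_step]
    rw [hs, hs, hq, hq]
    have h3 := hl (fun i : Fin (m + 1) => cy a u (n + i))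
    rw [core_step] at h3
    have h4 : l ⬝ᵥ (fun i : Fin (m + 1) => cy a u (n + 1 + i)) -
        l ⬝ᵥ (fun i : Fin (m + 1) => cy a u (n + i)) =
        l ⬝ᵥ ((fun i : Fin (m + 1) => cy a u (n + 1 + i)) - fun i : Fin (m + 1) => cy a u (n + i)) := by
      rw [dotProduct_sub]
    rw [h4, h3]
    unfold cy
    simp only [Fin.val_zero, add_zero]
    ring

end Pool.Agent.Helper73.DM
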