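import Pool.Agent.Helper73.DM.Phase

/-!
# DM-09: peripheral eigenvalues of irreducible nonnegative matrices: cyclicity and symmetry

* `irr_root_pow`. By `irr_phase` choose `s : ι → ι` with `M i (s i) ≠ 0`. Start at some `i0` (`ι` is nonempty by `hI`): the `card ι + 1` elements `s^[a] i0`, `a ≤ card ι`, are not
  distinct: `s^[a] i0 = s^[b] i0`, `a < b ≤ card ι`. `φ (s^[n] i) = (z/ρ)^n φ i`, so `(z/ρ)^(b-a) = 1` (`φ ≠ 0`), and `b - a` divides `(card ι)!`.
* `irr_sym`. Apply `irr_phase` with `z = -ρ`: `φ j = - φ i` whenever `M i j ≠ 0`. If `N v = w v`, `v ≠ 0`, put `v' i = φ i v i ≠ 0`: `(N v') i = ∑_j M i j φ j v j = - φ i ∑_j M i j v j = - w v' i`. (`eig_iff`)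
-/

set_option autoImplicit false

open Polynomial

namespace Pool.Agent.Helper73.DM

theorem irr_root_pow {ι : Type*} [Fintype ι] [DecidableEq ι] (M : Matrix ι ι ℝ)
    (hM : ∀ i j, 0 ≤ M i j) (hI : Irr M) (ρ : ℝ) (hρ : 0 < ρ)
    (hle : ∀ z ∈ (cm M).charpoly.roots, ‖z‖ ≤ ρ) (z : ℂ) (hz : ‖z‖ = ρ)
    (hz0 : z ∈ (cm M).charpoly.roots) :
    z ^ (Fintype.card ι).factorial = (ρ : ℂ) ^ (Fintype.card ι).factorial := by
  classical
  obtain ⟨⟨φ, hφ1, hφ⟩, hex, -⟩ := irr_phase M hM hI ρ hρ hle z hz hz0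
  choose s hs using hex
  have hρ0 : (ρ : ℂ) ≠ 0 := by exact_mod_cast hρ.ne'
  obtain ⟨i0⟩ := hI.1
  have hit : ∀ (n : ℕ) (i : ι), φ (s^[n] i) = (z / ρ) ^ n * φ i := by
    intro n
    induction n with
    | zero => intro i; simp
    | succ n ih =>
      intro i
      rw [Function.iterate_succ_apply', hφ _ _ (hs (s^[n] i)), ih i, pow_succ]
      ring
  obtain ⟨a, b, hab, hEq⟩ : ∃ a b : Fin (Fintype.card ι + 1), a ≠ b ∧ s^[(a : ℕ)] i0 = s^[(b : ℕ)] i0 := by
    have h1 : Fintype.card ι < Fintype.card (Fin (Fintype.card ι + 1)) := by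
      rw [Fintype.card_fin]
      omega
    obtain ⟨a, b, h2, h3⟩ := Fintype.exists_ne_map_eq_of_card_lt
      (fun a : Fin (Fintype.card ι + 1) => s^[(a : ℕ)] i0) h1
    exact ⟨a, b, h2, h3⟩
  -- key statement for `a < b`
  have key : ∀ a b : ℕ, a < b → b ≤ Fintype.card ι → s^[a] i0 = s^[b] i0 →
      (z / ρ) ^ (Fintype.card ι).factorial = 1 := by
    intro a b hab hb h
    have h1 : φ (s^[a] i0) = φ (s^[b] i0) := by rw [h]
    rw [hit, hit] at h1
    have hφ0 : φ i0 ≠ 0 := by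
      intro h0
      have := hφ1 i0
      rw [h0, norm_zero] at this
      exact zero_ne_one this
    have h2 : (z / ρ) ^ a = (z / ρ) ^ b := mul_right_cancel₀ hφ0 h1
    have hz1 : z / (ρ : ℂ) ≠ 0 := by
      apply div_ne_zero _ hρ0
      intro h0
      rw [h0, norm_zero] at hz
      exact hρ.ne hz
    have h3 : (z / ρ) ^ (b - a) = 1 := by
      have h4 : (z / (ρ : ℂ)) ^ b = (z / ρ) ^ (b - a) * (z / ρ) ^ a := by
        rw [← pow_add]
        congr 1
        omega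
      rw [h4] at h2
      have h5 : 1 * (z / (ρ : ℂ)) ^ a = (z / ρ) ^ (b - a) * (z / ρ) ^ a := by
        rw [one_mul]
        exact h2
      exact (mul_right_cancel₀ (pow_ne_zero a hz1) h5).symm
    have h4 : (b - a) ∣ (Fintype.card ι).factorial :=
      Nat.dvd_factorial (by omega) (by omega)
    obtain ⟨c, hc⟩ := h4
    rw [hc, pow_mul, h3, one_pow]
  have hfin : (z / ρ) ^ (Fintype.card ι).factorial = 1 := by
    have ha := a.isLt
    have hb := b.isLt
    have hne : (a : ℕ) ≠ b := fun h => hab (Fin.ext h)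
    rcases Nat.lt_or_gt_of_ne hne with h | h
    · exact key a b h (by omega) hEq
    · exact key b a h (by omega) hEq.symm
  rw [div_pow, div_eq_one_iff_eq (pow_ne_zero _ hρ0)] at hfin
  exact hfin

theorem irr_sym {ι : Type*} [Fintype ι] [DecidableEq ι] (M : Matrix ι ι ℝ)
    (hM : ∀ i j, 0 ≤ M i j) (hI : Irr M) (ρ : ℝ) (hρ : 0 < ρ)
    (hle : ∀ z ∈ (cm M).charpoly.roots, ‖z‖ ≤ ρ) (h : (-(ρ : ℂ)) ∈ (cm M).charpoly.roots)
    (w : ℂ) (hw : w ∈ (cm M).charpoly.roots) : -w ∈ (cm M).charpoly.roots := by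
  classical
  have hnorm : ‖(-(ρ : ℂ))‖ = ρ := by
    rw [norm_neg, Complex.norm_real, Real.norm_eq_abs, abs_of_pos hρ]
  obtain ⟨⟨φ, hφ1, hφ⟩, -, -⟩ := irr_phase M hM hI ρ hρ hle (-(ρ : ℂ)) hnorm h
  have hρ0 : (ρ : ℂ) ≠ 0 := by exact_mod_cast hρ.ne'
  have hφ' : ∀ i j, M i j ≠ 0 → φ j = - φ i := by
    intro i j hij
    rw [hφ i j hij, neg_div, div_self hρ0]
    ring
  obtain ⟨v, hv0, hv⟩ := (eig_iff (cm M) w).1 hw
  rw [eig_iff]
  refine ⟨fun i => φ i * v i, ?_, ?_⟩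
  · intro h0
    apply hv0
    funext i
    have h1 := congrFun h0 i
    simp only [Pi.zero_apply] at h1 ⊢
    rcases mul_eq_zero.1 h1 with h2 | h2
    · exfalso
      have := hφ1 i
      rw [h2, norm_zero] at this
      exact zero_ne_one this
    · exact h2
  · funext i
    have h1 := congrFun hv i
    rw [Pi.smul_apply, smul_eq_mul] at h1
    have h2 : (cm M).mulVec v i = ∑ j, (M i j : ℂ) * v j := rfl
    rw [h2] at h1
    have h3 : (cm M).mulVec (fun i => φ i * v i) i = ∑ j, (M i j : ℂ) * (φ j * v j) := rfl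
    rw [h3, Pi.smul_apply, smul_eq_mul]
    have h4 : ∀ j, (M i j : ℂ) * (φ j * v j) = -(φ i * ((M i j : ℂ) * v j)) := by
      intro j
      by_cases hij : M i j = 0
      · rw [hij]
        simp
      · rw [hφ' i j hij]
        ring
    rw [Finset.sum_congr rfl fun j _ => h4 j, Finset.sum_neg_distrib, ← Finset.mul_sum, h1]
    ring

end Pool.Agent.Helper73.DM
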