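import Mathlib

/-!
# Project DM (MP_0462fc_lc): monotonicity of D0L growth functions: definitions

* `grow p n` : length of the `n`-th word of the D0L system `p` (encoding of the frozen statement)
* `letters p`: the finite set of letters that occur in the system
* `Mono p`   : the growth function is monotonic
* `MonK s`   : systems in which at most `s` letters occur and whose growth function is monotonic
* `PosK k`   : integer linear recurrences of order `k` (coefficients, initial values) that are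
  nonnegative
-/

set_option autoImplicit false

open Polynomial

namespace Pool.Agent.Helper73.DM

/-- length of the `n`-th word of the D0L system `p = (words h(0), h(1), ..., axiom)` -/
def grow (p : List (List ℕ) × List ℕ) (n : ℕ) : ℕ :=
  ((fun w : List ℕ => w.flatMap (fun a => p.1.getD a []))^[n] p.2).length

/-- the letters that occur in the axiom or in one of the words `h(a)` -/
def letters (p : List (List ℕ) × List ℕ) : Finset ℕ := (p.1.flatten ++ p.2).toFinset

/-- the growth function is monotonic -/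
def Mono (p : List (List ℕ) × List ℕ) : Prop := ∀ n, grow p n ≤ grow p (n + 1)

/-- the D0L systems with at most `s` letters and monotonic growth function -/
def MonK (s : ℕ) (p : List (List ℕ) × List ℕ) : Prop := (letters p).card ≤ s ∧ Mono p

/-- the sequence `x` with `x i = u i` for `i < k` and `x (n + k) = ∑ i, a i * x (n + i)` -/
def lrs {k : ℕ} (a u : Fin k → ℤ) (n : ℕ) : ℤ :=
  if h : n < k then u ⟨n, h⟩ else ∑ i : Fin k, a i * lrs a u (n - k + i)
termination_by n
decreasing_by omega

/-- the integer linear recurrence sequences of order `k` that are nonnegative -/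
def PosK (k : ℕ) (q : (Fin k → ℤ) × (Fin k → ℤ)) : Prop := ∀ n, 0 ≤ lrs q.1 q.2 n

/-- the shift operator on sequences -/
def shift (R : Type*) [CommRing R] : (ℕ → R) →ₗ[R] (ℕ → R) := LinearMap.funLeft R R Nat.succ

/-- the action of a polynomial on a sequence: `(act A x) n = ∑ A_i x (n + i)` -/
noncomputable def act {R : Type*} [CommRing R] (A : R[X]) (x : ℕ → R) : ℕ → R :=
  (aeval (shift R) A) x

/-- the subsequence of differences: `u n = f (P (n+1) + r + 1) - f (P (n+1) + r)` -/
def dif (f : ℕ → ℂ) (P r : ℕ) (n : ℕ) : ℂ := f (P * (n + 1) + r + 1) - f (P * (n + 1) + r)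

/-- dominant positive root: `(X - ρ)^m ψ` kills `x`, all roots of `ψ` are smaller than `ρ` and
`ψ` does not kill `x` -/
def Dom (x : ℕ → ℂ) : Prop :=
  ∃ (ρ : ℝ) (m : ℕ) (ψ : ℂ[X]), 0 < ρ ∧ ψ.Monic ∧ (∀ z ∈ ψ.roots, ‖z‖ < ρ) ∧
    act ((X - C (ρ : ℂ)) ^ m * ψ) x = 0 ∧ act ψ x ≠ 0

/-- a real matrix as a complex matrix -/
def cm {ι : Type*} (M : Matrix ι ι ℝ) : Matrix ι ι ℂ := M.map (fun t : ℝ => (t : ℂ))

/-- the principal submatrix on `T` -/
def sub {ι : Type*} (M : Matrix ι ι ℝ) (T : Finset ι) : Matrix T T ℝ :=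
  M.submatrix (fun i : T => (i : ι)) (fun j : T => (j : ι))

/-- characteristic polynomial over `ℂ` of the principal submatrix on `T` -/
noncomputable def cp {ι : Type*} [DecidableEq ι] (M : Matrix ι ι ℝ) (T : Finset ι) : ℂ[X] :=
  (cm (sub M T)).charpoly

/-- irreducible square matrix: no proper nonempty `U` has `M i j = 0` for `i ∈ U`, `j ∉ U`
(a one by one matrix is irreducible) -/
def Irr {ι : Type*} [Fintype ι] (M : Matrix ι ι ℝ) : Prop :=
  Nonempty ι ∧ ∀ U : Finset ι, U.Nonempty → (∀ i ∈ U, ∀ j, j ∉ U → M i j = 0) → U = Finset.univ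

/-- the distinct nonzero roots -/
noncomputable def Zs (χ : ℂ[X]) : Finset ℂ := χ.roots.toFinset.erase 0

/-- largest multiplicity of a nonzero root `z` with `z ^ P = μ` -/
noncomputable def eM (χ : ℂ[X]) (P : ℕ) (μ : ℂ) : ℕ :=
  ((Zs χ).filter (fun z => z ^ P = μ)).sup (fun z => χ.roots.count z)

/-- number of nonzero roots with `z ^ P = μ`, with multiplicities -/
noncomputable def EM (χ : ℂ[X]) (P : ℕ) (μ : ℂ) : ℕ :=
  ∑ z ∈ (Zs χ).filter (fun z => z ^ P = μ), χ.roots.count z

/-- the distinct `P`-th powers of the nonzero roots -/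
noncomputable def Ms (χ : ℂ[X]) (P : ℕ) : Finset ℂ := (Zs χ).image (fun z => z ^ P)

/-- `∏ (X - μ)^(eM μ)` over `μ ∈ S` -/
noncomputable def Gp (χ : ℂ[X]) (P : ℕ) (S : Finset ℂ) : ℂ[X] :=
  ∏ μ ∈ S, (X - C μ) ^ eM χ P μ

/-- size of a D0L system -/
def sz (p : List (List ℕ) × List ℕ) : ℕ := p.1.flatten.length + p.2.length + 2

/-- integer version of `dif` for the growth function -/
def difZ (p : List (List ℕ) × List ℕ) (P r n : ℕ) : ℤ :=
  (grow p (P * (n + 1) + r + 1) : ℤ) - grow p (P * (n + 1) + r)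

/-- `v n / ρ^n = c n^m + O(n^(m-1))` with explicit constant `B` -/
def Est (v : ℕ → ℂ) (ρ : ℝ) (m : ℕ) (c : ℂ) (B : ℝ) : Prop :=
  ∀ n : ℕ, ‖v n / (ρ : ℂ) ^ n - c * (n : ℂ) ^ m‖ * (n + 1) ≤ B * (n + 1) ^ m

end Pool.Agent.Helper73.DM
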