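import Pool.Agent.Helper73.DM.Act

/-!
# Project DM, part B (positivity of integer recurrences of order at most five): definitions
-/

set_option autoImplicit false

open Polynomial

namespace Pool.Agent.Helper73.DM

/-- an integer sequence `x` killed by `χ`, with the roots `lam` of `χ`; `T` bounds the roots and the
first values -/
structure Dat (d T : ℕ) where
  χ : ℤ[X]
  lam : Fin d → ℂ
  x : ℕ → ℤ
  two_le : 2 ≤ T
  map_eq : χ.map (Int.castRingHom ℂ) = ∏ i, (X - C (lam i))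
  lam_le : ∀ i, ‖lam i‖ ≤ T
  kill : act χ x = 0
  x_le : ∀ n ≤ d, |x n| ≤ T

namespace Dat

variable {d T : ℕ} (D : Dat d T)

/-- the sequence as a complex sequence -/
def xc : ℕ → ℂ := fun n => ((D.x n : ℤ) : ℂ)

/-- `∏_{i ∈ J} (X - λ_i)` kills `x` and no proper part does -/
def IsMin (J : Finset (Fin d)) : Prop :=
  act (∏ i ∈ J, (X - C (D.lam i))) D.xc = 0 ∧
    ∀ i ∈ J, act (∏ j ∈ J.erase i, (X - C (D.lam j))) D.xc ≠ 0

/-- multiplicity of `z` among the `λ_i`, `i ∈ J` -/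
noncomputable def mult (J : Finset (Fin d)) (z : ℂ) : ℕ := by
  classical exact (J.filter (fun i => D.lam i = z)).card

/-- `ρ > 0` is the largest modulus of `λ_i`, `i ∈ J` -/
def Top (J : Finset (Fin d)) (ρ : ℝ) : Prop :=
  0 < ρ ∧ (∀ i ∈ J, ‖D.lam i‖ ≤ ρ) ∧ ∃ i ∈ J, ‖D.lam i‖ = ρ

/-- the indices on the circle -/
noncomputable def circ (J : Finset (Fin d)) (ρ : ℝ) : Finset (Fin d) := by
  classical exact J.filter (fun i => ‖D.lam i‖ = ρ)

noncomputable def Y (J : Finset (Fin d)) (i : Fin d) : ℂ :=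
  act (∏ j ∈ J.erase i, (X - C (D.lam j))) D.xc 0

noncomputable def Q (J : Finset (Fin d)) (i : Fin d) : ℂ := ∏ j ∈ J.erase i, (D.lam i - D.lam j)

end Dat

/-- the polynomial expression with value `Y` -/
noncomputable def YP {d : ℕ} (x : ℕ → ℤ) (J : Finset (Fin d)) (i : Fin d) :
    MvPolynomial (Fin d) ℤ :=
  (∏ j ∈ J.erase i, (X - C (MvPolynomial.X j)) : (MvPolynomial (Fin d) ℤ)[X]).sum
    fun n a => a * MvPolynomial.C (x n)

/-- the polynomial expression with value `Q` -/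
noncomputable def QP {d : ℕ} (J : Finset (Fin d)) (i : Fin d) : MvPolynomial (Fin d) ℤ :=
  ∏ j ∈ J.erase i, (MvPolynomial.X i - MvPolynomial.X j)

/-- `‖F(μ)‖ ≤ B` on the polydisc of radius `T` -/
def Bd {d : ℕ} (F : MvPolynomial (Fin d) ℤ) (T : ℕ) (B : ℝ) : Prop :=
  ∀ μ : Fin d → ℂ, (∀ i, ‖μ i‖ ≤ T) → ‖MvPolynomial.aeval μ F‖ ≤ B

/-- the weight `((2 + ζ + ζ⁻¹)/4)^K` -/
noncomputable def wt (K : ℕ) (ζ : ℂ) : ℂ := ((2 + ζ + ζ⁻¹) / 4) ^ K

/-- torsion-free: a monomial in the nonzero `λ_i` that is a root of unity is `1` -/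
def TorFree {d : ℕ} (lam : Fin d → ℂ) : Prop :=
  ∀ e : Fin d → ℤ, (∀ i, e i ≠ 0 → lam i ≠ 0) → ∀ m : ℕ, 1 ≤ m →
    (∏ i, lam i ^ e i) ^ m = 1 → ∏ i, lam i ^ e i = 1

end Pool.Agent.Helper73.DM
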