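import Pool.Agent.Helper73.DM.DefsB

/-!
# DM-B9: the weights `((2 + ζ + ζ⁻¹)/4)^K` and effective density of powers

* `wt_expand`: `2 + ζ + ζ⁻¹ = ζ⁻¹ (1 + ζ)²`, binomial theorem.
* `wt_norm`: for `‖ζ‖ = 1`: `2 + ζ + ζ⁻¹ = 2 + 2 Re ζ = 4 - ‖ζ - 1‖²`, so `wt K ζ = (1 - ‖ζ - 1‖²/4)^K`, a real number in `[0, 1]`.
* Let `m_K = choose(2K,K)/4^K ≥ 1/(2K+1)` (`Nat.four_pow_le_two_mul_add_one_mul_central_binom`). The sum of all coefficients in `wt_expand` is `wt K 1 = 1`.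
* `dens1`: replace `ζ0` by `ζ0 τ^(-n0)`, so let `n0 = 0`. Suppose `‖τ^n - ζ0‖ > ε` for all `n < N`. `∑_{n<N} wt K (τ^n ζ0⁻¹) = N m_K + E`, `‖E‖ ≤ ∑_{i≠0} coeff_i ‖∑_{n<N} τ^(i n)‖ ≤ 2/η` (geometric sums: `‖τ^(i) - 1‖ = ‖τ^|i| - 1‖ ≥ η`). All terms are `≤ q = (1 - ε²/4)^K` (`‖τ^n ζ0⁻¹ - 1‖ = ‖τ^n - ζ0‖`), so
  `N m_K - 2/η ≤ N q`; `hK` says `q ≤ 1/(2(2K+1)) ≤ m_K/2`, so `N/(2(2K+1)) ≤ 2/η`: contradiction.
* `dens2`: `F n = wt K (w^n ζ0⁻¹) * wt K (v^n ζ1⁻¹)`; if no `n < N` is good, then `F n ≤ q (wt K (w^n ζ0⁻¹) + wt K (v^n ζ1⁻¹))`. `∑ F ≥ N m_K² - 2/η` (expand the product; all exponents `(i,j) ≠ (0,0)`, `|i|, |j| ≤ K`, have `‖w^i v^j - 1‖ ≥ η`), `∑ wt ≤ N m_K + 2/η` for both. So `N m_K² - 2/η ≤ 2 q N m_K + 4 q/η ≤ 2 q N m_K + 4/η`,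
  `N m_K (m_K - 2q) ≤ 6/η`, and `4 (2K+1) q ≤ 1` gives `m_K - 2 q ≥ 1/(2(2K+1))`: `N ≤ 12 (2K+1)²/η`.
-/

set_option autoImplicit false

open Polynomial

namespace Pool.Agent.Helper73.DM

theorem wt_expand (K : ℕ) (ζ : ℂ) (h : ζ ≠ 0) :
    wt K ζ = ∑ i ∈ Finset.range (2 * K + 1), ((2 * K).choose i : ℂ) / 4 ^ K *
      ζ ^ ((i : ℤ) - (K : ℤ)) := by
  have h1 : 2 + ζ + ζ⁻¹ = ζ⁻¹ * (ζ + 1) ^ 2 := by
    field_simp
    ring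
  rw [wt, h1, div_pow, mul_pow, ← pow_mul, add_pow, Finset.mul_sum, Finset.sum_div]
  refine Finset.sum_congr rfl (fun i _ => ?_)
  rw [one_pow, mul_one, zpow_sub₀ h, zpow_natCast, zpow_natCast, inv_pow]
  field_simp

theorem wt_norm (K : ℕ) (ζ : ℂ) (h : ‖ζ‖ = 1) :
    wt K ζ = (((1 - ‖ζ - 1‖ ^ 2 / 4) ^ K : ℝ) : ℂ) := by
  have h1 : (2 + ζ + ζ⁻¹) / 4 = ((1 - ‖ζ - 1‖ ^ 2 / 4 : ℝ) : ℂ) := by
    rw [Complex.inv_eq_conj h, add_assoc, Complex.add_conj]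
    have h2 : ‖ζ - 1‖ ^ 2 = 2 - 2 * ζ.re := by
      rw [← Complex.normSq_eq_norm_sq, Complex.normSq_apply]
      have h3 : ζ.re * ζ.re + ζ.im * ζ.im = 1 := by
        rw [← Complex.normSq_apply, Complex.normSq_eq_norm_sq, h, one_pow]
      simp only [Complex.sub_re, Complex.sub_im, Complex.one_re, Complex.one_im]
      linarith
    rw [h2]
    push_cast
    ring
  rw [wt, h1]
  push_cast
  rfl

/-- the coefficients -/
private noncomputable def wtsC (K i : ℕ) : ℝ := ((2 * K).choose i : ℝ) / 4 ^ K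

private theorem wtsC_nonneg (K i : ℕ) : 0 ≤ wtsC K i := by
  unfold wtsC
  positivity

private theorem wtsC_sum (K : ℕ) : ∑ i ∈ Finset.range (2 * K + 1), wtsC K i = 1 := by
  unfold wtsC
  rw [← Finset.sum_div, ← Nat.cast_sum, Nat.sum_range_choose, pow_mul]
  norm_num

private theorem wtsC_mid (K : ℕ) : 1 / (2 * (K : ℝ) + 1) ≤ wtsC K K := by
  have h1 := Nat.four_pow_le_two_mul_add_one_mul_central_binom K
  have h2 : (4 : ℝ) ^ K ≤ (2 * (K : ℝ) + 1) * ((2 * K).choose K : ℝ) := by exact_mod_cast h1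
  unfold wtsC
  rw [div_le_div_iff₀ (by positivity) (by positivity)]
  linarith

private theorem wts_expand (K : ℕ) (ζ : ℂ) (h : ζ ≠ 0) :
    wt K ζ = ∑ i ∈ Finset.range (2 * K + 1), ((wtsC K i : ℝ) : ℂ) * ζ ^ ((i : ℤ) - (K : ℤ)) := by
  rw [wt_expand K ζ h]
  refine Finset.sum_congr rfl (fun i _ => ?_)
  unfold wtsC
  push_cast
  rfl

private theorem wts_geom {z : ℂ} (hz : ‖z‖ = 1) {η : ℝ} (hη : 0 < η) (h : η ≤ ‖z - 1‖) (N : ℕ) :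
    ‖∑ n ∈ Finset.range N, z ^ n‖ ≤ 2 / η := by
  have hne : z ≠ 1 := by
    rintro rfl
    rw [sub_self, norm_zero] at h
    linarith
  rw [geom_sum_eq hne, norm_div]
  have h1 : ‖z ^ N - 1‖ ≤ 2 := by
    refine (norm_sub_le _ _).trans ?_
    rw [norm_pow, hz, one_pow, norm_one]
    norm_num
  calc ‖z ^ N - 1‖ / ‖z - 1‖ ≤ 2 / ‖z - 1‖ := by
        apply div_le_div_of_nonneg_right h1 (norm_nonneg _)
    _ ≤ 2 / η := div_le_div_of_nonneg_left (by norm_num) hη h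

private theorem wts_gen {ι : Type} (s : Finset ι) (c : ι → ℝ) (z u : ι → ℂ) (i0 : ι)
    (hi0 : i0 ∈ s) (hc : ∀ i ∈ s, 0 ≤ c i) (hc1 : ∑ i ∈ s, c i = 1) (hz : ∀ i ∈ s, ‖z i‖ = 1)
    (hu : ∀ i ∈ s, ‖u i‖ = 1) (hz0 : z i0 = 1) (hu0 : u i0 = 1) {η : ℝ} (hη : 0 < η)
    (h : ∀ i ∈ s, i ≠ i0 → η ≤ ‖z i - 1‖) (N : ℕ) :
    ‖(∑ n ∈ Finset.range N, ∑ i ∈ s, ((c i : ℝ) : ℂ) * (u i * z i ^ n)) - ((c i0 * N : ℝ) : ℂ)‖
      ≤ 2 / η := by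
  classical
  rw [Finset.sum_comm, ← Finset.add_sum_erase s _ hi0]
  have h1 : ∑ n ∈ Finset.range N, ((c i0 : ℝ) : ℂ) * (u i0 * z i0 ^ n) =
      ((c i0 * N : ℝ) : ℂ) := by
    rw [hz0, hu0]
    simp only [one_pow, mul_one, Finset.sum_const, Finset.card_range, nsmul_eq_mul]
    push_cast
    ring
  rw [h1, add_sub_cancel_left]
  refine (norm_sum_le _ _).trans ?_
  have h2 : ∀ i ∈ s.erase i0, ‖∑ n ∈ Finset.range N, ((c i : ℝ) : ℂ) * (u i * z i ^ n)‖ ≤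
      c i * (2 / η) := by
    intro i hi
    rw [Finset.mem_erase] at hi
    have h3 : ∑ n ∈ Finset.range N, ((c i : ℝ) : ℂ) * (u i * z i ^ n) =
        ((c i : ℝ) : ℂ) * (u i * ∑ n ∈ Finset.range N, z i ^ n) := by
      rw [Finset.mul_sum, Finset.mul_sum]
    rw [h3, norm_mul, norm_mul, hu i hi.2, one_mul, Complex.norm_real, Real.norm_eq_abs,
      abs_of_nonneg (hc i hi.2)]
    exact mul_le_mul_of_nonneg_left (wts_geom (hz i hi.2) hη (h i hi.2 hi.1) N) (hc i hi.2)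
  refine (Finset.sum_le_sum h2).trans ?_
  rw [← Finset.sum_mul]
  have h4 : ∑ i ∈ s.erase i0, c i ≤ 1 := by
    rw [← hc1]
    exact Finset.sum_le_sum_of_subset_of_nonneg (Finset.erase_subset _ _)
      (fun i hi _ => hc i hi)
  calc (∑ i ∈ s.erase i0, c i) * (2 / η) ≤ 1 * (2 / η) :=
        mul_le_mul_of_nonneg_right h4 (by positivity)
    _ = 2 / η := one_mul _

/-- the real weight -/
private noncomputable def wr (K : ℕ) (ζ : ℂ) : ℝ := (1 - ‖ζ - 1‖ ^ 2 / 4) ^ K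

private theorem wr_nonneg (K : ℕ) {ζ : ℂ} (h : ‖ζ‖ = 1) : 0 ≤ wr K ζ := by
  unfold wr
  apply pow_nonneg
  have h1 : ‖ζ - 1‖ ≤ 2 := by
    refine (norm_sub_le _ _).trans ?_
    rw [h, norm_one]
    norm_num
  nlinarith [norm_nonneg (ζ - 1)]

private theorem wr_le_one (K : ℕ) {ζ : ℂ} (h : ‖ζ‖ = 1) : wr K ζ ≤ 1 := by
  unfold wr
  apply pow_le_one₀
  · have h1 : ‖ζ - 1‖ ≤ 2 := by
      refine (norm_sub_le _ _).trans ?_
      rw [h, norm_one]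
      norm_num
    nlinarith [norm_nonneg (ζ - 1)]
  · nlinarith [norm_nonneg (ζ - 1)]

private theorem wr_le (K : ℕ) {ζ : ℂ} (h : ‖ζ‖ = 1) {ε : ℝ} (hε : 0 < ε) (h2 : ε ≤ ‖ζ - 1‖) :
    wr K ζ ≤ (1 - ε ^ 2 / 4) ^ K := by
  unfold wr
  apply pow_le_pow_left₀
  · have h1 : ‖ζ - 1‖ ≤ 2 := by
      refine (norm_sub_le _ _).trans ?_
      rw [h, norm_one]
      norm_num
    nlinarith [norm_nonneg (ζ - 1)]
  · nlinarith

private theorem wts_zpow {τ ζ : ℂ} (n : ℕ) (l : ℤ) :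
    (τ ^ n * ζ⁻¹) ^ l = (ζ⁻¹) ^ l * (τ ^ l) ^ n := by
  rw [mul_zpow, mul_comm]
  congr 1
  rw [← zpow_natCast, ← zpow_natCast, ← zpow_mul, ← zpow_mul, mul_comm]

private theorem wts_norm_zpow {z : ℂ} (hz : ‖z‖ = 1) (l : ℤ) : ‖z ^ l‖ = 1 := by
  rw [norm_zpow, hz, one_zpow]

private theorem wts_one {τ ζ : ℂ} (hτ : ‖τ‖ = 1) (h0 : ‖ζ‖ = 1) (K : ℕ) {η : ℝ} (hη : 0 < η)
    (h : ∀ l : ℤ, |l| ≤ K → l ≠ 0 → η ≤ ‖τ ^ l - 1‖) (N : ℕ) :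
    |(∑ n ∈ Finset.range N, wr K (τ ^ n * ζ⁻¹)) - wtsC K K * N| ≤ 2 / η := by
  have hζ : ζ ≠ 0 := by
    rintro rfl
    rw [norm_zero] at h0
    exact zero_ne_one h0
  have hτ0 : τ ≠ 0 := by
    rintro rfl
    rw [norm_zero] at hτ
    exact zero_ne_one hτ
  have h1 := wts_gen (Finset.range (2 * K + 1)) (wtsC K) (fun i => τ ^ ((i : ℤ) - (K : ℤ)))
    (fun i => (ζ⁻¹) ^ ((i : ℤ) - (K : ℤ))) K (Finset.mem_range.2 (by omega))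
    (fun i _ => wtsC_nonneg K i) (wtsC_sum K) (fun i _ => wts_norm_zpow hτ _)
    (fun i _ => wts_norm_zpow (by rw [norm_inv, h0, inv_one]) _) (by simp) (by simp) hη
    (fun i hi hiK => h _ (by
      rw [Finset.mem_range] at hi
      rw [abs_le]
      constructor <;> omega) (by omega)) N
  have h2 : (∑ n ∈ Finset.range N, ∑ i ∈ Finset.range (2 * K + 1), ((wtsC K i : ℝ) : ℂ) *
      ((ζ⁻¹) ^ ((i : ℤ) - (K : ℤ)) * (τ ^ ((i : ℤ) - (K : ℤ))) ^ n)) =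
      ((∑ n ∈ Finset.range N, wr K (τ ^ n * ζ⁻¹) : ℝ) : ℂ) := by
    rw [Complex.ofReal_sum]
    refine Finset.sum_congr rfl (fun n _ => ?_)
    have h3 : ‖τ ^ n * ζ⁻¹‖ = 1 := by
      rw [norm_mul, norm_pow, norm_inv, hτ, h0]
      simp
    have h4 := wt_norm K _ h3
    have h5 := wts_expand K (τ ^ n * ζ⁻¹) (mul_ne_zero (pow_ne_zero _ hτ0) (inv_ne_zero hζ))
    rw [wr, ← h4, h5]
    refine Finset.sum_congr rfl (fun i _ => ?_)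
    rw [wts_zpow]
  beta_reduce at h1
  rw [h2, ← Complex.ofReal_sub, Complex.norm_real, Real.norm_eq_abs] at h1
  exact h1

private theorem wts_two {w v ζ0 ζ1 : ℂ} (hw : ‖w‖ = 1) (hv : ‖v‖ = 1) (h0 : ‖ζ0‖ = 1)
    (h1 : ‖ζ1‖ = 1) (K : ℕ) {η : ℝ} (hη : 0 < η)
    (h : ∀ i j : ℤ, |i| ≤ K → |j| ≤ K → (i, j) ≠ (0, 0) → η ≤ ‖w ^ i * v ^ j - 1‖) (N : ℕ) :
    |(∑ n ∈ Finset.range N, wr K (w ^ n * ζ0⁻¹) * wr K (v ^ n * ζ1⁻¹)) -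
      wtsC K K * wtsC K K * N| ≤ 2 / η := by
  have hζ0 : ζ0 ≠ 0 := by
    rintro rfl
    rw [norm_zero] at h0
    exact zero_ne_one h0
  have hζ1 : ζ1 ≠ 0 := by
    rintro rfl
    rw [norm_zero] at h1
    exact zero_ne_one h1
  have hw0 : w ≠ 0 := by
    rintro rfl
    rw [norm_zero] at hw
    exact zero_ne_one hw
  have hv0 : v ≠ 0 := by
    rintro rfl
    rw [norm_zero] at hv
    exact zero_ne_one hv
  have hsum : ∑ i ∈ Finset.range (2 * K + 1) ×ˢ Finset.range (2 * K + 1),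
      wtsC K i.1 * wtsC K i.2 = 1 := by
    rw [Finset.sum_product]
    simp only [← Finset.mul_sum, wtsC_sum, mul_one]
  have h2 := wts_gen (Finset.range (2 * K + 1) ×ˢ Finset.range (2 * K + 1))
    (fun i => wtsC K i.1 * wtsC K i.2)
    (fun i => w ^ ((i.1 : ℤ) - (K : ℤ)) * v ^ ((i.2 : ℤ) - (K : ℤ)))
    (fun i => (ζ0⁻¹) ^ ((i.1 : ℤ) - (K : ℤ)) * (ζ1⁻¹) ^ ((i.2 : ℤ) - (K : ℤ))) (K, K)
    (Finset.mem_product.2 ⟨Finset.mem_range.2 (show K < 2 * K + 1 by omega),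
      Finset.mem_range.2 (show K < 2 * K + 1 by omega)⟩)
    (fun i _ => mul_nonneg (wtsC_nonneg K _) (wtsC_nonneg K _)) hsum
    (fun i _ => by rw [norm_mul, wts_norm_zpow hw, wts_norm_zpow hv, one_mul])
    (fun i _ => by
      rw [norm_mul, wts_norm_zpow (by rw [norm_inv, h0, inv_one]),
        wts_norm_zpow (by rw [norm_inv, h1, inv_one]), one_mul]) (by simp) (by simp) hη
    (fun i hi hiK => h _ _ (by
      rw [Finset.mem_product, Finset.mem_range, Finset.mem_range] at hi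
      rw [abs_le]
      constructor <;> omega) (by
      rw [Finset.mem_product, Finset.mem_range, Finset.mem_range] at hi
      rw [abs_le]
      constructor <;> omega) (by
      intro h3
      apply hiK
      rw [Prod.mk.injEq] at h3
      apply Prod.ext
      · show i.1 = K
        omega
      · show i.2 = K
        omega)) N
  have h3 : (∑ n ∈ Finset.range N, ∑ i ∈ Finset.range (2 * K + 1) ×ˢ Finset.range (2 * K + 1),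
      ((wtsC K i.1 * wtsC K i.2 : ℝ) : ℂ) *
      ((ζ0⁻¹) ^ ((i.1 : ℤ) - (K : ℤ)) * (ζ1⁻¹) ^ ((i.2 : ℤ) - (K : ℤ)) *
        (w ^ ((i.1 : ℤ) - (K : ℤ)) * v ^ ((i.2 : ℤ) - (K : ℤ))) ^ n)) =
      ((∑ n ∈ Finset.range N, wr K (w ^ n * ζ0⁻¹) * wr K (v ^ n * ζ1⁻¹) : ℝ) : ℂ) := by
    rw [Complex.ofReal_sum]
    refine Finset.sum_congr rfl (fun n _ => ?_)
    have h4 : ‖w ^ n * ζ0⁻¹‖ = 1 := by
      rw [norm_mul, norm_pow, norm_inv, hw, h0]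
      simp
    have h5 : ‖v ^ n * ζ1⁻¹‖ = 1 := by
      rw [norm_mul, norm_pow, norm_inv, hv, h1]
      simp
    have h6 := wt_norm K _ h4
    have h7 := wt_norm K _ h5
    have h8 := wts_expand K (w ^ n * ζ0⁻¹) (mul_ne_zero (pow_ne_zero _ hw0) (inv_ne_zero hζ0))
    have h9 := wts_expand K (v ^ n * ζ1⁻¹) (mul_ne_zero (pow_ne_zero _ hv0) (inv_ne_zero hζ1))
    rw [Complex.ofReal_mul, wr, wr, ← h6, ← h7, h8, h9, Finset.sum_mul_sum,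
      ← Finset.sum_product']
    refine Finset.sum_congr rfl (fun i _ => ?_)
    rw [wts_zpow, wts_zpow, mul_pow, Complex.ofReal_mul]
    ring
  beta_reduce at h2
  rw [h3, ← Complex.ofReal_sub, Complex.norm_real, Real.norm_eq_abs] at h2
  exact h2

private theorem wts_int {τ : ℂ} (hτ : ‖τ‖ = 1) {K : ℕ} {η : ℝ}
    (h : ∀ l : ℕ, 1 ≤ l → l ≤ K → η ≤ ‖τ ^ l - 1‖) (l : ℤ) (h1 : |l| ≤ K) (h2 : l ≠ 0) :
    η ≤ ‖τ ^ l - 1‖ := by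
  have hτ0 : τ ≠ 0 := by
    rintro rfl
    rw [norm_zero] at hτ
    exact zero_ne_one hτ
  rcases lt_or_gt_of_ne h2 with h3 | h3
  · obtain ⟨m, hm⟩ := Int.eq_ofNat_of_zero_le (show 0 ≤ -l by omega)
    have hl : l = -(m : ℤ) := by omega
    have h4 := h m (by omega) (by
      rw [abs_le] at h1
      omega)
    have h5 : ‖τ ^ l - 1‖ = ‖τ ^ m - 1‖ := by
      have h6 : τ ^ l - 1 = -(τ ^ l * (τ ^ m - 1)) := by
        rw [hl, zpow_neg, zpow_natCast]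
        have : τ ^ m ≠ 0 := pow_ne_zero _ hτ0
        field_simp
        ring
      rw [h6, norm_neg, norm_mul, wts_norm_zpow hτ, one_mul]
    rw [h5]
    exact h4
  · obtain ⟨m, hm⟩ := Int.eq_ofNat_of_zero_le h3.le
    have h4 := h m (by omega) (by
      rw [abs_le] at h1
      omega)
    rw [hm]
    exact h4

private theorem wts_shift {τ ζ0 : ℂ} (_hτ : ‖τ‖ = 1) (h0 : ‖ζ0‖ = 1) (n n0 : ℕ) :
    ‖τ ^ n * (ζ0 * (τ ^ n0)⁻¹)⁻¹ - 1‖ = ‖τ ^ (n0 + n) - ζ0‖ := by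
  have hζ : ζ0 ≠ 0 := by
    rintro rfl
    rw [norm_zero] at h0
    exact zero_ne_one h0
  have h1 : τ ^ n * (ζ0 * (τ ^ n0)⁻¹)⁻¹ - 1 = ζ0⁻¹ * (τ ^ (n0 + n) - ζ0) := by
    rw [mul_inv, inv_inv, pow_add]
    field_simp
  rw [h1, norm_mul, norm_inv, h0, inv_one, one_mul]

private theorem wts_norm_shift {τ ζ0 : ℂ} (hτ : ‖τ‖ = 1) (h0 : ‖ζ0‖ = 1) (n0 : ℕ) :
    ‖ζ0 * (τ ^ n0)⁻¹‖ = 1 := by
  rw [norm_mul, norm_inv, norm_pow, hτ, h0]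
  simp

theorem dens1 (τ ζ0 : ℂ) (hτ : ‖τ‖ = 1) (h0 : ‖ζ0‖ = 1) (K : ℕ) (ε η : ℝ) (hε : 0 < ε)
    (hε2 : ε ≤ 2) (hη : 0 < η) (hK : 2 * (2 * K + 1) * (1 - ε ^ 2 / 4) ^ K ≤ 1)
    (h : ∀ l : ℕ, 1 ≤ l → l ≤ K → η ≤ ‖τ ^ l - 1‖) (N : ℕ) (hN : 4 * (2 * K + 1) < η * N)
    (n0 : ℕ) : ∃ n : ℕ, n0 ≤ n ∧ n < n0 + N ∧ ‖τ ^ n - ζ0‖ ≤ ε := by
  by_contra hcon
  push Not at hcon
  obtain ⟨ζ, hζ⟩ : ∃ ζ, ζ = ζ0 * (τ ^ n0)⁻¹ := ⟨_, rfl⟩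
  have hζ1 : ‖ζ‖ = 1 := by rw [hζ]; exact wts_norm_shift hτ h0 n0
  have h1 := wts_one hτ hζ1 K hη (fun l h1 h2 => wts_int hτ h l h1 h2) N
  obtain ⟨q, hq⟩ : ∃ q, q = (1 - ε ^ 2 / 4) ^ K := ⟨_, rfl⟩
  rw [← hq] at hK
  have h2 : ∑ n ∈ Finset.range N, wr K (τ ^ n * ζ⁻¹) ≤ N * q := by
    have h3 : ∀ n ∈ Finset.range N, wr K (τ ^ n * ζ⁻¹) ≤ q := by
      intro n hn
      rw [Finset.mem_range] at hn
      rw [hq]
      apply wr_le K _ hε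
      · rw [hζ, wts_shift hτ h0]
        exact (hcon (n0 + n) (by omega) (by omega)).le
      · rw [norm_mul, norm_pow, norm_inv, hτ, hζ1]
        simp
    refine (Finset.sum_le_sum h3).trans ?_
    rw [Finset.sum_const, Finset.card_range, nsmul_eq_mul]
  have h4 := (abs_le.1 h1).1
  have h5 := wtsC_mid K
  have hK0 : (0 : ℝ) < 2 * K + 1 := by positivity
  have h6 : q ≤ 1 / (2 * (K : ℝ) + 1) / 2 := by
    rw [div_div, le_div_iff₀ (by positivity)]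
    linarith
  have hN0 : (0 : ℝ) ≤ N := Nat.cast_nonneg N
  have h7 : (1 / (2 * (K : ℝ) + 1) / 2) * N ≤ 2 / η := by
    have h8 : (1 / (2 * (K : ℝ) + 1) / 2) * N ≤ (wtsC K K - q) * N :=
      mul_le_mul_of_nonneg_right (by linarith) hN0
    linarith
  rw [le_div_iff₀ hη] at h7
  have h9 : (1 / (2 * (K : ℝ) + 1) / 2) * N * η = (η * N) / (2 * (2 * (K : ℝ) + 1)) := by
    field_simp
  rw [h9, div_le_iff₀ (by positivity)] at h7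
  linarith

theorem dens2 (w v ζ0 ζ1 : ℂ) (hw : ‖w‖ = 1) (hv : ‖v‖ = 1) (h0 : ‖ζ0‖ = 1) (h1 : ‖ζ1‖ = 1)
    (K : ℕ) (ε η : ℝ) (hε : 0 < ε) (hε2 : ε ≤ 2) (hη : 0 < η)
    (hK : 4 * (2 * K + 1) * (1 - ε ^ 2 / 4) ^ K ≤ 1)
    (h : ∀ i j : ℤ, |i| ≤ K → |j| ≤ K → (i, j) ≠ (0, 0) → η ≤ ‖w ^ i * v ^ j - 1‖)
    (N : ℕ) (hN : 12 * (2 * K + 1) ^ 2 < η * N) (n0 : ℕ) :
    ∃ n : ℕ, n0 ≤ n ∧ n < n0 + N ∧ ‖w ^ n - ζ0‖ ≤ ε ∧ ‖v ^ n - ζ1‖ ≤ ε := by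
  by_contra hcon
  push Not at hcon
  obtain ⟨ξ, hξ⟩ : ∃ ξ, ξ = ζ0 * (w ^ n0)⁻¹ := ⟨_, rfl⟩
  obtain ⟨χ, hχ⟩ : ∃ χ, χ = ζ1 * (v ^ n0)⁻¹ := ⟨_, rfl⟩
  have hξ1 : ‖ξ‖ = 1 := by rw [hξ]; exact wts_norm_shift hw h0 n0
  have hχ1 : ‖χ‖ = 1 := by rw [hχ]; exact wts_norm_shift hv h1 n0
  have hA := wts_one hw hξ1 K hη (fun l h2 h3 => by
    have h4 := h l 0 h2 (by simp) (fun h5 => h3 (Prod.mk.inj h5).1)
    rw [zpow_zero, mul_one] at h4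
    exact h4) N
  have hB := wts_one hv hχ1 K hη (fun l h2 h3 => by
    have h4 := h 0 l (by simp) h2 (fun h5 => h3 (Prod.mk.inj h5).2)
    rw [zpow_zero, one_mul] at h4
    exact h4) N
  have hP := wts_two hw hv hξ1 hχ1 K hη h N
  obtain ⟨q, hq⟩ : ∃ q, q = (1 - ε ^ 2 / 4) ^ K := ⟨_, rfl⟩
  rw [← hq] at hK
  have hq0 : 0 ≤ q := by
    rw [hq]
    apply pow_nonneg
    nlinarith
  have hq1 : q ≤ 1 := by
    rw [hq]
    apply pow_le_one₀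
    · nlinarith
    · nlinarith
  have hn1 : ∀ n : ℕ, ‖w ^ n * ξ⁻¹‖ = 1 := fun n => by
    rw [norm_mul, norm_pow, norm_inv, hw, hξ1]
    simp
  have hn2 : ∀ n : ℕ, ‖v ^ n * χ⁻¹‖ = 1 := fun n => by
    rw [norm_mul, norm_pow, norm_inv, hv, hχ1]
    simp
  have h2 : ∑ n ∈ Finset.range N, wr K (w ^ n * ξ⁻¹) * wr K (v ^ n * χ⁻¹) ≤
      q * ((∑ n ∈ Finset.range N, wr K (w ^ n * ξ⁻¹)) +
        ∑ n ∈ Finset.range N, wr K (v ^ n * χ⁻¹)) := by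
    rw [← Finset.sum_add_distrib, Finset.mul_sum]
    refine Finset.sum_le_sum (fun n hn => ?_)
    rw [Finset.mem_range] at hn
    have ha := wr_nonneg K (hn1 n)
    have hb := wr_nonneg K (hn2 n)
    rcases le_or_gt (‖w ^ (n0 + n) - ζ0‖) ε with h3 | h3
    · have h4 := hcon (n0 + n) (by omega) (by omega) h3
      have h5 : wr K (v ^ n * χ⁻¹) ≤ q := by
        rw [hq]
        apply wr_le K (hn2 n) hε
        rw [hχ, wts_shift hv h1]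
        exact h4.le
      nlinarith [mul_nonneg hq0 hb, mul_le_mul_of_nonneg_left h5 ha]
    · have h5 : wr K (w ^ n * ξ⁻¹) ≤ q := by
        rw [hq]
        apply wr_le K (hn1 n) hε
        rw [hξ, wts_shift hw h0]
        exact h3.le
      nlinarith [mul_nonneg hq0 ha, mul_le_mul_of_nonneg_right h5 hb]
  obtain ⟨m, hm⟩ : ∃ m, m = wtsC K K := ⟨_, rfl⟩
  rw [← hm] at hA hB hP
  have h3 := (abs_le.1 hA).2
  have h4 := (abs_le.1 hB).2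
  have h5 := (abs_le.1 hP).1
  have h6 := wtsC_mid K
  rw [← hm] at h6
  have hK0 : (0 : ℝ) < 2 * K + 1 := by positivity
  have h7 : q ≤ 1 / (2 * (K : ℝ) + 1) / 4 := by
    rw [div_div, le_div_iff₀ (by positivity)]
    linarith
  have hN0 : (0 : ℝ) ≤ N := Nat.cast_nonneg N
  have he : 0 < 2 / η := by positivity
  have h8 : q * ((∑ n ∈ Finset.range N, wr K (w ^ n * ξ⁻¹)) +
        ∑ n ∈ Finset.range N, wr K (v ^ n * χ⁻¹)) ≤ q * (2 * (m * N) + 2 * (2 / η)) :=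
    mul_le_mul_of_nonneg_left (by linarith) hq0
  have h9 : q * (2 * (2 / η)) ≤ 1 * (2 * (2 / η)) :=
    mul_le_mul_of_nonneg_right hq1 (by positivity)
  have h10 : (m - 2 * q) * (m * N) ≤ 3 * (2 / η) := by
    have h11 : q * (2 * (m * N) + 2 * (2 / η)) = 2 * q * (m * N) + q * (2 * (2 / η)) := by ring
    nlinarith
  obtain ⟨y, hy⟩ : ∃ y, y = 1 / (2 * (K : ℝ) + 1) := ⟨_, rfl⟩
  rw [← hy] at h6 h7
  have hy0 : 0 < y := by rw [hy]; positivity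
  have h12 : (y / 2) * (y * N) ≤ (m - 2 * q) * (m * N) := by
    apply mul_le_mul
    · linarith
    · exact mul_le_mul_of_nonneg_right h6 hN0
    · positivity
    · linarith
  have h13 : (y / 2) * (y * N) ≤ 6 / η := by
    have : 3 * (2 / η) = 6 / η := by ring
    linarith
  rw [le_div_iff₀ hη, hy] at h13
  have h14 : 1 / (2 * (K : ℝ) + 1) / 2 * (1 / (2 * (K : ℝ) + 1) * N) * η =
      (η * N) / (2 * (2 * (K : ℝ) + 1) ^ 2) := by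
    field_simp
  rw [h14, div_le_iff₀ (by positivity)] at h13
  linarith

/-- for every `ε = 1/A` there is a suitable `K` of polynomial size -/
theorem exists_K : ∃ c : ℕ, ∀ A : ℕ, 2 ≤ A →
    4 * (2 * ((A : ℝ) ^ c) + 1) * (1 - (1 / (A : ℝ)) ^ 2 / 4) ^ (A ^ c) ≤ 1 := by
  refine ⟨16, fun A hA => ?_⟩
  have hA2 : (2 : ℝ) ≤ A := by exact_mod_cast hA
  have hA0 : (0 : ℝ) < A := by linarith
  have hx1 : 0 ≤ 1 - (1 / (A : ℝ)) ^ 2 / 4 := by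
    have h1 : 1 / (A : ℝ) ≤ 1 := by
      rw [div_le_one hA0]
      linarith
    have h2 : 0 ≤ 1 / (A : ℝ) := by positivity
    nlinarith
  have hx2 : 1 - (1 / (A : ℝ)) ^ 2 / 4 ≤ Real.exp (-((1 / (A : ℝ)) ^ 2 / 4)) :=
    Real.one_sub_le_exp_neg _
  have h3 : (1 - (1 / (A : ℝ)) ^ 2 / 4) ^ (A ^ 16) ≤
      Real.exp (-((1 / (A : ℝ)) ^ 2 / 4)) ^ (A ^ 16) := pow_le_pow_left₀ hx1 hx2 _
  rw [← Real.exp_nat_mul] at h3
  have h4 : ((A ^ 16 : ℕ) : ℝ) * -((1 / (A : ℝ)) ^ 2 / 4) = -((A : ℝ) ^ 14 / 4) := by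
    push_cast
    field_simp
  rw [h4, Real.exp_neg] at h3
  have h5 := Real.quadratic_le_exp_of_nonneg (x := (A : ℝ) ^ 14 / 4) (by positivity)
  have h6 : 4 * (2 * ((A : ℝ) ^ 16) + 1) ≤ Real.exp ((A : ℝ) ^ 14 / 4) := by
    refine le_trans ?_ h5
    have h7 : (2 : ℝ) ^ 12 ≤ (A : ℝ) ^ 12 := pow_le_pow_left₀ (by norm_num) hA2 _
    have h8 : (1 : ℝ) ≤ (A : ℝ) ^ 16 := one_le_pow₀ (by linarith)
    have h9 : ((A : ℝ) ^ 14 / 4) ^ 2 / 2 = (A : ℝ) ^ 12 * (A : ℝ) ^ 16 / 32 := by ring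
    rw [h9]
    have h10 : (2 : ℝ) ^ 12 * (A : ℝ) ^ 16 ≤ (A : ℝ) ^ 12 * (A : ℝ) ^ 16 :=
      mul_le_mul_of_nonneg_right h7 (by positivity)
    have h11 : (0 : ℝ) ≤ (A : ℝ) ^ 14 := by positivity
    norm_num at h10
    nlinarith
  have he : 0 < Real.exp ((A : ℝ) ^ 14 / 4) := Real.exp_pos _
  calc 4 * (2 * ((A : ℝ) ^ 16) + 1) * (1 - (1 / (A : ℝ)) ^ 2 / 4) ^ (A ^ 16)
      ≤ 4 * (2 * ((A : ℝ) ^ 16) + 1) * (Real.exp ((A : ℝ) ^ 14 / 4))⁻¹ :=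
        mul_le_mul_of_nonneg_left h3 (by positivity)
    _ ≤ Real.exp ((A : ℝ) ^ 14 / 4) * (Real.exp ((A : ℝ) ^ 14 / 4))⁻¹ :=
        mul_le_mul_of_nonneg_right h6 (by positivity)
    _ = 1 := mul_inv_cancel₀ he.ne'

end Pool.Agent.Helper73.DM
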