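import Pool.Agent.Helper73.DM.RepSimple
import Pool.Agent.Helper73.DM.Weights

/-!
# DM-B15: five dominant roots, multiplicatively independent case

All roots of `J` are on the circle and simple, so `rep_simple` has `w = 0`: `x n/ρ^n = a + 2 Re(b w^n) + 2 Re(e v^n)` exactly, `w = λ_{i1}/ρ`, `v = λ_{i3}/ρ`, `a` real, coefficients at `i2, i4` the conjugates (conjugate the representation and compare, or `mult_conj`). If `a ≥ 2‖b‖ + 2‖e‖` then `x n ≥ 0` for all `n`. Otherwise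
`2‖b‖ + 2‖e‖ - a ≥ 1/T^c1`: the product `Π` of the four numbers `a ± 2‖b‖ ± 2‖e‖` is a polynomial in `a, b b̄, e ē`, so `Π Δ` (`Δ` = product of powers of the `Q`) is the value of an `MvPolynomial`: if `Π ≠ 0` then `|Π| ≥ 1/T^c2` and the other three factors are `≤ T^c3`. If `Π = 0` and `a < 2‖b‖ + 2‖e‖`: if `a ≤ 0`, the difference is `≥ 2‖b‖ ≥ 1/T^c`
(`Y_bounds`, `Q_bounds`); if `a > 0` then `a = 2‖b‖ - 2‖e‖` or `a = 2‖e‖ - 2‖b‖` (the factor `a + 2‖b‖ + 2‖e‖` is positive and `a - 2‖b‖ - 2‖e‖ ≠ 0`) and the difference is `4‖e‖` or `4‖b‖`. `dens2` for `w, v`, targets `-b̄/‖b‖`, `-ē/‖e‖`, `ε = 1/T^c4`, `K = ` the `K` of `exists_K` for `A = T^c4` (so `K = T^c5`); the hypothesis of the theorem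
(independence up to `K`): for `|i|, |j| ≤ K`, not both zero, `w^i v^j ≠ 1`; then `‖w^i v^j - 1‖ ≥ 2^(-T^c6)`: with `|i|, |j|` and the conjugates for negative exponents, `w^i v^j ρ^(|i|+|j|)` is a monomial in `λ_{i1}` or `λ_{i2}`, `λ_{i3}` or `λ_{i4}`, `F` = this monomial `- X_{i0}^(|i|+|j|)`, bounded by `2 T^(2K)`: `liou_bd`. So there is
`n ≤ 2^(T^c7)` with `x n/ρ^n ≤ -1/T^c1 + (2‖b‖ + 2‖e‖) ε < 0`: contradiction.
-/

set_option autoImplicit false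

open Polynomial

namespace Pool.Agent.Helper73.DM

/-- the product over the roots is invariant under conjugation -/
private theorem d1_inv {d T : ℕ} (D : Dat d T) (J : Finset (Fin d)) (h : D.IsMin J) :
    (∏ i ∈ J, (X - C (D.lam i))).map (starRingEnd ℂ) = ∏ i ∈ J, (X - C (D.lam i)) := by
  have hmap : (∏ i ∈ J, (X - C (D.lam i))).map (starRingEnd ℂ) =
      ∏ i ∈ J, (X - C (starRingEnd ℂ (D.lam i))) := by
    rw [Polynomial.map_prod]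
    simp only [Polynomial.map_sub, Polynomial.map_X, Polynomial.map_C]
  have hk : act (∏ i ∈ J, (X - C (starRingEnd ℂ (D.lam i)))) D.xc = 0 := by
    rw [← hmap]
    have h1 := act_map (starRingEnd ℂ) (∏ i ∈ J, (X - C (D.lam i))) D.xc
    have h2 : (fun n => starRingEnd ℂ (D.xc n)) = D.xc := by
      funext n
      unfold Dat.xc
      exact map_intCast (starRingEnd ℂ) (D.x n)
    rw [h2, h.1] at h1
    rw [h1]
    funext n
    simp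
  have hd := min_dvd D J h _ hk
  have hm1 : (∏ i ∈ J, (X - C (D.lam i))).Monic :=
    monic_prod_of_monic _ _ fun _ _ => monic_X_sub_C _
  have hm2 : (∏ i ∈ J, (X - C (starRingEnd ℂ (D.lam i)))).Monic :=
    monic_prod_of_monic _ _ fun _ _ => monic_X_sub_C _
  have hdeg : (∏ i ∈ J, (X - C (starRingEnd ℂ (D.lam i)))).natDegree ≤
      (∏ i ∈ J, (X - C (D.lam i))).natDegree := by
    rw [natDegree_prod_of_monic _ _ (fun i _ => monic_X_sub_C _),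
      natDegree_prod_of_monic _ _ (fun i _ => monic_X_sub_C _)]
    simp only [natDegree_X_sub_C]
    exact le_rfl
  rw [hmap, ← eq_of_monic_of_dvd_of_natDegree_le hm1 hm2 hd hdeg]

/-- the coefficients at conjugate roots are conjugate -/
private theorem d1_conj {d T : ℕ} (D : Dat d T) (J : Finset (Fin d)) (h : D.IsMin J)
    {i i' : Fin d} (hi : i ∈ J) (hi' : i' ∈ J) (hc : D.lam i' = starRingEnd ℂ (D.lam i)) :
    D.Y J i' / D.Q J i' = starRingEnd ℂ (D.Y J i / D.Q J i) := by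
  have hP := d1_inv D J h
  have h1 : (X - C (D.lam i)) * ∏ j ∈ J.erase i, (X - C (D.lam j)) =
      ∏ j ∈ J, (X - C (D.lam j)) := Finset.mul_prod_erase J (fun j => X - C (D.lam j)) hi
  have h2 : (X - C (D.lam i')) * ∏ j ∈ J.erase i', (X - C (D.lam j)) =
      ∏ j ∈ J, (X - C (D.lam j)) := Finset.mul_prod_erase J (fun j => X - C (D.lam j)) hi'
  have h3 : (∏ j ∈ J.erase i, (X - C (D.lam j))).map (starRingEnd ℂ) =
      ∏ j ∈ J.erase i', (X - C (D.lam j)) := by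
    have h4 := congrArg (Polynomial.map (starRingEnd ℂ)) h1
    rw [hP, ← h2, Polynomial.map_mul, Polynomial.map_sub, Polynomial.map_X, Polynomial.map_C,
      ← hc] at h4
    exact mul_left_cancel₀ (X_sub_C_ne_zero _) h4
  have hx : (fun n => starRingEnd ℂ (D.xc n)) = D.xc := by
    funext n
    unfold Dat.xc
    exact map_intCast (starRingEnd ℂ) (D.x n)
  have hY : D.Y J i' = starRingEnd ℂ (D.Y J i) := by
    unfold Dat.Y
    rw [← h3]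
    have h5 := act_map (starRingEnd ℂ) (∏ j ∈ J.erase i, (X - C (D.lam j))) D.xc
    rw [hx] at h5
    rw [h5]
  have hQ' : ∀ k : Fin d, D.Q J k = (∏ j ∈ J.erase k, (X - C (D.lam j))).eval (D.lam k) := by
    intro k
    rw [eval_prod]
    unfold Dat.Q
    refine Finset.prod_congr rfl fun j _ => ?_
    rw [eval_sub, eval_X, eval_C]
  have hQ : D.Q J i' = starRingEnd ℂ (D.Q J i) := by
    rw [hQ' i', hQ' i, ← h3, hc, Polynomial.eval_map, Polynomial.eval₂_at_apply]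
  rw [hY, hQ, map_div₀]

/-- the polynomial expression for `Π Δ` -/
private def GG {R : Type*} [CommRing R] (y0 y1 y2 y3 y4 q0 q1 q2 q3 q4 : R) : R :=
  y0 ^ 4 * q1 ^ 2 * q2 ^ 2 * q3 ^ 2 * q4 ^ 2 + 16 * (y1 ^ 2 * y2 ^ 2 * q0 ^ 4 * q3 ^ 2 * q4 ^ 2)
    + 16 * (y3 ^ 2 * y4 ^ 2 * q0 ^ 4 * q1 ^ 2 * q2 ^ 2)
    - 8 * (y0 ^ 2 * y1 * y2 * q0 ^ 2 * q1 * q2 * q3 ^ 2 * q4 ^ 2)
    - 8 * (y0 ^ 2 * y3 * y4 * q0 ^ 2 * q1 ^ 2 * q2 ^ 2 * q3 * q4)
    - 32 * (y1 * y2 * y3 * y4 * q0 ^ 4 * q1 * q2 * q3 * q4)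

private theorem map_GG {R S : Type*} [CommRing R] [CommRing S] (f : R →+* S)
    (y0 y1 y2 y3 y4 q0 q1 q2 q3 q4 : R) :
    f (GG y0 y1 y2 y3 y4 q0 q1 q2 q3 q4) =
      GG (f y0) (f y1) (f y2) (f y3) (f y4) (f q0) (f q1) (f q2) (f q3) (f q4) := by
  unfold GG
  simp only [map_sub, map_add, map_mul, map_pow, map_ofNat]

private theorem GG_bd {A : ℝ} (hA : 0 ≤ A) {y0 y1 y2 y3 y4 q0 q1 q2 q3 q4 : ℂ}
    (a0 : ‖y0‖ ≤ A) (a1 : ‖y1‖ ≤ A) (a2 : ‖y2‖ ≤ A) (a3 : ‖y3‖ ≤ A) (a4 : ‖y4‖ ≤ A)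
    (b0 : ‖q0‖ ≤ A) (b1 : ‖q1‖ ≤ A) (b2 : ‖q2‖ ≤ A) (b3 : ‖q3‖ ≤ A) (b4 : ‖q4‖ ≤ A) :
    ‖GG y0 y1 y2 y3 y4 q0 q1 q2 q3 q4‖ ≤ 81 * A ^ 12 := by
  have e1 : ‖y0 ^ 4 * q1 ^ 2 * q2 ^ 2 * q3 ^ 2 * q4 ^ 2‖ ≤ A ^ 12 := by
    rw [norm_mul, norm_mul, norm_mul, norm_mul, norm_pow, norm_pow, norm_pow, norm_pow, norm_pow]
    calc ‖y0‖ ^ 4 * ‖q1‖ ^ 2 * ‖q2‖ ^ 2 * ‖q3‖ ^ 2 * ‖q4‖ ^ 2
        ≤ A ^ 4 * A ^ 2 * A ^ 2 * A ^ 2 * A ^ 2 := by gcongr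
      _ = A ^ 12 := by ring
  have e2 : ‖16 * (y1 ^ 2 * y2 ^ 2 * q0 ^ 4 * q3 ^ 2 * q4 ^ 2)‖ ≤ 16 * A ^ 12 := by
    rw [norm_mul, norm_mul, norm_mul, norm_mul, norm_mul, norm_pow, norm_pow, norm_pow, norm_pow,
      norm_pow]
    have : ‖(16 : ℂ)‖ = 16 := by simp
    rw [this]
    calc 16 * (‖y1‖ ^ 2 * ‖y2‖ ^ 2 * ‖q0‖ ^ 4 * ‖q3‖ ^ 2 * ‖q4‖ ^ 2)
        ≤ 16 * (A ^ 2 * A ^ 2 * A ^ 4 * A ^ 2 * A ^ 2) := by gcongr
      _ = 16 * A ^ 12 := by ring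
  have e3 : ‖16 * (y3 ^ 2 * y4 ^ 2 * q0 ^ 4 * q1 ^ 2 * q2 ^ 2)‖ ≤ 16 * A ^ 12 := by
    rw [norm_mul, norm_mul, norm_mul, norm_mul, norm_mul, norm_pow, norm_pow, norm_pow, norm_pow,
      norm_pow]
    have : ‖(16 : ℂ)‖ = 16 := by simp
    rw [this]
    calc 16 * (‖y3‖ ^ 2 * ‖y4‖ ^ 2 * ‖q0‖ ^ 4 * ‖q1‖ ^ 2 * ‖q2‖ ^ 2)
        ≤ 16 * (A ^ 2 * A ^ 2 * A ^ 4 * A ^ 2 * A ^ 2) := by gcongr
      _ = 16 * A ^ 12 := by ring
  have e4 : ‖8 * (y0 ^ 2 * y1 * y2 * q0 ^ 2 * q1 * q2 * q3 ^ 2 * q4 ^ 2)‖ ≤ 8 * A ^ 12 := by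
    rw [norm_mul, norm_mul, norm_mul, norm_mul, norm_mul, norm_mul, norm_mul, norm_mul, norm_pow,
      norm_pow, norm_pow, norm_pow]
    have : ‖(8 : ℂ)‖ = 8 := by simp
    rw [this]
    calc 8 * (‖y0‖ ^ 2 * ‖y1‖ * ‖y2‖ * ‖q0‖ ^ 2 * ‖q1‖ * ‖q2‖ * ‖q3‖ ^ 2 * ‖q4‖ ^ 2)
        ≤ 8 * (A ^ 2 * A * A * A ^ 2 * A * A * A ^ 2 * A ^ 2) := by gcongr
      _ = 8 * A ^ 12 := by ring
  have e5 : ‖8 * (y0 ^ 2 * y3 * y4 * q0 ^ 2 * q1 ^ 2 * q2 ^ 2 * q3 * q4)‖ ≤ 8 * A ^ 12 := by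
    rw [norm_mul, norm_mul, norm_mul, norm_mul, norm_mul, norm_mul, norm_mul, norm_mul, norm_pow,
      norm_pow, norm_pow, norm_pow]
    have : ‖(8 : ℂ)‖ = 8 := by simp
    rw [this]
    calc 8 * (‖y0‖ ^ 2 * ‖y3‖ * ‖y4‖ * ‖q0‖ ^ 2 * ‖q1‖ ^ 2 * ‖q2‖ ^ 2 * ‖q3‖ * ‖q4‖)
        ≤ 8 * (A ^ 2 * A * A * A ^ 2 * A ^ 2 * A ^ 2 * A * A) := by gcongr
      _ = 8 * A ^ 12 := by ring
  have e6 : ‖32 * (y1 * y2 * y3 * y4 * q0 ^ 4 * q1 * q2 * q3 * q4)‖ ≤ 32 * A ^ 12 := by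
    rw [norm_mul, norm_mul, norm_mul, norm_mul, norm_mul, norm_mul, norm_mul, norm_mul, norm_mul,
      norm_pow]
    have : ‖(32 : ℂ)‖ = 32 := by simp
    rw [this]
    calc 32 * (‖y1‖ * ‖y2‖ * ‖y3‖ * ‖y4‖ * ‖q0‖ ^ 4 * ‖q1‖ * ‖q2‖ * ‖q3‖ * ‖q4‖)
        ≤ 32 * (A * A * A * A * A ^ 4 * A * A * A * A) := by gcongr
      _ = 32 * A ^ 12 := by ring
  unfold GG
  refine (norm_sub_le _ _).trans ?_
  refine (add_le_add (norm_sub_le _ _) le_rfl).trans ?_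
  refine (add_le_add (add_le_add (norm_sub_le _ _) le_rfl) le_rfl).trans ?_
  refine (add_le_add (add_le_add (add_le_add (norm_add_le _ _) le_rfl) le_rfl) le_rfl).trans ?_
  refine (add_le_add (add_le_add (add_le_add (add_le_add (norm_add_le _ _) le_rfl) le_rfl)
    le_rfl) le_rfl).trans ?_
  linarith

private theorem GG_eq (β0 β1 β2 β3 β4 q0 q1 q2 q3 q4 : ℂ) :
    GG (β0 * q0) (β1 * q1) (β2 * q2) (β3 * q3) (β4 * q4) q0 q1 q2 q3 q4 =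
      (β0 ^ 4 + 16 * (β1 * β2) ^ 2 + 16 * (β3 * β4) ^ 2 - 8 * β0 ^ 2 * (β1 * β2)
        - 8 * β0 ^ 2 * (β3 * β4) - 32 * (β1 * β2) * (β3 * β4)) *
        (q0 ^ 4 * q1 ^ 2 * q2 ^ 2 * q3 ^ 2 * q4 ^ 2) := by
  unfold GG
  ring

/-- the gap, real numbers -/
private theorem d1_gap {a p q M κ : ℝ} (hp : 0 < p) (hq : 0 < q) (hM : |a| + p + q ≤ M)
    (hδ : a < p + q)
    (h : κ ≤ |(a + p + q) * (a + p - q) * (a - p + q) * (a - p - q)| ∨
      (a + p + q) * (a + p - q) * (a - p + q) * (a - p - q) = 0) :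
    κ ≤ M ^ 3 * (p + q - a) ∨ p ≤ p + q - a ∨ q ≤ p + q - a := by
  have hM0 : 0 ≤ M := by
    have := abs_nonneg a
    linarith
  have ha := abs_le.1 (le_refl |a|)
  rcases h with h | h
  · left
    rw [abs_mul, abs_mul, abs_mul] at h
    have h1 : |a + p + q| ≤ M := by rw [abs_le]; constructor <;> linarith [ha.1, ha.2]
    have h2 : |a + p - q| ≤ M := by rw [abs_le]; constructor <;> linarith [ha.1, ha.2]
    have h3 : |a - p + q| ≤ M := by rw [abs_le]; constructor <;> linarith [ha.1, ha.2]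
    have h4 : |a - p - q| = p + q - a := by
      rw [abs_of_neg (by linarith)]
      ring
    rw [h4] at h
    refine h.trans ?_
    have h5 : 0 ≤ p + q - a := by linarith
    calc |a + p + q| * |a + p - q| * |a - p + q| * (p + q - a)
        ≤ M * M * M * (p + q - a) := by gcongr
      _ = M ^ 3 * (p + q - a) := by ring
  · right
    by_cases ha0 : a ≤ 0
    · left
      linarith
    · push Not at ha0
      have h1 : a + p + q ≠ 0 := by positivity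
      have h2 : a - p - q ≠ 0 := by
        intro h3
        linarith
      rcases mul_eq_zero.1 h with h | h
      · rcases mul_eq_zero.1 h with h | h
        · rcases mul_eq_zero.1 h with h | h
          · exact absurd h h1
          · left
            linarith
        · right
          linarith
      · exact absurd h h2


private theorem d1_zpow {d T : ℕ} (D : Dat d T) {ρ : ℝ} (hρ : 0 < ρ) {i1 i2 : Fin d}
    (h1 : ‖D.lam i1‖ = ρ) (h2 : D.lam i2 = starRingEnd ℂ (D.lam i1)) (i : ℤ) :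
    ∃ α : Fin d, (D.lam i1 / ρ) ^ i = D.lam α ^ i.natAbs / (ρ : ℂ) ^ i.natAbs := by
  have hρc : (ρ : ℂ) ≠ 0 := by exact_mod_cast hρ.ne'
  rcases Int.natAbs_eq i with h | h
  · refine ⟨i1, ?_⟩
    conv_lhs => rw [h]
    rw [zpow_natCast, div_pow]
  · refine ⟨i2, ?_⟩
    conv_lhs => rw [h]
    rw [zpow_neg, zpow_natCast, ← inv_pow, ← div_pow]
    congr 1
    rw [h2]
    have h3 : D.lam i1 * starRingEnd ℂ (D.lam i1) = (ρ : ℂ) ^ 2 := by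
      rw [Complex.mul_conj', h1]
    have h4 : D.lam i1 ≠ 0 := by
      rw [← norm_ne_zero_iff, h1]
      exact hρ.ne'
    rw [inv_div, div_eq_div_iff h4 hρc]
    rw [← sq, ← h3]
    ring

private theorem d1_eta {d T : ℕ} (D : Dat d T) {ρ : ℝ} (hρ : 0 < ρ) (hρT : ρ ≤ T)
    {i0 : Fin d} (h0 : D.lam i0 = (ρ : ℂ)) {cL : ℕ}
    (hL : ∀ (F : MvPolynomial (Fin d) ℤ) (B : ℝ), 1 ≤ B → Bd F T B →
      MvPolynomial.aeval D.lam F ≠ 0 → 1 ≤ B ^ cL * ‖MvPolynomial.aeval D.lam F‖)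
    (K I I' : ℕ) (hI : I ≤ K) (hI' : I' ≤ K) (α γ : Fin d)
    (hne : D.lam α ^ I / (ρ : ℂ) ^ I * (D.lam γ ^ I' / (ρ : ℂ) ^ I') ≠ 1) :
    1 / (T : ℝ) ^ ((2 * K + 1) * cL + 2 * K) ≤
      ‖D.lam α ^ I / (ρ : ℂ) ^ I * (D.lam γ ^ I' / (ρ : ℂ) ^ I') - 1‖ := by
  have hT2 : (2 : ℝ) ≤ T := by exact_mod_cast D.two_le
  have hT1 : (1 : ℝ) ≤ T := by linarith
  have hT0 : (0 : ℝ) < T := by linarith
  have hρc : (ρ : ℂ) ≠ 0 := by exact_mod_cast hρ.ne'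
  have hρp : ((ρ : ℂ) ^ (I + I')) ≠ 0 := pow_ne_zero _ hρc
  obtain ⟨F, hF⟩ : ∃ F : MvPolynomial (Fin d) ℤ, F = MvPolynomial.X α ^ I *
      MvPolynomial.X γ ^ I' - MvPolynomial.X i0 ^ (I + I') := ⟨_, rfl⟩
  have hae : ∀ μ : Fin d → ℂ, MvPolynomial.aeval μ F = μ α ^ I * μ γ ^ I' - μ i0 ^ (I + I') := by
    intro μ
    rw [hF]
    simp only [map_sub, map_mul, map_pow, MvPolynomial.aeval_X]
  have hpw : ∀ m : ℕ, m ≤ 2 * K → (T : ℝ) ^ m ≤ (T : ℝ) ^ (2 * K) := fun m hm =>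
    pow_le_pow_right₀ hT1 hm
  have hBd : Bd F T ((T : ℝ) ^ (2 * K + 1)) := by
    intro μ hμ
    rw [hae]
    have k1 : ‖μ α ^ I * μ γ ^ I'‖ ≤ (T : ℝ) ^ (2 * K) := by
      rw [norm_mul, norm_pow, norm_pow]
      calc ‖μ α‖ ^ I * ‖μ γ‖ ^ I' ≤ (T : ℝ) ^ I * (T : ℝ) ^ I' := by
            have := hμ α
            have := hμ γ
            gcongr
        _ = (T : ℝ) ^ (I + I') := by rw [pow_add]
        _ ≤ (T : ℝ) ^ (2 * K) := hpw _ (by omega)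
    have k2 : ‖μ i0 ^ (I + I')‖ ≤ (T : ℝ) ^ (2 * K) := by
      rw [norm_pow]
      exact (pow_le_pow_left₀ (norm_nonneg _) (hμ i0) _).trans (hpw _ (by omega))
    calc ‖μ α ^ I * μ γ ^ I' - μ i0 ^ (I + I')‖ ≤ (T : ℝ) ^ (2 * K) + (T : ℝ) ^ (2 * K) :=
          (norm_sub_le _ _).trans (add_le_add k1 k2)
      _ ≤ (T : ℝ) ^ (2 * K + 1) := by
          rw [pow_succ]
          nlinarith [pow_pos hT0 (2 * K)]
  have hu : D.lam α ^ I / (ρ : ℂ) ^ I * (D.lam γ ^ I' / (ρ : ℂ) ^ I') =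
      D.lam α ^ I * D.lam γ ^ I' / (ρ : ℂ) ^ (I + I') := by
    rw [pow_add, div_mul_div_comm]
  have hae0 : MvPolynomial.aeval D.lam F = D.lam α ^ I * D.lam γ ^ I' - (ρ : ℂ) ^ (I + I') := by
    rw [hae, h0]
  have hne' : MvPolynomial.aeval D.lam F ≠ 0 := by
    rw [hae0]
    intro h3
    apply hne
    rw [hu, sub_eq_zero.1 h3, div_self hρp]
  have h5 := hL F _ (one_le_pow₀ hT1) hBd hne'
  have h6 : D.lam α ^ I / (ρ : ℂ) ^ I * (D.lam γ ^ I' / (ρ : ℂ) ^ I') - 1 =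
      MvPolynomial.aeval D.lam F / (ρ : ℂ) ^ (I + I') := by
    rw [hu, hae0, sub_div, div_self hρp]
  rw [h6, norm_div, norm_pow, Complex.norm_real, Real.norm_of_nonneg hρ.le]
  have h7 : ρ ^ (I + I') ≤ (T : ℝ) ^ (2 * K) :=
    (pow_le_pow_left₀ hρ.le hρT _).trans (hpw _ (by omega))
  rw [← pow_mul] at h5
  rw [div_le_div_iff₀ (pow_pos hT0 _) (pow_pos hρ _), one_mul,
    pow_add (T : ℝ) ((2 * K + 1) * cL) (2 * K)]
  have h8 : (T : ℝ) ^ (2 * K) * 1 ≤ (T : ℝ) ^ (2 * K) *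
      ((T : ℝ) ^ ((2 * K + 1) * cL) * ‖MvPolynomial.aeval D.lam F‖) :=
    mul_le_mul_of_nonneg_left h5 (by positivity)
  calc ρ ^ (I + I') ≤ (T : ℝ) ^ (2 * K) * 1 := by rw [mul_one]; exact h7
    _ ≤ _ := h8
    _ = ‖MvPolynomial.aeval D.lam F‖ * ((T : ℝ) ^ ((2 * K + 1) * cL) * (T : ℝ) ^ (2 * K)) := by
        ring

/-- size of the bound for `n` -/
private theorem d1_size (cL k0 : ℕ) (T : ℕ) (hT : 2 ≤ T) :
    12 * (2 * T ^ k0 + 1) ^ 2 * T ^ ((2 * T ^ k0 + 1) * cL + 2 * T ^ k0) ≤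
      2 ^ (T ^ (k0 + 3 * cL + 13)) := by
  obtain ⟨K, hK⟩ : ∃ K, K = T ^ k0 := ⟨_, rfl⟩
  have hK1 : 1 ≤ K := by rw [hK]; exact Nat.one_le_pow _ _ (by omega)
  rw [← hK]
  have e1 : 2 * K + 1 ≤ 2 ^ (2 * K + 1) := Nat.lt_two_pow_self.le
  have e2 : T ≤ 2 ^ T := Nat.lt_two_pow_self.le
  have e3 : 12 * (2 * K + 1) ^ 2 * T ^ ((2 * K + 1) * cL + 2 * K) ≤
      2 ^ 4 * (2 ^ (2 * K + 1)) ^ 2 * (2 ^ T) ^ ((2 * K + 1) * cL + 2 * K) := by
    refine Nat.mul_le_mul (Nat.mul_le_mul (by norm_num) (Nat.pow_le_pow_left e1 2))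
      (Nat.pow_le_pow_left e2 _)
  refine e3.trans ?_
  rw [← pow_mul, ← pow_mul, ← pow_add, ← pow_add]
  refine Nat.pow_le_pow_right (by norm_num) ?_
  have e4 : 4 + (2 * K + 1) * 2 + T * ((2 * K + 1) * cL + 2 * K) ≤ K * T * (3 * cL + 12) := by
    have h1 : (2 * K + 1) * cL ≤ 3 * K * cL := Nat.mul_le_mul_right _ (by omega)
    have h2 : T * ((2 * K + 1) * cL + 2 * K) ≤ T * (3 * K * cL + 2 * K) :=
      Nat.mul_le_mul_left _ (by omega)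
    have h3 : K ≤ K * T := Nat.le_mul_of_pos_right _ (by omega)
    have h4 : T * (3 * K * cL + 2 * K) = K * T * (3 * cL + 2) := by ring
    have h5 : K * T * (3 * cL + 12) = K * T * (3 * cL + 2) + 10 * (K * T) := by ring
    omega
  have e5 : 3 * cL + 12 ≤ T ^ (3 * cL + 12) :=
    Nat.lt_two_pow_self.le.trans (Nat.pow_le_pow_left hT _)
  calc 4 + (2 * K + 1) * 2 + T * ((2 * K + 1) * cL + 2 * K) ≤ K * T * (3 * cL + 12) := e4
    _ ≤ K * T * T ^ (3 * cL + 12) := Nat.mul_le_mul_left _ e5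
    _ = T ^ (k0 + 3 * cL + 13) := by
        rw [hK]
        ring


/-- `b ζ₀ = -‖b‖` and small changes -/
private theorem d1_re {b z : ℂ} {ε : ℝ} (hb : 0 < ‖b‖)
    (hz : ‖z - (-(starRingEnd ℂ b) / (‖b‖ : ℂ))‖ ≤ ε) : (b * z).re ≤ -‖b‖ + ‖b‖ * ε := by
  have hbc : (‖b‖ : ℂ) ≠ 0 := by exact_mod_cast hb.ne'
  have h1 : b * (-(starRingEnd ℂ b) / (‖b‖ : ℂ)) = ((-‖b‖ : ℝ) : ℂ) := by
    rw [mul_div_assoc', mul_neg, Complex.mul_conj', neg_div, sq, mul_div_assoc, div_self hbc,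
      mul_one]
    push_cast
    rfl
  have h2 : b * z = ((-‖b‖ : ℝ) : ℂ) + b * (z - (-(starRingEnd ℂ b) / (‖b‖ : ℂ))) := by
    rw [← h1]
    ring
  rw [h2, Complex.add_re, Complex.ofReal_re]
  have h3 : (b * (z - (-(starRingEnd ℂ b) / (‖b‖ : ℂ)))).re ≤ ‖b‖ * ε := by
    refine (Complex.re_le_norm _).trans ?_
    rw [norm_mul]
    exact mul_le_mul_of_nonneg_left hz hb.le
  linarith

private theorem d1_unit {b : ℂ} (hb : 0 < ‖b‖) : ‖-(starRingEnd ℂ b) / (‖b‖ : ℂ)‖ = 1 := by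
  rw [norm_div, norm_neg, RCLike.norm_conj, Complex.norm_real, Real.norm_of_nonneg hb.le,
    div_self hb.ne']

private theorem d1_prod (a : ℝ) (b e : ℂ) :
    ((a : ℂ)) ^ 4 + 16 * (b * starRingEnd ℂ b) ^ 2 + 16 * (e * starRingEnd ℂ e) ^ 2
      - 8 * (a : ℂ) ^ 2 * (b * starRingEnd ℂ b) - 8 * (a : ℂ) ^ 2 * (e * starRingEnd ℂ e)
      - 32 * (b * starRingEnd ℂ b) * (e * starRingEnd ℂ e) =
      (((a + 2 * ‖b‖ + 2 * ‖e‖) * (a + 2 * ‖b‖ - 2 * ‖e‖) * (a - 2 * ‖b‖ + 2 * ‖e‖) *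
        (a - 2 * ‖b‖ - 2 * ‖e‖) : ℝ) : ℂ) := by
  rw [Complex.mul_conj', Complex.mul_conj']
  push_cast
  ring

theorem delta_indep (d : ℕ) :
    ∃ c : ℕ, ∀ (T : ℕ) (D : Dat d T) (J : Finset (Fin d)) (ρ : ℝ), D.IsMin J → D.Top J ρ →
      ∀ i0 i1 i2 i3 i4 : Fin d, J = {i0, i1, i2, i3, i4} → D.circ J ρ = J →
      Set.InjOn D.lam J → D.lam i0 = (ρ : ℂ) → D.lam i2 = starRingEnd ℂ (D.lam i1) →
      D.lam i4 = starRingEnd ℂ (D.lam i3) → D.lam i1 ≠ D.lam i2 → D.lam i3 ≠ D.lam i4 →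
      i1 ≠ i3 → i1 ≠ i4 →
      (∀ i j : ℤ, |i| ≤ T ^ c → |j| ≤ T ^ c → (i, j) ≠ (0, 0) →
        (D.lam i1 / ρ) ^ i * (D.lam i3 / ρ) ^ j ≠ 1) →
      (∀ n ≤ 2 ^ (T ^ c), 0 ≤ D.x n) → ∀ n, 0 ≤ D.x n := by
  obtain ⟨cY, hcY⟩ := Y_bounds d
  obtain ⟨cQ, hcQ⟩ := Q_bounds d
  obtain ⟨cA, hcA⟩ := YP_bd d
  obtain ⟨cB, hcB⟩ := QP_bd d
  obtain ⟨cL, hcL⟩ := liou_bd d
  obtain ⟨cK, hcK⟩ := exists_K
  obtain ⟨cR, hcR⟩ := rep_simple d
  obtain ⟨m1, hm1⟩ : ∃ m, m = cY + cQ := ⟨_, rfl⟩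
  obtain ⟨c2, hc2⟩ : ∃ m, m = cA + cB := ⟨_, rfl⟩
  obtain ⟨k, hk⟩ : ∃ m, m = (7 + 12 * c2) * cL + 12 * cQ := ⟨_, rfl⟩
  obtain ⟨c1, hc1⟩ : ∃ m, m = k + 9 + 3 * m1 := ⟨_, rfl⟩
  obtain ⟨c4, hc4⟩ : ∃ m, m = c1 + m1 + 3 := ⟨_, rfl⟩
  refine ⟨c4 * cK + 3 * cL + 13, ?_⟩
  intro T D J ρ hJ hTop i0 i1 i2 i3 i4 hJe hcirc hinj h0 h2 h4 h12 h34 h13 h14 hind hpos
  have hT2 : (2 : ℝ) ≤ T := by exact_mod_cast D.two_le
  have hT1 : (1 : ℝ) ≤ T := by linarith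
  have hT0 : (0 : ℝ) < T := by linarith
  have hρ : 0 < ρ := hTop.1
  have hρc : (ρ : ℂ) ≠ 0 := by exact_mod_cast hρ.ne'
  -- membership
  have m0 : i0 ∈ J := by rw [hJe]; simp
  have m1' : i1 ∈ J := by rw [hJe]; simp
  have m2 : i2 ∈ J := by rw [hJe]; simp
  have m3 : i3 ∈ J := by rw [hJe]; simp
  have m4 : i4 ∈ J := by rw [hJe]; simp
  have hnorm : ∀ i ∈ J, ‖D.lam i‖ = ρ := by
    intro i hi
    rw [← hcirc] at hi
    exact ((rs_mem_circ D J ρ i).1 hi).2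
  -- the indices are different
  have d12 : i1 ≠ i2 := fun h => h12 (by rw [h])
  have d34 : i3 ≠ i4 := fun h => h34 (by rw [h])
  have creal : starRingEnd ℂ (ρ : ℂ) = (ρ : ℂ) := Complex.conj_ofReal ρ
  have d01 : i0 ≠ i1 := by
    intro h
    apply h12
    rw [h2, ← h, h0, creal]
  have d02 : i0 ≠ i2 := by
    intro h
    apply h12
    have h5 : D.lam i1 = starRingEnd ℂ (D.lam i2) := by rw [h2, Complex.conj_conj]
    rw [h5, ← h, h0, creal]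
  have d03 : i0 ≠ i3 := by
    intro h
    apply h34
    rw [h4, ← h, h0, creal]
  have d04 : i0 ≠ i4 := by
    intro h
    apply h34
    have h5 : D.lam i3 = starRingEnd ℂ (D.lam i4) := by rw [h4, Complex.conj_conj]
    rw [h5, ← h, h0, creal]
  have d23 : i2 ≠ i3 := by
    intro h
    apply h14
    refine hinj m1' m4 ?_
    rw [h4, ← h, h2, Complex.conj_conj]
  have d24 : i2 ≠ i4 := by
    intro h
    apply h13
    refine hinj m1' m3 ?_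
    have h5 : D.lam i1 = starRingEnd ℂ (D.lam i2) := by rw [h2, Complex.conj_conj]
    rw [h5, h, h4, Complex.conj_conj]
  have hsum : ∀ f : Fin d → ℂ, ∑ i ∈ J, f i = f i0 + f i1 + f i2 + f i3 + f i4 := by
    intro f
    rw [hJe, Finset.sum_insert, Finset.sum_insert, Finset.sum_insert, Finset.sum_insert,
      Finset.sum_singleton]
    · ring
    · simp [d34]
    · simp [d23, d24]
    · simp [d12, h13, h14]
    · simp [d01, d02, d03, d04]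
  -- nonvanishing of Q and the coefficients
  have hinj' : Set.InjOn D.lam (D.circ J ρ) := by rw [hcirc]; exact hinj
  have hQ0 : ∀ i ∈ J, D.Q J i ≠ 0 := fun i hi =>
    Q_ne_zero D J ρ hTop hinj' i (by rw [hcirc]; exact hi)
  obtain ⟨β, hβ⟩ : ∃ β : Fin d → ℂ, ∀ i, β i = D.Y J i / D.Q J i := ⟨_, fun _ => rfl⟩
  have hβY : ∀ i ∈ J, D.Y J i = β i * D.Q J i := by
    intro i hi
    rw [hβ, div_mul_cancel₀ _ (hQ0 i hi)]
  have hβup : ∀ i ∈ J, ‖β i‖ ≤ (T : ℝ) ^ m1 := by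
    intro i hi
    have hQp : 0 < ‖D.Q J i‖ := norm_pos_iff.2 (hQ0 i hi)
    have k1 := (hcQ T D J i).2 (hQ0 i hi)
    have k2 := (hcY T D J hJ i hi).1
    rw [hβ, norm_div, div_le_iff₀ hQp, hm1, pow_add, mul_assoc]
    calc ‖D.Y J i‖ ≤ (T : ℝ) ^ cY * 1 := by rw [mul_one]; exact k2
      _ ≤ _ := mul_le_mul_of_nonneg_left k1 (by positivity)
  have hβlo : ∀ i ∈ J, 1 ≤ (T : ℝ) ^ m1 * ‖β i‖ := by
    intro i hi
    have k1 := (hcQ T D J i).1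
    have k2 := (hcY T D J hJ i hi).2
    rw [hβY i hi, norm_mul] at k2
    refine k2.trans ?_
    rw [hm1, pow_add]
    calc (T : ℝ) ^ cY * (‖β i‖ * ‖D.Q J i‖) ≤ (T : ℝ) ^ cY * (‖β i‖ * (T : ℝ) ^ cQ) := by
          gcongr
      _ = _ := by ring
  have hc0 : starRingEnd ℂ (β i0) = β i0 := by
    rw [hβ, ← d1_conj D J hJ m0 m0 (by rw [h0, creal])]
  have hc12 : β i2 = starRingEnd ℂ (β i1) := by
    rw [hβ, hβ]
    exact d1_conj D J hJ m1' m2 h2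
  have hc34 : β i4 = starRingEnd ℂ (β i3) := by
    rw [hβ, hβ]
    exact d1_conj D J hJ m3 m4 h4
  obtain ⟨a, ha⟩ : ∃ a : ℝ, β i0 = (a : ℂ) := ⟨(β i0).re, (Complex.conj_eq_iff_re.1 hc0).symm⟩
  obtain ⟨b, hb⟩ : ∃ b : ℂ, b = β i1 := ⟨_, rfl⟩
  obtain ⟨e, he⟩ : ∃ e : ℂ, e = β i3 := ⟨_, rfl⟩
  obtain ⟨w, hw⟩ : ∃ w : ℂ, w = D.lam i1 / ρ := ⟨_, rfl⟩
  obtain ⟨v, hv⟩ : ∃ v : ℂ, v = D.lam i3 / ρ := ⟨_, rfl⟩
  -- the representation
  obtain ⟨ww, _, hrep, hww⟩ := hcR T D J ρ hJ hTop hinj'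
  have hrep' : ∀ n : ℕ, (D.x n : ℝ) = ρ ^ n * (a + 2 * (b * w ^ n).re + 2 * (e * v ^ n).re) := by
    intro n
    have k1 := hrep n
    rw [hww hcirc, hcirc, hsum, Pi.zero_apply, add_zero, ← hβ, ← hβ, ← hβ, ← hβ, ← hβ, ha, hc12,
      hc34, h0, h2, h4, ← hb, ← he] at k1
    have k2 : starRingEnd ℂ b * starRingEnd ℂ (D.lam i1) ^ n =
        starRingEnd ℂ (b * D.lam i1 ^ n) := by rw [map_mul, map_pow]
    have k3 : starRingEnd ℂ e * starRingEnd ℂ (D.lam i3) ^ n =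
        starRingEnd ℂ (e * D.lam i3 ^ n) := by rw [map_mul, map_pow]
    rw [k2, k3] at k1
    have k4 : (D.x n : ℝ) = (D.xc n).re := by
      unfold Dat.xc
      rw [Complex.intCast_re]
    have k5 : D.lam i1 ^ n = ((ρ ^ n : ℝ) : ℂ) * w ^ n := by
      rw [hw, div_pow]
      push_cast
      field_simp
    have k6 : D.lam i3 ^ n = ((ρ ^ n : ℝ) : ℂ) * v ^ n := by
      rw [hv, div_pow]
      push_cast
      field_simp
    have k7 : (b * D.lam i1 ^ n).re = ρ ^ n * (b * w ^ n).re := by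
      rw [k5, mul_left_comm, Complex.re_ofReal_mul]
    have k8 : (e * D.lam i3 ^ n).re = ρ ^ n * (e * v ^ n).re := by
      rw [k6, mul_left_comm, Complex.re_ofReal_mul]
    have k9 : ((a : ℂ) * (ρ : ℂ) ^ n).re = a * ρ ^ n := by
      rw [Complex.re_ofReal_mul]
      congr 1
      exact_mod_cast Complex.ofReal_re (ρ ^ n)
    rw [k4, k1, Complex.add_re, Complex.add_re, Complex.add_re, Complex.add_re, Complex.conj_re,
      Complex.conj_re, k7, k8, k9]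
    ring
  have hwn : ‖w‖ = 1 := by
    rw [hw, norm_div, hnorm i1 m1', Complex.norm_real, Real.norm_of_nonneg hρ.le,
      div_self hρ.ne']
  have hvn : ‖v‖ = 1 := by
    rw [hv, norm_div, hnorm i3 m3, Complex.norm_real, Real.norm_of_nonneg hρ.le,
      div_self hρ.ne']
  have hbu : ‖b‖ ≤ (T : ℝ) ^ m1 := hb ▸ hβup i1 m1'
  have heu : ‖e‖ ≤ (T : ℝ) ^ m1 := he ▸ hβup i3 m3
  have hbl : 1 ≤ (T : ℝ) ^ m1 * ‖b‖ := hb ▸ hβlo i1 m1'
  have hel : 1 ≤ (T : ℝ) ^ m1 * ‖e‖ := he ▸ hβlo i3 m3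
  have hau : |a| ≤ (T : ℝ) ^ m1 := by
    have k1 := hβup i0 m0
    rwa [ha, Complex.norm_real, Real.norm_eq_abs] at k1
  have hTm : 0 < (T : ℝ) ^ m1 := pow_pos hT0 _
  have hb0 : 0 < ‖b‖ := by
    by_contra hcon
    push Not at hcon
    have := mul_nonpos_of_nonneg_of_nonpos hTm.le hcon
    linarith
  have he0 : 0 < ‖e‖ := by
    by_contra hcon
    push Not at hcon
    have := mul_nonpos_of_nonneg_of_nonpos hTm.le hcon
    linarith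
  by_cases hcase : 2 * ‖b‖ + 2 * ‖e‖ ≤ a
  · -- nonnegative for all n
    intro n
    have k1 : -‖b‖ ≤ (b * w ^ n).re := by
      have k2 := Complex.abs_re_le_norm (b * w ^ n)
      rw [norm_mul, norm_pow, hwn, one_pow, mul_one] at k2
      exact (abs_le.1 k2).1
    have k3 : -‖e‖ ≤ (e * v ^ n).re := by
      have k2 := Complex.abs_re_le_norm (e * v ^ n)
      rw [norm_mul, norm_pow, hvn, one_pow, mul_one] at k2
      exact (abs_le.1 k2).1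
    have k4 : (0 : ℝ) ≤ D.x n := by
      rw [hrep' n]
      refine mul_nonneg (pow_nonneg hρ.le _) ?_
      linarith
    exact_mod_cast k4
  · exfalso
    push Not at hcase
    -- the gap
    have hgap : 1 ≤ (T : ℝ) ^ c1 * (2 * ‖b‖ + 2 * ‖e‖ - a) := by
      have hq0 : ∀ i ∈ J, ‖D.Q J i‖ ≤ (T : ℝ) ^ cQ := fun i _ => (hcQ T D J i).1
      obtain ⟨F, hF⟩ : ∃ F : MvPolynomial (Fin d) ℤ, F = GG (YP D.x J i0) (YP D.x J i1)
          (YP D.x J i2) (YP D.x J i3) (YP D.x J i4) (QP J i0) (QP J i1) (QP J i2) (QP J i3)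
          (QP J i4) := ⟨_, rfl⟩
      have hFae : ∀ μ : Fin d → ℂ, MvPolynomial.aeval μ F = GG
          (MvPolynomial.aeval μ (YP D.x J i0)) (MvPolynomial.aeval μ (YP D.x J i1))
          (MvPolynomial.aeval μ (YP D.x J i2)) (MvPolynomial.aeval μ (YP D.x J i3))
          (MvPolynomial.aeval μ (YP D.x J i4)) (MvPolynomial.aeval μ (QP J i0))
          (MvPolynomial.aeval μ (QP J i1)) (MvPolynomial.aeval μ (QP J i2))
          (MvPolynomial.aeval μ (QP J i3)) (MvPolynomial.aeval μ (QP J i4)) := by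
        intro μ
        rw [hF]
        exact map_GG (MvPolynomial.aeval μ : MvPolynomial (Fin d) ℤ →ₐ[ℤ] ℂ).toRingHom
          _ _ _ _ _ _ _ _ _ _
      have hYb : ∀ i (μ : Fin d → ℂ), (∀ i, ‖μ i‖ ≤ T) →
          ‖MvPolynomial.aeval μ (YP D.x J i)‖ ≤ (T : ℝ) ^ c2 := by
        intro i μ hμ
        refine (hcA T D.two_le D.x D.x_le J i μ hμ).trans (pow_le_pow_right₀ hT1 (by omega))
      have hQb : ∀ i (μ : Fin d → ℂ), (∀ i, ‖μ i‖ ≤ T) →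
          ‖MvPolynomial.aeval μ (QP J i)‖ ≤ (T : ℝ) ^ c2 := by
        intro i μ hμ
        refine (hcB T D.two_le J i μ hμ).trans (pow_le_pow_right₀ hT1 (by omega))
      have h81 : (81 : ℝ) ≤ (T : ℝ) ^ 7 := by
        have : (2 : ℝ) ^ 7 ≤ (T : ℝ) ^ 7 := pow_le_pow_left₀ (by norm_num) hT2 7
        norm_num at this
        linarith
      have hFb : Bd F T ((T : ℝ) ^ (7 + 12 * c2)) := by
        intro μ hμ
        rw [hFae μ]
        refine (GG_bd (A := (T : ℝ) ^ c2) (by positivity) (hYb _ μ hμ) (hYb _ μ hμ) (hYb _ μ hμ)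
          (hYb _ μ hμ) (hYb _ μ hμ) (hQb _ μ hμ) (hQb _ μ hμ) (hQb _ μ hμ) (hQb _ μ hμ)
          (hQb _ μ hμ)).trans ?_
        rw [pow_add, ← pow_mul, mul_comm c2 12]
        exact mul_le_mul_of_nonneg_right h81 (by positivity)
      have hYe : ∀ i, MvPolynomial.aeval D.lam (YP D.x J i) = D.Y J i := fun i =>
        aeval_YP D.x J i D.lam
      have hQe : ∀ i, MvPolynomial.aeval D.lam (QP J i) = D.Q J i := fun i =>
        aeval_QP J i D.lam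
      obtain ⟨P, hP⟩ : ∃ P : ℝ, P = (a + 2 * ‖b‖ + 2 * ‖e‖) * (a + 2 * ‖b‖ - 2 * ‖e‖) *
          (a - 2 * ‖b‖ + 2 * ‖e‖) * (a - 2 * ‖b‖ - 2 * ‖e‖) := ⟨_, rfl⟩
      have hFval : MvPolynomial.aeval D.lam F = (P : ℂ) * (D.Q J i0 ^ 4 * D.Q J i1 ^ 2 *
          D.Q J i2 ^ 2 * D.Q J i3 ^ 2 * D.Q J i4 ^ 2) := by
        rw [hFae, hYe, hYe, hYe, hYe, hYe, hQe, hQe, hQe, hQe, hQe, hβY i0 m0, hβY i1 m1',
          hβY i2 m2, hβY i3 m3, hβY i4 m4, GG_eq, ha, hc12, hc34, ← hb, ← he, hP, ← d1_prod]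
      have hQQ : ‖D.Q J i0 ^ 4 * D.Q J i1 ^ 2 * D.Q J i2 ^ 2 * D.Q J i3 ^ 2 * D.Q J i4 ^ 2‖ ≤
          (T : ℝ) ^ (12 * cQ) := by
        rw [norm_mul, norm_mul, norm_mul, norm_mul, norm_pow, norm_pow, norm_pow, norm_pow,
          norm_pow]
        have k0 := hq0 i0 m0
        have k1 := hq0 i1 m1'
        have k2 := hq0 i2 m2
        have k3 := hq0 i3 m3
        have k4 := hq0 i4 m4
        calc ‖D.Q J i0‖ ^ 4 * ‖D.Q J i1‖ ^ 2 * ‖D.Q J i2‖ ^ 2 * ‖D.Q J i3‖ ^ 2 * ‖D.Q J i4‖ ^ 2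
            ≤ ((T : ℝ) ^ cQ) ^ 4 * ((T : ℝ) ^ cQ) ^ 2 * ((T : ℝ) ^ cQ) ^ 2 *
              ((T : ℝ) ^ cQ) ^ 2 * ((T : ℝ) ^ cQ) ^ 2 := by gcongr
          _ = (T : ℝ) ^ (12 * cQ) := by ring
      have hPk : P = 0 ∨ 1 / (T : ℝ) ^ k ≤ |P| := by
        by_cases hP0 : P = 0
        · exact Or.inl hP0
        · right
          have hne : MvPolynomial.aeval D.lam F ≠ 0 := by
            rw [hFval]
            refine mul_ne_zero (by exact_mod_cast hP0) ?_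
            have k0 := hQ0 i0 m0
            have k1 := hQ0 i1 m1'
            have k2 := hQ0 i2 m2
            have k3 := hQ0 i3 m3
            have k4 := hQ0 i4 m4
            positivity
          have k5 := hcL T D F _ (one_le_pow₀ hT1) hFb hne
          rw [hFval, norm_mul, Complex.norm_real, Real.norm_eq_abs, ← pow_mul] at k5
          rw [div_le_iff₀ (pow_pos hT0 _), hk, pow_add]
          refine k5.trans ?_
          calc (T : ℝ) ^ ((7 + 12 * c2) * cL) * (|P| * ‖D.Q J i0 ^ 4 * D.Q J i1 ^ 2 *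
                D.Q J i2 ^ 2 * D.Q J i3 ^ 2 * D.Q J i4 ^ 2‖)
              ≤ (T : ℝ) ^ ((7 + 12 * c2) * cL) * (|P| * (T : ℝ) ^ (12 * cQ)) := by gcongr
            _ = _ := by ring
      have key := d1_gap (a := a) (p := 2 * ‖b‖) (q := 2 * ‖e‖) (M := 5 * (T : ℝ) ^ m1)
        (κ := 1 / (T : ℝ) ^ k) (by positivity) (by positivity) (by linarith) hcase
        (by
          rcases hPk with h5 | h5
          · right
            rw [← hP]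
            exact h5
          · left
            rw [← hP]
            exact h5)
      obtain ⟨δ, hδ⟩ : ∃ δ : ℝ, δ = 2 * ‖b‖ + 2 * ‖e‖ - a := ⟨_, rfl⟩
      rw [← hδ] at key ⊢
      have hδ0 : 0 < δ := by rw [hδ]; linarith
      have hlow : ∀ r : ℝ, 1 ≤ (T : ℝ) ^ m1 * r → 2 * r ≤ δ → 1 ≤ (T : ℝ) ^ c1 * δ := by
        intro r hr1 hr2
        have hr0 : 0 < r := by
          by_contra hcon
          push Not at hcon
          have := mul_nonpos_of_nonneg_of_nonpos hTm.le hcon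
          linarith
        have k1 : (T : ℝ) ^ m1 ≤ (T : ℝ) ^ c1 := pow_le_pow_right₀ hT1 (by omega)
        calc 1 ≤ (T : ℝ) ^ m1 * r := hr1
          _ ≤ (T : ℝ) ^ m1 * δ := mul_le_mul_of_nonneg_left (by linarith) hTm.le
          _ ≤ _ := mul_le_mul_of_nonneg_right k1 hδ0.le
      rcases key with h5 | h5 | h5
      · rw [div_le_iff₀ (pow_pos hT0 _)] at h5
        have h125 : (125 : ℝ) ≤ (T : ℝ) ^ 7 := by
          have : (2 : ℝ) ^ 7 ≤ (T : ℝ) ^ 7 := pow_le_pow_left₀ (by norm_num) hT2 7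
          norm_num at this
          linarith
        have h6 : (5 * (T : ℝ) ^ m1) ^ 3 ≤ (T : ℝ) ^ (9 + 3 * m1) := by
          calc (5 * (T : ℝ) ^ m1) ^ 3 = 125 * (T : ℝ) ^ (3 * m1) := by ring
            _ ≤ (T : ℝ) ^ 7 * (T : ℝ) ^ (3 * m1) :=
                mul_le_mul_of_nonneg_right h125 (by positivity)
            _ = (T : ℝ) ^ (7 + 3 * m1) := by rw [pow_add]
            _ ≤ (T : ℝ) ^ (9 + 3 * m1) := pow_le_pow_right₀ hT1 (by omega)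
        calc 1 ≤ (5 * (T : ℝ) ^ m1) ^ 3 * δ * (T : ℝ) ^ k := h5
          _ ≤ (T : ℝ) ^ (9 + 3 * m1) * δ * (T : ℝ) ^ k := by gcongr
          _ = (T : ℝ) ^ c1 * δ := by
              rw [hc1, pow_add (T : ℝ) (k + 9), pow_add (T : ℝ) k, pow_add (T : ℝ) 9]
              ring
      · exact hlow ‖b‖ hbl h5
      · exact hlow ‖e‖ hel h5
    -- density
    have hρT : ρ ≤ T := by
      rw [← hnorm i0 m0]
      exact D.lam_le i0
    obtain ⟨A, hA⟩ : ∃ A : ℕ, A = T ^ c4 := ⟨_, rfl⟩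
    have hA2 : 2 ≤ A := by
      rw [hA]
      calc 2 = 2 ^ 1 := by norm_num
        _ ≤ T ^ 1 := Nat.pow_le_pow_left D.two_le 1
        _ ≤ T ^ c4 := Nat.pow_le_pow_right (by have := D.two_le; omega) (by omega)
    have hAr : (A : ℝ) = (T : ℝ) ^ c4 := by rw [hA]; push_cast; rfl
    obtain ⟨K, hKdef⟩ : ∃ K : ℕ, K = T ^ (c4 * cK) := ⟨_, rfl⟩
    have hKA : K = A ^ cK := by rw [hKdef, hA, pow_mul]
    have hKcond : 4 * (2 * (K : ℝ) + 1) * (1 - (1 / (A : ℝ)) ^ 2 / 4) ^ K ≤ 1 := by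
      have k1 := hcK A hA2
      have k2 : (K : ℝ) = (A : ℝ) ^ cK := by rw [hKA]; push_cast; rfl
      rw [k2, hKA]
      exact k1
    have hA0 : (0 : ℝ) < A := by
      have : (2 : ℝ) ≤ A := by exact_mod_cast hA2
      linarith
    have hε2 : 1 / (A : ℝ) ≤ 2 := by
      rw [div_le_iff₀ hA0]
      have : (2 : ℝ) ≤ A := by exact_mod_cast hA2
      linarith
    obtain ⟨E, hE⟩ : ∃ E : ℕ, E = (2 * K + 1) * cL + 2 * K := ⟨_, rfl⟩
    have hη : (0 : ℝ) < 1 / (T : ℝ) ^ E := by positivity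
    have hlow : ∀ i j : ℤ, |i| ≤ K → |j| ≤ K → (i, j) ≠ (0, 0) →
        1 / (T : ℝ) ^ E ≤ ‖w ^ i * v ^ j - 1‖ := by
      intro i j hi hj hij
      have hKc : (K : ℤ) ≤ (T : ℤ) ^ (c4 * cK + 3 * cL + 13) := by
        rw [hKdef]
        push_cast
        exact pow_le_pow_right₀ (by have := D.two_le; omega) (by omega)
      have k1 := hind i j (hi.trans hKc) (hj.trans hKc) hij
      obtain ⟨α, hα⟩ := d1_zpow D hρ (hnorm i1 m1') h2 i
      obtain ⟨γ, hγ⟩ := d1_zpow D hρ (hnorm i3 m3) h4 j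
      rw [hw, hv, hα, hγ]
      rw [hα, hγ] at k1
      rw [hE]
      refine d1_eta D hρ hρT h0 (fun F B hB1 hB2 hB3 => hcL T D F B hB1 hB2 hB3) K _ _ ?_ ?_
        α γ k1
      · have k2 : ((i.natAbs : ℕ) : ℤ) ≤ K := by rw [Int.natCast_natAbs]; exact hi
        exact_mod_cast k2
      · have k2 : ((j.natAbs : ℕ) : ℤ) ≤ K := by rw [Int.natCast_natAbs]; exact hj
        exact_mod_cast k2
    obtain ⟨N, hN⟩ : ∃ N : ℕ, N = 12 * (2 * K + 1) ^ 2 * T ^ E + 1 := ⟨_, rfl⟩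
    have hNc : 12 * (2 * (K : ℝ) + 1) ^ 2 < 1 / (T : ℝ) ^ E * N := by
      rw [hN]
      push_cast
      rw [mul_add, mul_one]
      have k1 : 1 / (T : ℝ) ^ E * (12 * (2 * (K : ℝ) + 1) ^ 2 * (T : ℝ) ^ E) =
          12 * (2 * (K : ℝ) + 1) ^ 2 := by
        field_simp
      rw [k1]
      linarith
    obtain ⟨n, _, hn2, hn3, hn4⟩ := dens2 w v (-(starRingEnd ℂ b) / (‖b‖ : ℂ))
      (-(starRingEnd ℂ e) / (‖e‖ : ℂ)) hwn hvn (d1_unit hb0) (d1_unit he0) K (1 / (A : ℝ))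
      (1 / (T : ℝ) ^ E) (by positivity) hε2 hη hKcond hlow N hNc 0
    have hnle : n ≤ 2 ^ (T ^ (c4 * cK + 3 * cL + 13)) := by
      have k1 := d1_size cL (c4 * cK) T D.two_le
      rw [← hKdef, ← hE] at k1
      omega
    have k1 := d1_re hb0 hn3
    have k2 := d1_re he0 hn4
    have k3 := hpos n hnle
    have k4 : (0 : ℝ) ≤ D.x n := by exact_mod_cast k3
    rw [hrep' n] at k4
    have k5 : a + 2 * (b * w ^ n).re + 2 * (e * v ^ n).re < 0 := by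
      have k6 : (2 * ‖b‖ + 2 * ‖e‖) * (1 / (A : ℝ)) < 2 * ‖b‖ + 2 * ‖e‖ - a := by
        obtain ⟨δ, hδ⟩ : ∃ δ : ℝ, δ = 2 * ‖b‖ + 2 * ‖e‖ - a := ⟨_, rfl⟩
        rw [← hδ] at hgap ⊢
        have hT4 : (4 : ℝ) ≤ (T : ℝ) ^ 2 := by nlinarith
        have k7 : 2 * ‖b‖ + 2 * ‖e‖ ≤ (T : ℝ) ^ (m1 + 2) := by
          calc 2 * ‖b‖ + 2 * ‖e‖ ≤ (T : ℝ) ^ m1 * 4 := by linarith
            _ ≤ (T : ℝ) ^ m1 * (T : ℝ) ^ 2 := mul_le_mul_of_nonneg_left hT4 hTm.le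
            _ = (T : ℝ) ^ (m1 + 2) := by rw [pow_add]
        have hδ0 : 0 < δ := by
          by_contra hcon
          push Not at hcon
          have := mul_nonpos_of_nonneg_of_nonpos (pow_pos hT0 c1).le hcon
          linarith
        rw [mul_one_div, div_lt_iff₀ hA0, hAr]
        have k8 : (T : ℝ) ^ c4 = (T : ℝ) ^ (m1 + 2) * ((T : ℝ) ^ c1 * T) := by
          rw [hc4, ← pow_succ, ← pow_add]
          congr 1
          omega
        rw [k8]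
        calc 2 * ‖b‖ + 2 * ‖e‖ ≤ (T : ℝ) ^ (m1 + 2) := k7
          _ < (T : ℝ) ^ (m1 + 2) * 2 := by
              have := pow_pos hT0 (m1 + 2)
              linarith
          _ ≤ (T : ℝ) ^ (m1 + 2) * (((T : ℝ) ^ c1 * δ) * T) := by
              refine mul_le_mul_of_nonneg_left ?_ (by positivity)
              nlinarith
          _ = δ * ((T : ℝ) ^ (m1 + 2) * ((T : ℝ) ^ c1 * T)) := by ring
      have k9 : (2 * ‖b‖ + 2 * ‖e‖) * (1 / (A : ℝ)) =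
          2 * (‖b‖ * (1 / (A : ℝ))) + 2 * (‖e‖ * (1 / (A : ℝ))) := by ring
      linarith
    have k10 := mul_neg_of_pos_of_neg (pow_pos hρ n) k5
    linarith

end Pool.Agent.Helper73.DM
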