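import Pool.Agent.Helper73.DM.Act

/-!
# DM-B3: explicit exponential smallness of sequences killed by small roots

Induction on `I` (`Finset.induction_on`, for all `w`; the constant `c` depends only on the number of factors, so prove by induction on the number `s` of factors, `s ≤ N`, that there is a `c_s`; or prove it for lists). `I = ∅`: `w = 0`. Step: `I = insert i I'`, `y = act (X - C (z i)) w` is killed by `∏_{I'}`,
`‖y n‖ ≤ ‖w (n+1)‖ + ‖z i‖ ‖w n‖ ≤ T + T² ≤ T³` for `n < card I'` (`n + 1 < card I`). Induction with `T³` in place of `T`: `‖y n‖ (1+δ')^n ≤ A' ρ^n`, `δ' = 1/T^(3c')`, `A' = T^(3c')`. `w (n+1) = z_i w n + y n`, `‖z_i‖ ≤ ρ - 1/T ≤ ρ (1 - 1/T²)` (`ρ ≤ T`). With `δ = 1/T^c ≤ min δ' (1/(2T²))`: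
`(1+δ)(1 - 1/T²) ≤ 1 - 1/(2T²)`. `A = T^c ≥ 4 T² A' T + T`: `‖w (n+1)‖ (1+δ)^(n+1) ≤ (1 - 1/(2T²)) ρ A ρ^n + 2 A' ρ^n ≤ A ρ^(n+1)` (`1/ρ ≤ T`). `n = 0`: `‖w 0‖ ≤ T ≤ A`.
-/

set_option autoImplicit false

open Polynomial

namespace Pool.Agent.Helper73.DM

theorem effBd_step {T ρ δ δ' A A' z : ℝ} (hT : 2 ≤ T) (hρ : 1 ≤ T * ρ) (hρT : ρ ≤ T)
    (hz0 : 0 ≤ z) (hz : 1 ≤ T * (ρ - z)) (hδ0 : 0 ≤ δ) (hδ : δ ≤ δ') (hδ2 : δ * (2 * T ^ 2) ≤ 1)
    (hA' : 0 ≤ A') (hA : 4 * T ^ 3 * A' ≤ A) {w y : ℕ → ℝ} (hw0 : ∀ n, 0 ≤ w n)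
    (hy0 : ∀ n, 0 ≤ y n) (hw : ∀ n, w (n + 1) ≤ z * w n + y n) (h0 : w 0 ≤ A)
    (hy : ∀ n, y n * (1 + δ') ^ n ≤ A' * ρ ^ n) (n : ℕ) : w n * (1 + δ) ^ n ≤ A * ρ ^ n := by
  have hT0 : 0 < T := by linarith
  have hρ0 : 0 < ρ := by
    by_contra h
    push Not at h
    nlinarith
  have hA0 : 0 ≤ A := le_trans (by positivity) hA
  have hδ1 : δ ≤ 1 := by nlinarith
  -- the contraction factor
  have hz1 : z * (1 + δ) ≤ ρ * (1 - 1 / (2 * T ^ 2)) := by
    have h1 : z ≤ ρ * (1 - 1 / T ^ 2) := by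
      have h2 : 1 / T ≤ ρ - z := by
        rw [div_le_iff₀ hT0]
        linarith
      have h3 : ρ * (1 / T ^ 2) ≤ 1 / T := by
        rw [mul_one_div, div_le_div_iff₀ (by positivity) hT0]
        nlinarith
      linarith
    have h2 : (1 - 1 / T ^ 2) * (1 + δ) ≤ 1 - 1 / (2 * T ^ 2) := by
      have h3 : δ ≤ 1 / (2 * T ^ 2) := by
        rw [le_div_iff₀ (by positivity)]
        exact hδ2
      have h4 : 0 ≤ 1 / T ^ 2 := by positivity
      have h5 : 1 / (2 * T ^ 2) + 1 / (2 * T ^ 2) = 1 / T ^ 2 := by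
        field_simp
        norm_num
      nlinarith
    calc z * (1 + δ) ≤ ρ * (1 - 1 / T ^ 2) * (1 + δ) := by
          apply mul_le_mul_of_nonneg_right h1 (by linarith)
      _ = ρ * ((1 - 1 / T ^ 2) * (1 + δ)) := by ring
      _ ≤ _ := mul_le_mul_of_nonneg_left h2 hρ0.le
  have hA2 : 2 * A' ≤ A * ρ * (1 / (2 * T ^ 2)) := by
    rw [mul_one_div, le_div_iff₀ (by positivity)]
    have h1 : 4 * T ^ 3 * A' * ρ ≤ A * ρ := mul_le_mul_of_nonneg_right hA hρ0.le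
    have h2 : 4 * T ^ 2 * A' * 1 ≤ 4 * T ^ 2 * A' * (T * ρ) :=
      mul_le_mul_of_nonneg_left hρ (by positivity)
    nlinarith
  induction n with
  | zero => simpa using h0
  | succ n ih =>
    have e1 : (1 + δ) ^ n ≤ (1 + δ') ^ n := pow_le_pow_left₀ (by linarith) (by linarith) n
    have e2 : y n * (1 + δ) ^ n ≤ A' * ρ ^ n :=
      (mul_le_mul_of_nonneg_left e1 (hy0 n)).trans (hy n)
    have e3 : 0 ≤ y n * (1 + δ) ^ n := mul_nonneg (hy0 n) (by positivity)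
    have e4 : 0 ≤ w n * (1 + δ) ^ n := mul_nonneg (hw0 n) (by positivity)
    have hp : 0 ≤ (1 + δ) ^ (n + 1) := by positivity
    calc w (n + 1) * (1 + δ) ^ (n + 1) ≤ (z * w n + y n) * (1 + δ) ^ (n + 1) :=
          mul_le_mul_of_nonneg_right (hw n) hp
      _ = z * (1 + δ) * (w n * (1 + δ) ^ n) + (1 + δ) * (y n * (1 + δ) ^ n) := by ring
      _ ≤ ρ * (1 - 1 / (2 * T ^ 2)) * (A * ρ ^ n) + 2 * (A' * ρ ^ n) := by
          apply add_le_add
          · refine (mul_le_mul_of_nonneg_right hz1 e4).trans ?_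
            apply mul_le_mul_of_nonneg_left ih
            exact le_trans (by positivity) hz1
          · exact (mul_le_mul_of_nonneg_right (by linarith : 1 + δ ≤ 2) e3).trans
              (mul_le_mul_of_nonneg_left e2 (by norm_num))
      _ = ρ * (1 - 1 / (2 * T ^ 2)) * (A * ρ ^ n) + 2 * A' * ρ ^ n := by ring
      _ ≤ ρ * (1 - 1 / (2 * T ^ 2)) * (A * ρ ^ n) + A * ρ * (1 / (2 * T ^ 2)) * ρ ^ n := by
          have := mul_le_mul_of_nonneg_right hA2 (pow_nonneg hρ0.le n)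
          linarith
      _ = A * ρ ^ (n + 1) := by ring

theorem effBd_aux (N s : ℕ) :
    ∃ c : ℕ, ∀ T : ℕ, 2 ≤ T → ∀ ρ : ℝ, 0 < ρ → 1 ≤ T * ρ → ρ ≤ T →
      ∀ (z : Fin N → ℂ) (I : Finset (Fin N)), I.card ≤ s → (∀ i ∈ I, 1 ≤ T * (ρ - ‖z i‖)) →
      ∀ w : ℕ → ℂ, act (∏ i ∈ I, (X - C (z i))) w = 0 → (∀ n < I.card, ‖w n‖ ≤ T) →
      ∀ n : ℕ, ‖w n‖ * (1 + 1 / (T : ℝ) ^ c) ^ n ≤ (T : ℝ) ^ c * ρ ^ n := by
  induction s with
  | zero =>
    refine ⟨0, fun T hT ρ hρ0 hρ hρT z I hI hz w hw hwn n => ?_⟩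
    have hI0 : I = ∅ := Finset.card_eq_zero.mp (Nat.le_zero.mp hI)
    subst hI0
    rw [Finset.prod_empty, act_one] at hw
    subst hw
    simp only [Pi.zero_apply, norm_zero, zero_mul]
    positivity
  | succ s ih =>
    obtain ⟨c', ih⟩ := ih
    refine ⟨3 * c' + 5, fun T hT ρ hρ0 hρ hρT z I hI hz w hw hwn => ?_⟩
    have hT2 : (2 : ℝ) ≤ T := by exact_mod_cast hT
    have hT0 : (0 : ℝ) < T := by linarith
    rcases I.eq_empty_or_nonempty with rfl | ⟨i, hi⟩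
    · intro n
      rw [Finset.prod_empty, act_one] at hw
      subst hw
      simp only [Pi.zero_apply, norm_zero, zero_mul]
      positivity
    have hcard : (I.erase i).card + 1 = I.card := Finset.card_erase_add_one hi
    set y := act (X - C (z i)) w with hy
    have hyn : ∀ n, y n = w (n + 1) - z i * w n := fun n => act_X_sub_C _ _ _
    have hzi : ‖z i‖ ≤ T := by
      have h1 := hz i hi
      have h2 : 0 < ρ - ‖z i‖ := by
        by_contra h
        push Not at h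
        nlinarith
      linarith
    have hTT : (T : ℝ) ≤ T ^ 3 := by nlinarith [mul_pos hT0 hT0]
    have hy0 : act (∏ j ∈ I.erase i, (X - C (z j))) y = 0 := by
      rw [hy, ← act_mul, mul_comm, Finset.mul_prod_erase I (fun j => X - C (z j)) hi]
      exact hw
    have hyb := ih (T ^ 3) (by nlinarith [Nat.pow_le_pow_left hT 3]) ρ hρ0
      (by push_cast; nlinarith) (by push_cast; linarith) z (I.erase i) (by omega)
      (fun j hj => by
        have h1 := hz j (Finset.mem_of_mem_erase hj)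
        have h2 : 0 < ρ - ‖z j‖ := by
          by_contra h
          push Not at h
          nlinarith
        push_cast
        nlinarith) y hy0
      (fun n hn => by
        rw [hyn]
        refine (norm_sub_le _ _).trans ?_
        rw [norm_mul]
        have h1 := hwn (n + 1) (by omega)
        have h2 := hwn n (by omega)
        have h3 : ‖z i‖ * ‖w n‖ ≤ T * T := mul_le_mul hzi h2 (norm_nonneg _) hT0.le
        push_cast
        nlinarith [mul_pos hT0 hT0])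
    have hpow : (((T ^ 3 : ℕ) : ℝ)) ^ c' = (T : ℝ) ^ (3 * c') := by
      push_cast
      rw [← pow_mul]
    rw [hpow] at hyb
    have hTc : (0 : ℝ) < (T : ℝ) ^ (3 * c') := by positivity
    have hTc1 : (1 : ℝ) ≤ (T : ℝ) ^ (3 * c') := one_le_pow₀ (by linarith)
    have hT5 : (T : ℝ) ^ (3 * c' + 5) = (T : ℝ) ^ (3 * c') * (T : ℝ) ^ 5 := pow_add _ _ _
    have hT51 : (1 : ℝ) ≤ (T : ℝ) ^ 5 := one_le_pow₀ (by linarith)
    have hT52 : 4 * (T : ℝ) ^ 3 ≤ (T : ℝ) ^ 5 := by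
      have : (T : ℝ) ^ 5 = T ^ 3 * (T * T) := by ring
      rw [this]
      have h4 : (4 : ℝ) ≤ T * T := by nlinarith
      have : 0 ≤ (T : ℝ) ^ 3 := by positivity
      nlinarith
    apply effBd_step (T := (T : ℝ)) (z := ‖z i‖) (δ' := 1 / (T : ℝ) ^ (3 * c'))
      (A' := (T : ℝ) ^ (3 * c')) (w := fun n => ‖w n‖) (y := fun n => ‖y n‖) hT2 hρ hρT
      (norm_nonneg _) (hz i hi) (by positivity)
    · apply one_div_le_one_div_of_le hTc
      rw [hT5]
      nlinarith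
    · rw [hT5, one_div, inv_mul_le_iff₀ (by positivity), mul_one]
      have h1 : 2 * (T : ℝ) ^ 2 ≤ T ^ 5 := by
        have : 2 * (T : ℝ) ^ 2 ≤ 4 * T ^ 3 := by nlinarith [mul_pos hT0 hT0]
        linarith
      nlinarith
    · exact hTc.le
    · rw [hT5]
      nlinarith
    · exact fun n => norm_nonneg _
    · exact fun n => norm_nonneg _
    · intro n
      have h1 : w (n + 1) = z i * w n + y n := by rw [hyn]; ring
      show ‖w (n + 1)‖ ≤ ‖z i‖ * ‖w n‖ + ‖y n‖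
      rw [h1, ← norm_mul]
      exact norm_add_le _ _
    · refine (hwn 0 (by omega)).trans ?_
      rw [hT5]
      nlinarith
    · exact hyb

theorem eff_bound (N : ℕ) :
    ∃ c : ℕ, ∀ T : ℕ, 2 ≤ T → ∀ ρ : ℝ, 0 < ρ → 1 ≤ T * ρ → ρ ≤ T →
      ∀ (z : Fin N → ℂ) (I : Finset (Fin N)), (∀ i ∈ I, 1 ≤ T * (ρ - ‖z i‖)) →
      ∀ w : ℕ → ℂ, act (∏ i ∈ I, (X - C (z i))) w = 0 → (∀ n < I.card, ‖w n‖ ≤ T) →
      ∀ n : ℕ, ‖w n‖ * (1 + 1 / (T : ℝ) ^ c) ^ n ≤ (T : ℝ) ^ c * ρ ^ n := by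
  obtain ⟨c, hc⟩ := effBd_aux N N
  refine ⟨c, fun T hT ρ hρ0 hρ hρT z I hz w hw hwn => ?_⟩
  exact hc T hT ρ hρ0 hρ hρT z I ((Finset.card_le_univ I).trans_eq (Fintype.card_fin N)) hz w hw hwn

end Pool.Agent.Helper73.DM
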