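import Pool.Agent.Helper73.DM.MinJ
import Pool.Agent.Helper73.DM.EffBd

/-!
# DM-B5: explicit representation, simple roots on the circle

Let `Cc = circ J ρ`, `β_i = Y_i/Q_i` for `i ∈ Cc` (`Q_i ≠ 0`: the other `λ_j`, `j ∈ J`, are different from `λ_i`: on the circle by injectivity, inside by the modulus). `w n = xc n - ∑_{i ∈ Cc} β_i λ_i^n`. `∏_J` kills `w` (it kills `xc` and every `λ_i^n`, `i ∈ J`). For `i ∈ Cc`, `∏_{J.erase i}` kills `w`:
`act (∏_{J.erase i}) xc n = Y_i λ_i^n` (`act_erase`), `act (∏_{J.erase i}) (β_k λ_k^n) = 0` for `k ≠ i` and `= β_i Q_i λ_i^n = Y_i λ_i^n` for `k = i` (an exponential sequence is an eigenvector: `act A (z^n) = A(z) z^n`). So the gcd of the `∏_{J.erase i}` (`i ∈ Cc`) and `∏_J`, which is `∏_{J \ Cc}`, kills `w`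
(induction: if `A B` and `A (X - C z)` with `B(z) ≠ 0`... or: remove the factors one by one: if `(X - C λ_i) A` and `B A` kill `w` with `B(λ_i) ≠ 0` then `A` kills `w`). If `Cc = J` then `1` kills `w`, `w = 0`. The first `d` values of `w` are `≤ T^c` (`Y_bounds`, `Q_bounds`);
`eff_bound` with `z = lam`, `I = J \ Cc` (`gap_bd` against an index on the circle, `root_bd`: `1 ≤ T^c ρ`), `T` replaced by a power of `T`.
-/

set_option autoImplicit false

open Polynomial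

namespace Pool.Agent.Helper73.DM

theorem rs_mem_circ {d T : ℕ} (D : Dat d T) (J : Finset (Fin d)) (ρ : ℝ) (i : Fin d) :
    i ∈ D.circ J ρ ↔ i ∈ J ∧ ‖D.lam i‖ = ρ := by
  unfold Dat.circ
  rw [Finset.mem_filter]

theorem Q_ne_zero {d T : ℕ} (D : Dat d T) (J : Finset (Fin d)) (ρ : ℝ) (hT : D.Top J ρ)
    (hinj : Set.InjOn D.lam (D.circ J ρ)) (i : Fin d) (hi : i ∈ D.circ J ρ) : D.Q J i ≠ 0 := by
  unfold Dat.Q
  rw [Finset.prod_ne_zero_iff]
  intro j hj h0
  obtain ⟨hji, hjJ⟩ := Finset.mem_erase.1 hj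
  have h1 : D.lam i = D.lam j := sub_eq_zero.1 h0
  have h2 := ((rs_mem_circ D J ρ i).1 hi).2
  have h3 : j ∈ D.circ J ρ := (rs_mem_circ D J ρ j).2 ⟨hjJ, by rw [← h1]; exact h2⟩
  exact hji (hinj h3 hi h1.symm)

theorem rs_act_exp (A : ℂ[X]) (z : ℂ) (n : ℕ) :
    act A (fun m => z ^ m) n = A.eval z * z ^ n := by
  rw [act_apply, eval_eq_sum_range, Finset.sum_mul]
  refine Finset.sum_congr rfl fun i _ => ?_
  rw [pow_add]
  ring

theorem rs_act_sum {ι : Type*} (A : ℂ[X]) (s : Finset ι) (f : ι → ℕ → ℂ) :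
    act A (∑ i ∈ s, f i) = ∑ i ∈ s, act A (f i) := by
  unfold act
  rw [map_sum]

theorem rs_act_comb {d : ℕ} (A : ℂ[X]) (s : Finset (Fin d)) (b z : Fin d → ℂ) (n : ℕ) :
    act A (fun m => ∑ i ∈ s, b i * z i ^ m) n = ∑ i ∈ s, b i * (A.eval (z i) * z i ^ n) := by
  have h1 : (fun m => ∑ i ∈ s, b i * z i ^ m) =
      ∑ i ∈ s, (b i • (fun m => z i ^ m) : ℕ → ℂ) := by
    funext m
    rw [Finset.sum_apply]
    rfl
  rw [h1, rs_act_sum, Finset.sum_apply]
  refine Finset.sum_congr rfl fun i _ => ?_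
  rw [act_smul_seq, Pi.smul_apply, rs_act_exp, smul_eq_mul]

/-- the error term -/
noncomputable def rsw {d T : ℕ} (D : Dat d T) (J : Finset (Fin d)) (ρ : ℝ) : ℕ → ℂ :=
  D.xc - fun n => ∑ i ∈ D.circ J ρ, D.Y J i / D.Q J i * D.lam i ^ n

theorem rs_kill_one {d T : ℕ} (D : Dat d T) (J : Finset (Fin d)) (ρ : ℝ) (hJ : D.IsMin J) :
    act (∏ j ∈ J, (X - C (D.lam j))) (rsw D J ρ) = 0 := by
  unfold rsw
  rw [act_sub_seq, hJ.1, zero_sub, neg_eq_zero]
  funext n
  rw [rs_act_comb]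
  refine Finset.sum_eq_zero fun i hi => ?_
  have h1 : (∏ j ∈ J, (X - C (D.lam j))).eval (D.lam i) = 0 := by
    rw [eval_prod]
    exact Finset.prod_eq_zero ((rs_mem_circ D J ρ i).1 hi).1 (by simp)
  rw [h1, zero_mul, mul_zero]

theorem rs_kill_two {d T : ℕ} (D : Dat d T) (J : Finset (Fin d)) (ρ : ℝ) (hJ : D.IsMin J)
    (hT : D.Top J ρ) (hinj : Set.InjOn D.lam (D.circ J ρ)) {i : Fin d}
    (hi : i ∈ D.circ J ρ) :
    act (∏ j ∈ J.erase i, (X - C (D.lam j))) (rsw D J ρ) = 0 := by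
  have hiJ := ((rs_mem_circ D J ρ i).1 hi).1
  have hQ := Q_ne_zero D J ρ hT hinj i hi
  unfold rsw
  rw [act_sub_seq, sub_eq_zero]
  funext n
  rw [act_erase D J hJ i hiJ n, rs_act_comb, Finset.sum_eq_single i]
  · have h1 : (∏ j ∈ J.erase i, (X - C (D.lam j))).eval (D.lam i) = D.Q J i := by
      rw [eval_prod]
      unfold Dat.Q
      refine Finset.prod_congr rfl fun j _ => ?_
      rw [eval_sub, eval_X, eval_C]
    rw [h1, ← mul_assoc, div_mul_cancel₀ _ hQ]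
  · intro k hk hki
    have hkJ := ((rs_mem_circ D J ρ k).1 hk).1
    have h1 : (∏ j ∈ J.erase i, (X - C (D.lam j))).eval (D.lam k) = 0 := by
      rw [eval_prod]
      exact Finset.prod_eq_zero (Finset.mem_erase.2 ⟨hki, hkJ⟩) (by simp)
    rw [h1, zero_mul, mul_zero]
  · intro h
    exact absurd hi h

theorem rs_cop {A B : ℂ[X]} (h : IsCoprime A B) {v : ℕ → ℂ} (h1 : act A v = 0)
    (h2 : act B v = 0) : v = 0 := by
  obtain ⟨a, b, hab⟩ := h
  rw [← act_one v, ← hab, act_add, act_mul, act_mul, h1, h2, act_zero_seq, act_zero_seq,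
    add_zero]

theorem rs_kill {d T : ℕ} (D : Dat d T) (J : Finset (Fin d)) (ρ : ℝ) (hJ : D.IsMin J)
    (hT : D.Top J ρ) (hinj : Set.InjOn D.lam (D.circ J ρ)) (S : Finset (Fin d)) :
    S ⊆ D.circ J ρ → act (∏ j ∈ J \ S, (X - C (D.lam j))) (rsw D J ρ) = 0 := by
  induction S using Finset.induction_on with
  | empty =>
    intro _
    rw [Finset.sdiff_empty]
    exact rs_kill_one D J ρ hJ
  | @insert i S hiS ih =>
    intro hsub
    have hS : S ⊆ D.circ J ρ := (Finset.subset_insert _ _).trans hsub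
    have hi : i ∈ D.circ J ρ := hsub (Finset.mem_insert_self _ _)
    have hiJ := ((rs_mem_circ D J ρ i).1 hi).1
    have e1 : ∏ j ∈ J \ S, (X - C (D.lam j)) =
        (X - C (D.lam i)) * ∏ j ∈ J \ insert i S, (X - C (D.lam j)) := by
      have h1 : J \ S = insert i (J \ insert i S) := by
        ext j
        simp only [Finset.mem_sdiff, Finset.mem_insert]
        constructor
        · rintro ⟨h1, h2⟩
          by_cases hji : j = i
          · exact Or.inl hji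
          · exact Or.inr ⟨h1, by tauto⟩
        · rintro (h1 | ⟨h1, h2⟩)
          · rw [h1]
            exact ⟨hiJ, hiS⟩
          · exact ⟨h1, by tauto⟩
      rw [h1, Finset.prod_insert (by simp)]
    have e2 : ∏ j ∈ J.erase i, (X - C (D.lam j)) =
        (∏ j ∈ S, (X - C (D.lam j))) * ∏ j ∈ J \ insert i S, (X - C (D.lam j)) := by
      have h1 : J.erase i = S ∪ (J \ insert i S) := by
        ext j
        simp only [Finset.mem_erase, Finset.mem_union, Finset.mem_sdiff, Finset.mem_insert]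
        constructor
        · rintro ⟨h1, h2⟩
          by_cases hjS : j ∈ S
          · exact Or.inl hjS
          · exact Or.inr ⟨h2, by tauto⟩
        · rintro (h1 | ⟨h1, h2⟩)
          · refine ⟨fun e => hiS (e ▸ h1), ((rs_mem_circ D J ρ j).1 (hS h1)).1⟩
          · exact ⟨by tauto, h1⟩
      rw [h1, Finset.prod_union]
      rw [Finset.disjoint_left]
      intro j hj hj'
      exact (Finset.mem_sdiff.1 hj').2 (Finset.mem_insert_of_mem hj)
    have k1 := ih hS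
    rw [e1, act_mul] at k1
    have k2 := rs_kill_two D J ρ hJ hT hinj hi
    rw [e2, act_mul] at k2
    refine rs_cop (A := X - C (D.lam i)) (B := ∏ j ∈ S, (X - C (D.lam j))) ?_ k1 k2
    refine IsCoprime.prod_right fun j hj => ?_
    refine isCoprime_X_sub_C_of_isUnit_sub ?_
    rw [isUnit_iff_ne_zero, sub_ne_zero]
    intro h
    have := hinj hi (hS hj) h
    exact hiS (this ▸ hj)

theorem rep_simple (d : ℕ) :
    ∃ c : ℕ, ∀ (T : ℕ) (D : Dat d T) (J : Finset (Fin d)) (ρ : ℝ), D.IsMin J → D.Top J ρ →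
      Set.InjOn D.lam (D.circ J ρ) →
      ∃ w : ℕ → ℂ, (∀ n : ℕ, ‖w n‖ * (1 + 1 / (T : ℝ) ^ c) ^ n ≤ (T : ℝ) ^ c * ρ ^ n) ∧
        (∀ n : ℕ, D.xc n =
          (∑ i ∈ D.circ J ρ, D.Y J i / D.Q J i * D.lam i ^ n) + w n) ∧
        (D.circ J ρ = J → w = 0) := by
  obtain ⟨cY, hY⟩ := Y_bounds d
  obtain ⟨cQ, hQ⟩ := Q_bounds d
  obtain ⟨cR, hR⟩ := root_bd d
  obtain ⟨cG, hG⟩ := gap_bd d
  obtain ⟨cE, hE⟩ := eff_bound d
  set m := cR + cG + (2 * d + cY + cQ + 2) with hm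
  refine ⟨m * cE, fun T D J ρ hJ hT hinj => ?_⟩
  have hT2 : (2 : ℝ) ≤ T := by exact_mod_cast D.two_le
  have hT1 : (1 : ℝ) ≤ T := by linarith
  have hT0 : (0 : ℝ) < T := by linarith
  have hkill := rs_kill D J ρ hJ hT hinj (D.circ J ρ) subset_rfl
  refine ⟨rsw D J ρ, ?_, ?_, ?_⟩
  · obtain ⟨hρ, hle, i0, hi0, hi0'⟩ := hT
    have hmT : ∀ a : ℕ, a ≤ m → (T : ℝ) ^ a ≤ (T : ℝ) ^ m := fun a ha =>
      pow_le_pow_right₀ hT1 ha
    have hcast : (((T ^ m : ℕ) : ℕ) : ℝ) = (T : ℝ) ^ m := by push_cast; rfl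
    have hTm : 2 ≤ T ^ m := by
      have h1 : 2 ^ 1 ≤ T ^ m :=
        (Nat.pow_le_pow_left D.two_le 1).trans
          (Nat.pow_le_pow_right (by have := D.two_le; omega) (by omega))
      simpa using h1
    have g1 : 1 ≤ ((T ^ m : ℕ) : ℝ) * ρ := by
      rw [hcast]
      have h1 := hR T D i0 (by
        intro h0
        rw [h0, norm_zero] at hi0'
        exact hρ.ne hi0')
      rw [hi0'] at h1
      exact h1.trans (mul_le_mul_of_nonneg_right (hmT cR (by omega)) hρ.le)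
    have g2 : ρ ≤ ((T ^ m : ℕ) : ℝ) := by
      rw [hcast, ← hi0']
      refine (D.lam_le i0).trans ?_
      have := hmT 1 (by omega)
      rwa [pow_one] at this
    have g3 : ∀ i ∈ J \ D.circ J ρ, 1 ≤ ((T ^ m : ℕ) : ℝ) * (ρ - ‖D.lam i‖) := by
      intro i hi
      obtain ⟨hi1, hi2⟩ := Finset.mem_sdiff.1 hi
      have h1 : ‖D.lam i‖ < ρ := by
        refine lt_of_le_of_ne (hle i hi1) fun h => hi2 ((rs_mem_circ D J ρ i).2 ⟨hi1, h⟩)
      have h2 := hG T D i i0 (by rw [hi0']; exact h1)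
      rw [hi0'] at h2
      rw [hcast]
      exact h2.trans (mul_le_mul_of_nonneg_right (hmT cG (by omega)) (by linarith))
    have hd : (d : ℝ) ≤ (T : ℝ) ^ d := by
      have h4 : d ≤ 2 ^ d := Nat.lt_two_pow_self.le
      have h5 : (d : ℝ) ≤ (2 : ℝ) ^ d := by exact_mod_cast h4
      exact h5.trans (pow_le_pow_left₀ (by norm_num) hT2 d)
    have g4 : ∀ n < (J \ D.circ J ρ).card, ‖rsw D J ρ n‖ ≤ ((T ^ m : ℕ) : ℝ) := by
      intro n hn
      have hnd : n ≤ d := by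
        have h1 : (J \ D.circ J ρ).card ≤ d := by
          simpa using Finset.card_le_univ (J \ D.circ J ρ)
        omega
      rw [hcast]
      have h1 : ‖D.xc n‖ ≤ T := by
        unfold Dat.xc
        rw [Complex.norm_intCast]
        exact_mod_cast D.x_le n hnd
      have h2 : ∀ i ∈ D.circ J ρ, ‖D.Y J i / D.Q J i * D.lam i ^ n‖ ≤
          (T : ℝ) ^ (cY + cQ + d) := by
        intro i hi
        have hiJ := ((rs_mem_circ D J ρ i).1 hi).1
        have hQ0 := Q_ne_zero D J ρ ⟨hρ, hle, i0, hi0, hi0'⟩ hinj i hi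
        have hQ1 := (hQ T D J i).2 hQ0
        have hQp : 0 < ‖D.Q J i‖ := norm_pos_iff.2 hQ0
        have hY1 := (hY T D J hJ i hiJ).1
        rw [norm_mul, norm_div, norm_pow]
        have k1 : ‖D.Y J i‖ / ‖D.Q J i‖ ≤ (T : ℝ) ^ cY * (T : ℝ) ^ cQ := by
          rw [div_le_iff₀ hQp]
          have : (T : ℝ) ^ cY * 1 ≤ (T : ℝ) ^ cY * ((T : ℝ) ^ cQ * ‖D.Q J i‖) :=
            mul_le_mul_of_nonneg_left hQ1 (by positivity)
          calc ‖D.Y J i‖ ≤ (T : ℝ) ^ cY := hY1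
            _ = (T : ℝ) ^ cY * 1 := by ring
            _ ≤ (T : ℝ) ^ cY * ((T : ℝ) ^ cQ * ‖D.Q J i‖) := this
            _ = (T : ℝ) ^ cY * (T : ℝ) ^ cQ * ‖D.Q J i‖ := by ring
        have k2 : ‖D.lam i‖ ^ n ≤ (T : ℝ) ^ d :=
          (pow_le_pow_left₀ (norm_nonneg _) (D.lam_le i) n).trans (pow_le_pow_right₀ hT1 hnd)
        calc ‖D.Y J i‖ / ‖D.Q J i‖ * ‖D.lam i‖ ^ n
            ≤ ((T : ℝ) ^ cY * (T : ℝ) ^ cQ) * (T : ℝ) ^ d :=
              mul_le_mul k1 k2 (by positivity) (by positivity)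
          _ = (T : ℝ) ^ (cY + cQ + d) := by rw [pow_add, pow_add]
      have h3 : ‖∑ i ∈ D.circ J ρ, D.Y J i / D.Q J i * D.lam i ^ n‖ ≤
          (T : ℝ) ^ (2 * d + cY + cQ) := by
        refine (norm_sum_le _ _).trans ((Finset.sum_le_sum h2).trans ?_)
        rw [Finset.sum_const, nsmul_eq_mul]
        have k1 : ((D.circ J ρ).card : ℝ) ≤ (T : ℝ) ^ d := by
          have k2 : (D.circ J ρ).card ≤ d := by
            simpa using Finset.card_le_univ (D.circ J ρ)
          have k3 : ((D.circ J ρ).card : ℝ) ≤ (d : ℝ) := by exact_mod_cast k2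
          exact k3.trans hd
        calc ((D.circ J ρ).card : ℝ) * (T : ℝ) ^ (cY + cQ + d)
            ≤ (T : ℝ) ^ d * (T : ℝ) ^ (cY + cQ + d) :=
              mul_le_mul_of_nonneg_right k1 (by positivity)
          _ = (T : ℝ) ^ (2 * d + cY + cQ) := by rw [← pow_add]; congr 1; ring
      have h4 : ‖rsw D J ρ n‖ ≤ (T : ℝ) + (T : ℝ) ^ (2 * d + cY + cQ) := by
        unfold rsw
        exact (norm_sub_le _ _).trans (add_le_add h1 h3)
      have h5 : (T : ℝ) ≤ (T : ℝ) ^ (2 * d + cY + cQ + 1) := by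
        have := pow_le_pow_right₀ hT1 (show 1 ≤ 2 * d + cY + cQ + 1 by omega)
        rwa [pow_one] at this
      have h6 : (T : ℝ) ^ (2 * d + cY + cQ) ≤ (T : ℝ) ^ (2 * d + cY + cQ + 1) :=
        pow_le_pow_right₀ hT1 (by omega)
      have h7 : 2 * (T : ℝ) ^ (2 * d + cY + cQ + 1) ≤ (T : ℝ) ^ (2 * d + cY + cQ + 2) := by
        rw [pow_succ (T : ℝ) (2 * d + cY + cQ + 1), mul_comm]
        exact mul_le_mul_of_nonneg_left hT2 (by positivity)
      have h8 := hmT (2 * d + cY + cQ + 2) (by omega)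
      linarith
    have key := hE (T ^ m) hTm ρ hρ g1 g2 D.lam (J \ D.circ J ρ) g3 (rsw D J ρ) hkill g4
    intro n
    have hk := key n
    rw [hcast, ← pow_mul] at hk
    exact hk
  · intro n
    unfold rsw
    show D.xc n = (∑ i ∈ D.circ J ρ, D.Y J i / D.Q J i * D.lam i ^ n) +
      (D.xc n - ∑ i ∈ D.circ J ρ, D.Y J i / D.Q J i * D.lam i ^ n)
    ring
  · intro h
    rw [h, sdiff_self, Finset.bot_eq_empty, Finset.prod_empty, act_one] at hkill
    exact hkill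

end Pool.Agent.Helper73.DM
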