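import Pool.Agent.Helper73.DM.MinVal
import Pool.Agent.Helper73.DM.RepSimple
import Pool.Agent.Helper73.DM.Weights

/-!
# DM-B16: five dominant roots with a multiplicative relation

As in `Delta1`: `x n/ρ^n = a + 2 Re(b w^n) + 2 Re(e v^n)`, `w = λ_{i1}/ρ`, `v = λ_{i3}/ρ`. Relation `w^i v^j = 1`, `(i,j) ≠ (0,0)`, `|i|, |j| ≤ h`. `g = gcd(i,j)`, `i = g i'`, `j = g j'`: `(w^i' v^j')^g = 1`, so by the torsion hypothesis `w^i' v^j' = 1`; so let `gcd(i,j) = 1`. `i ≠ 0`: otherwise `v^j = 1`, so `v = 1` by the torsion hypothesis (exponents `(0,1)`), `λ_{i3} = ρ`,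
a contradiction to `λ_{i3} ≠ λ_{i4}`; same for `j ≠ 0`. `|i| ≠ |j|`: otherwise `i = ±1`, `j = ±1` and `w = v` or `w = v⁻¹ = v̄`, so `λ_{i1} = λ_{i3}` or `λ_{i1} = λ_{i4}`: excluded by injectivity. Bezout: `X j - Y i = 1` with `|X|, |Y| ≤ h` (or any bound `2h`; `Int.gcd_eq_gcd_ab` and reduction mod `i, j`); `τ = w^X v^Y`: `τ^j = w`, `τ^(-i) = v` (see: `τ^j = w^(Xj) (v^j)^Y = w^(Xj - iY) = w`;
`τ^(-i) = (w^(-i))^X v^(-iY) = (v^j)^X v^(-iY) = v`). So `x n/ρ^n = trig a b b̄ e ē j (-i) (τ^n)`, `‖τ‖ = 1`, `τ^l ≠ 1` for `l ≥ 1` (else `w^l = 1`).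
If `trig ≥ 0` on the circle, `x n ≥ 0` for all `n`. Otherwise `min_val` (`p = j`, `q = -i`): `ζ` with `trig(ζ) ≤ -κ`, `κ ≥ ((h+1) T)^(-c1 (h+1)^3)`. `trig` has the Lipschitz constant `≤ 4 h T^c2` on the circle (`‖ζ^p - ζ'^p‖ ≤ |p| ‖ζ - ζ'‖`). `dens1` for `τ`, target `ζ`, `ε = κ/(8 h T^c2)`, of size `≥ 2^(-S)` with `S = ((h+1)T)^c3`; `K` from `exists_K` with `A = 2^S`; `η`: for
`1 ≤ l ≤ K`, `τ^l = w^(Xl) v^(Yl) ≠ 1`, `‖τ^l - 1‖ ≥ (2 T^(4 h K))^(-c4)` by `liou_bd` (monomials as in `Delta1`). So there is `n ≤ 4 (2K+1)/η + 1 ≤ 2^(2^(S'))`, `S' = ((h+1) T)^c5`, with `trig (τ^n) < 0`, `x n < 0`: contradiction.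
-/

set_option autoImplicit false

open Polynomial

namespace Pool.Agent.Helper73.DM

private theorem d2_conjQ {d T : ℕ} (D : Dat d T) (J : Finset (Fin d)) (s : Fin d → Fin d)
    (hs1 : ∀ j ∈ J, s j ∈ J) (hs2 : ∀ j ∈ J, s (s j) = j)
    (hs3 : ∀ j ∈ J, D.lam (s j) = starRingEnd ℂ (D.lam j)) (i : Fin d) (hi : i ∈ J) :
    starRingEnd ℂ (D.Q J i) = D.Q J (s i) := by
  unfold Dat.Q
  rw [map_prod]
  have key : ∀ k ∈ J, ∀ j ∈ J.erase k, s j ∈ J.erase (s k) := by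
    intro k hk j hj
    rw [Finset.mem_erase] at hj ⊢
    refine ⟨fun h => hj.1 ?_, hs1 j hj.2⟩
    rw [← hs2 j hj.2, h, hs2 k hk]
  refine Finset.prod_nbij' s s (key i hi) ?_ ?_ ?_ ?_
  · intro j hj
    have := key (s i) (hs1 i hi) j hj
    rwa [hs2 i hi] at this
  · intro j hj
    exact hs2 j (Finset.mem_of_mem_erase hj)
  · intro j hj
    exact hs2 j (Finset.mem_of_mem_erase hj)
  · intro j hj
    rw [map_sub, hs3 i hi, hs3 j (Finset.mem_of_mem_erase hj)]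

private theorem d2_conjY {d T : ℕ} (D : Dat d T) (J : Finset (Fin d)) (s : Fin d → Fin d)
    (hs1 : ∀ j ∈ J, s j ∈ J) (hs2 : ∀ j ∈ J, s (s j) = j)
    (hs3 : ∀ j ∈ J, D.lam (s j) = starRingEnd ℂ (D.lam j)) (i : Fin d) (hi : i ∈ J) :
    starRingEnd ℂ (D.Y J i) = D.Y J (s i) := by
  unfold Dat.Y
  have h1 := congrFun (act_map (starRingEnd ℂ) (∏ j ∈ J.erase i, (X - C (D.lam j))) D.xc) 0
  have h2 : (fun n => starRingEnd ℂ (D.xc n)) = D.xc := by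
    funext n
    unfold Dat.xc
    simp
  have h3 : (∏ j ∈ J.erase i, (X - C (D.lam j))).map (starRingEnd ℂ) =
      ∏ j ∈ J.erase (s i), (X - C (D.lam j)) := by
    rw [Polynomial.map_prod]
    have key : ∀ k ∈ J, ∀ j ∈ J.erase k, s j ∈ J.erase (s k) := by
      intro k hk j hj
      rw [Finset.mem_erase] at hj ⊢
      refine ⟨fun h => hj.1 ?_, hs1 j hj.2⟩
      rw [← hs2 j hj.2, h, hs2 k hk]
    refine Finset.prod_nbij' s s (key i hi) ?_ ?_ ?_ ?_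
    · intro j hj
      have := key (s i) (hs1 i hi) j hj
      rwa [hs2 i hi] at this
    · intro j hj
      exact hs2 j (Finset.mem_of_mem_erase hj)
    · intro j hj
      exact hs2 j (Finset.mem_of_mem_erase hj)
    · intro j hj
      rw [Polynomial.map_sub, Polynomial.map_X, Polynomial.map_C,
        hs3 j (Finset.mem_of_mem_erase hj)]
  rw [h2, h3] at h1
  exact h1.symm

private theorem d2_bezout (i j : ℤ) (hc : IsCoprime i j) (hi : i ≠ 0) (hj : j ≠ 0) :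
    ∃ X Y : ℤ, X * j - Y * i = 1 ∧ |X| ≤ |i| ∧ |Y| ≤ |j| := by
  obtain ⟨b, a, hab⟩ := hc
  have h0 := Int.emod_nonneg a hi
  have h1 := Int.emod_lt_abs a hi
  have h2 := Int.emod_add_mul_ediv a i
  obtain ⟨X, hX⟩ : ∃ X, X = a % i := ⟨_, rfl⟩
  obtain ⟨q, hq⟩ : ∃ q, q = a / i := ⟨_, rfl⟩
  rw [← hX] at h0 h1 h2
  rw [← hq] at h2
  have h3 : X * j - (-(b + q * j)) * i = 1 := by
    have : X = a - i * q := by linarith
    rw [this]
    linear_combination hab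
  have hXa : |X| = X := abs_of_nonneg h0
  have hi1 : 1 ≤ |i| := Int.one_le_abs hi
  have hj1 : 1 ≤ |j| := Int.one_le_abs hj
  refine ⟨X, -(b + q * j), h3, by rw [hXa]; exact h1.le, ?_⟩
  have h4 : |-(b + q * j)| * |i| ≤ |j| * |i| := by
    rw [← abs_mul]
    have h5 : -(b + q * j) * i = X * j - 1 := by linarith
    rw [h5]
    have h6 : |X * j - 1| ≤ |X| * |j| + 1 := by
      have := abs_sub (X * j) 1
      rw [abs_mul, abs_one] at this
      exact this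
    rw [hXa] at h6
    have h7 : X * |j| ≤ (|i| - 1) * |j| := mul_le_mul_of_nonneg_right (by omega) (abs_nonneg j)
    nlinarith
  exact le_of_mul_le_mul_right h4 (by omega)

private theorem d2_pow (n : ℕ) {z w : ℂ} (hz : ‖z‖ = 1) (hw : ‖w‖ = 1) :
    ‖z ^ n - w ^ n‖ ≤ n * ‖z - w‖ := by
  induction n with
  | zero => simp
  | succ n ih =>
    have h1 : z ^ (n + 1) - w ^ (n + 1) = z ^ n * (z - w) + (z ^ n - w ^ n) * w := by ring
    rw [h1]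
    refine (norm_add_le _ _).trans ?_
    rw [norm_mul, norm_mul, norm_pow, hz, hw, one_pow, one_mul, mul_one]
    push_cast
    linarith

private theorem d2_zpow (p : ℤ) {z w : ℂ} (hz : ‖z‖ = 1) (hw : ‖w‖ = 1) :
    ‖z ^ p - w ^ p‖ ≤ |(p : ℝ)| * ‖z - w‖ := by
  rcases Int.natAbs_eq p with h | h
  · rw [h, zpow_natCast, zpow_natCast]
    refine (d2_pow _ hz hw).trans (le_of_eq ?_)
    simp
  · rw [h, zpow_neg, zpow_neg, zpow_natCast, zpow_natCast]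
    have hz0 : z ≠ 0 := by
      intro h0
      rw [h0, norm_zero] at hz
      exact zero_ne_one hz
    have hw0 : w ≠ 0 := by
      intro h0
      rw [h0, norm_zero] at hw
      exact zero_ne_one hw
    have h1 : (z ^ p.natAbs)⁻¹ - (w ^ p.natAbs)⁻¹ =
        (w ^ p.natAbs - z ^ p.natAbs) / (z ^ p.natAbs * w ^ p.natAbs) := by
      have := pow_ne_zero p.natAbs hz0
      have := pow_ne_zero p.natAbs hw0
      field_simp
    rw [h1, norm_div, norm_mul, norm_pow, norm_pow, hz, hw, one_pow, one_mul, div_one,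
      norm_sub_rev]
    refine (d2_pow _ hz hw).trans (le_of_eq ?_)
    simp

private theorem d2_trig (a b b' e e' : ℂ) (p q : ℤ) {z w : ℂ} (hz : ‖z‖ = 1) (hw : ‖w‖ = 1)
    (B h : ℝ) (hb : ‖b‖ ≤ B) (hb' : ‖b'‖ ≤ B) (he : ‖e‖ ≤ B) (he' : ‖e'‖ ≤ B)
    (hp : |(p : ℝ)| ≤ h) (hq : |(q : ℝ)| ≤ h) :
    ‖trig a b b' e e' p q z - trig a b b' e e' p q w‖ ≤ 4 * h * B * ‖z - w‖ := by
  have hB : 0 ≤ B := (norm_nonneg _).trans hb
  have hh : 0 ≤ h := (abs_nonneg _).trans hp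
  have key : ∀ (c : ℂ) (r : ℤ), ‖c‖ ≤ B → |(r : ℝ)| ≤ h →
      ‖c * (z ^ r - w ^ r)‖ ≤ B * (h * ‖z - w‖) := by
    intro c r hc hr
    rw [norm_mul]
    refine mul_le_mul hc ?_ (norm_nonneg _) hB
    exact (d2_zpow r hz hw).trans (mul_le_mul_of_nonneg_right hr (norm_nonneg _))
  have h1 := key b p hb hp
  have h2 := key b' (-p) hb' (by push_cast; rw [abs_neg]; exact hp)
  have h3 := key e q he hq
  have h4 := key e' (-q) he' (by push_cast; rw [abs_neg]; exact hq)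
  have h5 : trig a b b' e e' p q z - trig a b b' e e' p q w =
      b * (z ^ p - w ^ p) + b' * (z ^ (-p) - w ^ (-p)) + e * (z ^ q - w ^ q) +
        e' * (z ^ (-q) - w ^ (-q)) := by
    unfold trig
    ring
  rw [h5]
  have h6 := norm_add_le (b * (z ^ p - w ^ p) + b' * (z ^ (-p) - w ^ (-p)) + e * (z ^ q - w ^ q))
    (e' * (z ^ (-q) - w ^ (-q)))
  have h7 := norm_add_le (b * (z ^ p - w ^ p) + b' * (z ^ (-p) - w ^ (-p))) (e * (z ^ q - w ^ q))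
  have h8 := norm_add_le (b * (z ^ p - w ^ p)) (b' * (z ^ (-p) - w ^ (-p)))
  linarith

private theorem d2_inv {l : ℂ} {ρ : ℝ} (hρ : 0 < ρ) (hl : ‖l‖ = ρ) :
    (l / (ρ : ℂ))⁻¹ = starRingEnd ℂ l / (ρ : ℂ) := by
  refine inv_eq_of_mul_eq_one_right ?_
  have h1 : l * starRingEnd ℂ l = (ρ : ℂ) ^ 2 := by
    rw [Complex.mul_conj, Complex.normSq_eq_norm_sq, hl]
    push_cast
    rfl
  have hρ' : (ρ : ℂ) ≠ 0 := by exact_mod_cast hρ.ne'
  rw [div_mul_div_comm, h1]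
  field_simp

/-- integer powers as natural powers of a root -/
private theorem d2_zp {d T : ℕ} (D : Dat d T) {ρ : ℝ} (hρ : 0 < ρ) (i j : Fin d)
    (hi : ‖D.lam i‖ = ρ) (hj : D.lam j = starRingEnd ℂ (D.lam i)) (s : ℤ) :
    ∃ a : Fin d, (D.lam i / (ρ : ℂ)) ^ s = (D.lam a / (ρ : ℂ)) ^ s.natAbs := by
  rcases Int.natAbs_eq s with h | h
  · refine ⟨i, ?_⟩
    conv_lhs => rw [h]
    rw [zpow_natCast]
  · refine ⟨j, ?_⟩
    conv_lhs => rw [h]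
    rw [zpow_neg, zpow_natCast, ← inv_pow, d2_inv hρ hi, hj]

private theorem d2_mono (d : ℕ) :
    ∃ c : ℕ, ∀ (T : ℕ) (D : Dat d T) (ρ : ℝ), 0 < ρ → ∀ i0 i1 i2 i3 i4 : Fin d,
      D.lam i0 = (ρ : ℂ) → D.lam i2 = starRingEnd ℂ (D.lam i1) →
      D.lam i4 = starRingEnd ℂ (D.lam i3) → ‖D.lam i1‖ = ρ → ‖D.lam i3‖ = ρ →
      ∀ (s t : ℤ) (N : ℕ), s.natAbs + t.natAbs ≤ N →
      (D.lam i1 / (ρ : ℂ)) ^ s * (D.lam i3 / (ρ : ℂ)) ^ t ≠ 1 →
      1 ≤ (T : ℝ) ^ ((N + 1) * c + N) *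
        ‖(D.lam i1 / (ρ : ℂ)) ^ s * (D.lam i3 / (ρ : ℂ)) ^ t - 1‖ := by
  obtain ⟨c, hc⟩ := liou_bd d
  refine ⟨c, fun T D ρ hρ i0 i1 i2 i3 i4 h0 h2 h4 h1 h3 s t N hN hne => ?_⟩
  obtain ⟨a, ha⟩ := d2_zp D hρ i1 i2 h1 h2 s
  obtain ⟨b, hb⟩ := d2_zp D hρ i3 i4 h3 h4 t
  rw [ha, hb] at hne ⊢
  have hT : (2 : ℝ) ≤ T := by exact_mod_cast D.two_le
  have hT0 : (0 : ℝ) < T := by linarith
  have hρT : ρ ≤ T := by
    have := D.lam_le i0
    rw [h0, Complex.norm_real, Real.norm_of_nonneg hρ.le] at this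
    exact this
  obtain ⟨m, hm⟩ : ∃ m, m = s.natAbs + t.natAbs := ⟨_, rfl⟩
  have hρ' : (ρ : ℂ) ≠ 0 := by exact_mod_cast hρ.ne'
  have hF : MvPolynomial.aeval D.lam (MvPolynomial.X a ^ s.natAbs * MvPolynomial.X b ^ t.natAbs -
      MvPolynomial.X i0 ^ m : MvPolynomial (Fin d) ℤ) =
      ((D.lam a / (ρ : ℂ)) ^ s.natAbs * (D.lam b / (ρ : ℂ)) ^ t.natAbs - 1) * (ρ : ℂ) ^ m := by
    rw [map_sub, map_mul, map_pow, map_pow, map_pow, MvPolynomial.aeval_X, MvPolynomial.aeval_X,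
      MvPolynomial.aeval_X, h0, sub_mul, one_mul, div_pow, div_pow, hm, pow_add]
    have := pow_ne_zero s.natAbs hρ'
    have := pow_ne_zero t.natAbs hρ'
    field_simp
  have hB : Bd (MvPolynomial.X a ^ s.natAbs * MvPolynomial.X b ^ t.natAbs -
      MvPolynomial.X i0 ^ m : MvPolynomial (Fin d) ℤ) T ((T : ℝ) ^ (N + 1)) := by
    intro μ hμ
    rw [map_sub, map_mul, map_pow, map_pow, map_pow, MvPolynomial.aeval_X, MvPolynomial.aeval_X,
      MvPolynomial.aeval_X]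
    refine (norm_sub_le _ _).trans ?_
    rw [norm_mul, norm_pow, norm_pow, norm_pow]
    have e1 : ‖μ a‖ ^ s.natAbs * ‖μ b‖ ^ t.natAbs ≤ (T : ℝ) ^ m := by
      rw [hm, pow_add]
      exact mul_le_mul (pow_le_pow_left₀ (norm_nonneg _) (hμ a) _)
        (pow_le_pow_left₀ (norm_nonneg _) (hμ b) _) (by positivity) (by positivity)
    have e2 : ‖μ i0‖ ^ m ≤ (T : ℝ) ^ m := pow_le_pow_left₀ (norm_nonneg _) (hμ i0) _
    have e3 : (T : ℝ) ^ m ≤ (T : ℝ) ^ N := pow_le_pow_right₀ (by linarith) (by omega)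
    have e4 : (T : ℝ) ^ (N + 1) = (T : ℝ) ^ N * T := pow_succ _ _
    have e5 : (T : ℝ) ^ N * 2 ≤ (T : ℝ) ^ N * T := mul_le_mul_of_nonneg_left hT (by positivity)
    linarith
  have hne' : MvPolynomial.aeval D.lam (MvPolynomial.X a ^ s.natAbs * MvPolynomial.X b ^ t.natAbs -
      MvPolynomial.X i0 ^ m : MvPolynomial (Fin d) ℤ) ≠ 0 := by
    rw [hF]
    exact mul_ne_zero (sub_ne_zero.2 hne) (pow_ne_zero _ hρ')
  have h5 := hc T D _ ((T : ℝ) ^ (N + 1)) (one_le_pow₀ (by linarith)) hB hne'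
  rw [hF, norm_mul, norm_pow, Complex.norm_real, Real.norm_of_nonneg hρ.le, ← pow_mul] at h5
  have h6 : ρ ^ m ≤ (T : ℝ) ^ N :=
    (pow_le_pow_left₀ hρ.le hρT m).trans (pow_le_pow_right₀ (by linarith) (by omega))
  calc 1 ≤ (T : ℝ) ^ ((N + 1) * c) *
        (‖(D.lam a / (ρ : ℂ)) ^ s.natAbs * (D.lam b / (ρ : ℂ)) ^ t.natAbs - 1‖ * ρ ^ m) := h5
    _ ≤ (T : ℝ) ^ ((N + 1) * c) *
        (‖(D.lam a / (ρ : ℂ)) ^ s.natAbs * (D.lam b / (ρ : ℂ)) ^ t.natAbs - 1‖ * (T : ℝ) ^ N) :=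
        mul_le_mul_of_nonneg_left (mul_le_mul_of_nonneg_left h6 (norm_nonneg _)) (by positivity)
    _ = _ := by
        rw [pow_add]
        ring

private theorem d2_arith (c0 c1 c2 c3 h T : ℕ) (hT : 2 ≤ T) :
    4 * (2 * (((h + 1) * T) ^ (4 + c1 + c0 * (h + 1) ^ 3)) ^ c2 + 1) *
      T ^ ((2 * h * (((h + 1) * T) ^ (4 + c1 + c0 * (h + 1) ^ 3)) ^ c2 + 1) * c3 +
        2 * h * (((h + 1) * T) ^ (4 + c1 + c0 * (h + 1) ^ 3)) ^ c2) + 1 ≤
      2 ^ (2 ^ (((h + 1) * T) ^ ((4 + c1 + c0) * c2 + 2 * c3 + 14))) := by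
  obtain ⟨P, hP⟩ : ∃ P, P = (h + 1) * T := ⟨_, rfl⟩
  have hTP : T ≤ P := by rw [hP]; exact Nat.le_mul_of_pos_left T (by omega)
  have hhP : h + 1 ≤ P := by rw [hP]; exact Nat.le_mul_of_pos_right _ (by omega)
  have hP2 : 2 ≤ P := hT.trans hTP
  rw [← hP]
  obtain ⟨e, he⟩ : ∃ e, e = 4 + c1 + c0 * (h + 1) ^ 3 := ⟨_, rfl⟩
  obtain ⟨K, hK⟩ : ∃ K, K = (P ^ e) ^ c2 := ⟨_, rfl⟩
  rw [← he, ← hK]
  have hK1 : 1 ≤ K := by
    rw [hK]
    exact Nat.one_le_pow _ _ (Nat.pos_of_ne_zero (by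
      have := Nat.one_le_pow e P (by omega)
      omega))
  obtain ⟨M, hM⟩ : ∃ M, M = (2 * h * K + 1) * c3 + 2 * h * K := ⟨_, rfl⟩
  rw [← hM]
  -- step 1
  have s1 : 4 * (2 * K + 1) * T ^ M + 1 ≤ 2 ^ (4 + K + T * M) := by
    have a1 : T ^ M ≤ 2 ^ (T * M) := by
      rw [pow_mul]
      exact Nat.pow_le_pow_left (Nat.lt_two_pow_self).le M
    have a2 : 1 ≤ 2 ^ (T * M) := Nat.one_le_two_pow
    have a3 : K ≤ 2 ^ K := (Nat.lt_two_pow_self).le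
    calc 4 * (2 * K + 1) * T ^ M + 1 ≤ 12 * K * 2 ^ (T * M) + 2 ^ (T * M) := by
          refine Nat.add_le_add ?_ a2
          exact Nat.mul_le_mul (by omega) a1
      _ = (12 * K + 1) * 2 ^ (T * M) := by ring
      _ ≤ (16 * 2 ^ K) * 2 ^ (T * M) := Nat.mul_le_mul_right _ (by omega)
      _ = 2 ^ (4 + K + T * M) := by
          rw [pow_add, pow_add]
          norm_num
  -- step 2
  have s2 : 4 + K + T * M ≤ K * P * (2 * c3 + 7) := by
    have b1 : T * (2 * h * K) ≤ 2 * K * P := by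
      rw [hP]
      nlinarith
    have b2 : T * ((2 * h * K + 1) * c3) ≤ (2 * K * P) * c3 := by
      have b3 : T * (2 * h * K + 1) ≤ 2 * K * P := by
        rw [hP]
        have b4 : T * 1 ≤ T * (2 * K) := Nat.mul_le_mul_left T (by omega)
        nlinarith
      calc T * ((2 * h * K + 1) * c3) = (T * (2 * h * K + 1)) * c3 := by ring
        _ ≤ (2 * K * P) * c3 := Nat.mul_le_mul_right _ b3
    have b5 : K ≤ K * P := Nat.le_mul_of_pos_right K (by omega)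
    have b6 : 4 ≤ 4 * (K * P) := by
      have : 1 ≤ K * P := Nat.mul_pos hK1 (by omega)
      omega
    have b7 : T * M = T * ((2 * h * K + 1) * c3) + T * (2 * h * K) := by rw [hM]; ring
    have b8 : K * P * (2 * c3 + 7) = (2 * K * P) * c3 + 7 * (K * P) := by ring
    rw [b7, b8]
    have b9 : 2 * K * P = 2 * (K * P) := by ring
    rw [b9] at b1 b2 ⊢
    omega
  -- step 3
  have s3 : K * P * (2 * c3 + 7) ≤ 2 ^ (P * (e * c2 + 1) + (2 * c3 + 7)) := by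
    have d1 : K * P = P ^ (e * c2 + 1) := by
      rw [hK, ← pow_mul, pow_succ]
    have d2 : P ^ (e * c2 + 1) ≤ 2 ^ (P * (e * c2 + 1)) := by
      rw [pow_mul]
      exact Nat.pow_le_pow_left (Nat.lt_two_pow_self).le _
    calc K * P * (2 * c3 + 7) = P ^ (e * c2 + 1) * (2 * c3 + 7) := by rw [d1]
      _ ≤ 2 ^ (P * (e * c2 + 1)) * 2 ^ (2 * c3 + 7) :=
          Nat.mul_le_mul d2 (Nat.lt_two_pow_self).le
      _ = 2 ^ (P * (e * c2 + 1) + (2 * c3 + 7)) := (pow_add 2 _ _).symm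
  -- step 4
  have s4 : P * (e * c2 + 1) + (2 * c3 + 7) ≤ P ^ ((4 + c1 + c0) * c2 + 2 * c3 + 14) := by
    have f1 : 1 ≤ P ^ 3 := Nat.one_le_pow _ _ (by omega)
    have f2 : (h + 1) ^ 3 ≤ P ^ 3 := Nat.pow_le_pow_left hhP 3
    have f3 : e ≤ (4 + c1 + c0) * P ^ 3 := by
      rw [he]
      have g1 : c0 * (h + 1) ^ 3 ≤ c0 * P ^ 3 := Nat.mul_le_mul_left _ f2
      have g2 : (4 + c1) * 1 ≤ (4 + c1) * P ^ 3 := Nat.mul_le_mul_left _ f1
      have g3 : (4 + c1 + c0) * P ^ 3 = (4 + c1) * P ^ 3 + c0 * P ^ 3 := by ring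
      omega
    have f4 : P * (e * c2 + 1) ≤ ((4 + c1 + c0) * c2 + 1) * P ^ 4 := by
      calc P * (e * c2 + 1) ≤ P * ((4 + c1 + c0) * P ^ 3 * c2 + 1 * P ^ 3) := by
            refine Nat.mul_le_mul_left _ (Nat.add_le_add (Nat.mul_le_mul_right _ f3) (by omega))
        _ = ((4 + c1 + c0) * c2 + 1) * P ^ 4 := by ring
    have f5 : 2 * c3 + 7 ≤ (2 * c3 + 7) * P ^ 4 :=
      Nat.le_mul_of_pos_right _ (Nat.pow_pos (by omega))
    have f6 : (4 + c1 + c0) * c2 + 1 + (2 * c3 + 7) ≤ P ^ ((4 + c1 + c0) * c2 + 1 + (2 * c3 + 7)) :=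
      (Nat.lt_two_pow_self).le.trans (Nat.pow_le_pow_left hP2 _)
    calc P * (e * c2 + 1) + (2 * c3 + 7)
        ≤ ((4 + c1 + c0) * c2 + 1) * P ^ 4 + (2 * c3 + 7) * P ^ 4 := Nat.add_le_add f4 f5
      _ = ((4 + c1 + c0) * c2 + 1 + (2 * c3 + 7)) * P ^ 4 := by ring
      _ ≤ P ^ ((4 + c1 + c0) * c2 + 1 + (2 * c3 + 7)) * P ^ 4 := Nat.mul_le_mul_right _ f6
      _ = P ^ ((4 + c1 + c0) * c2 + 1 + (2 * c3 + 7) + 4) := (pow_add _ _ _).symm
      _ ≤ P ^ ((4 + c1 + c0) * c2 + 2 * c3 + 14) := Nat.pow_le_pow_right (by omega) (by omega)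
  calc 4 * (2 * K + 1) * T ^ M + 1 ≤ 2 ^ (4 + K + T * M) := s1
    _ ≤ 2 ^ (K * P * (2 * c3 + 7)) := Nat.pow_le_pow_right (by norm_num) s2
    _ ≤ 2 ^ (2 ^ (P * (e * c2 + 1) + (2 * c3 + 7))) := Nat.pow_le_pow_right (by norm_num) s3
    _ ≤ 2 ^ (2 ^ (P ^ ((4 + c1 + c0) * c2 + 2 * c3 + 14))) :=
        Nat.pow_le_pow_right (by norm_num) (Nat.pow_le_pow_right (by norm_num) s4)

theorem delta_dep (d : ℕ) :
    ∃ c : ℕ, ∀ (T : ℕ) (D : Dat d T) (J : Finset (Fin d)) (ρ : ℝ), D.IsMin J → D.Top J ρ →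
      ∀ i0 i1 i2 i3 i4 : Fin d, J = {i0, i1, i2, i3, i4} → D.circ J ρ = J →
      Set.InjOn D.lam J → D.lam i0 = (ρ : ℂ) → D.lam i2 = starRingEnd ℂ (D.lam i1) →
      D.lam i4 = starRingEnd ℂ (D.lam i3) → D.lam i1 ≠ D.lam i2 → D.lam i3 ≠ D.lam i4 →
      i1 ≠ i3 → i1 ≠ i4 →
      (∀ s t : ℤ, ∀ m : ℕ, 1 ≤ m → ((D.lam i1 / ρ) ^ s * (D.lam i3 / ρ) ^ t) ^ m = 1 →
        (D.lam i1 / ρ) ^ s * (D.lam i3 / ρ) ^ t = 1) →
      ∀ (h : ℕ) (i j : ℤ), |i| ≤ h → |j| ≤ h → (i, j) ≠ (0, 0) →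
      (D.lam i1 / ρ) ^ i * (D.lam i3 / ρ) ^ j = 1 →
      (∀ n ≤ 2 ^ (2 ^ (((h + 1) * T) ^ c)), 0 ≤ D.x n) → ∀ n, 0 ≤ D.x n := by
  obtain ⟨cY, hY⟩ := Y_bounds d
  obtain ⟨cQ, hQ⟩ := Q_bounds d
  obtain ⟨cr, hrep⟩ := rep_simple d
  obtain ⟨c0, hmin⟩ := min_val d
  obtain ⟨c2, hKK⟩ := exists_K
  obtain ⟨c3, hmono⟩ := d2_mono d
  obtain ⟨c1, hc1⟩ : ∃ c1, c1 = cY + cQ := ⟨_, rfl⟩
  refine ⟨(4 + c1 + c0) * c2 + 2 * c3 + 14, ?_⟩
  intro T D J ρ hJmin htop i0 i1 i2 i3 i4 hJ hcirc hinj h0 h2 h4 h12 h34 h13 h14 htor h i j hi hj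
    hij hrel hpos n
  have hρ : 0 < ρ := htop.1
  have hρ' : (ρ : ℂ) ≠ 0 := by exact_mod_cast hρ.ne'
  have hT : (2 : ℝ) ≤ T := by exact_mod_cast D.two_le
  have hT0 : (0 : ℝ) < T := by linarith
  have hm0 : i0 ∈ J := by rw [hJ]; simp
  have hm1 : i1 ∈ J := by rw [hJ]; simp
  have hm2 : i2 ∈ J := by rw [hJ]; simp
  have hm3 : i3 ∈ J := by rw [hJ]; simp
  have hm4 : i4 ∈ J := by rw [hJ]; simp
  have hnorm : ∀ k ∈ J, ‖D.lam k‖ = ρ := by
    intro k hk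
    rw [← hcirc] at hk
    unfold Dat.circ at hk
    rw [Finset.mem_filter] at hk
    exact hk.2
  -- conjugation
  have hex : ∀ k : Fin d, ∃ l : Fin d, k ∈ J → (l ∈ J ∧ D.lam l = starRingEnd ℂ (D.lam k)) := by
    intro k
    by_cases hk : k ∈ J
    · rw [hJ] at hk
      simp only [Finset.mem_insert, Finset.mem_singleton] at hk
      rcases hk with rfl | rfl | rfl | rfl | rfl
      · exact ⟨_, fun _ => ⟨hm0, by rw [h0, Complex.conj_ofReal]⟩⟩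
      · exact ⟨i2, fun _ => ⟨hm2, h2⟩⟩
      · exact ⟨i1, fun _ => ⟨hm1, by rw [h2, Complex.conj_conj]⟩⟩
      · exact ⟨i4, fun _ => ⟨hm4, h4⟩⟩
      · exact ⟨i3, fun _ => ⟨hm3, by rw [h4, Complex.conj_conj]⟩⟩
    · exact ⟨k, fun h => absurd h hk⟩
  choose s hs using hex
  have hs1 : ∀ k ∈ J, s k ∈ J := fun k hk => (hs k hk).1
  have hs3 : ∀ k ∈ J, D.lam (s k) = starRingEnd ℂ (D.lam k) := fun k hk => (hs k hk).2
  have hs2 : ∀ k ∈ J, s (s k) = k := by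
    intro k hk
    refine hinj (hs1 _ (hs1 k hk)) hk ?_
    rw [hs3 _ (hs1 k hk), hs3 k hk, Complex.conj_conj]
  have hsi0 : s i0 = i0 := hinj (hs1 _ hm0) hm0 (by rw [hs3 _ hm0, h0, Complex.conj_ofReal])
  have hsi1 : s i1 = i2 := hinj (hs1 _ hm1) hm2 (by rw [hs3 _ hm1, h2])
  have hsi3 : s i3 = i4 := hinj (hs1 _ hm3) hm4 (by rw [hs3 _ hm3, h4])
  have hconj : ∀ k ∈ J, starRingEnd ℂ (D.Y J k / D.Q J k) = D.Y J (s k) / D.Q J (s k) := by
    intro k hk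
    rw [map_div₀, d2_conjQ D J s hs1 hs2 hs3 k hk, d2_conjY D J s hs1 hs2 hs3 k hk]
  have hc0 := hconj i0 hm0
  have hc1' := hconj i1 hm1
  have hc3' := hconj i3 hm3
  rw [hsi0] at hc0
  rw [hsi1] at hc1'
  rw [hsi3] at hc3'
  have hinjc : Set.InjOn D.lam (D.circ J ρ) := by
    rw [hcirc]
    exact hinj
  have hQ0 : ∀ k ∈ J, D.Q J k ≠ 0 := fun k hk =>
    Q_ne_zero D J ρ htop hinjc k (by rw [hcirc]; exact hk)
  -- distinct indices
  have hr0 : starRingEnd ℂ (ρ : ℂ) = (ρ : ℂ) := Complex.conj_ofReal ρ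
  have n01 : i0 ≠ i1 := by
    intro e
    apply h12
    rw [h2, ← e, h0, hr0]
  have n02 : i0 ≠ i2 := by
    intro e
    apply h12
    have e1 : starRingEnd ℂ (D.lam i2) = D.lam i1 := by rw [h2, Complex.conj_conj]
    rw [← e1, ← e, h0, hr0]
  have n03 : i0 ≠ i3 := by
    intro e
    apply h34
    rw [h4, ← e, h0, hr0]
  have n04 : i0 ≠ i4 := by
    intro e
    apply h34
    have e1 : starRingEnd ℂ (D.lam i4) = D.lam i3 := by rw [h4, Complex.conj_conj]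
    rw [← e1, ← e, h0, hr0]
  have n12 : i1 ≠ i2 := fun e => h12 (by rw [← e])
  have n34 : i3 ≠ i4 := fun e => h34 (by rw [← e])
  have n23 : i2 ≠ i3 := by
    intro e
    refine h14 (hinj hm1 hm4 ?_)
    rw [h4, ← e, h2, Complex.conj_conj]
  have n24 : i2 ≠ i4 := by
    intro e
    refine h13 (hinj hm1 hm3 ?_)
    have e1 : starRingEnd ℂ (D.lam i2) = D.lam i1 := by rw [h2, Complex.conj_conj]
    rw [← e1, e, h4, Complex.conj_conj]
  have hsum : ∀ f : Fin d → ℂ, ∑ k ∈ J, f k = f i0 + (f i1 + (f i2 + (f i3 + f i4))) := by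
    intro f
    rw [hJ, Finset.sum_insert (by simp [n01, n02, n03, n04]),
      Finset.sum_insert (by simp [n12, h13, h14]), Finset.sum_insert (by simp [n23, n24]),
      Finset.sum_insert (by simp [n34]), Finset.sum_singleton]
  -- the two numbers of modulus one
  obtain ⟨w, hw⟩ : ∃ w : ℂ, w = D.lam i1 / (ρ : ℂ) := ⟨_, rfl⟩
  obtain ⟨v, hv⟩ : ∃ v : ℂ, v = D.lam i3 / (ρ : ℂ) := ⟨_, rfl⟩
  have hw1 : ‖w‖ = 1 := by
    rw [hw, norm_div, hnorm i1 hm1, Complex.norm_real, Real.norm_of_nonneg hρ.le,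
      div_self hρ.ne']
  have hv1 : ‖v‖ = 1 := by
    rw [hv, norm_div, hnorm i3 hm3, Complex.norm_real, Real.norm_of_nonneg hρ.le,
      div_self hρ.ne']
  have hw0 : w ≠ 0 := by
    intro e
    rw [e, norm_zero] at hw1
    exact zero_ne_one hw1
  have hv0 : v ≠ 0 := by
    intro e
    rw [e, norm_zero] at hv1
    exact zero_ne_one hv1
  have hwi : w⁻¹ = D.lam i2 / (ρ : ℂ) := by rw [hw, h2, d2_inv hρ (hnorm i1 hm1)]
  have hvi : v⁻¹ = D.lam i4 / (ρ : ℂ) := by rw [hv, h4, d2_inv hρ (hnorm i3 hm3)]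
  have hdiv : ∀ a b : Fin d, D.lam a / (ρ : ℂ) = D.lam b / (ρ : ℂ) → D.lam a = D.lam b := by
    intro a b e
    rwa [div_left_inj' hρ'] at e
  have hwne : w ≠ 1 := by
    intro e
    apply h12
    refine hdiv i1 i2 ?_
    rw [← hwi, ← hw, e, inv_one]
  have hvne : v ≠ 1 := by
    intro e
    apply h34
    refine hdiv i3 i4 ?_
    rw [← hvi, ← hv, e, inv_one]
  have hwv : w ≠ v := by
    intro e
    refine h13 (hinj hm1 hm3 (hdiv i1 i3 ?_))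
    rw [← hw, ← hv, e]
  have hwv' : w ≠ v⁻¹ := by
    intro e
    refine h14 (hinj hm1 hm4 (hdiv i1 i4 ?_))
    rw [← hw, ← hvi, e]
  rw [← hw, ← hv] at hrel htor
  -- coprime exponents
  have hg : 0 < Int.gcd i j := by
    rw [Int.gcd_pos_iff]
    by_contra hc
    push Not at hc
    exact hij (by rw [hc.1, hc.2])
  obtain ⟨a, b, hab, hia, hjb⟩ := Int.exists_gcd_one hg
  obtain ⟨g, hgdef⟩ : ∃ g, g = Int.gcd i j := ⟨_, rfl⟩
  rw [← hgdef] at hg hia hjb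
  have hg1 : (1 : ℤ) ≤ g := by exact_mod_cast hg
  have hrel' : w ^ a * v ^ b = 1 := by
    refine htor a b g hg ?_
    rw [mul_pow, ← zpow_natCast, ← zpow_natCast, ← zpow_mul, ← zpow_mul, ← hia, ← hjb]
    exact hrel
  have hah : |a| ≤ h := by
    refine le_trans ?_ hi
    rw [hia, abs_mul, abs_of_nonneg (by omega : (0 : ℤ) ≤ g)]
    exact le_mul_of_one_le_right (abs_nonneg a) hg1
  have hbh : |b| ≤ h := by
    refine le_trans ?_ hj
    rw [hjb, abs_mul, abs_of_nonneg (by omega : (0 : ℤ) ≤ g)]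
    exact le_mul_of_one_le_right (abs_nonneg b) hg1
  have hunit : ∀ (z : ℂ) (r : ℤ), r.natAbs = 1 → z ^ r = 1 → z = 1 := by
    intro z r hr hz
    rcases Int.natAbs_eq r with e | e
    · rw [e, hr, Nat.cast_one, zpow_one] at hz
      exact hz
    · rw [e, hr, Nat.cast_one, zpow_neg, zpow_one] at hz
      exact inv_eq_one.1 hz
  have ha0 : a ≠ 0 := by
    intro e
    rw [e, zpow_zero, one_mul] at hrel'
    rw [e, Int.gcd_zero_left] at hab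
    exact hvne (hunit v b hab hrel')
  have hb0 : b ≠ 0 := by
    intro e
    rw [e, zpow_zero, mul_one] at hrel'
    rw [e, Int.gcd_zero_right] at hab
    exact hwne (hunit w a hab hrel')
  have hne_abs : |a| ≠ |b| := by
    intro e
    have e1 : a.natAbs = b.natAbs := by
      rw [Int.abs_eq_natAbs, Int.abs_eq_natAbs] at e
      exact_mod_cast e
    have e2 : a.natAbs = 1 := by
      have e3 : Int.gcd a b = Nat.gcd a.natAbs b.natAbs := rfl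
      rw [e3, ← e1, Nat.gcd_self] at hab
      exact hab
    have e4 : b.natAbs = 1 := by rw [← e1, e2]
    rcases Int.natAbs_eq a with ea | ea
    · rcases Int.natAbs_eq b with eb | eb
      · rw [ea, eb, e2, e4, Nat.cast_one, zpow_one, zpow_one] at hrel'
        exact hwv' (eq_inv_of_mul_eq_one_left hrel')
      · rw [ea, eb, e2, e4, Nat.cast_one, zpow_neg, zpow_one, zpow_one] at hrel'
        exact hwv (by
          have := eq_inv_of_mul_eq_one_left hrel'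
          rwa [inv_inv] at this)
    · rcases Int.natAbs_eq b with eb | eb
      · rw [ea, eb, e2, e4, Nat.cast_one, zpow_neg, zpow_one, zpow_one] at hrel'
        exact hwv (by
          have := eq_inv_of_mul_eq_one_right hrel'
          rw [inv_inv] at this
          exact this.symm)
      · rw [ea, eb, e2, e4, Nat.cast_one, zpow_neg, zpow_neg, zpow_one, zpow_one] at hrel'
        exact hwv' (by
          have := eq_inv_of_mul_eq_one_left hrel'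
          rw [inv_inv] at this
          rw [← this, inv_inv])
  obtain ⟨X, Y, hXY, hXa, hYb⟩ := d2_bezout a b (Int.isCoprime_iff_gcd_eq_one.2 hab) ha0 hb0
  obtain ⟨τ, hτ⟩ : ∃ τ : ℂ, τ = w ^ X * v ^ Y := ⟨_, rfl⟩
  have hτ1 : ‖τ‖ = 1 := by
    rw [hτ, norm_mul, norm_zpow, norm_zpow, hw1, hv1, one_zpow, one_zpow, one_mul]
  have hτ0 : τ ≠ 0 := by
    intro e
    rw [e, norm_zero] at hτ1
    exact zero_ne_one hτ1
  have hvb : v ^ b = w ^ (-a) := by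
    rw [zpow_neg]
    exact eq_inv_of_mul_eq_one_right hrel'
  have hwa : w ^ a = v ^ (-b) := by
    rw [zpow_neg]
    exact eq_inv_of_mul_eq_one_left hrel'
  have hτb : τ ^ b = w := by
    have e1 : (v ^ Y) ^ b = (v ^ b) ^ Y := by
      rw [← zpow_mul, ← zpow_mul, mul_comm]
    rw [hτ, mul_zpow, e1, hvb, ← zpow_mul, ← zpow_mul, ← zpow_add₀ hw0]
    have e2 : X * b + -a * Y = 1 := by linear_combination hXY
    rw [e2, zpow_one]
  have hτa : τ ^ (-a) = v := by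
    have e1 : (w ^ X) ^ (-a) = (w ^ a) ^ (-X) := by
      rw [← zpow_mul, ← zpow_mul]
      congr 1
      ring
    rw [hτ, mul_zpow, e1, hwa, ← zpow_mul, ← zpow_mul, ← zpow_add₀ hv0]
    have e2 : -b * -X + Y * -a = 1 := by linear_combination hXY
    rw [e2, zpow_one]
  have hτne : ∀ l : ℕ, 1 ≤ l → τ ^ l ≠ 1 := by
    intro l hl e
    rw [hτ] at e
    have e1 := htor X Y l hl e
    rw [← hτ] at e1
    apply hwne
    rw [← hτb, e1, one_zpow]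
  -- the representation
  obtain ⟨wq, -, hx, hwq⟩ := hrep T D J ρ hJmin htop hinjc
  have hwq0 := hwq hcirc
  obtain ⟨F, hF⟩ : ∃ F : ℂ → ℂ, ∀ z, F z = trig (D.Y J i0 / D.Q J i0) (D.Y J i1 / D.Q J i1)
      (D.Y J i2 / D.Q J i2) (D.Y J i3 / D.Q J i3) (D.Y J i4 / D.Q J i4) b (-a) z :=
    ⟨_, fun _ => rfl⟩
  have hxF : ∀ m : ℕ, ((D.x m : ℤ) : ℂ) = (ρ : ℂ) ^ m * F (τ ^ m) := by
    intro m
    have e1 := hx m
    rw [hcirc, hsum, hwq0, Pi.zero_apply, add_zero] at e1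
    have e2 : (τ ^ m) ^ b = w ^ m := by
      rw [← zpow_natCast, ← zpow_mul, mul_comm, zpow_mul, hτb, zpow_natCast]
    have e3 : (τ ^ m) ^ (-a) = v ^ m := by
      rw [← zpow_natCast, ← zpow_mul, mul_comm, zpow_mul, hτa, zpow_natCast]
    have e4 : (τ ^ m) ^ (-b) = (D.lam i2 / (ρ : ℂ)) ^ m := by
      rw [zpow_neg, e2, ← inv_pow, hwi]
    have e5 : (τ ^ m) ^ (- -a) = (D.lam i4 / (ρ : ℂ)) ^ m := by
      rw [zpow_neg, e3, ← inv_pow, hvi]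
    have e6 : ∀ k : Fin d, (ρ : ℂ) ^ m * (D.lam k / (ρ : ℂ)) ^ m = D.lam k ^ m := by
      intro k
      rw [← mul_pow, mul_div_cancel₀ _ hρ']
    have e7 := e6 i1
    have e8 := e6 i2
    have e9 := e6 i3
    have e10 := e6 i4
    rw [← hw] at e7
    rw [← hv] at e9
    rw [hF]
    unfold trig
    rw [e2, e3, e4, e5]
    unfold Dat.xc at e1
    rw [e1, h0, ← e7, ← e8, ← e9, ← e10]
    ring
  have hxre : ∀ m : ℕ, (D.x m : ℝ) = ρ ^ m * (F (τ ^ m)).re := by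
    intro m
    have e1 := congrArg Complex.re (hxF m)
    rw [← Complex.ofReal_pow, Complex.re_ofReal_mul, Complex.intCast_re] at e1
    exact e1
  have hτm : ∀ m : ℕ, ‖τ ^ m‖ = 1 := fun m => by rw [norm_pow, hτ1, one_pow]
  by_contra hneg
  push Not at hneg
  have hFneg : (F (τ ^ n)).re < 0 := by
    by_contra hc
    push Not at hc
    have e1 := hxre n
    have e2 : 0 ≤ (D.x n : ℝ) := by
      rw [e1]
      positivity
    exact absurd (by exact_mod_cast e2) (not_le.2 hneg)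
  rw [hF] at hFneg
  obtain ⟨ζ, hζ1, hζ⟩ := hmin T D J hJmin i0 i1 i2 i3 i4 (by
      intro k hk
      rw [← hJ] at hk
      exact ⟨hk, hQ0 k hk⟩) hc0 hc1' hc3' b (-a) h hb0 (neg_ne_zero.2 ha0)
    (by rw [abs_neg]; exact hne_abs.symm) hbh (by rw [abs_neg]; exact hah) (τ ^ n) (hτm n) hFneg
  rw [← hF] at hζ
  obtain ⟨κ, hκ⟩ : ∃ κ, κ = -(F ζ).re := ⟨_, rfl⟩
  rw [← hκ] at hζ
  obtain ⟨P, hP⟩ : ∃ P : ℕ, P = (h + 1) * T := ⟨_, rfl⟩
  have hPc : ((h : ℝ) + 1) * T = P := by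
    rw [hP]
    push_cast
    ring
  rw [hPc] at hζ
  have hTP : T ≤ P := by rw [hP]; exact Nat.le_mul_of_pos_left T (by omega)
  have hhP : h + 1 ≤ P := by
    rw [hP]
    exact Nat.le_mul_of_pos_right _ (by have := D.two_le; omega)
  have hP2 : 2 ≤ P := D.two_le.trans hTP
  have hP2r : (2 : ℝ) ≤ P := by exact_mod_cast hP2
  have hTPr : (T : ℝ) ≤ P := by exact_mod_cast hTP
  have hhPr : (h : ℝ) + 1 ≤ P := by exact_mod_cast hhP
  obtain ⟨A, hA⟩ : ∃ A : ℕ, A = P ^ (4 + c1 + c0 * (h + 1) ^ 3) := ⟨_, rfl⟩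
  have hA2 : 2 ≤ A := by
    rw [hA]
    calc 2 ≤ P := hP2
      _ = P ^ 1 := (pow_one P).symm
      _ ≤ _ := Nat.pow_le_pow_right (by omega) (by omega)
  have hA2r : (2 : ℝ) ≤ A := by exact_mod_cast hA2
  have hA0 : (0 : ℝ) < A := by linarith
  -- bound of the coefficients
  have hβ : ∀ k ∈ J, ‖D.Y J k / D.Q J k‖ ≤ (T : ℝ) ^ c1 := by
    intro k hk
    have e1 := (hY T D J hJmin k hk).1
    have e2 := (hQ T D J k).2 (hQ0 k hk)
    have e3 : 0 < ‖D.Q J k‖ := norm_pos_iff.2 (hQ0 k hk)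
    rw [norm_div, div_le_iff₀ e3, hc1, pow_add]
    calc ‖D.Y J k‖ ≤ (T : ℝ) ^ cY * 1 := by rw [mul_one]; exact e1
      _ ≤ (T : ℝ) ^ cY * ((T : ℝ) ^ cQ * ‖D.Q J k‖) :=
          mul_le_mul_of_nonneg_left e2 (by positivity)
      _ = (T : ℝ) ^ cY * (T : ℝ) ^ cQ * ‖D.Q J k‖ := by ring
  have hbr : |(b : ℝ)| ≤ (h : ℝ) := by exact_mod_cast hbh
  have har : |((-a : ℤ) : ℝ)| ≤ (h : ℝ) := by
    push_cast
    rw [abs_neg]
    exact_mod_cast hah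
  have hlip : ∀ m : ℕ, ‖F (τ ^ m) - F ζ‖ ≤ 4 * h * (T : ℝ) ^ c1 * ‖τ ^ m - ζ‖ := by
    intro m
    rw [hF, hF]
    exact d2_trig _ _ _ _ _ b (-a) (hτm m) hζ1 _ _ (hβ i1 hm1) (hβ i2 hm2) (hβ i3 hm3)
      (hβ i4 hm4) hbr har
  have hsmall : 4 * (h : ℝ) * (T : ℝ) ^ c1 < κ * A := by
    have e1 : (P : ℝ) ^ (4 + c1) ≤ κ * A := by
      rw [hA]
      push_cast
      rw [pow_add _ (4 + c1)]
      calc (P : ℝ) ^ (4 + c1) = (P : ℝ) ^ (4 + c1) * 1 := (mul_one _).symm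
        _ ≤ (P : ℝ) ^ (4 + c1) * ((P : ℝ) ^ (c0 * (h + 1) ^ 3) * κ) :=
            mul_le_mul_of_nonneg_left hζ (by positivity)
        _ = κ * ((P : ℝ) ^ (4 + c1) * (P : ℝ) ^ (c0 * (h + 1) ^ 3)) := by ring
    have e2 : (T : ℝ) ^ c1 ≤ (P : ℝ) ^ c1 := pow_le_pow_left₀ hT0.le hTPr c1
    have e3 : 4 * (h : ℝ) < (P : ℝ) ^ 4 := by
      have f1 : 4 * (h : ℝ) < 4 * P := by linarith
      have f2 : (4 : ℝ) * P ≤ (P : ℝ) ^ 3 * P := by
        refine mul_le_mul_of_nonneg_right ?_ (by positivity)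
        calc (4 : ℝ) ≤ 2 ^ 3 := by norm_num
          _ ≤ (P : ℝ) ^ 3 := pow_le_pow_left₀ (by norm_num) hP2r 3
      have f3 : (P : ℝ) ^ 3 * P = (P : ℝ) ^ 4 := (pow_succ _ _).symm
      linarith
    have e4 : (0 : ℝ) < (P : ℝ) ^ c1 := by positivity
    calc 4 * (h : ℝ) * (T : ℝ) ^ c1 ≤ 4 * (h : ℝ) * (P : ℝ) ^ c1 :=
          mul_le_mul_of_nonneg_left e2 (by positivity)
      _ < (P : ℝ) ^ 4 * (P : ℝ) ^ c1 := mul_lt_mul_of_pos_right e3 e4
      _ = (P : ℝ) ^ (4 + c1) := (pow_add _ _ _).symm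
      _ ≤ κ * A := e1
  -- density
  obtain ⟨K, hK⟩ : ∃ K : ℕ, K = A ^ c2 := ⟨_, rfl⟩
  have hKr : (K : ℝ) = (A : ℝ) ^ c2 := by
    rw [hK]
    push_cast
    rfl
  obtain ⟨N, hN⟩ : ∃ N : ℕ, N = 2 * h * K := ⟨_, rfl⟩
  obtain ⟨E, hE⟩ : ∃ E : ℕ, E = (N + 1) * c3 + N := ⟨_, rfl⟩
  have hKK' := hKK A hA2
  rw [← hK, ← hKr] at hKK'
  have hq0 : 0 ≤ 1 - (1 / (A : ℝ)) ^ 2 / 4 := by
    have e1 : 1 / (A : ℝ) ≤ 1 := by
      rw [div_le_one hA0]
      linarith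
    have e2 : (1 / (A : ℝ)) ^ 2 ≤ 1 := pow_le_one₀ (by positivity) e1
    linarith
  have hq1 : 0 ≤ (2 * (K : ℝ) + 1) * (1 - (1 / (A : ℝ)) ^ 2 / 4) ^ K :=
    mul_nonneg (by positivity) (pow_nonneg hq0 K)
  obtain ⟨m, -, hm, hmτ⟩ := dens1 τ ζ hτ1 hζ1 K (1 / (A : ℝ)) (1 / (T : ℝ) ^ E) (by positivity)
    (by
      rw [div_le_iff₀ hA0]
      linarith)
    (by positivity) (by linarith) (by
      intro l hl hlK
      have e1 : τ ^ l = w ^ (X * l) * v ^ (Y * l) := by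
        rw [hτ, mul_pow, ← zpow_natCast, ← zpow_natCast, ← zpow_mul, ← zpow_mul]
      have e2 : w ^ (X * l) * v ^ (Y * l) ≠ 1 := by
        rw [← e1]
        exact hτne l hl
      have e3 : (X * (l : ℤ)).natAbs + (Y * (l : ℤ)).natAbs ≤ N := by
        rw [Int.natAbs_mul, Int.natAbs_mul, Int.natAbs_natCast, hN]
        have f1 : X.natAbs ≤ h := by
          have f0 := hXa.trans hah
          rw [Int.abs_eq_natAbs] at f0
          exact_mod_cast f0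
        have f2 : Y.natAbs ≤ h := by
          have f0 := hYb.trans hbh
          rw [Int.abs_eq_natAbs] at f0
          exact_mod_cast f0
        have f3 : X.natAbs * l ≤ h * K := Nat.mul_le_mul f1 hlK
        have f4 : Y.natAbs * l ≤ h * K := Nat.mul_le_mul f2 hlK
        have f5 : 2 * h * K = h * K + h * K := by ring
        omega
      rw [hw, hv] at e2
      have e4 := hmono T D ρ hρ i0 i1 i2 i3 i4 h0 h2 h4 (hnorm i1 hm1) (hnorm i3 hm3)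
        (X * l) (Y * l) N e3 e2
      rw [← hw, ← hv, ← hE, ← e1] at e4
      rw [div_le_iff₀ (by positivity)]
      linarith)
    (4 * (2 * K + 1) * T ^ E + 1) (by
      push_cast
      rw [one_div, inv_mul_eq_div, lt_div_iff₀ (by positivity)]
      linarith) 0
  rw [Nat.zero_add] at hm
  -- contradiction
  have hFm : (F (τ ^ m)).re < 0 := by
    have e1 := hlip m
    have e2 : 4 * (h : ℝ) * (T : ℝ) ^ c1 * ‖τ ^ m - ζ‖ ≤ 4 * h * (T : ℝ) ^ c1 * (1 / A) :=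
      mul_le_mul_of_nonneg_left hmτ (by positivity)
    have e3 : 4 * (h : ℝ) * (T : ℝ) ^ c1 * (1 / A) < κ := by
      rw [mul_one_div, div_lt_iff₀ hA0]
      exact hsmall
    have e4 : (F (τ ^ m)).re - (F ζ).re ≤ ‖F (τ ^ m) - F ζ‖ := by
      rw [← Complex.sub_re]
      exact Complex.re_le_norm _
    linarith
  have hxm : (D.x m : ℝ) < 0 := by
    rw [hxre m]
    exact mul_neg_of_pos_of_neg (by positivity) hFm
  have hle := d2_arith c0 c1 c2 c3 h T D.two_le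
  rw [← hP, ← hA, ← hK, ← hN, ← hE] at hle
  have h9 := hpos m (by rw [← hP]; omega)
  have h10 : (0 : ℝ) ≤ (D.x m : ℝ) := by exact_mod_cast h9
  linarith

end Pool.Agent.Helper73.DM
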