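import Pool.Agent.Helper73.DM.Act

/-!
# DM-14: the difference subsequences are killed by `A` if `χ ∣ X^P A(X^P)`

Proof. `W = X^P * A.comp (X^P)` kills `f` (`act_of_dvd`). For all `m`: `(act W f) m = ∑_i A_i f (m + P + P i)`: write `A = ∑ A_i X^i` (`act_apply`), `A.comp (X^P) = ∑ C A_i * X^(P i)`
(`Polynomial.comp`, `eval₂_eq_sum_range`), `act_add`, `act_mul`, `act_C`, `act_X_pow` (a lemma `act (X^P * A.comp (X^P)) f m = act A (fun n => f (m + P + P * n)) 0`, by `Polynomial.induction_on'`).
With `m = P n + r + 1` and `m = P n + r`: `P (n + i + 1) + r = m + P + P i - ...`; the difference is `(act A (dif f P r)) n = 0`.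
-/

set_option autoImplicit false

open Polynomial

namespace Pool.Agent.Helper73.DM

private theorem act_comp (A : ℂ[X]) (P : ℕ) (f : ℕ → ℂ) (m : ℕ) :
    act (A.comp (X ^ P)) f m = act A (fun n => f (m + P * n)) 0 := by
  induction A using Polynomial.induction_on' with
  | add p q hp hq =>
    rw [add_comp, act_add, act_add, Pi.add_apply, Pi.add_apply, hp, hq]
  | monomial i c =>
    rw [monomial_comp, ← C_mul_X_pow_eq_monomial, ← pow_mul, act_mul, act_mul, act_C, act_C,
      Pi.smul_apply, Pi.smul_apply, act_X_pow, act_X_pow, zero_add]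

theorem act_dif {χ A : ℂ[X]} {P : ℕ} (h : χ ∣ X ^ P * A.comp (X ^ P)) (f : ℕ → ℂ)
    (hf : act χ f = 0) (r : ℕ) : act A (dif f P r) = 0 := by
  have h1 : act (X ^ P * A.comp (X ^ P)) f = 0 := act_of_dvd h hf
  have h2 : ∀ m, act A (fun n => f (m + P + P * n)) 0 = 0 := by
    intro m
    rw [← act_comp, ← act_X_pow P (act (A.comp (X ^ P)) f) m, ← act_mul, h1]
    rfl
  funext n
  have h3 : act A (dif f P r) n = act A (fun k => dif f P r (k + n)) 0 := by
    rw [act_shift, zero_add]
  have h4 : (fun k => dif f P r (k + n)) =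
      (fun k => f (P * n + r + 1 + P + P * k)) - fun k => f (P * n + r + P + P * k) := by
    funext k
    rw [Pi.sub_apply]
    unfold dif
    have e1 : P * (k + n + 1) + r + 1 = P * n + r + 1 + P + P * k := by ring
    have e2 : P * (k + n + 1) + r = P * n + r + P + P * k := by ring
    rw [e1, e2]
  rw [h3, h4, act_sub_seq, Pi.sub_apply, h2, h2, sub_zero]
  rfl

end Pool.Agent.Helper73.DM
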