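import Pool.Agent.Helper73.DM.Act

/-! # DM-02: eigenvalues and eigenvectors -/

set_option autoImplicit false
set_option linter.unusedSectionVars false

open Polynomial

namespace Pool.Agent.Helper73.DM

section
variable {ι : Type*} [Fintype ι] [DecidableEq ι]

theorem eig_iff (N : Matrix ι ι ℂ) (z : ℂ) :
    z ∈ N.charpoly.roots ↔ ∃ v : ι → ℂ, v ≠ 0 ∧ N.mulVec v = z • v := by
  rw [mem_roots (Matrix.charpoly_monic N).ne_zero, IsRoot.def, Matrix.eval_charpoly,
    ← Matrix.exists_mulVec_eq_zero_iff]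
  refine exists_congr fun v => and_congr_right fun _ => ?_
  rw [Matrix.sub_mulVec, Matrix.scalar_apply, ← Matrix.smul_one_eq_diagonal, Matrix.smul_mulVec,
    Matrix.one_mulVec, sub_eq_zero, eq_comm]

theorem eig_pow {N : Matrix ι ι ℂ} {z : ℂ} {v : ι → ℂ} (h : N.mulVec v = z • v) (n : ℕ) :
    (N ^ n).mulVec v = z ^ n • v := by
  induction n with
  | zero => simp
  | succ n ih => rw [pow_succ, ← Matrix.mulVec_mulVec, h, Matrix.mulVec_smul, ih, smul_smul,
      pow_succ, mul_comm]

theorem cm_mul (M N : Matrix ι ι ℝ) : cm (M * N) = cm M * cm N := by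
  unfold cm
  exact Matrix.map_mul (f := Complex.ofRealHom)

theorem cm_pow (M : Matrix ι ι ℝ) (n : ℕ) : cm (M ^ n) = cm M ^ n := by
  induction n with
  | zero => simp [cm, Matrix.map_one]
  | succ n ih => rw [pow_succ, cm_mul, ih, pow_succ]

theorem cm_apply (M : Matrix ι ι ℝ) (i j : ι) : cm M i j = (M i j : ℂ) := rfl

theorem cm_mulVec (M : Matrix ι ι ℝ) (v : ι → ℝ) :
    (cm M).mulVec (fun i => (v i : ℂ)) = fun i => ((M.mulVec v i : ℝ) : ℂ) := by
  funext i
  simp [Matrix.mulVec, dotProduct, cm]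

end

end Pool.Agent.Helper73.DM
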