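import Pool.Agent.Helper73.DM.Upper

/-!
# DM-04: sequences killed by `(X - ρ)^m h`

* `act_pow_poly`. Induction on `m`. `m = 0`: `x = 0`, `Q = 0`. Step: `y = act (X - C ρ) x` is killed by `(X - C ρ)^m`, so `y n = ρ^n Q'(n)`, `Q' = 0` or
  `natDegree Q' < m`; `x (n+1) = ρ x n + ρ^n Q'(n)`, so `x n / ρ^n = x 0 + ρ⁻¹ ∑_{l<n} Q'(l)`. The sum over `l < n` of the values of a polynomial of degree `< m` is
  a polynomial in `n` of degree `≤ m` (lemma: for every `Q'` there is `S` with `S(0) = 0`, `S(X+1) - S(X) = Q'`, `natDegree S ≤ natDegree Q' + 1`, e.g. by induction on the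
  degree with `S = X^(d+1)/(d+1)`, or with the basis `descPochhammer`).
* `split_dom`. `(X - C ρ)^m` and `h` are coprime (no common root: `h ρ ≠ 0` since `ρ` is not a root of `h`, `IsCoprime.pow_left`, or `isCoprime_of_...`), so by `act_coprime` `x = v + w` with
  `v` killed by `(X - C ρ)^m`, `w` killed by `h`; `act_pow_poly` for `v`, `act_bound_lt` for `w`.
* `poly_zero_of_small`. `‖Q(P n + r)‖ ≤ B (t/ρ)^(P n + r) → 0`; a polynomial over `ℂ` whose values at `P n + r` tend to `0` is zero (if `Q ≠ 0` is constant: clear; if the degree is positive the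
  norm of the values tends to infinity: `Polynomial.tendsto_norm_atTop`).
-/

set_option autoImplicit false

open Polynomial

namespace Pool.Agent.Helper73.DM

/-- the polynomial `∑_{l<n} l^k` (Bernoulli) -/
noncomputable def sumPow (k : ℕ) : ℂ[X] :=
  ∑ i ∈ Finset.range (k + 1),
    C (((_root_.bernoulli i * ((k + 1).choose i : ℚ) / (k + 1) : ℚ) : ℂ)) * X ^ (k + 1 - i)

theorem sumPow_natDegree (k : ℕ) : (sumPow k).natDegree ≤ k + 1 := by
  unfold sumPow
  refine natDegree_sum_le_of_forall_le _ _ fun i _ => ?_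
  refine (natDegree_C_mul_X_pow_le _ _).trans (by omega)

theorem sumPow_eval (k n : ℕ) :
    (sumPow k).eval (n : ℂ) = ∑ l ∈ Finset.range n, (l : ℂ) ^ k := by
  have h := congrArg (fun q : ℚ => (q : ℂ)) (sum_range_pow n k)
  simp only [Rat.cast_sum, Rat.cast_pow, Rat.cast_natCast] at h
  rw [h]
  unfold sumPow
  rw [eval_finsetSum]
  refine Finset.sum_congr rfl fun i _ => ?_
  rw [eval_mul, eval_C, eval_pow, eval_X]
  push_cast
  ring

theorem sum_poly (Q : ℂ[X]) (m : ℕ) (hQ : Q = 0 ∨ Q.natDegree < m) :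
    ∃ S : ℂ[X], S.natDegree ≤ m ∧
      ∀ n : ℕ, S.eval (n : ℂ) = ∑ l ∈ Finset.range n, Q.eval (l : ℂ) := by
  refine ⟨∑ k ∈ Finset.range m, C (Q.coeff k) * sumPow k, ?_, fun n => ?_⟩
  · refine natDegree_sum_le_of_forall_le _ _ fun k hk => ?_
    refine (natDegree_C_mul_le _ _).trans ((sumPow_natDegree k).trans ?_)
    have := Finset.mem_range.1 hk
    omega
  · rw [eval_finsetSum]
    have h1 : ∀ z : ℂ, Q.eval z = ∑ k ∈ Finset.range m, Q.coeff k * z ^ k := by
      intro z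
      rcases hQ with h | h
      · simp [h]
      · exact eval_eq_sum_range' h z
    simp_rw [h1]
    rw [Finset.sum_comm]
    refine Finset.sum_congr rfl fun k _ => ?_
    rw [eval_mul, eval_C, sumPow_eval, Finset.mul_sum]

theorem act_pow_poly (ρ : ℂ) (hρ : ρ ≠ 0) (m : ℕ) (x : ℕ → ℂ) (h : act ((X - C ρ) ^ m) x = 0) :
    ∃ Q : ℂ[X], (Q = 0 ∨ Q.natDegree < m) ∧ ∀ n : ℕ, x n = ρ ^ n * Q.eval (n : ℂ) := by
  induction m generalizing x with
  | zero =>
    rw [pow_zero, act_one] at h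
    exact ⟨0, Or.inl rfl, fun n => by simp [h]⟩
  | succ m ih =>
    obtain ⟨Q', hQ', hy⟩ := ih (act (X - C ρ) x) (by rw [← act_mul, ← pow_succ]; exact h)
    obtain ⟨S, hS, hSe⟩ := sum_poly Q' m hQ'
    refine ⟨C (x 0) + C ρ⁻¹ * S, Or.inr ?_, fun n => ?_⟩
    · refine lt_of_le_of_lt (natDegree_add_le _ _) ?_
      rw [natDegree_C]
      have := (natDegree_C_mul_le ρ⁻¹ S).trans hS
      omega
    · rw [eval_add, eval_mul, eval_C, eval_C, hSe]
      induction n with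
      | zero => simp
      | succ n ihn =>
        have h1 := hy n
        rw [act_X_sub_C] at h1
        have h2 : x (n + 1) = ρ * x n + ρ ^ n * Q'.eval (n : ℂ) := by
          rw [← h1]; ring
        rw [h2, ihn, Finset.sum_range_succ, pow_succ]
        field_simp
        ring

theorem split_dom (ρ : ℝ) (hρ : 0 < ρ) (m : ℕ) (h : ℂ[X]) (hh : h.Monic)
    (hr : ∀ z ∈ h.roots, ‖z‖ < ρ) (x : ℕ → ℂ) (hx : act ((X - C (ρ : ℂ)) ^ m * h) x = 0) :
    ∃ (Q : ℂ[X]) (t B : ℝ), (Q = 0 ∨ Q.natDegree < m) ∧ 0 < t ∧ t < ρ ∧ 0 ≤ B ∧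
      ∀ n : ℕ, ‖x n - (ρ : ℂ) ^ n * Q.eval (n : ℂ)‖ ≤ B * t ^ n := by
  have hρ0 : (ρ : ℂ) ≠ 0 := by exact_mod_cast hρ.ne'
  have hnr : ¬ (X - C (ρ : ℂ)) ∣ h := by
    intro hd
    rw [dvd_iff_isRoot] at hd
    have h1 : (ρ : ℂ) ∈ h.roots := (mem_roots hh.ne_zero).2 hd
    have h2 := hr _ h1
    rw [Complex.norm_real, Real.norm_of_nonneg hρ.le] at h2
    exact lt_irrefl _ h2
  have hcop : IsCoprime ((X - C (ρ : ℂ)) ^ m) h := by
    refine IsCoprime.pow_left ?_
    exact (irreducible_X_sub_C (ρ : ℂ)).coprime_iff_not_dvd.2 hnr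
  obtain ⟨v, w, hvw, hv, hw⟩ := act_coprime hcop hx
  obtain ⟨Q, hQ, hvQ⟩ := act_pow_poly (ρ : ℂ) hρ0 m v hv
  obtain ⟨t, B, ht, htρ, hB, hwB⟩ := act_bound_lt h hh ρ hρ hr w hw
  refine ⟨Q, t, B, hQ, ht, htρ, hB, fun n => ?_⟩
  have h1 : x n - (ρ : ℂ) ^ n * Q.eval (n : ℂ) = w n := by
    rw [hvw, Pi.add_apply, hvQ n]; ring
  rw [h1]
  exact hwB n

theorem poly_zero_of_small (Q : ℂ[X]) (P r : ℕ) (hP : 0 < P) (ρ t B : ℝ) (h0 : 0 < t)
    (ht : t < ρ)
    (h : ∀ n : ℕ, ‖(ρ : ℂ) ^ (P * n + r) * Q.eval ((P * n + r : ℕ) : ℂ)‖ ≤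
      B * t ^ (P * n + r)) : Q = 0 := by
  have hρ : 0 < ρ := h0.trans ht
  have hN : Filter.Tendsto (fun n : ℕ => P * n + r) Filter.atTop Filter.atTop := by
    refine Filter.tendsto_atTop_mono (fun n => ?_) Filter.tendsto_id
    simp only [id]
    nlinarith [Nat.le_mul_of_pos_left n hP]
  have hsmall : Filter.Tendsto (fun n : ℕ => ‖Q.eval ((P * n + r : ℕ) : ℂ)‖)
      Filter.atTop (nhds 0) := by
    have h1 : Filter.Tendsto (fun n : ℕ => B * (t / ρ) ^ (P * n + r)) Filter.atTop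
        (nhds 0) := by
      have h2 : Filter.Tendsto (fun k : ℕ => (t / ρ) ^ k) Filter.atTop (nhds 0) :=
        tendsto_pow_atTop_nhds_zero_of_lt_one (by positivity) ((div_lt_one hρ).2 ht)
      have h3 := (h2.comp hN).const_mul B
      simpa using h3
    refine squeeze_zero (fun n => norm_nonneg _) (fun n => ?_) h1
    have h2 := h n
    rw [norm_mul, norm_pow, Complex.norm_real, Real.norm_of_nonneg hρ.le] at h2
    have hp : 0 < ρ ^ (P * n + r) := pow_pos hρ _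
    rw [div_pow, ← mul_div_assoc, le_div_iff₀ hp]
    linarith
  by_cases hd : 0 < Q.degree
  · exfalso
    have h1 : Filter.Tendsto (fun n : ℕ => ‖((P * n + r : ℕ) : ℂ)‖) Filter.atTop
        Filter.atTop := by
      have h2 : (fun n : ℕ => ‖((P * n + r : ℕ) : ℂ)‖) = fun n : ℕ => ((P * n + r : ℕ) : ℝ) := by
        funext n
        exact Complex.norm_natCast _
      rw [h2]
      exact tendsto_natCast_atTop_atTop.comp hN
    exact not_tendsto_nhds_of_tendsto_atTop (Q.tendsto_norm_atTop hd h1) 0 hsmall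
  · have h1 : Q = C (Q.coeff 0) := eq_C_of_degree_le_zero (not_lt.1 hd)
    rw [h1] at hsmall
    simp only [eval_C] at hsmall
    have h2 := tendsto_nhds_unique hsmall tendsto_const_nhds
    have h3 : Q.coeff 0 = 0 := norm_eq_zero.1 h2.symm
    rw [h1, h3, C_0]

end Pool.Agent.Helper73.DM
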