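import Pool.Agent.Helper73.DM.Baker
import Pool.Agent.Helper73.DM.RepSimple
import Pool.Agent.Helper73.DM.Weights

/-!
# DM-B12: three roots on the circle

`rep_simple` (injectivity: the three values are different: `λ_{i1} ≠ ρ`, `λ_{i2} = conj λ_{i1} ≠ λ_{i1}` by the torsion hypothesis with `m = 1`). `a = Y_{i0}/Q_{i0}`, `b = Y_{i1}/Q_{i1}`, `Y_{i2}/Q_{i2} = conj b`, `a` real: conjugate the representation (`xc` real) and compare (or: `J` is closed under conjugation up to a permutation of equal values: `mult_conj`).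
`z = λ_{i1}`, `ω = z/ρ`. `x n/ρ^n = a + 2 Re (b ω^n) + w n/ρ^n`, `‖w n‖/ρ^n ≤ T^c (1 + 1/T^c)^(-n)`. `Δ = a² - 4 b conj b` is `[Yρ² Qz Qz̄ - 4 Yz Yz̄ Qρ²]/(Qρ² Qz Qz̄)` (numerator = value of an `MvPolynomial`, `aeval_YP`, `aeval_QP`, `YP_bd`, `QP_bd`): `Δ = 0` or `|Δ| ≥ 1/T^c1` (`liou_bd`, `Q_bounds`). `‖a‖, ‖b‖ ≤ T^c1`, `‖b‖ ≥ 1/T^c1` (`Y_bounds`, `Q_bounds`).
(1) `a > 2‖b‖`: `a - 2‖b‖ = Δ/(a + 2‖b‖) ≥ 1/T^c2`, so `x n > 0` as soon as `T^c (1+1/T^c)^(-n) < 1/T^c2`, in particular for `n ≥ T^c3`; the smaller `n` by hypothesis.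
(2) `a < 2‖b‖`: `2‖b‖ - a ≥ 1/T^c2` (if `a < 0`, `2‖b‖ - a ≥ 2‖b‖`; otherwise as in (1)). `ζ0 = - conj b/‖b‖`: `a + 2 Re(b ζ0) = a - 2‖b‖`. `dens1` with `τ = ω`, `ε = 1/T^c4`, `K` from `exists_K` (`A = T^c4`), `η` = lower bound of `‖ω^l - 1‖`, `l ≤ K`: `F = X_{i1}^l - X_{i0}^l` is nonzero at `λ` and `≤ 2 T^l` on the polydisc, so
`‖z^l - ρ^l‖ ≥ (2 T^K)^(-c5)`, `η ≥ 2^(-T^c6)` (`ρ ≤ T`); `n0 = T^c3` makes `‖w n‖/ρ^n` small: there is `n ≤ n0 + 2^(T^c7)` with `‖ω^n - ζ0‖ ≤ ε`, so `x n/ρ^n ≤ -1/T^c2 + 2 ‖b‖ ε + small < 0`, `n ≤ 2^(T^c)`: contradiction with the hypothesis.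
(3) `a = 2‖b‖` (`Δ = 0`, `a ≥ 0`; if `a < 0`, then `a < 2‖b‖`, case (2)): `a + 2 Re(b ω^n) = ‖b‖ ‖1 + κ‖²`, `κ = (b/‖b‖) ω^n`, `‖κ‖ = 1`, `‖1 + κ‖ ≥ ‖κ² - 1‖/2`, `κ² = (b/conj b)(z/z̄)^n`. `F1 = YP_{i1} QP_{i2}`, `F2 = QP_{i1} YP_{i2}` (values nonzero, of equal norm), `B = T^c8`: `baker` with `i = i1`, `j = i2`:
`‖κ² - 1‖ = ‖F1 z^n - F2 z̄^n‖/‖F2 z̄^n‖ ≥ exp(-δ n)`, `δ = c B p²/2^p`, for `n ≥ (B 2^p)^c`. Choose `p = T^c9` so large that `2 δ ≤ (1/2) log (1 + 1/T^c)` (`log(1+t) ≥ t/2`): then `‖b‖ exp(-2δn)/4 > T^c (1+1/T^c)^(-n)` for `n ≥ T^c10`, so `x n > 0` for all `n ≥ max((B 2^p)^c, T^c10)`, and this is `≤ 2^(T^c)`.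
-/

set_option autoImplicit false

open Polynomial

namespace Pool.Agent.Helper73.DM

private theorem conj_YQ {d T : ℕ} (D : Dat d T) (J : Finset (Fin d)) (h : D.IsMin J)
    (i i' : Fin d) (hi : i ∈ J) (hi' : i' ∈ J) (hc : D.lam i' = starRingEnd ℂ (D.lam i)) :
    D.Y J i' = starRingEnd ℂ (D.Y J i) ∧ D.Q J i' = starRingEnd ℂ (D.Q J i) := by
  have hmap : (∏ i ∈ J, (X - C (D.lam i))).map (starRingEnd ℂ) =
      ∏ i ∈ J, (X - C (starRingEnd ℂ (D.lam i))) := by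
    rw [Polynomial.map_prod]
    simp only [Polynomial.map_sub, Polynomial.map_X, Polynomial.map_C]
  have h2 : (fun n => starRingEnd ℂ (D.xc n)) = D.xc := by
    funext n
    unfold Dat.xc
    exact map_intCast (starRingEnd ℂ) (D.x n)
  have hk : act (∏ i ∈ J, (X - C (starRingEnd ℂ (D.lam i)))) D.xc = 0 := by
    rw [← hmap]
    have h1 := act_map (starRingEnd ℂ) (∏ i ∈ J, (X - C (D.lam i))) D.xc
    rw [h2, h.1] at h1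
    rw [h1]
    funext n
    simp
  have hd := min_dvd D J h _ hk
  have hm1 : (∏ i ∈ J, (X - C (D.lam i))).Monic :=
    monic_prod_of_monic _ _ fun _ _ => monic_X_sub_C _
  have hm2 : (∏ i ∈ J, (X - C (starRingEnd ℂ (D.lam i)))).Monic :=
    monic_prod_of_monic _ _ fun _ _ => monic_X_sub_C _
  have hdeg : (∏ i ∈ J, (X - C (starRingEnd ℂ (D.lam i)))).natDegree ≤
      (∏ i ∈ J, (X - C (D.lam i))).natDegree := by
    rw [natDegree_prod_of_monic _ _ (fun i _ => monic_X_sub_C _),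
      natDegree_prod_of_monic _ _ (fun i _ => monic_X_sub_C _)]
    simp only [natDegree_X_sub_C]
    exact le_rfl
  have heq := eq_of_monic_of_dvd_of_natDegree_le hm1 hm2 hd hdeg
  obtain ⟨A, hA⟩ : ∃ A, A = ∏ j ∈ J.erase i, (X - C (D.lam j)) := ⟨_, rfl⟩
  obtain ⟨A', hA'⟩ : ∃ A', A' = ∏ j ∈ J.erase i', (X - C (D.lam j)) := ⟨_, rfl⟩
  have e1 : (X - C (D.lam i)) * A = ∏ j ∈ J, (X - C (D.lam j)) := by
    rw [hA]
    exact Finset.mul_prod_erase J (fun j => (X - C (D.lam j))) hi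
  have e2 : (X - C (D.lam i')) * A' = ∏ j ∈ J, (X - C (D.lam j)) := by
    rw [hA']
    exact Finset.mul_prod_erase J (fun j => (X - C (D.lam j))) hi'
  have e3 : (X - C (D.lam i')) * A.map (starRingEnd ℂ) = (X - C (D.lam i')) * A' := by
    have h3 := congrArg (Polynomial.map (starRingEnd ℂ)) e1
    rw [Polynomial.map_mul, Polynomial.map_sub, Polynomial.map_X, Polynomial.map_C, ← hc, hmap, heq] at h3
    rw [h3, e2]
  have e4 : A' = A.map (starRingEnd ℂ) := (mul_left_cancel₀ (X_sub_C_ne_zero _) e3).symm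
  constructor
  · have h3 := act_map (starRingEnd ℂ) A D.xc
    rw [h2] at h3
    rw [Dat.Y, Dat.Y, ← hA, ← hA', e4, h3]
  · have h3 : ∀ (k : Fin d), D.Q J k = (∏ j ∈ J.erase k, (X - C (D.lam j))).eval (D.lam k) := by
      intro k
      rw [eval_prod, Dat.Q]
      simp
    rw [h3, h3, ← hA, ← hA', e4, hc, eval_map, eval₂_at_apply]

private theorem decay (T : ℕ) (hT : 2 ≤ T) (c v n : ℕ) (hn : T ^ (2 * c + v + 2) ≤ n) :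
    (T : ℝ) ^ (c + v) ≤ (1 + 1 / (T : ℝ) ^ c) ^ n := by
  have hT0 : (0 : ℝ) < T := by exact_mod_cast (by omega : 0 < T)
  have hm0 : (0 : ℝ) < (T : ℝ) ^ c := pow_pos hT0 c
  have h1 : (2 : ℝ) ≤ (1 + 1 / (T : ℝ) ^ c) ^ (T ^ c) := by
    have h2 := one_add_mul_le_pow (a := 1 / (T : ℝ) ^ c) (by
      have : 0 < 1 / (T : ℝ) ^ c := by positivity
      linarith) (T ^ c)
    have h3 : 1 + ((T ^ c : ℕ) : ℝ) * (1 / (T : ℝ) ^ c) = 2 := by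
      push_cast
      field_simp
      norm_num
    rw [h3] at h2
    exact h2
  have hle : T ^ c * (T * (c + v)) ≤ n := by
    have h2 : c + v ≤ T ^ (c + v) :=
      (Nat.lt_two_pow_self).le.trans (Nat.pow_le_pow_left hT _)
    calc T ^ c * (T * (c + v)) ≤ T ^ c * (T * T ^ (c + v)) := by gcongr
      _ = T ^ (2 * c + v + 1) := by ring
      _ ≤ T ^ (2 * c + v + 2) := Nat.pow_le_pow_right (by omega) (by omega)
      _ ≤ n := hn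
  have hR : (1 : ℝ) ≤ 1 + 1 / (T : ℝ) ^ c := by
    have : 0 < 1 / (T : ℝ) ^ c := by positivity
    linarith
  calc (T : ℝ) ^ (c + v) ≤ (2 ^ T) ^ (c + v) := by
        apply pow_le_pow_left₀ hT0.le
        exact_mod_cast (Nat.lt_two_pow_self (n := T)).le
    _ = 2 ^ (T * (c + v)) := by rw [pow_mul]
    _ ≤ ((1 + 1 / (T : ℝ) ^ c) ^ (T ^ c)) ^ (T * (c + v)) := pow_le_pow_left₀ (by norm_num) h1 _
    _ = (1 + 1 / (T : ℝ) ^ c) ^ (T ^ c * (T * (c + v))) := by rw [← pow_mul]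
    _ ≤ (1 + 1 / (T : ℝ) ^ c) ^ n := pow_le_pow_right₀ hR hle

private theorem tw_mono {T A B x : ℕ} (hT : 2 ≤ T) (h : x ≤ 2 ^ (T ^ A)) (hAB : A ≤ B) :
    x ≤ 2 ^ (T ^ B) :=
  h.trans (Nat.pow_le_pow_right (by norm_num) (Nat.pow_le_pow_right (by omega) hAB))

private theorem tw_pow (T k : ℕ) (hT : 2 ≤ T) : T ^ k ≤ 2 ^ (T ^ (k + 1)) := by
  calc T ^ k ≤ (2 ^ T) ^ k := Nat.pow_le_pow_left (Nat.lt_two_pow_self).le _
    _ = 2 ^ (T * k) := by rw [pow_mul]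
    _ ≤ 2 ^ (T * T ^ k) := by
        apply Nat.pow_le_pow_right (by norm_num)
        exact Nat.mul_le_mul_left _ ((Nat.lt_two_pow_self).le.trans (Nat.pow_le_pow_left hT _))
    _ = 2 ^ (T ^ (k + 1)) := by rw [pow_succ, mul_comm]

private theorem tw_exp {T x k : ℕ} (hx : x ≤ T ^ k) : T ^ x ≤ 2 ^ (T ^ (k + 1)) := by
  calc T ^ x ≤ (2 ^ T) ^ x := Nat.pow_le_pow_left (Nat.lt_two_pow_self).le _
    _ = 2 ^ (T * x) := by rw [pow_mul]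
    _ ≤ 2 ^ (T * T ^ k) := Nat.pow_le_pow_right (by norm_num) (Nat.mul_le_mul_left _ hx)
    _ = 2 ^ (T ^ (k + 1)) := by rw [pow_succ, mul_comm]

private theorem tw_sum {T A B : ℕ} (hT : 2 ≤ T) : T ^ A + T ^ B ≤ T ^ (A + B + 1) := by
  have h1 : T ^ A ≤ T ^ (A + B) := Nat.pow_le_pow_right (by omega) (by omega)
  have h2 : T ^ B ≤ T ^ (A + B) := Nat.pow_le_pow_right (by omega) (by omega)
  have h3 : 2 * T ^ (A + B) ≤ T * T ^ (A + B) := Nat.mul_le_mul_right _ hT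
  rw [pow_succ]
  nlinarith

private theorem tw_mul {T A B x y : ℕ} (hT : 2 ≤ T) (hx : x ≤ 2 ^ (T ^ A)) (hy : y ≤ 2 ^ (T ^ B)) :
    x * y ≤ 2 ^ (T ^ (A + B + 1)) := by
  calc x * y ≤ 2 ^ (T ^ A) * 2 ^ (T ^ B) := Nat.mul_le_mul hx hy
    _ = 2 ^ (T ^ A + T ^ B) := by rw [pow_add]
    _ ≤ 2 ^ (T ^ (A + B + 1)) := Nat.pow_le_pow_right (by norm_num) (tw_sum hT)

private theorem tw_add {T A B x y : ℕ} (hT : 2 ≤ T) (hx : x ≤ 2 ^ (T ^ A)) (hy : y ≤ 2 ^ (T ^ B)) :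
    x + y ≤ 2 ^ (T ^ (A + B + 1)) := by
  have h1 : 2 ≤ 2 ^ (T ^ A) := by
    calc 2 = 2 ^ 1 := rfl
      _ ≤ 2 ^ (T ^ A) := Nat.pow_le_pow_right (by norm_num) (Nat.one_le_pow _ _ (by omega))
  have h2 : 2 ≤ 2 ^ (T ^ B) := by
    calc 2 = 2 ^ 1 := rfl
      _ ≤ 2 ^ (T ^ B) := Nat.pow_le_pow_right (by norm_num) (Nat.one_le_pow _ _ (by omega))
  have h3 : 2 ^ (T ^ A) + 2 ^ (T ^ B) ≤ 2 ^ (T ^ A) * 2 ^ (T ^ B) := by nlinarith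
  exact (Nat.add_le_add hx hy).trans (h3.trans (tw_mul hT le_rfl le_rfl))

/-- the real form of the representation -/
private theorem rep_re {x : ℕ → ℤ} {a ρ : ℝ} {b z : ℂ} {w : ℕ → ℂ}
    (hx : ∀ n, ((x n : ℤ) : ℂ) = (a : ℂ) * (ρ : ℂ) ^ n + b * z ^ n +
      starRingEnd ℂ b * (starRingEnd ℂ z) ^ n + w n) (n : ℕ) :
    (x n : ℝ) = a * ρ ^ n + 2 * (b * z ^ n).re + (w n).re := by
  have h1 := congrArg Complex.re (hx n)
  have h2 : starRingEnd ℂ b * (starRingEnd ℂ z) ^ n = starRingEnd ℂ (b * z ^ n) := by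
    rw [map_mul, map_pow]
  have h3 : (a : ℂ) * (ρ : ℂ) ^ n = ((a * ρ ^ n : ℝ) : ℂ) := by push_cast; rfl
  rw [h2, h3, Complex.add_re, Complex.add_re, Complex.add_re, Complex.ofReal_re, Complex.conj_re,
    Complex.intCast_re] at h1
  linarith

/-- the error term -/
private theorem err {T c v n : ℕ} (hT : 2 ≤ T) {ρ : ℝ} {w : ℕ → ℂ}
    (hw : ∀ n : ℕ, ‖w n‖ * (1 + 1 / (T : ℝ) ^ c) ^ n ≤ (T : ℝ) ^ c * ρ ^ n)
    (hn : T ^ (2 * c + v + 2) ≤ n) : ‖w n‖ * (T : ℝ) ^ v ≤ ρ ^ n := by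
  have hT0 : (0 : ℝ) < T := by exact_mod_cast (by omega : 0 < T)
  have h1 := decay T hT c v n hn
  have h2 : ‖w n‖ * (T : ℝ) ^ (c + v) ≤ (T : ℝ) ^ c * ρ ^ n :=
    (mul_le_mul_of_nonneg_left h1 (norm_nonneg _)).trans (hw n)
  rw [pow_add] at h2
  have h3 : 0 < (T : ℝ) ^ c := pow_pos hT0 c
  have h4 : (T : ℝ) ^ c * (‖w n‖ * (T : ℝ) ^ v) ≤ (T : ℝ) ^ c * ρ ^ n := by
    calc (T : ℝ) ^ c * (‖w n‖ * (T : ℝ) ^ v) = ‖w n‖ * ((T : ℝ) ^ c * (T : ℝ) ^ v) := by ring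
      _ ≤ _ := h2
  exact le_of_mul_le_mul_left h4 h3

private theorem case1 {T c v n : ℕ} (hT : 2 ≤ T) {x : ℕ → ℤ} {a ρ : ℝ} {b z : ℂ} {w : ℕ → ℂ}
    (hρ : 0 < ρ) (hz : ‖z‖ = ρ)
    (hx : ∀ n, ((x n : ℤ) : ℂ) = (a : ℂ) * (ρ : ℂ) ^ n + b * z ^ n +
      starRingEnd ℂ b * (starRingEnd ℂ z) ^ n + w n)
    (hw : ∀ n : ℕ, ‖w n‖ * (1 + 1 / (T : ℝ) ^ c) ^ n ≤ (T : ℝ) ^ c * ρ ^ n)
    (hv : 1 ≤ (T : ℝ) ^ v * (a - 2 * ‖b‖)) (hn : T ^ (2 * c + (v + 1) + 2) ≤ n) : 0 < x n := by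
  have hT0 : (0 : ℝ) < T := by exact_mod_cast (by omega : 0 < T)
  have hT2 : (2 : ℝ) ≤ T := by exact_mod_cast hT
  have h1 := rep_re hx n
  have h2 : -(‖b‖ * ρ ^ n) ≤ (b * z ^ n).re := by
    have h3 := Complex.abs_re_le_norm (b * z ^ n)
    rw [norm_mul, norm_pow, hz] at h3
    exact (abs_le.1 h3).1
  have h4 : -‖w n‖ ≤ (w n).re := (abs_le.1 (Complex.abs_re_le_norm (w n))).1
  have h5 := err hT hw hn
  have hρn : 0 < ρ ^ n := pow_pos hρ n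
  have h6 : ‖w n‖ < (a - 2 * ‖b‖) * ρ ^ n := by
    have h7 : 0 < (T : ℝ) ^ v := pow_pos hT0 v
    have h8 : ρ ^ n ≤ (T : ℝ) ^ v * (a - 2 * ‖b‖) * ρ ^ n := by
      have := mul_le_mul_of_nonneg_right hv hρn.le
      linarith
    rw [pow_succ] at h5
    have h9 : ‖w n‖ * (T : ℝ) ^ v * 2 ≤ ρ ^ n := by
      calc ‖w n‖ * (T : ℝ) ^ v * 2 ≤ ‖w n‖ * (T : ℝ) ^ v * T := by gcongr
        _ = ‖w n‖ * ((T : ℝ) ^ v * T) := by ring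
        _ ≤ _ := h5
    by_contra h10
    push Not at h10
    have h11 := mul_le_mul_of_nonneg_left h10 h7.le
    nlinarith
  have h12 : (0 : ℝ) < x n := by
    rw [h1]
    nlinarith
  exact_mod_cast h12

private theorem case2 {T c v e n : ℕ} (hT : 2 ≤ T) {x : ℕ → ℤ} {a ρ : ℝ} {b z ζ : ℂ} {w : ℕ → ℂ}
    (hρ : 0 < ρ) (hz : ‖z‖ = ρ) (hb : b ≠ 0)
    (hx : ∀ n, ((x n : ℤ) : ℂ) = (a : ℂ) * (ρ : ℂ) ^ n + b * z ^ n +
      starRingEnd ℂ b * (starRingEnd ℂ z) ^ n + w n)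
    (hw : ∀ n : ℕ, ‖w n‖ * (1 + 1 / (T : ℝ) ^ c) ^ n ≤ (T : ℝ) ^ c * ρ ^ n)
    (hv : 1 ≤ (T : ℝ) ^ v * (2 * ‖b‖ - a)) (hn : T ^ (2 * c + (v + 1) + 2) ≤ n)
    (hζ : ζ = -(starRingEnd ℂ b / (‖b‖ : ℂ))) (he : ‖(z / (ρ : ℂ)) ^ n - ζ‖ ≤ 1 / (T : ℝ) ^ e)
    (hbe : 8 * ‖b‖ * (T : ℝ) ^ v ≤ (T : ℝ) ^ e) : x n < 0 := by
  have hT0 : (0 : ℝ) < T := by exact_mod_cast (by omega : 0 < T)
  have hT2 : (2 : ℝ) ≤ T := by exact_mod_cast hT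
  have hbn : 0 < ‖b‖ := norm_pos_iff.2 hb
  have h1 := rep_re hx n
  have h4 : (w n).re ≤ ‖w n‖ := Complex.re_le_norm (w n)
  have h5 := err hT hw hn
  have hρn : 0 < ρ ^ n := pow_pos hρ n
  have hρc : (ρ : ℂ) ≠ 0 := by exact_mod_cast hρ.ne'
  have h7 : 0 < (T : ℝ) ^ v := pow_pos hT0 v
  have h7e : 0 < (T : ℝ) ^ e := pow_pos hT0 e
  have hbz : b * ζ = ((-‖b‖ : ℝ) : ℂ) := by
    have hbc : ((‖b‖ : ℝ) : ℂ) ≠ 0 := by exact_mod_cast hbn.ne'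
    rw [hζ, mul_neg, mul_div_assoc', Complex.mul_conj, Complex.normSq_eq_norm_sq]
    push_cast
    field_simp
  have h2 : (b * z ^ n).re ≤ ρ ^ n * (-‖b‖ + ‖b‖ * (1 / (T : ℝ) ^ e)) := by
    have h3 : b * z ^ n = ((ρ ^ n : ℝ) : ℂ) * (b * ζ + b * ((z / (ρ : ℂ)) ^ n - ζ)) := by
      push_cast
      rw [div_pow]
      field_simp
      ring
    rw [h3, Complex.re_ofReal_mul, Complex.add_re, hbz, Complex.ofReal_re]
    apply mul_le_mul_of_nonneg_left _ hρn.le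
    have h8 := Complex.re_le_norm (b * ((z / (ρ : ℂ)) ^ n - ζ))
    rw [norm_mul] at h8
    have h9 := mul_le_mul_of_nonneg_left he hbn.le
    linarith
  have h9 : ‖w n‖ * (T : ℝ) ^ v * 2 ≤ ρ ^ n := by
    rw [pow_succ] at h5
    calc ‖w n‖ * (T : ℝ) ^ v * 2 ≤ ‖w n‖ * (T : ℝ) ^ v * T := by gcongr
      _ = ‖w n‖ * ((T : ℝ) ^ v * T) := by ring
      _ ≤ _ := h5
  have h10 : ‖b‖ * (1 / (T : ℝ) ^ e) * (8 * (T : ℝ) ^ v) ≤ 1 := by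
    rw [mul_one_div, div_mul_eq_mul_div, div_le_one h7e]
    linarith
  have h12 : (x n : ℝ) < 0 := by
    rw [h1]
    obtain ⟨E, hE⟩ : ∃ E, E = ‖b‖ * (1 / (T : ℝ) ^ e) := ⟨_, rfl⟩
    rw [← hE] at h10 h2
    obtain ⟨V, hV⟩ : ∃ V, V = (T : ℝ) ^ v := ⟨_, rfl⟩
    rw [← hV] at h7 hv h9 h10
    obtain ⟨P, hP⟩ : ∃ P, P = ρ ^ n := ⟨_, rfl⟩
    rw [← hP] at hρn h2 h9 ⊢
    by_contra h13
    push Not at h13
    have h14 : 0 ≤ a * P + 2 * (P * (-‖b‖ + E)) + ‖w n‖ := by linarith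
    have h15 : 0 ≤ (a * P + 2 * (P * (-‖b‖ + E)) + ‖w n‖) * V := mul_nonneg h14 h7.le
    have h16 : P * 1 ≤ P * (V * (2 * ‖b‖ - a)) := mul_le_mul_of_nonneg_left hv hρn.le
    have h17 : P * (E * (8 * V)) ≤ P * 1 := mul_le_mul_of_nonneg_left h10 hρn.le
    nlinarith
  exact_mod_cast h12

private theorem two_re {β : ℂ} (hβ : β ≠ 0) :
    ‖β - starRingEnd ℂ β‖ ^ 2 ≤ 4 * ‖β‖ * (2 * ‖β‖ + 2 * β.re) := by
  have h1 : ‖β - starRingEnd ℂ β‖ ^ 2 = 4 * β.im ^ 2 := by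
    rw [← Complex.normSq_eq_norm_sq, Complex.normSq_apply, Complex.sub_re, Complex.sub_im,
      Complex.conj_re, Complex.conj_im]
    ring
  have h2 : ‖β‖ ^ 2 = β.re ^ 2 + β.im ^ 2 := by
    rw [← Complex.normSq_eq_norm_sq, Complex.normSq_apply]
    ring
  have h3 : β.re ≤ ‖β‖ := Complex.re_le_norm β
  have h4 : -‖β‖ ≤ β.re := (abs_le.1 (Complex.abs_re_le_norm β)).1
  rw [h1]
  nlinarith

private theorem case3 {T c s n : ℕ} (hT : 2 ≤ T) {x : ℕ → ℤ} {ρ δ : ℝ} {b z : ℂ} {w : ℕ → ℂ}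
    (hρ : 0 < ρ) (hz : ‖z‖ = ρ) (hb : b ≠ 0)
    (hx : ∀ n, ((x n : ℤ) : ℂ) = ((2 * ‖b‖ : ℝ) : ℂ) * (ρ : ℂ) ^ n + b * z ^ n +
      starRingEnd ℂ b * (starRingEnd ℂ z) ^ n + w n)
    (hw : ∀ n : ℕ, ‖w n‖ * (1 + 1 / (T : ℝ) ^ c) ^ n ≤ (T : ℝ) ^ c * ρ ^ n)
    (hbs : 1 ≤ (T : ℝ) ^ s * ‖b‖) (hn : T ^ (2 * c + (2 * s + c + 5) + 2) ≤ n)
    (hδ : Real.exp (4 * δ) ≤ 1 + 1 / (T : ℝ) ^ c)
    (hB : Real.exp (-(δ * n)) * ‖starRingEnd ℂ b * (starRingEnd ℂ z) ^ n‖ ≤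
      ‖b * z ^ n - starRingEnd ℂ b * (starRingEnd ℂ z) ^ n‖) : 0 < x n := by
  have hT0 : (0 : ℝ) < T := by exact_mod_cast (by omega : 0 < T)
  have hT2 : (2 : ℝ) ≤ T := by exact_mod_cast hT
  have hbn : 0 < ‖b‖ := norm_pos_iff.2 hb
  have hρn : 0 < ρ ^ n := pow_pos hρ n
  have hz0 : z ≠ 0 := by
    intro h
    rw [h, norm_zero] at hz
    exact hρ.ne hz
  obtain ⟨β, hβ⟩ : ∃ β, β = b * z ^ n := ⟨_, rfl⟩
  have hβ0 : β ≠ 0 := by rw [hβ]; exact mul_ne_zero hb (pow_ne_zero _ hz0)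
  have hβn : ‖β‖ = ‖b‖ * ρ ^ n := by rw [hβ, norm_mul, norm_pow, hz]
  have hβc : starRingEnd ℂ b * (starRingEnd ℂ z) ^ n = starRingEnd ℂ β := by
    rw [hβ, map_mul, map_pow]
  have h1 := rep_re hx n
  rw [← hβ] at h1
  rw [hβc, ← hβ, RCLike.norm_conj] at hB
  have h4 : -‖w n‖ ≤ (w n).re := (abs_le.1 (Complex.abs_re_le_norm (w n))).1
  have hβp : 0 < ‖β‖ := norm_pos_iff.2 hβ0
  have h5 := two_re hβ0
  have h6 : (Real.exp (-(δ * n)) * ‖β‖) ^ 2 ≤ 4 * ‖β‖ * (2 * ‖β‖ + 2 * β.re) :=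
    (pow_le_pow_left₀ (by positivity) hB 2).trans h5
  obtain ⟨E, hE⟩ : ∃ E, E = Real.exp (-(δ * n)) := ⟨_, rfl⟩
  have hE0 : 0 < E := by rw [hE]; exact Real.exp_pos _
  rw [← hE] at h6
  have h7 : E ^ 2 * ‖β‖ ≤ 4 * (2 * ‖β‖ + 2 * β.re) := by
    have h8 : ‖β‖ * (E ^ 2 * ‖β‖) ≤ ‖β‖ * (4 * (2 * ‖β‖ + 2 * β.re)) := by nlinarith
    exact le_of_mul_le_mul_left h8 hβp
  -- the main inequality
  obtain ⟨R, hR⟩ : ∃ R, R = 1 + 1 / (T : ℝ) ^ c := ⟨_, rfl⟩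
  have hR0 : 0 < R := by rw [hR]; positivity
  have hRn : 0 < R ^ n := pow_pos hR0 n
  have h9 : E ^ 4 * R ^ n ≥ 1 := by
    have h10 : Real.exp (4 * δ) ^ n ≤ R ^ n := by
      rw [hR]
      exact pow_le_pow_left₀ (Real.exp_pos _).le hδ n
    rw [← Real.exp_nat_mul] at h10
    have h11 : E ^ 4 = Real.exp (-(n * (4 * δ))) := by
      rw [hE, ← Real.exp_nat_mul]
      congr 1
      push_cast
      ring
    rw [h11]
    calc (1 : ℝ) = Real.exp (-(n * (4 * δ))) * Real.exp (n * (4 * δ)) := by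
          rw [← Real.exp_add, neg_add_cancel, Real.exp_zero]
      _ ≤ Real.exp (-(n * (4 * δ))) * R ^ n :=
          mul_le_mul_of_nonneg_left h10 (Real.exp_pos _).le
  have h12 : (4 * (T : ℝ) ^ (s + c)) ^ 2 < R ^ n := by
    have h13 := decay T hT c (2 * s + c + 5) n hn
    rw [← hR] at h13
    refine lt_of_lt_of_le ?_ h13
    have h14 : (4 * (T : ℝ) ^ (s + c)) ^ 2 = 16 * (T : ℝ) ^ (2 * s + 2 * c) := by ring
    have h15 : (T : ℝ) ^ (c + (2 * s + c + 5)) = (T : ℝ) ^ 5 * (T : ℝ) ^ (2 * s + 2 * c) := by ring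
    rw [h14, h15]
    have h16 : (32 : ℝ) ≤ (T : ℝ) ^ 5 := by
      calc (32 : ℝ) = 2 ^ 5 := by norm_num
        _ ≤ (T : ℝ) ^ 5 := pow_le_pow_left₀ (by norm_num) hT2 5
    have h17 : 0 < (T : ℝ) ^ (2 * s + 2 * c) := by positivity
    nlinarith
  have h18 : 4 * (T : ℝ) ^ (s + c) < E ^ 2 * R ^ n := by
    have h19 : (4 * (T : ℝ) ^ (s + c)) ^ 2 < (E ^ 2 * R ^ n) ^ 2 := by
      calc (4 * (T : ℝ) ^ (s + c)) ^ 2 < R ^ n := h12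
        _ ≤ (E ^ 4 * R ^ n) * R ^ n := by nlinarith
        _ = (E ^ 2 * R ^ n) ^ 2 := by ring
    exact lt_of_pow_lt_pow_left₀ 2 (by positivity) h19
  have h20 : 4 * ‖w n‖ < E ^ 2 * ‖β‖ := by
    have h21 := hw n
    rw [← hR] at h21
    rw [hβn]
    have h22 : 4 * ‖w n‖ * ((T : ℝ) ^ s * R ^ n) < E ^ 2 * (‖b‖ * ρ ^ n) * ((T : ℝ) ^ s * R ^ n) := by
      have hTs : 0 < (T : ℝ) ^ s := pow_pos hT0 s
      calc 4 * ‖w n‖ * ((T : ℝ) ^ s * R ^ n) = 4 * (T : ℝ) ^ s * (‖w n‖ * R ^ n) := by ring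
        _ ≤ 4 * (T : ℝ) ^ s * ((T : ℝ) ^ c * ρ ^ n) := by gcongr
        _ = (4 * (T : ℝ) ^ (s + c)) * ρ ^ n := by rw [pow_add]; ring
        _ < (E ^ 2 * R ^ n) * ρ ^ n := mul_lt_mul_of_pos_right h18 hρn
        _ = (E ^ 2 * R ^ n) * ρ ^ n * 1 := by ring
        _ ≤ (E ^ 2 * R ^ n) * ρ ^ n * ((T : ℝ) ^ s * ‖b‖) := by gcongr
        _ = E ^ 2 * (‖b‖ * ρ ^ n) * ((T : ℝ) ^ s * R ^ n) := by ring
    exact lt_of_mul_lt_mul_right h22 (by positivity)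
  have h23 : (0 : ℝ) < x n := by
    rw [h1]
    have h24 : 2 * ‖b‖ * ρ ^ n = 2 * ‖β‖ := by rw [hβn]; ring
    rw [h24]
    linarith
  exact_mod_cast h23

private theorem delta_bd (d : ℕ) : ∃ u : ℕ, ∀ (T : ℕ) (D : Dat d T) (J : Finset (Fin d))
    (i0 i1 i2 : Fin d) (a : ℝ) (b : ℂ), D.Q J i0 ≠ 0 → D.Q J i1 ≠ 0 → D.Q J i2 ≠ 0 →
    D.Y J i0 / D.Q J i0 = (a : ℂ) → D.Y J i1 / D.Q J i1 = b →
    D.Y J i2 / D.Q J i2 = starRingEnd ℂ b → a ^ 2 ≠ 4 * ‖b‖ ^ 2 →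
    1 ≤ (T : ℝ) ^ u * |a ^ 2 - 4 * ‖b‖ ^ 2| := by
  obtain ⟨y, hy⟩ := YP_bd d
  obtain ⟨q, hq⟩ := QP_bd d
  obtain ⟨L, hL⟩ := liou_bd d
  obtain ⟨q', hq'⟩ := Q_bounds d
  refine ⟨(2 * y + 2 * q + 3) * L + 4 * q', ?_⟩
  intro T D J i0 i1 i2 a b hQ0 hQ1 hQ2 ha hb hb' hne
  have hT := D.two_le
  have hT0 : (0 : ℝ) < T := by exact_mod_cast (by omega : 0 < T)
  have hT2 : (2 : ℝ) ≤ T := by exact_mod_cast hT
  obtain ⟨F, hF⟩ : ∃ F : MvPolynomial (Fin d) ℤ, F = YP D.x J i0 ^ 2 * QP J i1 * QP J i2 -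
    4 * YP D.x J i1 * YP D.x J i2 * QP J i0 ^ 2 := ⟨_, rfl⟩
  have hY := hy T hT D.x D.x_le J
  have hQ := hq T hT J
  have hFB : Bd F T ((T : ℝ) ^ (2 * y + 2 * q + 3)) := by
    intro μ hμ
    have y0 := hY i0 μ hμ
    have y1 := hY i1 μ hμ
    have y2 := hY i2 μ hμ
    have q0 := hQ i0 μ hμ
    have q1 := hQ i1 μ hμ
    have q2 := hQ i2 μ hμ
    rw [hF, map_sub, map_mul, map_mul, map_mul, map_mul, map_mul, map_pow, map_pow, map_ofNat]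
    refine (norm_sub_le _ _).trans ?_
    rw [norm_mul, norm_mul, norm_mul, norm_mul, norm_mul, norm_pow, norm_pow]
    have h4 : ‖(OfNat.ofNat 4 : ℂ)‖ = 4 := by norm_num
    rw [h4]
    have h5 : ‖MvPolynomial.aeval μ (YP D.x J i0)‖ ^ 2 * ‖MvPolynomial.aeval μ (QP J i1)‖ *
        ‖MvPolynomial.aeval μ (QP J i2)‖ ≤ ((T : ℝ) ^ y) ^ 2 * (T : ℝ) ^ q * (T : ℝ) ^ q := by
      gcongr
    have h6 : 4 * ‖MvPolynomial.aeval μ (YP D.x J i1)‖ * ‖MvPolynomial.aeval μ (YP D.x J i2)‖ *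
        ‖MvPolynomial.aeval μ (QP J i0)‖ ^ 2 ≤ 4 * (T : ℝ) ^ y * (T : ℝ) ^ y * ((T : ℝ) ^ q) ^ 2 := by
      gcongr
    have h7 : ((T : ℝ) ^ y) ^ 2 * (T : ℝ) ^ q * (T : ℝ) ^ q +
        4 * (T : ℝ) ^ y * (T : ℝ) ^ y * ((T : ℝ) ^ q) ^ 2 = 5 * (T : ℝ) ^ (2 * y + 2 * q) := by ring
    have h8 : (T : ℝ) ^ (2 * y + 2 * q + 3) = (T : ℝ) ^ 3 * (T : ℝ) ^ (2 * y + 2 * q) := by ring
    have h9 : (5 : ℝ) ≤ (T : ℝ) ^ 3 := by
      have : (2 : ℝ) ^ 3 ≤ (T : ℝ) ^ 3 := pow_le_pow_left₀ (by norm_num) hT2 3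
      linarith
    have h10 : 0 < (T : ℝ) ^ (2 * y + 2 * q) := by positivity
    rw [h8]
    nlinarith
  have hval : MvPolynomial.aeval D.lam F =
      D.Q J i0 ^ 2 * D.Q J i1 * D.Q J i2 * ((a ^ 2 - 4 * ‖b‖ ^ 2 : ℝ) : ℂ) := by
    have e0 : D.Y J i0 = a * D.Q J i0 := by rw [← ha]; field_simp
    have e1 : D.Y J i1 = b * D.Q J i1 := by rw [← hb]; field_simp
    have e2 : D.Y J i2 = starRingEnd ℂ b * D.Q J i2 := by rw [← hb']; field_simp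
    have f0 : MvPolynomial.aeval D.lam (YP D.x J i0) = D.Y J i0 := aeval_YP D.x J i0 D.lam
    have f1 : MvPolynomial.aeval D.lam (YP D.x J i1) = D.Y J i1 := aeval_YP D.x J i1 D.lam
    have f2 : MvPolynomial.aeval D.lam (YP D.x J i2) = D.Y J i2 := aeval_YP D.x J i2 D.lam
    have g0 : MvPolynomial.aeval D.lam (QP J i0) = D.Q J i0 := aeval_QP J i0 D.lam
    have g1 : MvPolynomial.aeval D.lam (QP J i1) = D.Q J i1 := aeval_QP J i1 D.lam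
    have g2 : MvPolynomial.aeval D.lam (QP J i2) = D.Q J i2 := aeval_QP J i2 D.lam
    have hbb : b * starRingEnd ℂ b = (‖b‖ : ℂ) ^ 2 := by
      rw [Complex.mul_conj, Complex.normSq_eq_norm_sq]
      push_cast
      rfl
    rw [hF, map_sub, map_mul, map_mul, map_mul, map_mul, map_mul, map_pow, map_pow, map_ofNat,
      f0, f1, f2, g0, g1, g2, e0, e1, e2]
    push_cast
    rw [← hbb]
    ring
  have hFne : MvPolynomial.aeval D.lam F ≠ 0 := by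
    rw [hval]
    refine mul_ne_zero (mul_ne_zero (mul_ne_zero (pow_ne_zero _ hQ0) hQ1) hQ2) ?_
    exact_mod_cast sub_ne_zero.2 hne
  have hB1 : 1 ≤ (T : ℝ) ^ (2 * y + 2 * q + 3) := one_le_pow₀ (by linarith)
  have h1 := hL T D F _ hB1 hFB hFne
  rw [hval, norm_mul, norm_mul, norm_mul, norm_pow, Complex.norm_real, Real.norm_eq_abs] at h1
  have k0 := (hq' T D J i0).1
  have k1 := (hq' T D J i1).1
  have k2 := (hq' T D J i2).1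
  refine h1.trans ?_
  have h2 : ‖D.Q J i0‖ ^ 2 * ‖D.Q J i1‖ * ‖D.Q J i2‖ ≤ ((T : ℝ) ^ q') ^ 2 * (T : ℝ) ^ q' * (T : ℝ) ^ q' := by
    gcongr
  have h3 : ((T : ℝ) ^ q') ^ 2 * (T : ℝ) ^ q' * (T : ℝ) ^ q' = (T : ℝ) ^ (4 * q') := by ring
  rw [h3] at h2
  calc ((T : ℝ) ^ (2 * y + 2 * q + 3)) ^ L *
        (‖D.Q J i0‖ ^ 2 * ‖D.Q J i1‖ * ‖D.Q J i2‖ * |a ^ 2 - 4 * ‖b‖ ^ 2|)
      ≤ ((T : ℝ) ^ (2 * y + 2 * q + 3)) ^ L * ((T : ℝ) ^ (4 * q') * |a ^ 2 - 4 * ‖b‖ ^ 2|) := by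
        gcongr
    _ = (T : ℝ) ^ ((2 * y + 2 * q + 3) * L + 4 * q') * |a ^ 2 - 4 * ‖b‖ ^ 2| := by
        rw [← pow_mul, pow_add]
        ring

/-- lower bounds for `‖ω^l - 1‖` -/
private theorem omega_bd (d : ℕ) : ∃ L : ℕ, ∀ (T : ℕ) (D : Dat d T) (ρ : ℝ) (i0 i1 : Fin d),
    0 < ρ → D.lam i0 = (ρ : ℂ) → (∀ m : ℕ, 1 ≤ m → D.lam i1 ^ m ≠ (ρ : ℂ) ^ m) →
    ∀ K l : ℕ, 1 ≤ l → l ≤ K →
      1 / (T : ℝ) ^ ((K + 1) * L + K) ≤ ‖(D.lam i1 / (ρ : ℂ)) ^ l - 1‖ := by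
  obtain ⟨L, hL⟩ := liou_bd d
  refine ⟨L, ?_⟩
  intro T D ρ i0 i1 hρ h0 htor K l hl hlK
  have hT := D.two_le
  have hT0 : (0 : ℝ) < T := by exact_mod_cast (by omega : 0 < T)
  have hT2 : (2 : ℝ) ≤ T := by exact_mod_cast hT
  have hρT : ρ ≤ T := by
    have := D.lam_le i0
    rw [h0, Complex.norm_real, Real.norm_eq_abs, abs_of_pos hρ] at this
    exact this
  obtain ⟨F, hF⟩ : ∃ F : MvPolynomial (Fin d) ℤ, F = MvPolynomial.X i1 ^ l - MvPolynomial.X i0 ^ l :=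
    ⟨_, rfl⟩
  have hFB : Bd F T (2 * (T : ℝ) ^ l) := by
    intro μ hμ
    rw [hF, map_sub, map_pow, map_pow, MvPolynomial.aeval_X, MvPolynomial.aeval_X]
    refine (norm_sub_le _ _).trans ?_
    rw [norm_pow, norm_pow]
    have h1 := pow_le_pow_left₀ (norm_nonneg _) (hμ i1) l
    have h2 := pow_le_pow_left₀ (norm_nonneg _) (hμ i0) l
    linarith
  have hval : MvPolynomial.aeval D.lam F = D.lam i1 ^ l - (ρ : ℂ) ^ l := by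
    rw [hF, map_sub, map_pow, map_pow, MvPolynomial.aeval_X, MvPolynomial.aeval_X, h0]
  have h1l : 1 ≤ (T : ℝ) ^ l := one_le_pow₀ (by linarith)
  have h1 := hL T D F _ (by linarith) hFB (by rw [hval]; exact sub_ne_zero.2 (htor l hl))
  rw [hval] at h1
  have hρc : (ρ : ℂ) ≠ 0 := by exact_mod_cast hρ.ne'
  have h2 : D.lam i1 ^ l - (ρ : ℂ) ^ l = (ρ : ℂ) ^ l * ((D.lam i1 / (ρ : ℂ)) ^ l - 1) := by
    rw [div_pow]
    field_simp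
  rw [h2, norm_mul, norm_pow, Complex.norm_real, Real.norm_eq_abs, abs_of_pos hρ] at h1
  rw [div_le_iff₀ (by positivity)]
  obtain ⟨W, hW⟩ : ∃ W, W = ‖(D.lam i1 / (ρ : ℂ)) ^ l - 1‖ := ⟨_, rfl⟩
  rw [← hW] at h1 ⊢
  have hW0 : 0 ≤ W := by rw [hW]; exact norm_nonneg _
  refine h1.trans ?_
  have h3 : 2 * (T : ℝ) ^ l ≤ (T : ℝ) ^ (K + 1) := by
    calc 2 * (T : ℝ) ^ l ≤ T * (T : ℝ) ^ K :=
          mul_le_mul hT2 (pow_le_pow_right₀ (by linarith) hlK) (by positivity) hT0.le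
      _ = (T : ℝ) ^ (K + 1) := by ring
  have h4 : ρ ^ l ≤ (T : ℝ) ^ K :=
    (pow_le_pow_left₀ hρ.le hρT l).trans (pow_le_pow_right₀ (by linarith) hlK)
  calc (2 * (T : ℝ) ^ l) ^ L * (ρ ^ l * W) ≤ ((T : ℝ) ^ (K + 1)) ^ L * ((T : ℝ) ^ K * W) := by
        gcongr
    _ = W * (T : ℝ) ^ ((K + 1) * L + K) := by
        rw [← pow_mul, pow_add]
        ring

private theorem case2_all (d c s v : ℕ) : ∃ c2 : ℕ, ∀ (T : ℕ) (D : Dat d T) (ρ : ℝ)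
    (i0 i1 : Fin d) (a : ℝ) (b : ℂ) (w : ℕ → ℂ), 0 < ρ → D.lam i0 = (ρ : ℂ) → ‖D.lam i1‖ = ρ →
    (∀ m : ℕ, 1 ≤ m → D.lam i1 ^ m ≠ (ρ : ℂ) ^ m) → b ≠ 0 →
    (∀ n, ((D.x n : ℤ) : ℂ) = (a : ℂ) * (ρ : ℂ) ^ n + b * D.lam i1 ^ n +
      starRingEnd ℂ b * (starRingEnd ℂ (D.lam i1)) ^ n + w n) →
    (∀ n : ℕ, ‖w n‖ * (1 + 1 / (T : ℝ) ^ c) ^ n ≤ (T : ℝ) ^ c * ρ ^ n) →
    ‖b‖ ≤ (T : ℝ) ^ s → 1 ≤ (T : ℝ) ^ v * (2 * ‖b‖ - a) → ∃ n ≤ 2 ^ (T ^ c2), D.x n < 0 := by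
  obtain ⟨L, hL⟩ := omega_bd d
  obtain ⟨k, hk⟩ := exists_K
  obtain ⟨e, he⟩ : ∃ e, e = s + v + 3 := ⟨_, rfl⟩
  refine ⟨(2 * c + (v + 1) + 2 + 1) + ((e * k + 4 + 1) + (e * k + (2 * L + 1) + 1) + 1) + 1, ?_⟩
  intro T D ρ i0 i1 a b w hρ h0 hz htor hb hx hw hbs hv
  have hT := D.two_le
  have hT0 : (0 : ℝ) < T := by exact_mod_cast (by omega : 0 < T)
  have hT2 : (2 : ℝ) ≤ T := by exact_mod_cast hT
  have hTe : 0 < (T : ℝ) ^ e := pow_pos hT0 e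
  have hTe1 : 1 ≤ (T : ℝ) ^ e := one_le_pow₀ (by linarith)
  obtain ⟨K, hK⟩ : ∃ K : ℕ, K = (T ^ e) ^ k := ⟨_, rfl⟩
  have hA2 : 2 ≤ T ^ e := by
    calc 2 ≤ T := hT
      _ = T ^ 1 := (pow_one T).symm
      _ ≤ T ^ e := Nat.pow_le_pow_right (by omega) (by omega)
  have hKk := hk (T ^ e) hA2
  rw [← hK] at hKk
  have hKc : (((T ^ e : ℕ) : ℝ)) ^ k = (K : ℝ) := by rw [hK]; push_cast; rfl
  rw [hKc] at hKk
  have hK1 : 1 ≤ K := by rw [hK]; exact Nat.one_le_pow _ _ (by omega)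
  obtain ⟨ζ, hζ⟩ : ∃ ζ : ℂ, ζ = -(starRingEnd ℂ b / (‖b‖ : ℂ)) := ⟨_, rfl⟩
  have hbn : 0 < ‖b‖ := norm_pos_iff.2 hb
  have hζn : ‖ζ‖ = 1 := by
    rw [hζ, norm_neg, norm_div, RCLike.norm_conj, Complex.norm_real, norm_norm, div_self hbn.ne']
  have hωn : ‖D.lam i1 / (ρ : ℂ)‖ = 1 := by
    rw [norm_div, hz, Complex.norm_real, Real.norm_eq_abs, abs_of_pos hρ, div_self hρ.ne']
  obtain ⟨g, hg⟩ : ∃ g : ℕ, g = (K + 1) * L + K := ⟨_, rfl⟩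
  have hTg : 0 < (T : ℝ) ^ g := pow_pos hT0 g
  have hε2 : 1 / (T : ℝ) ^ e ≤ 2 := by
    rw [div_le_iff₀ hTe]
    linarith
  have hεpos : 0 < 1 / (T : ℝ) ^ e := by positivity
  have hX0 : 0 ≤ (1 - (1 / (T : ℝ) ^ e) ^ 2 / 4) ^ K := by
    apply pow_nonneg
    nlinarith
  have hKk2 : 2 * (2 * (K : ℝ) + 1) * (1 - (1 / (T : ℝ) ^ e) ^ 2 / 4) ^ K ≤ 1 := by
    have h1 : (((T ^ e : ℕ) : ℝ)) = (T : ℝ) ^ e := by push_cast; rfl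
    rw [h1] at hKk
    have h2 : 0 ≤ (2 * (K : ℝ) + 1) * (1 - (1 / (T : ℝ) ^ e) ^ 2 / 4) ^ K := by positivity
    nlinarith
  obtain ⟨n, hn1, hn2, hn3⟩ := dens1 (D.lam i1 / (ρ : ℂ)) ζ hωn hζn K (1 / (T : ℝ) ^ e)
    (1 / (T : ℝ) ^ g) hεpos hε2 (by positivity) hKk2
    (fun l h1 h2 => by rw [hg]; exact hL T D ρ i0 i1 hρ h0 htor K l h1 h2)
    (4 * (2 * K + 1) * T ^ g + 1) (by
      push_cast
      rw [div_mul_eq_mul_div, one_mul, lt_div_iff₀ hTg]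
      linarith) (T ^ (2 * c + (v + 1) + 2))
  refine ⟨n, ?_, case2 hT hρ hz hb hx hw hv hn1 hζ hn3 ?_⟩
  · have hn4 : n ≤ T ^ (2 * c + (v + 1) + 2) + 4 * (2 * K + 1) * T ^ g := by omega
    refine hn4.trans (tw_add hT (tw_pow T _ hT) (tw_mul hT ?_ ?_))
    · refine le_trans ?_ (tw_pow T (e * k + 4) hT)
      have h1 : K = T ^ (e * k) := by rw [hK, ← pow_mul]
      rw [pow_add, ← h1]
      have h2 : 12 ≤ T ^ 4 := by
        calc 12 ≤ 2 ^ 4 := by norm_num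
          _ ≤ T ^ 4 := Nat.pow_le_pow_left hT 4
      nlinarith
    · apply tw_exp
      have h1 : K = T ^ (e * k) := by rw [hK, ← pow_mul]
      have h2 : 2 * L + 1 ≤ T ^ (2 * L + 1) :=
        (Nat.lt_two_pow_self).le.trans (Nat.pow_le_pow_left hT _)
      rw [pow_add, ← h1, hg]
      calc (K + 1) * L + K ≤ (K + K) * L + K := by gcongr
        _ = K * (2 * L + 1) := by ring
        _ ≤ K * T ^ (2 * L + 1) := Nat.mul_le_mul_left _ h2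
  · rw [he]
    have h1 : (T : ℝ) ^ (s + v + 3) = (T : ℝ) ^ 3 * (T : ℝ) ^ s * (T : ℝ) ^ v := by ring
    rw [h1]
    have h2 : (8 : ℝ) ≤ (T : ℝ) ^ 3 := by
      have : (2 : ℝ) ^ 3 ≤ (T : ℝ) ^ 3 := pow_le_pow_left₀ (by norm_num) hT2 3
      linarith
    gcongr

private theorem choice_p (T K3 : ℕ) (hT : 2 ≤ T) :
    T ^ (K3 + 2 * (K3 + 6)) ≤ 2 ^ (T ^ (K3 + 6)) := by
  have h1 : K3 + 2 * (K3 + 6) ≤ T ^ (K3 + 5) := by
    have h2 : K3 + 1 ≤ 2 ^ K3 := Nat.lt_two_pow_self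
    calc K3 + 2 * (K3 + 6) ≤ 2 ^ K3 * 32 := by omega
      _ = 2 ^ (K3 + 5) := by rw [pow_add]; norm_num
      _ ≤ T ^ (K3 + 5) := Nat.pow_le_pow_left hT _
  exact tw_exp h1

private theorem case3_all (d c s : ℕ) : ∃ c3 : ℕ, ∀ (T : ℕ) (D : Dat d T) (J : Finset (Fin d))
    (ρ : ℝ) (i1 i2 : Fin d) (b : ℂ) (w : ℕ → ℂ), 0 < ρ → ‖D.lam i1‖ = ρ →
    D.lam i2 = starRingEnd ℂ (D.lam i1) → (∀ m : ℕ, 1 ≤ m → D.lam i1 ^ m ≠ D.lam i2 ^ m) →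
    D.Q J i1 ≠ 0 → D.Q J i2 ≠ 0 → D.Y J i1 / D.Q J i1 = b →
    D.Y J i2 / D.Q J i2 = starRingEnd ℂ b → b ≠ 0 →
    (∀ n, ((D.x n : ℤ) : ℂ) = ((2 * ‖b‖ : ℝ) : ℂ) * (ρ : ℂ) ^ n + b * D.lam i1 ^ n +
      starRingEnd ℂ b * (starRingEnd ℂ (D.lam i1)) ^ n + w n) →
    (∀ n : ℕ, ‖w n‖ * (1 + 1 / (T : ℝ) ^ c) ^ n ≤ (T : ℝ) ^ c * ρ ^ n) →
    1 ≤ (T : ℝ) ^ s * ‖b‖ → (∀ n ≤ 2 ^ (T ^ c3), 0 ≤ D.x n) → ∀ n, 0 ≤ D.x n := by
  obtain ⟨cB, hcB⟩ := baker d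
  obtain ⟨y, hy⟩ := YP_bd d
  obtain ⟨q, hq⟩ := QP_bd d
  obtain ⟨K3, hK3⟩ : ∃ K3, K3 = cB + 3 + c + (y + q + 1) := ⟨_, rfl⟩
  refine ⟨((y + q + 1) + 1 + (K3 + 6) + 1 + cB) + (2 * c + (2 * s + c + 5) + 2 + 1) + 1, ?_⟩
  intro T D J ρ i1 i2 b w hρ hz hz2 htor hQ1 hQ2 hb1 hb2 hb hx hw hbs hpos n
  have hT := D.two_le
  have hT0 : (0 : ℝ) < T := by exact_mod_cast (by omega : 0 < T)
  have hT2 : (2 : ℝ) ≤ T := by exact_mod_cast hT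
  obtain ⟨B, hB⟩ : ∃ B : ℕ, B = T ^ (y + q + 1) := ⟨_, rfl⟩
  obtain ⟨p, hp⟩ : ∃ p : ℕ, p = T ^ (K3 + 6) := ⟨_, rfl⟩
  by_cases hsmall : n ≤ (B * 2 ^ p) ^ cB + T ^ (2 * c + (2 * s + c + 5) + 2)
  · apply hpos
    refine hsmall.trans (tw_add hT ?_ (tw_pow T _ hT))
    have h1 : B * 2 ^ p ≤ 2 ^ (T ^ ((y + q + 1) + 1 + (K3 + 6) + 1)) := by
      rw [hB, hp]
      exact tw_mul hT (tw_pow T _ hT) le_rfl
    calc (B * 2 ^ p) ^ cB ≤ (2 ^ (T ^ ((y + q + 1) + 1 + (K3 + 6) + 1))) ^ cB := Nat.pow_le_pow_left h1 _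
      _ = 2 ^ (T ^ ((y + q + 1) + 1 + (K3 + 6) + 1) * cB) := by rw [← pow_mul]
      _ ≤ 2 ^ (T ^ ((y + q + 1) + 1 + (K3 + 6) + 1) * T ^ cB) := by
          apply Nat.pow_le_pow_right (by norm_num)
          exact Nat.mul_le_mul_left _ ((Nat.lt_two_pow_self).le.trans (Nat.pow_le_pow_left hT _))
      _ = 2 ^ (T ^ ((y + q + 1) + 1 + (K3 + 6) + 1 + cB)) := by rw [← pow_add]
  · push Not at hsmall
    have hTB : T ≤ B := by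
      rw [hB]
      calc T = T ^ 1 := (pow_one T).symm
        _ ≤ T ^ (y + q + 1) := Nat.pow_le_pow_right (by omega) (by omega)
    have hcp : cB ≤ p := by
      rw [hp]
      calc cB ≤ K3 + 6 := by omega
        _ ≤ 2 ^ (K3 + 6) := (Nat.lt_two_pow_self).le
        _ ≤ T ^ (K3 + 6) := Nat.pow_le_pow_left hT _
    have hz0 : D.lam i1 ≠ 0 := by
      intro h
      rw [h, norm_zero] at hz
      exact hρ.ne hz
    have hz20 : D.lam i2 ≠ 0 := by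
      rw [hz2]
      exact (_root_.map_ne_zero _).2 hz0
    have hnorm : ‖D.lam i1‖ = ‖D.lam i2‖ := by rw [hz2, RCLike.norm_conj]
    have hbd : ∀ i i' : Fin d, Bd (YP D.x J i * QP J i') T (B : ℝ) := by
      intro i i' μ hμ
      have h1 := hy T hT D.x D.x_le J i μ hμ
      have h2 := hq T hT J i' μ hμ
      rw [map_mul, norm_mul]
      calc ‖MvPolynomial.aeval μ (YP D.x J i)‖ * ‖MvPolynomial.aeval μ (QP J i')‖ ≤
            (T : ℝ) ^ y * (T : ℝ) ^ q := by gcongr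
        _ = (T : ℝ) ^ (y + q) := by rw [pow_add]
        _ ≤ (T : ℝ) ^ (y + q + 1) := pow_le_pow_right₀ (by linarith) (by omega)
        _ = (B : ℝ) := by rw [hB]; push_cast; rfl
    have e1 : D.Y J i1 = b * D.Q J i1 := by rw [← hb1]; field_simp
    have e2 : D.Y J i2 = starRingEnd ℂ b * D.Q J i2 := by rw [← hb2]; field_simp
    have f1 : MvPolynomial.aeval D.lam (YP D.x J i1 * QP J i2) = (D.Q J i1 * D.Q J i2) * b := by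
      rw [map_mul, aeval_YP, aeval_QP]
      change D.Y J i1 * D.Q J i2 = _
      rw [e1]
      ring
    have f2 : MvPolynomial.aeval D.lam (YP D.x J i2 * QP J i1) =
        (D.Q J i1 * D.Q J i2) * starRingEnd ℂ b := by
      rw [map_mul, aeval_YP, aeval_QP]
      change D.Y J i2 * D.Q J i1 = _
      rw [e2]
      ring
    have hQQ : D.Q J i1 * D.Q J i2 ≠ 0 := mul_ne_zero hQ1 hQ2
    have hbc : starRingEnd ℂ b ≠ 0 := (_root_.map_ne_zero _).2 hb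
    have h1 := hcB T D B p hTB hcp i1 i2 hnorm hz20 htor _ _ (hbd i1 i2) (hbd i2 i1)
      (by rw [f2]; exact mul_ne_zero hQQ hbc) n (by omega)
    rw [f1, f2, hz2] at h1
    obtain ⟨δ, hδ⟩ : ∃ δ : ℝ, δ = (cB * B * p ^ 2 / 2 ^ p : ℝ) := ⟨_, rfl⟩
    rw [← hδ] at h1
    have h2 : Real.exp (-(δ * n)) * ‖starRingEnd ℂ b * (starRingEnd ℂ (D.lam i1)) ^ n‖ ≤
        ‖b * D.lam i1 ^ n - starRingEnd ℂ b * (starRingEnd ℂ (D.lam i1)) ^ n‖ := by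
      have h3 : D.Q J i1 * D.Q J i2 * b * D.lam i1 ^ n -
          D.Q J i1 * D.Q J i2 * starRingEnd ℂ b * (starRingEnd ℂ (D.lam i1)) ^ n =
          D.Q J i1 * D.Q J i2 * (b * D.lam i1 ^ n - starRingEnd ℂ b * (starRingEnd ℂ (D.lam i1)) ^ n) := by
        ring
      rw [h3, mul_assoc (D.Q J i1 * D.Q J i2), norm_mul (D.Q J i1 * D.Q J i2),
        norm_mul (D.Q J i1 * D.Q J i2)] at h1
      have h4 : 0 < ‖D.Q J i1 * D.Q J i2‖ := norm_pos_iff.2 hQQ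
      refine le_of_mul_le_mul_left ?_ h4
      linarith
    have hδ1 : δ * (8 * (T : ℝ) ^ c) ≤ 1 := by
      have h3 : 8 * cB * B * p ^ 2 * T ^ c ≤ 2 ^ p := by
        calc 8 * cB * B * p ^ 2 * T ^ c ≤ T ^ 3 * T ^ cB * T ^ (y + q + 1) * (T ^ (K3 + 6)) ^ 2 * T ^ c := by
              rw [hB, hp]
              have h4 : 8 ≤ T ^ 3 := Nat.pow_le_pow_left hT 3
              have h5 : cB ≤ T ^ cB := (Nat.lt_two_pow_self).le.trans (Nat.pow_le_pow_left hT _)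
              gcongr
          _ = T ^ (K3 + 2 * (K3 + 6)) := by
              rw [← pow_mul, ← pow_add, ← pow_add, ← pow_add, ← pow_add]
              congr 1
              omega
          _ ≤ 2 ^ (T ^ (K3 + 6)) := choice_p T K3 hT
          _ = 2 ^ p := by rw [hp]
      have h4 : (8 * cB * B * p ^ 2 * T ^ c : ℝ) ≤ 2 ^ p := by exact_mod_cast h3
      rw [hδ, div_mul_eq_mul_div, div_le_one (by positivity)]
      linarith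
    have hδ0 : 0 ≤ δ := by rw [hδ]; positivity
    have hTc : 1 ≤ (T : ℝ) ^ c := one_le_pow₀ (by linarith)
    have hδ2 : Real.exp (4 * δ) ≤ 1 + 1 / (T : ℝ) ^ c := by
      obtain ⟨t, ht⟩ : ∃ t : ℝ, t = 1 / (T : ℝ) ^ c := ⟨_, rfl⟩
      have ht0 : 0 < t := by rw [ht]; positivity
      have ht1 : t ≤ 1 := by rw [ht, div_le_one (by positivity)]; exact hTc
      have h3 : 4 * δ ≤ t / 2 := by
        rw [ht, div_div, le_div_iff₀ (by positivity)]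
        linarith
      have h4 := Real.exp_bound_div_one_sub_of_interval (x := 4 * δ) (by linarith) (by linarith)
      rw [← ht]
      refine h4.trans ?_
      rw [div_le_iff₀ (by linarith)]
      nlinarith
    exact (case3 hT hρ hz hb hx hw hbs (by omega) hδ2 h2).le

theorem gamma_case (d : ℕ) :
    ∃ c : ℕ, ∀ (T : ℕ) (D : Dat d T) (J : Finset (Fin d)) (ρ : ℝ), D.IsMin J → D.Top J ρ →
      ∀ i0 i1 i2 : Fin d, D.circ J ρ = {i0, i1, i2} → D.lam i0 = (ρ : ℂ) →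
      D.lam i2 = starRingEnd ℂ (D.lam i1) → (∀ m : ℕ, 1 ≤ m → D.lam i1 ^ m ≠ D.lam i2 ^ m) →
      (∀ m : ℕ, 1 ≤ m → D.lam i1 ^ m ≠ (ρ : ℂ) ^ m) →
      (∀ n ≤ 2 ^ (T ^ c), 0 ≤ D.x n) → ∀ n, 0 ≤ D.x n := by
  obtain ⟨c, hc⟩ := rep_simple d
  obtain ⟨y, hy⟩ := Y_bounds d
  obtain ⟨q, hq⟩ := Q_bounds d
  obtain ⟨u, hu⟩ := delta_bd d
  obtain ⟨s, hs⟩ : ∃ s, s = y + q := ⟨_, rfl⟩
  obtain ⟨v, hv⟩ : ∃ v, v = u + (s + 2) := ⟨_, rfl⟩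
  obtain ⟨c2, hc2⟩ := case2_all d c s v
  obtain ⟨c3, hc3⟩ := case3_all d c s
  refine ⟨(2 * c + (v + 1) + 2 + 1) + c2 + c3, ?_⟩
  intro T D J ρ hmin htop i0 i1 i2 hcirc h0 hz2 htor1 htor2 hpos
  have hT := D.two_le
  have hT0 : (0 : ℝ) < T := by exact_mod_cast (by omega : 0 < T)
  have hT2 : (2 : ℝ) ≤ T := by exact_mod_cast hT
  have hρ := htop.1
  have hm0 : i0 ∈ D.circ J ρ := by rw [hcirc]; simp
  have hm1 : i1 ∈ D.circ J ρ := by rw [hcirc]; simp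
  have hm2 : i2 ∈ D.circ J ρ := by rw [hcirc]; simp
  obtain ⟨hJ0, hn0⟩ := (rs_mem_circ D J ρ i0).1 hm0
  obtain ⟨hJ1, hn1⟩ := (rs_mem_circ D J ρ i1).1 hm1
  obtain ⟨hJ2, hn2⟩ := (rs_mem_circ D J ρ i2).1 hm2
  have h12 : D.lam i1 ≠ D.lam i2 := by
    have := htor1 1 le_rfl
    rwa [pow_one, pow_one] at this
  have h10 : D.lam i1 ≠ D.lam i0 := by
    have := htor2 1 le_rfl
    rwa [pow_one, pow_one, ← h0] at this
  have h20 : D.lam i2 ≠ D.lam i0 := by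
    intro h
    apply h10
    have h3 := congrArg (starRingEnd ℂ) h
    rw [hz2, h0, Complex.conj_conj, Complex.conj_ofReal] at h3
    rw [h3, h0]
  have hinj : Set.InjOn D.lam (D.circ J ρ) := by
    rw [hcirc]
    intro x hx x' hx' hxx
    simp only [Finset.coe_insert, Finset.coe_singleton, Set.mem_insert_iff, Set.mem_singleton_iff] at hx hx'
    rcases hx with rfl | rfl | rfl <;> rcases hx' with rfl | rfl | rfl
    · rfl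
    · exact absurd hxx.symm h10
    · exact absurd hxx.symm h20
    · exact absurd hxx h10
    · rfl
    · exact absurd hxx h12
    · exact absurd hxx h20
    · exact absurd hxx.symm h12
    · rfl
  obtain ⟨w, hw, hrep, -⟩ := hc T D J ρ hmin htop hinj
  have hQ0 := Q_ne_zero D J ρ htop hinj i0 hm0
  have hQ1 := Q_ne_zero D J ρ htop hinj i1 hm1
  have hQ2 := Q_ne_zero D J ρ htop hinj i2 hm2
  -- real structure
  obtain ⟨k1, k2⟩ := conj_YQ D J hmin i1 i2 hJ1 hJ2 hz2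
  obtain ⟨k3, k4⟩ := conj_YQ D J hmin i0 i0 hJ0 hJ0 (by rw [h0, Complex.conj_ofReal])
  obtain ⟨b, hb⟩ : ∃ b, b = D.Y J i1 / D.Q J i1 := ⟨_, rfl⟩
  have hb2 : D.Y J i2 / D.Q J i2 = starRingEnd ℂ b := by rw [hb, map_div₀, k1, k2]
  obtain ⟨a, ha⟩ : ∃ a : ℝ, D.Y J i0 / D.Q J i0 = (a : ℂ) := by
    have h3 : starRingEnd ℂ (D.Y J i0 / D.Q J i0) = D.Y J i0 / D.Q J i0 := by
      rw [map_div₀, ← k3, ← k4]
    obtain ⟨r, hr⟩ := Complex.conj_eq_iff_real.1 h3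
    exact ⟨r, hr⟩
  have hx : ∀ n, ((D.x n : ℤ) : ℂ) = (a : ℂ) * (ρ : ℂ) ^ n + b * D.lam i1 ^ n +
      starRingEnd ℂ b * (starRingEnd ℂ (D.lam i1)) ^ n + w n := by
    intro n
    have h3 := hrep n
    have hn01 : i0 ∉ ({i1, i2} : Finset (Fin d)) := by
      rw [Finset.mem_insert, Finset.mem_singleton, not_or]
      exact ⟨fun h => h10 (by rw [h]), fun h => h20 (by rw [h])⟩
    have hn12 : i1 ∉ ({i2} : Finset (Fin d)) := by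
      rw [Finset.mem_singleton]
      exact fun h => h12 (by rw [h])
    rw [hcirc, Finset.sum_insert hn01, Finset.sum_insert hn12, Finset.sum_singleton, ha, ← hb, hb2,
      h0, hz2] at h3
    have h4 : D.xc n = ((D.x n : ℤ) : ℂ) := rfl
    rw [← h4, h3]
    ring
  -- bounds
  have hYb := hy T D J hmin
  have hQb := hq T D J
  have hbs2 : 1 ≤ (T : ℝ) ^ s * ‖b‖ ∧ ‖b‖ ≤ (T : ℝ) ^ s := by
    rw [hb, norm_div, hs, pow_add]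
    obtain ⟨h3, h4⟩ := hYb i1 hJ1
    obtain ⟨h5, h6⟩ := hQb i1
    have h7 := h6 hQ1
    have h8 : 0 < ‖D.Q J i1‖ := norm_pos_iff.2 hQ1
    constructor
    · rw [mul_div_assoc', le_div_iff₀ h8, one_mul]
      have h9 : (T : ℝ) ^ q * 1 ≤ (T : ℝ) ^ q * ((T : ℝ) ^ y * ‖D.Y J i1‖) := by gcongr
      linarith
    · rw [div_le_iff₀ h8]
      have h9 : (T : ℝ) ^ y * 1 ≤ (T : ℝ) ^ y * ((T : ℝ) ^ q * ‖D.Q J i1‖) := by gcongr
      linarith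
  have has : |a| ≤ (T : ℝ) ^ s := by
    have h2 : |a| = ‖D.Y J i0 / D.Q J i0‖ := by rw [ha, Complex.norm_real, Real.norm_eq_abs]
    rw [h2, norm_div, hs, pow_add]
    obtain ⟨h3, h4⟩ := hYb i0 hJ0
    obtain ⟨h5, h6⟩ := hQb i0
    have h7 := h6 hQ0
    have h8 : 0 < ‖D.Q J i0‖ := norm_pos_iff.2 hQ0
    rw [div_le_iff₀ h8]
    have h9 : (T : ℝ) ^ y * 1 ≤ (T : ℝ) ^ y * ((T : ℝ) ^ q * ‖D.Q J i0‖) := by gcongr
    linarith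
  obtain ⟨hbs, hbs'⟩ := hbs2
  have hb0 : b ≠ 0 := by
    intro h
    rw [h, norm_zero, mul_zero] at hbs
    linarith
  have hbp : 0 < ‖b‖ := norm_pos_iff.2 hb0
  have hTs : 0 < (T : ℝ) ^ s := pow_pos hT0 s
  have hTu : 1 ≤ (T : ℝ) ^ u := one_le_pow₀ (by linarith)
  have h4T : (4 : ℝ) ≤ (T : ℝ) ^ 2 := by
    have : (2 : ℝ) ^ 2 ≤ (T : ℝ) ^ 2 := pow_le_pow_left₀ (by norm_num) hT2 2
    linarith
  have hTv : (T : ℝ) ^ v = (T : ℝ) ^ u * ((T : ℝ) ^ s * (T : ℝ) ^ 2) := by rw [hv, pow_add, pow_add]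
  have hsum : |a| + 2 * ‖b‖ ≤ (T : ℝ) ^ s * (T : ℝ) ^ 2 := by nlinarith
  have hdl := hu T D J i0 i1 i2 a b hQ0 hQ1 hQ2 ha hb.symm hb2
  have habs := le_abs_self a
  rcases lt_trichotomy a (2 * ‖b‖) with hlt | heq | hgt
  · -- second case
    exfalso
    have h3 : 1 ≤ (T : ℝ) ^ v * (2 * ‖b‖ - a) := by
      rcases le_or_gt a 0 with ha0 | ha0
      · have h4 : (T : ℝ) ^ s ≤ (T : ℝ) ^ v := by
          rw [hTv]
          have h5 : 1 ≤ (T : ℝ) ^ u * (T : ℝ) ^ 2 := by nlinarith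
          nlinarith
        calc (1 : ℝ) ≤ (T : ℝ) ^ s * ‖b‖ := hbs
          _ ≤ (T : ℝ) ^ v * (2 * ‖b‖ - a) := by
              apply mul_le_mul h4 (by linarith) hbp.le (by positivity)
      · have h4 : a ^ 2 ≠ 4 * ‖b‖ ^ 2 := by
          intro h5
          nlinarith
        have h5 := hdl h4
        have h6 : |a ^ 2 - 4 * ‖b‖ ^ 2| = (2 * ‖b‖ - a) * (2 * ‖b‖ + a) := by
          rw [abs_of_neg (by nlinarith)]
          ring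
        have h7 : (2 * ‖b‖ - a) * (2 * ‖b‖ + a) ≤ (2 * ‖b‖ - a) * ((T : ℝ) ^ s * (T : ℝ) ^ 2) := by
          apply mul_le_mul_of_nonneg_left _ (by linarith)
          linarith
        rw [h6] at h5
        calc (1 : ℝ) ≤ (T : ℝ) ^ u * ((2 * ‖b‖ - a) * (2 * ‖b‖ + a)) := h5
          _ ≤ (T : ℝ) ^ u * ((2 * ‖b‖ - a) * ((T : ℝ) ^ s * (T : ℝ) ^ 2)) := by gcongr
          _ = (T : ℝ) ^ v * (2 * ‖b‖ - a) := by rw [hTv]; ring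
    obtain ⟨n, hn, hn'⟩ := hc2 T D ρ i0 i1 a b w hρ h0 hn1 htor2 hb0 hx hw hbs' h3
    have h4 := hpos n (tw_mono hT hn (by omega))
    omega
  · -- third case
    subst heq
    exact hc3 T D J ρ i1 i2 b w hρ hn1 hz2 htor1 hQ1 hQ2 hb.symm hb2 hb0 hx hw hbs
      (fun n hn => hpos n (tw_mono hT hn (by omega)))
  · -- first case
    have h3 : 1 ≤ (T : ℝ) ^ v * (a - 2 * ‖b‖) := by
      have h4 : a ^ 2 ≠ 4 * ‖b‖ ^ 2 := by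
        intro h5
        nlinarith
      have h5 := hdl h4
      have h6 : |a ^ 2 - 4 * ‖b‖ ^ 2| = (a - 2 * ‖b‖) * (a + 2 * ‖b‖) := by
        rw [abs_of_pos (by nlinarith)]
        ring
      have h7 : (a - 2 * ‖b‖) * (a + 2 * ‖b‖) ≤ (a - 2 * ‖b‖) * ((T : ℝ) ^ s * (T : ℝ) ^ 2) := by
        apply mul_le_mul_of_nonneg_left _ (by linarith)
        linarith
      rw [h6] at h5
      calc (1 : ℝ) ≤ (T : ℝ) ^ u * ((a - 2 * ‖b‖) * (a + 2 * ‖b‖)) := h5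
        _ ≤ (T : ℝ) ^ u * ((a - 2 * ‖b‖) * ((T : ℝ) ^ s * (T : ℝ) ^ 2)) := by gcongr
        _ = (T : ℝ) ^ v * (a - 2 * ‖b‖) := by rw [hTv]; ring
    intro n
    by_cases hn : n ≤ T ^ (2 * c + (v + 1) + 2)
    · exact hpos n (tw_mono hT (hn.trans (tw_pow T _ hT)) (by omega))
    · push Not at hn
      exact (case1 hT hρ hn1 hx hw h3 hn.le).le

end Pool.Agent.Helper73.DM
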