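import Pool.Agent.Helper73.DM.Pring
import Pool.Agent.Helper73.DM.Beta
import Pool.Agent.Helper73.DM.Gamma
import Pool.Agent.Helper73.DM.Delta1
import Pool.Agent.Helper73.DM.Delta2

/-!
# DM-B19: torsion-free recurrences of order five

`exists_min`: `J`. If `J = ∅`, `xc = 0`. If all `λ_i`, `i ∈ J`, are `0`, then `X^(card J)` kills `xc`, `x n = 0` for `n ≥ 5` and the hypothesis covers `n ≤ 5`. Otherwise `Top J ρ` with `ρ` the maximum. `eff_pringsheim`: `ρ` is a root (index `i0 ∈ J`) of maximal multiplicity `m = mult ρ ≥ 1` on the circle.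
* If all `λ_i ≠ ρ` on the circle have smaller multiplicity: `beta_case`.
* Otherwise there is `i1 ∈ circ`, `λ_{i1} ≠ ρ`, `mult = m`. `λ_{i1}` is not real: otherwise `λ_{i1} = -ρ`, `(λ_{i1}/ρ)² = 1`, and torsion-freeness (exponents `1` at `i1`, `-1` at `i0`) gives `λ_{i1} = ρ`. `conj λ_{i1}` has the same multiplicity (`mult_conj`), so `3 m ≤ card J ≤ 5`, `m = 1`: all circle roots are simple, `lam` is injective on `circ`. The circle values are closed under
  conjugation, the only real one is `ρ`, so `card circ = 3` or `5`. `3`: `gamma_case` (torsion hypotheses: `λ_{i1}^m = λ_{i2}^m` would give `λ_{i1} = λ_{i2}`, i.e. real). `5`: `J = circ = {i0, i1, i2, i3, i4}`; let `c1` be the constant of `delta_indep`, `h = T^c1`: if the independence hypothesis of `delta_indep` holds, use it; otherwise there are `i, j` with `|i|, |j| ≤ h` and a relation: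
  `delta_dep`. (`(λ_{i1}/ρ)^s (λ_{i3}/ρ)^t = ∏ λ_i^(e i)` with `e = s` at `i1`, `t` at `i3`, `-s-t` at `i0`.) All bounds are `≤ 2^(2^(T^c))`.
-/

set_option autoImplicit false

open Polynomial

namespace Pool.Agent.Helper73.DM

private theorem mem_circ5 {d T : ℕ} (D : Dat d T) (J : Finset (Fin d)) (ρ : ℝ) (i : Fin d) :
    i ∈ D.circ J ρ ↔ i ∈ J ∧ ‖D.lam i‖ = ρ := by
  unfold Dat.circ
  rw [Finset.mem_filter]

private theorem mult_pos5 {d T : ℕ} (D : Dat d T) (J : Finset (Fin d)) (i : Fin d)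
    (hi : i ∈ J) : 1 ≤ D.mult J (D.lam i) := by
  unfold Dat.mult
  exact Finset.card_pos.2 ⟨i, Finset.mem_filter.2 ⟨hi, rfl⟩⟩

private theorem mult_ex5 {d T : ℕ} (D : Dat d T) (J : Finset (Fin d)) (z : ℂ)
    (h : 1 ≤ D.mult J z) : ∃ i ∈ J, D.lam i = z := by
  unfold Dat.mult at h
  obtain ⟨i, hi⟩ := Finset.card_pos.1 h
  rw [Finset.mem_filter] at hi
  exact ⟨i, hi.1, hi.2⟩

private theorem mult_two5 {d T : ℕ} (D : Dat d T) (J : Finset (Fin d)) {i j : Fin d}
    (hi : i ∈ J) (hj : j ∈ J) (hij : i ≠ j) (he : D.lam i = D.lam j) :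
    2 ≤ D.mult J (D.lam i) := by
  classical
  unfold Dat.mult
  have h1 : ({i, j} : Finset (Fin d)) ⊆ J.filter (fun k => D.lam k = D.lam i) := by
    intro k hk
    rw [Finset.mem_insert, Finset.mem_singleton] at hk
    rw [Finset.mem_filter]
    rcases hk with rfl | rfl
    · exact ⟨hi, rfl⟩
    · exact ⟨hj, he.symm⟩
  have h2 := Finset.card_le_card h1
  rw [Finset.card_pair hij] at h2
  exact h2

private theorem mult_three5 {d T : ℕ} (D : Dat d T) (J : Finset (Fin d)) {a b c : ℂ}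
    (hab : a ≠ b) (hac : a ≠ c) (hbc : b ≠ c) :
    D.mult J a + D.mult J b + D.mult J c ≤ d := by
  classical
  unfold Dat.mult
  have h1 : Disjoint (J.filter (fun k => D.lam k = a)) (J.filter (fun k => D.lam k = b)) := by
    rw [Finset.disjoint_left]
    intro k h2 h3
    rw [Finset.mem_filter] at h2 h3
    exact hab (h2.2.symm.trans h3.2)
  have h2 : Disjoint (J.filter (fun k => D.lam k = a) ∪ J.filter (fun k => D.lam k = b))
      (J.filter (fun k => D.lam k = c)) := by
    rw [Finset.disjoint_left]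
    intro k h2 h3
    rw [Finset.mem_union, Finset.mem_filter, Finset.mem_filter] at h2
    rw [Finset.mem_filter] at h3
    rcases h2 with h2 | h2
    · exact hac (h2.2.symm.trans h3.2)
    · exact hbc (h2.2.symm.trans h3.2)
  have h3 := Finset.card_le_univ ((J.filter (fun k => D.lam k = a) ∪
    J.filter (fun k => D.lam k = b)) ∪ J.filter (fun k => D.lam k = c))
  rw [Finset.card_union_of_disjoint h2, Finset.card_union_of_disjoint h1,
    Fintype.card_fin] at h3
  exact h3

private theorem prod_single5 {d : ℕ} (lam : Fin d → ℂ) (a : Fin d) (s : ℤ) :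
    ∏ i, lam i ^ ((Pi.single a s : Fin d → ℤ) i) = lam a ^ s := by
  rw [Finset.prod_eq_single a]
  · rw [Pi.single_eq_same]
  · intro b _ hb
    rw [Pi.single_eq_of_ne hb, zpow_zero]
  · intro h
    exact absurd (Finset.mem_univ a) h

private theorem tor5 {d : ℕ} {lam : Fin d → ℂ} (h : TorFree lam) {ρ : ℝ} (hρ : 0 < ρ)
    {i0 a b : Fin d} (h0 : lam i0 = (ρ : ℂ)) (ha : lam a ≠ 0) (hb : lam b ≠ 0) (s t : ℤ)
    (m : ℕ) (hm : 1 ≤ m) (h1 : ((lam a / ρ) ^ s * (lam b / ρ) ^ t) ^ m = 1) :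
    (lam a / ρ) ^ s * (lam b / ρ) ^ t = 1 := by
  have hρ0 : (ρ : ℂ) ≠ 0 := by exact_mod_cast hρ.ne'
  obtain ⟨e, he⟩ : ∃ e : Fin d → ℤ, e = fun i => (Pi.single a s : Fin d → ℤ) i +
    (Pi.single b t : Fin d → ℤ) i + (Pi.single i0 (-s - t) : Fin d → ℤ) i := ⟨_, rfl⟩
  have hz : ∀ i, lam i = 0 → (Pi.single a s : Fin d → ℤ) i = 0 ∧
      (Pi.single b t : Fin d → ℤ) i = 0 ∧ (Pi.single i0 (-s - t) : Fin d → ℤ) i = 0 := by
    intro i hi
    have n1 : i ≠ a := fun h => ha (h ▸ hi)
    have n2 : i ≠ b := fun h => hb (h ▸ hi)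
    have n3 : i ≠ i0 := by
      intro h
      rw [h, h0] at hi
      exact hρ0 hi
    exact ⟨Pi.single_eq_of_ne n1 _, Pi.single_eq_of_ne n2 _, Pi.single_eq_of_ne n3 _⟩
  have hprod : ∏ i, lam i ^ e i = (lam a / ρ) ^ s * (lam b / ρ) ^ t := by
    have h2 : ∀ i, lam i ^ e i = lam i ^ ((Pi.single a s : Fin d → ℤ) i) *
        lam i ^ ((Pi.single b t : Fin d → ℤ) i) *
        lam i ^ ((Pi.single i0 (-s - t) : Fin d → ℤ) i) := by
      intro i
      rw [he]
      by_cases hi : lam i = 0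
      · obtain ⟨z1, z2, z3⟩ := hz i hi
        simp only [z1, z2, z3, add_zero, zpow_zero, mul_one]
      · simp only
        rw [zpow_add₀ hi, zpow_add₀ hi]
    rw [Finset.prod_congr rfl fun i _ => h2 i, Finset.prod_mul_distrib,
      Finset.prod_mul_distrib, prod_single5, prod_single5, prod_single5, h0, div_zpow,
      div_zpow, sub_eq_add_neg, zpow_add₀ hρ0, zpow_neg, zpow_neg]
    field_simp
  have h3 := h e (by
    intro i hi hl
    obtain ⟨z1, z2, z3⟩ := hz i hl
    apply hi
    rw [he]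
    simp only [z1, z2, z3, add_zero]) m hm
  rw [hprod] at h3
  exact h3 h1

private theorem tor1_5 {d : ℕ} {lam : Fin d → ℂ} (h : TorFree lam) {ρ : ℝ} (hρ : 0 < ρ)
    {i0 a : Fin d} (h0 : lam i0 = (ρ : ℂ)) (ha : lam a ≠ 0)
    (m : ℕ) (hm : 1 ≤ m) (h1 : lam a ^ m = (ρ : ℂ) ^ m) : lam a = (ρ : ℂ) := by
  have hρ0 : (ρ : ℂ) ≠ 0 := by exact_mod_cast hρ.ne'
  have h2 := tor5 h hρ h0 ha ha 1 0 m hm (by
    rw [zpow_one, zpow_zero, mul_one, div_pow, h1, div_self (pow_ne_zero m hρ0)])
  rw [zpow_one, zpow_zero, mul_one] at h2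
  exact (div_eq_one_iff_eq hρ0).1 h2

private theorem tor2_5 {d : ℕ} {lam : Fin d → ℂ} (h : TorFree lam) {ρ : ℝ} (hρ : 0 < ρ)
    {i0 a b : Fin d} (h0 : lam i0 = (ρ : ℂ)) (ha : lam a ≠ 0) (hb : lam b ≠ 0)
    (m : ℕ) (hm : 1 ≤ m) (h1 : lam a ^ m = lam b ^ m) : lam a = lam b := by
  have hρ0 : (ρ : ℂ) ≠ 0 := by exact_mod_cast hρ.ne'
  have h2 := tor5 h hρ h0 ha hb 1 (-1) m hm (by
    rw [zpow_one, zpow_neg, zpow_one, mul_pow, inv_pow, div_pow, div_pow, h1,
      mul_inv_cancel₀ (div_ne_zero (pow_ne_zero m hb) (pow_ne_zero m hρ0))])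
  rw [zpow_one, zpow_neg, zpow_one] at h2
  have h3 : lam a / ρ = lam b / ρ := by
    have h4 : lam b / (ρ : ℂ) ≠ 0 := div_ne_zero hb hρ0
    exact (mul_inv_eq_one₀ h4).1 h2
  exact (div_left_inj' hρ0).1 h3

private theorem real_pm5 {z : ℂ} {ρ : ℝ} (hz : starRingEnd ℂ z = z) (hn : ‖z‖ = ρ) :
    z ^ 2 = (ρ : ℂ) ^ 2 := by
  obtain ⟨r, hr⟩ := Complex.conj_eq_iff_real.1 hz
  rw [hr] at hn ⊢
  rw [Complex.norm_real, Real.norm_eq_abs] at hn
  rw [← hn]
  exact_mod_cast (sq_abs r).symm

theorem five_torfree :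
    ∃ c : ℕ, ∀ (T : ℕ) (D : Dat 5 T), TorFree D.lam →
      (∀ n ≤ 2 ^ (2 ^ (T ^ c)), 0 ≤ D.x n) → ∀ n, 0 ≤ D.x n := by
  classical
  obtain ⟨ce, hce⟩ := eff_pringsheim 5
  obtain ⟨cb, hcb⟩ := beta_case 5
  obtain ⟨cg, hcg⟩ := gamma_case 5
  obtain ⟨c1, hc1⟩ := delta_indep 5
  obtain ⟨c2, hc2⟩ := delta_dep 5
  obtain ⟨c, hc⟩ : ∃ c : ℕ, c = ce + cb + cg + c1 + (c1 + 2) * c2 + 1 := ⟨_, rfl⟩
  refine ⟨c, fun T D htf hpos => ?_⟩
  have hT2 : 2 ≤ T := D.two_le
  have hTpow : ∀ a, a ≤ c → T ^ a ≤ T ^ c := fun a ha => Nat.pow_le_pow_right (by omega) ha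
  have hE1 : ∀ a, a ≤ c → T ^ a ≤ 2 ^ (2 ^ (T ^ c)) := by
    intro a ha
    calc T ^ a ≤ T ^ c := hTpow a ha
      _ ≤ 2 ^ (T ^ c) := Nat.lt_two_pow_self.le
      _ ≤ 2 ^ (2 ^ (T ^ c)) := Nat.lt_two_pow_self.le
  have hE2 : ∀ a, a ≤ c → 2 ^ (T ^ a) ≤ 2 ^ (2 ^ (T ^ c)) := by
    intro a ha
    apply Nat.pow_le_pow_right (by norm_num)
    exact (hTpow a ha).trans Nat.lt_two_pow_self.le
  have hce' : ce ≤ c := by omega
  have hcb' : cb ≤ c := by omega
  have hcg' : cg ≤ c := by omega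
  have hc1' : c1 ≤ c := by omega
  have hc2' : (c1 + 2) * c2 ≤ c := by omega
  obtain ⟨J, hJ⟩ := exists_min D
  have hcardJ : J.card ≤ 5 := by
    have := Finset.card_le_univ J
    rwa [Fintype.card_fin] at this
  by_cases hzero : ∀ i ∈ J, D.lam i = 0
  · -- all roots are zero
    have h1 : ∏ i ∈ J, (X - C (D.lam i)) = (X : ℂ[X]) ^ J.card := by
      rw [Finset.prod_congr rfl (g := fun _ => (X : ℂ[X])) (fun i hi => by
        rw [hzero i hi, C_0, sub_zero]), Finset.prod_const]
    have h2 := hJ.1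
    rw [h1] at h2
    intro n
    by_cases hn : n ≤ 5
    · apply hpos
      have h3 : 2 ≤ T ^ c := by
        calc 2 ≤ T := hT2
          _ = T ^ 1 := (pow_one T).symm
          _ ≤ T ^ c := hTpow 1 (by omega)
      have h4 : 2 ^ 2 ≤ 2 ^ (T ^ c) := Nat.pow_le_pow_right (by norm_num) h3
      have h5 : 2 ^ (2 ^ 2) ≤ 2 ^ (2 ^ (T ^ c)) := Nat.pow_le_pow_right (by norm_num) h4
      norm_num at h5
      omega
    · have h3 := congrFun h2 (n - J.card)
      rw [act_X_pow, Pi.zero_apply, show n - J.card + J.card = n by omega] at h3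
      have h4 : ((D.x n : ℤ) : ℂ) = 0 := h3
      have h5 : D.x n = 0 := by exact_mod_cast h4
      rw [h5]
  · push Not at hzero
    obtain ⟨k, hkJ, hk0⟩ := hzero
    obtain ⟨im, himJ, himax⟩ := Finset.exists_max_image J (fun i => ‖D.lam i‖) ⟨k, hkJ⟩
    obtain ⟨ρ, hρdef⟩ : ∃ ρ : ℝ, ρ = ‖D.lam im‖ := ⟨_, rfl⟩
    have hρ : 0 < ρ := by
      have h1 : 0 < ‖D.lam k‖ := norm_pos_iff.2 hk0
      have h2 := himax k hkJ
      rw [hρdef]
      exact lt_of_lt_of_le h1 h2
    have hρ0 : (ρ : ℂ) ≠ 0 := by exact_mod_cast hρ.ne'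
    have htop : D.Top J ρ := ⟨hρ, fun i hi => by rw [hρdef]; exact himax i hi, im, himJ,
      hρdef.symm⟩
    obtain ⟨⟨i0, hi0J, hi0⟩, hmax⟩ := hce T D J ρ hJ htop
      (fun n hn => hpos n (hn.trans (hE1 ce hce')))
    by_cases hB : ∀ i ∈ D.circ J ρ, D.lam i ≠ (ρ : ℂ) → D.mult J (D.lam i) < D.mult J (ρ : ℂ)
    · exact hcb T D J ρ hJ htop ⟨i0, hi0J, hi0⟩ hB (fun n hn => hpos n (hn.trans (hE1 cb hcb')))
    · push Not at hB
      obtain ⟨i1, hi1c, hi1ρ, hi1m⟩ := hB
      have hi1 := (mem_circ5 D J ρ i1).1 hi1c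
      have hnz : ∀ i, ‖D.lam i‖ = ρ → D.lam i ≠ 0 := by
        intro i hi h0
        rw [h0, norm_zero] at hi
        exact hρ.ne hi
      have hnonreal : ∀ i, ‖D.lam i‖ = ρ → D.lam i ≠ (ρ : ℂ) →
          starRingEnd ℂ (D.lam i) ≠ D.lam i := by
        intro i hi hne hconj
        exact hne (tor1_5 htf hρ hi0 (hnz i hi) 2 (by norm_num) (real_pm5 hconj hi))
      have hi1nr := hnonreal i1 hi1.2 hi1ρ
      have hmi1 : D.mult J (D.lam i1) = D.mult J (ρ : ℂ) := le_antisymm (hmax i1 hi1c) hi1m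
      have hmc := mult_conj D J hJ (D.lam i1)
      have hcr : starRingEnd ℂ (D.lam i1) ≠ (ρ : ℂ) := by
        intro h0
        apply hi1ρ
        have h2 := congrArg (starRingEnd ℂ) h0
        rw [Complex.conj_conj, Complex.conj_ofReal] at h2
        exact h2
      have h3m := mult_three5 D J hi1ρ.symm hcr.symm hi1nr.symm
      have hm1 := mult_pos5 D J i1 hi1.1
      have hm : D.mult J (ρ : ℂ) = 1 := by omega
      have hinj : Set.InjOn D.lam (D.circ J ρ : Set (Fin 5)) := by
        intro a ha b hb hab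
        by_contra hne
        rw [Finset.mem_coe, mem_circ5] at ha hb
        have h1 := mult_two5 D J ha.1 hb.1 hne hab
        have h2 := hmax a ((mem_circ5 D J ρ a).2 ha)
        omega
      obtain ⟨i2, hi2J, hi2⟩ := mult_ex5 D J (starRingEnd ℂ (D.lam i1)) (by omega)
      have hi2n : ‖D.lam i2‖ = ρ := by rw [hi2, Complex.norm_conj, hi1.2]
      have hi2c : i2 ∈ D.circ J ρ := (mem_circ5 D J ρ i2).2 ⟨hi2J, hi2n⟩
      have hi0n : ‖D.lam i0‖ = ρ := by
        rw [hi0, Complex.norm_real, Real.norm_eq_abs, abs_of_pos hρ]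
      have hi0c : i0 ∈ D.circ J ρ := (mem_circ5 D J ρ i0).2 ⟨hi0J, hi0n⟩
      have h12 : D.lam i1 ≠ D.lam i2 := by rw [hi2]; exact hi1nr.symm
      by_cases hC : D.circ J ρ = {i0, i1, i2}
      · refine hcg T D J ρ hJ htop i0 i1 i2 hC hi0 hi2 ?_ ?_
          (fun n hn => hpos n (hn.trans (hE2 cg hcg')))
        · intro m hm1 heq
          exact h12 (tor2_5 htf hρ hi0 (hnz i1 hi1.2) (hnz i2 hi2n) m hm1 heq)
        · intro m hm1 heq
          exact hi1ρ (tor1_5 htf hρ hi0 (hnz i1 hi1.2) m hm1 heq)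
      · have hex : ∃ i3 ∈ D.circ J ρ, i3 ≠ i0 ∧ i3 ≠ i1 ∧ i3 ≠ i2 := by
          by_contra hcon
          push Not at hcon
          apply hC
          ext k
          rw [Finset.mem_insert, Finset.mem_insert, Finset.mem_singleton]
          constructor
          · intro hk
            by_contra h4
            push Not at h4
            exact h4.2.2 (hcon k hk h4.1 h4.2.1)
          · rintro (rfl | rfl | rfl)
            · exact hi0c
            · exact hi1c
            · exact hi2c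
        obtain ⟨i3, hi3c, h30, h31, h32⟩ := hex
        have hi3 := (mem_circ5 D J ρ i3).1 hi3c
        have l30 : D.lam i3 ≠ D.lam i0 := fun h => h30 (hinj hi3c hi0c h)
        have l31 : D.lam i3 ≠ D.lam i1 := fun h => h31 (hinj hi3c hi1c h)
        have l32 : D.lam i3 ≠ D.lam i2 := fun h => h32 (hinj hi3c hi2c h)
        have hi3ρ : D.lam i3 ≠ (ρ : ℂ) := by rw [← hi0]; exact l30
        have hi3nr := hnonreal i3 hi3.2 hi3ρ
        have hm3 := mult_pos5 D J i3 hi3.1
        rw [← mult_conj D J hJ (D.lam i3)] at hm3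
        obtain ⟨i4, hi4J, hi4⟩ := mult_ex5 D J (starRingEnd ℂ (D.lam i3)) hm3
        have hi4n : ‖D.lam i4‖ = ρ := by rw [hi4, Complex.norm_conj, hi3.2]
        have hi4c : i4 ∈ D.circ J ρ := (mem_circ5 D J ρ i4).2 ⟨hi4J, hi4n⟩
        have l34 : D.lam i3 ≠ D.lam i4 := by rw [hi4]; exact hi3nr.symm
        have h40 : i4 ≠ i0 := by
          rintro rfl
          apply hi3ρ
          have h5 := congrArg (starRingEnd ℂ) hi4
          rw [Complex.conj_conj, hi0, Complex.conj_ofReal] at h5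
          exact h5.symm
        have h41 : i4 ≠ i1 := by
          rintro rfl
          apply l32
          rw [hi2, hi4, Complex.conj_conj]
        have h42 : i4 ≠ i2 := by
          rintro rfl
          apply l31
          have h5 := hi4.symm.trans hi2
          exact (starRingEnd ℂ).injective h5
        have h43 : i4 ≠ i3 := by
          rintro rfl
          exact l34 rfl
        have h10 : i1 ≠ i0 := by
          rintro rfl
          exact hi1ρ hi0
        have h21 : i2 ≠ i1 := by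
          rintro rfl
          exact h12 rfl
        have h20 : i2 ≠ i0 := by
          rintro rfl
          apply hcr
          rw [← hi2, hi0]
        have hcard : ({i0, i1, i2, i3, i4} : Finset (Fin 5)).card = 5 := by
          rw [Finset.card_insert_of_notMem, Finset.card_insert_of_notMem,
            Finset.card_insert_of_notMem, Finset.card_insert_of_notMem, Finset.card_singleton]
          · rw [Finset.mem_singleton]
            exact h43.symm
          · rw [Finset.mem_insert, Finset.mem_singleton]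
            push Not
            exact ⟨h32.symm, h42.symm⟩
          · rw [Finset.mem_insert, Finset.mem_insert, Finset.mem_singleton]
            push Not
            exact ⟨h21.symm, h31.symm, h41.symm⟩
          · rw [Finset.mem_insert, Finset.mem_insert, Finset.mem_insert, Finset.mem_singleton]
            push Not
            exact ⟨h10.symm, h20.symm, h30.symm, h40.symm⟩
        have huniv : ({i0, i1, i2, i3, i4} : Finset (Fin 5)) = Finset.univ :=
          Finset.eq_univ_of_card _ (by rw [hcard, Fintype.card_fin])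
        have hsub : ({i0, i1, i2, i3, i4} : Finset (Fin 5)) ⊆ D.circ J ρ := by
          intro k hk
          rw [Finset.mem_insert, Finset.mem_insert, Finset.mem_insert, Finset.mem_insert,
            Finset.mem_singleton] at hk
          rcases hk with rfl | rfl | rfl | rfl | rfl
          · exact hi0c
          · exact hi1c
          · exact hi2c
          · exact hi3c
          · exact hi4c
        have hcu : D.circ J ρ = Finset.univ := by
          rw [huniv] at hsub
          exact Finset.univ_subset_iff.1 hsub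
        have hJu : J = Finset.univ := by
          apply Finset.univ_subset_iff.1
          intro k _
          have h5 : k ∈ D.circ J ρ := by rw [hcu]; exact Finset.mem_univ k
          exact ((mem_circ5 D J ρ k).1 h5).1
        have hcJ : D.circ J ρ = J := by rw [hcu, hJu]
        have hJ5 : J = {i0, i1, i2, i3, i4} := by rw [huniv, hJu]
        have hinjJ : Set.InjOn D.lam J := by
          rw [hcJ] at hinj
          exact hinj
        by_cases hind : ∀ i j : ℤ, |i| ≤ T ^ c1 → |j| ≤ T ^ c1 → (i, j) ≠ (0, 0) →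
            (D.lam i1 / ρ) ^ i * (D.lam i3 / ρ) ^ j ≠ 1
        · exact hc1 T D J ρ hJ htop i0 i1 i2 i3 i4 hJ5 hcJ hinjJ hi0 hi2 hi4 h12 l34
            h31.symm h41.symm hind (fun n hn => hpos n (hn.trans (hE2 c1 hc1')))
        · push Not at hind
          obtain ⟨i, j, hi, hj, hij, hrel⟩ := hind
          refine hc2 T D J ρ hJ htop i0 i1 i2 i3 i4 hJ5 hcJ hinjJ hi0 hi2 hi4 h12 l34
            h31.symm h41.symm ?_ (T ^ c1) i j (by push_cast; exact hi)
            (by push_cast; exact hj) hij hrel ?_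
          · intro s t m hm1 h5
            exact tor5 htf hρ hi0 (hnz i1 hi1.2) (hnz i3 hi3.2) s t m hm1 h5
          · intro n hn
            apply hpos
            refine hn.trans ?_
            apply Nat.pow_le_pow_right (by norm_num)
            apply Nat.pow_le_pow_right (by norm_num)
            have h6 : (T ^ c1 + 1) * T ≤ T ^ (c1 + 2) := by
              have h7 : 1 ≤ T ^ c1 := Nat.one_le_pow _ _ (by omega)
              calc (T ^ c1 + 1) * T ≤ (T ^ c1 * T) * T := by
                    apply Nat.mul_le_mul_right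
                    nlinarith
                _ = T ^ (c1 + 2) := by ring
            calc ((T ^ c1 + 1) * T) ^ c2 ≤ (T ^ (c1 + 2)) ^ c2 := Nat.pow_le_pow_left h6 c2
              _ = T ^ ((c1 + 2) * c2) := by rw [← pow_mul]
              _ ≤ T ^ c := hTpow _ hc2'

end Pool.Agent.Helper73.DM
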