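import Pool.Agent.Helper73.DM.IntAnn

/-!
# DM-27: the linear algebra alternative

Let `B = k + 4` (any bound for the degree of `χ`). The linear system `∑_{j<k} c_j x(i+j) = x(i+k)`, `i < B`, with unknown `c : Fin k → ℚ`: either it has a solution, or (Fredholm alternative over `ℚ`: a vector is in the column space iff it is killed by
every functional that kills the columns; `Submodule.exists_dual_map_eq_bot_of_nmem`-like for the span of the columns in `Fin B → ℚ`, `Module.Dual` of `Fin B → ℚ` is given by dot products) there is `y : Fin B → ℚ` with `∑ y_i x(i+j) = 0` for `j < k`,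
`∑ y_i x(i+k) ≠ 0`; multiply `y` by a common denominator to get integers. In the first case let `A = X^k - ∑ C c_j X^j` over `ℚ` (monic of degree `k`), `w = act A x` (over `ℚ`): `w i = 0` for `i < B` and `χ` kills `w` (commutes), so `w = 0`
(`eq_zero_of_act_le`); map to `ℂ` and apply `int_monic`.
-/

set_option autoImplicit false

open Polynomial

namespace Pool.Agent.Helper73.DM

private theorem act_rec {R : Type*} [CommRing R] {k : ℕ} (a : Fin k → R) (x : ℕ → R) (n : ℕ) :
    act (X ^ k - ∑ i : Fin k, C (a i) * X ^ (i : ℕ)) x n =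
      x (n + k) - ∑ i : Fin k, a i * x (n + i) := by
  have hsum : ∀ (s : Finset (Fin k)) (B : Fin k → R[X]) (x : ℕ → R),
      act (∑ i ∈ s, B i) x = ∑ i ∈ s, act (B i) x := by
    intro s B x
    unfold act
    rw [map_sum, LinearMap.sum_apply]
  rw [act_sub, Pi.sub_apply, act_X_pow, hsum, Finset.sum_apply]
  congr 1
  refine Finset.sum_congr rfl fun i _ => ?_
  rw [act_mul, act_C, Pi.smul_apply, act_X_pow, smul_eq_mul]

private theorem rec_monic {R : Type*} [CommRing R] {k : ℕ} (a : Fin k → R) :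
    (X ^ k - ∑ i : Fin k, C (a i) * X ^ (i : ℕ)).Monic := by
  nontriviality R
  have h1 : (∑ i : Fin k, C (a i) * X ^ (i : ℕ)).degree < (X ^ k : R[X]).degree := by
    rw [degree_X_pow]
    exact degree_sum_fin_lt a
  unfold Monic
  rw [leadingCoeff_sub_of_degree_lt h1]
  exact monic_X_pow k

private theorem rec_natDegree {R : Type*} [CommRing R] [Nontrivial R] {k : ℕ} (a : Fin k → R) :
    (X ^ k - ∑ i : Fin k, C (a i) * X ^ (i : ℕ)).natDegree = k := by
  have h1 : (∑ i : Fin k, C (a i) * X ^ (i : ℕ)).degree < (X ^ k : R[X]).degree := by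
    rw [degree_X_pow]
    exact degree_sum_fin_lt a
  refine natDegree_eq_of_degree_eq_some ?_
  rw [degree_sub_eq_left_of_degree_lt h1, degree_X_pow]

/-- a recurrence that holds for the first `B` indices holds always -/
private theorem rec_all {R : Type*} [CommRing R] [Nontrivial R] {k B : ℕ} (a : Fin k → R)
    (x : ℕ → R) (χ : R[X]) (hχ : χ.Monic) (hd : χ.natDegree ≤ B) (h : act χ x = 0)
    (ha : ∀ i < B, x (i + k) = ∑ j : Fin k, a j * x (i + j)) :
    act (X ^ k - ∑ i : Fin k, C (a i) * X ^ (i : ℕ)) x = 0 := by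
  refine eq_zero_of_act_le hχ ?_ B hd ?_
  · rw [act_mul_comm, h, act_zero_seq]
  · intro i hi
    rw [act_rec, ha i hi, sub_self]

theorem fredholm (k B : ℕ) (x : ℕ → ℤ) (χ : ℤ[X]) (hχ : χ.Monic) (hd : χ.natDegree ≤ B)
    (h : act χ x = 0) :
    (∃ q : ℤ[X], q.Monic ∧ q.natDegree = k ∧ act q x = 0) ∨
    (∃ y : Fin B → ℤ, (∀ j < k, ∑ i : Fin B, y i * x (i + j) = 0) ∧
      ∑ i : Fin B, y i * x (i + k) ≠ 0) := by
  classical
  obtain ⟨v, hv⟩ : ∃ v : Fin k → (Fin B → ℚ), v = fun (j : Fin k) (i : Fin B) => ((x (i + j) : ℤ) : ℚ) :=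
    ⟨_, rfl⟩
  obtain ⟨t, ht⟩ : ∃ t : Fin B → ℚ, t = fun (i : Fin B) => ((x (i + k) : ℤ) : ℚ) := ⟨_, rfl⟩
  by_cases hmem : t ∈ Submodule.span ℚ (Set.range v)
  · left
    obtain ⟨c, hc⟩ := (Submodule.mem_span_range_iff_exists_fun ℚ).1 hmem
    have hact := act_map (Int.castRingHom ℚ) χ x
    have hact' : act (χ.map (Int.castRingHom ℚ)) (fun n => ((x n : ℤ) : ℚ)) = 0 := by
      have h4 : act (χ.map (Int.castRingHom ℚ)) (fun n => ((x n : ℤ) : ℚ)) =
        fun n => (Int.castRingHom ℚ) (act χ x n) := hact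
      rw [h4, h]
      funext n
      simp
    have hrec := rec_all (B := B) c (fun n => ((x n : ℤ) : ℚ)) (χ.map (Int.castRingHom ℚ))
      (hχ.map _) (natDegree_map_le.trans hd) hact' (by
        intro i hi
        have h5 := congrFun hc ⟨i, hi⟩
        rw [ht, hv, Finset.sum_apply] at h5
        refine h5.symm.trans (Finset.sum_congr rfl fun j _ => ?_)
        rw [Pi.smul_apply, smul_eq_mul])
    refine int_monic k x χ hχ h ((X ^ k - ∑ i : Fin k, C (c i) * X ^ (i : ℕ)).map
      (algebraMap ℚ ℂ)) ((rec_monic c).map _).ne_zero ?_ ?_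
    · refine natDegree_map_le.trans ?_
      rw [rec_natDegree]
    · have h6 := act_map (algebraMap ℚ ℂ) (X ^ k - ∑ i : Fin k, C (c i) * X ^ (i : ℕ))
        (fun n => ((x n : ℤ) : ℚ))
      rw [hrec] at h6
      have h7 : (fun n => (algebraMap ℚ ℂ) ((x n : ℤ) : ℚ)) = fun n => ((x n : ℤ) : ℂ) := by
        funext n
        simp
      rw [h7] at h6
      rw [h6]
      funext n
      simp
  · right
    obtain ⟨f, hft, hf⟩ := Submodule.exists_le_ker_of_notMem hmem
    have hfv : ∀ w : Fin B → ℚ, f w = ∑ i, f (Pi.single i 1) * w i := by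
      intro w
      conv_lhs => rw [← Finset.univ_sum_single w]
      rw [map_sum]
      refine Finset.sum_congr rfl fun i _ => ?_
      have h8 : (Pi.single i (w i) : Fin B → ℚ) = w i • Pi.single i (1 : ℚ) := by
        rw [← Pi.single_smul, smul_eq_mul, mul_one]
      rw [h8, map_smul, smul_eq_mul, mul_comm]
    obtain ⟨b, hb⟩ := IsLocalization.exist_integer_multiples_of_finite (nonZeroDivisors ℤ)
      (fun i : Fin B => f (Pi.single i (1 : ℚ)))
    choose y hy using hb
    have hb0 : (((b : ℤ) : ℤ) : ℚ) ≠ 0 := by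
      exact_mod_cast nonZeroDivisors.coe_ne_zero b
    have hyy : ∀ i, ((y i : ℤ) : ℚ) = ((b : ℤ) : ℚ) * f (Pi.single i (1 : ℚ)) := by
      intro i
      have := hy i
      rw [zsmul_eq_mul] at this
      exact this
    have hkey : ∀ j : ℕ, ((∑ i : Fin B, y i * x (i + j) : ℤ) : ℚ) =
        ((b : ℤ) : ℚ) * f (fun i : Fin B => ((x (i + j) : ℤ) : ℚ)) := by
      intro j
      rw [hfv, Finset.mul_sum]
      push_cast
      refine Finset.sum_congr rfl fun i _ => ?_
      rw [hyy, mul_assoc]
    refine ⟨y, fun j hj => ?_, fun h0 => ?_⟩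
    · have h9 : f (v ⟨j, hj⟩) = 0 :=
        hf (Submodule.subset_span ⟨⟨j, hj⟩, rfl⟩)
      have h10 := hkey j
      rw [hv] at h9
      rw [h9, mul_zero] at h10
      exact_mod_cast h10
    · have h10 := hkey k
      rw [h0, ← ht] at h10
      simp only [Int.cast_zero] at h10
      rcases mul_eq_zero.1 h10.symm with h11 | h11
      · exact hb0 h11
      · exact hft h11

/-- a recurrence that holds for `i < B` holds always -/
theorem rec_forever (k B : ℕ) (x : ℕ → ℤ) (χ : ℤ[X]) (hχ : χ.Monic) (hd : χ.natDegree ≤ B)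
    (h : act χ x = 0) (a : Fin k → ℤ) (ha : ∀ i < B, x (i + k) = ∑ j : Fin k, a j * x (i + j)) :
    x = lrs a (fun j => x j) := by
  have h1 : act (chi a) x = 0 := rec_all (B := B) a x χ hχ hd h ha
  funext n
  induction n using Nat.strong_induction_on with
  | _ n ih =>
    rw [lrs]
    split_ifs with hn
    · rfl
    · have h2 := congrFun h1 (n - k)
      unfold chi at h2
      rw [act_rec, Pi.zero_apply, sub_eq_zero] at h2
      have h4 : n - k + k = n := by omega
      rw [h4] at h2
      rw [h2]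
      refine Finset.sum_congr rfl fun i _ => ?_
      rw [← ih _ (by have := i.2; omega)]

end Pool.Agent.Helper73.DM
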