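import Pool.Agent.Helper73.DM.Act

/-!
# DM-13: the polynomial `Gp`

* `Gp_dvd`: `χ` splits over `ℂ`; compare multiplicities of every root `z` of `χ` (`Polynomial.Splits.dvd_of_roots_le`, `Multiset.le_iff_count`, `Polynomial.count_roots`, or
  `χ = ∏ (X - z)^(count z)` over `roots.toFinset` and `Finset.prod_dvd_of_coprime`). `z = 0`: `count 0 χ.roots ≤ natDegree ≤ P`, `X^P` divides. `z ≠ 0`: `z ∈ Zs`, `μ = z^P ∈ Ms`, `count z ≤ eM μ`, and
  `(X - C z)` divides `X^P - C μ = (X - C μ).comp (X^P)`, so `(X - C z)^(count z)` divides `((X - C μ)^(eM μ)).comp (X^P)`, a factor of `(Gp χ P (Ms χ P)).comp (X^P)`.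
* `sum_EM`: `Finset.sum_fiberwise_of_maps_to`, `∑ z ∈ Zs, count z + count 0 = card χ.roots = natDegree` (`splits_iff_card_roots`, `Multiset.toFinset_sum_count_eq`).
* the others are immediate from the definitions (`natDegree_prod_of_monic`, `roots_prod`).
-/

set_option autoImplicit false

open Polynomial

namespace Pool.Agent.Helper73.DM

theorem Gp_monic (χ : ℂ[X]) (P : ℕ) (S : Finset ℂ) : (Gp χ P S).Monic :=
  monic_prod_of_monic _ _ fun μ _ => (monic_X_sub_C μ).pow _

theorem Gp_natDegree (χ : ℂ[X]) (P : ℕ) (S : Finset ℂ) :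
    (Gp χ P S).natDegree = ∑ μ ∈ S, eM χ P μ := by
  unfold Gp
  rw [natDegree_prod_of_monic _ _ fun μ _ => (monic_X_sub_C μ).pow _]
  refine Finset.sum_congr rfl fun μ _ => ?_
  rw [natDegree_pow, natDegree_X_sub_C, mul_one]

theorem Gp_roots (χ : ℂ[X]) (P : ℕ) (S : Finset ℂ) : ∀ z ∈ (Gp χ P S).roots, z ∈ S := by
  intro z hz
  have h1 := isRoot_of_mem_roots hz
  unfold Gp at h1
  rw [IsRoot.def, eval_prod, Finset.prod_eq_zero_iff] at h1
  obtain ⟨μ, hμ, h2⟩ := h1
  rw [eval_pow, eval_sub, eval_X, eval_C] at h2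
  by_cases h3 : z = μ
  · rw [h3]
    exact hμ
  · exact absurd h2 (pow_ne_zero _ (sub_ne_zero.2 h3))

theorem Gp_dvd (χ : ℂ[X]) (hχ : χ.Monic) (P : ℕ) (hP : 0 < P) (hd : χ.natDegree ≤ P) :
    χ ∣ X ^ P * (Gp χ P (Ms χ P)).comp (X ^ P) := by
  classical
  have hsp : χ.Splits := IsAlgClosed.splits χ
  have h1 : χ = ∏ z ∈ χ.roots.toFinset, (X - C z) ^ χ.roots.count z := by
    conv_lhs => rw [hsp.eq_prod_roots_of_monic hχ]
    rw [Finset.prod_multiset_map_count]
  have hcard : χ.roots.card = χ.natDegree := hsp.natDegree_eq_card_roots.symm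
  conv_lhs => rw [h1]
  apply Finset.prod_dvd_of_coprime
  · intro z _ w _ hzw
    exact (pairwise_coprime_X_sub_C Function.injective_id hzw).pow
  · intro z hz
    rw [Multiset.mem_toFinset] at hz
    by_cases h0 : z = 0
    · subst h0
      rw [C_0, sub_zero]
      apply dvd_mul_of_dvd_left
      apply pow_dvd_pow
      exact (Multiset.count_le_card _ _).trans (by omega)
    · have hzZ : z ∈ Zs χ := by
        unfold Zs
        rw [Finset.mem_erase, Multiset.mem_toFinset]
        exact ⟨h0, hz⟩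
      apply dvd_mul_of_dvd_right
      have h2 : (X - C z) ^ χ.roots.count z ∣ ((X - C (z ^ P)) ^ eM χ P (z ^ P)).comp (X ^ P) := by
        rw [pow_comp, sub_comp, X_comp, C_comp]
        have h3 : χ.roots.count z ≤ eM χ P (z ^ P) := by
          unfold eM
          exact Finset.le_sup (f := fun z => χ.roots.count z)
            (Finset.mem_filter.2 ⟨hzZ, rfl⟩)
        refine (pow_dvd_pow _ h3).trans (pow_dvd_pow_of_dvd ?_ _)
        rw [C_pow]
        exact sub_dvd_pow_sub_pow X (C z) P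
      refine h2.trans ?_
      unfold Gp
      rw [← coe_compRingHom_apply, ← coe_compRingHom_apply, map_prod]
      exact Finset.dvd_prod_of_mem (fun μ => (compRingHom (X ^ P)) ((X - C μ) ^ eM χ P μ))
        (Finset.mem_image_of_mem (fun z => z ^ P) hzZ)

theorem sum_EM (χ : ℂ[X]) (hχ : χ.Monic) (P : ℕ) :
    (∑ μ ∈ Ms χ P, EM χ P μ) + χ.roots.count 0 = χ.natDegree := by
  classical
  have hsp : χ.Splits := IsAlgClosed.splits χ
  have hcard : χ.roots.card = χ.natDegree := hsp.natDegree_eq_card_roots.symm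
  have h1 : ∑ μ ∈ Ms χ P, EM χ P μ = ∑ z ∈ Zs χ, χ.roots.count z := by
    unfold EM
    exact Finset.sum_fiberwise_of_maps_to (fun z hz => Finset.mem_image_of_mem _ hz) _
  rw [h1, ← hcard, ← Multiset.toFinset_sum_count_eq]
  unfold Zs
  by_cases h0 : (0 : ℂ) ∈ χ.roots.toFinset
  · exact Finset.sum_erase_add _ _ h0
  · rw [Finset.erase_eq_of_notMem h0, Multiset.count_eq_zero_of_notMem (fun h =>
      h0 (Multiset.mem_toFinset.2 h)), add_zero]

theorem eM_le_EM (χ : ℂ[X]) (P : ℕ) (μ : ℂ) : eM χ P μ ≤ EM χ P μ := by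
  unfold eM EM
  apply Finset.sup_le
  intro z hz
  exact Finset.single_le_sum (f := fun z => χ.roots.count z) (fun _ _ => Nat.zero_le _) hz

/-- two different roots over `μ`: the inequality is strict -/
theorem eM_lt_EM (χ : ℂ[X]) (P : ℕ) (μ z w : ℂ) (hz : z ∈ Zs χ) (hw : w ∈ Zs χ) (hzw : z ≠ w)
    (h1 : z ^ P = μ) (h2 : w ^ P = μ) : eM χ P μ < EM χ P μ := by
  classical
  unfold eM EM
  set s := (Zs χ).filter (fun z => z ^ P = μ) with hs
  have hz' : z ∈ s := Finset.mem_filter.2 ⟨hz, h1⟩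
  have hw' : w ∈ s := Finset.mem_filter.2 ⟨hw, h2⟩
  have hpos : ∀ v ∈ s, 0 < χ.roots.count v := by
    intro v hv
    rw [hs, Finset.mem_filter] at hv
    have h3 := hv.1
    unfold Zs at h3
    rw [Finset.mem_erase, Multiset.mem_toFinset] at h3
    exact Multiset.count_pos.2 h3.2
  obtain ⟨v, hv, hsup⟩ := Finset.exists_mem_eq_sup s ⟨z, hz'⟩ (fun z => χ.roots.count z)
  rw [hsup]
  obtain ⟨v', hv', hne⟩ : ∃ v' ∈ s, v' ≠ v := by
    by_cases h : z = v
    · exact ⟨w, hw', fun h' => hzw (h.trans h'.symm)⟩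
    · exact ⟨z, hz', h⟩
  have h3 : ({v, v'} : Finset ℂ) ⊆ s := by
    intro t ht
    rw [Finset.mem_insert, Finset.mem_singleton] at ht
    rcases ht with rfl | rfl
    · exact hv
    · exact hv'
  have h4 := Finset.sum_le_sum_of_subset (f := fun z => χ.roots.count z) h3
  rw [Finset.sum_pair hne.symm] at h4
  have h5 := hpos v' hv'
  omega

end Pool.Agent.Helper73.DM
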