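import Pool.Agent.Helper73.DM.Eig

/-!
# DM-12: if all letters are reachable, the growth bounds the eigenvalues

Proof. Let `z` be an eigenvalue, `(cm M) v = z v`, `v ≠ 0`, so `z^n v = (cm M)^n v` (`eig_pow`). For every `a` there is `n_a` with `c_a = (p M^(n_a)) a > 0`; then
`∑_b (M^n) a b ≤ c_a⁻¹ (p M^(n_a) M^n 1) ≤ c_a⁻¹ B t^(n + n_a)`. So with `K = max_a c_a⁻¹ |B| t^(n_a)`: `‖z‖^n ‖v a‖ ≤ ∑_b (M^n) a b ‖v b‖ ≤ K t^n max ‖v‖`; with `a` where `‖v a‖` is the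
maximum: `‖z‖^n ≤ K t^n` for all `n`, so `‖z‖ ≤ t`.
-/

set_option autoImplicit false

open Polynomial

namespace Pool.Agent.Helper73.DM

private theorem pow_nn {ι : Type*} [Fintype ι] [DecidableEq ι] (M : Matrix ι ι ℝ)
    (hM : ∀ i j, 0 ≤ M i j) (n : ℕ) : ∀ i j, 0 ≤ (M ^ n) i j := by
  induction n with
  | zero =>
    intro i j
    rw [pow_zero, Matrix.one_apply]
    split_ifs <;> norm_num
  | succ n ih =>
    intro i j
    rw [pow_succ, Matrix.mul_apply]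
    exact Finset.sum_nonneg fun k _ => mul_nonneg (ih i k) (hM k j)

theorem growth_root {ι : Type*} [Fintype ι] [DecidableEq ι] (M : Matrix ι ι ℝ)
    (hM : ∀ i j, 0 ≤ M i j) (p : ι → ℝ) (hp : ∀ i, 0 ≤ p i)
    (hreach : ∀ a, ∃ n : ℕ, 0 < Matrix.vecMul p (M ^ n) a) (t B : ℝ) (ht : 0 < t)
    (h : ∀ n : ℕ, ∑ b, Matrix.vecMul p (M ^ n) b ≤ B * t ^ n) :
    ∀ z ∈ (cm M).charpoly.roots, ‖z‖ ≤ t := by
  intro z hz
  obtain ⟨v, hv0, hv⟩ := (eig_iff (cm M) z).1 hz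
  obtain ⟨i₀, hi₀⟩ : ∃ i, v i ≠ 0 := by
    by_contra hcon
    push Not at hcon
    exact hv0 (funext hcon)
  obtain ⟨a, _, ha⟩ := Finset.exists_max_image Finset.univ (fun i => ‖v i‖) ⟨i₀, Finset.mem_univ _⟩
  have hva : 0 < ‖v a‖ := lt_of_lt_of_le (norm_pos_iff.2 hi₀) (ha i₀ (Finset.mem_univ _))
  obtain ⟨m, hm⟩ := hreach a
  set c : ℝ := Matrix.vecMul p (M ^ m) a with hc
  have hvm : ∀ i, 0 ≤ Matrix.vecMul p (M ^ m) i := by
    intro i
    unfold Matrix.vecMul dotProduct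
    exact Finset.sum_nonneg fun k _ => mul_nonneg (hp k) (pow_nn M hM m k i)
  have h1 : ∀ n : ℕ, c * ∑ b, (M ^ n) a b ≤ B * t ^ m * t ^ n := by
    intro n
    have h2 := h (m + n)
    rw [pow_add, ← Matrix.vecMul_vecMul, pow_add, ← mul_assoc] at h2
    refine le_trans ?_ h2
    rw [Finset.mul_sum]
    refine Finset.sum_le_sum fun b _ => ?_
    have h3 : Matrix.vecMul (Matrix.vecMul p (M ^ m)) (M ^ n) b =
        ∑ i, Matrix.vecMul p (M ^ m) i * (M ^ n) i b := rfl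
    rw [h3]
    exact Finset.single_le_sum (f := fun i => Matrix.vecMul p (M ^ m) i * (M ^ n) i b)
      (fun i _ => mul_nonneg (hvm i) (pow_nn M hM n i b)) (Finset.mem_univ a)
  have h4 : ∀ n : ℕ, ‖z‖ ^ n ≤ ∑ b, (M ^ n) a b := by
    intro n
    have h5 := congrFun (eig_pow hv n) a
    rw [← cm_pow] at h5
    have h6 : ‖z‖ ^ n * ‖v a‖ ≤ (∑ b, (M ^ n) a b) * ‖v a‖ := by
      have h7 : ‖z ^ n • v a‖ = ‖z‖ ^ n * ‖v a‖ := by
        rw [smul_eq_mul, norm_mul, norm_pow]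
      rw [← h7]
      have h8 : z ^ n • v a = ∑ b, cm (M ^ n) a b * v b := h5.symm
      rw [h8, Finset.sum_mul]
      refine (norm_sum_le _ _).trans (Finset.sum_le_sum fun b _ => ?_)
      rw [norm_mul, cm_apply, Complex.norm_real, Real.norm_eq_abs, abs_of_nonneg (pow_nn M hM n a b)]
      exact mul_le_mul_of_nonneg_left (ha b (Finset.mem_univ _)) (pow_nn M hM n a b)
    exact le_of_mul_le_mul_right h6 hva
  by_contra hcon
  push Not at hcon
  have h9 : 1 < ‖z‖ / t := by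
    rw [lt_div_iff₀ ht, one_mul]
    exact hcon
  obtain ⟨n, hn⟩ := pow_unbounded_of_one_lt (B * t ^ m / c) h9
  rw [div_pow, div_lt_div_iff₀ hm (pow_pos ht n)] at hn
  have h10 : c * ‖z‖ ^ n ≤ B * t ^ m * t ^ n :=
    (mul_le_mul_of_nonneg_left (h4 n) hm.le).trans (h1 n)
  linarith

end Pool.Agent.Helper73.DM
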