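import Pool.Agent.Helper73.DM.Act

/-!
# DM-03: upper bounds for sequences killed by a polynomial

* `act_bound`. Induction on `natDegree A` (or on the multiset of roots; `ℂ` is algebraically closed, so `A = (X - z) * A'` with `A'` monic, roots of `A'`
  among the roots of `A`; degree 0: `A = 1`, `x = 0`). Let `y = act (X - C z) x`; `act A' y = 0` (`act_mul`, commutativity), so `‖y n‖ ≤ B' (n+1)^d σ^n`, and
  `x (n+1) = z x n + y n`, `‖z‖ ≤ σ`. With `B = ‖x 0‖ + B'/σ`: `‖x n‖ ≤ B (n+1)^(d+1) σ^n` by induction on `n`, because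
  `σ B (n+1)^(d+1) σ^n + B' (n+1)^d σ^n ≤ B σ^(n+1) ((n+1)^(d+1) + (n+1)^d) ≤ B σ^(n+1) (n+2)^(d+1)`.
* `act_bound_lt`. Let `σ < ρ` with `‖z‖ ≤ σ` for all (finitely many) roots, `0 < σ`; `t = (σ + ρ)/2`; `(n+1)^d (σ/t)^n` is bounded
  (`tendsto_pow_const_mul_const_pow_of_abs_lt_one` or similar).
-/

set_option autoImplicit false

open Polynomial

namespace Pool.Agent.Helper73.DM

private theorem ab_aux (σ : ℝ) (hσ : 0 < σ) (n : ℕ) : ∀ (A : ℂ[X]), A.Monic → A.natDegree = n →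
    (∀ z ∈ A.roots, ‖z‖ ≤ σ) → ∀ x : ℕ → ℂ, act A x = 0 →
    ∃ B : ℝ, 0 ≤ B ∧ ∀ m : ℕ, ‖x m‖ ≤ B * (m + 1) ^ n * σ ^ m := by
  induction n with
  | zero =>
    intro A hA hn _ x h
    have hA1 : A = 1 := Polynomial.eq_one_of_monic_natDegree_zero hA hn
    rw [hA1, act_one] at h
    exact ⟨0, le_rfl, fun m => by simp [h]⟩
  | succ n ih =>
    intro A hA hn hr x h
    have hdeg : A.degree ≠ 0 := by
      rw [Polynomial.degree_eq_natDegree hA.ne_zero, hn]
      exact_mod_cast Nat.succ_ne_zero n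
    obtain ⟨z, hz⟩ := IsAlgClosed.exists_root A hdeg
    obtain ⟨A', hA'⟩ := (dvd_iff_isRoot.2 hz)
    have hA'm : A'.Monic := Monic.of_mul_monic_left (monic_X_sub_C z) (by rw [← hA']; exact hA)
    have hA'd : A'.natDegree = n := by
      have h1 := (monic_X_sub_C z).natDegree_mul hA'm
      rw [← hA', hn, natDegree_X_sub_C] at h1
      omega
    have hzσ : ‖z‖ ≤ σ := hr z ((mem_roots hA.ne_zero).2 hz)
    obtain ⟨B', hB'0, hB'⟩ := ih A' hA'm hA'd (fun w hw => hr w (by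
      rw [mem_roots hA'm.ne_zero] at hw
      rw [mem_roots hA.ne_zero, hA']
      exact root_mul_left_of_isRoot _ hw)) (act (X - C z) x) (by
      rw [← act_mul, mul_comm, ← hA', h])
    have hB0 : 0 ≤ ‖x 0‖ + B' / σ := by positivity
    refine ⟨‖x 0‖ + B' / σ, hB0, fun m => ?_⟩
    induction m with
    | zero =>
      have : 0 ≤ B' / σ := by positivity
      simp only [Nat.cast_zero, zero_add, one_pow, mul_one, pow_zero]
      linarith
    | succ m ihm =>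
      have h1 : x (m + 1) = act (X - C z) x m + z * x m := by
        rw [act_X_sub_C]
        ring
      obtain ⟨B, hB⟩ : ∃ B, B = ‖x 0‖ + B' / σ := ⟨_, rfl⟩
      rw [← hB] at ihm hB0 ⊢
      have hBB : B' ≤ B * σ := by
        rw [hB, add_mul, div_mul_cancel₀ _ hσ.ne']
        have : 0 ≤ ‖x 0‖ * σ := by positivity
        linarith
      have h2 : ‖x (m + 1)‖ ≤ B' * (m + 1) ^ n * σ ^ m + σ * (B * (m + 1) ^ (n + 1) * σ ^ m) := by
        rw [h1]
        refine (norm_add_le _ _).trans (add_le_add (hB' m) ?_)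
        rw [norm_mul]
        exact mul_le_mul hzσ ihm (norm_nonneg _) hσ.le
      have h3 : B' * (m + 1) ^ n * σ ^ m ≤ (B * σ) * (m + 1) ^ n * σ ^ m :=
        mul_le_mul_of_nonneg_right (mul_le_mul_of_nonneg_right hBB (by positivity)) (by positivity)
      have h4 : ((m : ℝ) + 1) ^ n * ((m : ℝ) + 2) ≤ ((m : ℝ) + 2) ^ (n + 1) := by
        rw [pow_succ]
        exact mul_le_mul_of_nonneg_right (pow_le_pow_left₀ (by positivity) (by linarith) n)
          (by positivity)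
      calc ‖x (m + 1)‖ ≤ (B * σ) * (m + 1) ^ n * σ ^ m +
            σ * (B * (m + 1) ^ (n + 1) * σ ^ m) := by linarith
        _ = (B * σ ^ (m + 1)) * (((m : ℝ) + 1) ^ n * ((m : ℝ) + 2)) := by ring
        _ ≤ (B * σ ^ (m + 1)) * ((m : ℝ) + 2) ^ (n + 1) :=
            mul_le_mul_of_nonneg_left h4 (by positivity)
        _ = _ := by
            push_cast
            ring

private theorem max_aux (ρ : ℝ) (hρ : 0 < ρ) (s : Multiset ℂ) (h : ∀ z ∈ s, ‖z‖ < ρ) :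
    ∃ σ : ℝ, 0 < σ ∧ σ < ρ ∧ ∀ z ∈ s, ‖z‖ ≤ σ := by
  induction s using Multiset.induction_on with
  | empty => exact ⟨ρ / 2, by positivity, by linarith, fun z hz => absurd hz (Multiset.notMem_zero z)⟩
  | cons a s ih =>
    obtain ⟨σ, h1, h2, h3⟩ := ih fun z hz => h z (Multiset.mem_cons_of_mem hz)
    refine ⟨max σ ‖a‖, lt_max_of_lt_left h1, max_lt h2 (h a (Multiset.mem_cons_self a s)), ?_⟩
    intro z hz
    rcases Multiset.mem_cons.1 hz with rfl | hz
    · exact le_max_right _ _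
    · exact (h3 z hz).trans (le_max_left _ _)

theorem act_bound (A : ℂ[X]) (hA : A.Monic) (σ : ℝ) (hσ : 0 < σ) (hr : ∀ z ∈ A.roots, ‖z‖ ≤ σ)
    (x : ℕ → ℂ) (h : act A x = 0) :
    ∃ B : ℝ, 0 ≤ B ∧ ∀ n : ℕ, ‖x n‖ ≤ B * (n + 1) ^ A.natDegree * σ ^ n := by
  exact ab_aux σ hσ A.natDegree A hA rfl hr x h

theorem act_bound_lt (A : ℂ[X]) (hA : A.Monic) (ρ : ℝ) (hρ : 0 < ρ)
    (hr : ∀ z ∈ A.roots, ‖z‖ < ρ) (x : ℕ → ℂ) (h : act A x = 0) :
    ∃ t B : ℝ, 0 < t ∧ t < ρ ∧ 0 ≤ B ∧ ∀ n : ℕ, ‖x n‖ ≤ B * t ^ n := by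
  obtain ⟨σ, hσ, hσρ, hσr⟩ := max_aux ρ hρ A.roots hr
  obtain ⟨B, hB0, hB⟩ := act_bound A hA σ hσ hσr x h
  obtain ⟨t, ht⟩ : ∃ t, t = (σ + ρ) / 2 := ⟨_, rfl⟩
  have ht0 : 0 < t := by rw [ht]; positivity
  have htσ : σ < t := by rw [ht]; linarith
  have htρ : t < ρ := by rw [ht]; linarith
  have hr0 : 0 < σ / t := by positivity
  have hr1 : |σ / t| < 1 := by
    rw [abs_of_pos hr0, div_lt_one ht0]
    exact htσ
  have hlim := tendsto_pow_const_mul_const_pow_of_abs_lt_one A.natDegree hr1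
  have hlim2 := (hlim.comp (Filter.tendsto_add_atTop_nat 1))
  obtain ⟨C, hC⟩ := hlim2.bddAbove_range
  have hC' : ∀ n : ℕ, ((n : ℝ) + 1) ^ A.natDegree * (σ / t) ^ (n + 1) ≤ C := by
    intro n
    have h1 := hC ⟨n, rfl⟩
    simpa using h1
  have hC0 : 0 ≤ C := le_trans (by positivity) (hC' 0)
  refine ⟨t, B * (C / (σ / t)), ht0, htρ, by positivity, fun n => ?_⟩
  have h1 : ((n : ℝ) + 1) ^ A.natDegree * (σ / t) ^ n ≤ C / (σ / t) := by
    rw [le_div_iff₀ hr0, mul_assoc, ← pow_succ]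
    exact hC' n
  calc ‖x n‖ ≤ B * (n + 1) ^ A.natDegree * σ ^ n := hB n
    _ = B * (((n : ℝ) + 1) ^ A.natDegree * (σ / t) ^ n) * t ^ n := by
        have h2 : σ ^ n = (σ / t) ^ n * t ^ n := by
          rw [← mul_pow, div_mul_cancel₀ _ ht0.ne']
        rw [h2]
        ring
    _ ≤ B * (C / (σ / t)) * t ^ n :=
        mul_le_mul_of_nonneg_right (mul_le_mul_of_nonneg_left h1 hB0) (by positivity)

end Pool.Agent.Helper73.DM
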