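import Pool.Agent.Helper73.DM.Eig
import Pool.Agent.Helper73.DM.Upper

/-!
# DM-07: irreducible nonnegative matrices: positivity

* `irr_pos`. All `(M^k).mulVec w i ≥ 0`. Let `U = {i | (M^k w) i = 0 for all k}`. If `i ∈ U`, `j ∉ U`, then `M i j = 0`: otherwise `(M^(k+1) w) i ≥ M i j (M^k w) j > 0` for some `k`. So if
  `U` is nonempty, `U = univ` by `hI`, so `w = 0` (k = 0). Hence `U = ∅`; take `m` the maximum over `i` of some `k_i` with `(M^(k_i) w) i > 0`.
* `irr_eigen`. Suppose `w = M y - ρ y ≥ 0` is not `0`. By `irr_pos` there is `m` with `(∑_{k≤m} M^k) w > 0` entrywise; `y' = (∑_{k≤m} M^k) y` satisfies `M y' - ρ y' = (∑ M^k) w > 0`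
  entrywise (the matrices commute) and `y' ≥ 0`. So there is `ε > 0` with `M y' ≥ (ρ + ε) y'` (finitely many coordinates; where `y' i = 0` it is trivial), hence
  `M^n y' ≥ (ρ+ε)^n y'` by induction, `y' ≥ y` is not zero. But by `act_bound` (entries of `(cm M)^n` are killed by the characteristic polynomial, `act_matrix`) the entries of
  `M^n` are `≤ B (n+1)^d ρ^n`: contradiction. So `M y = ρ y`. Positivity: `(∑_{k≤m} M^k) y = (∑_{k≤m} ρ^k) y` and the left side is positive for a suitable `m` by `irr_pos`.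
-/

set_option autoImplicit false

open Polynomial

namespace Pool.Agent.Helper73.DM

private theorem ip_nonneg {ι : Type*} [Fintype ι] [DecidableEq ι] (M : Matrix ι ι ℝ)
    (hM : ∀ i j, 0 ≤ M i j) (w : ι → ℝ) (hw : ∀ i, 0 ≤ w i) (k : ℕ) (i : ι) :
    0 ≤ (M ^ k).mulVec w i := by
  induction k generalizing i with
  | zero => rw [pow_zero, Matrix.one_mulVec]; exact hw i
  | succ k ih =>
    rw [pow_succ', ← Matrix.mulVec_mulVec]
    exact Finset.sum_nonneg fun j _ => mul_nonneg (hM i j) (ih j)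

private theorem ip_succ {ι : Type*} [Fintype ι] [DecidableEq ι] (M : Matrix ι ι ℝ)
    (w : ι → ℝ) (k : ℕ) (i : ι) :
    (M ^ (k + 1)).mulVec w i = ∑ j, M i j * (M ^ k).mulVec w j := by
  rw [pow_succ', ← Matrix.mulVec_mulVec]
  rfl

theorem irr_pos {ι : Type*} [Fintype ι] [DecidableEq ι] (M : Matrix ι ι ℝ)
    (hM : ∀ i j, 0 ≤ M i j) (hI : Irr M) (w : ι → ℝ) (hw : ∀ i, 0 ≤ w i) (hw0 : w ≠ 0) :
    ∃ m : ℕ, ∀ i, 0 < ∑ k ∈ Finset.range (m + 1), (M ^ k).mulVec w i := by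
  classical
  have h1 : ∀ i, ∃ k, (M ^ k).mulVec w i ≠ 0 := by
    by_contra hcon
    push Not at hcon
    obtain ⟨i₀, hi₀⟩ := hcon
    obtain ⟨U, hU⟩ : ∃ U : Finset ι, U = Finset.univ.filter (fun i => ∀ k, (M ^ k).mulVec w i = 0) :=
      ⟨_, rfl⟩
    have hUm : ∀ i, i ∈ U ↔ ∀ k, (M ^ k).mulVec w i = 0 := by
      intro i
      rw [hU, Finset.mem_filter]
      simp
    have h2 : U = Finset.univ := by
      refine hI.2 U ⟨i₀, (hUm i₀).2 hi₀⟩ fun i hi j hj => ?_
      by_contra hne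
      rw [hUm] at hj
      push Not at hj
      obtain ⟨k, hk⟩ := hj
      have h3 := (hUm i).1 hi (k + 1)
      rw [ip_succ] at h3
      have h4 := (Finset.sum_eq_zero_iff_of_nonneg (fun l _ =>
        mul_nonneg (hM i l) (ip_nonneg M hM w hw k l))).1 h3 j (Finset.mem_univ j)
      rcases mul_eq_zero.1 h4 with h5 | h5
      · exact hne h5
      · exact hk h5
    apply hw0
    funext i
    have h3 := (hUm i).1 (by rw [h2]; exact Finset.mem_univ i) 0
    rw [pow_zero, Matrix.one_mulVec] at h3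
    exact h3
  choose κ hκ using h1
  refine ⟨Finset.univ.sup κ, fun i => ?_⟩
  have h2 : (M ^ κ i).mulVec w i ≤
      ∑ k ∈ Finset.range (Finset.univ.sup κ + 1), (M ^ k).mulVec w i :=
    Finset.single_le_sum (f := fun k => (M ^ k).mulVec w i)
      (fun k _ => ip_nonneg M hM w hw k i)
      (Finset.mem_range.2 (Nat.lt_succ_of_le (Finset.le_sup (Finset.mem_univ i))))
  exact lt_of_lt_of_le (lt_of_le_of_ne (ip_nonneg M hM w hw _ i) (hκ i).symm) h2

private theorem ip_growth {ι : Type*} [Fintype ι] [DecidableEq ι] (M : Matrix ι ι ℝ)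
    (hM : ∀ i j, 0 ≤ M i j) (ρ : ℝ) (hρ : 0 < ρ)
    (hle : ∀ z ∈ (cm M).charpoly.roots, ‖z‖ ≤ ρ) (y : ι → ℝ) (i₀ : ι)
    (hy0 : 0 < y i₀) (ε : ℝ) (hε : 0 < ε) (h : ∀ i, (ρ + ε) * y i ≤ M.mulVec y i) : False := by
  have h1 : ∀ n i, (ρ + ε) ^ n * y i ≤ (M ^ n).mulVec y i := by
    intro n
    induction n with
    | zero => intro i; rw [pow_zero, pow_zero, Matrix.one_mulVec, one_mul]
    | succ n ih =>
      intro i
      rw [ip_succ]
      calc (ρ + ε) ^ (n + 1) * y i = (ρ + ε) ^ n * ((ρ + ε) * y i) := by ring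
        _ ≤ (ρ + ε) ^ n * M.mulVec y i := mul_le_mul_of_nonneg_left (h i) (by positivity)
        _ = ∑ j, M i j * ((ρ + ε) ^ n * y j) := by
            show (ρ + ε) ^ n * ∑ j, M i j * y j = _
            rw [Finset.mul_sum]
            exact Finset.sum_congr rfl fun j _ => by ring
        _ ≤ _ := Finset.sum_le_sum fun j _ => mul_le_mul_of_nonneg_left (ih j) (hM i j)
  have h2 : act (cm M).charpoly (fun m : ℕ => (Pi.single i₀ (1 : ℂ) : ι → ℂ) ⬝ᵥ
      ((cm M) ^ m).mulVec (fun i => (y i : ℂ))) = 0 := by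
    funext n
    rw [act_matrix, Matrix.aeval_self_charpoly, mul_zero, Matrix.zero_mulVec, dotProduct_zero]
    rfl
  have h3 : (fun m : ℕ => (Pi.single i₀ (1 : ℂ) : ι → ℂ) ⬝ᵥ
      ((cm M) ^ m).mulVec (fun i => (y i : ℂ))) = fun m => (((M ^ m).mulVec y i₀ : ℝ) : ℂ) := by
    funext m
    rw [← cm_pow, cm_mulVec, single_dotProduct, one_mul]
  rw [h3] at h2
  obtain ⟨B, hB0, hB⟩ := act_bound (cm M).charpoly (Matrix.charpoly_monic _) ρ hρ hle _ h2
  obtain ⟨r, hr⟩ : ∃ r, r = ρ / (ρ + ε) := ⟨_, rfl⟩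
  have hr0 : 0 < r := by rw [hr]; positivity
  have hr1 : |r| < 1 := by
    rw [abs_of_pos hr0, hr, div_lt_one (by positivity)]
    linarith
  have h4 : ∀ n : ℕ, y i₀ ≤ (B / r) * (((n : ℝ) + 1) ^ (cm M).charpoly.natDegree * r ^ (n + 1)) := by
    intro n
    have hBn := hB n
    rw [Complex.norm_real, Real.norm_eq_abs] at hBn
    have h5 := (h1 n i₀).trans ((le_abs_self _).trans hBn)
    have h6 : ρ ^ n = r ^ n * (ρ + ε) ^ n := by
      rw [← mul_pow, hr, div_mul_cancel₀ _ (by positivity)]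
    have hpos : 0 < (ρ + ε) ^ n := by positivity
    have h7 : (ρ + ε) ^ n * y i₀ ≤
        (ρ + ε) ^ n * (B * ((n : ℝ) + 1) ^ (cm M).charpoly.natDegree * r ^ n) := by
      refine h5.trans (le_of_eq ?_)
      rw [h6]
      ring
    have h8 := le_of_mul_le_mul_left h7 hpos
    refine h8.trans (le_of_eq ?_)
    rw [pow_succ r n]
    field_simp
  have h5 := (tendsto_pow_const_mul_const_pow_of_abs_lt_one (cm M).charpoly.natDegree hr1).comp
    (Filter.tendsto_add_atTop_nat 1)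
  have h6 := h5.const_mul (B / r)
  rw [mul_zero] at h6
  have h7 : y i₀ ≤ 0 := by
    refine ge_of_tendsto h6 (Filter.Eventually.of_forall fun n => ?_)
    have := h4 n
    simpa using this
  linarith

theorem irr_eigen {ι : Type*} [Fintype ι] [DecidableEq ι] (M : Matrix ι ι ℝ)
    (hM : ∀ i j, 0 ≤ M i j) (hI : Irr M) (ρ : ℝ) (hρ : 0 < ρ)
    (hle : ∀ z ∈ (cm M).charpoly.roots, ‖z‖ ≤ ρ) (y : ι → ℝ) (hy : ∀ i, 0 ≤ y i) (hy0 : y ≠ 0)
    (h : ∀ i, ρ * y i ≤ M.mulVec y i) : M.mulVec y = ρ • y ∧ ∀ i, 0 < y i := by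
  have hmain : M.mulVec y = ρ • y := by
    by_contra hne
    obtain ⟨w, hw⟩ : ∃ w, w = M.mulVec y - ρ • y := ⟨_, rfl⟩
    have hw0 : w ≠ 0 := by
      rw [hw]
      exact sub_ne_zero.2 hne
    have hwn : ∀ i, 0 ≤ w i := by
      intro i
      rw [hw, Pi.sub_apply, Pi.smul_apply, smul_eq_mul]
      linarith [h i]
    obtain ⟨m, hm⟩ := irr_pos M hM hI w hwn hw0
    obtain ⟨S, hS⟩ : ∃ S : Matrix ι ι ℝ, S = ∑ k ∈ Finset.range (m + 1), M ^ k := ⟨_, rfl⟩
    have hSv : ∀ (v : ι → ℝ) (i : ι), S.mulVec v i =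
        ∑ k ∈ Finset.range (m + 1), (M ^ k).mulVec v i := by
      intro v i
      rw [hS, Matrix.sum_mulVec, Finset.sum_apply]
    have hcomm : M * S = S * M := by
      rw [hS, Finset.mul_sum, Finset.sum_mul]
      exact Finset.sum_congr rfl fun k _ => by rw [← pow_succ, ← pow_succ']
    obtain ⟨y', hy'⟩ : ∃ y', y' = S.mulVec y := ⟨_, rfl⟩
    have h1 : ∀ i, M.mulVec y' i - ρ * y' i = S.mulVec w i := by
      intro i
      rw [hw, Matrix.mulVec_sub, Matrix.mulVec_smul, hy', Matrix.mulVec_mulVec,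
        Matrix.mulVec_mulVec, hcomm, Pi.sub_apply, Pi.smul_apply, smul_eq_mul]
    have h2 : ∀ i, 0 < S.mulVec w i := by
      intro i
      rw [hSv]
      exact hm i
    have hy'n : ∀ i, y i ≤ y' i := by
      intro i
      rw [hy', hSv]
      have h3 : (M ^ 0).mulVec y i ≤ ∑ k ∈ Finset.range (m + 1), (M ^ k).mulVec y i :=
        Finset.single_le_sum (f := fun k => (M ^ k).mulVec y i)
          (fun k _ => ip_nonneg M hM y hy k i) (Finset.mem_range.2 (Nat.succ_pos m))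
      rwa [pow_zero, Matrix.one_mulVec] at h3
    obtain ⟨i₀, hi₀⟩ : ∃ i, 0 < y i := by
      by_contra hcon
      push Not at hcon
      exact hy0 (funext fun i => le_antisymm (hcon i) (hy i))
    obtain ⟨C, hC⟩ : ∃ C, C = (∑ i, y' i / S.mulVec w i) + 1 := ⟨_, rfl⟩
    have hterm : ∀ i, 0 ≤ y' i / S.mulVec w i := fun i =>
      div_nonneg ((hy i).trans (hy'n i)) (h2 i).le
    have hC0 : 0 < C := by
      rw [hC]
      have := Finset.sum_nonneg (fun i (_ : i ∈ (Finset.univ : Finset ι)) => hterm i)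
      linarith
    refine ip_growth M hM ρ hρ hle y' i₀ (hi₀.trans_le (hy'n i₀)) (1 / C) (by positivity) ?_
    intro i
    have h3 : y' i / S.mulVec w i ≤ C := by
      rw [hC]
      have := Finset.single_le_sum (f := fun i => y' i / S.mulVec w i)
        (fun i _ => hterm i) (Finset.mem_univ i)
      linarith
    have h4 : 1 / C * y' i ≤ S.mulVec w i := by
      rw [div_le_iff₀ (h2 i)] at h3
      rw [one_div, inv_mul_le_iff₀ hC0]
      exact h3
    have h5 := h1 i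
    linarith
  refine ⟨hmain, fun i => ?_⟩
  obtain ⟨m, hm⟩ := irr_pos M hM hI y hy hy0
  have h1 : ∀ k : ℕ, (M ^ k).mulVec y = ρ ^ k • y := by
    intro k
    induction k with
    | zero => rw [pow_zero, pow_zero, Matrix.one_mulVec, one_smul]
    | succ k ih =>
      rw [pow_succ, ← Matrix.mulVec_mulVec, hmain, Matrix.mulVec_smul, ih, smul_smul, pow_succ,
        mul_comm]
  have h2 := hm i
  have h3 : ∑ k ∈ Finset.range (m + 1), (M ^ k).mulVec y i =
      (∑ k ∈ Finset.range (m + 1), ρ ^ k) * y i := by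
    rw [Finset.sum_mul]
    exact Finset.sum_congr rfl fun k _ => by rw [h1, Pi.smul_apply, smul_eq_mul]
  rw [h3] at h2
  have h4 : 0 < ∑ k ∈ Finset.range (m + 1), ρ ^ k :=
    Finset.sum_pos (fun k _ => pow_pos hρ k) ⟨0, Finset.mem_range.2 (Nat.succ_pos m)⟩
  exact (pos_iff_pos_of_mul_pos h2).1 h4

end Pool.Agent.Helper73.DM
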