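import Mathlib

/-!
# DM-B13: the Liouville inequality with one more algebraic number

Let `lam` be the roots of the monic `χ ∈ ℤ[X]`, `Qp^lam = ∑ F_k(lam) Y^k ≠ 0` with root `ζ`, `V^lam(ζ) ≠ 0`.
Let `m1 = natDegree Qp^lam ≤ m` (`m1 ≥ 1` since `ζ` is a root), `lc = F_{m1}(lam) ≠ 0`. `K` = the field generated by the `lam i`, `K' = K(ζ) ⊆ ℂ`, a number field, `[K' : ℚ] ≤ D m1 ≤ D m` with `D` a bound for `[K:ℚ]` depending only on `d` (`d!` or `d^d`). `β = lc ζ` is integral: root of the monic polynomial `Y^{m1} + ∑_{k<m1} F_k(lam) lc^{m1-1-k} Y^k`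
over `𝓞 K`. `U = lc^m V^lam(ζ) = ∑_k V_k(lam) lc^{m-k} β^k ∈ 𝓞 K'`, `U ≠ 0`. So `1 ≤ |Norm U| = ∏_{τ : K' → ℂ} ‖τ U‖`. Each `τ` permutes the `lam i`: `τ (lam i) = lam (σ i)`; `τ(F(lam)) = F(lam ∘ σ)`. `τ(lc) ≠ 0`, and `τ(ζ)` is a root of `∑_{k ≤ m1} F_k(lam ∘ σ) Y^k`, so `‖τ β‖ ≤ 1 + max_k ‖F_k‖‖lc‖^{m1-1-k} ≤ 2 B^m` (Cauchy bound for
the monic polynomial of `τ β`: if `‖y‖ > 1` and `y^{m1} = - ∑ a_k y^k`, `‖a_k‖ ≤ A` then `‖y‖ ≤ 1 + A`; `A = B^{m}`; `1 + B^m ≤ 2 B^m`). `‖τ U‖ ≤ (m+1) B B^m (2 B^m)^m ≤ (2B)^(5 m²) =: B1` (`m ≥ 1`, `B ≥ 1`). One of the `τ` is the inclusion: `1 ≤ ‖U‖ B1^(D m)`, `‖U‖ ≤ B^m ‖V^lam(ζ)‖`. Total: `1 ≤ (2B)^(5 D m³ + m) ‖V^lam(ζ)‖ ≤ (2B)^(c m^3) ‖..‖`, `c = 5 D + 1`.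
(The facts about the permutation `σ` and the degree bound are also needed for `liouville` in `Liou.lean`, which is proved: reuse its lemmas if they are not private.)
-/

set_option autoImplicit false

open Polynomial

namespace Pool.Agent.Helper73.DM

/-- a symmetric integer polynomial takes an integer value at the roots of an integer polynomial -/
private theorem h86_sym {d : ℕ} (χ : ℤ[X]) (lam : Fin d → ℂ)
    (h : χ.map (Int.castRingHom ℂ) = ∏ i, (X - C (lam i)))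
    (P : MvPolynomial (Fin d) ℤ) (hP : P.IsSymmetric) :
    ∃ z : ℤ, MvPolynomial.aeval lam P = (z : ℂ) := by
  obtain ⟨q, hq⟩ := MvPolynomial.esymmAlgHom_surjective (σ := Fin d) (R := ℤ) (n := d)
    (by simp) ⟨P, (MvPolynomial.mem_symmetricSubalgebra P).2 hP⟩
  have hq' := congrArg Subtype.val hq
  rw [MvPolynomial.esymmAlgHom_apply] at hq'
  simp only at hq'
  have he : ∀ k : ℕ, k ≤ d → MvPolynomial.aeval lam (MvPolynomial.esymm (Fin d) ℤ k) =
      (((-1) ^ k * χ.coeff (d - k) : ℤ) : ℂ) := by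
    intro k hk
    rw [MvPolynomial.aeval_esymm_eq_multiset_esymm]
    have h1 := Multiset.prod_X_sub_C_coeff ((Finset.univ : Finset (Fin d)).val.map lam) (k := d - k)
      (by simp)
    have h2 : (((Finset.univ : Finset (Fin d)).val.map lam).map fun t => X - C t).prod =
        χ.map (Int.castRingHom ℂ) := by
      rw [h, Multiset.map_map]
      rfl
    rw [h2, coeff_map] at h1
    have h3 : Multiset.card ((Finset.univ : Finset (Fin d)).val.map lam) - (d - k) = k := by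
      simp
      omega
    rw [h3] at h1
    push_cast
    have h4 : ((χ.coeff (d - k) : ℤ) : ℂ) = (-1) ^ k *
      ((Finset.univ : Finset (Fin d)).val.map lam).esymm k := by simpa using h1
    rw [h4, ← mul_assoc, ← mul_pow]
    simp
  refine ⟨MvPolynomial.aeval (fun i : Fin d => ((-1) ^ ((i : ℕ) + 1) * χ.coeff (d - ((i : ℕ) + 1)) : ℤ)) q, ?_⟩
  rw [← hq']
  have h5 : MvPolynomial.aeval lam
      (MvPolynomial.aeval (fun i : Fin d => MvPolynomial.esymm (Fin d) ℤ ((i : ℕ) + 1)) q) =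
      MvPolynomial.aeval (fun i : Fin d => MvPolynomial.aeval lam
        (MvPolynomial.esymm (Fin d) ℤ ((i : ℕ) + 1))) q := by
    rw [← AlgHom.comp_apply]
    congr 1
    rw [MvPolynomial.comp_aeval]
  rw [h5]
  have h6 : (fun i : Fin d => MvPolynomial.aeval lam (MvPolynomial.esymm (Fin d) ℤ ((i : ℕ) + 1))) =
      fun i : Fin d => algebraMap ℤ ℂ ((-1) ^ ((i : ℕ) + 1) * χ.coeff (d - ((i : ℕ) + 1)) : ℤ) := by
    funext i
    rw [he _ (by omega)]
    rfl
  rw [h6]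
  have h7 := MvPolynomial.aeval_algebraMap_apply (A := ℤ) ℂ
    (fun i : Fin d => ((-1) ^ ((i : ℕ) + 1) * χ.coeff (d - ((i : ℕ) + 1)) : ℤ)) q
  exact h7

section generic

variable {A : Type*} [CommRing A]

/-- the monic polynomial of `lc ζ` -/
private noncomputable def h86_G (Q : A[X]) (n : ℕ) : A[X] :=
  X ^ n + ∑ k ∈ Finset.range n, C (Q.coeff k * Q.coeff n ^ (n - 1 - k)) * X ^ k

/-- the polynomial expression of `lc ^ m V(ζ)` in `lc ζ` -/
private noncomputable def h86_W (Q V : A[X]) (n m : ℕ) : A[X] :=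
  ∑ k ∈ Finset.range (m + 1), C (V.coeff k * Q.coeff n ^ (m - k)) * X ^ k

/-- the polynomial with roots `W(ξ)`, `G(ξ) = 0` -/
private noncomputable def h86_R (Q V : A[X]) (n m : ℕ) : A[X] :=
  resultant ((h86_G Q n).map C) (C X - (h86_W Q V n m).map C) n m

private lemma h86_sum_deg (Q : A[X]) (n : ℕ) :
    (∑ k ∈ Finset.range n, C (Q.coeff k * Q.coeff n ^ (n - 1 - k)) * X ^ k : A[X]).degree
      < (n : WithBot ℕ) := by
  refine (Polynomial.degree_sum_le _ _).trans_lt ?_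
  rw [Finset.sup_lt_iff (by exact_mod_cast WithBot.bot_lt_coe n)]
  intro k hk
  rw [Finset.mem_range] at hk
  refine (degree_C_mul_X_pow_le k _).trans_lt ?_
  exact_mod_cast hk

private lemma h86_G_monic (Q : A[X]) (n : ℕ) : (h86_G Q n).Monic :=
  monic_X_pow_add (h86_sum_deg Q n)

private lemma h86_G_natDegree [Nontrivial A] (Q : A[X]) (n : ℕ) : (h86_G Q n).natDegree = n := by
  have h1 : (h86_G Q n).degree = (n : WithBot ℕ) := by
    unfold h86_G
    rw [degree_add_eq_left_of_degree_lt]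
    · exact degree_X_pow n
    · rw [degree_X_pow]
      exact h86_sum_deg Q n
  exact natDegree_eq_of_degree_eq_some h1

private lemma h86_W_natDegree (Q V : A[X]) (n m : ℕ) : (h86_W Q V n m).natDegree ≤ m := by
  refine natDegree_sum_le_of_forall_le _ _ fun k hk => ?_
  rw [Finset.mem_range] at hk
  exact (natDegree_C_mul_X_pow_le _ _).trans (by omega)

private lemma h86_G_map {B : Type*} [CommRing B] (ψ : A →+* B) (Q : A[X]) (n : ℕ) :
    (h86_G Q n).map ψ = h86_G (Q.map ψ) n := by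
  unfold h86_G
  simp [Polynomial.map_sum]

private lemma h86_W_map {B : Type*} [CommRing B] (ψ : A →+* B) (Q V : A[X]) (n m : ℕ) :
    (h86_W Q V n m).map ψ = h86_W (Q.map ψ) (V.map ψ) n m := by
  unfold h86_W
  simp [Polynomial.map_sum]

private lemma h86_R_map {B : Type*} [CommRing B] (ψ : A →+* B) (Q V : A[X]) (n m : ℕ) :
    (h86_R Q V n m).map ψ = h86_R (Q.map ψ) (V.map ψ) n m := by
  have h0 : (mapRingHom ψ).comp (C : A →+* A[X]) = (C : B →+* B[X]).comp ψ := by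
    ext a
    simp
  unfold h86_R
  have h1 : (resultant ((h86_G Q n).map C) (C X - (h86_W Q V n m).map C) n m).map ψ =
    (mapRingHom ψ) (resultant ((h86_G Q n).map C) (C X - (h86_W Q V n m).map C) n m) := rfl
  rw [h1, ← resultant_map_map, Polynomial.map_map, Polynomial.map_sub, Polynomial.map_map, h0,
    ← Polynomial.map_map, ← Polynomial.map_map, h86_G_map, h86_W_map]
  congr 2
  rw [Polynomial.map_C]
  simp

end generic

private lemma h86_R_eq (Q V : ℂ[X]) (n m : ℕ) :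
    h86_R Q V n m = ((h86_G Q n).roots.map
      (fun ξ => X - C ((h86_W Q V n m).eval ξ))).prod := by
  unfold h86_R
  have hmon : ((h86_G Q n).map (C : ℂ →+* ℂ[X])).Monic := (h86_G_monic Q n).map _
  have hdeg : ((h86_G Q n).map (C : ℂ →+* ℂ[X])).natDegree = n := by
    rw [(h86_G_monic Q n).natDegree_map, h86_G_natDegree]
  have hspl : (h86_G Q n).Splits := IsAlgClosed.splits _
  have h1 := resultant_eq_prod_eval ((h86_G Q n).map (C : ℂ →+* ℂ[X]))
    (C X - (h86_W Q V n m).map C) m (by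
      refine (natDegree_sub_le _ _).trans ?_
      rw [natDegree_C, max_le_iff]
      exact ⟨Nat.zero_le _, natDegree_map_le.trans (h86_W_natDegree Q V n m)⟩) (hspl.map _)
  rw [hdeg, hmon.leadingCoeff, one_pow, one_mul] at h1
  rw [h1, hspl.roots_map_of_injective (C_injective), Multiset.map_map]
  congr 1
  refine Multiset.map_congr rfl fun ξ _ => ?_
  simp only [Function.comp_apply, eval_sub, eval_C, eval_map, eval₂_at_apply]

private lemma h86_G_eval (Q : ℂ[X]) (n : ℕ) (hn : Q.natDegree = n) (hn1 : 1 ≤ n) (ζ : ℂ)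
    (hζ : Q.eval ζ = 0) : (h86_G Q n).eval (Q.coeff n * ζ) = 0 := by
  obtain ⟨k, rfl⟩ : ∃ k, n = k + 1 := ⟨n - 1, by omega⟩
  have h1 : (h86_G Q (k + 1)).eval (Q.coeff (k + 1) * ζ) = Q.coeff (k + 1) ^ k * Q.eval ζ := by
    have h0 : Q.eval ζ = (∑ j ∈ Finset.range (k + 1), Q.coeff j * ζ ^ j) +
        Q.coeff (k + 1) * ζ ^ (k + 1) := by
      rw [eval_eq_sum_range, hn, Finset.sum_range_succ]
    rw [h0, mul_add, Finset.mul_sum]
    unfold h86_G
    rw [eval_add, eval_finsetSum]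
    have h2 : ∀ j ∈ Finset.range (k + 1),
        (C (Q.coeff j * Q.coeff (k + 1) ^ (k + 1 - 1 - j)) * X ^ j : ℂ[X]).eval
          (Q.coeff (k + 1) * ζ) = Q.coeff (k + 1) ^ k * (Q.coeff j * ζ ^ j) := by
      intro j hj
      rw [Finset.mem_range] at hj
      obtain ⟨t, rfl⟩ : ∃ t, k = j + t := ⟨k - j, by omega⟩
      have h3 : j + t + 1 - 1 - j = t := by omega
      rw [h3]
      simp only [eval_mul, eval_C, eval_pow, eval_X]
      ring
    rw [Finset.sum_congr rfl h2]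
    simp only [eval_pow, eval_X]
    ring
  rw [h1, hζ, mul_zero]

private lemma h86_W_eval (Q V : ℂ[X]) (n m : ℕ) (hV : V.natDegree ≤ m) (ζ : ℂ) :
    (h86_W Q V n m).eval (Q.coeff n * ζ) = Q.coeff n ^ m * V.eval ζ := by
  rw [eval_eq_sum_range' (Nat.lt_succ_of_le hV), Finset.mul_sum]
  unfold h86_W
  rw [eval_finsetSum]
  refine Finset.sum_congr rfl fun k hk => ?_
  rw [Finset.mem_range] at hk
  obtain ⟨t, rfl⟩ : ∃ t, m = k + t := ⟨m - k, by omega⟩
  have h3 : k + t - k = t := by omega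
  rw [h3]
  simp only [eval_mul, eval_C, eval_pow, eval_X]
  ring

/-- integral numbers: the conjugates are bounded -/
private lemma h86_int (P : ℤ[X]) (hP : P.Monic) (U : ℂ) (hU : U ≠ 0)
    (hroot : (P.map (Int.castRingHom ℂ)).eval U = 0) (B : ℝ) (hB : 1 ≤ B)
    (hb : ∀ z : ℂ, (P.map (Int.castRingHom ℂ)).eval z = 0 → ‖z‖ ≤ B) :
    1 ≤ B ^ P.natDegree * ‖U‖ := by
  classical
  have hint : IsIntegral ℤ U := ⟨P, hP, by
    rw [eval_map] at hroot
    exact hroot⟩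
  have haev : aeval U P = 0 := by
    rw [aeval_def]
    rw [eval_map] at hroot
    exact hroot
  have hdvd : minpoly ℤ U ∣ P := minpoly.isIntegrallyClosed_dvd hint haev
  have hmm : (minpoly ℤ U).Monic := minpoly.monic hint
  have hle : (minpoly ℤ U).natDegree ≤ P.natDegree :=
    natDegree_le_of_dvd hdvd hP.ne_zero
  have hc0 : (minpoly ℤ U).coeff 0 ≠ 0 := by
    intro h0
    have hint' : IsIntegral ℚ U := hint.tower_top
    have h1 := minpoly.coeff_zero_ne_zero hint' hU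
    rw [minpoly.isIntegrallyClosed_eq_field_fractions' ℚ hint, coeff_map, h0, map_zero] at h1
    exact h1 rfl
  set q : ℂ[X] := (minpoly ℤ U).map (Int.castRingHom ℂ) with hq
  have hqm : q.Monic := hmm.map _
  have hqd : q.natDegree = (minpoly ℤ U).natDegree := hmm.natDegree_map _
  have hqs : q.Splits := IsAlgClosed.splits q
  have hprod : q.coeff 0 = (-1) ^ q.natDegree * q.roots.prod :=
    hqs.coeff_zero_eq_prod_roots_of_monic hqm
  have hqU : U ∈ q.roots := by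
    rw [mem_roots hqm.ne_zero, IsRoot.def, hq, eval_map]
    have := minpoly.aeval ℤ U
    rw [aeval_def] at this
    exact this
  have hqb : ∀ z ∈ q.roots, ‖z‖ ≤ B := by
    intro z hz
    rw [mem_roots hqm.ne_zero, IsRoot.def] at hz
    refine hb z ?_
    obtain ⟨s, hs⟩ := hdvd
    rw [hs, Polynomial.map_mul, eval_mul, ← hq, hz, zero_mul]
  have hnorm : (1 : ℝ) ≤ ‖q.coeff 0‖ := by
    rw [hq, coeff_map]
    have h6 : ‖(Int.castRingHom ℂ) ((minpoly ℤ U).coeff 0)‖ = |(((minpoly ℤ U).coeff 0 : ℤ) : ℝ)| := by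
      simp
    rw [h6, ← Int.cast_abs]
    exact_mod_cast Int.one_le_abs hc0
  obtain ⟨S, hS⟩ := Multiset.exists_cons_of_mem hqU
  have hSb : ∀ T : Multiset ℂ, (∀ z ∈ T, ‖z‖ ≤ B) → ‖T.prod‖ ≤ B ^ Multiset.card T := by
    intro T
    induction T using Multiset.induction_on with
    | empty => intro _; simp
    | cons a T ih =>
      intro h
      rw [Multiset.prod_cons, norm_mul, Multiset.card_cons, pow_succ, mul_comm]
      refine mul_le_mul (ih fun z hz => h z (Multiset.mem_cons_of_mem hz))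
        (h a (Multiset.mem_cons_self a T)) (norm_nonneg _) (by positivity)
  have hcard : Multiset.card S + 1 = q.natDegree := by
    rw [hqs.natDegree_eq_card_roots, hS, Multiset.card_cons]
  rw [hprod, norm_mul, norm_pow, norm_neg, norm_one, one_pow, one_mul, hS, Multiset.prod_cons,
    norm_mul] at hnorm
  have h1 := hSb S (fun z hz => hqb z (by rw [hS]; exact Multiset.mem_cons_of_mem hz))
  have h2 : B ^ Multiset.card S ≤ B ^ P.natDegree := pow_le_pow_right₀ hB (by omega)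
  calc (1 : ℝ) ≤ ‖U‖ * ‖S.prod‖ := hnorm
    _ ≤ ‖U‖ * B ^ P.natDegree := mul_le_mul_of_nonneg_left (h1.trans h2) (norm_nonneg _)
    _ = B ^ P.natDegree * ‖U‖ := mul_comm _ _

/-- Cauchy bound for the roots of `G` -/
private lemma h86_G_root (Q : ℂ[X]) (n : ℕ) (B : ℝ) (hB : 1 ≤ B)
    (hQ : ∀ k, ‖Q.coeff k‖ ≤ B) (ξ : ℂ) (hξ : (h86_G Q n).eval ξ = 0) : ‖ξ‖ ≤ 1 + B ^ n := by
  by_contra hcon
  push Not at hcon
  have hBn : 0 < B ^ n := by positivity
  have hx1 : 1 < ‖ξ‖ := by linarith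
  unfold h86_G at hξ
  rw [eval_add, eval_finsetSum] at hξ
  simp only [eval_mul, eval_C, eval_pow, eval_X] at hξ
  have h1 : ξ ^ n = -∑ k ∈ Finset.range n, Q.coeff k * Q.coeff n ^ (n - 1 - k) * ξ ^ k :=
    eq_neg_of_add_eq_zero_left hξ
  have h2 : ‖ξ‖ ^ n ≤ B ^ n * ∑ k ∈ Finset.range n, ‖ξ‖ ^ k := by
    calc ‖ξ‖ ^ n = ‖ξ ^ n‖ := (norm_pow _ _).symm
      _ = ‖∑ k ∈ Finset.range n, Q.coeff k * Q.coeff n ^ (n - 1 - k) * ξ ^ k‖ := by
          rw [h1, norm_neg]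
      _ ≤ ∑ k ∈ Finset.range n, ‖Q.coeff k * Q.coeff n ^ (n - 1 - k) * ξ ^ k‖ :=
          norm_sum_le _ _
      _ ≤ ∑ k ∈ Finset.range n, B ^ n * ‖ξ‖ ^ k := by
          refine Finset.sum_le_sum fun k hk => ?_
          rw [Finset.mem_range] at hk
          rw [norm_mul, norm_mul, norm_pow, norm_pow]
          refine mul_le_mul_of_nonneg_right ?_ (by positivity)
          calc ‖Q.coeff k‖ * ‖Q.coeff n‖ ^ (n - 1 - k)
              ≤ B * B ^ (n - 1 - k) := mul_le_mul (hQ k)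
                (pow_le_pow_left₀ (norm_nonneg _) (hQ n) _) (by positivity) (by linarith)
            _ = B ^ (n - 1 - k + 1) := by rw [pow_succ]; ring
            _ ≤ B ^ n := pow_le_pow_right₀ hB (by omega)
      _ = B ^ n * ∑ k ∈ Finset.range n, ‖ξ‖ ^ k := by rw [Finset.mul_sum]
  have h3 : (∑ k ∈ Finset.range n, ‖ξ‖ ^ k) * (‖ξ‖ - 1) = ‖ξ‖ ^ n - 1 := geom_sum_mul _ _
  have h4 : 0 ≤ ∑ k ∈ Finset.range n, ‖ξ‖ ^ k := Finset.sum_nonneg fun k _ => by positivity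
  have h5 : B ^ n * ∑ k ∈ Finset.range n, ‖ξ‖ ^ k ≤ ‖ξ‖ ^ n - 1 := by
    rw [← h3]
    nlinarith
  linarith

private lemma h86_W_bound (Q V : ℂ[X]) (n m : ℕ) (hnm : n ≤ m) (hm : 1 ≤ m) (B : ℝ) (hB : 1 ≤ B)
    (hQ : ∀ k, ‖Q.coeff k‖ ≤ B) (hV : ∀ k, ‖V.coeff k‖ ≤ B) (ξ : ℂ) (hξ : ‖ξ‖ ≤ 1 + B ^ n) :
    ‖(h86_W Q V n m).eval ξ‖ ≤ (2 * B) ^ (5 * m ^ 2) := by
  have hBm : 1 ≤ B ^ m := one_le_pow₀ hB
  have hBnm : B ^ n ≤ B ^ m := pow_le_pow_right₀ hB hnm
  have hξ2 : ‖ξ‖ ≤ 2 * B ^ m := by linarith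
  have h2B : 1 ≤ 2 * B := by linarith
  have hterm : ∀ k ∈ Finset.range (m + 1),
      ‖V.coeff k * Q.coeff n ^ (m - k) * ξ ^ k‖ ≤ B * B ^ m * (2 * B ^ m) ^ m := by
    intro k hk
    rw [Finset.mem_range] at hk
    rw [norm_mul, norm_mul, norm_pow, norm_pow]
    have h1 : ‖Q.coeff n‖ ^ (m - k) ≤ B ^ m :=
      (pow_le_pow_left₀ (norm_nonneg _) (hQ n) _).trans (pow_le_pow_right₀ hB (by omega))
    have h2 : ‖ξ‖ ^ k ≤ (2 * B ^ m) ^ m :=
      (pow_le_pow_left₀ (norm_nonneg _) hξ2 _).trans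
        (pow_le_pow_right₀ (by linarith) (by omega))
    refine mul_le_mul (mul_le_mul (hV k) h1 (by positivity) (by linarith)) h2 (by positivity)
      (by positivity)
  have hsum : ‖(h86_W Q V n m).eval ξ‖ ≤ ((m : ℝ) + 1) * (B * B ^ m * (2 * B ^ m) ^ m) := by
    unfold h86_W
    rw [eval_finsetSum]
    simp only [eval_mul, eval_C, eval_pow, eval_X]
    refine (norm_sum_le _ _).trans ((Finset.sum_le_sum hterm).trans ?_)
    rw [Finset.sum_const, Finset.card_range, nsmul_eq_mul]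
    push_cast
    exact le_refl _
  refine hsum.trans ?_
  have e1 : (m : ℝ) + 1 ≤ (2 * B) ^ m := by
    have h1 : (m : ℝ) + 1 ≤ 2 ^ m := by
      have : m + 1 ≤ 2 ^ m := Nat.lt_two_pow_self
      exact_mod_cast this
    exact h1.trans (pow_le_pow_left₀ (by norm_num) (by linarith) m)
  have e2 : B ≤ (2 * B) ^ 1 := by linarith
  have e3 : B ^ m ≤ (2 * B) ^ m := pow_le_pow_left₀ (by linarith) (by linarith) m
  have e4 : (2 * B ^ m) ^ m ≤ ((2 * B) ^ m) ^ m := by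
    refine pow_le_pow_left₀ (by positivity) ?_ m
    rw [mul_pow]
    refine mul_le_mul_of_nonneg_right ?_ (by positivity)
    calc (2 : ℝ) = 2 ^ 1 := by norm_num
      _ ≤ 2 ^ m := pow_le_pow_right₀ (by norm_num) hm
  have hBpos : 0 < B := by linarith
  calc ((m : ℝ) + 1) * (B * B ^ m * (2 * B ^ m) ^ m)
      ≤ (2 * B) ^ m * ((2 * B) ^ 1 * (2 * B) ^ m * ((2 * B) ^ m) ^ m) := by
        gcongr
    _ = (2 * B) ^ (m + (1 + m + m * m)) := by
        rw [← pow_mul, ← pow_add, ← pow_add, ← pow_add]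
    _ ≤ (2 * B) ^ (5 * m ^ 2) := pow_le_pow_right₀ h2B (by nlinarith)

theorem liouville_ext (d : ℕ) :
    ∃ c : ℕ, ∀ (χ : ℤ[X]) (lam : Fin d → ℂ),
      χ.map (Int.castRingHom ℂ) = ∏ i, (X - C (lam i)) → ∀ m : ℕ, 1 ≤ m →
      ∀ Qp V : (MvPolynomial (Fin d) ℤ)[X], Qp.natDegree ≤ m → V.natDegree ≤ m →
      ∀ B : ℝ, 1 ≤ B →
      (∀ (σ : Equiv.Perm (Fin d)) (k : ℕ),
        ‖MvPolynomial.aeval (fun i => lam (σ i)) (Qp.coeff k)‖ ≤ B ∧
        ‖MvPolynomial.aeval (fun i => lam (σ i)) (V.coeff k)‖ ≤ B) →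
      ∀ ζ : ℂ, Qp.map (MvPolynomial.aeval lam).toRingHom ≠ 0 →
      (Qp.map (MvPolynomial.aeval lam).toRingHom).eval ζ = 0 →
      (V.map (MvPolynomial.aeval lam).toRingHom).eval ζ ≠ 0 →
      1 ≤ (2 * B) ^ (c * m ^ 3) *
        ‖(V.map (MvPolynomial.aeval lam).toRingHom).eval ζ‖ := by
  classical
  refine ⟨5 * Fintype.card (Equiv.Perm (Fin d)) + 1, ?_⟩
  intro χ lam hχ m hm Qp V hQm hVm B hB hbd ζ hQ0 hQζ hVζ
  set φ : Equiv.Perm (Fin d) → (MvPolynomial (Fin d) ℤ →+* ℂ) :=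
    fun σ => (MvPolynomial.aeval (fun i => lam (σ i)) : MvPolynomial (Fin d) ℤ →ₐ[ℤ] ℂ).toRingHom
    with hφ
  have hφ1 : φ 1 = (MvPolynomial.aeval lam : MvPolynomial (Fin d) ℤ →ₐ[ℤ] ℂ).toRingHom := rfl
  rw [← hφ1] at hQ0 hQζ hVζ ⊢
  set n := (Qp.map (φ 1)).natDegree with hn
  have hnm : n ≤ m := natDegree_map_le.trans hQm
  have hn1 : 1 ≤ n := by
    by_contra hcon
    have h0 : (Qp.map (φ 1)).natDegree = 0 := by omega
    rw [eq_C_of_natDegree_eq_zero h0, eval_C] at hQζ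
    apply hQ0
    rw [eq_C_of_natDegree_eq_zero h0, hQζ, C_0]
  set P : (MvPolynomial (Fin d) ℤ)[X] :=
    ∏ σ : Equiv.Perm (Fin d), (h86_R Qp V n m).map (MvPolynomial.rename σ : MvPolynomial (Fin d) ℤ
      →ₐ[ℤ] MvPolynomial (Fin d) ℤ).toRingHom with hP
  have hPsym : ∀ k, (P.coeff k).IsSymmetric := by
    intro k e
    have h1 : P.map (MvPolynomial.rename e : MvPolynomial (Fin d) ℤ →ₐ[ℤ]
        MvPolynomial (Fin d) ℤ).toRingHom = P := by
      rw [hP, Polynomial.map_prod]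
      refine Fintype.prod_equiv (Equiv.mulLeft e) _ _ fun σ => ?_
      rw [Polynomial.map_map]
      congr 1
      ext a
      · simp
      · simp
    have h2 := congrArg (fun p => Polynomial.coeff p k) h1
    simp only [coeff_map] at h2
    exact h2
  have hPmap : P.map (φ 1) = ∏ σ : Equiv.Perm (Fin d), h86_R (Qp.map (φ σ)) (V.map (φ σ)) n m := by
    rw [hP, Polynomial.map_prod]
    refine Finset.prod_congr rfl fun σ _ => ?_
    rw [Polynomial.map_map, ← h86_R_map]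
    congr 1
    ext a
    · simp [hφ]
    · simp [hφ]
  have hRm : ∀ σ : Equiv.Perm (Fin d), (h86_R (Qp.map (φ σ)) (V.map (φ σ)) n m).Monic := by
    intro σ
    rw [h86_R_eq]
    exact monic_multiset_prod_of_monic _ _ fun ξ _ => monic_X_sub_C _
  have hRd : ∀ σ : Equiv.Perm (Fin d),
      (h86_R (Qp.map (φ σ)) (V.map (φ σ)) n m).natDegree = n := by
    intro σ
    have h1 : ((h86_G (Qp.map (φ σ)) n).roots.map
        (fun ξ => X - C ((h86_W (Qp.map (φ σ)) (V.map (φ σ)) n m).eval ξ))) =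
        (((h86_G (Qp.map (φ σ)) n).roots.map
          (fun ξ => (h86_W (Qp.map (φ σ)) (V.map (φ σ)) n m).eval ξ)).map (fun a => X - C a)) := by
      rw [Multiset.map_map]
      rfl
    rw [h86_R_eq, h1, natDegree_multiset_prod_X_sub_C_eq_card, Multiset.card_map,
      ← (IsAlgClosed.splits (h86_G (Qp.map (φ σ)) n)).natDegree_eq_card_roots, h86_G_natDegree]
  have hPm : (P.map (φ 1)).Monic := by
    rw [hPmap]
    exact monic_prod_of_monic _ _ fun σ _ => hRm σ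
  have hPd : (P.map (φ 1)).natDegree = Fintype.card (Equiv.Perm (Fin d)) * n := by
    rw [hPmap, natDegree_prod_of_monic _ _ fun σ _ => hRm σ,
      Finset.sum_congr rfl fun σ _ => hRd σ, Finset.sum_const, smul_eq_mul, Finset.card_univ]
  obtain ⟨Pz, hPz, hPzd, hPzm⟩ := lifts_and_natDegree_eq_and_monic (f := Int.castRingHom ℂ)
    (p := P.map (φ 1)) (by
      rw [lifts_iff_coeff_lifts]
      intro k
      rw [coeff_map]
      obtain ⟨z, hz⟩ := h86_sym χ lam hχ _ (hPsym k)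
      exact ⟨z, by rw [hφ1]; exact hz.symm⟩) hPm
  have hbdQ : ∀ σ k, ‖(Qp.map (φ σ)).coeff k‖ ≤ B := by
    intro σ k
    rw [coeff_map]
    exact (hbd σ k).1
  have hbdV : ∀ σ k, ‖(V.map (φ σ)).coeff k‖ ≤ B := by
    intro σ k
    rw [coeff_map]
    exact (hbd σ k).2
  have h2B : 1 ≤ 2 * B := by linarith
  set U : ℂ := (Qp.map (φ 1)).coeff n ^ m * (V.map (φ 1)).eval ζ with hU
  have hlc : (Qp.map (φ 1)).coeff n ≠ 0 := by
    rw [hn]
    exact leadingCoeff_ne_zero.2 hQ0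
  have hU0 : U ≠ 0 := mul_ne_zero (pow_ne_zero _ hlc) hVζ
  have hUeq : U = (h86_W (Qp.map (φ 1)) (V.map (φ 1)) n m).eval ((Qp.map (φ 1)).coeff n * ζ) :=
    (h86_W_eval _ _ n m (natDegree_map_le.trans hVm) ζ).symm
  have hUroot : (P.map (φ 1)).eval U = 0 := by
    rw [hPmap, eval_prod]
    refine Finset.prod_eq_zero (Finset.mem_univ (1 : Equiv.Perm (Fin d))) ?_
    rw [h86_R_eq, eval_multiset_prod, Multiset.prod_eq_zero_iff, Multiset.map_map,
      Multiset.mem_map]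
    refine ⟨(Qp.map (φ 1)).coeff n * ζ, ?_, ?_⟩
    · rw [mem_roots (h86_G_monic _ n).ne_zero, IsRoot.def]
      exact h86_G_eval _ n hn.symm hn1 ζ hQζ
    · simp only [Function.comp_apply, eval_sub, eval_X, eval_C]
      rw [← hUeq, sub_self]
  have hroots : ∀ z : ℂ, (Pz.map (Int.castRingHom ℂ)).eval z = 0 → ‖z‖ ≤ (2 * B) ^ (5 * m ^ 2) := by
    intro z hz
    rw [hPz, hPmap, eval_prod, Finset.prod_eq_zero_iff] at hz
    obtain ⟨σ, _, hz⟩ := hz
    rw [h86_R_eq, eval_multiset_prod, Multiset.prod_eq_zero_iff, Multiset.map_map,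
      Multiset.mem_map] at hz
    obtain ⟨ξ, hξ, hz⟩ := hz
    simp only [Function.comp_apply, eval_sub, eval_X, eval_C] at hz
    rw [mem_roots (h86_G_monic _ n).ne_zero, IsRoot.def] at hξ
    rw [sub_eq_zero.1 hz]
    exact h86_W_bound _ _ n m hnm hm B hB (hbdQ σ) (hbdV σ) ξ
      (h86_G_root _ n B hB (hbdQ σ) ξ hξ)
  have hfin := h86_int Pz hPzm U hU0 (by rw [hPz]; exact hUroot) _ (one_le_pow₀ h2B) hroots
  have hUn : ‖U‖ ≤ (2 * B) ^ m * ‖(V.map (φ 1)).eval ζ‖ := by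
    rw [hU, norm_mul, norm_pow]
    refine mul_le_mul_of_nonneg_right ?_ (norm_nonneg _)
    exact pow_le_pow_left₀ (norm_nonneg _) ((hbdQ 1 n).trans (by linarith)) m
  have hdeg : Pz.natDegree ≤ Fintype.card (Equiv.Perm (Fin d)) * m := by
    rw [hPzd, hPd]
    exact Nat.mul_le_mul_left _ hnm
  set N := Fintype.card (Equiv.Perm (Fin d)) with hN
  have hexp : 5 * m ^ 2 * Pz.natDegree + m ≤ (5 * N + 1) * m ^ 3 := by
    have h1 : 5 * m ^ 2 * Pz.natDegree ≤ 5 * m ^ 2 * (N * m) := Nat.mul_le_mul_left _ hdeg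
    have h2 : m ≤ m ^ 3 := Nat.le_self_pow (by norm_num) m
    calc 5 * m ^ 2 * Pz.natDegree + m ≤ 5 * m ^ 2 * (N * m) + m ^ 3 := Nat.add_le_add h1 h2
      _ = (5 * N + 1) * m ^ 3 := by ring
  calc (1 : ℝ) ≤ ((2 * B) ^ (5 * m ^ 2)) ^ Pz.natDegree * ‖U‖ := hfin
    _ ≤ ((2 * B) ^ (5 * m ^ 2)) ^ Pz.natDegree * ((2 * B) ^ m * ‖(V.map (φ 1)).eval ζ‖) :=
        mul_le_mul_of_nonneg_left hUn (by positivity)
    _ = (2 * B) ^ (5 * m ^ 2 * Pz.natDegree + m) * ‖(V.map (φ 1)).eval ζ‖ := by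
        rw [← pow_mul, pow_add]
        ring
    _ ≤ (2 * B) ^ ((5 * N + 1) * m ^ 3) * ‖(V.map (φ 1)).eval ζ‖ :=
        mul_le_mul_of_nonneg_right (pow_le_pow_right₀ h2B hexp) (norm_nonneg _)

end Pool.Agent.Helper73.DM
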