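import Pool.Agent.Helper73.DM.YQ

/-!
# DM-B2: the minimal set of roots

* `exists_min`: `univ` works for the first condition (`act` of `χ.map`, `act_map`, `D.kill`); take a `J` of minimal cardinality with `act (∏_{J}) xc = 0`.
* `min_dvd`: `g = gcd (∏_J) A` kills `xc` (`g = a ∏_J + b A`) and divides `∏_J`; if `g` is not associated to `∏_J`, then (the cofactor is not a unit, so it has a root, which is a root `λ_i` of `∏_J`, multiplicities) `g` divides `∏_{J.erase i}` for some `i ∈ J`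
  (`∏_J = g h`, `h` not a unit, `h` has a root `z`, `z = λ_i` for some `i ∈ J`, `h = (X - C z) h'`, cancel `X - C z`: `∏_{J.erase i} = g h'`), so `∏_{J.erase i}` kills `xc`: contradiction.
* `mult_conj`: `xc` is real, so the polynomial with conjugated coefficients `∏_{J} (X - C (conj λ_i))` kills `xc` as well; by `min_dvd` the two monic polynomials of the same degree are equal; compare root multiplicities at `conj z`.
* `act_erase`: `act (∏_{J.erase i}) xc` is killed by `X - C λ_i` (`i ∈ J`), so it is `Y i * λ_i^n`; so `Y i ≠ 0`.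
* `Y_bounds`, `Q_bounds`: `aeval_YP`, `YP_bd`, `liou_bd`.
-/

set_option autoImplicit false

open Polynomial

namespace Pool.Agent.Helper73.DM

private theorem act_univ {d T : ℕ} (D : Dat d T) :
    act (∏ i ∈ (Finset.univ : Finset (Fin d)), (X - C (D.lam i))) D.xc = 0 := by
  rw [← D.map_eq]
  have h := act_map (Int.castRingHom ℂ) D.χ D.x
  have h2 : act (D.χ.map (Int.castRingHom ℂ)) D.xc =
      fun n => (Int.castRingHom ℂ) (act D.χ D.x n) := h
  rw [h2, D.kill]
  funext n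
  simp

theorem exists_min {d T : ℕ} (D : Dat d T) : ∃ J, D.IsMin J := by
  obtain ⟨J, hJ, hmin⟩ := (wellFounded_lt :
    WellFounded ((· < ·) : Finset (Fin d) → Finset (Fin d) → Prop)).has_min
    {J | act (∏ i ∈ J, (X - C (D.lam i))) D.xc = 0} ⟨Finset.univ, act_univ D⟩
  exact ⟨J, hJ, fun i hi h0 => hmin (J.erase i) h0 (Finset.erase_ssubset hi)⟩

private theorem prod_monic {d T : ℕ} (D : Dat d T) (J : Finset (Fin d)) :
    (∏ i ∈ J, (X - C (D.lam i))).Monic := monic_prod_of_monic _ _ fun _ _ => monic_X_sub_C _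

theorem min_dvd {d T : ℕ} (D : Dat d T) (J : Finset (Fin d)) (h : D.IsMin J) (A : ℂ[X])
    (hA : act A D.xc = 0) : (∏ i ∈ J, (X - C (D.lam i))) ∣ A := by
  classical
  obtain ⟨P, hP⟩ : ∃ P : ℂ[X], P = ∏ i ∈ J, (X - C (D.lam i)) := ⟨_, rfl⟩
  have hPm : P ≠ 0 := by rw [hP]; exact (prod_monic D J).ne_zero
  have hPk : act P D.xc = 0 := by rw [hP]; exact h.1
  rw [← hP]
  obtain ⟨g, hg⟩ : ∃ g : ℂ[X], g = EuclideanDomain.gcd P A := ⟨_, rfl⟩
  have hgP : g ∣ P := by rw [hg]; exact EuclideanDomain.gcd_dvd_left P A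
  have hgA : g ∣ A := by rw [hg]; exact EuclideanDomain.gcd_dvd_right P A
  have hgk : act g D.xc = 0 := by
    rw [hg, EuclideanDomain.gcd_eq_gcd_ab, act_add, mul_comm P, mul_comm A, act_mul, act_mul,
      hPk, hA, act_zero_seq, act_zero_seq, add_zero]
  obtain ⟨u, hu⟩ := hgP
  by_cases hun : IsUnit u
  · obtain ⟨w, hw⟩ := hun.exists_right_inv
    have h1 : P ∣ g := ⟨w, by rw [hu, mul_assoc, hw, mul_one]⟩
    exact h1.trans hgA
  · exfalso
    have hu0 : u ≠ 0 := by
      rintro rfl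
      rw [mul_zero] at hu
      exact hPm hu
    have hdeg : u.degree ≠ 0 := fun h0 => hun (isUnit_iff_degree_eq_zero.2 h0)
    obtain ⟨z, hz⟩ := IsAlgClosed.exists_root u hdeg
    obtain ⟨u', hu'⟩ := dvd_iff_isRoot.2 hz
    have hPz : eval z P = 0 := by
      rw [hu, eval_mul, hz.eq_zero, mul_zero]
    rw [hP, eval_prod, Finset.prod_eq_zero_iff] at hPz
    obtain ⟨i, hi, hzi⟩ := hPz
    rw [eval_sub, eval_X, eval_C, sub_eq_zero] at hzi
    have h2 : ∏ j ∈ J.erase i, (X - C (D.lam j)) = g * u' := by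
      have h3 : (X - C z) * (∏ j ∈ J.erase i, (X - C (D.lam j))) = (X - C z) * (g * u') := by
        have h4 : (X - C z) * (∏ j ∈ J.erase i, (X - C (D.lam j))) = P := by
          rw [hP, hzi]
          exact Finset.mul_prod_erase J (fun j => X - C (D.lam j)) hi
        rw [h4, hu, hu']
        ring
      exact mul_left_cancel₀ (X_sub_C_ne_zero z) h3
    exact h.2 i hi (act_of_dvd ⟨u', h2⟩ hgk)

private theorem mult_eq {d T : ℕ} (D : Dat d T) (J : Finset (Fin d)) (z : ℂ) :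
    D.mult J z = (∏ i ∈ J, (X - C (D.lam i))).roots.count z := by
  classical
  have h1 : (∏ i ∈ J, (X - C (D.lam i))).roots = J.val.map D.lam := by
    have h2 : ∏ i ∈ J, (X - C (D.lam i)) = ((J.val.map D.lam).map fun a => X - C a).prod := by
      rw [Multiset.map_map]
      rfl
    rw [h2, roots_multiset_prod_X_sub_C]
  rw [h1, Multiset.count_map]
  unfold Dat.mult
  rw [Finset.card_def, Finset.filter_val]
  congr 1
  exact Multiset.filter_congr fun i _ => eq_comm

private theorem mult_eq' {d T : ℕ} (D : Dat d T) (J : Finset (Fin d)) (z : ℂ) :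
    D.mult J z =
      (∏ i ∈ J, (X - C (starRingEnd ℂ (D.lam i)))).roots.count (starRingEnd ℂ z) := by
  classical
  have h1 : (∏ i ∈ J, (X - C (starRingEnd ℂ (D.lam i)))).roots =
      J.val.map (fun i => starRingEnd ℂ (D.lam i)) := by
    have h2 : ∏ i ∈ J, (X - C (starRingEnd ℂ (D.lam i))) =
        ((J.val.map (fun i => starRingEnd ℂ (D.lam i))).map fun a => X - C a).prod := by
      rw [Multiset.map_map]
      rfl
    rw [h2, roots_multiset_prod_X_sub_C]
  rw [h1, Multiset.count_map]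
  unfold Dat.mult
  rw [Finset.card_def, Finset.filter_val]
  congr 1
  refine Multiset.filter_congr fun i _ => ?_
  constructor
  · intro h
    rw [h]
  · intro h
    exact ((starRingEnd ℂ).injective h).symm

theorem mult_conj {d T : ℕ} (D : Dat d T) (J : Finset (Fin d)) (h : D.IsMin J) (z : ℂ) :
    D.mult J (starRingEnd ℂ z) = D.mult J z := by
  have hmap : (∏ i ∈ J, (X - C (D.lam i))).map (starRingEnd ℂ) =
      ∏ i ∈ J, (X - C (starRingEnd ℂ (D.lam i))) := by
    rw [Polynomial.map_prod]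
    simp only [Polynomial.map_sub, Polynomial.map_X, Polynomial.map_C]
  have hk : act (∏ i ∈ J, (X - C (starRingEnd ℂ (D.lam i)))) D.xc = 0 := by
    rw [← hmap]
    have h1 := act_map (starRingEnd ℂ) (∏ i ∈ J, (X - C (D.lam i))) D.xc
    have h2 : (fun n => starRingEnd ℂ (D.xc n)) = D.xc := by
      funext n
      unfold Dat.xc
      exact map_intCast (starRingEnd ℂ) (D.x n)
    rw [h2, h.1] at h1
    rw [h1]
    funext n
    simp
  have hd := min_dvd D J h _ hk
  have hm1 := prod_monic D J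
  have hm2 : (∏ i ∈ J, (X - C (starRingEnd ℂ (D.lam i)))).Monic :=
    monic_prod_of_monic _ _ fun _ _ => monic_X_sub_C _
  have hdeg : (∏ i ∈ J, (X - C (starRingEnd ℂ (D.lam i)))).natDegree ≤
      (∏ i ∈ J, (X - C (D.lam i))).natDegree := by
    rw [natDegree_prod_of_monic _ _ (fun i _ => monic_X_sub_C _),
      natDegree_prod_of_monic _ _ (fun i _ => monic_X_sub_C _)]
    simp only [natDegree_X_sub_C]
    exact le_rfl
  have heq := eq_of_monic_of_dvd_of_natDegree_le hm1 hm2 hd hdeg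
  rw [mult_eq' D J z, mult_eq D J (starRingEnd ℂ z), heq]

theorem act_erase {d T : ℕ} (D : Dat d T) (J : Finset (Fin d)) (h : D.IsMin J) (i : Fin d)
    (hi : i ∈ J) (n : ℕ) :
    act (∏ j ∈ J.erase i, (X - C (D.lam j))) D.xc n = D.Y J i * D.lam i ^ n := by
  have h1 : act (X - C (D.lam i)) (act (∏ j ∈ J.erase i, (X - C (D.lam j))) D.xc) = 0 := by
    rw [← act_mul, Finset.mul_prod_erase J (fun j => X - C (D.lam j)) hi]
    exact h.1
  induction n with
  | zero => rw [pow_zero, mul_one]; rfl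
  | succ n ih =>
    have h2 := congrFun h1 n
    rw [act_X_sub_C, Pi.zero_apply, sub_eq_zero] at h2
    rw [h2, ih, pow_succ]
    ring

private theorem Y_ne {d T : ℕ} (D : Dat d T) (J : Finset (Fin d)) (h : D.IsMin J) (i : Fin d)
    (hi : i ∈ J) : D.Y J i ≠ 0 := by
  intro h0
  apply h.2 i hi
  funext n
  rw [act_erase D J h i hi n, h0, zero_mul]
  rfl

private theorem two_sided {T : ℝ} (hT : 1 ≤ T) {a b : ℕ} {y : ℝ} (h1 : y ≤ T ^ a)
    (h2 : 1 ≤ (T ^ a) ^ b * y) (hy : 0 ≤ y) :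
    y ≤ T ^ (a + a * b) ∧ 1 ≤ T ^ (a + a * b) * y := by
  refine ⟨h1.trans (pow_le_pow_right₀ hT (by omega)), h2.trans ?_⟩
  rw [← pow_mul]
  exact mul_le_mul_of_nonneg_right (pow_le_pow_right₀ hT (by omega)) hy

theorem Y_bounds (d : ℕ) :
    ∃ c : ℕ, ∀ (T : ℕ) (D : Dat d T) (J : Finset (Fin d)), D.IsMin J → ∀ i ∈ J,
      ‖D.Y J i‖ ≤ (T : ℝ) ^ c ∧ 1 ≤ (T : ℝ) ^ c * ‖D.Y J i‖ := by
  obtain ⟨c1, h1⟩ := YP_bd d
  obtain ⟨c2, h2⟩ := liou_bd d
  refine ⟨c1 + c1 * c2, fun T D J hJ i hi => ?_⟩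
  have hT : (1 : ℝ) ≤ T := by
    have := D.two_le
    exact_mod_cast (by omega : 1 ≤ T)
  have hb := h1 T D.two_le D.x D.x_le J i
  have hv : MvPolynomial.aeval D.lam (YP D.x J i) = D.Y J i := aeval_YP D.x J i D.lam
  have h3 := hb D.lam D.lam_le
  have h4 := h2 T D (YP D.x J i) ((T : ℝ) ^ c1) (one_le_pow₀ hT) hb (by
    rw [hv]
    exact Y_ne D J hJ i hi)
  rw [hv] at h3 h4
  exact two_sided hT h3 h4 (norm_nonneg _)

theorem Q_bounds (d : ℕ) :
    ∃ c : ℕ, ∀ (T : ℕ) (D : Dat d T) (J : Finset (Fin d)) (i : Fin d),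
      ‖D.Q J i‖ ≤ (T : ℝ) ^ c ∧ (D.Q J i ≠ 0 → 1 ≤ (T : ℝ) ^ c * ‖D.Q J i‖) := by
  obtain ⟨c1, h1⟩ := QP_bd d
  obtain ⟨c2, h2⟩ := liou_bd d
  refine ⟨c1 + c1 * c2, fun T D J i => ?_⟩
  have hT : (1 : ℝ) ≤ T := by
    have := D.two_le
    exact_mod_cast (by omega : 1 ≤ T)
  have hb := h1 T D.two_le J i
  have hv : MvPolynomial.aeval D.lam (QP J i) = D.Q J i := aeval_QP J i D.lam
  have h3 := hb D.lam D.lam_le
  rw [hv] at h3
  refine ⟨h3.trans (pow_le_pow_right₀ hT (by omega)), fun hne => ?_⟩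
  have h4 := h2 T D (QP J i) ((T : ℝ) ^ c1) (one_le_pow₀ hT) hb (by
    rw [hv]
    exact hne)
  rw [hv] at h4
  exact (two_sided hT h3 h4 (norm_nonneg _)).2

end Pool.Agent.Helper73.DM
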