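import Pool.Agent.Helper73.DM.MinJ
import Pool.Agent.Helper73.DM.LiouExt

/-!
# DM-B14: the minimum of a trigonometric polynomial with algebraic coefficients

`g(ζ) = a + b ζ^p + b̄ ζ^(-p) + e ζ^q + ē ζ^(-q)` on the unit circle, `a, b, b̄, e, ē` the quotients `Y/Q` at `i0, ..., i4` (hypotheses: `a` real, the second and third, the fourth and fifth conjugate, so `g` is real on the circle), `p, q ≠ 0`, `|p| ≠ |q|`, `|p|, |q| ≤ h`. If `g(ζ0) < 0` somewhere, let `ζ*` be a minimum point (the circle is compact): `g(ζ*) ≤ g(ζ0) < 0`, and the derivative of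
`t ↦ g(exp(it))` vanishes: `p b ζ*^p - p b̄ ζ*^(-p) + q e ζ*^q - q ē ζ*^(-q) = 0`. Let `Δ = Q_{i0} Q_{i1} Q_{i2} Q_{i3} Q_{i4}`, and let `Δ a, Δ b, ...` be the values of the `MvPolynomial`s `YP_{i0} QP_{i1} QP_{i2} QP_{i3} QP_{i4}`, etc. `Qp = ` the polynomial (over `MvPolynomial`) of `ζ^h Δ (p b ζ^p - ...)` and `V` = that of `ζ^h Δ g(ζ)`
(integer exponents `h ± p, h ± q ≥ 0`, so polynomials of degree `≤ 2h = m`). Coefficients are bounded by `(h + 1) T^c1 · 5` on the polydisc (`YP_bd`, `QP_bd`; `D.lam ∘ σ` is in the polydisc). `Qp^lam ≠ 0`: the exponents `h+p, h-p, h+q, h-q` are different and `b ≠ 0` (`Y_bounds`), `Δ ≠ 0`. `V^lam(ζ*) = ζ*^h Δ g(ζ*) ≠ 0`.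
`liouville_ext`: `‖V^lam(ζ*)‖ ≥ (10 (h+1) T^c1)^(-8 c2 h³)`, `‖ζ*‖ = 1`, `‖Δ‖ ≤ T^c3`. Everything is `≥ ((h+1) T)^(-c (h+1)^3)`.
-/

set_option autoImplicit false

open Polynomial

namespace Pool.Agent.Helper73.DM

/-- the trigonometric polynomial -/
noncomputable def trig (a b b' e e' : ℂ) (p q : ℤ) (ζ : ℂ) : ℂ :=
  a + b * ζ ^ p + b' * ζ ^ (-p) + e * ζ ^ q + e' * ζ ^ (-q)

private theorem mv_conj_zpow {ζ : ℂ} (hζ : ‖ζ‖ = 1) (n : ℤ) :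
    starRingEnd ℂ (ζ ^ n) = ζ ^ (-n) := by
  rw [map_zpow₀, ← Complex.inv_eq_conj hζ, inv_zpow, zpow_neg]

private theorem mv_crit (a b b' e e' : ℂ) (p q : ℤ) (ha : starRingEnd ℂ a = a)
    (hb : starRingEnd ℂ b = b') (he : starRingEnd ℂ e = e') {ζ0 : ℂ} (h0 : ‖ζ0‖ = 1)
    (hneg : (trig a b b' e e' p q ζ0).re < 0) :
    ∃ ζ : ℂ, ‖ζ‖ = 1 ∧ (trig a b b' e e' p q ζ).re < 0 ∧ (trig a b b' e e' p q ζ).im = 0 ∧
      p * b * ζ ^ p - p * b' * ζ ^ (-p) + q * e * ζ ^ q - q * e' * ζ ^ (-q) = 0 := by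
  have hb' : starRingEnd ℂ b' = b := by rw [← hb, Complex.conj_conj]
  have he' : starRingEnd ℂ e' = e := by rw [← he, Complex.conj_conj]
  have hcont : ContinuousOn (fun ζ => (trig a b b' e e' p q ζ).re) (Metric.sphere (0 : ℂ) 1) := by
    have hz : ∀ n : ℤ, ContinuousOn (fun ζ : ℂ => ζ ^ n) (Metric.sphere (0 : ℂ) 1) := by
      intro n
      refine (continuousOn_zpow₀ n).mono ?_
      intro x hx h1
      rw [Set.mem_singleton_iff] at h1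
      rw [mem_sphere_zero_iff_norm, h1, norm_zero] at hx
      exact zero_ne_one hx
    unfold trig
    refine Complex.continuous_re.comp_continuousOn ?_
    exact ((((continuousOn_const.add (continuousOn_const.mul (hz p))).add
      (continuousOn_const.mul (hz (-p)))).add (continuousOn_const.mul (hz q))).add
      (continuousOn_const.mul (hz (-q))))
  obtain ⟨ζ, hζ, hmin⟩ := (isCompact_sphere (0 : ℂ) 1).exists_isMinOn
    ⟨ζ0, by rw [mem_sphere_zero_iff_norm]; exact h0⟩ hcont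
  rw [mem_sphere_zero_iff_norm] at hζ
  have hmin' : ∀ w : ℂ, ‖w‖ = 1 → (trig a b b' e e' p q ζ).re ≤ (trig a b b' e e' p q w).re := by
    intro w hw
    exact hmin (by rw [mem_sphere_zero_iff_norm]; exact hw)
  obtain ⟨t, rfl⟩ := (Complex.norm_eq_one_iff ζ).1 hζ
  refine ⟨Complex.exp (t * Complex.I), hζ, lt_of_le_of_lt (hmin' ζ0 h0) hneg, ?_, ?_⟩
  · have h1 : starRingEnd ℂ (trig a b b' e e' p q (Complex.exp (t * Complex.I))) =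
        trig a b b' e e' p q (Complex.exp (t * Complex.I)) := by
      unfold trig
      simp only [map_add, map_mul, mv_conj_zpow hζ, ha, hb, hb', he, he', neg_neg]
      ring
    exact Complex.conj_eq_iff_im.1 h1
  · -- the derivative
    let E : ℂ → ℂ := fun z => a + b * Complex.exp ((p : ℂ) * (z * Complex.I)) +
      b' * Complex.exp (((-p : ℤ) : ℂ) * (z * Complex.I)) +
      e * Complex.exp ((q : ℂ) * (z * Complex.I)) +
      e' * Complex.exp (((-q : ℤ) : ℂ) * (z * Complex.I))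
    have hE : ∀ s : ℝ, E s = trig a b b' e e' p q (Complex.exp (s * Complex.I)) := by
      intro s
      show a + _ + _ + _ + _ = _
      unfold trig
      rw [Complex.exp_int_mul, Complex.exp_int_mul, Complex.exp_int_mul, Complex.exp_int_mul]
    have hlin : ∀ (n : ℤ) (z : ℂ), HasDerivAt (fun z : ℂ => Complex.exp ((n : ℂ) * (z * Complex.I)))
        (Complex.exp ((n : ℂ) * (z * Complex.I)) * ((n : ℂ) * (1 * Complex.I))) z := by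
      intro n z
      exact (((hasDerivAt_id z).mul_const Complex.I).const_mul (n : ℂ)).cexp
    have hderiv : HasDerivAt E (b * (Complex.exp ((p : ℂ) * (t * Complex.I)) * ((p : ℂ) * (1 * Complex.I))) +
        b' * (Complex.exp (((-p : ℤ) : ℂ) * (t * Complex.I)) * (((-p : ℤ) : ℂ) * (1 * Complex.I))) +
        e * (Complex.exp ((q : ℂ) * (t * Complex.I)) * ((q : ℂ) * (1 * Complex.I))) +
        e' * (Complex.exp (((-q : ℤ) : ℂ) * (t * Complex.I)) * (((-q : ℤ) : ℂ) * (1 * Complex.I))))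
        (t : ℂ) := by
      have h1 := ((((hlin p t).const_mul b).const_add a).add ((hlin (-p) t).const_mul b'))
      exact (h1.add ((hlin q t).const_mul e)).add ((hlin (-q) t).const_mul e')
    have hmin2 : IsLocalMin (fun s : ℝ => (E s).re) t := by
      refine Filter.Eventually.of_forall fun s => ?_
      show (E t).re ≤ (E s).re
      rw [hE, hE]
      exact hmin' _ (Complex.norm_exp_ofReal_mul_I s)
    have h0' := hmin2.hasDerivAt_eq_zero hderiv.real_of_complex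
    rw [Complex.exp_int_mul, Complex.exp_int_mul, Complex.exp_int_mul, Complex.exp_int_mul] at h0'
    obtain ⟨ζ, hζd⟩ : ∃ ζ, ζ = Complex.exp (t * Complex.I) := ⟨_, rfl⟩
    rw [← hζd] at h0' hζ ⊢
    have h2 : (Complex.I * (p * b * ζ ^ p - p * b' * ζ ^ (-p) + q * e * ζ ^ q -
        q * e' * ζ ^ (-q))).re = 0 := by
      rw [← h0']
      congr 1
      push_cast
      ring
    have h3 : starRingEnd ℂ (p * b * ζ ^ p - p * b' * ζ ^ (-p) + q * e * ζ ^ q -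
        q * e' * ζ ^ (-q)) = -(p * b * ζ ^ p - p * b' * ζ ^ (-p) + q * e * ζ ^ q -
        q * e' * ζ ^ (-q)) := by
      simp only [map_add, map_sub, map_mul, mv_conj_zpow hζ, hb, hb', he, he', neg_neg,
        map_intCast]
      ring
    rw [Complex.I_mul_re, neg_eq_zero] at h2
    have h4 := congrArg Complex.re h3
    rw [Complex.conj_re, Complex.neg_re] at h4
    apply Complex.ext
    · rw [Complex.zero_re]
      linarith
    · rw [Complex.zero_im]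
      exact h2

/-- polynomial with at most five terms -/
private noncomputable def V5 {R : Type} [CommRing R] (w0 w1 w2 w3 w4 : R) (k0 k1 k2 k3 k4 : ℕ) :
    R[X] :=
  C w0 * X ^ k0 + C w1 * X ^ k1 + C w2 * X ^ k2 + C w3 * X ^ k3 + C w4 * X ^ k4

private theorem V5_coeff {R : Type} [CommRing R] (w0 w1 w2 w3 w4 : R) (k0 k1 k2 k3 k4 k : ℕ) :
    (V5 w0 w1 w2 w3 w4 k0 k1 k2 k3 k4).coeff k = (if k = k0 then w0 else 0) +
      (if k = k1 then w1 else 0) + (if k = k2 then w2 else 0) + (if k = k3 then w3 else 0) +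
      (if k = k4 then w4 else 0) := by
  unfold V5
  rw [coeff_add, coeff_add, coeff_add, coeff_add, coeff_C_mul_X_pow, coeff_C_mul_X_pow,
    coeff_C_mul_X_pow, coeff_C_mul_X_pow, coeff_C_mul_X_pow]

private theorem V5_deg {R : Type} [CommRing R] (w0 w1 w2 w3 w4 : R) {k0 k1 k2 k3 k4 m : ℕ}
    (h0 : k0 ≤ m) (h1 : k1 ≤ m) (h2 : k2 ≤ m) (h3 : k3 ≤ m) (h4 : k4 ≤ m) :
    (V5 w0 w1 w2 w3 w4 k0 k1 k2 k3 k4).natDegree ≤ m := by
  unfold V5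
  refine natDegree_add_le_of_degree_le (natDegree_add_le_of_degree_le
    (natDegree_add_le_of_degree_le (natDegree_add_le_of_degree_le ?_ ?_) ?_) ?_) ?_
  · exact (natDegree_C_mul_X_pow_le _ _).trans h0
  · exact (natDegree_C_mul_X_pow_le _ _).trans h1
  · exact (natDegree_C_mul_X_pow_le _ _).trans h2
  · exact (natDegree_C_mul_X_pow_le _ _).trans h3
  · exact (natDegree_C_mul_X_pow_le _ _).trans h4

private theorem V5_map {R S : Type} [CommRing R] [CommRing S] (f : R →+* S)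
    (w0 w1 w2 w3 w4 : R) (k0 k1 k2 k3 k4 : ℕ) :
    (V5 w0 w1 w2 w3 w4 k0 k1 k2 k3 k4).map f =
      V5 (f w0) (f w1) (f w2) (f w3) (f w4) k0 k1 k2 k3 k4 := by
  unfold V5
  simp only [Polynomial.map_add, Polynomial.map_mul, Polynomial.map_C, Polynomial.map_pow,
    Polynomial.map_X]

private theorem V5_eval {R : Type} [CommRing R] (w0 w1 w2 w3 w4 : R) (k0 k1 k2 k3 k4 : ℕ)
    (ζ : R) : (V5 w0 w1 w2 w3 w4 k0 k1 k2 k3 k4).eval ζ =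
      w0 * ζ ^ k0 + w1 * ζ ^ k1 + w2 * ζ ^ k2 + w3 * ζ ^ k3 + w4 * ζ ^ k4 := by
  unfold V5
  simp only [eval_add, eval_mul, eval_C, eval_pow, eval_X]

private theorem ite_bd {P : Prop} [Decidable P] {d : ℕ} (μ : Fin d → ℂ)
    (w : MvPolynomial (Fin d) ℤ) {M : ℝ} (hM : 0 ≤ M) (hw : ‖MvPolynomial.aeval μ w‖ ≤ M) :
    ‖MvPolynomial.aeval μ (if P then w else 0)‖ ≤ M := by
  split_ifs
  · exact hw
  · rw [map_zero, norm_zero]
    exact hM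

private theorem V5_bd {d : ℕ} (μ : Fin d → ℂ) (w0 w1 w2 w3 w4 : MvPolynomial (Fin d) ℤ)
    (k0 k1 k2 k3 k4 k : ℕ) {M : ℝ} (hM : 0 ≤ M) (h0 : ‖MvPolynomial.aeval μ w0‖ ≤ M)
    (h1 : ‖MvPolynomial.aeval μ w1‖ ≤ M) (h2 : ‖MvPolynomial.aeval μ w2‖ ≤ M)
    (h3 : ‖MvPolynomial.aeval μ w3‖ ≤ M) (h4 : ‖MvPolynomial.aeval μ w4‖ ≤ M) :
    ‖MvPolynomial.aeval μ ((V5 w0 w1 w2 w3 w4 k0 k1 k2 k3 k4).coeff k)‖ ≤ 5 * M := by
  rw [V5_coeff, map_add, map_add, map_add, map_add]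
  have g0 := ite_bd (P := k = k0) μ w0 hM h0
  have g1 := ite_bd (P := k = k1) μ w1 hM h1
  have g2 := ite_bd (P := k = k2) μ w2 hM h2
  have g3 := ite_bd (P := k = k3) μ w3 hM h3
  have g4 := ite_bd (P := k = k4) μ w4 hM h4
  refine (norm_add_le _ _).trans ?_
  refine (add_le_add_left (norm_add_le _ _) _).trans ?_
  refine (add_le_add_left (add_le_add_left (norm_add_le _ _) _) _).trans ?_
  refine (add_le_add_left (add_le_add_left (add_le_add_left (norm_add_le _ _) _) _) _).trans ?_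
  linarith

/-- `Δ` times a coefficient, as a polynomial -/
private noncomputable def WW {d : ℕ} (x : ℕ → ℤ) (J : Finset (Fin d)) (i j1 j2 j3 j4 : Fin d) :
    MvPolynomial (Fin d) ℤ :=
  YP x J i * (QP J j1 * (QP J j2 * (QP J j3 * QP J j4)))

private theorem WW_aeval {d T : ℕ} (D : Dat d T) (J : Finset (Fin d)) (i j1 j2 j3 j4 : Fin d) :
    MvPolynomial.aeval D.lam (WW D.x J i j1 j2 j3 j4) =
      D.Y J i * (D.Q J j1 * (D.Q J j2 * (D.Q J j3 * D.Q J j4))) := by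
  unfold WW
  rw [map_mul, map_mul, map_mul, map_mul, aeval_YP, aeval_QP, aeval_QP, aeval_QP, aeval_QP]
  rfl

private theorem WW_bd {d cY cQ T : ℕ} {x : ℕ → ℤ} {J : Finset (Fin d)}
    (hY : ∀ i, Bd (YP x J i) T ((T : ℝ) ^ cY)) (hQ : ∀ i, Bd (QP J i) T ((T : ℝ) ^ cQ))
    (i j1 j2 j3 j4 : Fin d) : Bd (WW x J i j1 j2 j3 j4) T ((T : ℝ) ^ (cY + 4 * cQ)) := by
  have hT0 : (0 : ℝ) ≤ (T : ℝ) := Nat.cast_nonneg T
  have h1 := Bd_mul (pow_nonneg hT0 _) (hY i) (Bd_mul (pow_nonneg hT0 _) (hQ j1)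
    (Bd_mul (pow_nonneg hT0 _) (hQ j2) (Bd_mul (pow_nonneg hT0 _) (hQ j3) (hQ j4))))
  have h2 : (T : ℝ) ^ cY * ((T : ℝ) ^ cQ * ((T : ℝ) ^ cQ * ((T : ℝ) ^ cQ * (T : ℝ) ^ cQ))) =
      (T : ℝ) ^ (cY + 4 * cQ) := by ring
  rw [h2] at h1
  exact h1

/-- the final numerical estimate -/
private theorem mv_final {T h c1 cL cQ : ℕ} (hT : (2 : ℝ) ≤ T) {δ g : ℝ} (hδ : 0 ≤ δ)
    (hδT : δ ≤ (T : ℝ) ^ (5 * cQ)) (hg : 0 ≤ g)
    (hL : 1 ≤ (2 * (5 * (((h : ℝ) + 1) * (T : ℝ) ^ c1))) ^ (cL * (2 * h) ^ 3) * (δ * g)) :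
    1 ≤ (((h : ℝ) + 1) * T) ^ (((c1 + 4) * 8 * cL + 5 * cQ) * (h + 1) ^ 3) * g := by
  have hh : (1 : ℝ) ≤ (h : ℝ) + 1 := by
    have : (0 : ℝ) ≤ h := Nat.cast_nonneg h
    linarith
  have hT0 : (0 : ℝ) < T := by linarith
  have hbase : 1 ≤ ((h : ℝ) + 1) * T := by nlinarith
  have hTb : (T : ℝ) ≤ ((h : ℝ) + 1) * T := by nlinarith
  have h10 : (10 : ℝ) ≤ (T : ℝ) ^ 4 := by
    have := pow_le_pow_left₀ (by norm_num : (0 : ℝ) ≤ 2) hT 4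
    linarith
  have e1 : 2 * (5 * (((h : ℝ) + 1) * (T : ℝ) ^ c1)) ≤ (((h : ℝ) + 1) * T) ^ (c1 + 4) := by
    calc 2 * (5 * (((h : ℝ) + 1) * (T : ℝ) ^ c1)) = 10 * (((h : ℝ) + 1) * (T : ℝ) ^ c1) := by ring
      _ ≤ (T : ℝ) ^ 4 * (((h : ℝ) + 1) * (T : ℝ) ^ c1) :=
          mul_le_mul_of_nonneg_right h10 (by positivity)
      _ = ((h : ℝ) + 1) * (T : ℝ) ^ (c1 + 4) := by ring
      _ ≤ ((h : ℝ) + 1) ^ (c1 + 4) * (T : ℝ) ^ (c1 + 4) := by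
          refine mul_le_mul_of_nonneg_right ?_ (by positivity)
          exact le_self_pow₀ hh (by omega)
      _ = (((h : ℝ) + 1) * T) ^ (c1 + 4) := by rw [mul_pow]
  have e2 : (2 * (5 * (((h : ℝ) + 1) * (T : ℝ) ^ c1))) ^ (cL * (2 * h) ^ 3) ≤
      (((h : ℝ) + 1) * T) ^ ((c1 + 4) * (cL * (2 * h) ^ 3)) := by
    rw [pow_mul (((h : ℝ) + 1) * T) (c1 + 4)]
    exact pow_le_pow_left₀ (by positivity) e1 _
  have e3 : δ ≤ (((h : ℝ) + 1) * T) ^ (5 * cQ) :=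
    hδT.trans (pow_le_pow_left₀ hT0.le hTb _)
  refine hL.trans ?_
  calc (2 * (5 * (((h : ℝ) + 1) * (T : ℝ) ^ c1))) ^ (cL * (2 * h) ^ 3) * (δ * g)
      ≤ (((h : ℝ) + 1) * T) ^ ((c1 + 4) * (cL * (2 * h) ^ 3)) *
          ((((h : ℝ) + 1) * T) ^ (5 * cQ) * g) := by
        refine mul_le_mul e2 (mul_le_mul_of_nonneg_right e3 hg) (mul_nonneg hδ hg) (by positivity)
    _ = (((h : ℝ) + 1) * T) ^ ((c1 + 4) * (cL * (2 * h) ^ 3) + 5 * cQ) * g := by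
        rw [pow_add]; ring
    _ ≤ (((h : ℝ) + 1) * T) ^ (((c1 + 4) * 8 * cL + 5 * cQ) * (h + 1) ^ 3) * g := by
        refine mul_le_mul_of_nonneg_right (pow_le_pow_right₀ hbase ?_) hg
        have f1 : h ^ 3 ≤ (h + 1) ^ 3 := Nat.pow_le_pow_left (by omega) 3
        have f2 : 1 ≤ (h + 1) ^ 3 := Nat.one_le_pow _ _ (by omega)
        calc (c1 + 4) * (cL * (2 * h) ^ 3) + 5 * cQ = (c1 + 4) * 8 * cL * h ^ 3 + 5 * cQ * 1 := by
              ring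
          _ ≤ (c1 + 4) * 8 * cL * (h + 1) ^ 3 + 5 * cQ * (h + 1) ^ 3 :=
              add_le_add (Nat.mul_le_mul_left _ f1) (Nat.mul_le_mul_left _ f2)
          _ = ((c1 + 4) * 8 * cL + 5 * cQ) * (h + 1) ^ 3 := by ring

theorem min_val (d : ℕ) :
    ∃ c : ℕ, ∀ (T : ℕ) (D : Dat d T) (J : Finset (Fin d)), D.IsMin J →
      ∀ i0 i1 i2 i3 i4 : Fin d, (∀ i ∈ ({i0, i1, i2, i3, i4} : Finset (Fin d)), i ∈ J ∧
        D.Q J i ≠ 0) →
      starRingEnd ℂ (D.Y J i0 / D.Q J i0) = D.Y J i0 / D.Q J i0 →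
      starRingEnd ℂ (D.Y J i1 / D.Q J i1) = D.Y J i2 / D.Q J i2 →
      starRingEnd ℂ (D.Y J i3 / D.Q J i3) = D.Y J i4 / D.Q J i4 →
      ∀ (p q : ℤ) (h : ℕ), p ≠ 0 → q ≠ 0 → |p| ≠ |q| → |p| ≤ h → |q| ≤ h →
      ∀ ζ0 : ℂ, ‖ζ0‖ = 1 →
      (trig (D.Y J i0 / D.Q J i0) (D.Y J i1 / D.Q J i1) (D.Y J i2 / D.Q J i2)
        (D.Y J i3 / D.Q J i3) (D.Y J i4 / D.Q J i4) p q ζ0).re < 0 →
      ∃ ζ : ℂ, ‖ζ‖ = 1 ∧ 1 ≤ (((h : ℝ) + 1) * T) ^ (c * (h + 1) ^ 3) *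
        (-(trig (D.Y J i0 / D.Q J i0) (D.Y J i1 / D.Q J i1) (D.Y J i2 / D.Q J i2)
          (D.Y J i3 / D.Q J i3) (D.Y J i4 / D.Q J i4) p q ζ).re) := by
  obtain ⟨cY, hcY⟩ := YP_bd d
  obtain ⟨cQ, hcQ⟩ := QP_bd d
  obtain ⟨cB, hcB⟩ := Y_bounds d
  obtain ⟨cL, hcL⟩ := liouville_ext d
  refine ⟨((cY + 4 * cQ) + 4) * 8 * cL + 5 * cQ, ?_⟩
  intro T D J hJ i0 i1 i2 i3 i4 hi h0 h1 h2 p q h hp hq hpq hph hqh ζ0 hζ0 hneg
  obtain ⟨ζ, hζ, hre, him, hG⟩ := mv_crit _ _ _ _ _ p q h0 h1 h2 hζ0 hneg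
  refine ⟨ζ, hζ, ?_⟩
  have hT : (2 : ℝ) ≤ T := by exact_mod_cast D.two_le
  have hT0 : (0 : ℝ) < T := by linarith
  have hq0 := (hi i0 (by simp)).2
  have hq1 := (hi i1 (by simp)).2
  have hq2 := (hi i2 (by simp)).2
  have hq3 := (hi i3 (by simp)).2
  have hq4 := (hi i4 (by simp)).2
  have hy1 : D.Y J i1 ≠ 0 := by
    intro h3
    have h4 := (hcB T D J hJ i1 (hi i1 (by simp)).1).2
    rw [h3, norm_zero, mul_zero] at h4
    linarith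
  have hζ1 : ζ ≠ 0 := by
    rintro rfl
    rw [norm_zero] at hζ
    exact zero_ne_one hζ
  have hbdW := WW_bd (J := J) (x := D.x) (fun i => hcY T D.two_le D.x D.x_le J i)
    (fun i => hcQ T D.two_le J i)
  -- exponents
  obtain ⟨k1, hk1⟩ : ∃ k : ℕ, (k : ℤ) = h + p := ⟨(h + p).toNat, Int.toNat_of_nonneg (by
    have := abs_le.1 hph; omega)⟩
  obtain ⟨k2, hk2⟩ : ∃ k : ℕ, (k : ℤ) = h + -p := ⟨(h + -p).toNat, Int.toNat_of_nonneg (by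
    have := abs_le.1 hph; omega)⟩
  obtain ⟨k3, hk3⟩ : ∃ k : ℕ, (k : ℤ) = h + q := ⟨(h + q).toNat, Int.toNat_of_nonneg (by
    have := abs_le.1 hqh; omega)⟩
  obtain ⟨k4, hk4⟩ : ∃ k : ℕ, (k : ℤ) = h + -q := ⟨(h + -q).toNat, Int.toNat_of_nonneg (by
    have := abs_le.1 hqh; omega)⟩
  have hpow : ∀ (k : ℕ) (n : ℤ), (k : ℤ) = h + n → ζ ^ k = ζ ^ h * ζ ^ n := by
    intro k n hk
    rw [← zpow_natCast, hk, zpow_add₀ hζ1, zpow_natCast]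
  have hph' := abs_le.1 hph
  have hqh' := abs_le.1 hqh
  have hpq1 : p ≠ q := fun h3 => hpq (by rw [h3])
  have hpq2 : p ≠ -q := fun h3 => hpq (by rw [h3, abs_neg])
  have hh1 : 1 ≤ h := by
    have h3 : 0 < |p| := abs_pos.2 hp
    omega
  -- the numbers
  obtain ⟨Δ, hΔ⟩ : ∃ Δ, Δ = D.Q J i0 * D.Q J i1 * D.Q J i2 * D.Q J i3 * D.Q J i4 := ⟨_, rfl⟩
  have hΔ0 : Δ ≠ 0 := by
    rw [hΔ]
    exact mul_ne_zero (mul_ne_zero (mul_ne_zero (mul_ne_zero hq0 hq1) hq2) hq3) hq4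
  have aW0 : MvPolynomial.aeval D.lam (WW D.x J i0 i1 i2 i3 i4) =
      Δ * (D.Y J i0 / D.Q J i0) := by
    rw [WW_aeval, hΔ]
    field_simp
  have aW1 : MvPolynomial.aeval D.lam (WW D.x J i1 i0 i2 i3 i4) =
      Δ * (D.Y J i1 / D.Q J i1) := by
    rw [WW_aeval, hΔ]
    field_simp
  have aW2 : MvPolynomial.aeval D.lam (WW D.x J i2 i0 i1 i3 i4) =
      Δ * (D.Y J i2 / D.Q J i2) := by
    rw [WW_aeval, hΔ]
    field_simp
  have aW3 : MvPolynomial.aeval D.lam (WW D.x J i3 i0 i1 i2 i4) =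
      Δ * (D.Y J i3 / D.Q J i3) := by
    rw [WW_aeval, hΔ]
    field_simp
  have aW4 : MvPolynomial.aeval D.lam (WW D.x J i4 i0 i1 i2 i3) =
      Δ * (D.Y J i4 / D.Q J i4) := by
    rw [WW_aeval, hΔ]
    field_simp
  have ha1 : D.Y J i1 / D.Q J i1 ≠ 0 := div_ne_zero hy1 hq1
  obtain ⟨W0, hW0⟩ : ∃ W, W = WW D.x J i0 i1 i2 i3 i4 := ⟨_, rfl⟩
  obtain ⟨W1, hW1⟩ : ∃ W, W = WW D.x J i1 i0 i2 i3 i4 := ⟨_, rfl⟩
  obtain ⟨W2, hW2⟩ : ∃ W, W = WW D.x J i2 i0 i1 i3 i4 := ⟨_, rfl⟩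
  obtain ⟨W3, hW3⟩ : ∃ W, W = WW D.x J i3 i0 i1 i2 i4 := ⟨_, rfl⟩
  obtain ⟨W4, hW4⟩ : ∃ W, W = WW D.x J i4 i0 i1 i2 i3 := ⟨_, rfl⟩
  have bW0 := hbdW i0 i1 i2 i3 i4
  have bW1 := hbdW i1 i0 i2 i3 i4
  have bW2 := hbdW i2 i0 i1 i3 i4
  have bW3 := hbdW i3 i0 i1 i2 i4
  have bW4 := hbdW i4 i0 i1 i2 i3
  rw [← hW0] at aW0 bW0
  rw [← hW1] at aW1 bW1
  rw [← hW2] at aW2 bW2
  rw [← hW3] at aW3 bW3
  rw [← hW4] at aW4 bW4
  obtain ⟨a0, ha0⟩ : ∃ a, a = D.Y J i0 / D.Q J i0 := ⟨_, rfl⟩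
  obtain ⟨a1, ha1'⟩ : ∃ a, a = D.Y J i1 / D.Q J i1 := ⟨_, rfl⟩
  obtain ⟨a2, ha2⟩ : ∃ a, a = D.Y J i2 / D.Q J i2 := ⟨_, rfl⟩
  obtain ⟨a3, ha3⟩ : ∃ a, a = D.Y J i3 / D.Q J i3 := ⟨_, rfl⟩
  obtain ⟨a4, ha4⟩ : ∃ a, a = D.Y J i4 / D.Q J i4 := ⟨_, rfl⟩
  rw [← ha0] at aW0
  rw [← ha1'] at aW1 ha1
  rw [← ha2] at aW2
  rw [← ha3] at aW3
  rw [← ha4] at aW4
  rw [← ha0, ← ha1', ← ha2, ← ha3, ← ha4] at hre him
  rw [← ha0, ← ha1', ← ha2, ← ha3, ← ha4]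
  rw [← ha1', ← ha2, ← ha3, ← ha4] at hG
  -- the two polynomials
  have hM1 : (T : ℝ) ^ (cY + 4 * cQ) ≤ ((h : ℝ) + 1) * (T : ℝ) ^ (cY + 4 * cQ) := by
    have h3 : (1 : ℝ) ≤ (h : ℝ) + 1 := by
      have : (0 : ℝ) ≤ h := Nat.cast_nonneg h
      linarith
    exact le_mul_of_one_le_left (by positivity) h3
  have hM0 : 0 ≤ ((h : ℝ) + 1) * (T : ℝ) ^ (cY + 4 * cQ) := by positivity
  have hsc : ∀ (n : ℤ) (W : MvPolynomial (Fin d) ℤ) (μ : Fin d → ℂ), |n| ≤ h →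
      ‖MvPolynomial.aeval μ W‖ ≤ (T : ℝ) ^ (cY + 4 * cQ) →
      ‖MvPolynomial.aeval μ ((n : MvPolynomial (Fin d) ℤ) * W)‖ ≤
        ((h : ℝ) + 1) * (T : ℝ) ^ (cY + 4 * cQ) := by
    intro n W μ hn hW
    rw [map_mul, map_intCast, norm_mul, Complex.norm_intCast]
    have h3 : |(n : ℝ)| ≤ (h : ℝ) + 1 := by
      have h4 : |(n : ℝ)| ≤ (h : ℝ) := by exact_mod_cast hn
      linarith
    exact mul_le_mul h3 hW (norm_nonneg _) (by positivity)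
  have hμ : ∀ (σ : Equiv.Perm (Fin d)) (i : Fin d), ‖D.lam (σ i)‖ ≤ (T : ℝ) :=
    fun σ i => D.lam_le (σ i)
  have hnp : |(-p)| ≤ (h : ℤ) := by rw [abs_neg]; exact hph
  have hnq : |(-q)| ≤ (h : ℤ) := by rw [abs_neg]; exact hqh
  have hVe : ((V5 W0 W1 W2 W3 W4 h k1 k2 k3 k4).map (MvPolynomial.aeval D.lam).toRingHom).eval ζ =
      Δ * ζ ^ h * trig a0 a1 a2 a3 a4 p q ζ := by
    rw [V5_map, V5_eval]
    show MvPolynomial.aeval D.lam W0 * ζ ^ h + MvPolynomial.aeval D.lam W1 * ζ ^ k1 +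
      MvPolynomial.aeval D.lam W2 * ζ ^ k2 + MvPolynomial.aeval D.lam W3 * ζ ^ k3 +
      MvPolynomial.aeval D.lam W4 * ζ ^ k4 = _
    rw [aW0, aW1, aW2, aW3, aW4, hpow k1 p hk1, hpow k2 (-p) hk2, hpow k3 q hk3,
      hpow k4 (-q) hk4]
    unfold trig
    ring
  have hQmap : (V5 (0 : MvPolynomial (Fin d) ℤ) ((p : MvPolynomial (Fin d) ℤ) * W1)
      (((-p : ℤ) : MvPolynomial (Fin d) ℤ) * W2) ((q : MvPolynomial (Fin d) ℤ) * W3)
      (((-q : ℤ) : MvPolynomial (Fin d) ℤ) * W4) h k1 k2 k3 k4).map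
        (MvPolynomial.aeval D.lam).toRingHom =
      V5 0 ((p : ℂ) * (Δ * a1)) (((-p : ℤ) : ℂ) * (Δ * a2)) ((q : ℂ) * (Δ * a3))
        (((-q : ℤ) : ℂ) * (Δ * a4)) h k1 k2 k3 k4 := by
    rw [V5_map, map_zero, map_mul, map_mul, map_mul, map_mul, map_intCast, map_intCast,
      map_intCast, map_intCast]
    show V5 0 ((p : ℂ) * MvPolynomial.aeval D.lam W1) (((-p : ℤ) : ℂ) *
      MvPolynomial.aeval D.lam W2) ((q : ℂ) * MvPolynomial.aeval D.lam W3) (((-q : ℤ) : ℂ) *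
      MvPolynomial.aeval D.lam W4) h k1 k2 k3 k4 = _
    rw [aW1, aW2, aW3, aW4]
  have hk12 : k1 ≠ k2 := by
    intro h3
    have h4 : (k1 : ℤ) = k2 := by rw [h3]
    omega
  have hk13 : k1 ≠ k3 := by
    intro h3
    have h4 : (k1 : ℤ) = k3 := by rw [h3]
    omega
  have hk14 : k1 ≠ k4 := by
    intro h3
    have h4 : (k1 : ℤ) = k4 := by rw [h3]
    omega
  have htr : trig a0 a1 a2 a3 a4 p q ζ ≠ 0 := by
    intro h3
    rw [h3, Complex.zero_re] at hre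
    exact lt_irrefl _ hre
  have hL := hcL D.χ D.lam D.map_eq (2 * h) (by omega)
    (V5 (0 : MvPolynomial (Fin d) ℤ) ((p : MvPolynomial (Fin d) ℤ) * W1)
      (((-p : ℤ) : MvPolynomial (Fin d) ℤ) * W2) ((q : MvPolynomial (Fin d) ℤ) * W3)
      (((-q : ℤ) : MvPolynomial (Fin d) ℤ) * W4) h k1 k2 k3 k4)
    (V5 W0 W1 W2 W3 W4 h k1 k2 k3 k4)
    (V5_deg _ _ _ _ _ (by omega) (by omega) (by omega) (by omega) (by omega))
    (V5_deg _ _ _ _ _ (by omega) (by omega) (by omega) (by omega) (by omega))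
    (5 * (((h : ℝ) + 1) * (T : ℝ) ^ (cY + 4 * cQ)))
    (by
      have h3 : (1 : ℝ) ≤ (T : ℝ) ^ (cY + 4 * cQ) := one_le_pow₀ (by linarith)
      linarith)
    (fun σ k => ⟨V5_bd _ _ _ _ _ _ h k1 k2 k3 k4 k hM0
        (by rw [map_zero, norm_zero]; exact hM0)
        (hsc p W1 _ hph (bW1 _ (hμ σ))) (hsc (-p) W2 _ hnp (bW2 _ (hμ σ)))
        (hsc q W3 _ hqh (bW3 _ (hμ σ))) (hsc (-q) W4 _ hnq (bW4 _ (hμ σ))),
      V5_bd _ _ _ _ _ _ h k1 k2 k3 k4 k hM0 ((bW0 _ (hμ σ)).trans hM1)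
        ((bW1 _ (hμ σ)).trans hM1) ((bW2 _ (hμ σ)).trans hM1)
        ((bW3 _ (hμ σ)).trans hM1) ((bW4 _ (hμ σ)).trans hM1)⟩)
    ζ ?_ ?_ ?_
  · rw [hVe, norm_mul, norm_mul, norm_pow, hζ, one_pow, mul_one] at hL
    have htn : ‖trig a0 a1 a2 a3 a4 p q ζ‖ = -(trig a0 a1 a2 a3 a4 p q ζ).re := by
      have h3 : trig a0 a1 a2 a3 a4 p q ζ = (((trig a0 a1 a2 a3 a4 p q ζ).re : ℝ) : ℂ) := by
        apply Complex.ext
        · rw [Complex.ofReal_re]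
        · rw [Complex.ofReal_im, him]
      rw [h3, Complex.norm_real, Complex.ofReal_re, Real.norm_eq_abs, abs_of_neg hre]
    rw [htn] at hL
    have hΔT : ‖Δ‖ ≤ (T : ℝ) ^ (5 * cQ) := by
      have h3 : ∀ i, ‖D.Q J i‖ ≤ (T : ℝ) ^ cQ := by
        intro i
        have h4 := hcQ T D.two_le J i D.lam D.lam_le
        rw [aeval_QP] at h4
        exact h4
      rw [hΔ, norm_mul, norm_mul, norm_mul, norm_mul]
      have h5 : (T : ℝ) ^ (5 * cQ) = (T : ℝ) ^ cQ * (T : ℝ) ^ cQ * (T : ℝ) ^ cQ *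
          (T : ℝ) ^ cQ * (T : ℝ) ^ cQ := by ring
      rw [h5]
      gcongr
      · exact h3 i0
      · exact h3 i1
      · exact h3 i2
      · exact h3 i3
      · exact h3 i4
    exact mv_final hT (norm_nonneg Δ) hΔT (by linarith) hL
  · rw [hQmap]
    intro h3
    have h4 := congrArg (fun P : ℂ[X] => P.coeff k1) h3
    simp only [coeff_zero] at h4
    rw [V5_coeff, if_pos rfl, if_neg hk12, if_neg hk13, if_neg hk14, ite_self, zero_add,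
      add_zero, add_zero, add_zero] at h4
    exact mul_ne_zero (Int.cast_ne_zero.2 hp) (mul_ne_zero hΔ0 ha1) h4
  · rw [hQmap, V5_eval, hpow k1 p hk1, hpow k2 (-p) hk2, hpow k3 q hk3, hpow k4 (-q) hk4]
    have h3 : (0 : ℂ) * ζ ^ h + (p : ℂ) * (Δ * a1) * (ζ ^ h * ζ ^ p) +
        ((-p : ℤ) : ℂ) * (Δ * a2) * (ζ ^ h * ζ ^ (-p)) + (q : ℂ) * (Δ * a3) * (ζ ^ h * ζ ^ q) +
        ((-q : ℤ) : ℂ) * (Δ * a4) * (ζ ^ h * ζ ^ (-q)) =
        Δ * ζ ^ h * (p * a1 * ζ ^ p - p * a2 * ζ ^ (-p) + q * a3 * ζ ^ q -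
          q * a4 * ζ ^ (-q)) := by
      push_cast
      ring
    rw [h3, hG, mul_zero]
  · rw [hVe]
    exact mul_ne_zero (mul_ne_zero hΔ0 (pow_ne_zero _ hζ1)) htr

end Pool.Agent.Helper73.DM
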