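import Pool.Agent.Helper73.DM.ExpPoly

/-!
# DM-15: only the positive root on the circle

Proof. `χ = (X - C ρ)^m * h` with `m = count ρ χ.roots` and `h` monic, all roots of `h` have norm `< ρ` (they are roots of `χ` different from `ρ`, `honly`). `split_dom`: `‖f n - ρ^n Q(n)‖ ≤ B t^n`, `t < ρ`.
`Q ≠ 0` by `hgrow`. `act_bound_lt` for `G1` and `dif f P r` (radius `ρ^P`): `‖dif f P r n‖ ≤ B' s^n`, `0 < s < ρ^P`; put `s = t'^P`, `0 < t' < ρ`, `t'' = max t t' < ρ`. With `N = P (n+1) + r`: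
`dif f P r n = ρ^N (ρ Q(N+1) - Q(N)) + O(t''^N)`, so `‖ρ^N T(N)‖ ≤ B'' t''^N` for `T = ρ • Q.comp (X + 1) - Q` at all `N = P n + (P + r)`. `poly_zero_of_small`: `T = 0`. The coefficient of `T` at
`natDegree Q` is `(ρ - 1) * leadingCoeff Q` (`Polynomial.leadingCoeff_comp`, `natDegree_comp`), so `ρ = 1`.
-/

set_option autoImplicit false

open Polynomial

namespace Pool.Agent.Helper73.DM

theorem only_rho (f : ℕ → ℂ) (χ : ℂ[X]) (hχ : χ.Monic) (hf : act χ f = 0) (ρ : ℝ) (hρ : 0 < ρ)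
    (hle : ∀ z ∈ χ.roots, ‖z‖ ≤ ρ) (honly : ∀ z ∈ χ.roots, ‖z‖ = ρ → z = (ρ : ℂ))
    (hgrow : ∀ t B : ℝ, 0 < t → t < ρ → ¬ ∀ n : ℕ, ‖f n‖ ≤ B * t ^ n)
    (P r : ℕ) (hP : 0 < P) (G1 : ℂ[X]) (hG : G1.Monic) (hG1 : ∀ z ∈ G1.roots, ‖z‖ < ρ ^ P)
    (h : act G1 (dif f P r) = 0) : ρ = 1 := by
  -- factorization
  obtain ⟨q, hq, hqn⟩ := exists_eq_pow_rootMultiplicity_mul_and_not_dvd χ hχ.ne_zero (ρ : ℂ)
  have hqm : q.Monic := by
    refine Monic.of_mul_monic_left ((monic_X_sub_C (ρ : ℂ)).pow (χ.rootMultiplicity (ρ : ℂ))) ?_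
    rw [← hq]
    exact hχ
  have hqr : ∀ z ∈ q.roots, ‖z‖ < ρ := by
    intro z hz
    rw [mem_roots hqm.ne_zero] at hz
    have h1 : z ∈ χ.roots := by
      rw [mem_roots hχ.ne_zero, hq]
      exact root_mul_left_of_isRoot _ hz
    refine lt_of_le_of_ne (hle z h1) fun h2 => ?_
    have h3 := honly z h1 h2
    rw [h3] at hz
    exact hqn (dvd_iff_isRoot.2 hz)
  obtain ⟨Q, t, B, -, ht0, htρ, hB0, hQ⟩ := split_dom ρ hρ (χ.rootMultiplicity (ρ : ℂ)) q hqm hqr f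
    (by rw [← hq]; exact hf)
  have hQ0 : Q ≠ 0 := by
    rintro rfl
    apply hgrow t B ht0 htρ
    intro n
    have := hQ n
    simpa using this
  obtain ⟨s, B', hs0, hsρ, hB'0, hd⟩ := act_bound_lt G1 hG (ρ ^ P) (by positivity) hG1 _ h
  obtain ⟨t', ht'0, ht's, ht'ρ⟩ : ∃ t' : ℝ, 0 < t' ∧ t' ^ P = s ∧ t' < ρ := by
    refine ⟨s ^ ((P : ℝ)⁻¹), by positivity, Real.rpow_inv_natCast_pow hs0.le hP.ne', ?_⟩
    apply lt_of_pow_lt_pow_left₀ P hρ.le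
    rw [Real.rpow_inv_natCast_pow hs0.le hP.ne']
    exact hsρ
  obtain ⟨u, hu⟩ : ∃ u, u = max t t' := ⟨_, rfl⟩
  have hu0 : 0 < u := by rw [hu]; exact lt_max_of_lt_left ht0
  have huρ : u < ρ := by rw [hu]; exact max_lt htρ ht'ρ
  have htu : t ≤ u := by rw [hu]; exact le_max_left _ _
  have ht'u : t' ≤ u := by rw [hu]; exact le_max_right _ _
  have hT : C (ρ : ℂ) * Q.comp (X + C 1) - Q = 0 := by
    refine poly_zero_of_small _ P (P + r) hP ρ u (B' / t' ^ (P + r) + B * u + B) hu0 huρ ?_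
    intro n
    set N : ℕ := P * n + (P + r) with hN
    have hN2 : P * (n + 1) + r = N := by rw [hN]; ring
    have h1 : (ρ : ℂ) ^ N * (C (ρ : ℂ) * Q.comp (X + C 1) - Q).eval ((N : ℕ) : ℂ) =
        dif f P r n - (f (N + 1) - (ρ : ℂ) ^ (N + 1) * Q.eval ((N + 1 : ℕ) : ℂ)) +
          (f N - (ρ : ℂ) ^ N * Q.eval (N : ℂ)) := by
      unfold dif
      rw [hN2]
      simp only [eval_sub, eval_mul, eval_C, eval_comp, eval_add, eval_X]
      push_cast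
      ring
    rw [h1]
    have h2 := hd n
    have h3 := hQ (N + 1)
    have h4 := hQ N
    have h5 : s ^ n ≤ u ^ N / t' ^ (P + r) := by
      rw [← ht's, ← pow_mul, le_div_iff₀ (by positivity), ← pow_add, ← hN]
      exact pow_le_pow_left₀ ht'0.le ht'u N
    have h6 : t ^ (N + 1) ≤ u * u ^ N := by
      rw [← pow_succ']
      exact pow_le_pow_left₀ ht0.le htu _
    have h7 : t ^ N ≤ u ^ N := pow_le_pow_left₀ ht0.le htu _
    have h8 : B' * s ^ n ≤ B' * (u ^ N / t' ^ (P + r)) := mul_le_mul_of_nonneg_left h5 hB'0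
    have h9 : B * t ^ (N + 1) ≤ B * (u * u ^ N) := mul_le_mul_of_nonneg_left h6 hB0
    have h10 : B * t ^ N ≤ B * u ^ N := mul_le_mul_of_nonneg_left h7 hB0
    calc ‖dif f P r n - (f (N + 1) - (ρ : ℂ) ^ (N + 1) * Q.eval ((N + 1 : ℕ) : ℂ)) +
          (f N - (ρ : ℂ) ^ N * Q.eval (N : ℂ))‖
        ≤ ‖dif f P r n‖ + ‖f (N + 1) - (ρ : ℂ) ^ (N + 1) * Q.eval ((N + 1 : ℕ) : ℂ)‖ +
          ‖f N - (ρ : ℂ) ^ N * Q.eval (N : ℂ)‖ :=
          (norm_add_le _ _).trans (add_le_add (norm_sub_le _ _) le_rfl)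
      _ ≤ B' * (u ^ N / t' ^ (P + r)) + B * (u * u ^ N) + B * u ^ N := by
          linarith
      _ = (B' / t' ^ (P + r) + B * u + B) * u ^ N := by
          ring
  have h1 : C (ρ : ℂ) * Q.comp (X + C 1) = Q := sub_eq_zero.1 hT
  have h2 := congrArg leadingCoeff h1
  rw [leadingCoeff_mul, leadingCoeff_C, leadingCoeff_comp (by
    rw [natDegree_X_add_C]; exact one_ne_zero), leadingCoeff_X_add_C, one_pow, mul_one] at h2
  have h3 : Q.leadingCoeff ≠ 0 := leadingCoeff_ne_zero.2 hQ0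
  have h4 : (ρ : ℂ) = 1 := by
    have h5 : (ρ : ℂ) * Q.leadingCoeff = 1 * Q.leadingCoeff := by rw [h2, one_mul]
    exact mul_right_cancel₀ h3 h5
  exact_mod_cast h4

end Pool.Agent.Helper73.DM
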