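import Pool.Agent.Helper73.DM.Cyc
import Pool.Agent.Helper73.DM.Block

/-!
# DM-11: peripheral eigenvalues of nonnegative matrices are roots of unity times the spectral radius

Proof. `cp_univ`, `exists_block` with `T0 = univ` and `z0`: `T` with `sub M T` irreducible, `z0` a root of `cp M T = (cm (sub M T)).charpoly`, and `cp M T ∣ (cm M).charpoly`, so all roots of `cp M T` have
norm `≤ ρ`. `irr_root_pow` for `sub M T`: `z0^(card T)! = ρ^(card T)!`, and `(card T)!` divides `(card ι)!` divides `P`.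
-/

set_option autoImplicit false

open Polynomial

namespace Pool.Agent.Helper73.DM

theorem pf_root_pow {ι : Type*} [Fintype ι] [DecidableEq ι] (M : Matrix ι ι ℝ)
    (hM : ∀ i j, 0 ≤ M i j) (ρ : ℝ) (hρ : 0 < ρ)
    (hle : ∀ z ∈ (cm M).charpoly.roots, ‖z‖ ≤ ρ) (z0 : ℂ) (hz0 : z0 ∈ (cm M).charpoly.roots)
    (hn : ‖z0‖ = ρ) (P : ℕ) (hP : (Fintype.card ι).factorial ∣ P) :
    z0 ^ P = (ρ : ℂ) ^ P := by
  rw [← cp_univ] at hz0 hle
  obtain ⟨T, _, hI, hzT, hfac⟩ := exists_block M Finset.univ z0 hz0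
  have hne : cp M Finset.univ ≠ 0 := by
    rw [cp_univ]
    exact (Matrix.charpoly_monic _).ne_zero
  have hsub : ∀ z ∈ (cp M T).roots, ‖z‖ ≤ ρ := by
    intro z hz
    apply hle
    have hdvd : cp M T ∣ cp M Finset.univ := ⟨_, hfac⟩
    exact Multiset.mem_of_le (Polynomial.roots.le_of_dvd hne hdvd) hz
  have hpow : z0 ^ (Fintype.card T).factorial = (ρ : ℂ) ^ (Fintype.card T).factorial :=
    irr_root_pow (sub M T) (fun i j => hM _ _) hI ρ hρ hsub z0 hn hzT
  have hcard : (Fintype.card T).factorial ∣ P := by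
    refine dvd_trans (Nat.factorial_dvd_factorial ?_) hP
    rw [Fintype.card_coe]
    exact Finset.card_le_univ T
  obtain ⟨k, hk⟩ := hcard
  rw [hk, pow_mul, pow_mul, hpow]

end Pool.Agent.Helper73.DM
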