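import Pool.Agent.Helper73.DM.Res

/-!
# DM-06: the spectral radius of a nonnegative matrix is an eigenvalue

Proof. Let `N = cm M` and suppose that `ρ` is not a root of the characteristic polynomial: `det(ρ - N) ≠ 0`. Then `x ↦ (x - N)⁻¹ i j = det⁻¹ * adjugate` (`x` real) is continuous at
`x = ρ`, so there are `δ, B > 0` with `‖(x - N)⁻¹ i j‖ ≤ B` for all `i, j` and `ρ < x < ρ + δ`. Let `v ≠ 0`, `N v = z0 v` (`eig_iff`), `z0 = ρ u`, `‖u‖ = 1`, and `z = x u`,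
`ρ < x < ρ + δ`: `‖z‖ = x`. `(z - N) v = (z - z0) v`, and `z - N` is invertible (its determinant is the value at `z` of the characteristic polynomial, `‖z‖ > ρ`), so
`v = (z - z0) (z - N)⁻¹ v`, `‖v i‖ ≤ (x - ρ) ∑_j ‖(z - N)⁻¹ i j‖ ‖v j‖ ≤ (x - ρ) B card max ‖v‖` by `resolvent_le`. With `i` such that `‖v i‖` is the maximum `> 0` and
`x → ρ` a contradiction.
-/

set_option autoImplicit false

open Polynomial

namespace Pool.Agent.Helper73.DM

private theorem det_eq {ι : Type*} [Fintype ι] [DecidableEq ι] (N : Matrix ι ι ℂ) (z : ℂ) :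
    N.charpoly.eval z = (z • (1 : Matrix ι ι ℂ) - N).det := by
  rw [Matrix.eval_charpoly, Matrix.scalar_apply, ← Matrix.smul_one_eq_diagonal]

private theorem cont_inv {ι : Type*} [Fintype ι] [DecidableEq ι] (N : Matrix ι ι ℂ) (ρ : ℝ)
    (h : ((ρ : ℂ) • (1 : Matrix ι ι ℂ) - N).det ≠ 0) (i j : ι) :
    ContinuousAt (fun x : ℝ => ((x : ℂ) • (1 : Matrix ι ι ℂ) - N)⁻¹ i j) ρ := by
  have hA : Continuous (fun x : ℝ => (x : ℂ) • (1 : Matrix ι ι ℂ) - N) := by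
    refine Continuous.sub ?_ continuous_const
    exact Complex.continuous_ofReal.smul continuous_const
  have h1 : (fun x : ℝ => ((x : ℂ) • (1 : Matrix ι ι ℂ) - N)⁻¹ i j) =
      fun x : ℝ => (((x : ℂ) • (1 : Matrix ι ι ℂ) - N).det)⁻¹ *
        ((x : ℂ) • (1 : Matrix ι ι ℂ) - N).adjugate i j := by
    funext x
    rw [Matrix.inv_def, Ring.inverse_eq_inv', Matrix.smul_apply, smul_eq_mul]
  rw [h1]
  refine ContinuousAt.mul ?_ ?_
  · exact (hA.matrix_det).continuousAt.inv₀ h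
  · have h2 : Continuous (fun x : ℝ => ((x : ℂ) • (1 : Matrix ι ι ℂ) - N).adjugate) :=
      hA.matrix_adjugate
    exact ((continuous_apply_apply i j).comp h2).continuousAt

theorem pf_root {ι : Type*} [Fintype ι] [DecidableEq ι] (M : Matrix ι ι ℝ)
    (hM : ∀ i j, 0 ≤ M i j) (ρ : ℝ) (hρ : 0 < ρ)
    (hle : ∀ z ∈ (cm M).charpoly.roots, ‖z‖ ≤ ρ) (z0 : ℂ) (hz0 : z0 ∈ (cm M).charpoly.roots)
    (hn : ‖z0‖ = ρ) : (ρ : ℂ) ∈ (cm M).charpoly.roots := by
  by_contra hcon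
  have hne : (cm M).charpoly ≠ 0 := (Matrix.charpoly_monic (cm M)).ne_zero
  have hroot : ∀ z : ℂ, z ∉ (cm M).charpoly.roots →
      (z • (1 : Matrix ι ι ℂ) - cm M).det ≠ 0 := by
    intro z hz h0
    apply hz
    rw [mem_roots hne, IsRoot.def, det_eq, h0]
  obtain ⟨v, hv, hNv⟩ := (eig_iff (cm M) z0).1 hz0
  apply hv
  funext i
  have hρc : (ρ : ℂ) ≠ 0 := by exact_mod_cast hρ.ne'
  have key : ∀ x : ℝ, ρ < x → ‖v i‖ ≤ (x - ρ) *
      ∑ j, ‖((x : ℂ) • (1 : Matrix ι ι ℂ) - cm M)⁻¹ i j‖ * ‖v j‖ := by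
    intro x hx
    have hx0 : 0 < x := hρ.trans hx
    obtain ⟨z, hz⟩ : ∃ z : ℂ, z = (x : ℂ) * (z0 / (ρ : ℂ)) := ⟨_, rfl⟩
    have hu : ‖z0 / (ρ : ℂ)‖ = 1 := by
      rw [norm_div, hn, Complex.norm_real, Real.norm_eq_abs, abs_of_pos hρ, div_self hρ.ne']
    have hzn : ‖z‖ = x := by
      rw [hz, norm_mul, hu, Complex.norm_real, Real.norm_eq_abs, abs_of_pos hx0, mul_one]
    have hzz : ‖z - z0‖ = x - ρ := by
      have h1 : z - z0 = ((x - ρ : ℝ) : ℂ) * (z0 / (ρ : ℂ)) := by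
        rw [hz]
        push_cast
        field_simp
      rw [h1, norm_mul, hu, Complex.norm_real, Real.norm_eq_abs, abs_of_pos (sub_pos.2 hx),
        mul_one]
    have hdet : (z • (1 : Matrix ι ι ℂ) - cm M).det ≠ 0 := by
      refine hroot z fun h => ?_
      have := hle z h
      rw [hzn] at this
      linarith
    have hmv : (z • (1 : Matrix ι ι ℂ) - cm M).mulVec v = (z - z0) • v := by
      rw [Matrix.sub_mulVec, Matrix.smul_mulVec, Matrix.one_mulVec, hNv, sub_smul]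
    have hv2 : v = (z - z0) • ((z • (1 : Matrix ι ι ℂ) - cm M)⁻¹.mulVec v) := by
      rw [← Matrix.mulVec_smul, ← hmv, Matrix.mulVec_mulVec,
        Matrix.nonsing_inv_mul _ (isUnit_iff_ne_zero.2 hdet), Matrix.one_mulVec]
    have h3 : ‖v i‖ = (x - ρ) * ‖(z • (1 : Matrix ι ι ℂ) - cm M)⁻¹.mulVec v i‖ := by
      conv_lhs => rw [hv2]
      rw [Pi.smul_apply, smul_eq_mul, norm_mul, hzz]
    rw [h3]
    refine mul_le_mul_of_nonneg_left ?_ (sub_pos.2 hx).le
    refine (norm_sum_le _ _).trans (Finset.sum_le_sum fun j _ => ?_)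
    rw [norm_mul]
    refine mul_le_mul_of_nonneg_right ?_ (norm_nonneg _)
    have h4 := resolvent_le M hM ρ hρ hle z (by rw [hzn]; exact hx) i j
    rw [hzn] at h4
    exact h4
  have hlim : Filter.Tendsto (fun x : ℝ => (x - ρ) *
      ∑ j, ‖((x : ℂ) • (1 : Matrix ι ι ℂ) - cm M)⁻¹ i j‖ * ‖v j‖) (nhdsWithin ρ (Set.Ioi ρ))
      (nhds 0) := by
    have h5 : ContinuousAt (fun x : ℝ => (x - ρ) *
        ∑ j, ‖((x : ℂ) • (1 : Matrix ι ι ℂ) - cm M)⁻¹ i j‖ * ‖v j‖) ρ := by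
      refine ContinuousAt.mul (by fun_prop) ?_
      refine tendsto_finsetSum _ fun j _ => ?_
      exact ((cont_inv (cm M) ρ (hroot _ hcon) i j).norm).mul continuousAt_const
    have h6 := h5.tendsto.mono_left (nhdsWithin_le_nhds (s := Set.Ioi ρ))
    simpa using h6
  have h7 : ‖v i‖ ≤ 0 := by
    refine ge_of_tendsto hlim ?_
    filter_upwards [self_mem_nhdsWithin] with x hx
    exact key x hx
  simpa using h7

end Pool.Agent.Helper73.DM
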