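import Pool.Agent.Helper73.DM.IrrPos

/-!
# DM-08: phases of a peripheral eigenvector of an irreducible nonnegative matrix

Proof. `N = cm M`, `N x = z x`, `x ≠ 0` (`eig_iff`), `y i = ‖x i‖`. `ρ y i = ‖∑_j M i j x j‖ ≤ ∑_j M i j y j`, so `M y = ρ y` and `y > 0` by `irr_eigen`. `φ i = x i / y i`. For each `i`:
`∑_j M i j x j = z x i` has norm `∑_j M i j ‖x j‖`; equality in the triangle inequality: multiply by the conjugate of `z x i / ‖z x i‖ =: c` (norm one, `c = (z/ρ) φ i`): the real parts of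
`c̄ M i j x j` are `≤ M i j ‖x j‖` and their sum is the sum of the right sides, so each `M i j x j = M i j ‖x j‖ c`; if `M i j ≠ 0` then `φ j = c = (z/ρ) φ i`. Since
`(M y) i = ρ y i > 0` some `M i j ≠ 0`. `ρ` is an eigenvalue: `cm_mulVec`, `eig_iff` with `y`.
-/

set_option autoImplicit false

open Polynomial

namespace Pool.Agent.Helper73.DM

private theorem ph_eq {w : ℂ} {t : ℝ} (h1 : ‖w‖ = t) (h2 : w.re = t) : w = (t : ℂ) := by
  have h3 : ‖w‖ ^ 2 = w.re ^ 2 + w.im ^ 2 := by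
    rw [← Complex.normSq_eq_norm_sq, Complex.normSq_apply]
    ring
  rw [h1, h2] at h3
  have h4 : w.im = 0 := by
    have : w.im ^ 2 = 0 := by linarith
    exact pow_eq_zero_iff (two_ne_zero) |>.1 this
  apply Complex.ext
  · rw [h2, Complex.ofReal_re]
  · rw [h4, Complex.ofReal_im]

theorem irr_phase {ι : Type*} [Fintype ι] [DecidableEq ι] (M : Matrix ι ι ℝ)
    (hM : ∀ i j, 0 ≤ M i j) (hI : Irr M) (ρ : ℝ) (hρ : 0 < ρ)
    (hle : ∀ z ∈ (cm M).charpoly.roots, ‖z‖ ≤ ρ) (z : ℂ) (hz : ‖z‖ = ρ)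
    (hz0 : z ∈ (cm M).charpoly.roots) :
    (∃ φ : ι → ℂ, (∀ i, ‖φ i‖ = 1) ∧ ∀ i j, M i j ≠ 0 → φ j = z / ρ * φ i) ∧
      (∀ i, ∃ j, M i j ≠ 0) ∧ (ρ : ℂ) ∈ (cm M).charpoly.roots := by
  classical
  obtain ⟨x, hx0, hx⟩ := (eig_iff (cm M) z).1 hz0
  set y : ι → ℝ := fun i => ‖x i‖ with hy
  have hxi : ∀ i, ∑ j, (M i j : ℂ) * x j = z * x i := by
    intro i
    have h1 := congrFun hx i
    rw [Pi.smul_apply, smul_eq_mul] at h1
    rw [← h1]
    rfl
  have hynn : ∀ i, 0 ≤ y i := fun i => norm_nonneg _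
  have hy0 : y ≠ 0 := by
    intro h0
    apply hx0
    funext i
    have h1 := congrFun h0 i
    exact norm_eq_zero.1 h1
  have hMy : ∀ i, M.mulVec y i = ∑ j, M i j * y j := fun i => rfl
  have hsub : ∀ i, ρ * y i ≤ M.mulVec y i := by
    intro i
    have h1 : ρ * y i = ‖z * x i‖ := by rw [norm_mul, hz]
    rw [h1, ← hxi i, hMy]
    refine (norm_sum_le _ _).trans (le_of_eq (Finset.sum_congr rfl fun j _ => ?_))
    rw [norm_mul, Complex.norm_real, Real.norm_eq_abs, abs_of_nonneg (hM i j)]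
  obtain ⟨hev, hpos⟩ := irr_eigen M hM hI ρ hρ hle y hynn hy0 hsub
  have hev' : ∀ i, ∑ j, M i j * y j = ρ * y i := by
    intro i
    rw [← hMy, hev]
    rfl
  have hρ0 : (ρ : ℂ) ≠ 0 := by exact_mod_cast hρ.ne'
  have hyc : ∀ i, (y i : ℂ) ≠ 0 := fun i => by exact_mod_cast (hpos i).ne'
  have hφ : ∀ i, ‖x i / (y i : ℂ)‖ = 1 := by
    intro i
    rw [norm_div, Complex.norm_real, Real.norm_eq_abs, abs_of_pos (hpos i)]
    exact div_self (hpos i).ne'
  refine ⟨⟨fun i => x i / (y i : ℂ), hφ, fun i j hij => ?_⟩, fun i => ?_, ?_⟩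
  · set c : ℂ := z / ρ * (x i / (y i : ℂ)) with hc
    have hcn : ‖c‖ = 1 := by
      rw [hc, norm_mul, hφ i, mul_one, norm_div, hz, Complex.norm_real, Real.norm_eq_abs,
        abs_of_pos hρ]
      exact div_self hρ.ne'
    have hcc : c * (starRingEnd ℂ) c = 1 := by
      rw [Complex.mul_conj, Complex.normSq_eq_norm_sq, hcn]
      simp
    have e1 : z * x i = (ρ : ℂ) * (y i : ℂ) * c := by
      rw [hc]
      have := hyc i
      field_simp
    have e2 : ∑ k, (M i k : ℂ) * (x k * (starRingEnd ℂ) c) = ((ρ * y i : ℝ) : ℂ) := by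
      have e3 : ∑ k, (M i k : ℂ) * (x k * (starRingEnd ℂ) c) =
          (∑ k, (M i k : ℂ) * x k) * (starRingEnd ℂ) c := by
        rw [Finset.sum_mul]
        exact Finset.sum_congr rfl fun k _ => by ring
      rw [e3, hxi i, e1, mul_assoc ((ρ : ℂ) * (y i : ℂ)) c, hcc, mul_one]
      push_cast
      ring
    have e4 : ∑ k, M i k * (x k * (starRingEnd ℂ) c).re = ρ * y i := by
      have e5 := congrArg Complex.re e2
      rw [Complex.re_sum, Complex.ofReal_re] at e5
      rw [← e5]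
      refine Finset.sum_congr rfl fun k _ => ?_
      rw [Complex.re_ofReal_mul]
    have hnw : ∀ k, ‖x k * (starRingEnd ℂ) c‖ = y k := by
      intro k
      rw [norm_mul, RCLike.norm_conj, hcn, mul_one]
    have e6 : ∀ k, 0 ≤ M i k * (y k - (x k * (starRingEnd ℂ) c).re) := by
      intro k
      refine mul_nonneg (hM i k) (sub_nonneg.2 ?_)
      rw [← hnw k]
      exact Complex.re_le_norm _
    have e7 : ∑ k, M i k * (y k - (x k * (starRingEnd ℂ) c).re) = 0 := by
      have e8 : ∑ k, M i k * (y k - (x k * (starRingEnd ℂ) c).re) =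
          ∑ k, M i k * y k - ∑ k, M i k * (x k * (starRingEnd ℂ) c).re := by
        rw [← Finset.sum_sub_distrib]
        exact Finset.sum_congr rfl fun k _ => by ring
      rw [e8, hev' i, e4, sub_self]
    have e8 := (Finset.sum_eq_zero_iff_of_nonneg (fun k _ => e6 k)).1 e7 j (Finset.mem_univ j)
    rcases mul_eq_zero.1 e8 with h1 | h1
    · exact absurd h1 hij
    · have h2 : (x j * (starRingEnd ℂ) c).re = y j := by linarith
      have h3 := ph_eq (hnw j) h2
      have h4 : x j = (y j : ℂ) * c := by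
        rw [← h3, mul_assoc, mul_comm ((starRingEnd ℂ) c), hcc, mul_one]
      change x j / (y j : ℂ) = c
      rw [h4]
      have := hyc j
      field_simp
  · by_contra hcon
    push Not at hcon
    have h1 := hev' i
    rw [Finset.sum_eq_zero fun j _ => by rw [hcon j, zero_mul]] at h1
    have := mul_pos hρ (hpos i)
    linarith
  · rw [eig_iff]
    refine ⟨fun i => (y i : ℂ), ?_, ?_⟩
    · intro h0
      obtain ⟨i⟩ := hI.1
      exact hyc i (congrFun h0 i)
    · rw [cm_mulVec, hev]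
      funext i
      simp only [Pi.smul_apply, smul_eq_mul]
      push_cast
      rfl

end Pool.Agent.Helper73.DM
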