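import Pool.Agent.Helper73.DM.RepMult
import Pool.Agent.Helper73.DM.SumExp

/-!
# DM-B7: effective Pringsheim

`rep_mult`: `x n = ∑_z ∑_{j < mult z} β z j choose(n,j) z^n + w n`. Let `m` be the largest multiplicity of a circle root, attained at `z1 = λ_i`, and suppose that `mult ρ < m` (`mult ρ = 0` if `ρ` is not one of the roots). Let `x n ≥ 0` for `n < N`, `N ≤ T^c`. Consider `L = ∑_{n<N} x n z1^(-n)`, `R = ∑_{n<N} x n ρ^(-n)`:
`‖L‖ ≤ R` since `x n ≥ 0`, `‖z1‖ = ρ`. For circle roots `z ≠ z'`: `‖z/z' - 1‖ = ‖z - z'‖/ρ ≥ 1/T^c'` (`sep_bd`, also for `z' = ρ` as a number: if `ρ` is not a root, then `z ≠ ρ`; lower bound for `‖z - ρ‖`: `z` is not `ρ`; `‖z - ρ‖² = 2ρ² - 2ρ Re z`; use the conjugate root `z̄`: `(z - ρ)(z + ρ) = z² - z z̄ = z (z - z̄)`,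
nonzero if `z` is not real: `‖z - ρ‖ ≥ ‖z‖ ‖z - z̄‖/(2T)` and `sep_bd`; if `z` is real then `z = -ρ` and `‖z - ρ‖ = 2ρ`). By `sum_choose_pow` every term `z ≠ z1` contributes at most `T^c'' N^(m-1)` to `L`, the terms `j < m - 1` of `z1` at most `T^c'' N^(m-1)`, `w` at most `∑ ‖w n‖ρ^(-n) ≤ T^c''` (geometric series `∑ (1 + 1/T^c)^(-n) ≤ 1 + T^c`), and the top term
of `z1` contributes exactly `β choose(N,m)` (`Nat.sum_range_choose`-type identity `∑_{n<N} choose(n,j) = choose(N,j+1)`), of norm `≥ N^m/T^c''` (`choose_lower`). `R`: terms `z ≠ ρ` at most `T^c'' N^(m-1)`; terms of `ρ` have `j < mult ρ ≤ m - 1`, so `choose(N,j+1) ≤ N^(m-1)`; `w` as before (`N ≥ 1`). So `N^m ≤ T^c3 N^(m-1)`,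
`N ≤ T^c3`: false for `N = T^c`, `c = c3 + 1`. So `mult ρ ≥ mult (λ_i)` for all `i` on the circle; since the circle is nonempty (`Top`), `mult ρ ≥ 1`.
-/

set_option autoImplicit false

open Polynomial

namespace Pool.Agent.Helper73.DM

private theorem pr_sum_choose (j N : ℕ) :
    ∑ n ∈ Finset.range N, n.choose j = N.choose (j + 1) := by
  induction N with
  | zero => simp
  | succ N ih => rw [Finset.sum_range_succ, ih, Nat.choose_succ_succ, add_comm]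

private theorem pr_le_pow {T : ℝ} (hT : 2 ≤ T) (d : ℕ) : (d : ℝ) ≤ T ^ d := by
  have h4 : d ≤ 2 ^ d := Nat.lt_two_pow_self.le
  have h5 : (d : ℝ) ≤ (2 : ℝ) ^ d := by exact_mod_cast h4
  exact le_trans h5 (pow_le_pow_left₀ (by norm_num) hT d)

private theorem pr_mult_le {d T : ℕ} (D : Dat d T) (J : Finset (Fin d)) (z : ℂ) :
    D.mult J z ≤ d := by
  classical
  unfold Dat.mult
  refine (Finset.card_le_univ _).trans ?_
  rw [Fintype.card_fin]

private theorem pr_mult_pos {d T : ℕ} (D : Dat d T) (J : Finset (Fin d)) {z : ℂ} :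
    1 ≤ D.mult J z ↔ ∃ i ∈ J, D.lam i = z := by
  classical
  unfold Dat.mult
  rw [Nat.one_le_iff_ne_zero, Finset.card_ne_zero]
  constructor
  · rintro ⟨i, hi⟩
    rw [Finset.mem_filter] at hi
    exact ⟨i, hi.1, hi.2⟩
  · rintro ⟨i, hi, hz⟩
    exact ⟨i, Finset.mem_filter.2 ⟨hi, hz⟩⟩

private theorem pr_mem_circ {d T : ℕ} (D : Dat d T) (J : Finset (Fin d)) (ρ : ℝ) (i : Fin d) :
    i ∈ D.circ J ρ ↔ i ∈ J ∧ ‖D.lam i‖ = ρ := by
  classical
  unfold Dat.circ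
  rw [Finset.mem_filter]

private theorem pr_geom {T : ℝ} (hT : 2 ≤ T) (c1 N : ℕ) {ρ : ℝ} (hρ : 0 < ρ) (w : ℕ → ℂ)
    (hw : ∀ n : ℕ, ‖w n‖ * (1 + 1 / T ^ c1) ^ n ≤ T ^ c1 * ρ ^ n) (v : ℂ) (hv : ‖v‖ = ρ) :
    ‖∑ n ∈ Finset.range N, w n / v ^ n‖ ≤ T ^ (2 * c1 + 1) := by
  have hT0 : (0 : ℝ) < T := by linarith
  have hTc : (0 : ℝ) < T ^ c1 := pow_pos hT0 c1
  have hTc1 : (1 : ℝ) ≤ T ^ c1 := one_le_pow₀ (by linarith)
  obtain ⟨a, ha⟩ : ∃ a : ℝ, a = 1 + 1 / T ^ c1 := ⟨_, rfl⟩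
  rw [← ha] at hw
  have ha1 : 1 < a := by
    rw [ha]
    have : (0 : ℝ) < 1 / T ^ c1 := by positivity
    linarith
  have ha0 : 0 < a := by linarith
  have h1 : ∀ n ∈ Finset.range N, ‖w n / v ^ n‖ ≤ T ^ c1 * (a⁻¹) ^ n := by
    intro n _
    rw [norm_div, norm_pow, hv, div_le_iff₀ (pow_pos hρ n)]
    have h2 := hw n
    have h3 : ‖w n‖ = (‖w n‖ * a ^ n) * (a⁻¹) ^ n := by
      rw [mul_assoc, ← mul_pow, mul_inv_cancel₀ ha0.ne', one_pow, mul_one]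
    rw [h3]
    calc ‖w n‖ * a ^ n * a⁻¹ ^ n ≤ (T ^ c1 * ρ ^ n) * a⁻¹ ^ n :=
          mul_le_mul_of_nonneg_right h2 (by positivity)
      _ = T ^ c1 * a⁻¹ ^ n * ρ ^ n := by ring
  refine (norm_sum_le _ _).trans ((Finset.sum_le_sum h1).trans ?_)
  rw [← Finset.mul_sum]
  have hinv : a⁻¹ < 1 := inv_lt_one_of_one_lt₀ ha1
  have hinv0 : 0 ≤ a⁻¹ := by positivity
  have h2 : ∑ n ∈ Finset.range N, (a⁻¹) ^ n ≤ (1 - a⁻¹)⁻¹ := by
    rw [← tsum_geometric_of_lt_one hinv0 hinv]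
    exact (summable_geometric_of_lt_one hinv0 hinv).sum_le_tsum _ (fun n _ => pow_nonneg hinv0 n)
  have h3 : (1 - a⁻¹)⁻¹ = T ^ c1 + 1 := by
    rw [ha]
    have h4 : (1 : ℝ) + 1 / T ^ c1 ≠ 0 := by positivity
    field_simp
    ring
  rw [h3] at h2
  have h4 : T ^ c1 + 1 ≤ T ^ (c1 + 1) := by
    rw [pow_succ]
    nlinarith
  calc T ^ c1 * ∑ n ∈ Finset.range N, (a⁻¹) ^ n ≤ T ^ c1 * T ^ (c1 + 1) :=
        mul_le_mul_of_nonneg_left (h2.trans h4) hTc.le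
    _ = T ^ (2 * c1 + 1) := by
        rw [← pow_add]
        congr 1
        ring

private theorem pr_main {d T : ℕ} (D : Dat d T) (J : Finset (Fin d)) (ρ : ℝ)
    (β : ℂ → ℕ → ℂ) (w : ℕ → ℂ) (c1 s N m : ℕ) (hρ : 0 < ρ)
    (hβ : ∀ z j, ‖β z j‖ ≤ (T : ℝ) ^ c1)
    (hw : ∀ n : ℕ, ‖w n‖ * (1 + 1 / (T : ℝ) ^ c1) ^ n ≤ (T : ℝ) ^ c1 * ρ ^ n)
    (hrep : ∀ n : ℕ, D.xc n = (∑ z ∈ (D.circ J ρ).image D.lam, ∑ j ∈ Finset.range (D.mult J z),
          β z j * (n.choose j : ℂ) * z ^ n) + w n)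
    (hm : ∀ z ∈ (D.circ J ρ).image D.lam, D.mult J z ≤ m) (hm1 : 1 ≤ m) (hN : 1 ≤ N)
    (v : ℂ) (hv : ‖v‖ = ρ)
    (hsep : ∀ z ∈ (D.circ J ρ).image D.lam, z ≠ v → 1 ≤ (T : ℝ) ^ s * ‖z / v - 1‖) :
    ‖∑ n ∈ Finset.range N, D.xc n / v ^ n -
      ∑ j ∈ Finset.range (D.mult J v), β v j * (N.choose (j + 1) : ℂ)‖ ≤
      (T : ℝ) ^ (3 * c1 + 2 + (s + 4) * d) * (N : ℝ) ^ (m - 1) := by
  classical
  have hT : (2 : ℝ) ≤ T := by exact_mod_cast D.two_le
  have hT0 : (0 : ℝ) < T := by linarith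
  have hT1 : (1 : ℝ) ≤ T := by linarith
  have hN1 : (1 : ℝ) ≤ N := by exact_mod_cast hN
  have hv0 : v ≠ 0 := by
    intro h
    rw [h, norm_zero] at hv
    exact hρ.ne hv
  obtain ⟨Z, hZ⟩ : ∃ Z : Finset ℂ, Z = (D.circ J ρ).image D.lam := ⟨_, rfl⟩
  rw [← hZ] at hm hsep
  have hZn : ∀ z ∈ Z, ‖z‖ = ρ := by
    intro z hz
    rw [hZ, Finset.mem_image] at hz
    obtain ⟨i, hi, rfl⟩ := hz
    exact ((pr_mem_circ D J ρ i).1 hi).2
  have hZc : Z.card ≤ d := by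
    rw [hZ]
    refine Finset.card_image_le.trans ((Finset.card_le_univ _).trans ?_)
    rw [Fintype.card_fin]
  obtain ⟨G, hG⟩ : ∃ G : ℂ → ℂ, G = fun z => ∑ j ∈ Finset.range (D.mult J z),
      β z j * ∑ n ∈ Finset.range N, (n.choose j : ℂ) * (z / v) ^ n := ⟨_, rfl⟩
  have h1 : ∑ n ∈ Finset.range N, D.xc n / v ^ n =
      ∑ z ∈ Z, G z + ∑ n ∈ Finset.range N, w n / v ^ n := by
    have h2 : ∀ n ∈ Finset.range N, D.xc n / v ^ n =
        ∑ z ∈ Z, ∑ j ∈ Finset.range (D.mult J z), β z j * ((n.choose j : ℂ) * (z / v) ^ n) +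
          w n / v ^ n := by
      intro n _
      rw [hrep n, ← hZ, add_div, Finset.sum_div]
      congr 1
      refine Finset.sum_congr rfl fun z _ => ?_
      rw [Finset.sum_div]
      refine Finset.sum_congr rfl fun j _ => ?_
      rw [div_pow]
      ring
    rw [Finset.sum_congr rfl h2, Finset.sum_add_distrib]
    congr 1
    rw [Finset.sum_comm]
    refine Finset.sum_congr rfl fun z _ => ?_
    rw [hG, Finset.sum_comm]
    refine Finset.sum_congr rfl fun j _ => ?_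
    rw [Finset.mul_sum]
  have h3 : G v = ∑ j ∈ Finset.range (D.mult J v), β v j * (N.choose (j + 1) : ℂ) := by
    rw [hG]
    refine Finset.sum_congr rfl fun j _ => ?_
    congr 1
    rw [div_self hv0]
    have h4 := pr_sum_choose j N
    rw [← h4]
    push_cast
    refine Finset.sum_congr rfl fun n _ => ?_
    rw [one_pow, mul_one]
  have h5 : ∑ z ∈ Z, G z = G v + ∑ z ∈ Z.erase v, G z := by
    by_cases hvZ : v ∈ Z
    · exact (Finset.add_sum_erase Z G hvZ).symm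
    · have h6 : D.mult J v = 0 := by
        by_contra hne
        have h7 : 1 ≤ D.mult J v := by omega
        rw [pr_mult_pos] at h7
        obtain ⟨i, hi, hiv⟩ := h7
        apply hvZ
        rw [hZ, Finset.mem_image]
        exact ⟨i, (pr_mem_circ D J ρ i).2 ⟨hi, by rw [hiv, hv]⟩, hiv⟩
      have h8 : G v = 0 := by
        rw [h3, h6]
        simp
      rw [h8, zero_add, Finset.erase_eq_of_notMem hvZ]
  have hGz : ∀ z ∈ Z.erase v, ‖G z‖ ≤ (T : ℝ) ^ d *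
      ((T : ℝ) ^ c1 * ((T : ℝ) ^ d * (N : ℝ) ^ (m - 1) * (T : ℝ) ^ ((s + 1) * d))) := by
    intro z hz
    rw [Finset.mem_erase] at hz
    obtain ⟨hzv, hzZ⟩ := hz
    have hζ : ‖z / v‖ = 1 := by
      rw [norm_div, hZn z hzZ, hv, div_self hρ.ne']
    have hζ1 : z / v ≠ 1 := by
      intro h
      rw [div_eq_one_iff_eq hv0] at h
      exact hzv h
    have hsp := hsep z hzZ hzv
    have hpos : 0 < ‖z / v - 1‖ := norm_pos_iff.2 (sub_ne_zero.2 hζ1)
    have hfrac : 2 / ‖z / v - 1‖ ≤ (T : ℝ) ^ (s + 1) := by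
      rw [div_le_iff₀ hpos, pow_succ]
      nlinarith
    have hfrac0 : 0 ≤ 2 / ‖z / v - 1‖ := by positivity
    have hj : ∀ j ∈ Finset.range (D.mult J z), ‖β z j * ∑ n ∈ Finset.range N,
        (n.choose j : ℂ) * (z / v) ^ n‖ ≤
        (T : ℝ) ^ c1 * ((T : ℝ) ^ d * (N : ℝ) ^ (m - 1) * (T : ℝ) ^ ((s + 1) * d)) := by
      intro j hj
      rw [Finset.mem_range] at hj
      have hjd : j + 1 ≤ d := hj.trans_le (pr_mult_le D J z)
      have hjm : j ≤ m - 1 := by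
        have := hm z hzZ
        omega
      rw [norm_mul]
      refine mul_le_mul (hβ z j) ?_ (norm_nonneg _) (by positivity)
      refine (sum_choose_pow j (z / v) hζ hζ1 N).trans ?_
      have e1 : ((j : ℝ) + 1) ≤ (T : ℝ) ^ d := by
        refine le_trans ?_ (pr_le_pow hT d)
        exact_mod_cast hjd
      have e2 : (N : ℝ) ^ j ≤ (N : ℝ) ^ (m - 1) := pow_le_pow_right₀ hN1 hjm
      have e3 : (2 / ‖z / v - 1‖) ^ (j + 1) ≤ (T : ℝ) ^ ((s + 1) * d) := by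
        calc (2 / ‖z / v - 1‖) ^ (j + 1) ≤ ((T : ℝ) ^ (s + 1)) ^ (j + 1) :=
              pow_le_pow_left₀ hfrac0 hfrac _
          _ = (T : ℝ) ^ ((s + 1) * (j + 1)) := by rw [← pow_mul]
          _ ≤ (T : ℝ) ^ ((s + 1) * d) :=
              pow_le_pow_right₀ hT1 (Nat.mul_le_mul_left _ hjd)
      refine mul_le_mul (mul_le_mul e1 e2 (by positivity) (by positivity)) e3 (by positivity)
        (by positivity)
    rw [hG]
    refine (norm_sum_le _ _).trans ((Finset.sum_le_sum hj).trans ?_)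
    rw [Finset.sum_const, Finset.card_range, nsmul_eq_mul]
    refine mul_le_mul_of_nonneg_right ?_ (by positivity)
    refine le_trans ?_ (pr_le_pow hT d)
    exact_mod_cast pr_mult_le D J z
  have h9 : ‖∑ z ∈ Z.erase v, G z‖ ≤ (T : ℝ) ^ (c1 + (s + 4) * d) * (N : ℝ) ^ (m - 1) := by
    refine (norm_sum_le _ _).trans ((Finset.sum_le_sum hGz).trans ?_)
    rw [Finset.sum_const, nsmul_eq_mul]
    have hc : ((Z.erase v).card : ℝ) ≤ (T : ℝ) ^ d := by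
      refine le_trans ?_ (pr_le_pow hT d)
      exact_mod_cast (Finset.card_erase_le).trans hZc
    calc ((Z.erase v).card : ℝ) * ((T : ℝ) ^ d *
        ((T : ℝ) ^ c1 * ((T : ℝ) ^ d * (N : ℝ) ^ (m - 1) * (T : ℝ) ^ ((s + 1) * d))))
        ≤ (T : ℝ) ^ d * ((T : ℝ) ^ d *
        ((T : ℝ) ^ c1 * ((T : ℝ) ^ d * (N : ℝ) ^ (m - 1) * (T : ℝ) ^ ((s + 1) * d)))) :=
          mul_le_mul_of_nonneg_right hc (by positivity)
      _ = (T : ℝ) ^ (d + d + c1 + d + (s + 1) * d) * (N : ℝ) ^ (m - 1) := by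
          rw [pow_add, pow_add, pow_add, pow_add]
          ring
      _ = (T : ℝ) ^ (c1 + (s + 4) * d) * (N : ℝ) ^ (m - 1) := by
          congr 2
          ring
  have h10 := pr_geom hT c1 N hρ w hw v hv
  have h11 : ∑ n ∈ Finset.range N, D.xc n / v ^ n -
      ∑ j ∈ Finset.range (D.mult J v), β v j * (N.choose (j + 1) : ℂ) =
      ∑ z ∈ Z.erase v, G z + ∑ n ∈ Finset.range N, w n / v ^ n := by
    rw [h1, h5, h3]
    ring
  rw [h11]
  refine (norm_add_le _ _).trans ((add_le_add h9 h10).trans ?_)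
  have hNp : (1 : ℝ) ≤ (N : ℝ) ^ (m - 1) := one_le_pow₀ hN1
  obtain ⟨a, ha⟩ : ∃ a : ℝ, a = (T : ℝ) ^ (c1 + (s + 4) * d) := ⟨_, rfl⟩
  obtain ⟨b, hb⟩ : ∃ b : ℝ, b = (T : ℝ) ^ (2 * c1 + 1) := ⟨_, rfl⟩
  have ha1 : 1 ≤ a := by rw [ha]; exact one_le_pow₀ hT1
  have hb1 : 1 ≤ b := by rw [hb]; exact one_le_pow₀ hT1
  have hab : (T : ℝ) ^ (3 * c1 + 2 + (s + 4) * d) = T * (a * b) := by
    rw [ha, hb, ← pow_add, ← pow_succ']
    congr 1
    ring
  rw [hab, ← ha, ← hb]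
  have g1 : a * (N : ℝ) ^ (m - 1) ≤ (a * b) * (N : ℝ) ^ (m - 1) := by
    apply mul_le_mul_of_nonneg_right _ (by positivity)
    nlinarith
  have g2 : b ≤ (a * b) * (N : ℝ) ^ (m - 1) := by
    have : b ≤ a * b := by nlinarith
    refine this.trans ?_
    exact le_mul_of_one_le_right (by positivity) hNp
  calc a * (N : ℝ) ^ (m - 1) + b ≤ 2 * ((a * b) * (N : ℝ) ^ (m - 1)) := by linarith
    _ ≤ T * ((a * b) * (N : ℝ) ^ (m - 1)) :=
        mul_le_mul_of_nonneg_right hT (by positivity)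
    _ = T * (a * b) * (N : ℝ) ^ (m - 1) := by ring

/-- separation of the circle roots from the number `ρ` -/
private theorem pr_sep {d T : ℕ} (D : Dat d T) (J : Finset (Fin d)) (ρ : ℝ) (hJ : D.IsMin J)
    (hTop : D.Top J ρ) (c2 : ℕ)
    (hc2 : ∀ i j : Fin d, D.lam i ≠ D.lam j → 1 ≤ (T : ℝ) ^ c2 * ‖D.lam i - D.lam j‖)
    (hc3 : ∀ i : Fin d, D.lam i ≠ 0 → 1 ≤ (T : ℝ) ^ c2 * ‖D.lam i‖)
    (v : ℂ) (hv : v = (ρ : ℂ) ∨ ∃ i ∈ D.circ J ρ, v = D.lam i) :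
    ∀ z ∈ (D.circ J ρ).image D.lam, z ≠ v → 1 ≤ (T : ℝ) ^ (c2 + 2) * ‖z / v - 1‖ := by
  classical
  have hT : (2 : ℝ) ≤ T := by exact_mod_cast D.two_le
  have hT0 : (0 : ℝ) < T := by linarith
  have hT1 : (1 : ℝ) ≤ T := by linarith
  obtain ⟨hρ, -, i0, hi0, hi0ρ⟩ := hTop
  have hρT : ρ ≤ T := by
    rw [← hi0ρ]
    exact D.lam_le i0
  have hTc : (1 : ℝ) ≤ (T : ℝ) ^ c2 := one_le_pow₀ hT1
  intro z hz hzv
  rw [Finset.mem_image] at hz
  obtain ⟨i, hi, rfl⟩ := hz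
  rw [pr_mem_circ] at hi
  have hvn : ‖v‖ = ρ := by
    rcases hv with rfl | ⟨j, hj, rfl⟩
    · rw [Complex.norm_real, Real.norm_eq_abs, abs_of_pos hρ]
    · exact ((pr_mem_circ D J ρ j).1 hj).2
  have hv0 : v ≠ 0 := by
    intro h
    rw [h, norm_zero] at hvn
    exact hρ.ne hvn
  have hkey : ‖D.lam i / v - 1‖ = ‖D.lam i - v‖ / ρ := by
    rw [← hvn, ← norm_div, sub_div, div_self hv0]
  -- it is enough to bound the difference
  have hsuff : 1 ≤ 2 * (T : ℝ) ^ c2 * ‖D.lam i - v‖ →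
      1 ≤ (T : ℝ) ^ (c2 + 2) * ‖D.lam i / v - 1‖ := by
    intro h
    rw [hkey, mul_div_assoc', le_div_iff₀ hρ, one_mul]
    have h1 : 0 ≤ (T : ℝ) ^ c2 * ‖D.lam i - v‖ := by positivity
    have h2 : (T : ℝ) ^ (c2 + 2) * ‖D.lam i - v‖ = T * T * ((T : ℝ) ^ c2 * ‖D.lam i - v‖) := by
      rw [pow_add]
      ring
    rw [h2]
    have h3 : T * (2 * ((T : ℝ) ^ c2 * ‖D.lam i - v‖)) ≤
        T * (T * ((T : ℝ) ^ c2 * ‖D.lam i - v‖)) :=
      mul_le_mul_of_nonneg_left (mul_le_mul_of_nonneg_right hT h1) hT0.le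
    have h4 : (T : ℝ) * 1 ≤ T * (2 * ((T : ℝ) ^ c2 * ‖D.lam i - v‖)) := by
      apply mul_le_mul_of_nonneg_left _ hT0.le
      linarith
    linarith
  apply hsuff
  rcases hv with hv | ⟨j, hj, hv⟩
  · rw [hv] at hzv ⊢
    by_cases hreal : (starRingEnd ℂ) (D.lam i) = D.lam i
    · -- real: `z = -ρ`
      obtain ⟨x, hx⟩ := Complex.conj_eq_iff_real.1 hreal
      rw [hx] at hzv ⊢
      have hxn := hi.2
      rw [hx, Complex.norm_real, Real.norm_eq_abs] at hxn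
      have hxρ : x = -ρ := by
        rcases abs_eq hρ.le |>.1 hxn with h | h
        · exact absurd (by rw [h]) hzv
        · exact h
      have hi0' : ‖(x : ℂ) - (ρ : ℂ)‖ = 2 * ρ := by
        rw [hxρ, ← Complex.ofReal_sub, Complex.norm_real, Real.norm_eq_abs]
        rw [show -ρ - ρ = -(2 * ρ) by ring, abs_neg, abs_of_pos (by linarith)]
      rw [hi0']
      have h9 := hc3 i0 (by
        intro h
        rw [h, norm_zero] at hi0ρ
        exact hρ.ne hi0ρ)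
      rw [hi0ρ] at h9
      have h10 : 0 ≤ (T : ℝ) ^ c2 * ρ := by positivity
      linarith
    · have hmc := mult_conj D J hJ (D.lam i)
      have h1 : 1 ≤ D.mult J ((starRingEnd ℂ) (D.lam i)) := by
        rw [hmc, pr_mult_pos]
        exact ⟨i, hi.1, rfl⟩
      rw [pr_mult_pos] at h1
      obtain ⟨k, hk, hkz⟩ := h1
      have h2 := hc2 i k (by rw [hkz]; exact fun h => hreal h.symm)
      rw [hkz] at h2
      have h3 : (D.lam i - (ρ : ℂ)) * (D.lam i + (ρ : ℂ)) =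
          D.lam i * (D.lam i - (starRingEnd ℂ) (D.lam i)) := by
        have h4 : D.lam i * (starRingEnd ℂ) (D.lam i) = ((ρ ^ 2 : ℝ) : ℂ) := by
          rw [Complex.mul_conj, Complex.normSq_eq_norm_sq, hi.2]
        rw [mul_sub, h4]
        push_cast
        ring
      have h5 := congrArg norm h3
      rw [norm_mul, norm_mul, hi.2] at h5
      have h6 : ‖D.lam i + (ρ : ℂ)‖ ≤ 2 * ρ := by
        refine (norm_add_le _ _).trans ?_
        rw [hi.2, Complex.norm_real, Real.norm_eq_abs, abs_of_pos hρ]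
        linarith
      have h7 : ρ * ‖D.lam i - (starRingEnd ℂ) (D.lam i)‖ ≤ ρ * (2 * ‖D.lam i - (ρ : ℂ)‖) := by
        rw [← h5]
        calc ‖D.lam i - (ρ : ℂ)‖ * ‖D.lam i + (ρ : ℂ)‖ ≤ ‖D.lam i - (ρ : ℂ)‖ * (2 * ρ) :=
              mul_le_mul_of_nonneg_left h6 (norm_nonneg _)
          _ = _ := by ring
      have h8 := le_of_mul_le_mul_left h7 hρ
      calc (1 : ℝ) ≤ (T : ℝ) ^ c2 * ‖D.lam i - (starRingEnd ℂ) (D.lam i)‖ := h2
        _ ≤ (T : ℝ) ^ c2 * (2 * ‖D.lam i - (ρ : ℂ)‖) :=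
            mul_le_mul_of_nonneg_left h8 (by positivity)
        _ = _ := by ring
  · rw [hv] at hzv ⊢
    have h2 := hc2 i j hzv
    have h3 : 0 ≤ (T : ℝ) ^ c2 * ‖D.lam i - D.lam j‖ := by positivity
    linarith

theorem eff_pringsheim (d : ℕ) :
    ∃ c : ℕ, ∀ (T : ℕ) (D : Dat d T) (J : Finset (Fin d)) (ρ : ℝ), D.IsMin J → D.Top J ρ →
      (∀ n ≤ T ^ c, 0 ≤ D.x n) →
      (∃ i ∈ J, D.lam i = (ρ : ℂ)) ∧ ∀ i ∈ D.circ J ρ, D.mult J (D.lam i) ≤ D.mult J (ρ : ℂ) := by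
  classical
  obtain ⟨c1, hrepc⟩ := rep_mult d
  obtain ⟨ca, hsepc⟩ := sep_bd d
  obtain ⟨cb, hrootc⟩ := root_bd d
  obtain ⟨K, hK⟩ : ∃ K : ℕ, K = 3 * c1 + 2 + ((ca + cb + 2) + 4) * d := ⟨_, rfl⟩
  obtain ⟨c', hc'⟩ : ∃ c' : ℕ, c' = (d + 1) * d + c1 + (K + d + c1 + 2) := ⟨_, rfl⟩
  refine ⟨c' + 1, ?_⟩
  intro T D J ρ hJ hTop hx
  have hT : (2 : ℝ) ≤ T := by exact_mod_cast D.two_le
  have hT0 : (0 : ℝ) < T := by linarith
  have hT1 : (1 : ℝ) ≤ T := by linarith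
  have hρ := hTop.1
  obtain ⟨β, w, hβ, hβtop, hw, hrep⟩ := hrepc T D J ρ hJ hTop
  have hne : (D.circ J ρ).Nonempty := by
    obtain ⟨i, hi, hiρ⟩ := hTop.2.2
    exact ⟨i, (pr_mem_circ D J ρ i).2 ⟨hi, hiρ⟩⟩
  obtain ⟨i1, hi1, hmax⟩ := Finset.exists_max_image (D.circ J ρ) (fun i => D.mult J (D.lam i)) hne
  have hi1' := (pr_mem_circ D J ρ i1).1 hi1
  obtain ⟨m, hmdef⟩ : ∃ m, m = D.mult J (D.lam i1) := ⟨_, rfl⟩
  have hm1 : 1 ≤ m := by
    rw [hmdef, pr_mult_pos]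
    exact ⟨i1, hi1'.1, rfl⟩
  have hmd : m ≤ d := by
    rw [hmdef]
    exact pr_mult_le D J _
  have hmain : m ≤ D.mult J (ρ : ℂ) := by
    by_contra hlt
    rw [not_le] at hlt
    obtain ⟨N, hN⟩ : ∃ N : ℕ, N = T ^ (c' + 1) := ⟨_, rfl⟩
    have hT1N : 1 ≤ T := le_trans (by norm_num) D.two_le
    have hN1 : 1 ≤ N := by
      rw [hN]
      exact Nat.one_le_pow _ _ (by omega)
    have hN1R : (1 : ℝ) ≤ N := by exact_mod_cast hN1
    have hNR : (N : ℝ) = (T : ℝ) ^ (c' + 1) := by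
      rw [hN]
      push_cast
      rfl
    have hc2 : ∀ i j : Fin d, D.lam i ≠ D.lam j →
        1 ≤ (T : ℝ) ^ (ca + cb) * ‖D.lam i - D.lam j‖ := by
      intro i j hij
      refine (hsepc T D i j hij).trans ?_
      exact mul_le_mul_of_nonneg_right (pow_le_pow_right₀ hT1 (by omega)) (norm_nonneg _)
    have hc3 : ∀ i : Fin d, D.lam i ≠ 0 → 1 ≤ (T : ℝ) ^ (ca + cb) * ‖D.lam i‖ := by
      intro i hi
      refine (hrootc T D i hi).trans ?_
      exact mul_le_mul_of_nonneg_right (pow_le_pow_right₀ hT1 (by omega)) (norm_nonneg _)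
    have hmZ : ∀ z ∈ (D.circ J ρ).image D.lam, D.mult J z ≤ m := by
      intro z hz
      rw [Finset.mem_image] at hz
      obtain ⟨i, hi, rfl⟩ := hz
      rw [hmdef]
      exact hmax i hi
    have hρn : ‖(ρ : ℂ)‖ = ρ := by
      rw [Complex.norm_real, Real.norm_eq_abs, abs_of_pos hρ]
    have A1 := pr_main D J ρ β w c1 (ca + cb + 2) N m hρ hβ hw hrep hmZ hm1 hN1 (D.lam i1) hi1'.2
      (pr_sep D J ρ hJ hTop (ca + cb) hc2 hc3 (D.lam i1) (Or.inr ⟨i1, hi1, rfl⟩))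
    have A2 := pr_main D J ρ β w c1 (ca + cb + 2) N m hρ hβ hw hrep hmZ hm1 hN1 (ρ : ℂ) hρn
      (pr_sep D J ρ hJ hTop (ca + cb) hc2 hc3 (ρ : ℂ) (Or.inl rfl))
    rw [← hK] at A1 A2
    obtain ⟨E, hE⟩ : ∃ E : ℝ, E = (T : ℝ) ^ K * (N : ℝ) ^ (m - 1) := ⟨_, rfl⟩
    rw [← hE] at A1 A2
    -- the two sums
    have hAle : ‖∑ n ∈ Finset.range N, D.xc n / (D.lam i1) ^ n‖ ≤
        ‖∑ n ∈ Finset.range N, D.xc n / (ρ : ℂ) ^ n‖ := by
      have e1 : ∑ n ∈ Finset.range N, D.xc n / (ρ : ℂ) ^ n =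
          ((∑ n ∈ Finset.range N, (D.x n : ℝ) / ρ ^ n : ℝ) : ℂ) := by
        push_cast
        rfl
      have e2 : ∀ n ∈ Finset.range N, 0 ≤ (D.x n : ℝ) / ρ ^ n := by
        intro n hn
        rw [Finset.mem_range, hN] at hn
        have := hx n hn.le
        have h0 : (0 : ℝ) ≤ (D.x n : ℝ) := by exact_mod_cast this
        positivity
      rw [e1, Complex.norm_real, Real.norm_eq_abs, abs_of_nonneg (Finset.sum_nonneg e2)]
      refine (norm_sum_le _ _).trans (Finset.sum_le_sum fun n hn => ?_)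
      rw [Finset.mem_range, hN] at hn
      have h0 : (0 : ℝ) ≤ (D.x n : ℝ) := by exact_mod_cast hx n hn.le
      rw [norm_div, norm_pow, hi1'.2]
      unfold Dat.xc
      rw [Complex.norm_intCast, abs_of_nonneg h0]
    have hchoose : ∀ j, j + 1 ≤ m - 1 → (N.choose (j + 1) : ℝ) ≤ (N : ℝ) ^ (m - 1) := by
      intro j hj
      have h1 : (N.choose (j + 1) : ℝ) ≤ (N : ℝ) ^ (j + 1) := by
        exact_mod_cast Nat.choose_le_pow N (j + 1)
      exact h1.trans (pow_le_pow_right₀ hN1R hj)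
    have hlow : ∀ (z : ℂ) (k : ℕ), k ≤ m - 1 →
        ‖∑ j ∈ Finset.range k, β z j * (N.choose (j + 1) : ℂ)‖ ≤
          (T : ℝ) ^ (d + c1) * (N : ℝ) ^ (m - 1) := by
      intro z k hk
      have h1 : ∀ j ∈ Finset.range k, ‖β z j * (N.choose (j + 1) : ℂ)‖ ≤
          (T : ℝ) ^ c1 * (N : ℝ) ^ (m - 1) := by
        intro j hj
        rw [Finset.mem_range] at hj
        rw [norm_mul, Complex.norm_natCast]
        exact mul_le_mul (hβ z j) (hchoose j (by omega)) (Nat.cast_nonneg _) (by positivity)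
      refine (norm_sum_le _ _).trans ((Finset.sum_le_sum h1).trans ?_)
      rw [Finset.sum_const, Finset.card_range, nsmul_eq_mul, pow_add, mul_assoc]
      refine mul_le_mul_of_nonneg_right ?_ (by positivity)
      refine le_trans ?_ (pr_le_pow hT d)
      have : k ≤ d := by omega
      exact_mod_cast this
    have hup : ‖∑ n ∈ Finset.range N, D.xc n / (ρ : ℂ) ^ n‖ ≤
        (T : ℝ) ^ (d + c1) * (N : ℝ) ^ (m - 1) + E := by
      have h1 := hlow (ρ : ℂ) (D.mult J (ρ : ℂ)) (by omega)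
      have h2 : ∑ n ∈ Finset.range N, D.xc n / (ρ : ℂ) ^ n =
          (∑ n ∈ Finset.range N, D.xc n / (ρ : ℂ) ^ n -
            ∑ j ∈ Finset.range (D.mult J (ρ : ℂ)), β (ρ : ℂ) j * (N.choose (j + 1) : ℂ)) +
          ∑ j ∈ Finset.range (D.mult J (ρ : ℂ)), β (ρ : ℂ) j * (N.choose (j + 1) : ℂ) := by ring
      rw [h2]
      refine (norm_add_le _ _).trans ?_
      linarith
    have htop : ‖β (D.lam i1) (m - 1)‖ * (N.choose m : ℝ) ≤
        2 * ((T : ℝ) ^ (d + c1) * (N : ℝ) ^ (m - 1) + E) := by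
      have hsplit : ∑ j ∈ Finset.range (D.mult J (D.lam i1)),
          β (D.lam i1) j * (N.choose (j + 1) : ℂ) =
          ∑ j ∈ Finset.range (m - 1), β (D.lam i1) j * (N.choose (j + 1) : ℂ) +
            β (D.lam i1) (m - 1) * (N.choose m : ℂ) := by
        rw [← hmdef]
        obtain ⟨k, rfl⟩ : ∃ k, m = k + 1 := ⟨m - 1, by omega⟩
        rw [Finset.sum_range_succ, Nat.add_sub_cancel]
      have h1 := hlow (D.lam i1) (m - 1) le_rfl
      have h2 : β (D.lam i1) (m - 1) * (N.choose m : ℂ) =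
          ∑ n ∈ Finset.range N, D.xc n / (D.lam i1) ^ n -
          (∑ n ∈ Finset.range N, D.xc n / (D.lam i1) ^ n -
            ∑ j ∈ Finset.range (D.mult J (D.lam i1)), β (D.lam i1) j * (N.choose (j + 1) : ℂ)) -
          ∑ j ∈ Finset.range (m - 1), β (D.lam i1) j * (N.choose (j + 1) : ℂ) := by
        rw [hsplit]
        ring
      have h3 : ‖β (D.lam i1) (m - 1) * (N.choose m : ℂ)‖ =
          ‖β (D.lam i1) (m - 1)‖ * (N.choose m : ℝ) := by
        rw [norm_mul, Complex.norm_natCast]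
      rw [← h3, h2]
      refine (norm_sub_le _ _).trans ?_
      have h4 := norm_sub_le (∑ n ∈ Finset.range N, D.xc n / (D.lam i1) ^ n)
        (∑ n ∈ Finset.range N, D.xc n / (D.lam i1) ^ n -
            ∑ j ∈ Finset.range (D.mult J (D.lam i1)), β (D.lam i1) j * (N.choose (j + 1) : ℂ))
      linarith
    have hβ1 := hβtop i1 hi1
    rw [← hmdef] at hβ1
    have hch := choose_lower m N hm1 (by
      have h1 : (2 * m : ℝ) ≤ (T : ℝ) ^ (c' + 1) := by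
        have h2 : (m : ℝ) ≤ (T : ℝ) ^ d := by
          refine le_trans ?_ (pr_le_pow hT d)
          exact_mod_cast hmd
        calc (2 * m : ℝ) ≤ T * (T : ℝ) ^ d :=
              mul_le_mul hT h2 (Nat.cast_nonneg _) hT0.le
          _ = (T : ℝ) ^ (d + 1) := by rw [pow_succ']
          _ ≤ (T : ℝ) ^ (c' + 1) := by
              apply pow_le_pow_right₀ hT1
              omega
      rw [← hNR] at h1
      exact_mod_cast h1)
    have h2m : (2 * (m : ℝ)) ^ m ≤ (T : ℝ) ^ ((d + 1) * d) := by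
      have h2 : (2 * m : ℝ) ≤ (T : ℝ) ^ (d + 1) := by
        have h3 : (m : ℝ) ≤ (T : ℝ) ^ d := by
          refine le_trans ?_ (pr_le_pow hT d)
          exact_mod_cast hmd
        calc (2 * m : ℝ) ≤ T * (T : ℝ) ^ d :=
              mul_le_mul hT h3 (Nat.cast_nonneg _) hT0.le
          _ = (T : ℝ) ^ (d + 1) := by rw [pow_succ']
      calc (2 * (m : ℝ)) ^ m ≤ ((T : ℝ) ^ (d + 1)) ^ m :=
            pow_le_pow_left₀ (by positivity) h2 m
        _ = (T : ℝ) ^ ((d + 1) * m) := by rw [← pow_mul]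
        _ ≤ (T : ℝ) ^ ((d + 1) * d) := pow_le_pow_right₀ hT1 (Nat.mul_le_mul_left _ hmd)
    have hNm : 0 < (N : ℝ) ^ (m - 1) := by positivity
    have hfinal : (N : ℝ) ^ m ≤ (T : ℝ) ^ c' * (N : ℝ) ^ (m - 1) := by
      have hC0 : (0 : ℝ) ≤ (N.choose m : ℝ) := Nat.cast_nonneg _
      have g1 : (N.choose m : ℝ) ≤ (T : ℝ) ^ c1 *
          (‖β (D.lam i1) (m - 1)‖ * (N.choose m : ℝ)) := by
        calc (N.choose m : ℝ) = 1 * (N.choose m : ℝ) := (one_mul _).symm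
          _ ≤ ((T : ℝ) ^ c1 * ‖β (D.lam i1) (m - 1)‖) * (N.choose m : ℝ) :=
              mul_le_mul_of_nonneg_right hβ1 hC0
          _ = _ := by ring
      have g2 : 2 * ((T : ℝ) ^ (d + c1) * (N : ℝ) ^ (m - 1) + E) ≤
          (T : ℝ) ^ (K + d + c1 + 2) * (N : ℝ) ^ (m - 1) := by
        rw [hE]
        obtain ⟨a, ha⟩ : ∃ a : ℝ, a = (T : ℝ) ^ (d + c1) := ⟨_, rfl⟩
        obtain ⟨b, hb⟩ : ∃ b : ℝ, b = (T : ℝ) ^ K := ⟨_, rfl⟩
        have ha1 : 1 ≤ a := by rw [ha]; exact one_le_pow₀ hT1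
        have hb1 : 1 ≤ b := by rw [hb]; exact one_le_pow₀ hT1
        have hab : (T : ℝ) ^ (K + d + c1 + 2) = T * T * (b * a) := by
          rw [ha, hb, ← pow_add, ← pow_two, ← pow_add]
          congr 1
          ring
        rw [hab, ← ha, ← hb]
        have hTT : (4 : ℝ) ≤ T * T := by nlinarith
        have g3 : a ≤ b * a := by nlinarith
        have g4 : b ≤ b * a := by nlinarith
        calc 2 * (a * (N : ℝ) ^ (m - 1) + b * (N : ℝ) ^ (m - 1))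
            = 2 * (a + b) * (N : ℝ) ^ (m - 1) := by ring
          _ ≤ T * T * (b * a) * (N : ℝ) ^ (m - 1) := by
              apply mul_le_mul_of_nonneg_right _ hNm.le
              nlinarith
      calc (N : ℝ) ^ m ≤ (2 * m) ^ m * (N.choose m : ℝ) := hch
        _ ≤ (T : ℝ) ^ ((d + 1) * d) * ((T : ℝ) ^ c1 *
            ((T : ℝ) ^ (K + d + c1 + 2) * (N : ℝ) ^ (m - 1))) := by
            refine mul_le_mul h2m ?_ hC0 (by positivity)
            refine g1.trans (mul_le_mul_of_nonneg_left (htop.trans g2) (by positivity))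
        _ = (T : ℝ) ^ c' * (N : ℝ) ^ (m - 1) := by
            rw [hc', pow_add _ ((d + 1) * d + c1), pow_add _ ((d + 1) * d)]
            ring
    have hNN : (N : ℝ) ^ m = N * (N : ℝ) ^ (m - 1) := by
      rw [← pow_succ']
      congr 1
      omega
    rw [hNN] at hfinal
    have h5 := le_of_mul_le_mul_right hfinal hNm
    rw [hNR, pow_succ] at h5
    have h6 : 0 < (T : ℝ) ^ c' := by positivity
    nlinarith
  refine ⟨?_, fun i hi => (hmax i hi).trans (hmdef ▸ hmain)⟩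
  have h1 : 1 ≤ D.mult J (ρ : ℂ) := hm1.trans hmain
  exact (pr_mult_pos D J).1 h1

end Pool.Agent.Helper73.DM
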