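import Pool.Agent.Helper73.DM.MinJ
import Pool.Agent.Helper73.DM.EffBd

/-!
# DM-B4: explicit exponential polynomial representation (with multiplicities)

Basic facts: `(S - z)(choose(n,j) z^n) = z^(n+1) choose(n,j-1)`; so `act ((X - C z)^a' ) (choose(n,a') z^n) = z^(n+a')`.
STEP. Let `v` be killed by `(X - C z)^a * p`, `a ≥ 1`, `z ≠ 0`, `p(z) ≠ 0`. `y = act ((X - C z)^(a-1) * p) v` is killed by `X - C z`, `y n = y 0 z^n`. With `β = y 0/(z^(a-1) p(z))` the sequence `v n - β choose(n,a-1) z^n` is killed by `(X - C z)^(a-1) * p`. `‖β‖ ≤ T^c` as soon as the first `d` values of `v` are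
`≤ T^c'` and `1 ≤ T^c' ‖z‖`, `1 ≤ T^c' ‖p(z)‖` (`p` a product of at most `d` factors `X - C λ_j`, `λ_j ≠ z`: `sep_bd`).
Process the different values `z` on the circle one after the other, for each `z` downwards from `a = mult z` to `1` (always with `p` = the product over the indices `j` not yet removed with `λ_j ≠ z`). What is left is `w`, killed by `∏_{j ∈ J, ‖λ_j‖ < ρ}`, with its first `d` values `≤ T^c`; `eff_bound` (with `gap_bd`, `root_bd`; `T` replaced by a
power of `T`) gives the bound for `w`. TOP COEFFICIENTS: `β_{z, mult z - 1} = Y_i/(z^(mult z - 1) ∏_{j ∈ J, λ_j ≠ z} (z - λ_j))` for `λ_i = z`: `act_erase` applied to the representation (`∏_{J.erase i}` kills all terms except the top one of `z`, on which it acts as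
`β z^(mult z - 1) ∏_{λ_j ≠ z} (z - λ_j) z^n`). So `1 ≤ T^c ‖β‖` by `Y_bounds` and `‖z‖ ≤ T`, `‖z - λ_j‖ ≤ 2T`.
(For `z` not on the circle or `j ≥ mult z` put `β z j = 0`.)
-/

set_option autoImplicit false

open Polynomial

namespace Pool.Agent.Helper73.DM

private noncomputable def uu (z : ℂ) (j : ℕ) : ℕ → ℂ := fun n => (n.choose j : ℂ) * z ^ n

private theorem act_sum_seq' {ι : Type*} (A : ℂ[X]) (s : Finset ι) (f : ι → ℕ → ℂ) :
    act A (∑ i ∈ s, f i) = ∑ i ∈ s, act A (f i) := by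
  unfold act; rw [map_sum]

private theorem act_uu_zero (z : ℂ) : act (X - C z) (uu z 0) = 0 := by
  funext n
  rw [act_X_sub_C]
  simp only [uu, Nat.choose_zero_right, Nat.cast_one, one_mul, Pi.zero_apply]
  ring

private theorem act_uu_succ (z : ℂ) (j : ℕ) : act (X - C z) (uu z (j + 1)) = z • uu z j := by
  funext n
  rw [act_X_sub_C, Pi.smul_apply, smul_eq_mul]
  simp only [uu, Nat.choose_succ_succ, Nat.cast_add]
  ring

private theorem act_uu_pow (z : ℂ) (k j : ℕ) :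
    act ((X - C z) ^ k) (uu z (k + j)) = z ^ k • uu z j := by
  induction k generalizing j with
  | zero => rw [pow_zero, act_one, zero_add, pow_zero, one_smul]
  | succ k ih =>
    rw [pow_succ, act_mul, show k + 1 + j = (k + j) + 1 by ring, act_uu_succ, act_smul_seq, ih,
      smul_smul, pow_succ']

private theorem act_uu_pow' (z : ℂ) (k : ℕ) :
    act ((X - C z) ^ k) (uu z k) = z ^ k • uu z 0 := act_uu_pow z k 0

private theorem act_uu_kill (z : ℂ) {k j : ℕ} (h : j < k) : act ((X - C z) ^ k) (uu z j) = 0 := by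
  refine act_of_dvd (A := (X - C z) ^ (j + 1)) (pow_dvd_pow _ h) ?_
  rw [pow_succ', act_mul, act_uu_pow', act_smul_seq, act_uu_zero, smul_zero]

private theorem act_uu_eval (z : ℂ) (p : ℂ[X]) : act p (uu z 0) = p.eval z • uu z 0 := by
  funext n
  rw [act_apply, Pi.smul_apply, smul_eq_mul, eval_eq_sum_range, Finset.sum_mul]
  refine Finset.sum_congr rfl fun i _ => ?_
  simp only [uu, Nat.choose_zero_right, Nat.cast_one, one_mul]
  rw [pow_add]
  ring

private theorem act_uu_full (z : ℂ) (k : ℕ) (p : ℂ[X]) :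
    act ((X - C z) ^ k * p) (uu z k) = (z ^ k * p.eval z) • uu z 0 := by
  rw [mul_comm, act_mul, act_uu_pow', act_smul_seq, act_uu_eval, smul_smul]

private theorem geom {z : ℂ} {y : ℕ → ℂ} (h : act (X - C z) y = 0) : y = y 0 • uu z 0 := by
  funext n
  simp only [Pi.smul_apply, smul_eq_mul, uu, Nat.choose_zero_right, Nat.cast_one, one_mul]
  induction n with
  | zero => rw [pow_zero, mul_one]
  | succ n ih =>
    have h1 := congrFun h n
    rw [act_X_sub_C, Pi.zero_apply, sub_eq_zero] at h1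
    rw [h1, ih]
    ring

/-- splitting off the factors with root `z` -/
private theorem prod_split {d T : ℕ} (D : Dat d T) (K : Finset (Fin d)) (z : ℂ) :
    ∃ K' : Finset (Fin d), K' ⊆ K ∧ (∀ j ∈ K', D.lam j ≠ z) ∧
      ∏ j ∈ K, (X - C (D.lam j)) = (X - C z) ^ D.mult K z * ∏ j ∈ K', (X - C (D.lam j)) := by
  classical
  refine ⟨K.filter (fun j => ¬ D.lam j = z), Finset.filter_subset _ _,
    fun j hj => (Finset.mem_filter.1 hj).2, ?_⟩
  rw [← Finset.prod_filter_mul_prod_filter_not K (fun j => D.lam j = z)]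
  congr 1
  have h1 : ∀ j ∈ K.filter (fun j => D.lam j = z), (X - C (D.lam j) : ℂ[X]) = X - C z :=
    fun j hj => by rw [(Finset.mem_filter.1 hj).2]
  rw [Finset.prod_congr rfl h1, Finset.prod_const]
  unfold Dat.mult
  congr 2

private theorem mult_le {d T : ℕ} (D : Dat d T) (K : Finset (Fin d)) (z : ℂ) :
    D.mult K z ≤ K.card := by
  classical
  unfold Dat.mult
  exact Finset.card_le_card (Finset.filter_subset _ _)

private theorem mult_mono {d T : ℕ} (D : Dat d T) {K K' : Finset (Fin d)} (h : K ⊆ K') (z : ℂ) :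
    D.mult K z ≤ D.mult K' z := by
  classical
  unfold Dat.mult
  exact Finset.card_le_card (Finset.filter_subset_filter _ h)

private theorem mult_erase_self {d T : ℕ} (D : Dat d T) {K : Finset (Fin d)} {i : Fin d}
    (hi : i ∈ K) : D.mult (K.erase i) (D.lam i) + 1 = D.mult K (D.lam i) := by
  classical
  unfold Dat.mult
  rw [Finset.filter_erase]
  exact Finset.card_erase_add_one (Finset.mem_filter.2 ⟨hi, rfl⟩)

private theorem mult_erase_ne {d T : ℕ} (D : Dat d T) {K : Finset (Fin d)} {i : Fin d} {z : ℂ}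
    (hz : D.lam i ≠ z) : D.mult (K.erase i) z = D.mult K z := by
  classical
  unfold Dat.mult
  congr 1
  ext j
  simp only [Finset.mem_filter, Finset.mem_erase]
  constructor
  · rintro ⟨⟨_, h2⟩, h3⟩
    exact ⟨h2, h3⟩
  · rintro ⟨h2, h3⟩
    exact ⟨⟨fun h => hz (h ▸ h3), h2⟩, h3⟩

/-- lower bound for a product -/
private theorem one_le_prod {ι : Type*} {t : ℝ} (ht : 1 ≤ t) {N : ℕ} (S : Finset ι)
    (hS : S.card ≤ N) (f : ι → ℝ) (hf : ∀ j ∈ S, 1 ≤ t * f j) : 1 ≤ t ^ N * ∏ j ∈ S, f j := by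
  have h0 : ∀ j ∈ S, 0 ≤ f j := by
    intro j hj
    by_contra hcon
    push Not at hcon
    have := hf j hj
    nlinarith
  calc (1 : ℝ) ≤ ∏ j ∈ S, (t * f j) := by
        rw [← Finset.prod_const_one (s := S)]
        exact Finset.prod_le_prod (fun _ _ => zero_le_one) hf
    _ = t ^ S.card * ∏ j ∈ S, f j := by rw [Finset.prod_mul_distrib, Finset.prod_const]
    _ ≤ t ^ N * ∏ j ∈ S, f j :=
        mul_le_mul_of_nonneg_right (pow_le_pow_right₀ ht hS) (Finset.prod_nonneg h0)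

/-- first value of `act A v` -/
private theorem act_bd {d T : ℕ} (D : Dat d T) (I : Finset (Fin d)) (v : ℕ → ℂ) (a : ℕ)
    (hv : ∀ n ≤ d, ‖v n‖ ≤ (T : ℝ) ^ a) :
    ‖act (∏ i ∈ I, (X - C (D.lam i))) v 0‖ ≤ (T : ℝ) ^ (3 * d + a) := by
  have hT' : (2 : ℝ) ≤ T := by exact_mod_cast D.two_le
  have hT0 : (0 : ℝ) < T := by linarith
  rw [act_apply_of_le _ _ 0 d (yq_natDegree D.lam _)]
  have h0 : ∀ n ∈ Finset.range (d + 1), ‖(∏ j ∈ I, (X - C (D.lam j))).coeff n *
      v (0 + n)‖ ≤ (1 + (T : ℝ)) ^ d * (T : ℝ) ^ a := by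
    intro n hn
    rw [norm_mul, zero_add]
    refine mul_le_mul (le_trans (yq_coeff_prod D.lam_le _ n) ?_) ?_ (norm_nonneg _) (by positivity)
    · exact pow_le_pow_right₀ (by linarith) (by simpa using Finset.card_le_univ I)
    · exact hv n (by have := Finset.mem_range.1 hn; omega)
  refine le_trans (norm_sum_le _ _) (le_trans (Finset.sum_le_sum h0) ?_)
  rw [Finset.sum_const, Finset.card_range, nsmul_eq_mul]
  have h3 : ((d + 1 : ℕ) : ℝ) ≤ (T : ℝ) ^ d := by
    have h4 : d + 1 ≤ 2 ^ d := Nat.lt_two_pow_self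
    have h5 : ((d + 1 : ℕ) : ℝ) ≤ (2 : ℝ) ^ d := by exact_mod_cast h4
    exact le_trans h5 (pow_le_pow_left₀ (by norm_num) hT' d)
  have h6 : (1 + (T : ℝ)) ^ d ≤ (T : ℝ) ^ (2 * d) := by
    rw [pow_mul]
    refine pow_le_pow_left₀ (by linarith) ?_ d
    nlinarith
  calc ((d + 1 : ℕ) : ℝ) * ((1 + (T : ℝ)) ^ d * (T : ℝ) ^ a)
      ≤ (T : ℝ) ^ d * ((T : ℝ) ^ (2 * d) * (T : ℝ) ^ a) := by
        refine mul_le_mul h3 ?_ (by positivity) (by positivity)
        exact mul_le_mul_of_nonneg_right h6 (by positivity)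
    _ = (T : ℝ) ^ (3 * d + a) := by ring

private theorem key (d : ℕ) : ∀ s a : ℕ, ∃ c : ℕ, ∀ (T : ℕ) (D : Dat d T) (I K : Finset (Fin d)),
    K.card = s → Disjoint K I → (∀ i ∈ K, ∀ j ∈ I, D.lam i ≠ D.lam j) →
    (∀ i ∈ K, D.lam i ≠ 0) → ∀ v : ℕ → ℂ,
    act ((∏ i ∈ K, (X - C (D.lam i))) * ∏ i ∈ I, (X - C (D.lam i))) v = 0 →
    (∀ n ≤ d, ‖v n‖ ≤ (T : ℝ) ^ a) →
    ∃ (β : ℂ → ℕ → ℂ) (w : ℕ → ℂ), (∀ z j, ‖β z j‖ ≤ (T : ℝ) ^ c) ∧
      (∀ z j, D.mult K z ≤ j → β z j = 0) ∧ act (∏ i ∈ I, (X - C (D.lam i))) w = 0 ∧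
      (∀ n ≤ d, ‖w n‖ ≤ (T : ℝ) ^ c) ∧
      v = (∑ z ∈ Finset.univ.image D.lam, ∑ j ∈ Finset.range d, β z j • uu z j) + w := by
  classical
  obtain ⟨c₀, hc₀⟩ := sep_bd d
  obtain ⟨c₁, hc₁⟩ := root_bd d
  intro s
  induction s with
  | zero =>
    intro a
    refine ⟨a, fun T D I K hK _ _ _ v hv hb => ⟨fun _ _ => 0, v, ?_, fun _ _ _ => rfl, ?_, hb, ?_⟩⟩
    · intro z j
      rw [norm_zero]
      positivity
    · rw [Finset.card_eq_zero.1 hK, Finset.prod_empty, one_mul] at hv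
      exact hv
    · simp
  | succ s ih =>
    intro a
    obtain ⟨E, hE⟩ : ∃ E, E = 3 * d + a + (c₁ * d + c₀ * (2 * d)) := ⟨_, rfl⟩
    obtain ⟨c, hc⟩ := ih (E + 2 * d + 1)
    refine ⟨c + E + 1, fun T D I K hK hdis hne hz v hv hb => ?_⟩
    have hT' : (2 : ℝ) ≤ T := by exact_mod_cast D.two_le
    have hT0 : (0 : ℝ) < T := by linarith
    have hT1 : (1 : ℝ) ≤ T := by linarith
    obtain ⟨i, hi⟩ : K.Nonempty := Finset.card_pos.1 (by omega)
    obtain ⟨z, hzi⟩ : ∃ z, z = D.lam i := ⟨_, rfl⟩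
    obtain ⟨K', hK'⟩ : ∃ K', K' = K.erase i := ⟨_, rfl⟩
    have hK'K : K' ⊆ K := by rw [hK']; exact Finset.erase_subset _ _
    have hK'c : K'.card = s := by rw [hK', Finset.card_erase_of_mem hi, hK]; rfl
    have hdis' : Disjoint K' I := Finset.disjoint_of_subset_left hK'K hdis
    obtain ⟨m, hm⟩ : ∃ m, m = D.mult K' z := ⟨_, rfl⟩
    have hmK : D.mult K z = m + 1 := by
      rw [hm, hK', hzi, mult_erase_self D hi]
    have hmd : m < d := by
      have h1 := mult_le D K z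
      have h2 : K.card ≤ d := by simpa using Finset.card_le_univ K
      omega
    -- the product
    obtain ⟨S₁, hS₁, hS₁z, hsp⟩ := prod_split D K' z
    rw [← hm] at hsp
    obtain ⟨p, hp⟩ : ∃ p : ℂ[X], p = (∏ j ∈ S₁, (X - C (D.lam j))) * ∏ j ∈ I, (X - C (D.lam j)) :=
      ⟨_, rfl⟩
    have hW : (∏ j ∈ K', (X - C (D.lam j))) * ∏ j ∈ I, (X - C (D.lam j)) = (X - C z) ^ m * p := by
      rw [hsp, hp, mul_assoc]
    have hprod : ∏ j ∈ K, (X - C (D.lam j)) = (X - C z) * ∏ j ∈ K', (X - C (D.lam j)) := by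
      rw [hK', hzi]
      exact (Finset.mul_prod_erase K (fun j => (X - C (D.lam j) : ℂ[X])) hi).symm
    obtain ⟨y, hy⟩ : ∃ y, y = act ((∏ j ∈ K', (X - C (D.lam j))) * ∏ j ∈ I, (X - C (D.lam j))) v :=
      ⟨_, rfl⟩
    have hy1 : act (X - C z) y = 0 := by
      rw [hy, ← act_mul, ← mul_assoc, ← hprod]
      exact hv
    have hy2 := geom hy1
    have hy0 : ‖y 0‖ ≤ (T : ℝ) ^ (3 * d + a) := by
      rw [hy, ← Finset.prod_union hdis']
      exact act_bd D _ v a hb
    -- the denominator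
    have hpz : p.eval z = (∏ j ∈ S₁, (z - D.lam j)) * ∏ j ∈ I, (z - D.lam j) := by
      rw [hp, eval_mul, eval_prod, eval_prod]
      simp only [eval_sub, eval_X, eval_C]
    have hsep : ∀ S : Finset (Fin d), (∀ j ∈ S, D.lam j ≠ z) →
        1 ≤ ((T : ℝ) ^ c₀) ^ d * ∏ j ∈ S, ‖z - D.lam j‖ := by
      intro S hS
      refine one_le_prod (one_le_pow₀ hT1) S (by simpa using Finset.card_le_univ S) _ ?_
      intro j hj
      rw [hzi]
      exact hc₀ T D i j (by rw [← hzi]; exact (hS j hj).symm)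
    have hIz : ∀ j ∈ I, D.lam j ≠ z := fun j hj => by
      rw [hzi]
      exact (hne i hi j hj).symm
    have hden : 1 ≤ (T : ℝ) ^ (c₁ * d + c₀ * (2 * d)) * ‖z ^ m * p.eval z‖ := by
      have h1 := hsep S₁ hS₁z
      have h2 := hsep I hIz
      have h3 : 1 ≤ ((T : ℝ) ^ c₁) ^ d * ‖z‖ ^ m := by
        have h4 : 1 ≤ (T : ℝ) ^ c₁ * ‖z‖ := by
          rw [hzi]
          exact hc₁ T D i (hz i hi)
        calc (1 : ℝ) ≤ ((T : ℝ) ^ c₁ * ‖z‖) ^ m := one_le_pow₀ h4
          _ = ((T : ℝ) ^ c₁) ^ m * ‖z‖ ^ m := mul_pow _ _ _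
          _ ≤ ((T : ℝ) ^ c₁) ^ d * ‖z‖ ^ m := by
              refine mul_le_mul_of_nonneg_right ?_ (by positivity)
              exact pow_le_pow_right₀ (one_le_pow₀ hT1) hmd.le
      have h5 : ‖z ^ m * p.eval z‖ =
          ‖z‖ ^ m * ((∏ j ∈ S₁, ‖z - D.lam j‖) * ∏ j ∈ I, ‖z - D.lam j‖) := by
        rw [hpz, norm_mul, norm_mul, norm_pow, norm_prod, norm_prod]
      calc (1 : ℝ) = 1 * (1 * 1) := by ring
        _ ≤ (((T : ℝ) ^ c₁) ^ d * ‖z‖ ^ m) * ((((T : ℝ) ^ c₀) ^ d * ∏ j ∈ S₁, ‖z - D.lam j‖) *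
            (((T : ℝ) ^ c₀) ^ d * ∏ j ∈ I, ‖z - D.lam j‖)) := by
            refine mul_le_mul h3 (mul_le_mul h1 h2 zero_le_one (by linarith)) (by norm_num)
              (by linarith)
        _ = (T : ℝ) ^ (c₁ * d + c₀ * (2 * d)) * ‖z ^ m * p.eval z‖ := by
            rw [h5]
            ring
    have hden0 : z ^ m * p.eval z ≠ 0 := by
      intro h
      rw [h, norm_zero, mul_zero] at hden
      linarith
    obtain ⟨b, hbdef⟩ : ∃ b, b = y 0 / (z ^ m * p.eval z) := ⟨_, rfl⟩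
    have hbb : ‖b‖ ≤ (T : ℝ) ^ E := by
      rw [hbdef, norm_div, div_le_iff₀ (norm_pos_iff.2 hden0)]
      calc ‖y 0‖ ≤ (T : ℝ) ^ (3 * d + a) * 1 := by rw [mul_one]; exact hy0
        _ ≤ (T : ℝ) ^ (3 * d + a) *
            ((T : ℝ) ^ (c₁ * d + c₀ * (2 * d)) * ‖z ^ m * p.eval z‖) := by gcongr
        _ = (T : ℝ) ^ E * ‖z ^ m * p.eval z‖ := by rw [hE, pow_add _ (3 * d + a)]; ring
    have hkill : act ((∏ j ∈ K', (X - C (D.lam j))) * ∏ j ∈ I, (X - C (D.lam j)))
        (v - b • uu z m) = 0 := by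
      rw [act_sub_seq, act_smul_seq, ← hy, hW, act_uu_full, smul_smul]
      conv_lhs => rw [hy2]
      rw [← sub_smul, hbdef, div_mul_cancel₀ _ hden0, sub_self, zero_smul]
    have hzT : ‖z‖ ≤ T := by rw [hzi]; exact D.lam_le i
    have huu : ∀ n ≤ d, ‖uu z m n‖ ≤ (T : ℝ) ^ (2 * d) := by
      intro n hn
      unfold uu
      rw [norm_mul, norm_pow, Complex.norm_natCast]
      have h1 : ((n.choose m : ℕ) : ℝ) ≤ (T : ℝ) ^ d := by
        calc ((n.choose m : ℕ) : ℝ) ≤ ((2 ^ n : ℕ) : ℝ) := by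
              exact_mod_cast Nat.choose_le_two_pow n m
          _ = (2 : ℝ) ^ n := by push_cast; ring
          _ ≤ (2 : ℝ) ^ d := pow_le_pow_right₀ (by norm_num) hn
          _ ≤ (T : ℝ) ^ d := pow_le_pow_left₀ (by norm_num) hT' d
      have h2 : ‖z‖ ^ n ≤ (T : ℝ) ^ d :=
        (pow_le_pow_left₀ (norm_nonneg _) hzT n).trans (pow_le_pow_right₀ hT1 hn)
      calc ((n.choose m : ℕ) : ℝ) * ‖z‖ ^ n ≤ (T : ℝ) ^ d * (T : ℝ) ^ d := by gcongr
        _ = (T : ℝ) ^ (2 * d) := by ring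
    have hv' : ∀ n ≤ d, ‖(v - b • uu z m) n‖ ≤ (T : ℝ) ^ (E + 2 * d + 1) := by
      intro n hn
      rw [Pi.sub_apply, Pi.smul_apply, smul_eq_mul]
      have h1 : (T : ℝ) ^ a ≤ (T : ℝ) ^ (E + 2 * d) := pow_le_pow_right₀ hT1 (by omega)
      calc ‖v n - b * uu z m n‖ ≤ ‖v n‖ + ‖b * uu z m n‖ := norm_sub_le _ _
        _ ≤ (T : ℝ) ^ a + (T : ℝ) ^ E * (T : ℝ) ^ (2 * d) := by
            rw [norm_mul]
            exact add_le_add (hb n hn) (mul_le_mul hbb (huu n hn) (norm_nonneg _) (by positivity))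
        _ ≤ (T : ℝ) ^ (E + 2 * d) + (T : ℝ) ^ (E + 2 * d) := by
            rw [← pow_add]
            exact add_le_add h1 le_rfl
        _ = 2 * (T : ℝ) ^ (E + 2 * d) := by ring
        _ ≤ T * (T : ℝ) ^ (E + 2 * d) := by gcongr
        _ = (T : ℝ) ^ (E + 2 * d + 1) := by ring
    obtain ⟨β', w, h1, h2, h3, h4, h5⟩ := hc T D I K' hK'c hdis'
      (fun j hj => hne j (hK'K hj)) (fun j hj => hz j (hK'K hj)) (v - b • uu z m) hkill hv'
    refine ⟨fun z' j => β' z' j + if z' = z ∧ j = m then b else 0, w, ?_, ?_, h3, ?_, ?_⟩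
    · intro z' j
      have e1 : ‖(if z' = z ∧ j = m then b else 0 : ℂ)‖ ≤ (T : ℝ) ^ E := by
        split_ifs
        · exact hbb
        · rw [norm_zero]; positivity
      have e2 : (T : ℝ) ^ c ≤ (T : ℝ) ^ (c + E) := pow_le_pow_right₀ hT1 (by omega)
      have e3 : (T : ℝ) ^ E ≤ (T : ℝ) ^ (c + E) := pow_le_pow_right₀ hT1 (by omega)
      calc ‖β' z' j + if z' = z ∧ j = m then b else 0‖
          ≤ ‖β' z' j‖ + ‖(if z' = z ∧ j = m then b else 0 : ℂ)‖ := norm_add_le _ _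
        _ ≤ (T : ℝ) ^ (c + E) + (T : ℝ) ^ (c + E) :=
            add_le_add ((h1 z' j).trans e2) (e1.trans e3)
        _ = 2 * (T : ℝ) ^ (c + E) := by ring
        _ ≤ T * (T : ℝ) ^ (c + E) := by gcongr
        _ = (T : ℝ) ^ (c + E + 1) := by ring
    · intro z' j hj
      have e1 : β' z' j = 0 := h2 z' j ((mult_mono D hK'K z').trans hj)
      have e2 : ¬ (z' = z ∧ j = m) := by
        rintro ⟨rfl, rfl⟩
        rw [hmK] at hj
        omega
      show β' z' j + (if z' = z ∧ j = m then b else 0) = 0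
      rw [e1, if_neg e2, add_zero]
    · intro n hn
      exact (h4 n hn).trans (pow_le_pow_right₀ hT1 (by omega))
    · have hzS : z ∈ Finset.univ.image D.lam := by
        rw [hzi]
        exact Finset.mem_image_of_mem _ (Finset.mem_univ i)
      have e1 : (∑ z' ∈ Finset.univ.image D.lam, ∑ j ∈ Finset.range d,
          (if z' = z ∧ j = m then b else 0) • uu z' j) = b • uu z m := by
        rw [Finset.sum_eq_single z, Finset.sum_eq_single m]
        · rw [if_pos ⟨rfl, rfl⟩]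
        · intro j _ hj
          rw [if_neg (fun h => hj h.2), zero_smul]
        · intro h
          exact absurd (Finset.mem_range.2 hmd) h
        · intro z' _ hz'
          refine Finset.sum_eq_zero fun j _ => ?_
          rw [if_neg (fun h => hz' h.1), zero_smul]
        · intro h
          exact absurd hzS h
      simp only [add_smul, Finset.sum_add_distrib]
      rw [e1, add_right_comm, ← h5, sub_add_cancel]

theorem rep_mult (d : ℕ) :
    ∃ c : ℕ, ∀ (T : ℕ) (D : Dat d T) (J : Finset (Fin d)) (ρ : ℝ), D.IsMin J → D.Top J ρ →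
      ∃ (β : ℂ → ℕ → ℂ) (w : ℕ → ℂ), (∀ z j, ‖β z j‖ ≤ (T : ℝ) ^ c) ∧
        (∀ i ∈ D.circ J ρ, 1 ≤ (T : ℝ) ^ c * ‖β (D.lam i) (D.mult J (D.lam i) - 1)‖) ∧
        (∀ n : ℕ, ‖w n‖ * (1 + 1 / (T : ℝ) ^ c) ^ n ≤ (T : ℝ) ^ c * ρ ^ n) ∧
        ∀ n : ℕ, D.xc n = (∑ z ∈ (D.circ J ρ).image D.lam, ∑ j ∈ Finset.range (D.mult J z),
          β z j * (n.choose j : ℂ) * z ^ n) + w n := by
  classical
  choose ck hck using fun s => key d s 1
  obtain ⟨cY, hcY⟩ := Y_bounds d
  obtain ⟨cg, hcg⟩ := gap_bd d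
  obtain ⟨cr, hcr⟩ := root_bd d
  obtain ⟨ce, hce⟩ := eff_bound d
  obtain ⟨cs, hcs⟩ : ∃ cs : ℕ, ∀ s ≤ d, ck s ≤ cs :=
    ⟨∑ s ∈ Finset.range (d + 1), ck s, fun s hs =>
      Finset.single_le_sum (f := ck) (fun _ _ => Nat.zero_le _) (Finset.mem_range.2 (by omega))⟩
  obtain ⟨t, ht⟩ : ∃ t, t = cs + cg + cr + 1 := ⟨_, rfl⟩
  refine ⟨cs + (cY + 3 * d) + t * ce, fun T D J ρ hJ hρ => ?_⟩
  have hT' : (2 : ℝ) ≤ T := by exact_mod_cast D.two_le
  have hT0 : (0 : ℝ) < T := by linarith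
  have hT1 : (1 : ℝ) ≤ T := by linarith
  have hmon : ∀ {a b : ℕ}, a ≤ b → (T : ℝ) ^ a ≤ (T : ℝ) ^ b := fun h => pow_le_pow_right₀ hT1 h
  obtain ⟨hρ0, hρle, i₀, hi₀, hi₀ρ⟩ := hρ
  obtain ⟨K, hK⟩ : ∃ K, K = D.circ J ρ := ⟨_, rfl⟩
  have hmemK : ∀ i, i ∈ K ↔ i ∈ J ∧ ‖D.lam i‖ = ρ := by
    intro i
    rw [hK]
    unfold Dat.circ
    rw [Finset.mem_filter]
  have hKJ : K ⊆ J := fun i hi => ((hmemK i).1 hi).1
  obtain ⟨I, hI⟩ : ∃ I, I = J \ K := ⟨_, rfl⟩
  have hIJ : I ⊆ J := by rw [hI]; exact Finset.sdiff_subset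
  have hdis : Disjoint K I := by rw [hI]; exact Finset.disjoint_sdiff
  have hJKI : K ∪ I = J := by rw [hI]; exact Finset.union_sdiff_of_subset hKJ
  have hIlt : ∀ i ∈ I, ‖D.lam i‖ < ρ := by
    intro i hi
    rw [hI, Finset.mem_sdiff] at hi
    exact lt_of_le_of_ne (hρle i hi.1) fun h => hi.2 ((hmemK i).2 ⟨hi.1, h⟩)
  have hne : ∀ i ∈ K, ∀ j ∈ I, D.lam i ≠ D.lam j := by
    intro i hi j hj h
    have h1 := hIlt j hj
    rw [← h, ((hmemK i).1 hi).2] at h1
    exact lt_irrefl _ h1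
  have hnz : ∀ i ∈ K, D.lam i ≠ 0 := by
    intro i hi h
    have h1 := ((hmemK i).1 hi).2
    rw [h, norm_zero] at h1
    linarith
  have hcd : K.card ≤ d := by simpa using Finset.card_le_univ K
  obtain ⟨β, w, h1, h2, h3, h4, h5⟩ := hck K.card T D I K rfl hdis hne hnz D.xc (by
      rw [← Finset.prod_union hdis, hJKI]
      exact hJ.1) (by
      intro n hn
      unfold Dat.xc
      rw [pow_one, Complex.norm_intCast]
      exact_mod_cast D.x_le n hn)
  have hcK := hcs _ hcd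
  -- multiplicities
  have hmult : ∀ i ∈ K, D.mult K (D.lam i) = D.mult J (D.lam i) := by
    intro i hi
    unfold Dat.mult
    congr 1
    ext j
    simp only [Finset.mem_filter]
    constructor
    · rintro ⟨hj, hji⟩
      exact ⟨hKJ hj, hji⟩
    · rintro ⟨hj, hji⟩
      refine ⟨(hmemK j).2 ⟨hj, ?_⟩, hji⟩
      rw [hji]
      exact ((hmemK i).1 hi).2
  refine ⟨β, w, fun z j => (h1 z j).trans (hmon (by omega)), ?_, ?_, ?_⟩
  · -- top coefficients
    intro i hi
    rw [← hK] at hi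
    have hiJ := hKJ hi
    obtain ⟨z, hz⟩ : ∃ z, z = D.lam i := ⟨_, rfl⟩
    obtain ⟨m, hm⟩ : ∃ m, m = D.mult (J.erase i) z := ⟨_, rfl⟩
    have hmJ : D.mult J z = m + 1 := by rw [hm, hz, mult_erase_self D hiJ]
    obtain ⟨S₁, hS₁, hS₁z, hsp⟩ := prod_split D (J.erase i) z
    rw [← hm] at hsp
    have hzS : z ∈ Finset.univ.image D.lam := by
      rw [hz]
      exact Finset.mem_image_of_mem _ (Finset.mem_univ i)
    have hmd : m < d := by
      have e1 := mult_le D J z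
      have e2 : J.card ≤ d := by simpa using Finset.card_le_univ J
      omega
    have hVw : act (∏ j ∈ J.erase i, (X - C (D.lam j))) w = 0 := by
      refine act_of_dvd (Finset.prod_dvd_prod_of_subset _ _ _ ?_) h3
      intro j hj
      refine Finset.mem_erase.2 ⟨?_, hIJ hj⟩
      rintro rfl
      exact Finset.disjoint_left.1 hdis hi hj
    have hdvd : ∀ z' : ℂ, (X - C z') ^ D.mult (J.erase i) z' ∣
        ∏ j ∈ J.erase i, (X - C (D.lam j)) := by
      intro z'
      obtain ⟨S₂, -, -, hsp2⟩ := prod_split D (J.erase i) z'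
      exact ⟨_, hsp2⟩
    have hterm : ∀ z' j, ¬ (z' = z ∧ j = m) →
        β z' j • act (∏ j ∈ J.erase i, (X - C (D.lam j))) (uu z' j) = 0 := by
      intro z' j hnot
      by_cases hj : D.mult K z' ≤ j
      · rw [h2 z' j hj, zero_smul]
      · push Not at hj
        have hj2 : j < D.mult (J.erase i) z' := by
          by_cases hzz : z' = z
          · have e1 : j ≠ m := fun h => hnot ⟨hzz, h⟩
            rw [hzz, ← hm]
            rw [hzz, hz, hmult i hi, ← hz, hmJ] at hj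
            omega
          · rw [mult_erase_ne D (fun h => hzz (by rw [hz]; exact h.symm))]
            exact lt_of_lt_of_le hj (mult_mono D hKJ z')
        rw [act_of_dvd (hdvd z') (act_uu_kill z' hj2), smul_zero]
    have hY : D.Y J i = β z m * (z ^ m * (∏ j ∈ S₁, (X - C (D.lam j)) : ℂ[X]).eval z) := by
      unfold Dat.Y
      have e1 : act (∏ j ∈ J.erase i, (X - C (D.lam j))) D.xc =
          β z m • act (∏ j ∈ J.erase i, (X - C (D.lam j))) (uu z m) := by
        conv_lhs => rw [h5]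
        rw [act_add_seq, hVw, add_zero, act_sum_seq', Finset.sum_eq_single z, act_sum_seq',
          Finset.sum_eq_single m, act_smul_seq]
        · intro j _ hj
          rw [act_smul_seq]
          exact hterm z j fun h => hj h.2
        · intro h
          exact absurd (Finset.mem_range.2 hmd) h
        · intro z' _ hz'
          rw [act_sum_seq']
          refine Finset.sum_eq_zero fun j _ => ?_
          rw [act_smul_seq]
          exact hterm z' j fun h => hz' h.1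
        · intro h
          exact absurd hzS h
      rw [e1, hsp, act_uu_full]
      simp only [Pi.smul_apply, smul_eq_mul, uu, Nat.choose_self, Nat.choose_zero_right,
        Nat.cast_one, pow_zero, mul_one]
    have hup : ‖z ^ m * (∏ j ∈ S₁, (X - C (D.lam j)) : ℂ[X]).eval z‖ ≤ (T : ℝ) ^ (3 * d) := by
      have hzT : ‖z‖ ≤ T := by rw [hz]; exact D.lam_le i
      have e1 : ‖z‖ ^ m ≤ (T : ℝ) ^ d :=
        (pow_le_pow_left₀ (norm_nonneg _) hzT m).trans (hmon hmd.le)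
      have e2 : ‖(∏ j ∈ S₁, (X - C (D.lam j)) : ℂ[X]).eval z‖ ≤ (T : ℝ) ^ (2 * d) := by
        rw [eval_prod, norm_prod]
        have e3 : ∀ j ∈ S₁, ‖((X - C (D.lam j) : ℂ[X]).eval z)‖ ≤ (T : ℝ) ^ 2 := by
          intro j _
          rw [eval_sub, eval_X, eval_C]
          refine (norm_sub_le _ _).trans ?_
          have := D.lam_le j
          nlinarith
        calc ∏ j ∈ S₁, ‖((X - C (D.lam j) : ℂ[X]).eval z)‖ ≤ ∏ _j ∈ S₁, (T : ℝ) ^ 2 :=
              Finset.prod_le_prod (fun _ _ => norm_nonneg _) e3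
          _ = (T : ℝ) ^ (2 * S₁.card) := by rw [Finset.prod_const, ← pow_mul]
          _ ≤ (T : ℝ) ^ (2 * d) := hmon (Nat.mul_le_mul_left 2 (by
              simpa using Finset.card_le_univ S₁))
      rw [norm_mul, norm_pow]
      calc ‖z‖ ^ m * ‖(∏ j ∈ S₁, (X - C (D.lam j)) : ℂ[X]).eval z‖
          ≤ (T : ℝ) ^ d * (T : ℝ) ^ (2 * d) := by gcongr
        _ = (T : ℝ) ^ (3 * d) := by ring
    have hYb := (hcY T D J hJ i hiJ).2
    rw [← hz, hmJ, Nat.add_sub_cancel]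
    calc (1 : ℝ) ≤ (T : ℝ) ^ cY * ‖D.Y J i‖ := hYb
      _ = (T : ℝ) ^ cY * (‖β z m‖ *
          ‖z ^ m * (∏ j ∈ S₁, (X - C (D.lam j)) : ℂ[X]).eval z‖) := by rw [hY, norm_mul]
      _ ≤ (T : ℝ) ^ cY * (‖β z m‖ * (T : ℝ) ^ (3 * d)) := by gcongr
      _ = (T : ℝ) ^ (cY + 3 * d) * ‖β z m‖ := by ring
      _ ≤ (T : ℝ) ^ (cs + (cY + 3 * d) + t * ce) * ‖β z m‖ := by
          refine mul_le_mul_of_nonneg_right (hmon ?_) (norm_nonneg _)
          omega
  · -- the remainder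
    have hTt : 2 ≤ T ^ t := by
      calc 2 ≤ T := D.two_le
        _ = T ^ 1 := (pow_one T).symm
        _ ≤ T ^ t := Nat.pow_le_pow_right (by have := D.two_le; omega) (by omega)
    have hcast : ((T ^ t : ℕ) : ℝ) = (T : ℝ) ^ t := by push_cast; ring
    have e1 := hce (T ^ t) hTt ρ hρ0 (by
        rw [hcast, ← hi₀ρ]
        have hi₀0 : D.lam i₀ ≠ 0 := by
          intro h
          rw [h, norm_zero] at hi₀ρ
          linarith
        calc (1 : ℝ) ≤ (T : ℝ) ^ cr * ‖D.lam i₀‖ := hcr T D i₀ hi₀0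
          _ ≤ (T : ℝ) ^ t * ‖D.lam i₀‖ :=
              mul_le_mul_of_nonneg_right (hmon (by omega)) (norm_nonneg _))
      (by
        rw [hcast, ← hi₀ρ]
        calc ‖D.lam i₀‖ ≤ (T : ℝ) ^ 1 := by rw [pow_one]; exact D.lam_le i₀
          _ ≤ (T : ℝ) ^ t := hmon (by omega))
      D.lam I (by
        intro i hi
        rw [hcast, ← hi₀ρ]
        have e2 : ‖D.lam i‖ < ‖D.lam i₀‖ := by rw [hi₀ρ]; exact hIlt i hi
        calc (1 : ℝ) ≤ (T : ℝ) ^ cg * (‖D.lam i₀‖ - ‖D.lam i‖) := hcg T D i i₀ e2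
          _ ≤ (T : ℝ) ^ t * (‖D.lam i₀‖ - ‖D.lam i‖) :=
              mul_le_mul_of_nonneg_right (hmon (by omega)) (by linarith))
      w h3 (by
        intro n hn
        rw [hcast]
        have e2 : I.card ≤ d := by simpa using Finset.card_le_univ I
        exact (h4 n (by omega)).trans (hmon (by omega)))
    intro n
    have e3 := e1 n
    rw [hcast, ← pow_mul] at e3
    have e4 : (T : ℝ) ^ (t * ce) ≤ (T : ℝ) ^ (cs + (cY + 3 * d) + t * ce) := hmon (by omega)
    have e5 : (0 : ℝ) < (T : ℝ) ^ (t * ce) := by positivity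
    calc ‖w n‖ * (1 + 1 / (T : ℝ) ^ (cs + (cY + 3 * d) + t * ce)) ^ n
        ≤ ‖w n‖ * (1 + 1 / (T : ℝ) ^ (t * ce)) ^ n := by gcongr
      _ ≤ (T : ℝ) ^ (t * ce) * ρ ^ n := e3
      _ ≤ (T : ℝ) ^ (cs + (cY + 3 * d) + t * ce) * ρ ^ n := by gcongr
  · -- the representation
    intro n
    have e1 := congrFun h5 n
    rw [Pi.add_apply, Finset.sum_apply] at e1
    rw [e1, ← hK]
    congr 1
    have e2 : ∀ z ∈ Finset.univ.image D.lam, z ∉ K.image D.lam →
        (∑ j ∈ Finset.range d, β z j • uu z j) n = 0 := by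
      intro z _ hz
      have e3 : D.mult K z = 0 := by
        unfold Dat.mult
        rw [Finset.card_eq_zero, Finset.filter_eq_empty_iff]
        intro i hi h
        exact hz (Finset.mem_image.2 ⟨i, hi, h⟩)
      rw [Finset.sum_apply]
      refine Finset.sum_eq_zero fun j _ => ?_
      rw [h2 z j (by rw [e3]; exact Nat.zero_le _), zero_smul, Pi.zero_apply]
    rw [← Finset.sum_subset (Finset.image_subset_image (Finset.subset_univ K)) e2]
    refine Finset.sum_congr rfl fun z hz => ?_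
    obtain ⟨i, hi, rfl⟩ := Finset.mem_image.1 hz
    have e3 : D.mult J (D.lam i) ≤ d := by
      have e4 := mult_le D J (D.lam i)
      have e5 : J.card ≤ d := by simpa using Finset.card_le_univ J
      omega
    rw [Finset.sum_apply]
    have e6 : ∀ j ∈ Finset.range d, j ∉ Finset.range (D.mult J (D.lam i)) →
        (β (D.lam i) j • uu (D.lam i) j) n = 0 := by
      intro j _ hj
      rw [h2 _ j (by rw [hmult i hi]; simpa using hj), zero_smul, Pi.zero_apply]
    rw [← Finset.sum_subset (Finset.range_mono e3) e6]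
    refine Finset.sum_congr rfl fun j _ => ?_
    rw [Pi.smul_apply, smul_eq_mul]
    unfold uu
    ring

end Pool.Agent.Helper73.DM
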