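import Pool.Agent.Helper73.DM.Eig
import Pool.Agent.Helper73.DM.Upper

/-!
# DM-05: the resolvent of a nonnegative matrix

Let `N = cm M`. Every entry sequence `n ↦ (N^n) i j` is killed by `N.charpoly` (`act_matrix` with unit vectors and Cayley-Hamilton `Matrix.aeval_self_charpoly`), so
`‖(N^n) i j‖ ≤ B (n+1)^d ρ^n` (`act_bound`; one `B` for all `i, j`). For `‖z‖ > ρ` the series `S(z) = ∑_n z^(-n-1) N^n` converges absolutely entrywise and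
`(z - N) S(z) = 1` (telescoping; `N^n z^(-n) → 0` entrywise), so `(z - N)⁻¹ = S(z)` (`Matrix.inv_eq_right_inv`). Since `(N^n) i j` is the real number `(M^n) i j ≥ 0` (`cm_pow`),
`‖S(z) i j‖ ≤ ∑ ‖z‖^(-n-1) (M^n) i j = S(‖z‖) i j = ‖S(‖z‖) i j‖`.
-/

set_option autoImplicit false

open Polynomial

namespace Pool.Agent.Helper73.DM

private theorem entry_killed {ι : Type*} [Fintype ι] [DecidableEq ι] (N : Matrix ι ι ℂ) (i j : ι) :
    act N.charpoly (fun m => (N ^ m) i j) = 0 := by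
  funext n
  have h := act_matrix N (Pi.single i 1) (Pi.single j 1) N.charpoly n
  rw [Matrix.aeval_self_charpoly, mul_zero, Matrix.zero_mulVec, dotProduct_zero] at h
  have h2 : (fun m => (Pi.single i 1 : ι → ℂ) ⬝ᵥ (N ^ m).mulVec (Pi.single j 1)) =
      fun m => (N ^ m) i j := by
    funext m
    rw [single_one_dotProduct, Matrix.mulVec_single_one]
    rfl
  rw [h2] at h
  exact h

private theorem pow_nonneg_entry {ι : Type*} [Fintype ι] [DecidableEq ι] (M : Matrix ι ι ℝ)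
    (hM : ∀ i j, 0 ≤ M i j) (n : ℕ) : ∀ i j, 0 ≤ (M ^ n) i j := by
  induction n with
  | zero =>
    intro i j
    rw [pow_zero, Matrix.one_apply]
    split_ifs <;> norm_num
  | succ n ih =>
    intro i j
    rw [pow_succ, Matrix.mul_apply]
    exact Finset.sum_nonneg fun k _ => mul_nonneg (ih i k) (hM k j)

private theorem summable_entry {ι : Type*} [Fintype ι] [DecidableEq ι] (N : Matrix ι ι ℂ)
    (ρ : ℝ) (hρ : 0 < ρ) (hle : ∀ z ∈ N.charpoly.roots, ‖z‖ ≤ ρ) (z : ℂ) (hz : ρ < ‖z‖)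
    (i j : ι) : Summable (fun n : ℕ => ‖(z⁻¹) ^ n * (N ^ n) i j‖) := by
  obtain ⟨B, hB0, hB⟩ := act_bound N.charpoly (Matrix.charpoly_monic N) ρ hρ hle
    (fun m => (N ^ m) i j) (entry_killed N i j)
  have hz0 : 0 < ‖z‖ := hρ.trans hz
  have hr0 : 0 < ρ / ‖z‖ := by positivity
  have hr1 : ‖ρ / ‖z‖‖ < 1 := by
    rw [Real.norm_of_nonneg hr0.le, div_lt_one hz0]
    exact hz
  have h1 := summable_pow_mul_geometric_of_norm_lt_one N.charpoly.natDegree hr1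
  have h2 := (summable_nat_add_iff 1).2 h1
  have h3 := h2.mul_left (B * (ρ / ‖z‖)⁻¹)
  refine Summable.of_nonneg_of_le (fun n => norm_nonneg _) (fun n => ?_) h3
  have h4 := hB n
  beta_reduce at h4
  rw [norm_mul, norm_pow, norm_inv]
  calc ‖z‖⁻¹ ^ n * ‖(N ^ n) i j‖ ≤ ‖z‖⁻¹ ^ n * (B * (n + 1) ^ N.charpoly.natDegree * ρ ^ n) :=
        mul_le_mul_of_nonneg_left h4 (by positivity)
    _ = B * (((n : ℝ) + 1) ^ N.charpoly.natDegree * (ρ / ‖z‖) ^ n) := by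
        rw [div_eq_mul_inv, mul_pow]
        ring
    _ = B * (ρ / ‖z‖)⁻¹ * ((((n + 1 : ℕ) : ℝ)) ^ N.charpoly.natDegree * (ρ / ‖z‖) ^ (n + 1)) := by
        push_cast
        rw [pow_succ (ρ / ‖z‖) n]
        field_simp

/-- the Neumann series -/
private noncomputable def neum {ι : Type*} [Fintype ι] [DecidableEq ι] (N : Matrix ι ι ℂ) (z : ℂ) :
    Matrix ι ι ℂ := Matrix.of fun i j => ∑' n : ℕ, z⁻¹ * ((z⁻¹) ^ n * (N ^ n) i j)

private theorem neum_apply {ι : Type*} [Fintype ι] [DecidableEq ι] (N : Matrix ι ι ℂ) (z : ℂ)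
    (i j : ι) : neum N z i j = ∑' n : ℕ, z⁻¹ * ((z⁻¹) ^ n * (N ^ n) i j) := rfl

private theorem mul_neum {ι : Type*} [Fintype ι] [DecidableEq ι] (N : Matrix ι ι ℂ)
    (ρ : ℝ) (hρ : 0 < ρ) (hle : ∀ z ∈ N.charpoly.roots, ‖z‖ ≤ ρ) (z : ℂ) (hz : ρ < ‖z‖) :
    (z • (1 : Matrix ι ι ℂ) - N) * neum N z = 1 := by
  have hz0 : z ≠ 0 := by
    rw [← norm_pos_iff]
    exact hρ.trans hz
  have hs : ∀ i j, Summable (fun n : ℕ => (z⁻¹) ^ n * (N ^ n) i j) := fun i j =>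
    (summable_entry N ρ hρ hle z hz i j).of_norm
  funext i j
  rw [Matrix.sub_mul, Matrix.smul_mul, Matrix.one_mul, Matrix.sub_apply, Matrix.smul_apply,
    smul_eq_mul, Matrix.mul_apply]
  have h1 : z * neum N z i j = ∑' n : ℕ, (z⁻¹) ^ n * (N ^ n) i j := by
    rw [neum_apply, tsum_mul_left, ← mul_assoc, mul_inv_cancel₀ hz0, one_mul]
  have h2 : ∑ k, N i k * neum N z k j = ∑' n : ℕ, (z⁻¹) ^ (n + 1) * (N ^ (n + 1)) i j := by
    calc ∑ k, N i k * neum N z k j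
        = ∑ k, ∑' n : ℕ, N i k * (z⁻¹ * ((z⁻¹) ^ n * (N ^ n) k j)) := by
          refine Finset.sum_congr rfl fun k _ => ?_
          rw [neum_apply, ← tsum_mul_left]
      _ = ∑' n : ℕ, ∑ k, N i k * (z⁻¹ * ((z⁻¹) ^ n * (N ^ n) k j)) := by
          rw [Summable.tsum_finsetSum]
          intro k _
          exact ((hs k j).mul_left _).mul_left _
      _ = _ := by
          refine tsum_congr fun n => ?_
          rw [pow_succ' N n, Matrix.mul_apply, Finset.mul_sum]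
          refine Finset.sum_congr rfl fun k _ => ?_
          rw [pow_succ]
          ring
  rw [h1, h2, (hs i j).tsum_eq_zero_add]
  simp

private theorem inv_eq_neum {ι : Type*} [Fintype ι] [DecidableEq ι] (N : Matrix ι ι ℂ)
    (ρ : ℝ) (hρ : 0 < ρ) (hle : ∀ z ∈ N.charpoly.roots, ‖z‖ ≤ ρ) (z : ℂ) (hz : ρ < ‖z‖) :
    (z • (1 : Matrix ι ι ℂ) - N)⁻¹ = neum N z :=
  Matrix.inv_eq_right_inv (mul_neum N ρ hρ hle z hz)

theorem resolvent_le {ι : Type*} [Fintype ι] [DecidableEq ι] (M : Matrix ι ι ℝ)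
    (hM : ∀ i j, 0 ≤ M i j) (ρ : ℝ) (hρ : 0 < ρ)
    (hle : ∀ z ∈ (cm M).charpoly.roots, ‖z‖ ≤ ρ) (z : ℂ) (hz : ρ < ‖z‖) (i j : ι) :
    ‖(z • (1 : Matrix ι ι ℂ) - cm M)⁻¹ i j‖ ≤
      ‖(((‖z‖ : ℝ) : ℂ) • (1 : Matrix ι ι ℂ) - cm M)⁻¹ i j‖ := by
  have hz0 : 0 < ‖z‖ := hρ.trans hz
  have hn : ‖((‖z‖ : ℝ) : ℂ)‖ = ‖z‖ := by
    rw [Complex.norm_real, norm_norm]
  rw [inv_eq_neum (cm M) ρ hρ hle z hz,
    inv_eq_neum (cm M) ρ hρ hle ((‖z‖ : ℝ) : ℂ) (by rw [hn]; exact hz), neum_apply, neum_apply]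
  have hs : Summable (fun n : ℕ => ‖z⁻¹ * ((z⁻¹) ^ n * (cm M ^ n) i j)‖) := by
    have h := (summable_entry (cm M) ρ hρ hle z hz i j).mul_left ‖z⁻¹‖
    refine h.congr fun n => ?_
    rw [norm_mul z⁻¹]
  have h1 : ∀ n : ℕ, ‖z⁻¹ * ((z⁻¹) ^ n * (cm M ^ n) i j)‖ =
      ‖z‖⁻¹ * (‖z‖⁻¹ ^ n * (M ^ n) i j) := by
    intro n
    rw [← cm_pow, cm_apply, norm_mul, norm_mul, norm_pow, norm_inv, Complex.norm_real,
      Real.norm_of_nonneg (pow_nonneg_entry M hM n i j)]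
  have h2 : (∑' n : ℕ, ((‖z‖ : ℝ) : ℂ)⁻¹ * ((((‖z‖ : ℝ) : ℂ)⁻¹) ^ n * (cm M ^ n) i j)) =
      ((∑' n : ℕ, ‖z‖⁻¹ * (‖z‖⁻¹ ^ n * (M ^ n) i j) : ℝ) : ℂ) := by
    rw [Complex.ofReal_tsum]
    refine tsum_congr fun n => ?_
    rw [← cm_pow, cm_apply]
    push_cast
    rfl
  rw [h2, Complex.norm_real]
  calc ‖∑' n : ℕ, z⁻¹ * ((z⁻¹) ^ n * (cm M ^ n) i j)‖
      ≤ ∑' n : ℕ, ‖z⁻¹ * ((z⁻¹) ^ n * (cm M ^ n) i j)‖ := norm_tsum_le_tsum_norm hs
    _ = ∑' n : ℕ, ‖z‖⁻¹ * (‖z‖⁻¹ ^ n * (M ^ n) i j) := tsum_congr h1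
    _ ≤ _ := Real.le_norm_self _

end Pool.Agent.Helper73.DM
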