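import Pool.Agent.Helper73.DM.PFRoot
import Pool.Agent.Helper73.DM.PFPow
import Pool.Agent.Helper73.DM.GPoly

/-!
# DM-17: the second largest eigenvalue in the extremal case

Write `χ = (cm M).charpoly = cp M univ` (`cp_univ`).
1. `exists_block` for `univ`, `-ρ`: `T` with `sub M T` irreducible, `-ρ` a root of `cp M T`, `χ = cp M T * cp M (univ \ T)`. All roots of both factors are roots of `χ` (norm `≤ ρ`).
2. `irr_phase` for `sub M T`, `z = -ρ`: `ρ` is a root of `cp M T`.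
3. No root `z` of `cp M (univ \ T)` has `‖z‖ = ρ`: otherwise `z^P = ρ^P` by `pf_root_pow` for `M`; `χ.roots = (cp M T).roots + (cp M (univ \ T)).roots` (`roots_mul`) contains `ρ`, `-ρ` (from the first summand, different) and
   `z` (from the second), all with `P`-th power `ρ^P` (`P` even): `EM ≥ 3` (if `z = ρ` then `count ρ ≥ 2`, `count (-ρ) ≥ 1`; same for `z = -ρ`; otherwise three different elements of the fibre). Contradiction with `hE`.
4. If `w ≠ 0` is a root of `cp M T` and `w^P ≠ ρ^P`, then `-w` is a root of `cp M T` (`irr_sym`), `w ≠ -w`, `(-w)^P = w^P` (`P` even), both in `Zs χ`: `eM_lt_EM` contradicts `he`. So every `z ∈ Zs χ` with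
   `z^P ≠ ρ^P` is a root of `cp M (univ \ T)`.
5. By `hne` there is `z1 ∈ Zs χ`, `z1^P ≠ ρ^P`. `ρ2` = the maximum of the norms of the roots of `cp M (univ \ T) = (cm (sub M (univ \ T))).charpoly`, `0 < ‖z1‖ ≤ ρ2 < ρ` (3). `pf_root` for `sub M (univ \ T)`: `ρ2` is a
   root. `pf_root_pow` for it: its roots `z` with `‖z‖ = ρ2` have `z^P = ρ2^P` (`(card (univ \ T))!` divides `(card ι)!`).
6. `ν = ρ2^P`. `ρ2 ∈ Zs χ`, so `ν ∈ Ms`, `ν ≠ ρ^P` since `0 < ρ2 < ρ`, `0 < P`. If `μ ∈ Ms`, `μ ≠ ρ^P`, `μ = z^P`, then `z` is a root of `cp M (univ \ T)` (4), `‖z‖ ≤ ρ2`; `‖z‖ = ρ2` gives `μ = ν`, otherwise `‖μ‖ < ν`.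
-/

set_option autoImplicit false

open Polynomial

namespace Pool.Agent.Helper73.DM

private theorem mem_Zs (χ : ℂ[X]) (z : ℂ) : z ∈ Zs χ ↔ z ≠ 0 ∧ z ∈ χ.roots := by
  unfold Zs
  rw [Finset.mem_erase, Multiset.mem_toFinset]

theorem second_root {ι : Type*} [Fintype ι] [DecidableEq ι] (M : Matrix ι ι ℝ)
    (hM : ∀ i j, 0 ≤ M i j) (ρ : ℝ) (hρ : 0 < ρ)
    (hle : ∀ z ∈ (cm M).charpoly.roots, ‖z‖ ≤ ρ)
    (hneg : (-(ρ : ℂ)) ∈ (cm M).charpoly.roots) (P : ℕ) (hP0 : 0 < P)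
    (hP : (Fintype.card ι).factorial ∣ P) (hP2 : 2 ∣ P)
    (hE : EM (cm M).charpoly P ((ρ : ℂ) ^ P) = 2)
    (he : ∀ μ ∈ Ms (cm M).charpoly P, μ ≠ (ρ : ℂ) ^ P →
      eM (cm M).charpoly P μ = EM (cm M).charpoly P μ)
    (hne : ((Ms (cm M).charpoly P).erase ((ρ : ℂ) ^ P)).Nonempty) :
    ∃ ν : ℝ, 0 < ν ∧ (ν : ℂ) ∈ (Ms (cm M).charpoly P).erase ((ρ : ℂ) ^ P) ∧
      ∀ μ ∈ (Ms (cm M).charpoly P).erase ((ρ : ℂ) ^ P), μ ≠ (ν : ℂ) → ‖μ‖ < ν := by
  classical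
  have hPe : Even P := even_iff_two_dvd.2 hP2
  have hρC : (ρ : ℂ) ≠ 0 := by exact_mod_cast hρ.ne'
  have hu := cp_univ M
  have hneg' : (-(ρ : ℂ)) ∈ (cp M Finset.univ).roots := by rw [hu]; exact hneg
  obtain ⟨T, _, hI, hTneg, hfac⟩ := exists_block M Finset.univ _ hneg'
  set χ := (cm M).charpoly with hχ
  set U := Finset.univ \ T with hU
  rw [hu] at hfac
  have hχ0 : χ ≠ 0 := (Matrix.charpoly_monic _).ne_zero
  have hroots : χ.roots = (cp M T).roots + (cp M U).roots := by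
    rw [hfac]
    exact Polynomial.roots_mul (by rw [← hfac]; exact hχ0)
  have hA : ∀ z ∈ (cp M T).roots, z ∈ χ.roots := fun z hz => by
    rw [hroots]; exact Multiset.mem_add.2 (Or.inl hz)
  have hB : ∀ z ∈ (cp M U).roots, z ∈ χ.roots := fun z hz => by
    rw [hroots]; exact Multiset.mem_add.2 (Or.inr hz)
  have hleA : ∀ z ∈ (cp M T).roots, ‖z‖ ≤ ρ := fun z hz => hle z (hA z hz)
  have hnormneg : ‖(-(ρ : ℂ))‖ = ρ := by
    rw [norm_neg, Complex.norm_real, Real.norm_eq_abs, abs_of_pos hρ]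
  have hTpos : (ρ : ℂ) ∈ (cp M T).roots :=
    (irr_phase (sub M T) (fun i j => hM _ _) hI ρ hρ hleA (-(ρ : ℂ)) hnormneg hTneg).2.2
  -- step 3
  have hBlt : ∀ z ∈ (cp M U).roots, ‖z‖ < ρ := by
    intro z hz
    rcases lt_or_eq_of_le (hle z (hB z hz)) with h | h
    · exact h
    exfalso
    have hzp : z ^ P = (ρ : ℂ) ^ P := pf_root_pow M hM ρ hρ hle z (hB z hz) h P hP
    have hz0 : z ≠ 0 := by
      intro h0
      rw [h0, norm_zero] at h
      exact hρ.ne h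
    have hEM : EM χ P ((ρ : ℂ) ^ P) =
        (∑ w ∈ (Zs χ).filter (fun w => w ^ P = (ρ : ℂ) ^ P), (cp M T).roots.count w) +
        ∑ w ∈ (Zs χ).filter (fun w => w ^ P = (ρ : ℂ) ^ P), (cp M U).roots.count w := by
      unfold EM
      rw [hroots, ← Finset.sum_add_distrib]
      refine Finset.sum_congr rfl fun w _ => ?_
      exact Multiset.count_add _ _ _
    have hpF : (ρ : ℂ) ∈ (Zs χ).filter (fun w => w ^ P = (ρ : ℂ) ^ P) := by
      rw [Finset.mem_filter, mem_Zs]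
      exact ⟨⟨hρC, hA _ hTpos⟩, rfl⟩
    have hnF : (-(ρ : ℂ)) ∈ (Zs χ).filter (fun w => w ^ P = (ρ : ℂ) ^ P) := by
      rw [Finset.mem_filter, mem_Zs]
      exact ⟨⟨neg_ne_zero.2 hρC, hA _ hTneg⟩, hPe.neg_pow _⟩
    have hzF : z ∈ (Zs χ).filter (fun w => w ^ P = (ρ : ℂ) ^ P) := by
      rw [Finset.mem_filter, mem_Zs]
      exact ⟨⟨hz0, hB _ hz⟩, hzp⟩
    have hpn : (ρ : ℂ) ≠ -(ρ : ℂ) := by
      intro h1
      have h2 : (2 : ℂ) * ρ = 0 := by linear_combination h1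
      rcases mul_eq_zero.1 h2 with h3 | h3
      · norm_num at h3
      · exact hρC h3
    have h1 : 2 ≤ ∑ w ∈ (Zs χ).filter (fun w => w ^ P = (ρ : ℂ) ^ P), (cp M T).roots.count w := by
      calc 2 ≤ ∑ w ∈ ({(ρ : ℂ), -(ρ : ℂ)} : Finset ℂ), (cp M T).roots.count w := by
            rw [Finset.sum_pair hpn]
            have ha := Multiset.count_pos.2 hTpos
            have hb := Multiset.count_pos.2 hTneg
            omega
        _ ≤ _ := by
            refine Finset.sum_le_sum_of_subset ?_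
            intro w hw
            rw [Finset.mem_insert, Finset.mem_singleton] at hw
            rcases hw with rfl | rfl
            · exact hpF
            · exact hnF
    have h2 : 1 ≤ ∑ w ∈ (Zs χ).filter (fun w => w ^ P = (ρ : ℂ) ^ P), (cp M U).roots.count w := by
      have ha := Multiset.count_pos.2 hz
      have hb := Finset.single_le_sum (f := fun w => (cp M U).roots.count w)
        (fun w _ => Nat.zero_le _) hzF
      exact le_trans ha hb
    rw [hE] at hEM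
    omega
  -- step 4
  have hstep4 : ∀ z ∈ Zs χ, z ^ P ≠ (ρ : ℂ) ^ P → z ∈ (cp M U).roots := by
    intro z hz hzp
    obtain ⟨hz0, hzr⟩ := (mem_Zs χ z).1 hz
    rw [hroots] at hzr
    rcases Multiset.mem_add.1 hzr with h | h
    · exfalso
      have hnz : -z ∈ (cp M T).roots :=
        irr_sym (sub M T) (fun i j => hM _ _) hI ρ hρ hleA hTneg z h
      have hne2 : z ≠ -z := by
        intro h1
        have h2 : (2 : ℂ) * z = 0 := by linear_combination h1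
        rcases mul_eq_zero.1 h2 with h3 | h3
        · norm_num at h3
        · exact hz0 h3
      have hlt := eM_lt_EM χ P (z ^ P) z (-z) hz
        ((mem_Zs χ (-z)).2 ⟨neg_ne_zero.2 hz0, hA _ hnz⟩) hne2 rfl (hPe.neg_pow z)
      have heq := he (z ^ P) (by
        unfold Ms
        exact Finset.mem_image_of_mem (fun z : ℂ => z ^ P) hz) hzp
      omega
    · exact h
  -- step 5
  obtain ⟨μ1, hμ1⟩ := hne
  rw [Finset.mem_erase] at hμ1
  obtain ⟨hμ1a, hμ1b⟩ := hμ1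
  unfold Ms at hμ1b
  obtain ⟨z1, hz1, rfl⟩ := Finset.mem_image.1 hμ1b
  have hz1B := hstep4 z1 hz1 hμ1a
  have hz10 : z1 ≠ 0 := ((mem_Zs χ z1).1 hz1).1
  obtain ⟨zm, hzm, hmax⟩ := Finset.exists_max_image (cp M U).roots.toFinset (fun z : ℂ => ‖z‖)
    ⟨z1, Multiset.mem_toFinset.2 hz1B⟩
  rw [Multiset.mem_toFinset] at hzm
  have hmax' : ∀ z ∈ (cp M U).roots, ‖z‖ ≤ ‖zm‖ := fun z hz =>
    hmax z (Multiset.mem_toFinset.2 hz)
  have hρ2 : 0 < ‖zm‖ := lt_of_lt_of_le (norm_pos_iff.2 hz10) (hmax' z1 hz1B)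
  have hρ2lt : ‖zm‖ < ρ := hBlt zm hzm
  have hr2 : ((‖zm‖ : ℝ) : ℂ) ∈ (cp M U).roots :=
    pf_root (sub M U) (fun i j => hM _ _) ‖zm‖ hρ2 hmax' zm hzm rfl
  have hcardU : (Fintype.card U).factorial ∣ P := by
    refine dvd_trans (Nat.factorial_dvd_factorial ?_) hP
    rw [Fintype.card_coe]
    exact Finset.card_le_univ U
  have hpowU : ∀ z ∈ (cp M U).roots, ‖z‖ = ‖zm‖ → z ^ P = ((‖zm‖ : ℝ) : ℂ) ^ P := fun z hz hn =>
    pf_root_pow (sub M U) (fun i j => hM _ _) ‖zm‖ hρ2 hmax' z hz hn P hcardU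
  have hlt : ‖zm‖ ^ P < ρ ^ P := pow_lt_pow_left₀ hρ2lt hρ2.le hP0.ne'
  have hcast : ((‖zm‖ ^ P : ℝ) : ℂ) = ((‖zm‖ : ℝ) : ℂ) ^ P := by push_cast; rfl
  refine ⟨‖zm‖ ^ P, pow_pos hρ2 P, ?_, ?_⟩
  · rw [Finset.mem_erase]
    refine ⟨?_, ?_⟩
    · intro h
      have h2 : ((‖zm‖ ^ P : ℝ) : ℂ) = ((ρ ^ P : ℝ) : ℂ) := by
        rw [h]; push_cast; rfl
      have h3 : ‖zm‖ ^ P = ρ ^ P := by exact_mod_cast h2
      exact hlt.ne h3
    · rw [hcast]
      unfold Ms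
      exact Finset.mem_image_of_mem (fun z : ℂ => z ^ P)
        ((mem_Zs χ _).2 ⟨by exact_mod_cast hρ2.ne', hB _ hr2⟩)
  · intro μ hμ hμν
    rw [Finset.mem_erase] at hμ
    obtain ⟨ha, hb⟩ := hμ
    unfold Ms at hb
    obtain ⟨z, hz, rfl⟩ := Finset.mem_image.1 hb
    have hzB := hstep4 z hz ha
    rcases lt_or_eq_of_le (hmax' z hzB) with h | h
    · rw [norm_pow]
      exact pow_lt_pow_left₀ h (norm_nonneg z) hP0.ne'
    · exfalso
      apply hμν
      rw [hcast]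
      exact hpowU z hzB h

end Pool.Agent.Helper73.DM
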