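import Pool.Agent.Helper73.DM.SecondRoot
import Pool.Agent.Helper73.DM.Growth
import Pool.Agent.Helper73.DM.Only
import Pool.Agent.Helper73.DM.AllOne
import Pool.Agent.Helper73.DM.Dif

/-!
# DM-18: the structure theorem for nonnegative integer matrices

Notation: `MR` = `M` as a real matrix, `χ = (cm MR).charpoly` = the integer characteristic polynomial of `M` mapped to `ℂ` (`Matrix.charpoly_map`), `f n = ∑_b (p M^n)_b`, `P = (k+4)!` (even, `card ι ≤ k+4 ≤ P`, `(card ι)! ∣ P`),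
`u = dif f P r`. `act χ f = 0` by `act_matrix` (`l = p`, `v = 1`) and Cayley-Hamilton. `0` is a root of `χ`: the zero row (`det = 0`), so `count 0 ≥ 1`. By `Gp_dvd` and `act_dif`: `act (Gp χ P (Ms χ P)) u = 0`.
* If `Zs χ = ∅`: `Ms = ∅`, `Gp = 1`, so `u = act 1 u = 0`: first alternative with `A = 1`.
* Otherwise `ρ` = the maximum of the norms of the roots, `ρ > 0`; `pf_root`: `ρ` is a root; `pf_root_pow`: every root of norm `ρ` has `P`-th power `μ0 = ρ^P`. `G1 = Gp χ P (Ms.erase μ0)`, `Gp χ P Ms = (X - C μ0)^(eM μ0) * G1`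
  (`Finset.mul_prod_erase`). Roots of `G1` are `z^P ≠ μ0`, `z ∈ Zs` (`Gp_roots`), so of norm `< ρ^P`.
  - Case 1, `act G1 u ≠ 0`: `Dom` with `ρ^P`, `eM μ0`, `G1`.
  - Case 2, `act G1 u = 0`.
    (i) All roots of norm `ρ` are `= ρ`: `only_rho` (growth hypothesis: if `‖f n‖ ≤ B t^n`, `0 < t < ρ`, then `growth_root` gives norm `≤ t` for all roots, but `ρ` is a root) gives `ρ = 1`; `all_one`: all nonzero roots have norm `1`,
        so are `= 1`, `Ms = {μ0}`, `G1 = 1`, `u = 0`: `A = 1`.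
    (ii) There is a root `z2 ≠ ρ`, `‖z2‖ = ρ`. `ρ`, `z2` are in the fibre of `μ0`, so `EM μ0 ≥ 2`; `natDegree G1 = ∑_{erase} eM ≤ ∑_{erase} EM = natDegree χ - count 0 - EM μ0 ≤ (k + 4) - 1 - 2 = k + 1` (`Gp_natDegree`, `sum_EM`, `eM_le_EM`).
        If `natDegree G1 ≤ k`: `A = G1`. Otherwise equality everywhere: `EM μ0 = 2` and `eM μ = EM μ` for all `μ ∈ Ms.erase μ0` (`Finset.sum_eq_sum_iff_of_le` or by contradiction), and `Ms.erase μ0` is nonempty (`natDegree G1 = k + 1 > 0`).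
        `z2 = -ρ`: the conjugate of `z2` is a root too (`MR` is real), of norm `ρ`, so in the fibre; if `z2` is not real, `z2`, its conjugate and `ρ` are three elements of the fibre, `EM ≥ 3`.
        `second_root` gives `ν`. `G1 = (X - C ν)^(eM ν) * G2`, `G2 = Gp χ P ((Ms.erase μ0).erase ν)`, `eM ν ≥ 1`. If `act G2 u = 0`: `A = G2`, degree `≤ k`. Otherwise `Dom` with `ν`, `eM ν`, `G2` (roots of `G2` of norm `< ν` by `second_root`).
-/

set_option autoImplicit false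

open Polynomial

namespace Pool.Agent.Helper73.DM

private theorem mem_Zs {χ : ℂ[X]} {z : ℂ} : z ∈ Zs χ ↔ z ≠ 0 ∧ z ∈ χ.roots := by
  unfold Zs
  rw [Finset.mem_erase, Multiset.mem_toFinset]

private theorem card_le_EM (χ : ℂ[X]) (P : ℕ) (μ : ℂ) (T : Finset ℂ)
    (hT : ∀ z ∈ T, z ∈ Zs χ ∧ z ^ P = μ) : T.card ≤ EM χ P μ := by
  unfold EM
  have h1 : T ⊆ (Zs χ).filter (fun z => z ^ P = μ) := fun z hz => Finset.mem_filter.2 (hT z hz)
  calc T.card = ∑ z ∈ T, 1 := by rw [Finset.card_eq_sum_ones]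
    _ ≤ ∑ z ∈ T, χ.roots.count z := Finset.sum_le_sum fun z hz =>
        Multiset.one_le_count_iff_mem.2 (mem_Zs.1 (hT z hz).1).2
    _ ≤ ∑ z ∈ (Zs χ).filter (fun z => z ^ P = μ), χ.roots.count z :=
        Finset.sum_le_sum_of_subset h1

private theorem one_le_eM (χ : ℂ[X]) (P : ℕ) (μ : ℂ) (h : μ ∈ Ms χ P) : 1 ≤ eM χ P μ := by
  unfold Ms at h
  rw [Finset.mem_image] at h
  obtain ⟨z, hz, hzμ⟩ := h
  unfold eM
  refine le_trans (Multiset.one_le_count_iff_mem.2 (mem_Zs.1 hz).2) ?_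
  exact Finset.le_sup (f := fun z => χ.roots.count z) (Finset.mem_filter.2 ⟨hz, hzμ⟩)

private theorem conj_root {ι : Type*} [Fintype ι] [DecidableEq ι] (M : Matrix ι ι ℝ) {z : ℂ}
    (h : z ∈ (cm M).charpoly.roots) : (starRingEnd ℂ) z ∈ (cm M).charpoly.roots := by
  rw [eig_iff] at h ⊢
  obtain ⟨v, hv0, hv⟩ := h
  refine ⟨fun i => (starRingEnd ℂ) (v i), fun h0 => hv0 (funext fun i => ?_), funext fun i => ?_⟩
  · have h1 := congrFun h0 i
    exact (map_eq_zero (starRingEnd ℂ)).1 h1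
  · have h1 := congrArg (starRingEnd ℂ) (congrFun hv i)
    unfold Matrix.mulVec dotProduct at h1 ⊢
    rw [map_sum] at h1
    rw [Pi.smul_apply, smul_eq_mul, map_mul] at h1
    rw [Pi.smul_apply, smul_eq_mul, ← h1]
    refine Finset.sum_congr rfl fun j _ => ?_
    have h3 : (starRingEnd ℂ) (cm M i j) = cm M i j := by rw [cm_apply, Complex.conj_ofReal]
    rw [map_mul]
    change cm M i j * (starRingEnd ℂ) (v j) = (starRingEnd ℂ) (cm M i j) * (starRingEnd ℂ) (v j)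
    rw [h3]

private theorem Gp_split (χ : ℂ[X]) (P : ℕ) (S : Finset ℂ) {μ : ℂ} (h : μ ∈ S) :
    (X - C μ) ^ eM χ P μ * Gp χ P (S.erase μ) = Gp χ P S := by
  unfold Gp
  exact Finset.mul_prod_erase S (fun μ => (X - C μ) ^ eM χ P μ) h

theorem structure_thm {ι : Type*} [Fintype ι] [DecidableEq ι] (k : ℕ) (M : Matrix ι ι ℕ)
    (p : ι → ℕ) (hcard : Fintype.card ι ≤ k + 4) (hzero : ∃ e, ∀ j, M e j = 0)
    (hreach : ∀ a, ∃ n : ℕ, 0 < Matrix.vecMul p (M ^ n) a) (r : ℕ) :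
    (∃ A : ℂ[X], A ≠ 0 ∧ A.natDegree ≤ k ∧
      act A (dif (fun n => ((∑ b, Matrix.vecMul p (M ^ n) b : ℕ) : ℂ)) (k + 4).factorial r) = 0) ∨
    Dom (dif (fun n => ((∑ b, Matrix.vecMul p (M ^ n) b : ℕ) : ℂ)) (k + 4).factorial r) := by
  set MR : Matrix ι ι ℝ := M.map (fun a : ℕ => (a : ℝ)) with hMR
  have hMR0 : ∀ i j, 0 ≤ MR i j := fun i j => by
    rw [hMR, Matrix.map_apply]
    exact Nat.cast_nonneg _
  set χ : ℂ[X] := (cm MR).charpoly with hχdef
  have hχ : χ.Monic := Matrix.charpoly_monic _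
  have hχdeg : χ.natDegree = Fintype.card ι := by
    rw [hχdef]
    exact Matrix.charpoly_natDegree_eq_dim _
  set P : ℕ := (k + 4).factorial with hPdef
  have hP0 : 0 < P := Nat.factorial_pos _
  have hPk : k + 4 ≤ P := Nat.self_le_factorial _
  have hPdvd : (Fintype.card ι).factorial ∣ P := Nat.factorial_dvd_factorial hcard
  have hP2 : 2 ∣ P := Nat.dvd_factorial (by norm_num) (by omega)
  set f : ℕ → ℂ := fun n => ((∑ b, Matrix.vecMul p (M ^ n) b : ℕ) : ℂ) with hf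
  -- powers
  have hpowR : ∀ n : ℕ, MR ^ n = (M ^ n).map (fun a : ℕ => (a : ℝ)) := by
    intro n
    have := map_pow (Nat.castRingHom ℝ).mapMatrix M n
    rw [RingHom.mapMatrix_apply, RingHom.mapMatrix_apply] at this
    exact this.symm
  have hvec : ∀ n b, Matrix.vecMul (fun i => (p i : ℝ)) (MR ^ n) b =
      ((Matrix.vecMul p (M ^ n) b : ℕ) : ℝ) := by
    intro n b
    unfold Matrix.vecMul dotProduct
    push_cast
    refine Finset.sum_congr rfl fun i _ => ?_
    rw [hpowR, Matrix.map_apply]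
  have hfact : act χ f = 0 := by
    have h1 : f = fun m => (fun i => (p i : ℂ)) ⬝ᵥ (cm MR ^ m).mulVec (fun _ => 1) := by
      funext m
      rw [hf]
      unfold Matrix.mulVec Matrix.vecMul dotProduct
      simp only [mul_one]
      push_cast
      rw [Finset.sum_comm]
      refine Finset.sum_congr rfl fun i _ => ?_
      rw [Finset.mul_sum]
      refine Finset.sum_congr rfl fun b _ => ?_
      rw [← cm_pow, cm_apply, hpowR, Matrix.map_apply]
      push_cast
      rfl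
    funext n
    rw [h1, act_matrix, hχdef, Matrix.aeval_self_charpoly, mul_zero]
    simp
  have hroot0 : (0 : ℂ) ∈ χ.roots := by
    rw [hχdef, eig_iff]
    obtain ⟨e, he⟩ := hzero
    have hdet : (cm MR).det = 0 := by
      refine Matrix.det_eq_zero_of_row_eq_zero e fun j => ?_
      rw [cm_apply, hMR, Matrix.map_apply, he j]
      simp
    obtain ⟨v, hv, hv2⟩ := Matrix.exists_mulVec_eq_zero_iff.2 hdet
    exact ⟨v, hv, by rw [hv2, zero_smul]⟩
  have hcount0 : 1 ≤ χ.roots.count 0 := Multiset.one_le_count_iff_mem.2 hroot0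
  have hact : act (Gp χ P (Ms χ P)) (dif f P r) = 0 :=
    act_dif (Gp_dvd χ hχ P hP0 (by rw [hχdeg]; exact hcard.trans hPk)) f hfact r
  have hone : act (1 : ℂ[X]) (dif f P r) = 0 → ∃ A : ℂ[X], A ≠ 0 ∧ A.natDegree ≤ k ∧
      act A (dif f P r) = 0 := fun h => ⟨1, one_ne_zero, by simp, h⟩
  rcases (Zs χ).eq_empty_or_nonempty with hZ | hZ
  · left
    refine hone ?_
    have h1 : Ms χ P = ∅ := by
      unfold Ms
      rw [hZ, Finset.image_empty]
    rw [h1] at hact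
    exact hact
  obtain ⟨z0, hz0, hmax⟩ := Finset.exists_max_image (Zs χ) (fun z => ‖z‖) hZ
  set ρ : ℝ := ‖z0‖ with hρdef
  have hρ : 0 < ρ := norm_pos_iff.2 (mem_Zs.1 hz0).1
  have hle : ∀ z ∈ χ.roots, ‖z‖ ≤ ρ := by
    intro z hz
    by_cases h0 : z = 0
    · rw [h0, norm_zero]
      exact hρ.le
    · exact hmax z (mem_Zs.2 ⟨h0, hz⟩)
  have hρroot : (ρ : ℂ) ∈ χ.roots := pf_root MR hMR0 ρ hρ hle z0 (mem_Zs.1 hz0).2 rfl
  have hρC : (ρ : ℂ) ≠ 0 := Complex.ofReal_ne_zero.2 hρ.ne'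
  have hpow : ∀ z ∈ χ.roots, ‖z‖ = ρ → z ^ P = (ρ : ℂ) ^ P := fun z hz hn =>
    pf_root_pow MR hMR0 ρ hρ hle z hz hn P hPdvd
  set μ0 : ℂ := (ρ : ℂ) ^ P with hμ0
  have hμ0M : μ0 ∈ Ms χ P := by
    unfold Ms
    exact Finset.mem_image.2 ⟨ρ, mem_Zs.2 ⟨hρC, hρroot⟩, rfl⟩
  set G1 : ℂ[X] := Gp χ P ((Ms χ P).erase μ0) with hG1
  have hG1m : G1.Monic := Gp_monic _ _ _
  have hsplit : (X - C μ0) ^ eM χ P μ0 * G1 = Gp χ P (Ms χ P) := Gp_split χ P _ hμ0M
  have hG1roots : ∀ z ∈ G1.roots, ‖z‖ < ρ ^ P := by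
    intro z hz
    have h1 := Gp_roots χ P _ z hz
    rw [Finset.mem_erase] at h1
    obtain ⟨h2, h3⟩ := h1
    unfold Ms at h3
    rw [Finset.mem_image] at h3
    obtain ⟨w, hw, rfl⟩ := h3
    rw [norm_pow]
    have h4 : ‖w‖ ≠ ρ := fun h => h2 (hpow w (mem_Zs.1 hw).2 h)
    exact pow_lt_pow_left₀ (lt_of_le_of_ne (hle w (mem_Zs.1 hw).2) h4) (norm_nonneg _) hP0.ne'
  by_cases c1 : act G1 (dif f P r) = 0
  swap
  · right
    refine ⟨ρ ^ P, eM χ P μ0, G1, pow_pos hρ _, hG1m, hG1roots, ?_, c1⟩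
    have h1 : (((ρ ^ P : ℝ)) : ℂ) = μ0 := by
      rw [hμ0]
      push_cast
      rfl
    rw [h1, hsplit]
    exact hact
  by_cases c2 : ∀ z ∈ χ.roots, ‖z‖ = ρ → z = (ρ : ℂ)
  · -- only the root ρ on the circle
    left
    have hgrow : ∀ t B : ℝ, 0 < t → t < ρ → ¬ ∀ n : ℕ, ‖f n‖ ≤ B * t ^ n := by
      intro t B ht htρ hcon
      have h1 := growth_root MR hMR0 (fun i => (p i : ℝ)) (fun i => Nat.cast_nonneg _) (fun a => by
        obtain ⟨n, hn⟩ := hreach a
        refine ⟨n, ?_⟩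
        rw [hvec]
        exact_mod_cast hn) t B ht (fun n => by
        refine le_trans (le_of_eq ?_) (hcon n)
        rw [hf]
        simp only
        rw [Complex.norm_natCast]
        push_cast
        exact Finset.sum_congr rfl fun b _ => hvec n b) _ hρroot
      rw [Complex.norm_real, Real.norm_eq_abs, abs_of_pos hρ] at h1
      linarith
    have hρ1 : ρ = 1 := only_rho f χ hχ hfact ρ hρ hle c2 hgrow P r hP0 G1 hG1m hG1roots c1
    have hχZ : χ = ((M.map (fun a : ℕ => (a : ℤ))).charpoly).map (Int.castRingHom ℂ) := by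
      rw [← Matrix.charpoly_map, hχdef]
      congr 1
    have hall := all_one (M.map (fun a : ℕ => (a : ℤ))).charpoly (Matrix.charpoly_monic _) (by
      rw [← hχZ]
      intro z hz
      rw [← hρ1]
      exact hle z hz)
    rw [← hχZ] at hall
    have hE : (Ms χ P).erase μ0 = ∅ := by
      rw [Finset.eq_empty_iff_forall_notMem]
      intro μ hμ
      rw [Finset.mem_erase] at hμ
      obtain ⟨h2, h3⟩ := hμ
      unfold Ms at h3
      rw [Finset.mem_image] at h3
      obtain ⟨w, hw, rfl⟩ := h3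
      have h4 := hall w (mem_Zs.1 hw).2 (mem_Zs.1 hw).1
      rw [← hρ1] at h4
      exact h2 (hpow w (mem_Zs.1 hw).2 h4)
    refine hone ?_
    rw [hG1, hE] at c1
    exact c1
  · push Not at c2
    obtain ⟨z2, hz2, hz2n, hz2ρ⟩ := c2
    have hz20 : z2 ≠ 0 := by
      rintro rfl
      rw [norm_zero] at hz2n
      exact hρ.ne hz2n
    have hfib : ∀ z ∈ χ.roots, ‖z‖ = ρ → z ∈ Zs χ ∧ z ^ P = μ0 := by
      intro z hz hn
      refine ⟨mem_Zs.2 ⟨?_, hz⟩, hpow z hz hn⟩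
      rintro rfl
      rw [norm_zero] at hn
      exact hρ.ne hn
    have hρn : ‖(ρ : ℂ)‖ = ρ := by
      rw [Complex.norm_real, Real.norm_eq_abs, abs_of_pos hρ]
    have hEM2 : 2 ≤ EM χ P μ0 := by
      have h1 := card_le_EM χ P μ0 {(ρ : ℂ), z2} (by
        intro z hz
        rw [Finset.mem_insert, Finset.mem_singleton] at hz
        rcases hz with rfl | rfl
        · exact hfib _ hρroot hρn
        · exact hfib _ hz2 hz2n)
      rwa [Finset.card_pair (Ne.symm hz2ρ)] at h1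
    have hsum := sum_EM χ hχ P
    rw [← Finset.add_sum_erase _ _ hμ0M, hχdeg] at hsum
    have hG1deg : G1.natDegree = ∑ μ ∈ (Ms χ P).erase μ0, eM χ P μ := Gp_natDegree _ _ _
    have hleE : ∑ μ ∈ (Ms χ P).erase μ0, eM χ P μ ≤ ∑ μ ∈ (Ms χ P).erase μ0, EM χ P μ :=
      Finset.sum_le_sum fun μ _ => eM_le_EM χ P μ
    by_cases c3 : G1.natDegree ≤ k
    · left
      exact ⟨G1, hG1m.ne_zero, c3, c1⟩
    push Not at c3
    have hEMeq : EM χ P μ0 = 2 := by omega
    have hsumeq : ∑ μ ∈ (Ms χ P).erase μ0, eM χ P μ = ∑ μ ∈ (Ms χ P).erase μ0, EM χ P μ := by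
      omega
    have hG1k : G1.natDegree ≤ k + 1 := by omega
    have heq : ∀ μ ∈ (Ms χ P).erase μ0, eM χ P μ = EM χ P μ :=
      (Finset.sum_eq_sum_iff_of_le fun μ _ => eM_le_EM χ P μ).1 hsumeq
    have hne : ((Ms χ P).erase μ0).Nonempty := by
      rw [Finset.nonempty_iff_ne_empty]
      intro h
      rw [h, Finset.sum_empty] at hG1deg
      omega
    have hneg : (-(ρ : ℂ)) ∈ χ.roots := by
      have h1 : (starRingEnd ℂ) z2 = z2 := by
        by_contra hcon
        have h2 := conj_root MR hz2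
        have h3 : ‖(starRingEnd ℂ) z2‖ = ρ := by rw [RCLike.norm_conj, hz2n]
        have h4 : (starRingEnd ℂ) z2 ≠ (ρ : ℂ) := by
          intro h
          apply hz2ρ
          have := congrArg (starRingEnd ℂ) h
          rwa [Complex.conj_conj, Complex.conj_ofReal] at this
        have h5 := card_le_EM χ P μ0 {(ρ : ℂ), z2, (starRingEnd ℂ) z2} (by
          intro z hz
          rw [Finset.mem_insert, Finset.mem_insert, Finset.mem_singleton] at hz
          rcases hz with rfl | rfl | rfl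
          · exact hfib _ hρroot hρn
          · exact hfib _ hz2 hz2n
          · exact hfib _ h2 h3)
        rw [Finset.card_eq_three.2 ⟨(ρ : ℂ), z2, (starRingEnd ℂ) z2, Ne.symm hz2ρ, Ne.symm h4,
          Ne.symm hcon, rfl⟩] at h5
        omega
      obtain ⟨x, hx⟩ := Complex.conj_eq_iff_real.1 h1
      have h6 : |x| = ρ := by
        rw [← hz2n, hx, Complex.norm_real, Real.norm_eq_abs]
      have h7 : x = -ρ := by
        rcases (abs_eq hρ.le).1 h6 with h | h
        · exact absurd (by rw [hx, h]) hz2ρ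
        · exact h
      rw [hx, h7] at hz2
      push_cast at hz2
      exact hz2
    obtain ⟨ν, hν0, hνM, hνlt⟩ := second_root MR hMR0 ρ hρ hle hneg P hP0 hPdvd hP2 hEMeq
      (fun μ hμ hμne => heq μ (Finset.mem_erase.2 ⟨hμne, hμ⟩)) hne
    set G2 : ℂ[X] := Gp χ P (((Ms χ P).erase μ0).erase (ν : ℂ)) with hG2
    have hsplit2 : (X - C (ν : ℂ)) ^ eM χ P (ν : ℂ) * G2 = G1 := Gp_split χ P _ hνM
    have hG2deg : G2.natDegree = ∑ μ ∈ ((Ms χ P).erase μ0).erase (ν : ℂ), eM χ P μ :=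
      Gp_natDegree _ _ _
    have h8 : eM χ P (ν : ℂ) + ∑ μ ∈ ((Ms χ P).erase μ0).erase (ν : ℂ), eM χ P μ =
        ∑ μ ∈ (Ms χ P).erase μ0, eM χ P μ := Finset.add_sum_erase _ _ hνM
    have h9 := one_le_eM χ P (ν : ℂ) (Finset.mem_of_mem_erase hνM)
    by_cases c4 : act G2 (dif f P r) = 0
    · left
      exact ⟨G2, (Gp_monic _ _ _).ne_zero, by omega, c4⟩
    · right
      refine ⟨ν, eM χ P (ν : ℂ), G2, hν0, Gp_monic _ _ _, ?_, ?_, c4⟩
      · intro z hz
        have h10 := Gp_roots χ P _ z hz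
        rw [Finset.mem_erase] at h10
        exact hνlt z h10.2 h10.1
      · rw [hsplit2]
        exact c1

end Pool.Agent.Helper73.DM
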