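import Pool.Agent.Helper73.DM.Core
import Pool.Agent.Helper73.DM.MatD0L

/-!
# DM-33: the D0L system with `k + 4` letters

`core k a u` gives `N, η, s, c`. Write `N` also for the integer matrix. Growth: there are natural `Y, t ≥ 1` with `c * 2^n * |lrs a u n| ≤ Y t^n` for all `n` (`|lrs a u n| ≤ Y0 t0^n`: strong induction with `t0 = 1 + ∑ |a i|`, `Y0 = (1 + ∑ |u i|)`).
`R ∈ ℕ` with `R ≥ t²`, `R ≥ 2` and `R ≥` all column sums of `N²`; `E j = R - ∑_i (N²) i j ∈ ℕ`. `ηY = R + ∑ E + ∑ η`, `ηX = R + ∑ E + ∑_i (N η)_i` (then `ηX + 1·η = ηY + 1·N η`), `ηX ≥ 1`. `K ∈ ℕ`, `K ≥ |s i|` for all `i`, `K ≥ Y t`.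
Index set `Fin 2 ⊕ Fin (k+1) ⊕ Unit` (X, Y, Z_i, e), of card `k + 4`. Matrix `M` (rows = letter, columns = letters of the image): X: Y once, e `ηX - 1` times; Y: X `R` times, Z_j `E j` times, e `ηY - R - ∑ E` times; Z_i: Z_j `N i j` times, e `η i - ∑_j N i j` times; e: nothing.
`w`: X `K`, Y 0, Z_i `(K + s i).toNat`, e 0. `exists_d0l`. By induction on `m` (integers): `w M^(2m)`: X `K R^m`, Y `0`, Z `r_2m = K R^m 1 + s N^(2m)` (row vectors); `w M^(2m+1)`: X `0`, Y `K R^m`, Z `r_(2m+1) = K R^m (1 N) + s N^(2m+1)`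
(the step 2m+1 -> 2m+2: `r_(2m+1) N + K R^m E = K R^m 1 N² + s N^(2m+2) + K R^m (R 1 - 1 N²)`). The total length after one more step is `∑_a (w M^n)_a * (row sum of M at a)` with row sums `ηX, ηY, η i, 0`:
`grow p (2m+1) = K R^m (ηX + 1·η) + s N^(2m) η`, `grow p (2m+2) = K R^m (ηY + 1·N η) + s N^(2m+1) η`: the difference is `s N^(2m+1) η - s N^(2m) η = c 4^m lrs a u (2m)`.
`grow p (2m+2) ≤ grow p (2m+3)`: the difference is `K R^m (R - 1) (ηX + 1·η) + c 2^(2m+1) lrs a u (2m+1) ≥ K R^m - Y t^(2m+1) ≥ 0` (`K ≥ Y t`, `R ≥ t²`). `grow p 0 ≤ grow p 1`: `K + ∑ r_0 ≤ K ηX + r_0 · η` since `ηX, η i ≥ 1`, `r_0 ≥ 0`.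
-/

set_option autoImplicit false

namespace Pool.Agent.Helper73.DM

private theorem h86_lrs_lt {k : ℕ} (a u : Fin k → ℤ) {n : ℕ} (h : n < k) :
    lrs a u n = u ⟨n, h⟩ := by
  rw [lrs, dif_pos h]

private theorem h86_lrs_ge {k : ℕ} (a u : Fin k → ℤ) {n : ℕ} (h : ¬ n < k) :
    lrs a u n = ∑ i : Fin k, a i * lrs a u (n - k + i) := by
  rw [lrs, dif_neg h]

private theorem h86_lrs_bound {k : ℕ} (a u : Fin k → ℤ) (n : ℕ) :
    |lrs a u n| ≤ (((1 + ∑ i, (u i).natAbs) * (1 + ∑ i, (a i).natAbs) ^ n : ℕ) : ℤ) := by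
  induction n using Nat.strong_induction_on with
  | _ n ih =>
    have ht : ∀ m : ℕ, 1 ≤ (1 + ∑ i, (a i).natAbs) ^ m := fun m =>
      Nat.one_le_pow _ _ (by omega)
    by_cases h : n < k
    · rw [h86_lrs_lt a u h]
      have h1 : (u ⟨n, h⟩).natAbs ≤ ∑ i, (u i).natAbs :=
        Finset.single_le_sum (f := fun i => (u i).natAbs) (fun _ _ => Nat.zero_le _)
          (Finset.mem_univ _)
      rw [Int.abs_eq_natAbs]
      have h3 : (u ⟨n, h⟩).natAbs ≤
          (1 + ∑ i, (u i).natAbs) * (1 + ∑ i, (a i).natAbs) ^ n := by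
        have := ht n
        calc (u ⟨n, h⟩).natAbs ≤ (1 + ∑ i, (u i).natAbs) * 1 := by omega
          _ ≤ _ := Nat.mul_le_mul_left _ this
      exact_mod_cast h3
    · rw [h86_lrs_ge a u h]
      obtain ⟨Y0, hY0⟩ : ∃ Y0 : ℕ, Y0 = 1 + ∑ i, (u i).natAbs := ⟨_, rfl⟩
      obtain ⟨t0, ht0⟩ : ∃ t0 : ℕ, t0 = 1 + ∑ i, (a i).natAbs := ⟨_, rfl⟩
      rw [← hY0, ← ht0] at ih ⊢
      have h1 : |∑ i : Fin k, a i * lrs a u (n - k + i)| ≤
          ∑ i : Fin k, ((a i).natAbs : ℤ) * ((Y0 * t0 ^ (n - 1) : ℕ) : ℤ) := by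
        refine (Finset.abs_sum_le_sum_abs _ _).trans (Finset.sum_le_sum fun i _ => ?_)
        rw [abs_mul, Int.abs_eq_natAbs (a i)]
        have hi := i.2
        have h2 := ih (n - k + i) (by omega)
        refine mul_le_mul_of_nonneg_left (h2.trans ?_) (Int.natCast_nonneg _)
        have h3 : t0 ^ (n - k + (i : ℕ)) ≤ t0 ^ (n - 1) :=
          Nat.pow_le_pow_right (by omega) (by omega)
        exact_mod_cast Nat.mul_le_mul_left Y0 h3
      refine h1.trans ?_
      rw [← Finset.sum_mul]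
      rcases n with _ | n
      · have hk : k = 0 := by omega
        subst hk
        rw [Finset.univ_eq_empty, Finset.sum_empty, zero_mul]
        exact Int.natCast_nonneg _
      · have h4 : (∑ i, (a i).natAbs) * (Y0 * t0 ^ (n + 1 - 1)) ≤ Y0 * t0 ^ (n + 1) := by
          rw [Nat.add_sub_cancel, pow_succ]
          calc (∑ i, (a i).natAbs) * (Y0 * t0 ^ n) ≤ t0 * (Y0 * t0 ^ n) :=
                Nat.mul_le_mul_right _ (by omega)
            _ = Y0 * (t0 ^ n * t0) := by ring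
        exact_mod_cast h4

/-- a vector indexed by the letters -/
private def vec {k : ℕ} (x y e : ℕ) (z : Fin (k + 1) → ℕ) :
    Option (Option (Option (Fin (k + 1)))) → ℕ
  | none => x
  | some none => y
  | some (some none) => e
  | some (some (some i)) => z i

/-- the matrix of the system -/
private def MM {k : ℕ} (N : Matrix (Fin (k + 1)) (Fin (k + 1)) ℕ) (R eX eY : ℕ)
    (E eZ : Fin (k + 1) → ℕ) :
    Matrix (Option (Option (Option (Fin (k + 1))))) (Option (Option (Option (Fin (k + 1))))) ℕ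
  | none => vec 0 1 eX 0
  | some none => vec R 0 eY E
  | some (some none) => vec 0 0 0 0
  | some (some (some i)) => vec 0 0 (eZ i) (N i)

private theorem vm_X {k : ℕ} (N : Matrix (Fin (k + 1)) (Fin (k + 1)) ℕ) (R eX eY : ℕ)
    (E eZ : Fin (k + 1) → ℕ) (v : Option (Option (Option (Fin (k + 1)))) → ℕ) :
    Matrix.vecMul v (MM N R eX eY E eZ) none = v (some none) * R := by
  simp [Matrix.vecMul, dotProduct, Fintype.sum_option, MM, vec]

private theorem vm_Y {k : ℕ} (N : Matrix (Fin (k + 1)) (Fin (k + 1)) ℕ) (R eX eY : ℕ)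
    (E eZ : Fin (k + 1) → ℕ) (v : Option (Option (Option (Fin (k + 1)))) → ℕ) :
    Matrix.vecMul v (MM N R eX eY E eZ) (some none) = v none := by
  simp [Matrix.vecMul, dotProduct, Fintype.sum_option, MM, vec]

private theorem vm_e {k : ℕ} (N : Matrix (Fin (k + 1)) (Fin (k + 1)) ℕ) (R eX eY : ℕ)
    (E eZ : Fin (k + 1) → ℕ) (v : Option (Option (Option (Fin (k + 1)))) → ℕ) :
    Matrix.vecMul v (MM N R eX eY E eZ) (some (some none)) =
      v none * eX + (v (some none) * eY + ∑ i, v (some (some (some i))) * eZ i) := by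
  simp [Matrix.vecMul, dotProduct, Fintype.sum_option, MM, vec]

private theorem vm_Z {k : ℕ} (N : Matrix (Fin (k + 1)) (Fin (k + 1)) ℕ) (R eX eY : ℕ)
    (E eZ : Fin (k + 1) → ℕ) (v : Option (Option (Option (Fin (k + 1)))) → ℕ)
    (j : Fin (k + 1)) :
    Matrix.vecMul v (MM N R eX eY E eZ) (some (some (some j))) =
      v (some none) * E j + ∑ i, v (some (some (some i))) * N i j := by
  simp [Matrix.vecMul, dotProduct, Fintype.sum_option, MM, vec]

private theorem vm_sum {k : ℕ} (N : Matrix (Fin (k + 1)) (Fin (k + 1)) ℕ) (R eX eY : ℕ)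
    (E eZ : Fin (k + 1) → ℕ) (v : Option (Option (Option (Fin (k + 1)))) → ℕ) :
    ∑ b, Matrix.vecMul v (MM N R eX eY E eZ) b =
      v none * (1 + eX) + v (some none) * (R + eY + ∑ j, E j) +
        ∑ i, v (some (some (some i))) * (eZ i + ∑ j, N i j) := by
  rw [Fintype.sum_option, Fintype.sum_option, Fintype.sum_option, vm_X, vm_Y, vm_e,
    Finset.sum_congr rfl fun j _ => vm_Z N R eX eY E eZ v j, Finset.sum_add_distrib,
    ← Finset.mul_sum, Finset.sum_comm]
  have h1 : ∑ i, v (some (some (some i))) * (eZ i + ∑ j, N i j) =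
      ∑ i, v (some (some (some i))) * eZ i +
        ∑ i, ∑ j, v (some (some (some i))) * N i j := by
    rw [← Finset.sum_add_distrib]
    refine Finset.sum_congr rfl fun i _ => ?_
    rw [mul_add, Finset.mul_sum]
  rw [h1]
  ring

theorem exists_system (k : ℕ) (a u : Fin k → ℤ) :
    ∃ p : List (List ℕ) × List ℕ, (letters p).card ≤ k + 4 ∧ ∃ c : ℤ, 0 < c ∧
      (∀ m : ℕ, (grow p (2 * m + 2) : ℤ) - grow p (2 * m + 1) = c * 4 ^ m * lrs a u (2 * m)) ∧
      ∀ m : ℕ, grow p (2 * m) ≤ grow p (2 * m + 1) := by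
  classical
  obtain ⟨N, η, s, c, hc, hη, hη1, key⟩ := core k a u
  obtain ⟨Nz, hNz⟩ : ∃ Nz : Matrix (Fin (k + 1)) (Fin (k + 1)) ℤ,
    Nz = N.map (Nat.cast : ℕ → ℤ) := ⟨_, rfl⟩
  rw [← hNz] at key
  have hNz2 : ∀ i j, Nz i j = (N i j : ℤ) := fun i j => by rw [hNz]; rfl
  obtain ⟨Y0, t0, ht0, hb⟩ : ∃ Y0 t0 : ℕ, 1 ≤ t0 ∧
    ∀ n, |lrs a u n| ≤ ((Y0 * t0 ^ n : ℕ) : ℤ) :=
    ⟨1 + ∑ i, (u i).natAbs, 1 + ∑ i, (a i).natAbs, by omega, h86_lrs_bound a u⟩
  obtain ⟨t, ht⟩ : ∃ t : ℕ, t = 2 * t0 := ⟨_, rfl⟩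
  obtain ⟨Y, hY⟩ : ∃ Y : ℕ, Y = c.toNat * Y0 := ⟨_, rfl⟩
  obtain ⟨cs, hcs⟩ : ∃ cs : Fin (k + 1) → ℕ, cs = fun j => ∑ l, N l j := ⟨_, rfl⟩
  obtain ⟨R, hR⟩ : ∃ R : ℕ, R = t ^ 2 + 2 + ∑ j, ∑ i, cs i * N i j := ⟨_, rfl⟩
  have hRj : ∀ j, ∑ i, cs i * N i j ≤ R := by
    intro j
    have h1 : ∑ i, cs i * N i j ≤ ∑ j, ∑ i, cs i * N i j :=
      Finset.single_le_sum (f := fun j => ∑ i, cs i * N i j) (fun _ _ => Nat.zero_le _)
        (Finset.mem_univ _)
    omega
  obtain ⟨E, hE⟩ : ∃ E : Fin (k + 1) → ℕ, ∀ j, E j + ∑ i, cs i * N i j = R :=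
    ⟨fun j => R - ∑ i, cs i * N i j, fun j => Nat.sub_add_cancel (hRj j)⟩
  obtain ⟨K, hK⟩ : ∃ K : ℕ, K = Y * t + ∑ i, (s i).natAbs := ⟨_, rfl⟩
  obtain ⟨hX, hhX⟩ : ∃ hX : ℕ, hX = R + ∑ j, E j + ∑ j, cs j * η j := ⟨_, rfl⟩
  obtain ⟨hY', hhY⟩ : ∃ hY' : ℕ, hY' = R + ∑ j, E j + ∑ j, η j := ⟨_, rfl⟩
  obtain ⟨M, hM⟩ : ∃ M, M = MM N R (hX - 1) (∑ j, η j) E (fun i => η i - ∑ j, N i j) :=
    ⟨_, rfl⟩
  obtain ⟨w, hw⟩ : ∃ w : Option (Option (Option (Fin (k + 1)))) → ℕ,
    w = vec K 0 0 (fun i => ((K : ℤ) + s i).toNat) := ⟨_, rfl⟩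
  obtain ⟨p, hp1, hp2⟩ := exists_d0l M w
  obtain ⟨v, hv⟩ : ∃ v : ℕ → Option (Option (Option (Fin (k + 1)))) → ℕ,
    v = fun n => Matrix.vecMul w (M ^ n) := ⟨_, rfl⟩
  have hv0 : v 0 = w := by
    rw [hv]
    simp only
    rw [pow_zero, Matrix.vecMul_one]
  have hvs : ∀ n, v (n + 1) = Matrix.vecMul (v n) M := by
    intro n
    rw [hv]
    simp only
    rw [Matrix.vecMul_vecMul, pow_succ]
  have hg : ∀ n, grow p n = ∑ b, v n b := by
    intro n
    rw [hp2 n, hv]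
  have hgs : ∀ n, grow p (n + 1) = v n none * hX + v n (some none) * hY' +
      ∑ i, v n (some (some (some i))) * η i := by
    intro n
    rw [hg, hvs, hM, vm_sum]
    have h1 : 1 + (hX - 1) = hX := by omega
    have h2 : R + ∑ j, η j + ∑ j, E j = hY' := by omega
    rw [h1, h2]
    congr 1
    refine Finset.sum_congr rfl fun i _ => ?_
    rw [Nat.sub_add_cancel (hη i)]
  have hR2 : (2 : ℤ) ≤ R := by
    have : 2 ≤ R := by omega
    exact_mod_cast this
  have hKs : ∀ i, 0 ≤ (K : ℤ) + s i := by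
    intro i
    have h1 : (s i).natAbs ≤ ∑ i, (s i).natAbs :=
      Finset.single_le_sum (f := fun i => (s i).natAbs) (fun _ _ => Nat.zero_le _)
        (Finset.mem_univ _)
    omega
  have inv : ∀ m : ℕ, v (2 * m) none = K * R ^ m ∧ v (2 * m) (some none) = 0 ∧
      ∀ i, (v (2 * m) (some (some (some i))) : ℤ) =
        K * R ^ m + Matrix.vecMul s (Nz ^ (2 * m)) i := by
    intro m
    induction m with
    | zero =>
      rw [mul_zero, hv0, hw]
      refine ⟨?_, rfl, fun i => ?_⟩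
      · rw [pow_zero, mul_one]
        rfl
      · rw [pow_zero, pow_zero, Matrix.vecMul_one, mul_one]
        exact Int.toNat_of_nonneg (hKs i)
    | succ m ih =>
      obtain ⟨i1, i2, i3⟩ := ih
      have e : 2 * (m + 1) = 2 * m + 1 + 1 := by ring
      have o1 : v (2 * m + 1) none = 0 := by
        rw [hvs, hM, vm_X, i2, zero_mul]
      have o2 : v (2 * m + 1) (some none) = K * R ^ m := by
        rw [hvs, hM, vm_Y, i1]
      have o3 : ∀ j, (v (2 * m + 1) (some (some (some j))) : ℤ) =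
          K * R ^ m * cs j + Matrix.vecMul s (Nz ^ (2 * m + 1)) j := by
        intro j
        rw [hvs, hM, vm_Z, i2, zero_mul, zero_add]
        push_cast
        rw [pow_succ Nz, ← Matrix.vecMul_vecMul, hcs]
        push_cast
        rw [Finset.mul_sum]
        change _ = _ + ∑ i, Matrix.vecMul s (Nz ^ (2 * m)) i * Nz i j
        rw [← Finset.sum_add_distrib]
        refine Finset.sum_congr rfl fun i _ => ?_
        rw [i3 i, hNz2]
        ring
      rw [e]
      refine ⟨?_, ?_, fun j => ?_⟩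
      · rw [hvs, hM, vm_X, o2, pow_succ, mul_assoc]
      · rw [hvs, hM, vm_Y, o1]
      · rw [hvs, hM, vm_Z, o2, pow_succ Nz (2 * m + 1), ← Matrix.vecMul_vecMul]
        push_cast
        change _ = _ + ∑ i, Matrix.vecMul s (Nz ^ (2 * m + 1)) i * Nz i j
        have h2 : ((E j : ℤ) + ∑ i, (cs i : ℤ) * (N i j : ℤ)) = R := by
          have := hE j
          exact_mod_cast this
        have h3 : ∑ i, (v (2 * m + 1) (some (some (some i))) : ℤ) * (N i j : ℤ) =
            K * R ^ m * ∑ i, (cs i : ℤ) * (N i j : ℤ) +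
              ∑ i, Matrix.vecMul s (Nz ^ (2 * m + 1)) i * Nz i j := by
          rw [Finset.mul_sum, ← Finset.sum_add_distrib]
          refine Finset.sum_congr rfl fun i _ => ?_
          rw [o3 i, hNz2]
          ring
        rw [h3, pow_succ, ← h2]
        ring
  have odd : ∀ m : ℕ, v (2 * m + 1) none = 0 ∧ v (2 * m + 1) (some none) = K * R ^ m ∧
      ∀ j, (v (2 * m + 1) (some (some (some j))) : ℤ) =
          K * R ^ m * cs j + Matrix.vecMul s (Nz ^ (2 * m + 1)) j := by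
    intro m
    obtain ⟨i1, i2, i3⟩ := inv m
    refine ⟨by rw [hvs, hM, vm_X, i2, zero_mul], by rw [hvs, hM, vm_Y, i1], fun j => ?_⟩
    rw [hvs, hM, vm_Z, i2, zero_mul, zero_add]
    push_cast
    rw [pow_succ Nz, ← Matrix.vecMul_vecMul, hcs]
    push_cast
    rw [Finset.mul_sum]
    change _ = _ + ∑ i, Matrix.vecMul s (Nz ^ (2 * m)) i * Nz i j
    rw [← Finset.sum_add_distrib]
    refine Finset.sum_congr rfl fun i _ => ?_
    rw [i3 i, hNz2]
    ring
  obtain ⟨D, hD⟩ : ∃ D : ℕ → ℤ, D = fun n => s ⬝ᵥ (Nz ^ n).mulVec (fun i => (η i : ℤ)) :=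
    ⟨_, rfl⟩
  have hkey : ∀ n, D (n + 1) - D n = c * 2 ^ n * lrs a u n := by
    intro n
    rw [hD]
    exact key n
  have hDs : ∀ n, ∑ i, Matrix.vecMul s (Nz ^ n) i * (η i : ℤ) = D n := by
    intro n
    rw [hD]
    simp only
    rw [Matrix.dotProduct_mulVec]
    rfl
  have g1 : ∀ m : ℕ, (grow p (2 * m + 1) : ℤ) =
      K * R ^ m * (hX + ∑ i, (η i : ℤ)) + D (2 * m) := by
    intro m
    obtain ⟨i1, i2, i3⟩ := inv m
    rw [hgs, i1, i2]
    push_cast
    have h3 : ∑ i, (v (2 * m) (some (some (some i))) : ℤ) * (η i : ℤ) =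
        K * R ^ m * ∑ i, (η i : ℤ) + D (2 * m) := by
      rw [← hDs, Finset.mul_sum, ← Finset.sum_add_distrib]
      refine Finset.sum_congr rfl fun i _ => ?_
      rw [i3 i]
      ring
    rw [h3]
    ring
  have g2 : ∀ m : ℕ, (grow p (2 * m + 2) : ℤ) =
      K * R ^ m * (hY' + ∑ i, (cs i : ℤ) * (η i : ℤ)) + D (2 * m + 1) := by
    intro m
    obtain ⟨i1, i2, i3⟩ := odd m
    rw [hgs, i1, i2]
    push_cast
    have h3 : ∑ i, (v (2 * m + 1) (some (some (some i))) : ℤ) * (η i : ℤ) =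
        K * R ^ m * ∑ i, (cs i : ℤ) * (η i : ℤ) + D (2 * m + 1) := by
      rw [← hDs, Finset.mul_sum, ← Finset.sum_add_distrib]
      refine Finset.sum_congr rfl fun i _ => ?_
      rw [i3 i]
      ring
    rw [h3]
    ring
  have hXY : (hX : ℤ) + ∑ i, (η i : ℤ) = hY' + ∑ i, (cs i : ℤ) * (η i : ℤ) := by
    have : hX + ∑ i, η i = hY' + ∑ i, cs i * η i := by omega
    exact_mod_cast this
  refine ⟨p, ?_, c, hc, fun m => ?_, fun m => ?_⟩
  · refine hp1.trans (le_of_eq ?_)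
    rw [Fintype.card_option, Fintype.card_option, Fintype.card_option, Fintype.card_fin]
  · have h4 : (4 : ℤ) ^ m = 2 ^ (2 * m) := by
      rw [pow_mul]
      norm_num
    rw [g1, g2, ← hXY, h4, ← hkey (2 * m)]
    ring
  · rcases m with _ | m
    · rw [mul_zero, zero_add, hg 0, hgs 0, hv0, Fintype.sum_option, Fintype.sum_option,
        Fintype.sum_option]
      have w2 : w (some none) = 0 := by rw [hw]; rfl
      have w3 : w (some (some none)) = 0 := by rw [hw]; rfl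
      have h1 : ∑ i, w (some (some (some i))) ≤ ∑ i, w (some (some (some i))) * η i :=
        Finset.sum_le_sum fun i _ => Nat.le_mul_of_pos_right _ (hη1 i)
      have h2 : w none ≤ w none * hX := Nat.le_mul_of_pos_right _ (by omega)
      rw [w2, w3]
      omega
    · have e1 : 2 * (m + 1) = 2 * m + 2 := by ring
      have e2 : 2 * (m + 1) + 1 = 2 * (m + 1) + 1 := rfl
      have h5 : (grow p (2 * (m + 1)) : ℤ) ≤ grow p (2 * (m + 1) + 1) := by
        rw [g1 (m + 1), e1, g2 m, ← hXY]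
        have h6 := hkey (2 * m + 1)
        have e3 : 2 * m + 1 + 1 = 2 * m + 2 := rfl
        rw [e3] at h6
        have h7 : |c * 2 ^ (2 * m + 1) * lrs a u (2 * m + 1)| ≤ (K : ℤ) * R ^ m := by
          rw [abs_mul, abs_of_pos (by positivity)]
          have h8 := hb (2 * m + 1)
          have h9 : c * 2 ^ (2 * m + 1) * |lrs a u (2 * m + 1)| ≤
              c * 2 ^ (2 * m + 1) * ((Y0 * t0 ^ (2 * m + 1) : ℕ) : ℤ) :=
            mul_le_mul_of_nonneg_left h8 (by positivity)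
          refine h9.trans ?_
          have h10 : c * 2 ^ (2 * m + 1) * ((Y0 * t0 ^ (2 * m + 1) : ℕ) : ℤ) =
              ((Y * t * (t ^ 2) ^ m : ℕ) : ℤ) := by
            rw [hY, ht]
            push_cast
            rw [Int.toNat_of_nonneg hc.le, ← pow_mul, pow_succ (2 : ℤ) (2 * m),
              pow_succ (t0 : ℤ) (2 * m), mul_pow]
            ring
          rw [h10]
          have h11 : Y * t * (t ^ 2) ^ m ≤ K * R ^ m := by
            refine Nat.mul_le_mul (by omega) (Nat.pow_le_pow_left (by omega) m)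
          exact_mod_cast h11
        have h12 := neg_abs_le (c * 2 ^ (2 * m + 1) * lrs a u (2 * m + 1))
        have h13 : (1 : ℤ) ≤ hX + ∑ i, (η i : ℤ) := by
          have : 1 ≤ hX + ∑ i, η i := by omega
          exact_mod_cast this
        have h14 : (0 : ℤ) ≤ (K : ℤ) * R ^ m := by positivity
        have h15 : (K : ℤ) * R ^ m * 1 ≤ K * R ^ m * ((R - 1) * (hX + ∑ i, (η i : ℤ))) := by
          refine mul_le_mul_of_nonneg_left ?_ h14
          nlinarith
        have h16 : (K : ℤ) * R ^ (m + 1) * (hX + ∑ i, (η i : ℤ)) =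
            K * R ^ m * (hX + ∑ i, (η i : ℤ)) +
              K * R ^ m * ((R - 1) * (hX + ∑ i, (η i : ℤ))) := by
          rw [pow_succ]
          ring
        linarith
      exact_mod_cast h5

/-- the shifted sequence is a recurrence sequence with the same coefficients -/
theorem lrs_shift (k : ℕ) (a u : Fin k → ℤ) :
    ∃ u' : Fin k → ℤ, ∀ n : ℕ, lrs a u' n = lrs a u (n + 1) := by
  refine ⟨fun i => lrs a u (i + 1), fun n => ?_⟩
  induction n using Nat.strong_induction_on with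
  | _ n ih =>
    by_cases h : n < k
    · rw [h86_lrs_lt _ _ h]
    · rw [h86_lrs_ge _ _ h, h86_lrs_ge a u (n := n + 1) (by omega)]
      refine Finset.sum_congr rfl fun i _ => ?_
      have hi := i.2
      rw [ih (n - k + i) (by omega)]
      congr 2
      omega

end Pool.Agent.Helper73.DM
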